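import Mathlib

/-!
# Words accepted by small nondeterministic automata

If a sequence has no long periodic stretches (as it is the case for the digits of a number with a
finite irrationality measure), then every nondeterministic automaton with few states which accepts
the word formed by the first `N` terms accepts many other words of length `N`.
-/

set_option autoImplicit false

namespace Pool.Agent.X3.NfaWords

open Finset

variable {α σ : Type}

/-- there is a path from `s` to `t` labelled by the word -/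
inductive P (M : NFA α σ) : σ → List α → σ → Prop
  | nil (s : σ) : P M s [] s
  | cons {s s' t : σ} {a : α} {w : List α} : s' ∈ M.step s a → P M s' w t → P M s (a :: w) t

lemma P_append {M : NFA α σ} {s m t : σ} {u v : List α} (h1 : P M s u m) (h2 : P M m v t) :
    P M s (u ++ v) t := by
  induction h1 with
  | nil s => exact h2
  | cons h _ ih => exact P.cons h (ih h2)

lemma P_of_path {M : NFA α σ} {s t : σ} {w : List α} (p : M.Path s t w) : P M s w t := by
  induction p with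
  | nil s => exact P.nil s
  | cons s' s t a x h _ ih => exact P.cons h ih

lemma path_of_P {M : NFA α σ} {s t : σ} {w : List α} (p : P M s w t) : Nonempty (M.Path s t w) := by
  induction p with
  | nil s => exact ⟨NFA.Path.nil s⟩
  | cons h _ ih =>
    obtain ⟨q⟩ := ih
    exact ⟨NFA.Path.cons _ _ _ _ _ h q⟩

/-- the word `x a, …, x (b - 1)` -/
def seg (x : ℕ → α) (a b : ℕ) : List α := (List.range' a (b - a)).map x

lemma seg_length (x : ℕ → α) (a b : ℕ) : (seg x a b).length = b - a := by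
  simp [seg]

lemma seg_get (x : ℕ → α) (a b k : ℕ) (h : k < b - a) : (seg x a b)[k]? = some (x (a + k)) := by
  simp [seg, h]

lemma seg_append (x : ℕ → α) {a b c : ℕ} (h1 : a ≤ b) (h2 : b ≤ c) :
    seg x a b ++ seg x b c = seg x a c := by
  unfold seg
  rw [← List.map_append]
  congr 1
  have h3 : c - a = (b - a) + (c - b) := by omega
  rw [h3]
  have h4 : b = a + 1 * (b - a) := by omega
  conv_lhs => rw [h4]
  have h5 : a + 1 * (b - a) - a = b - a := by omega
  have h6 : c - (a + 1 * (b - a)) = c - b := by omega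
  rw [h5, h6, List.range'_append]

/-- a run of the automaton on the sequence -/
def Run (M : NFA α σ) (x : ℕ → α) (f : ℕ → σ) (N : ℕ) : Prop :=
  ∀ i, i < N → f (i + 1) ∈ M.step (f i) (x i)

lemma P_of_run {M : NFA α σ} {x : ℕ → α} {f : ℕ → σ} {N : ℕ} (h : Run M x f N) {a b : ℕ}
    (hab : a ≤ b) (hb : b ≤ N) : P M (f a) (seg x a b) (f b) := by
  obtain ⟨n, rfl⟩ := Nat.exists_eq_add_of_le hab
  induction n generalizing a with
  | zero =>
    have : seg x a (a + 0) = [] := by simp [seg]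
    rw [this]
    exact P.nil _
  | succ n ih =>
    have e : seg x a (a + (n + 1)) = x a :: seg x (a + 1) (a + 1 + n) := by
      unfold seg
      have h1 : a + (n + 1) - a = n + 1 := by omega
      have h2 : a + 1 + n - (a + 1) = n := by omega
      rw [h1, h2, List.range'_succ]
      rfl
    have e2 : a + (n + 1) = a + 1 + n := by ring
    rw [e]
    refine P.cons (h a (by omega)) ?_
    have := ih (a := a + 1) (by omega) (by omega)
    rw [e2]
    exact this

lemma run_of_P {M : NFA α σ} {x : ℕ → α} (n : ℕ) : ∀ (a : ℕ) (s t : σ),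
    P M s (seg x a (a + n)) t → ∃ f : ℕ → σ, f a = s ∧ f (a + n) = t ∧
      ∀ i, a ≤ i → i < a + n → f (i + 1) ∈ M.step (f i) (x i) := by
  induction n with
  | zero =>
    intro a s t h
    have e : seg x a (a + 0) = [] := by simp [seg]
    rw [e] at h
    cases h
    exact ⟨fun _ => s, rfl, rfl, fun i h1 h2 => by omega⟩
  | succ n ih =>
    intro a s t h
    have e : seg x a (a + (n + 1)) = x a :: seg x (a + 1) (a + 1 + n) := by
      unfold seg
      have h1 : a + (n + 1) - a = n + 1 := by omega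
      have h2 : a + 1 + n - (a + 1) = n := by omega
      rw [h1, h2, List.range'_succ]
      rfl
    rw [e] at h
    cases h with
    | cons h1 h2 =>
      rename_i s'
      obtain ⟨f, hf1, hf2, hf3⟩ := ih (a + 1) s' t h2
      classical
      refine ⟨fun i => if i = a then s else f i, by simp, ?_, ?_⟩
      · have e3 : a + (n + 1) = a + 1 + n := by ring
        have e4 : a + (n + 1) ≠ a := by omega
        simp only [e4, if_false]
        rw [e3]; exact hf2
      · intro i hi1 hi2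
        have e5 : i + 1 ≠ a := by omega
        simp only [e5, if_false]
        by_cases hia : i = a
        · subst hia
          simp only [if_true]
          rw [hf1]
          exact h1
        · simp only [hia, if_false]
          exact hf3 i (by omega) (by omega)

/-- repetition of a loop -/
lemma P_loop {M : NFA α σ} {s : σ} {w : List α} (h : P M s w s) (m : ℕ) :
    P M s (List.replicate m w).flatten s := by
  induction m with
  | zero => exact P.nil s
  | succ m ih =>
    rw [List.replicate_succ, List.flatten_cons]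
    exact P_append h ih

/-- no long periodic stretches -/
def NoPer (x : ℕ → α) (ρ : ℝ) (N₀ : ℕ) : Prop :=
  ∀ N : ℕ, N₀ ≤ N → ∀ s : ℕ, 1 ≤ s → ∃ i : ℕ, N ≤ i ∧ ((i + s : ℕ) : ℝ) ≤ ρ * ((N : ℝ) + s) ∧
    x (i + s) ≠ x i

/-- the exchange of loops -/
theorem exchange [Fintype σ] {M : NFA α σ} {z x : ℕ → α} {ρ : ℝ} {N₀ : ℕ} (hz : NoPer z ρ N₀)
    (hρ : 0 ≤ ρ) {f : ℕ → σ} {N : ℕ} (hf : Run M x f N) {T U : ℕ} (hT : N₀ ≤ T)
    (hTU : T + Fintype.card σ ^ 2 ≤ U) (hU : ρ * ((T : ℝ) + (Fintype.card σ : ℝ) ^ 2) ≤ U)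
    (hN : U + Fintype.card σ ≤ N) (hzx : ∀ i, T ≤ i → i < U + Fintype.card σ → x i = z i) :
    ∃ w : List α, w ≠ seg x T (U + Fintype.card σ) ∧ w.length = U + Fintype.card σ - T ∧
      P M (f T) w (f (U + Fintype.card σ)) := by
  classical
  obtain ⟨q, hq⟩ : ∃ q, q = Fintype.card σ := ⟨_, rfl⟩
  rw [← hq] at hTU hU hN hzx ⊢
  -- the late loop
  obtain ⟨u, v, huv, hu1, hv1, hfuv⟩ : ∃ u v : ℕ, u < v ∧ U ≤ u ∧ v ≤ U + q ∧ f u = f v := by
    have h1 : (univ : Finset σ).card < (range (q + 1)).card := by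
      rw [card_univ, card_range, hq]; exact Nat.lt_succ_self _
    obtain ⟨i, hi, j, hj, hij, he⟩ := exists_ne_map_eq_of_card_lt_of_maps_to h1
      (f := fun i => f (U + i)) (fun i _ => mem_univ _)
    rw [mem_range] at hi hj
    rcases lt_or_gt_of_ne hij with h | h
    · exact ⟨U + i, U + j, by omega, by omega, by omega, he⟩
    · exact ⟨U + j, U + i, by omega, by omega, by omega, he.symm⟩
  obtain ⟨c, hc⟩ : ∃ c, c = v - u := ⟨_, rfl⟩
  have hc1 : 1 ≤ c := by omega
  have hcq : c ≤ q := by omega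
  -- the early loop
  obtain ⟨u', v', huv', hu1', hv1', hfuv', hmod⟩ : ∃ u' v' : ℕ, u' < v' ∧ T ≤ u' ∧ v' ≤ T + q ^ 2 ∧
      f u' = f v' ∧ c ∣ v' - u' := by
    have h1 : ((univ : Finset σ) ×ˢ range c).card < (range (q ^ 2 + 1)).card := by
      rw [card_product, card_univ, card_range, card_range, ← hq]
      have : q * c ≤ q * q := Nat.mul_le_mul_left _ hcq
      nlinarith
    obtain ⟨i, hi, j, hj, hij, he⟩ := exists_ne_map_eq_of_card_lt_of_maps_to h1
      (f := fun i => (f (T + i), i % c)) (fun i _ => by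
        simp only [coe_product, coe_univ, coe_range, Set.mem_prod, Set.mem_univ, true_and,
          Set.mem_Iio]
        exact Nat.mod_lt _ hc1)
    rw [mem_range] at hi hj
    simp only [Prod.mk.injEq] at he
    rcases lt_or_gt_of_ne hij with h | h
    · refine ⟨T + i, T + j, by omega, by omega, by omega, he.1, ?_⟩
      have e : T + j - (T + i) = j - i := by omega
      rw [e]
      exact (Nat.modEq_iff_dvd' h.le).1 he.2
    · refine ⟨T + j, T + i, by omega, by omega, by omega, he.1.symm, ?_⟩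
      have e : T + i - (T + j) = i - j := by omega
      rw [e]
      exact (Nat.modEq_iff_dvd' h.le).1 he.2.symm
  obtain ⟨m, hm⟩ := hmod
  have hmc : m * c = v' - u' := by rw [hm]; ring
  refine ⟨seg x T u' ++ (seg x v' v ++ ((List.replicate m (seg x u v)).flatten ++
    seg x v (U + q))), ?_, ?_, ?_⟩
  · intro he
    obtain ⟨i, hi1, hi2, hi3⟩ := hz u' (by omega) (v' - u') (by omega)
    have hi4 : ((i + (v' - u') : ℕ) : ℝ) ≤ U := by
      refine hi2.trans (le_trans ?_ hU)
      refine mul_le_mul_of_nonneg_left ?_ hρ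
      have h3 : ((v' - u' : ℕ) : ℝ) = (v' : ℝ) - u' := by
        rw [Nat.cast_sub huv'.le]
      rw [h3]
      have h4 : (v' : ℝ) ≤ T + (q : ℝ) ^ 2 := by exact_mod_cast hv1'
      linarith
    have hi5 : i + (v' - u') ≤ U := by exact_mod_cast hi4
    have e1 : (seg x T (U + q))[i - T]? = some (x i) := by
      rw [seg_get x T (U + q) (i - T) (by omega)]
      congr 2; omega
    rw [← he] at e1
    have e2 : (seg x T u' ++ (seg x v' v ++ ((List.replicate m (seg x u v)).flatten ++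
        seg x v (U + q))))[i - T]? = some (x (i + (v' - u'))) := by
      rw [List.getElem?_append_right (by rw [seg_length]; omega), seg_length,
        List.getElem?_append_left (by rw [seg_length]; omega),
        seg_get x v' v _ (by omega)]
      congr 2; omega
    rw [e2] at e1
    apply hi3
    rw [← hzx (i + (v' - u')) (by omega) (by omega), ← hzx i (by omega) (by omega)]
    exact Option.some.inj e1
  · simp only [List.length_append, seg_length, List.length_flatten, List.map_replicate,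
      List.sum_replicate, smul_eq_mul]
    rw [← hc, hmc]
    omega
  · have p1 := P_of_run hf (show T ≤ u' by omega) (by omega)
    have p2 := P_of_run hf (show v' ≤ v by omega) (by omega)
    have p3 := P_of_run hf (show u ≤ v by omega) (by omega)
    have p4 := P_of_run hf (show v ≤ U + q by omega) (by omega)
    rw [hfuv] at p3
    rw [← hfuv'] at p2
    exact P_append p1 (P_append p2 (P_append (P_loop p3 m) p4))

/-- the thresholds -/
noncomputable def Th (ρ : ℝ) (q T₀ : ℕ) : ℕ → ℕ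
  | 0 => T₀
  | j + 1 => ⌈ρ * ((Th ρ q T₀ j : ℝ) + (q : ℝ) ^ 2)⌉₊ + q

lemma Th_step {ρ : ℝ} (hρ : 1 ≤ ρ) (q T₀ j : ℕ) :
    Th ρ q T₀ j + q ^ 2 ≤ ⌈ρ * ((Th ρ q T₀ j : ℝ) + (q : ℝ) ^ 2)⌉₊ := by
  have h : ((Th ρ q T₀ j + q ^ 2 : ℕ) : ℝ) ≤ ρ * ((Th ρ q T₀ j : ℝ) + (q : ℝ) ^ 2) := by
    push_cast
    have : (0 : ℝ) ≤ (Th ρ q T₀ j : ℝ) + (q : ℝ) ^ 2 := by positivity
    nlinarith
  exact_mod_cast h.trans (Nat.le_ceil _)

lemma Th_lt {ρ : ℝ} (hρ : 1 ≤ ρ) {q : ℕ} (hq : 1 ≤ q) (T₀ j : ℕ) :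
    Th ρ q T₀ j < Th ρ q T₀ (j + 1) := by
  have h := Th_step hρ q T₀ j
  show _ < ⌈ρ * ((Th ρ q T₀ j : ℝ) + (q : ℝ) ^ 2)⌉₊ + q
  omega

lemma Th_ge {ρ : ℝ} (hρ : 1 ≤ ρ) (q T₀ j : ℕ) : T₀ ≤ Th ρ q T₀ j := by
  induction j with
  | zero => exact le_rfl
  | succ j ih =>
    have h := Th_step hρ q T₀ j
    show _ ≤ ⌈ρ * ((Th ρ q T₀ j : ℝ) + (q : ℝ) ^ 2)⌉₊ + q
    omega

lemma Th_le {ρ A : ℝ} (hρ : 1 < ρ) (hA : A * (ρ - 1) = ρ + 2) {q : ℕ} (hq : 1 ≤ q) (T₀ j : ℕ) :
    (Th ρ q T₀ j : ℝ) + A * (q : ℝ) ^ 2 ≤ ρ ^ j * (T₀ + A * (q : ℝ) ^ 2) := by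
  induction j with
  | zero => simp [Th]
  | succ j ih =>
    have hqR : (1 : ℝ) ≤ q := by exact_mod_cast hq
    have h1 : ((Th ρ q T₀ (j + 1) : ℕ) : ℝ) ≤
        ρ * ((Th ρ q T₀ j : ℝ) + (q : ℝ) ^ 2) + 1 + q := by
      show ((⌈ρ * ((Th ρ q T₀ j : ℝ) + (q : ℝ) ^ 2)⌉₊ + q : ℕ) : ℝ) ≤ _
      push_cast
      have := Nat.ceil_lt_add_one (show 0 ≤ ρ * ((Th ρ q T₀ j : ℝ) + (q : ℝ) ^ 2) by positivity)
      linarith
    have h2 : (1 : ℝ) + q ≤ 2 * (q : ℝ) ^ 2 := by nlinarith
    have h3 : (Th ρ q T₀ (j + 1) : ℝ) + A * (q : ℝ) ^ 2 ≤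
        ρ * ((Th ρ q T₀ j : ℝ) + A * (q : ℝ) ^ 2) := by
      have e : A * ρ = ρ + 2 + A := by linarith
      have e2 : ρ * ((Th ρ q T₀ j : ℝ) + A * (q : ℝ) ^ 2) =
        ρ * (Th ρ q T₀ j : ℝ) + (A * ρ) * (q : ℝ) ^ 2 := by ring
      rw [e2, e]
      nlinarith
    calc _ ≤ ρ * ((Th ρ q T₀ j : ℝ) + A * (q : ℝ) ^ 2) := h3
      _ ≤ ρ * (ρ ^ j * (T₀ + A * (q : ℝ) ^ 2)) := mul_le_mul_of_nonneg_left ih (by linarith)
      _ = _ := by ring

/-- many words -/
theorem many [Fintype σ] {M : NFA α σ} {z x : ℕ → α} {ρ : ℝ} {N₀ : ℕ} (hz : NoPer z ρ N₀)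
    (hρ : 1 ≤ ρ) {f : ℕ → σ} {N : ℕ} (hf : Run M x f N) (E : Finset ℕ)
    (hE : ∀ i, i < N → i ∉ E → x i = z i) (J : ℕ)
    (hJ : Th ρ (Fintype.card σ) N₀ J ≤ N) (l : ℕ) : ∀ j, j + l = J →
    ∃ W : Finset (List α),
      2 ^ l ≤ W.card * 2 ^ (E.filter fun i => Th ρ (Fintype.card σ) N₀ j ≤ i).card ∧ ∀ w ∈ W,
      w.length = N - Th ρ (Fintype.card σ) N₀ j ∧ P M (f (Th ρ (Fintype.card σ) N₀ j)) w (f N) := by
  classical
  have hq : 1 ≤ Fintype.card σ := Fintype.card_pos_iff.2 ⟨f 0⟩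
  have hmono : StrictMono (Th ρ (Fintype.card σ) N₀) := strictMono_nat_of_lt_succ (Th_lt hρ hq N₀)
  induction l with
  | zero =>
    intro j hj
    have : j = J := by omega
    subst this
    refine ⟨{seg x (Th ρ (Fintype.card σ) N₀ j) N}, ?_, fun w hw => ?_⟩
    · rw [card_singleton, one_mul, pow_zero]
      exact Nat.one_le_two_pow
    rw [mem_singleton] at hw
    subst hw
    exact ⟨seg_length _ _ _, P_of_run hf hJ le_rfl⟩
  | succ l ih =>
    intro j hj
    obtain ⟨W, hW1, hW2⟩ := ih (j + 1) (by omega)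
    have hle : Th ρ (Fintype.card σ) N₀ (j + 1) ≤ N :=
      le_trans (hmono.monotone (by omega)) hJ
    have hlt : Th ρ (Fintype.card σ) N₀ j < Th ρ (Fintype.card σ) N₀ (j + 1) := Th_lt hρ hq N₀ j
    have hdef : Th ρ (Fintype.card σ) N₀ (j + 1) =
      ⌈ρ * ((Th ρ (Fintype.card σ) N₀ j : ℝ) + (Fintype.card σ : ℝ) ^ 2)⌉₊ + Fintype.card σ := rfl
    obtain ⟨w0, hw0⟩ : ∃ w0, w0 = seg x (Th ρ (Fintype.card σ) N₀ j)
      (Th ρ (Fintype.card σ) N₀ (j + 1)) := ⟨_, rfl⟩
    have hw0l : w0.length = Th ρ (Fintype.card σ) N₀ (j + 1) - Th ρ (Fintype.card σ) N₀ j := by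
      rw [hw0, seg_length]
    have hw0p : P M (f (Th ρ (Fintype.card σ) N₀ j)) w0 (f (Th ρ (Fintype.card σ) N₀ (j + 1))) := by
      rw [hw0]; exact P_of_run hf hlt.le hle
    have inj : ∀ p : List α, Function.Injective (fun w => p ++ w) := fun p a b h =>
      List.append_cancel_left h
    have hsub : (E.filter fun i => Th ρ (Fintype.card σ) N₀ (j + 1) ≤ i) ⊆
        (E.filter fun i => Th ρ (Fintype.card σ) N₀ j ≤ i) := by
      intro i hi
      rw [mem_filter] at hi ⊢
      exact ⟨hi.1, hlt.le.trans hi.2⟩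
    by_cases hgood : ∀ i, Th ρ (Fintype.card σ) N₀ j ≤ i → i < Th ρ (Fintype.card σ) N₀ (j + 1) →
        i ∉ E
    · obtain ⟨w', hw1, hw2, hw3⟩ := exchange hz (by linarith) hf (T := Th ρ (Fintype.card σ) N₀ j)
        (U := ⌈ρ * ((Th ρ (Fintype.card σ) N₀ j : ℝ) + (Fintype.card σ : ℝ) ^ 2)⌉₊)
        (Th_ge hρ _ _ _) (Th_step hρ _ _ _) (Nat.le_ceil _) (by rw [← hdef]; exact hle)
        (by
          rw [← hdef]
          intro i hi1 hi2
          exact hE i (by omega) (hgood i hi1 hi2))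
      rw [← hdef] at hw1 hw2 hw3
      rw [← hw0] at hw1
      refine ⟨W.image (fun w => w0 ++ w) ∪ W.image (fun w => w' ++ w), ?_, ?_⟩
      · rw [card_union_of_disjoint, card_image_of_injective _ (inj w0),
          card_image_of_injective _ (inj w'), pow_succ]
        · have h1 := Nat.pow_le_pow_right (show 0 < 2 by norm_num) (card_le_card hsub)
          have h2 := Nat.mul_le_mul_left W.card h1
          calc 2 ^ l * 2 ≤ (W.card *
                2 ^ (E.filter fun i => Th ρ (Fintype.card σ) N₀ (j + 1) ≤ i).card) * 2 :=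
                Nat.mul_le_mul_right _ hW1
            _ ≤ (W.card * 2 ^ (E.filter fun i => Th ρ (Fintype.card σ) N₀ j ≤ i).card) * 2 :=
                Nat.mul_le_mul_right _ h2
            _ = _ := by ring
        · rw [disjoint_left]
          intro a ha hb
          rw [mem_image] at ha hb
          obtain ⟨u, -, hu⟩ := ha
          obtain ⟨v, -, hv⟩ := hb
          rw [← hv] at hu
          exact hw1 (List.append_inj_left hu (by rw [hw0l, hw2])).symm
      · intro w hw
        rw [mem_union, mem_image, mem_image] at hw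
        rcases hw with ⟨v, hv, rfl⟩ | ⟨v, hv, rfl⟩
        · obtain ⟨h1, h2⟩ := hW2 v hv
          refine ⟨?_, P_append hw0p h2⟩
          rw [List.length_append, h1, hw0l]
          omega
        · obtain ⟨h1, h2⟩ := hW2 v hv
          refine ⟨?_, P_append hw3 h2⟩
          rw [List.length_append, h1, hw2]
          omega
    · push Not at hgood
      obtain ⟨e, he1, he2, he3⟩ := hgood
      refine ⟨W.image (fun w => w0 ++ w), ?_, ?_⟩
      · rw [card_image_of_injective _ (inj w0), pow_succ]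
        have hss : (E.filter fun i => Th ρ (Fintype.card σ) N₀ (j + 1) ≤ i).card + 1 ≤
            (E.filter fun i => Th ρ (Fintype.card σ) N₀ j ≤ i).card := by
          apply card_lt_card
          refine ⟨hsub, fun h => ?_⟩
          have h1 : e ∈ E.filter fun i => Th ρ (Fintype.card σ) N₀ j ≤ i :=
            mem_filter.2 ⟨he3, he1⟩
          have h2 := (mem_filter.1 (h h1)).2
          omega
        have h1 := Nat.pow_le_pow_right (show 0 < 2 by norm_num) hss
        have h2 := Nat.mul_le_mul_left W.card h1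
        calc 2 ^ l * 2 ≤ (W.card *
              2 ^ (E.filter fun i => Th ρ (Fintype.card σ) N₀ (j + 1) ≤ i).card) * 2 :=
              Nat.mul_le_mul_right _ hW1
          _ = W.card *
              2 ^ ((E.filter fun i => Th ρ (Fintype.card σ) N₀ (j + 1) ≤ i).card + 1) := by
              rw [pow_succ]; ring
          _ ≤ _ := h2
      · intro w hw
        rw [mem_image] at hw
        obtain ⟨v, hv, rfl⟩ := hw
        obtain ⟨h1, h2⟩ := hW2 v hv
        refine ⟨?_, P_append hw0p h2⟩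
        rw [List.length_append, h1, hw0l]
        omega

/-- The main statement for a sequence without long periodic stretches. -/
theorem main {ρ κ : ℝ} (hρ : 1 < ρ) (hκ : 0 ≤ κ) (hρκ : ρ ^ κ ≤ 2) (N₀ : ℕ) :
    ∃ C : ℝ, 0 < C ∧ ∀ (α σ : Type) [Fintype σ] (z : ℕ → α), NoPer z ρ N₀ →
      ∀ (x : ℕ → α) (M : NFA α σ) (N : ℕ), seg x 0 N ∈ M.accepts →
        ∀ E : Finset ℕ, (∀ i, i < N → i ∉ E → x i = z i) →
        ∃ W : Finset (List α), (∀ w ∈ W, w.length = N ∧ w ∈ M.accepts) ∧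
          ((N : ℝ) / (C * (Fintype.card σ : ℝ) ^ 2)) ^ κ ≤ W.card * 2 ^ E.card := by
  obtain ⟨A, hA⟩ : ∃ A : ℝ, A = (ρ + 2) / (ρ - 1) := ⟨_, rfl⟩
  have hρ1 : 0 < ρ - 1 := by linarith
  have hA1 : A * (ρ - 1) = ρ + 2 := by rw [hA]; field_simp
  have hA0 : 0 < A := by rw [hA]; positivity
  refine ⟨ρ * (N₀ + A), by positivity, ?_⟩
  intro α σ _ z hz x M N hacc E hE
  classical
  rw [NFA.accepts_iff_exists_path] at hacc
  obtain ⟨s, hs, t, ht, ⟨p⟩⟩ := hacc
  obtain ⟨f, hf0, hfN, hf⟩ := run_of_P N 0 s t (by simpa using P_of_path p)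
  rw [Nat.zero_add] at hfN
  have hrun : Run M x f N := fun i hi => hf i (Nat.zero_le _) (by omega)
  have hq : 1 ≤ Fintype.card σ := Fintype.card_pos_iff.2 ⟨s⟩
  obtain ⟨q, hqe⟩ : ∃ q, q = Fintype.card σ := ⟨_, rfl⟩
  rw [← hqe] at hq
  have hqR : (1 : ℝ) ≤ q := by exact_mod_cast hq
  have hq2 : (1 : ℝ) ≤ (q : ℝ) ^ 2 := one_le_pow₀ hqR
  have hacc' : ∀ w, P M s w t → w ∈ M.accepts := by
    intro w hw
    rw [NFA.accepts_iff_exists_path]
    exact ⟨s, hs, t, ht, path_of_P hw⟩
  rw [← hqe]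
  have hCq : (N₀ : ℝ) + A ≤ ρ * (N₀ + A) * (q : ℝ) ^ 2 := by
    have h1 : (0 : ℝ) ≤ N₀ + A := by positivity
    have h2 : (N₀ : ℝ) + A ≤ ρ * (N₀ + A) := by nlinarith
    have h3 : ρ * (N₀ + A) * 1 ≤ ρ * (N₀ + A) * (q : ℝ) ^ 2 :=
      mul_le_mul_of_nonneg_left hq2 (by positivity)
    linarith
  have hpos : 0 < ρ * (N₀ + A) * (q : ℝ) ^ 2 := by positivity
  rcases lt_or_ge N N₀ with hN | hN
  · refine ⟨{seg x 0 N}, fun w hw => ?_, ?_⟩
    · rw [mem_singleton] at hw
      subst hw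
      refine ⟨by rw [seg_length]; omega, hacc' _ (P_of_path p)⟩
    · rw [card_singleton, Nat.cast_one, one_mul]
      refine le_trans ?_ (one_le_pow₀ (by norm_num) : (1 : ℝ) ≤ 2 ^ E.card)
      refine Real.rpow_le_one (by positivity) ?_ hκ
      rw [div_le_one hpos]
      have : (N : ℝ) ≤ N₀ := by exact_mod_cast hN.le
      linarith
  · have hmono : StrictMono (Th ρ q N₀) := strictMono_nat_of_lt_succ (Th_lt hρ.le hq N₀)
    obtain ⟨J, hJ1, hJ2⟩ : ∃ J, Th ρ q N₀ J ≤ N ∧ N < Th ρ q N₀ (J + 1) := by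
      by_contra hcon
      push Not at hcon
      have : ∀ J, Th ρ q N₀ J ≤ N := by
        intro J
        induction J with
        | zero => exact hN
        | succ J ih => exact hcon J ih
      have h1 := this (N + 1)
      have h2 := hmono.id_le (N + 1)
      simp only [id] at h2
      omega
    obtain ⟨W, hW1, hW2⟩ := many hz hρ.le hrun E hE J (by rw [← hqe]; exact hJ1) J 0 (by omega)
    rw [← hqe] at hW2
    have hT0 : Th ρ q N₀ 0 = N₀ := rfl
    rw [hT0] at hW2
    have p0 : P M s (seg x 0 N₀) (f N₀) := by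
      have := P_of_run hrun (Nat.zero_le N₀) hN
      rwa [hf0] at this
    have inj : Function.Injective (fun w => seg x 0 N₀ ++ w) := fun a b h =>
      List.append_cancel_left h
    refine ⟨W.image (fun w => seg x 0 N₀ ++ w), ?_, ?_⟩
    · intro w hw
      rw [mem_image] at hw
      obtain ⟨v, hv, rfl⟩ := hw
      obtain ⟨h1, h2⟩ := hW2 v hv
      refine ⟨by rw [List.length_append, h1, seg_length]; omega, hacc' _ ?_⟩
      rw [hfN] at h2
      exact P_append p0 h2
    · rw [card_image_of_injective _ inj]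
      have h0 : 2 ^ J ≤ W.card * 2 ^ E.card :=
        hW1.trans (Nat.mul_le_mul_left _ (Nat.pow_le_pow_right (by norm_num)
          (card_le_card (filter_subset _ _))))
      have h1 : ((2 : ℝ) ^ J) ≤ W.card * 2 ^ E.card := by exact_mod_cast h0
      refine le_trans ?_ h1
      have h2 : (N : ℝ) / (ρ * (N₀ + A) * (q : ℝ) ^ 2) ≤ ρ ^ J := by
        rw [div_le_iff₀ hpos]
        have h3 : (N : ℝ) ≤ Th ρ q N₀ (J + 1) := by exact_mod_cast hJ2.le
        have h4 := Th_le hρ hA1 hq N₀ (J + 1)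
        have h5 : (N₀ : ℝ) + A * (q : ℝ) ^ 2 ≤ (N₀ + A) * (q : ℝ) ^ 2 := by
          have : (0 : ℝ) ≤ N₀ := Nat.cast_nonneg _
          nlinarith
        have h6 : (0 : ℝ) ≤ A * (q : ℝ) ^ 2 := by positivity
        have h7 : ρ ^ (J + 1) * (N₀ + A * (q : ℝ) ^ 2) ≤ ρ ^ (J + 1) * ((N₀ + A) * (q : ℝ) ^ 2) :=
          mul_le_mul_of_nonneg_left h5 (by positivity)
        calc (N : ℝ) ≤ ρ ^ (J + 1) * ((N₀ + A) * (q : ℝ) ^ 2) := by linarith
          _ = _ := by ring
      calc ((N : ℝ) / (ρ * (N₀ + A) * (q : ℝ) ^ 2)) ^ κ ≤ (ρ ^ J) ^ κ :=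
            Real.rpow_le_rpow (by positivity) h2 hκ
        _ = (ρ ^ κ) ^ J := by
            rw [← Real.rpow_natCast, ← Real.rpow_mul (by linarith), mul_comm,
              Real.rpow_mul (by linarith), Real.rpow_natCast]
        _ ≤ 2 ^ J := pow_le_pow_left₀ (by positivity) hρκ J

end Pool.Agent.X3.NfaWords
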