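import Mathlib
import Pool.Agent.X3.NfaWords
import Pool.Agent.H326R2.Pi.DigitsTop

set_option autoImplicit false

namespace Pool.Agent.X3.NfaWords

/-- from a statement about the digits after the point to the sequence of digits -/
lemma noPer_digits {y ρ : ℝ} (hy : 0 ≤ y) {N₀ b : ℕ} [NeZero b]
    (h : ∀ N : ℕ, N₀ ≤ N → ∀ s : ℕ, 1 ≤ s → ∃ i : ℕ, N < i ∧ (i : ℝ) ≤ N + (ρ - 1) * (N + s) ∧
      ⌊y * (b : ℝ) ^ (i + s)⌋ % (b : ℤ) ≠ ⌊y * (b : ℝ) ^ i⌋ % (b : ℤ)) :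
    NoPer (Real.digits y b) ρ N₀ := by
  intro N hN s hs
  obtain ⟨i, h1, h2, h3⟩ := h N hN s hs
  obtain ⟨t, rfl⟩ : ∃ t, i = t + 1 := ⟨i - 1, by omega⟩
  refine ⟨t, by omega, ?_, ?_⟩
  · push_cast at h2 ⊢
    have : (0 : ℝ) ≤ N := Nat.cast_nonneg _
    linarith
  · intro he
    apply h3
    have key : ∀ j : ℕ, ⌊y * (b : ℝ) ^ (j + 1)⌋ % (b : ℤ) = ((Real.digits y b j : ℕ) : ℤ) := by
      intro j
      unfold Real.digits
      rw [Fin.val_ofNat]
      push_cast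
      congr 1
      rw [Int.natCast_floor_eq_floor (by positivity)]
    have e : t + 1 + s = (t + s) + 1 := by ring
    rw [e, key, key, he]

theorem pi_noPer : ∃ N₀ : ℕ, ∀ (b : ℕ) [NeZero b], 2 ≤ b →
    NoPer (Real.digits Real.pi b) 6.051 N₀ := by
  obtain ⟨N₀, h⟩ := Pool.Agent.H326R2.Pi.blocks
  refine ⟨N₀, fun b _ hb => noPer_digits Real.pi_pos.le fun N hN s hs => ?_⟩
  obtain ⟨i, h1, h2, h3⟩ := h b hb N hN s hs
  refine ⟨i, h1, ?_, h3⟩
  norm_num at h2 ⊢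
  linarith

lemma seg_zero {α : Type} (x : ℕ → α) (N : ℕ) : seg x 0 N = (List.range N).map x := by
  simp [seg, List.range_eq_range']

/-- the general form: numbers without long periodic stretches in their expansions -/
theorem digits_main {y ρ κ : ℝ} (hρ : 1 < ρ) (hκ : 0 ≤ κ) (hρκ : ρ ^ κ ≤ 2) (N₀ : ℕ)
    (h : ∀ (b : ℕ) [NeZero b], 2 ≤ b → NoPer (Real.digits y b) ρ N₀) :
    ∃ C : ℝ, 0 < C ∧ ∀ (b : ℕ) [NeZero b], 2 ≤ b →
    ∀ (σ : Type) [Fintype σ] (M : NFA (Fin b) σ) (N : ℕ) (d : ℕ → Fin b),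
      (List.range N).map d ∈ M.accepts →
        ((N : ℝ) / (C * (Fintype.card σ : ℝ) ^ 2)) ^ κ ≤
          2 ^ ((Finset.range N).filter fun i => d i ≠ Real.digits y b i).card *
          ({w : List (Fin b) | w ∈ M.accepts ∧ w.length = N}.ncard : ℝ) := by
  obtain ⟨C, hC, h'⟩ := main hρ hκ hρκ N₀
  refine ⟨C, hC, fun b _ hb σ _ M N d hacc => ?_⟩
  obtain ⟨W, hW1, hW2⟩ := h' (Fin b) σ (Real.digits y b) (h b hb) d M N
    (by rw [seg_zero]; exact hacc)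
    ((Finset.range N).filter fun i => d i ≠ Real.digits y b i) (by
      intro i hi hn
      by_contra hne
      exact hn (Finset.mem_filter.2 ⟨Finset.mem_range.2 hi, hne⟩))
  refine hW2.trans ?_
  have hfin : {w : List (Fin b) | w ∈ M.accepts ∧ w.length = N}.Finite :=
    (List.finite_length_eq (Fin b) N).subset fun w hw => hw.2
  have : ((W : Set (List (Fin b)))).ncard ≤ {w : List (Fin b) | w ∈ M.accepts ∧ w.length = N}.ncard :=
    Set.ncard_le_ncard (fun w hw => ⟨(hW1 w hw).2, (hW1 w hw).1⟩) hfin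
  rw [Set.ncard_coe_finset] at this
  rw [mul_comm]
  refine mul_le_mul_of_nonneg_left ?_ (by positivity)
  exact_mod_cast this

theorem pi_main : ∃ C : ℝ, 0 < C ∧ ∀ (b : ℕ) [NeZero b], 2 ≤ b →
    ∀ (σ : Type) [Fintype σ] (M : NFA (Fin b) σ) (N : ℕ) (d : ℕ → Fin b),
      (List.range N).map d ∈ M.accepts →
        ((N : ℝ) / (C * (Fintype.card σ : ℝ) ^ 2)) ^ (0.38 : ℝ) ≤
          2 ^ ((Finset.range N).filter fun i => d i ≠ Real.digits Real.pi b i).card *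
          ({w : List (Fin b) | w ∈ M.accepts ∧ w.length = N}.ncard : ℝ) := by
  obtain ⟨N₀, hN₀⟩ := pi_noPer
  have h38 : (6.051 : ℝ) ^ (0.38 : ℝ) ≤ 2 := by
    have h1 : (6.051 : ℝ) ^ (38 : ℕ) ≤ 2 ^ (100 : ℕ) := by norm_num
    have e : (6.051 : ℝ) ^ (0.38 : ℝ) = ((6.051 : ℝ) ^ (38 : ℕ)) ^ ((1 : ℝ) / 100) := by
      rw [← Real.rpow_natCast, ← Real.rpow_mul (by norm_num)]
      norm_num
    have e2 : (2 : ℝ) = ((2 : ℝ) ^ (100 : ℕ)) ^ ((1 : ℝ) / 100) := by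
      rw [← Real.rpow_natCast, ← Real.rpow_mul (by norm_num)]
      norm_num
    rw [e, e2]
    exact Real.rpow_le_rpow (by positivity) h1 (by norm_num)
  exact digits_main (ρ := 6.051) (κ := 0.38) (by norm_num) (by norm_num) h38 N₀ hN₀

end Pool.Agent.X3.NfaWords
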