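import Mathlib
import Pool.Agent.X3.NfaWords

/-!
# Words accepted by nondeterministic automata: exchange of loops in many regions

Let a path of an automaton with `q` states be labelled by the terms of a sequence `x`.  In each of
`K` regions `[a i, a i + l]` some state is visited at least `(l + 1) / q` times.  Cutting out and
inserting loops in these regions gives paths of the same length; if `x` is not periodic with a
period at most `l` between two regions, these paths are labelled by different words.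
-/

set_option autoImplicit false

namespace Pool.Agent.X3.NfaWords

open Finset

variable {α σ : Type}

/-- the word of the modified path between the times `a 0` and `a K` -/
def Wd (x : ℕ → α) (a v0 v : ℕ → ℕ) : ℕ → List α
  | 0 => []
  | K + 1 => Wd x a v0 v K ++ (seg x (a K) (v K) ++ seg x (v0 K) (a (K + 1)))

lemma Wd_congr (x : ℕ → α) (a v0 : ℕ → ℕ) {v v' : ℕ → ℕ} (K : ℕ) (h : ∀ i, i < K → v i = v' i) :
    Wd x a v0 v K = Wd x a v0 v' K := by
  induction K with
  | zero => rfl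
  | succ K ih =>
    show Wd x a v0 v K ++ _ = Wd x a v0 v' K ++ _
    rw [ih (fun i hi => h i (by omega)), h K (by omega)]

lemma Wd_split (x : ℕ → α) (a v0 v : ℕ → ℕ) (i K : ℕ) (h : i ≤ K) :
    ∃ R : List α, Wd x a v0 v K = Wd x a v0 v i ++ R := by
  induction K with
  | zero =>
    have : i = 0 := by omega
    subst this
    exact ⟨[], by simp⟩
  | succ K ih =>
    rcases Nat.lt_or_ge i (K + 1) with h1 | h1
    · obtain ⟨R, hR⟩ := ih (by omega)
      refine ⟨R ++ (seg x (a K) (v K) ++ seg x (v0 K) (a (K + 1))), ?_⟩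
      show Wd x a v0 v K ++ _ = _
      rw [hR, List.append_assoc]
    · have : i = K + 1 := by omega
      subst this
      exact ⟨[], by simp⟩

lemma Wd_path {M : NFA α σ} {x : ℕ → α} {f : ℕ → σ} {N : ℕ} (hf : Run M x f N) (a v0 v : ℕ → ℕ)
    (K : ℕ) (hN : a K ≤ N) (h : ∀ i, i < K → a i ≤ v i ∧ v i ≤ a (i + 1) ∧ a i ≤ v0 i ∧
      v0 i ≤ a (i + 1) ∧ f (v i) = f (v0 i)) : P M (f (a 0)) (Wd x a v0 v K) (f (a K)) := by
  induction K with
  | zero => exact P.nil _
  | succ K ih =>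
    obtain ⟨h1, h2, h3, h4, h5⟩ := h K (by omega)
    have p0 := ih (by omega) (fun i hi => h i (by omega))
    have p1 := P_of_run hf h1 (by omega)
    have p2 := P_of_run hf h4 hN
    rw [← h5] at p2
    exact P_append p0 (P_append p1 p2)

lemma Wd_length (x : ℕ → α) (a v0 v : ℕ → ℕ) (K : ℕ) (h : ∀ i, i < K → a i ≤ v i ∧
      a i ≤ v0 i ∧ v0 i ≤ a (i + 1)) :
    (Wd x a v0 v K).length + a 0 + ∑ i ∈ range K, v0 i = ∑ i ∈ range K, v i + a K := by
  induction K with
  | zero => simp [Wd]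
  | succ K ih =>
    obtain ⟨h1, h2, h3⟩ := h K (by omega)
    have := ih (fun i hi => h i (by omega))
    have e : (Wd x a v0 v (K + 1)).length =
        (Wd x a v0 v K).length + ((v K - a K) + (a (K + 1) - v0 K)) := by
      show (Wd x a v0 v K ++ (seg x (a K) (v K) ++ seg x (v0 K) (a (K + 1)))).length = _
      rw [List.length_append, List.length_append, seg_length, seg_length]
    rw [e, sum_range_succ, sum_range_succ]
    omega

/-- no period at most `l` between the beginning of the region and the next region -/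
def Sep (x : ℕ → α) (l a a' : ℕ) : Prop :=
  ∀ u s : ℕ, a ≤ u → u ≤ a + l → 1 ≤ s → s ≤ l → ∃ j : ℕ, u ≤ j ∧ j + s < a' ∧ x (j + s) ≠ x j

lemma Wd_ne_aux (x : ℕ → α) (a v0 v v' : ℕ → ℕ) (l i K : ℕ) (hiK : i < K)
    (hagree : ∀ j, j < i → v j = v' j) (hv : a i ≤ v i) (hlt : v i < v' i)
    (hv' : v' i ≤ a i + l) (h0 : a i ≤ v0 i) (h0' : v0 i ≤ a i + l)
    (hs : Sep x l (a i) (a (i + 1))) :
    Wd x a v0 v K ≠ Wd x a v0 v' K := by
  intro he
  obtain ⟨R, hR⟩ := Wd_split x a v0 v (i + 1) K hiK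
  obtain ⟨R', hR'⟩ := Wd_split x a v0 v' (i + 1) K hiK
  have e1 : Wd x a v0 v (i + 1) = Wd x a v0 v i ++ (seg x (a i) (v i) ++ seg x (v0 i) (a (i + 1))) :=
    rfl
  have e2 : Wd x a v0 v' (i + 1) =
      Wd x a v0 v' i ++ (seg x (a i) (v' i) ++ seg x (v0 i) (a (i + 1))) := rfl
  rw [hR, hR', e1, e2, Wd_congr x a v0 i hagree] at he
  simp only [List.append_assoc] at he
  have he2 := List.append_cancel_left he
  obtain ⟨j, hj1, hj2, hj3⟩ := hs (v0 i) (v' i - v i) h0 h0' (by omega) (by omega)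
  -- compare the letters at the place `(v' i - a i) + (j - v0 i)`
  have g1 : (seg x (a i) (v i) ++ (seg x (v0 i) (a (i + 1)) ++ R))[(v' i - a i) + (j - v0 i)]? =
      some (x (j + (v' i - v i))) := by
    rw [List.getElem?_append_right (by rw [seg_length]; omega), seg_length,
      List.getElem?_append_left (by rw [seg_length]; omega), seg_get x _ _ _ (by omega)]
    congr 2; omega
  have g2 : (seg x (a i) (v' i) ++ (seg x (v0 i) (a (i + 1)) ++ R'))[(v' i - a i) + (j - v0 i)]? =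
      some (x j) := by
    rw [List.getElem?_append_right (by rw [seg_length]; omega), seg_length,
      List.getElem?_append_left (by rw [seg_length]; omega), seg_get x _ _ _ (by omega)]
    congr 2; omega
  rw [he2, g2] at g1
  exact hj3 (Option.some.inj g1).symm

lemma Wd_inj (x : ℕ → α) (a v0 v v' : ℕ → ℕ) (l K : ℕ)
    (h : ∀ i, i < K → a i ≤ v i ∧ v i ≤ a i + l ∧ a i ≤ v' i ∧ v' i ≤ a i + l ∧ a i ≤ v0 i ∧
      v0 i ≤ a i + l ∧ Sep x l (a i) (a (i + 1)))
    (he : Wd x a v0 v K = Wd x a v0 v' K) : ∀ i, i < K → v i = v' i := by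
  by_contra hcon
  push Not at hcon
  classical
  have hex : ∃ i, i < K ∧ v i ≠ v' i := hcon
  obtain ⟨hi1, hi2⟩ := Nat.find_spec hex
  have hmin : ∀ j, j < Nat.find hex → v j = v' j := by
    intro j hj
    have := Nat.find_min hex hj
    by_contra hne
    exact this ⟨by omega, hne⟩
  obtain ⟨h1, h2, h3, h4, h5, h6, h7⟩ := h _ hi1
  rcases lt_or_gt_of_ne hi2 with hlt | hlt
  · exact Wd_ne_aux x a v0 v v' l _ K hi1 hmin h1 hlt h4 h5 h6 h7 he
  · exact Wd_ne_aux x a v0 v' v l _ K hi1 (fun j hj => (hmin j hj).symm) h3 hlt h2 h5 h6 h7 he.symm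

/-- some state is visited often -/
lemma popular [Fintype σ] (f : ℕ → σ) (a l : ℕ) :
    ∃ V : Finset ℕ, (∀ t ∈ V, a ≤ t ∧ t ≤ a + l) ∧ (∀ t ∈ V, ∀ t' ∈ V, f t = f t') ∧
      l + 1 ≤ V.card * Fintype.card σ := by
  classical
  have hne : Nonempty σ := ⟨f 0⟩
  obtain ⟨s, -, hs⟩ := exists_max_image (univ : Finset σ)
    (fun s => ((Icc a (a + l)).filter fun t => f t = s).card) ⟨f 0, mem_univ _⟩
  refine ⟨(Icc a (a + l)).filter fun t => f t = s, ?_, ?_, ?_⟩
  · intro t ht
    exact mem_Icc.1 (mem_filter.1 ht).1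
  · intro t ht t' ht'
    rw [(mem_filter.1 ht).2, (mem_filter.1 ht').2]
  · have h1 : (Icc a (a + l)).card = ∑ s : σ, ((Icc a (a + l)).filter fun t => f t = s).card :=
      card_eq_sum_card_fiberwise (fun _ _ => mem_coe.2 (mem_univ _))
    have h2 : (Icc a (a + l)).card = l + 1 := by
      rw [Nat.card_Icc]; omega
    rw [← h2, h1]
    calc ∑ s' : σ, ((Icc a (a + l)).filter fun t => f t = s').card
        ≤ ∑ _s' : σ, ((Icc a (a + l)).filter fun t => f t = s).card :=
          sum_le_sum fun s' hs' => hs s' hs'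
      _ = _ := by rw [sum_const, card_univ, smul_eq_mul, mul_comm]

/-- **Many words.** -/
theorem regions [Fintype σ] {M : NFA α σ} {x : ℕ → α} {f : ℕ → σ} {N : ℕ} (hf : Run M x f N)
    (K l r : ℕ) (a : ℕ → ℕ) (haN : a K ≤ N)
    (hsep : ∀ i, i < K → a i + l ≤ a (i + 1) ∧ Sep x l (a i) (a (i + 1)))
    (hr : ∀ n : ℕ, l + 1 ≤ n * Fintype.card σ → r ≤ n) :
    ∃ W : Finset (List α), (∀ w ∈ W, w.length = N ∧ P M (f 0) w (f N)) ∧
      r ^ K / (K * l + 1) ≤ W.card := by
  classical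
  have hpop := fun i => popular f (a i) l
  choose V hV1 hV2 hV3 using hpop
  have hVr : ∀ i, r ≤ (V i).card := fun i => hr _ (hV3 i)
  have hmono : ∀ i, i ≤ K → a 0 ≤ a i := by
    intro i
    induction i with
    | zero => intro _; exact le_rfl
    | succ i ih =>
      intro hi
      have := ih (by omega)
      have h2 := (hsep i (by omega)).1
      omega
  have ha0 : a 0 ≤ N := le_trans (hmono K le_rfl) haN
  set S : Finset (Fin K → ℕ) := Fintype.piFinset (fun i : Fin K => V i) with hS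
  have hScard : r ^ K ≤ S.card := by
    rw [hS, Fintype.card_piFinset]
    calc r ^ K = ∏ _i : Fin K, r := by simp
      _ ≤ _ := prod_le_prod (fun _ _ => Nat.zero_le _) fun i _ => hVr i
  -- pigeonhole for the sums
  have hmaps : ∀ v ∈ S, ∑ i, v i ∈ Icc (∑ i : Fin K, a i) (∑ i : Fin K, a i + K * l) := by
    intro v hv
    rw [hS, Fintype.mem_piFinset] at hv
    rw [mem_Icc]
    refine ⟨sum_le_sum fun i _ => (hV1 i _ (hv i)).1, ?_⟩
    calc ∑ i, v i ≤ ∑ i : Fin K, (a i + l) := sum_le_sum fun i _ => (hV1 i _ (hv i)).2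
      _ = _ := by rw [sum_add_distrib]; simp
  obtain ⟨y, -, hy⟩ := exists_le_card_fiber_of_mul_le_card_of_maps_to hmaps
    ⟨∑ i : Fin K, a i, by rw [mem_Icc]; omega⟩ (n := r ^ K / (K * l + 1)) (by
      rw [Nat.card_Icc]
      have e : ∑ i : Fin K, a i + K * l + 1 - ∑ i : Fin K, a i = K * l + 1 := by omega
      rw [e]
      exact (Nat.mul_div_le _ _).trans hScard)
  obtain ⟨C, hC⟩ : ∃ C : Finset (Fin K → ℕ), C = S.filter fun v => ∑ i, v i = y := ⟨_, rfl⟩
  rw [← hC] at hy
  rcases C.eq_empty_or_nonempty with hCe | ⟨v00, hv00⟩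
  · refine ⟨∅, fun w hw => absurd hw (notMem_empty _), ?_⟩
    rw [hCe, card_empty] at hy
    rw [card_empty]
    exact hy
  -- extension of a vector to a function on `ℕ`
  obtain ⟨ex, hex⟩ : ∃ ex : (Fin K → ℕ) → ℕ → ℕ,
      ex = fun v i => if h : i < K then v ⟨i, h⟩ else 0 := ⟨_, rfl⟩
  have hex1 : ∀ v : Fin K → ℕ, ∀ i (h : i < K), ex v i = v ⟨i, h⟩ := by
    intro v i h
    rw [hex]
    simp [h]
  have hexsum : ∀ v : Fin K → ℕ, ∑ i ∈ range K, ex v i = ∑ i, v i := by
    intro v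
    rw [Finset.sum_range]
    exact sum_congr rfl fun i _ => hex1 v i i.2
  have hin : ∀ v ∈ C, ∀ i, i < K → a i ≤ ex v i ∧ ex v i ≤ a i + l ∧ ex v i ∈ V i := by
    intro v hv i hi
    rw [hC, mem_filter, hS, Fintype.mem_piFinset] at hv
    have := hv.1 ⟨i, hi⟩
    rw [hex1 v i hi]
    exact ⟨(hV1 i _ this).1, (hV1 i _ this).2, this⟩
  have hsumC : ∀ v ∈ C, ∑ i ∈ range K, ex v i = y := by
    intro v hv
    rw [hexsum]
    rw [hC, mem_filter] at hv
    exact hv.2
  obtain ⟨g, hg⟩ : ∃ g : (Fin K → ℕ) → List α,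
      g = fun v => seg x 0 (a 0) ++ (Wd x a (ex v00) (ex v) K ++ seg x (a K) N) := ⟨_, rfl⟩
  have hginj : Set.InjOn g (C : Set (Fin K → ℕ)) := by
    intro v hv v' hv' he
    rw [mem_coe] at hv hv'
    rw [hg] at he
    simp only at he
    have he1 := List.append_cancel_left he
    have he2 := List.append_cancel_right he1
    have := Wd_inj x a (ex v00) (ex v) (ex v') l K (fun i hi => ⟨(hin v hv i hi).1,
      (hin v hv i hi).2.1, (hin v' hv' i hi).1, (hin v' hv' i hi).2.1, (hin v00 hv00 i hi).1,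
      (hin v00 hv00 i hi).2.1, (hsep i hi).2⟩) he2
    funext i
    have h1 := this i i.2
    rw [hex1 v i i.2, hex1 v' i i.2] at h1
    exact h1
  refine ⟨C.image g, ?_, by rw [card_image_of_injOn hginj]; exact hy⟩
  intro w hw
  rw [mem_image] at hw
  obtain ⟨v, hv, rfl⟩ := hw
  have hb : ∀ i, i < K → a i ≤ ex v i ∧ ex v i ≤ a (i + 1) ∧ a i ≤ ex v00 i ∧
      ex v00 i ≤ a (i + 1) ∧ f (ex v i) = f (ex v00 i) := by
    intro i hi
    obtain ⟨h1, h2, h3⟩ := hin v hv i hi
    obtain ⟨h4, h5, h6⟩ := hin v00 hv00 i hi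
    have h7 := (hsep i hi).1
    exact ⟨h1, by omega, h4, by omega, hV2 i _ h3 _ h6⟩
  rw [hg]
  refine ⟨?_, ?_⟩
  · have hl := Wd_length x a (ex v00) (ex v) K (fun i hi => ⟨(hb i hi).1, (hb i hi).2.2.1,
      (hb i hi).2.2.2.1⟩)
    rw [hsumC v hv, hsumC v00 hv00] at hl
    simp only [List.length_append, seg_length]
    omega
  · exact P_append (P_of_run hf (Nat.zero_le _) ha0)
      (P_append (Wd_path hf a _ _ K haN hb) (P_of_run hf haN le_rfl))

end Pool.Agent.X3.NfaWords
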