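import Mathlib
import Pool.Agent.X3.NfaRegions

/-!
# Sequences without long periodic stretches: many accepted words
-/

set_option autoImplicit false

namespace Pool.Agent.X3.NfaWords

open Finset

/-- the beginnings of the regions -/
noncomputable def Bs (ρ : ℝ) (l N₀ : ℕ) : ℕ → ℕ
  | 0 => N₀
  | i + 1 => ⌈ρ * ((Bs ρ l N₀ i : ℝ) + 2 * l)⌉₊ + 1

lemma Bs_step {ρ : ℝ} (hρ : 1 ≤ ρ) (l N₀ i : ℕ) : Bs ρ l N₀ i + 2 * l + 1 ≤ Bs ρ l N₀ (i + 1) := by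
  have h : ((Bs ρ l N₀ i + 2 * l : ℕ) : ℝ) ≤ ρ * ((Bs ρ l N₀ i : ℝ) + 2 * l) := by
    push_cast
    have : (0 : ℝ) ≤ (Bs ρ l N₀ i : ℝ) + 2 * l := by positivity
    nlinarith
  have h2 : Bs ρ l N₀ i + 2 * l ≤ ⌈ρ * ((Bs ρ l N₀ i : ℝ) + 2 * l)⌉₊ := by
    exact_mod_cast h.trans (Nat.le_ceil _)
  show _ ≤ ⌈ρ * ((Bs ρ l N₀ i : ℝ) + 2 * l)⌉₊ + 1
  omega

lemma Bs_mono {ρ : ℝ} (hρ : 1 ≤ ρ) (l N₀ : ℕ) : StrictMono (Bs ρ l N₀) :=
  strictMono_nat_of_lt_succ fun i => by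
    have := Bs_step hρ l N₀ i
    omega

lemma Bs_ge {ρ : ℝ} (hρ : 1 ≤ ρ) (l N₀ i : ℕ) : N₀ ≤ Bs ρ l N₀ i :=
  (Bs_mono hρ l N₀).monotone (Nat.zero_le i)

lemma Bs_le {ρ A : ℝ} (hρ : 1 < ρ) (hA : A * (ρ - 1) = 2 * ρ + 2) {l : ℕ} (hl : 1 ≤ l) (N₀ i : ℕ) :
    (Bs ρ l N₀ i : ℝ) + A * l ≤ ρ ^ i * (N₀ + A * l) := by
  induction i with
  | zero => simp [Bs]
  | succ i ih =>
    have hlR : (1 : ℝ) ≤ l := by exact_mod_cast hl
    have h1 : ((Bs ρ l N₀ (i + 1) : ℕ) : ℝ) ≤ ρ * ((Bs ρ l N₀ i : ℝ) + 2 * l) + 1 + 1 := by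
      show ((⌈ρ * ((Bs ρ l N₀ i : ℝ) + 2 * l)⌉₊ + 1 : ℕ) : ℝ) ≤ _
      push_cast
      have := Nat.ceil_lt_add_one (show 0 ≤ ρ * ((Bs ρ l N₀ i : ℝ) + 2 * l) by positivity)
      linarith
    have h3 : (Bs ρ l N₀ (i + 1) : ℝ) + A * l ≤ ρ * ((Bs ρ l N₀ i : ℝ) + A * l) := by
      have e : A * ρ = 2 * ρ + 2 + A := by linarith
      have e2 : ρ * ((Bs ρ l N₀ i : ℝ) + A * l) = ρ * (Bs ρ l N₀ i : ℝ) + (A * ρ) * l := by ring
      rw [e2, e]
      nlinarith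
    calc _ ≤ ρ * ((Bs ρ l N₀ i : ℝ) + A * l) := h3
      _ ≤ ρ * (ρ ^ i * (N₀ + A * l)) := mul_le_mul_of_nonneg_left ih (by linarith)
      _ = _ := by ring

variable {α σ : Type}

lemma four_pow (K : ℕ) (hK : 1 ≤ K) : 4 * K ≤ 4 ^ K := by
  induction K with
  | zero => omega
  | succ K ih =>
    rcases Nat.eq_zero_or_pos K with h | h
    · subst h; norm_num
    · have := ih h
      rw [pow_succ]
      omega

/-- **Many words, parametric form.** -/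
theorem many_geo {ρ : ℝ} (hρ : 1 < ρ) (N₀ : ℕ) :
    ∃ C : ℝ, 4 ≤ C ∧ ∀ (α σ : Type) [Fintype σ] (z : ℕ → α), NoPer z ρ N₀ →
      ∀ (x : ℕ → α) (M : NFA α σ) (N : ℕ), seg x 0 N ∈ M.accepts →
        ∀ E : Finset ℕ, (∀ i, i < N → i ∉ E → x i = z i) → ∀ K : ℕ, 1 ≤ K →
        ∃ W : Finset (List α), (∀ w ∈ W, w.length = N ∧ w ∈ M.accepts) ∧
          ((N : ℝ) / (C ^ (K + E.card) * (Fintype.card σ : ℝ))) ^ K ≤ N * W.card := by
  classical
  obtain ⟨A, hA⟩ : ∃ A : ℝ, A = (2 * ρ + 2) / (ρ - 1) := ⟨_, rfl⟩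
  have hρ1 : 0 < ρ - 1 := by linarith
  have hA1 : A * (ρ - 1) = 2 * ρ + 2 := by rw [hA]; field_simp
  have hA0 : 0 < A := by rw [hA]; positivity
  obtain ⟨C, hC⟩ : ∃ C : ℝ, C = max 4 (ρ * (N₀ + A + 1)) := ⟨_, rfl⟩
  have hC4 : 4 ≤ C := by rw [hC]; exact le_max_left _ _
  have hCρ : ρ * (N₀ + A + 1) ≤ C := by rw [hC]; exact le_max_right _ _
  have hC0 : 0 < C := by linarith
  refine ⟨C, hC4, ?_⟩
  intro α σ _ z hz x M N hacc E hE K hK
  rw [NFA.accepts_iff_exists_path] at hacc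
  obtain ⟨s, hs, t, ht, ⟨p⟩⟩ := hacc
  obtain ⟨f, hf0, hfN, hf⟩ := run_of_P N 0 s t (by simpa using P_of_path p)
  rw [Nat.zero_add] at hfN
  have hrun : Run M x f N := fun i hi => hf i (Nat.zero_le _) (by omega)
  have hacc' : ∀ w, P M s w t → w ∈ M.accepts := by
    intro w hw
    rw [NFA.accepts_iff_exists_path]
    exact ⟨s, hs, t, ht, path_of_P hw⟩
  obtain ⟨q, hqe⟩ : ∃ q, q = Fintype.card σ := ⟨_, rfl⟩
  have hq : 1 ≤ q := by rw [hqe]; exact Fintype.card_pos_iff.2 ⟨s⟩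
  have hqR : (1 : ℝ) ≤ q := by exact_mod_cast hq
  rw [← hqe]
  obtain ⟨k, hk⟩ : ∃ k, k = E.card := ⟨_, rfl⟩
  rw [← hk]
  obtain ⟨X, hX⟩ : ∃ X : ℝ, X = (N : ℝ) / (C ^ (K + k) * (q : ℝ)) := ⟨_, rfl⟩
  rw [← hX]
  have hCk : (0 : ℝ) < C ^ (K + k) := by positivity
  have hX0 : 0 ≤ X := by rw [hX]; positivity
  -- the trivial set
  have htriv : X ^ K ≤ N → ∃ W : Finset (List α), (∀ w ∈ W, w.length = N ∧ w ∈ M.accepts) ∧
      X ^ K ≤ N * W.card := by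
    intro h
    refine ⟨{seg x 0 N}, fun w hw => ?_, by rw [card_singleton]; simpa using h⟩
    rw [mem_singleton] at hw
    subst hw
    exact ⟨by rw [seg_length]; omega, hacc' _ (by simpa using P_of_path p)⟩
  rcases Nat.eq_zero_or_pos N with hN0 | hNpos
  · apply htriv
    rw [hX, hN0]
    simp [show K ≠ 0 by omega]
  have hN1 : (1 : ℝ) ≤ N := by exact_mod_cast hNpos
  rcases le_or_gt X 1 with hX1 | hX1
  · apply htriv
    exact (pow_le_one₀ hX0 hX1).trans hN1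
  -- the length of the regions
  obtain ⟨l, hl⟩ : ∃ l : ℕ, l = ⌊(N : ℝ) / C ^ (K + k)⌋₊ := ⟨_, rfl⟩
  have hNC : (N : ℝ) / C ^ (K + k) = X * q := by
    rw [hX]; field_simp
  have hl1 : (l : ℝ) ≤ N / C ^ (K + k) := by rw [hl]; exact Nat.floor_le (by positivity)
  have hl2 : (N : ℝ) / C ^ (K + k) < l + 1 := by rw [hl]; exact Nat.lt_floor_add_one _
  have hl3 : 1 ≤ l := by
    rw [hl]
    apply Nat.le_floor
    rw [hNC]
    push_cast
    nlinarith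
  have hlR : (1 : ℝ) ≤ l := by exact_mod_cast hl3
  have hlN : (l : ℝ) * C ^ (K + k) ≤ N := by
    rwa [le_div_iff₀ hCk] at hl1
  -- all regions are before `N`
  have hBN : Bs ρ l N₀ (K + k) ≤ N := by
    have h1 := Bs_le hρ hA1 hl3 N₀ (K + k)
    have h2 : (Bs ρ l N₀ (K + k) : ℝ) ≤ N := by
      have h3 : (N₀ : ℝ) + A * l ≤ (N₀ + A) * l := by
        have : (0 : ℝ) ≤ N₀ := Nat.cast_nonneg _
        nlinarith
      have h4 : ρ ^ (K + k) * (N₀ + A) ≤ C ^ (K + k) := by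
        have h5 : (ρ * (N₀ + A + 1)) ^ (K + k) ≤ C ^ (K + k) :=
          pow_le_pow_left₀ (by positivity) hCρ _
        refine le_trans ?_ h5
        rw [mul_pow]
        refine mul_le_mul_of_nonneg_left ?_ (by positivity)
        have h6 : (1 : ℝ) ≤ N₀ + A + 1 := by
          have : (0 : ℝ) ≤ N₀ := Nat.cast_nonneg _
          linarith
        calc (N₀ : ℝ) + A ≤ (N₀ + A + 1) ^ 1 := by rw [pow_one]; linarith
          _ ≤ _ := pow_le_pow_right₀ h6 (by omega)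
      have h7 : (0 : ℝ) ≤ A * l := by positivity
      calc (Bs ρ l N₀ (K + k) : ℝ) ≤ ρ ^ (K + k) * (N₀ + A * l) := by linarith
        _ ≤ ρ ^ (K + k) * ((N₀ + A) * l) := mul_le_mul_of_nonneg_left h3 (by positivity)
        _ = (ρ ^ (K + k) * (N₀ + A)) * l := by ring
        _ ≤ C ^ (K + k) * l := mul_le_mul_of_nonneg_right h4 (by positivity)
        _ = l * C ^ (K + k) := by ring
        _ ≤ N := hlN
    exact_mod_cast h2
  have hBmono := Bs_mono hρ.le l N₀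
  -- the good regions
  obtain ⟨G, hG⟩ : ∃ G : Finset ℕ, G = (range (K + k)).filter fun i =>
      ∀ e ∈ E, ¬ (Bs ρ l N₀ i ≤ e ∧ e < Bs ρ l N₀ (i + 1)) := ⟨_, rfl⟩
  have hGcard : K ≤ G.card := by
    have h1 : ((range (K + k)).filter fun i =>
        ¬ ∀ e ∈ E, ¬ (Bs ρ l N₀ i ≤ e ∧ e < Bs ρ l N₀ (i + 1))).card ≤ E.card := by
      have hch : ∀ i ∈ (range (K + k)).filter (fun i =>
          ¬ ∀ e ∈ E, ¬ (Bs ρ l N₀ i ≤ e ∧ e < Bs ρ l N₀ (i + 1))),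
          ∃ e ∈ E, Bs ρ l N₀ i ≤ e ∧ e < Bs ρ l N₀ (i + 1) := by
        intro i hi
        have := (mem_filter.1 hi).2
        push Not at this
        exact this
      choose! g hg1 hg2 using hch
      refine card_le_card_of_injOn g (fun i hi => hg1 i hi) ?_
      intro i hi j hj he
      have a1 := hg2 i hi
      have a2 := hg2 j hj
      rw [he] at a1
      rcases lt_trichotomy i j with h | h | h
      · have := hBmono.monotone (show i + 1 ≤ j by omega)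
        omega
      · exact h
      · have := hBmono.monotone (show j + 1 ≤ i by omega)
        omega
    have h2 := card_filter_add_card_filter_not (s := range (K + k)) (fun i =>
      ∀ e ∈ E, ¬ (Bs ρ l N₀ i ≤ e ∧ e < Bs ρ l N₀ (i + 1)))
    rw [card_range] at h2
    rw [hG]
    omega
  obtain ⟨g, hg⟩ : ∃ g : Fin K ↪o ℕ, g = G.orderEmbOfCardLe hGcard := ⟨_, rfl⟩
  have hgm : ∀ i, g i ∈ G := by
    intro i
    rw [hg]
    exact orderEmbOfCardLe_mem _ _ _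
  have hgK : ∀ i, g i < K + k := by
    intro i
    have := hgm i
    rw [hG, mem_filter, mem_range] at this
    exact this.1
  obtain ⟨a, ha⟩ : ∃ a : ℕ → ℕ, a = fun m => if h : m < K then Bs ρ l N₀ (g ⟨m, h⟩) else N :=
    ⟨_, rfl⟩
  have ha1 : ∀ m (h : m < K), a m = Bs ρ l N₀ (g ⟨m, h⟩) := by
    intro m h
    rw [ha]
    simp [h]
  have haK : a K = N := by
    rw [ha]
    simp
  have hnext : ∀ m (h : m < K), Bs ρ l N₀ (g ⟨m, h⟩ + 1) ≤ a (m + 1) := by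
    intro m h
    rcases Nat.lt_or_ge (m + 1) K with h2 | h2
    · rw [ha1 _ h2]
      apply hBmono.monotone
      have : g ⟨m, h⟩ < g ⟨m + 1, h2⟩ := g.strictMono (by simp)
      omega
    · have : m + 1 = K := by omega
      rw [this, haK]
      refine le_trans (hBmono.monotone ?_) hBN
      have := hgK ⟨m, h⟩
      omega
  have hsep : ∀ i, i < K → a i + l ≤ a (i + 1) ∧ Sep x l (a i) (a (i + 1)) := by
    intro i hi
    have h1 := hnext i hi
    have h2 := Bs_step hρ.le l N₀ (g ⟨i, hi⟩)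
    rw [ha1 i hi]
    refine ⟨by omega, ?_⟩
    intro u s' hu1 hu2 hs1 hs2
    have hGi := hgm ⟨i, hi⟩
    rw [hG, mem_filter] at hGi
    obtain ⟨j, hj1, hj2, hj3⟩ := hz u ((Bs_ge hρ.le l N₀ _).trans hu1) s' hs1
    have hj4 : ((j + s' : ℕ) : ℝ) ≤
        (⌈ρ * ((Bs ρ l N₀ (g ⟨i, hi⟩) : ℝ) + 2 * l)⌉₊ : ℝ) := by
      refine hj2.trans (le_trans ?_ (Nat.le_ceil _))
      refine mul_le_mul_of_nonneg_left ?_ (by linarith)
      have b1 : (u : ℝ) ≤ Bs ρ l N₀ (g ⟨i, hi⟩) + l := by exact_mod_cast hu2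
      have b2 : (s' : ℝ) ≤ l := by exact_mod_cast hs2
      linarith
    have hj5 : j + s' ≤ ⌈ρ * ((Bs ρ l N₀ (g ⟨i, hi⟩) : ℝ) + 2 * l)⌉₊ := by exact_mod_cast hj4
    have hj6 : j + s' < Bs ρ l N₀ (g ⟨i, hi⟩ + 1) := by
      show _ < ⌈ρ * ((Bs ρ l N₀ (g ⟨i, hi⟩) : ℝ) + 2 * l)⌉₊ + 1
      omega
    have hBl : Bs ρ l N₀ (g ⟨i, hi⟩ + 1) ≤ N :=
      le_trans (hBmono.monotone (by have := hgK ⟨i, hi⟩; omega)) hBN
    have hxz : ∀ n, Bs ρ l N₀ (g ⟨i, hi⟩) ≤ n → n < Bs ρ l N₀ (g ⟨i, hi⟩ + 1) → x n = z n := by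
      intro n hn1 hn2
      refine hE n (by omega) fun hmem => ?_
      exact hGi.2 n hmem ⟨hn1, hn2⟩
    refine ⟨j, hj1, by omega, ?_⟩
    rw [hxz (j + s') (by omega) hj6, hxz j (by omega) (by omega)]
    exact hj3
  obtain ⟨W, hW1, hW2⟩ := regions hrun K l ⌈X⌉₊ a haK.le hsep (by
    intro n hn
    apply Nat.ceil_le.2
    rw [← hqe] at hn
    have hnR : ((l : ℝ) + 1) ≤ n * q := by exact_mod_cast hn
    rw [hNC] at hl2
    have : X * q < n * q := by linarith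
    exact (lt_of_mul_lt_mul_right this (by linarith)).le)
  rcases Nat.eq_zero_or_pos W.card with hWc | hWc
  · -- the bound is trivial
    apply htriv
    rw [hWc] at hW2
    have h1 : ⌈X⌉₊ ^ K < K * l + 1 := by
      by_contra hcon
      push Not at hcon
      have := Nat.div_pos hcon (by omega)
      omega
    have h2 : X ^ K ≤ (⌈X⌉₊ : ℝ) ^ K := pow_le_pow_left₀ hX0 (Nat.le_ceil _) _
    have h3 : ((⌈X⌉₊ ^ K : ℕ) : ℝ) ≤ ((K * l : ℕ) : ℝ) := by exact_mod_cast (by omega)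
    push_cast at h3
    have h4 : (K : ℝ) * l ≤ N := by
      have h5 : (K : ℝ) ≤ C ^ (K + k) := by
        have c1 : (K : ℝ) ≤ (4 : ℝ) ^ K := by
          have := four_pow K hK
          have h6 : K ≤ 4 ^ K := by omega
          exact_mod_cast h6
        calc (K : ℝ) ≤ 4 ^ K := c1
          _ ≤ C ^ K := pow_le_pow_left₀ (by norm_num) hC4 _
          _ ≤ C ^ (K + k) := pow_le_pow_right₀ (by linarith) (by omega)
      calc (K : ℝ) * l ≤ C ^ (K + k) * l := mul_le_mul_of_nonneg_right h5 (by linarith)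
        _ = l * C ^ (K + k) := by ring
        _ ≤ N := hlN
    linarith
  · refine ⟨W, fun w hw => ⟨(hW1 w hw).1, hacc' _ ?_⟩, ?_⟩
    · have := (hW1 w hw).2
      rwa [hf0, hfN] at this
    · have h1 : ⌈X⌉₊ ^ K < (K * l + 1) * (W.card + 1) := by
        calc ⌈X⌉₊ ^ K < (K * l + 1) * (⌈X⌉₊ ^ K / (K * l + 1) + 1) :=
              Nat.lt_mul_div_succ _ (by omega)
          _ ≤ _ := Nat.mul_le_mul_left _ (by omega)
      have h2 : X ^ K ≤ (⌈X⌉₊ : ℝ) ^ K := pow_le_pow_left₀ hX0 (Nat.le_ceil _) _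
      have h3 : ((⌈X⌉₊ ^ K : ℕ) : ℝ) ≤ (((K * l + 1) * (W.card + 1) : ℕ) : ℝ) := by
        exact_mod_cast h1.le
      push_cast at h3
      have hWR : (1 : ℝ) ≤ W.card := by exact_mod_cast hWc
      have hKR : (1 : ℝ) ≤ K := by exact_mod_cast hK
      have h4 : 4 * ((K : ℝ) * l) ≤ N := by
        have h5 : 4 * (K : ℝ) ≤ C ^ (K + k) := by
          have c1 : 4 * (K : ℝ) ≤ (4 : ℝ) ^ K := by exact_mod_cast four_pow K hK
          calc 4 * (K : ℝ) ≤ 4 ^ K := c1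
            _ ≤ C ^ K := pow_le_pow_left₀ (by norm_num) hC4 _
            _ ≤ C ^ (K + k) := pow_le_pow_right₀ (by linarith) (by omega)
        calc 4 * ((K : ℝ) * l) = (4 * K) * l := by ring
          _ ≤ C ^ (K + k) * l := mul_le_mul_of_nonneg_right h5 (by linarith)
          _ = l * C ^ (K + k) := by ring
          _ ≤ N := hlN
      have h6 : (1 : ℝ) ≤ (K : ℝ) * l := by nlinarith
      calc X ^ K ≤ ((K : ℝ) * l + 1) * (W.card + 1) := h2.trans h3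
        _ ≤ (2 * ((K : ℝ) * l)) * (2 * W.card) := by
            apply mul_le_mul <;> first | positivity | linarith
        _ = (4 * ((K : ℝ) * l)) * W.card := by ring
        _ ≤ N * W.card := mul_le_mul_of_nonneg_right h4 (by linarith)

end Pool.Agent.X3.NfaWords
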