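import Mathlib

/-!
# Numerical consequences of the parametric bound
-/

set_option autoImplicit false

namespace Pool.Agent.X3.NfaWords

/-- from the parametric bound to the number of states -/
theorem num_states {C : ℝ} (hC : 4 ≤ C) {N q : ℕ} (hq : 1 ≤ q)
    (h : ∀ K : ℕ, 1 ≤ K → ((N : ℝ) / (C ^ K * (q : ℝ))) ^ K ≤ N) :
    (N : ℝ) * Real.exp (-((1 + 2 * Real.log C) * Real.sqrt (Real.log N))) ≤ q := by
  have hqR : (1 : ℝ) ≤ q := by exact_mod_cast hq
  have hC0 : 0 < C := by linarith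
  have hlC : 0 < Real.log C := Real.log_pos (by linarith)
  rcases Nat.eq_zero_or_pos N with hN | hN
  · subst hN
    simp
  have hNR : (1 : ℝ) ≤ N := by exact_mod_cast hN
  have hN0 : (0 : ℝ) < N := by linarith
  obtain ⟨L, hL⟩ : ∃ L, L = Real.log N := ⟨_, rfl⟩
  have hL0 : 0 ≤ L := by rw [hL]; exact Real.log_nonneg hNR
  have hNL : (N : ℝ) = Real.exp L := by rw [hL, Real.exp_log hN0]
  rw [← hL]
  have hs0 : 0 ≤ Real.sqrt L := Real.sqrt_nonneg _
  have hs2 : Real.sqrt L * Real.sqrt L = L := Real.mul_self_sqrt hL0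
  have hgoal : L - (1 + 2 * Real.log C) * Real.sqrt L ≤ Real.log q →
      (N : ℝ) * Real.exp (-((1 + 2 * Real.log C) * Real.sqrt L)) ≤ q := by
    intro h1
    rw [hNL, ← Real.exp_add]
    calc Real.exp (L + -((1 + 2 * Real.log C) * Real.sqrt L)) ≤ Real.exp (Real.log q) :=
          Real.exp_le_exp.2 (by linarith)
      _ = q := Real.exp_log (by linarith)
  apply hgoal
  have hlq : 0 ≤ Real.log q := Real.log_nonneg hqR
  rcases le_or_gt L 1 with h1 | h1
  · have : L ≤ Real.sqrt L := by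
      have h2 : Real.sqrt L ≤ 1 := Real.sqrt_le_one.2 h1
      nlinarith
    nlinarith
  · have hsL : 1 < Real.sqrt L := by
      by_contra hcon
      push Not at hcon
      nlinarith
    obtain ⟨K, hK⟩ : ∃ K : ℕ, K = ⌈Real.sqrt L⌉₊ := ⟨_, rfl⟩
    have hK1 : Real.sqrt L ≤ K := by rw [hK]; exact Nat.le_ceil _
    have hK2 : (K : ℝ) < Real.sqrt L + 1 := by rw [hK]; exact Nat.ceil_lt_add_one hs0
    have hKpos : 1 ≤ K := by
      have : (0 : ℝ) < K := by linarith
      exact_mod_cast this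
    have h2 := h K hKpos
    have hX : 0 < (N : ℝ) / (C ^ K * (q : ℝ)) := by positivity
    have h3 := Real.log_le_log (by positivity) h2
    rw [Real.log_pow, Real.log_div (by positivity) (by positivity),
      Real.log_mul (by positivity) (by positivity), Real.log_pow, ← hL] at h3
    have hKR : (0 : ℝ) < K := by linarith
    have h4 : L - ((K : ℝ) * Real.log C + Real.log q) ≤ L / K := by
      rw [le_div_iff₀ hKR]
      linarith
    have h5 : L / K ≤ Real.sqrt L := by
      rw [div_le_iff₀ hKR]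
      nlinarith
    have h6 : (K : ℝ) * Real.log C ≤ (2 * Real.sqrt L) * Real.log C :=
      mul_le_mul_of_nonneg_right (by linarith) hlC.le
    nlinarith

/-- from the parametric bound to many words -/
theorem num_words {C δ : ℝ} (hC : 4 ≤ C) (hδ : 0 < δ) (hδ1 : δ ≤ 1) :
    ∃ c : ℝ, 0 < c ∧ ∃ N₁ : ℕ, ∀ N q k : ℕ, N₁ ≤ N → 1 ≤ q → (q : ℝ) ≤ (N : ℝ) ^ (1 - δ) →
      (k : ℝ) ≤ c * Real.log N → ∀ m : ℝ, 0 < m →
      (∀ K : ℕ, 1 ≤ K → ((N : ℝ) / (C ^ (K + k) * (q : ℝ))) ^ K ≤ N * m) →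
      Real.exp (c * Real.log N ^ 2) ≤ m := by
  have hC0 : 0 < C := by linarith
  have hlC : 0 < Real.log C := Real.log_pos (by linarith)
  obtain ⟨c1, hc1⟩ : ∃ c1, c1 = δ / (4 * Real.log C) := ⟨_, rfl⟩
  have hc10 : 0 < c1 := by rw [hc1]; positivity
  have hc1C : c1 * Real.log C = δ / 4 := by rw [hc1]; field_simp
  refine ⟨c1 * δ / 4, by positivity, ⌈Real.exp (8 * Real.log C / δ + 4 / (c1 * δ) + 1)⌉₊, ?_⟩
  intro N q k hN hq hqN hk m hm h
  have hqR : (1 : ℝ) ≤ q := by exact_mod_cast hq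
  have hN2 : Real.exp (8 * Real.log C / δ + 4 / (c1 * δ) + 1) ≤ N :=
    (Nat.le_ceil _).trans (by exact_mod_cast hN)
  have hN0 : (0 : ℝ) < N := lt_of_lt_of_le (Real.exp_pos _) hN2
  obtain ⟨L, hL⟩ : ∃ L, L = Real.log N := ⟨_, rfl⟩
  have hLge : 8 * Real.log C / δ + 4 / (c1 * δ) + 1 ≤ L := by
    rw [hL]
    have := Real.log_le_log (Real.exp_pos _) hN2
    rwa [Real.log_exp] at this
  have h8 : 0 < 8 * Real.log C / δ := by positivity
  have h4' : 0 < 4 / (c1 * δ) := by positivity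
  have hL0 : 0 < L := by linarith
  have hLa : 8 * Real.log C ≤ δ * L := by
    have : 8 * Real.log C / δ ≤ L := by linarith
    rw [div_le_iff₀ hδ] at this
    linarith
  have hLb : 4 ≤ (c1 * δ) * L := by
    have : 4 / (c1 * δ) ≤ L := by linarith
    rw [div_le_iff₀ (by positivity)] at this
    linarith
  rw [← hL] at hk ⊢
  obtain ⟨K, hK⟩ : ∃ K : ℕ, K = ⌈c1 * L⌉₊ := ⟨_, rfl⟩
  have hK1 : c1 * L ≤ K := by rw [hK]; exact Nat.le_ceil _
  have hK2 : (K : ℝ) < c1 * L + 1 := by rw [hK]; exact Nat.ceil_lt_add_one (by positivity)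
  have hKR : (0 : ℝ) < K := lt_of_lt_of_le (by positivity) hK1
  have hKpos : 1 ≤ K := by exact_mod_cast hKR
  have h2 := h K hKpos
  have hX : 0 < (N : ℝ) / (C ^ (K + k) * (q : ℝ)) := by positivity
  have h3 := Real.log_le_log (by positivity) h2
  rw [Real.log_pow, Real.log_div (by positivity) (by positivity),
    Real.log_mul (by positivity) (by positivity), Real.log_pow,
    Real.log_mul (by positivity) hm.ne', ← hL] at h3
  push_cast at h3
  have hlq : Real.log q ≤ (1 - δ) * L := by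
    have := Real.log_le_log (by linarith) hqN
    rwa [Real.log_rpow hN0, ← hL] at this
  have h5 : ((K : ℝ) + k) * Real.log C ≤ δ / 2 * L := by
    have a1 : ((K : ℝ) + k) * Real.log C ≤ (c1 * L + 1 + c1 * δ / 4 * L) * Real.log C :=
      mul_le_mul_of_nonneg_right (by linarith) hlC.le
    have a2 : (c1 * L + 1 + c1 * δ / 4 * L) * Real.log C =
        (c1 * Real.log C) * L + Real.log C + (c1 * Real.log C) * (δ / 4) * L := by ring
    rw [a2, hc1C] at a1
    have a3 : δ / 4 * (δ / 4) * L ≤ δ / 4 * (1 / 4) * L := by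
      apply mul_le_mul_of_nonneg_right _ hL0.le
      nlinarith
    nlinarith
  have h6 : δ / 2 * L ≤ L - (((K : ℝ) + k) * Real.log C + Real.log q) := by
    nlinarith
  have h7 : (c1 * L) * (δ / 2 * L) ≤ K * (L - (((K : ℝ) + k) * Real.log C + Real.log q)) := by
    apply mul_le_mul hK1 h6 (by positivity) (by linarith)
  have h9 : c1 * δ / 4 * L ^ 2 ≤ Real.log m := by
    nlinarith
  calc Real.exp (c1 * δ / 4 * L ^ 2) ≤ Real.exp (Real.log m) := Real.exp_le_exp.2 h9
    _ = m := Real.exp_log hm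

end Pool.Agent.X3.NfaWords
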