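import Mathlib
import Pool.Agent.X3.NfaGeo
import Pool.Agent.X3.NfaNum
import Pool.Agent.X3.NfaPi

/-!
# Automata and the digits of numbers with a finite irrationality measure
-/

set_option autoImplicit false

namespace Pool.Agent.X3.NfaWords

/-- number of words of length `N` accepted -/
noncomputable def nacc {b : ℕ} {σ : Type} (M : NFA (Fin b) σ) (N : ℕ) : ℕ :=
  {w : List (Fin b) | w ∈ M.accepts ∧ w.length = N}.ncard

lemma nacc_ge {b : ℕ} {σ : Type} (M : NFA (Fin b) σ) (N : ℕ) (W : Finset (List (Fin b)))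
    (hW : ∀ w ∈ W, w.length = N ∧ w ∈ M.accepts) : W.card ≤ nacc M N := by
  have hfin : {w : List (Fin b) | w ∈ M.accepts ∧ w.length = N}.Finite :=
    (List.finite_length_eq (Fin b) N).subset fun w hw => hw.2
  have : ((W : Set (List (Fin b)))).ncard ≤ {w : List (Fin b) | w ∈ M.accepts ∧ w.length = N}.ncard :=
    Set.ncard_le_ncard (fun w hw => ⟨(hW w hw).2, (hW w hw).1⟩) hfin
  rwa [Set.ncard_coe_finset] at this

/-- the parametric form -/
theorem digits_param {y ρ : ℝ} (hρ : 1 < ρ) (N₀ : ℕ)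
    (h : ∀ (b : ℕ) [NeZero b], 2 ≤ b → NoPer (Real.digits y b) ρ N₀) :
    ∃ C : ℝ, 4 ≤ C ∧ ∀ (b : ℕ) [NeZero b], 2 ≤ b →
    ∀ (σ : Type) [Fintype σ] (M : NFA (Fin b) σ) (N : ℕ) (d : ℕ → Fin b),
      (List.range N).map d ∈ M.accepts → ∀ K : ℕ, 1 ≤ K →
        ((N : ℝ) / (C ^ (K + ((Finset.range N).filter fun i => d i ≠ Real.digits y b i).card) *
          (Fintype.card σ : ℝ))) ^ K ≤ N * (nacc M N : ℝ) := by
  obtain ⟨C, hC, h'⟩ := many_geo hρ N₀
  refine ⟨C, hC, fun b _ hb σ _ M N d hacc K hK => ?_⟩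
  obtain ⟨W, hW1, hW2⟩ := h' (Fin b) σ (Real.digits y b) (h b hb) d M N
    (by rw [seg_zero]; exact hacc)
    ((Finset.range N).filter fun i => d i ≠ Real.digits y b i) (by
      intro i hi hn
      by_contra hne
      exact hn (Finset.mem_filter.2 ⟨Finset.mem_range.2 hi, hne⟩)) K hK
  refine hW2.trans (mul_le_mul_of_nonneg_left ?_ (Nat.cast_nonneg _))
  exact_mod_cast nacc_ge M N W hW1

lemma card_pos {b N : ℕ} {σ : Type} [Fintype σ] {M : NFA (Fin b) σ} {w : List (Fin b)}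
    (hacc : w ∈ M.accepts) : 1 ≤ Fintype.card σ := by
  rw [NFA.accepts_iff_exists_path] at hacc
  obtain ⟨s, -⟩ := hacc
  exact Fintype.card_pos_iff.2 ⟨s⟩

lemma nacc_pos {b N : ℕ} {σ : Type} {M : NFA (Fin b) σ} {d : ℕ → Fin b}
    (hacc : (List.range N).map d ∈ M.accepts) : 1 ≤ nacc M N := by
  have := nacc_ge M N {(List.range N).map d} (fun w hw => by
    rw [Finset.mem_singleton] at hw
    subst hw
    exact ⟨by simp, hacc⟩)
  simpa using this

/-- few states: many words; and the number of states if there is only one word -/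
theorem digits_all {y ρ : ℝ} (hρ : 1 < ρ) (N₀ : ℕ)
    (h : ∀ (b : ℕ) [NeZero b], 2 ≤ b → NoPer (Real.digits y b) ρ N₀) :
    (∀ δ : ℝ, 0 < δ → δ ≤ 1 → ∃ c : ℝ, 0 < c ∧ ∃ N₁ : ℕ, ∀ (b : ℕ) [NeZero b], 2 ≤ b →
      ∀ (σ : Type) [Fintype σ] (M : NFA (Fin b) σ) (N : ℕ), N₁ ≤ N →
        (Fintype.card σ : ℝ) ≤ (N : ℝ) ^ (1 - δ) → ∀ d : ℕ → Fin b,
        (((Finset.range N).filter fun i => d i ≠ Real.digits y b i).card : ℝ) ≤ c * Real.log N →
        (List.range N).map d ∈ M.accepts → Real.exp (c * Real.log N ^ 2) ≤ nacc M N) ∧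
    (∃ C : ℝ, ∀ (b : ℕ) [NeZero b], 2 ≤ b → ∀ (σ : Type) [Fintype σ] (M : NFA (Fin b) σ) (N : ℕ),
      (List.range N).map (Real.digits y b) ∈ M.accepts →
      (∀ w ∈ M.accepts, w.length = N → w = (List.range N).map (Real.digits y b)) →
      (N : ℝ) * Real.exp (-(C * Real.sqrt (Real.log N))) ≤ Fintype.card σ) := by
  obtain ⟨C, hC, hmain⟩ := digits_param hρ N₀ h
  refine ⟨fun δ hδ hδ1 => ?_, 1 + 2 * Real.log C, ?_⟩
  · obtain ⟨c, hc, N₁, hnum⟩ := num_words hC hδ hδ1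
    refine ⟨c, hc, N₁, fun b _ hb σ _ M N hN hq d hk hacc => ?_⟩
    exact hnum N (Fintype.card σ) _ hN (card_pos (N := N) hacc) hq hk (nacc M N)
      (by exact_mod_cast nacc_pos hacc) (fun K hK => hmain b hb σ M N d hacc K hK)
  · intro b _ hb σ _ M N hacc huniq
    refine num_states hC (card_pos (N := N) hacc) (fun K hK => ?_)
    have h1 := hmain b hb σ M N (Real.digits y b) hacc K hK
    have h2 : nacc M N ≤ 1 := by
      unfold nacc
      rw [Set.ncard_le_one_iff ((List.finite_length_eq (Fin b) N).subset fun w hw => hw.2)]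
      intro u v hu hv
      rw [huniq u hu.1 hu.2, huniq v hv.1 hv.2]
    have h3 : (nacc M N : ℝ) ≤ 1 := by exact_mod_cast h2
    have h4 : ((Finset.range N).filter fun i => Real.digits y b i ≠ Real.digits y b i).card = 0 := by
      simp
    rw [h4, Nat.add_zero] at h1
    refine h1.trans ?_
    have : (0 : ℝ) ≤ N := Nat.cast_nonneg _
    nlinarith

end Pool.Agent.X3.NfaWords
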