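import Mathlib
import Pool.Agent.X3.NfaRegions
import Pool.Agent.X3.NfaGeo

/-!
# Exchange of loops in many regions: bad regions, rotated words
-/

set_option autoImplicit false

namespace Pool.Agent.X3.NfaWords

open Finset

variable {α σ : Type}

/-- **Many words, some of the regions are bad or contain errors.** -/
theorem regions_bad [Fintype σ] {M : NFA α σ} {x z : ℕ → α} {N : ℕ} (hacc : seg x 0 N ∈ M.accepts)
    (K k l r : ℕ) (B : ℕ → ℕ) (hBN : B (K + k) ≤ N) (E Bad : Finset ℕ) (hE : E.card + Bad.card ≤ k)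
    (hxz : ∀ i, i < N → i ∉ E → x i = z i)
    (hmon : ∀ i, i < K + k → B i + l ≤ B (i + 1) ∧ B i < B (i + 1))
    (hsep : ∀ i, i < K + k → i ∉ Bad → Sep z l (B i) (B (i + 1)))
    (hr : ∀ n : ℕ, l + 1 ≤ n * Fintype.card σ → r ≤ n) :
    ∃ W : Finset (List α), (∀ w ∈ W, w.length = N ∧ w ∈ M.accepts) ∧
      r ^ K / (K * l + 1) ≤ W.card := by
  classical
  rw [NFA.accepts_iff_exists_path] at hacc
  obtain ⟨s, hs, t, ht, ⟨p⟩⟩ := hacc
  obtain ⟨f, hf0, hfN, hf⟩ := run_of_P N 0 s t (by simpa using P_of_path p)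
  rw [Nat.zero_add] at hfN
  have hrun : Run M x f N := fun i hi => hf i (Nat.zero_le _) (by omega)
  have hacc' : ∀ w, P M s w t → w ∈ M.accepts := by
    intro w hw
    rw [NFA.accepts_iff_exists_path]
    exact ⟨s, hs, t, ht, path_of_P hw⟩
  have hBmono : ∀ i j, i ≤ j → j ≤ K + k → B i ≤ B j := by
    intro i j hij
    induction j with
    | zero =>
      intro _
      have : i = 0 := by omega
      rw [this]
    | succ j ih =>
      intro hj
      rcases Nat.lt_or_ge i (j + 1) with h | h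
      · have := ih (by omega) (by omega)
        have h2 := (hmon j (by omega)).1
        omega
      · have : i = j + 1 := by omega
        rw [this]
  -- the good regions
  obtain ⟨G, hG⟩ : ∃ G : Finset ℕ, G = (range (K + k)).filter fun i =>
      i ∉ Bad ∧ ∀ e ∈ E, ¬ (B i ≤ e ∧ e < B (i + 1)) := ⟨_, rfl⟩
  have hGcard : K ≤ G.card := by
    have h1 : ((range (K + k)).filter fun i =>
        ¬ ∀ e ∈ E, ¬ (B i ≤ e ∧ e < B (i + 1))).card ≤ E.card := by
      have hch : ∀ i ∈ (range (K + k)).filter (fun i =>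
          ¬ ∀ e ∈ E, ¬ (B i ≤ e ∧ e < B (i + 1))),
          ∃ e ∈ E, B i ≤ e ∧ e < B (i + 1) := by
        intro i hi
        have := (mem_filter.1 hi).2
        push Not at this
        exact this
      choose! g hg1 hg2 using hch
      refine card_le_card_of_injOn g (fun i hi => hg1 i hi) ?_
      intro i hi j hj he
      have a1 := hg2 i hi
      have a2 := hg2 j hj
      have b1 := mem_range.1 (mem_filter.1 hi).1
      have b2 := mem_range.1 (mem_filter.1 hj).1
      rw [he] at a1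
      rcases lt_trichotomy i j with h | h | h
      · have := hBmono (i + 1) j (by omega) (by omega)
        omega
      · exact h
      · have := hBmono (j + 1) i (by omega) (by omega)
        omega
    have h2 : range (K + k) ⊆ G ∪ (Bad ∪ (range (K + k)).filter fun i =>
        ¬ ∀ e ∈ E, ¬ (B i ≤ e ∧ e < B (i + 1))) := by
      intro i hi
      rw [hG, mem_union, mem_union, mem_filter, mem_filter]
      by_cases h3 : i ∈ Bad
      · exact Or.inr (Or.inl h3)
      by_cases h4 : ∀ e ∈ E, ¬ (B i ≤ e ∧ e < B (i + 1))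
      · exact Or.inl ⟨hi, h3, h4⟩
      · exact Or.inr (Or.inr ⟨hi, h4⟩)
    have h3 := card_le_card h2
    have h4 := card_union_le G (Bad ∪ (range (K + k)).filter fun i =>
        ¬ ∀ e ∈ E, ¬ (B i ≤ e ∧ e < B (i + 1)))
    have h5 := card_union_le Bad ((range (K + k)).filter fun i =>
        ¬ ∀ e ∈ E, ¬ (B i ≤ e ∧ e < B (i + 1)))
    rw [card_range] at h3
    omega
  obtain ⟨g, hg⟩ : ∃ g : Fin K ↪o ℕ, g = G.orderEmbOfCardLe hGcard := ⟨_, rfl⟩
  have hgm : ∀ i, g i ∈ G := by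
    intro i
    rw [hg]
    exact orderEmbOfCardLe_mem _ _ _
  have hgK : ∀ i, g i < K + k := by
    intro i
    have := hgm i
    rw [hG, mem_filter, mem_range] at this
    exact this.1
  obtain ⟨a, ha⟩ : ∃ a : ℕ → ℕ, a = fun m => if h : m < K then B (g ⟨m, h⟩) else N :=
    ⟨_, rfl⟩
  have ha1 : ∀ m (h : m < K), a m = B (g ⟨m, h⟩) := by
    intro m h
    rw [ha]
    simp [h]
  have haK : a K = N := by
    rw [ha]
    simp
  have hnext : ∀ m (h : m < K), B (g ⟨m, h⟩ + 1) ≤ a (m + 1) := by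
    intro m h
    rcases Nat.lt_or_ge (m + 1) K with h2 | h2
    · rw [ha1 _ h2]
      have h4 : g ⟨m, h⟩ < g ⟨m + 1, h2⟩ := g.strictMono (by simp)
      exact hBmono _ _ (by omega) (hgK _).le
    · have : m + 1 = K := by omega
      rw [this, haK]
      refine le_trans (hBmono _ _ ?_ le_rfl) hBN
      have := hgK ⟨m, h⟩
      omega
  have hsep' : ∀ i, i < K → a i + l ≤ a (i + 1) ∧ Sep x l (a i) (a (i + 1)) := by
    intro i hi
    have h1 := hnext i hi
    obtain ⟨h2, h3⟩ := hmon (g ⟨i, hi⟩) (hgK _)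
    have hGi := hgm ⟨i, hi⟩
    rw [hG, mem_filter] at hGi
    have h4 := hsep (g ⟨i, hi⟩) (hgK _) hGi.2.1
    rw [ha1 i hi]
    refine ⟨by omega, ?_⟩
    intro u s' hu1 hu2 hs1 hs2
    obtain ⟨j, hj1, hj2, hj3⟩ := h4 u s' hu1 hu2 hs1 hs2
    have hBl : B (g ⟨i, hi⟩ + 1) ≤ N :=
      le_trans (hBmono _ _ (by have := hgK ⟨i, hi⟩; omega) le_rfl) hBN
    have hxz' : ∀ n, B (g ⟨i, hi⟩) ≤ n → n < B (g ⟨i, hi⟩ + 1) → x n = z n := by
      intro n hn1 hn2
      refine hxz n (by omega) fun hmem => ?_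
      exact hGi.2.2 n hmem ⟨hn1, hn2⟩
    refine ⟨j, hj1, by omega, ?_⟩
    rw [hxz' (j + s') (by omega) hj2, hxz' j (by omega) (by omega)]
    exact hj3
  obtain ⟨W, hW1, hW2⟩ := regions hrun K l r a haK.le hsep' hr
  refine ⟨W, fun w hw => ⟨(hW1 w hw).1, hacc' _ ?_⟩, hW2⟩
  have := (hW1 w hw).2
  rwa [hf0, hfN] at this

/-- the sequence has no long periodic stretches between `N₀` and `N` -/
def NoPerTo (z : ℕ → α) (ρ : ℝ) (N₀ N : ℕ) : Prop :=
  ∀ u s v : ℕ, N₀ ≤ u → 1 ≤ s → v ≤ N → ρ * ((u : ℝ) + s) < v → ∃ j, u ≤ j ∧ j + s < v ∧ z (j + s) ≠ z j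

/-- **Rotated words.** -/
theorem many_cut {ρ : ℝ} (hρ : 1 < ρ) :
    ∃ C : ℝ, 4 ≤ C ∧ ∀ (α σ : Type) [Fintype σ] (z : ℕ → α) (N₀ N : ℕ), 1 ≤ N₀ → NoPerTo z ρ N₀ N →
      ∀ (x : ℕ → α) (M : NFA α σ) (c : ℕ), c ≤ N → seg x 0 N ∈ M.accepts →
        ∀ E : Finset ℕ, (∀ i, i < N → i ∉ E → x i = z ((i + c) % N)) → ∀ K : ℕ, 1 ≤ K →
        C ^ (K + E.card) * N₀ ≤ N →
        ∃ W : Finset (List α), (∀ w ∈ W, w.length = N ∧ w ∈ M.accepts) ∧
          ((N : ℝ) / (C ^ (K + E.card) * (Fintype.card σ : ℝ))) ^ K ≤ N * W.card := by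
  classical
  obtain ⟨A, hA⟩ : ∃ A : ℝ, A = (2 * ρ + 2) / (ρ - 1) := ⟨_, rfl⟩
  have hρ1 : 0 < ρ - 1 := by linarith
  have hA1 : A * (ρ - 1) = 2 * ρ + 2 := by rw [hA]; field_simp
  have hA0 : 0 < A := by rw [hA]; positivity
  obtain ⟨C, hC⟩ : ∃ C : ℝ, C = max 4 (ρ ^ 3 * (2 * A + 2)) := ⟨_, rfl⟩
  have hC4 : 4 ≤ C := by rw [hC]; exact le_max_left _ _
  have hCρ : ρ ^ 3 * (2 * A + 2) ≤ C := by rw [hC]; exact le_max_right _ _
  have hC0 : 0 < C := by linarith
  refine ⟨C, hC4, ?_⟩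
  intro α σ _ z N₀ N hN₀ hz x M c hcN hacc E hE K hK hCN
  obtain ⟨q, hqe⟩ : ∃ q, q = Fintype.card σ := ⟨_, rfl⟩
  have hq : 1 ≤ q := by
    have hacc2 := hacc
    rw [NFA.accepts_iff_exists_path] at hacc2
    obtain ⟨s, -⟩ := hacc2
    rw [hqe]
    exact Fintype.card_pos_iff.2 ⟨s⟩
  have hqR : (1 : ℝ) ≤ q := by exact_mod_cast hq
  rw [← hqe]
  obtain ⟨k, hk⟩ : ∃ k, k = E.card := ⟨_, rfl⟩
  rw [← hk] at hCN ⊢
  obtain ⟨X, hX⟩ : ∃ X : ℝ, X = (N : ℝ) / (C ^ (K + k) * (q : ℝ)) := ⟨_, rfl⟩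
  rw [← hX]
  have hCk : (0 : ℝ) < C ^ (K + k) := by positivity
  have hX0 : 0 ≤ X := by rw [hX]; positivity
  -- the trivial set
  have htriv : X ^ K ≤ N → ∃ W : Finset (List α), (∀ w ∈ W, w.length = N ∧ w ∈ M.accepts) ∧
      X ^ K ≤ N * W.card := by
    intro h
    refine ⟨{seg x 0 N}, fun w hw => ?_, by rw [card_singleton]; simpa using h⟩
    rw [mem_singleton] at hw
    subst hw
    exact ⟨by rw [seg_length]; omega, hacc⟩
  have hN₀R : (1 : ℝ) ≤ N₀ := by exact_mod_cast hN₀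
  have hN1 : (1 : ℝ) ≤ N := by
    have : (1 : ℝ) ≤ C ^ (K + k) := one_le_pow₀ (by linarith)
    nlinarith
  rcases le_or_gt X 1 with hX1 | hX1
  · apply htriv
    exact (pow_le_one₀ hX0 hX1).trans hN1
  -- the length of the regions
  obtain ⟨l, hl⟩ : ∃ l : ℕ, l = ⌊(N : ℝ) / C ^ (K + k)⌋₊ := ⟨_, rfl⟩
  have hNC : (N : ℝ) / C ^ (K + k) = X * q := by
    rw [hX]; field_simp
  have hl1 : (l : ℝ) ≤ N / C ^ (K + k) := by rw [hl]; exact Nat.floor_le (by positivity)
  have hl2 : (N : ℝ) / C ^ (K + k) < l + 1 := by rw [hl]; exact Nat.lt_floor_add_one _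
  have hl3 : 1 ≤ l := by
    rw [hl]
    apply Nat.le_floor
    rw [hNC]
    push_cast
    nlinarith
  have hlR : (1 : ℝ) ≤ l := by exact_mod_cast hl3
  have hlN : (l : ℝ) * C ^ (K + k) ≤ N := by
    rwa [le_div_iff₀ hCk] at hl1
  -- all regions are before `N`
  have hBN : Bs ρ l N₀ (K + k + 2) ≤ N := by
    have h1 := Bs_le hρ hA1 hl3 N₀ (K + k + 2)
    have h2 : (Bs ρ l N₀ (K + k + 2) : ℝ) ≤ N := by
      have h4 : ρ ^ (K + k + 2) * (2 * A + 2) ≤ C ^ (K + k) := by
        have h5 : (ρ ^ 3 * (2 * A + 2)) ^ (K + k) ≤ C ^ (K + k) :=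
          pow_le_pow_left₀ (by positivity) hCρ _
        refine le_trans ?_ h5
        rw [mul_pow, ← pow_mul]
        apply mul_le_mul _ _ (by positivity) (by positivity)
        · exact pow_le_pow_right₀ hρ.le (by omega)
        · calc (2 * A + 2) = (2 * A + 2) ^ 1 := (pow_one _).symm
            _ ≤ _ := pow_le_pow_right₀ (by linarith) (by omega)
      have h7 : (0 : ℝ) ≤ A * l := by positivity
      have h8 : ρ ^ (K + k + 2) * (2 * A + 2) * N₀ ≤ N :=
        le_trans (mul_le_mul_of_nonneg_right h4 (by linarith)) hCN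
      have h9 : ρ ^ (K + k + 2) * (2 * A + 2) * l ≤ N := by
        calc ρ ^ (K + k + 2) * (2 * A + 2) * l ≤ C ^ (K + k) * l :=
              mul_le_mul_of_nonneg_right h4 (by linarith)
          _ = l * C ^ (K + k) := by ring
          _ ≤ N := hlN
      have h10 : 0 < ρ ^ (K + k + 2) := by positivity
      have h11 : 0 ≤ ρ ^ (K + k + 2) * A * N₀ := by positivity
      have h12 : 0 ≤ ρ ^ (K + k + 2) * l := by positivity
      nlinarith
    exact_mod_cast h2
  obtain ⟨b, hb⟩ : ∃ b : ℕ → ℕ, b = Bs ρ l N₀ := ⟨_, rfl⟩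
  have hbmono : StrictMono b := by rw [hb]; exact Bs_mono hρ.le l N₀
  have hbstep : ∀ i, b i + 2 * l + 1 ≤ b (i + 1) := by rw [hb]; exact Bs_step hρ.le l N₀
  have hbN : b (K + k + 2) ≤ N := by rw [hb]; exact hBN
  have hb0 : ∀ i, N₀ ≤ b i := by rw [hb]; exact Bs_ge hρ.le l N₀
  -- separation in the original sequence
  have hsepb : ∀ i, i + 1 ≤ K + k + 2 → Sep z l (b i) (b (i + 1)) := by
    intro i hi u s hu1 hu2 hs1 hs2
    refine hz u s (b (i + 1)) ((hb0 i).trans hu1) hs1 ((hbmono.monotone hi).trans hbN) ?_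
    have b1 : (u : ℝ) ≤ b i + l := by exact_mod_cast hu2
    have b2 : (s : ℝ) ≤ l := by exact_mod_cast hs2
    have e : b (i + 1) = ⌈ρ * ((b i : ℝ) + 2 * l)⌉₊ + 1 := by rw [hb]; rfl
    have h3 := Nat.le_ceil (ρ * ((b i : ℝ) + 2 * l))
    have h4 : ρ * ((u : ℝ) + s) ≤ ρ * ((b i : ℝ) + 2 * l) :=
      mul_le_mul_of_nonneg_left (by linarith) (by linarith)
    rw [e]
    push_cast
    linarith
  -- the cut
  obtain ⟨J, hJ⟩ : ∃ J, J = K + k + 1 := ⟨_, rfl⟩
  obtain ⟨i0, hi0J, hi0a, hi0b⟩ : ∃ i0, i0 ≤ J + 1 ∧ (∀ i, i < i0 → b i < c) ∧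
      (∀ i, i0 ≤ i → i ≤ J → c ≤ b i) := by
    by_cases hex : ∃ i, i ≤ J ∧ c ≤ b i
    · have hs := Nat.find_spec hex
      refine ⟨Nat.find hex, by omega, fun i hi => ?_, fun i h1 _ => ?_⟩
      · have := Nat.find_min hex hi
        push Not at this
        exact this (by omega)
      · exact hs.2.trans (hbmono.monotone h1)
    · push Not at hex
      exact ⟨J + 1, le_rfl, fun i hi => hex i (by omega), fun i h1 h2 => by omega⟩
  obtain ⟨B, hB⟩ : ∃ B : ℕ → ℕ, B = fun m => if m + i0 ≤ J then b (i0 + m) - c else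
      b (m + i0 - (J + 1)) + N - c := ⟨_, rfl⟩
  have hB1 : ∀ m, m + i0 ≤ J → B m = b (i0 + m) - c := by
    intro m hm
    rw [hB]
    simp [hm]
  have hB2 : ∀ m, J < m + i0 → B m = b (m + i0 - (J + 1)) + N - c := by
    intro m hm
    rw [hB]
    simp [show ¬ (m + i0 ≤ J) by omega]
  have hbJ : b J + 2 * l + 1 ≤ N := by
    have := hbstep J
    have e : J + 1 = K + k + 2 := by omega
    rw [e] at this
    omega
  obtain ⟨W, hW1, hW2⟩ := regions_bad (M := M) (x := x) (z := fun i => z ((i + c) % N)) (N := N)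
    hacc K (k + 1) l ⌈X⌉₊ B (by
      have e : K + (k + 1) = J := by omega
      rw [e]
      rcases Nat.eq_zero_or_pos i0 with h | h
      · rw [hB1 J (by omega), h, Nat.zero_add]
        omega
      · rw [hB2 J (by omega)]
        have e2 : J + i0 - (J + 1) = i0 - 1 := by omega
        rw [e2]
        have := hi0a (i0 - 1) (by omega)
        omega) E {J - i0} (by rw [card_singleton]; omega) hE (by
      intro i hi
      have hiJ : i < J := by omega
      rcases Nat.lt_or_ge J (i + 1 + i0) with h | h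
      · rcases Nat.lt_or_ge J (i + i0) with h2 | h2
        · rw [hB2 i h2, hB2 (i + 1) h]
          have e3 : i + 1 + i0 - (J + 1) = i + i0 - (J + 1) + 1 := by omega
          rw [e3]
          have := hbstep (i + i0 - (J + 1))
          omega
        · rw [hB1 i h2, hB2 (i + 1) h]
          have e4 : i0 + i = J := by omega
          have e5 : i + 1 + i0 - (J + 1) = 0 := by omega
          rw [e4, e5]
          have := hb0 0
          have := hi0b J (by omega) le_rfl
          omega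
      · rw [hB1 i (by omega), hB1 (i + 1) (by omega)]
        have := hbstep (i0 + i)
        have e6 : i0 + (i + 1) = i0 + i + 1 := by ring
        rw [e6]
        have := hi0b (i0 + i) (by omega) (by omega)
        omega) (by
      intro i hi hbad
      rw [mem_singleton] at hbad
      have hiJ : i < J := by omega
      rcases Nat.lt_or_ge J (i + i0) with h2 | h2
      · rw [hB2 i h2, hB2 (i + 1) (by omega)]
        have e3 : i + 1 + i0 - (J + 1) = i + i0 - (J + 1) + 1 := by omega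
        rw [e3]
        obtain ⟨m, hm⟩ : ∃ m, m = i + i0 - (J + 1) := ⟨_, rfl⟩
        rw [← hm]
        have hm1 : m + 1 < i0 := by omega
        have hc1 := hi0a (m + 1) hm1
        have hc0 := hi0a m (by omega)
        intro u s hu1 hu2 hs1 hs2
        obtain ⟨j, hj1, hj2, hj3⟩ := hsepb m (by omega) (u + c - N) s (by omega) (by omega) hs1 hs2
        refine ⟨j + N - c, by omega, by omega, ?_⟩
        have m1 : (j + N - c + s + c) % N = j + s := by
          have : j + N - c + s + c = j + s + N := by omega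
          rw [this, Nat.add_mod_right]
          exact Nat.mod_eq_of_lt (by omega)
        have m2 : (j + N - c + c) % N = j := by
          have : j + N - c + c = j + N := by omega
          rw [this, Nat.add_mod_right]
          exact Nat.mod_eq_of_lt (by omega)
        show z ((j + N - c + s + c) % N) ≠ z ((j + N - c + c) % N)
        rw [m1, m2]
        exact hj3
      · have h3 : i + 1 + i0 ≤ J := by omega
        rw [hB1 i h2, hB1 (i + 1) h3]
        have e6 : i0 + (i + 1) = i0 + i + 1 := by ring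
        rw [e6]
        have hc0 := hi0b (i0 + i) (by omega) (by omega)
        have hbl : b (i0 + i + 1) ≤ N :=
          (hbmono.monotone (show i0 + i + 1 ≤ K + k + 2 by omega)).trans hbN
        intro u s hu1 hu2 hs1 hs2
        obtain ⟨j, hj1, hj2, hj3⟩ := hsepb (i0 + i) (by omega) (u + c) s (by omega) (by omega) hs1 hs2
        refine ⟨j - c, by omega, by omega, ?_⟩
        have m1 : (j - c + s + c) % N = j + s := by
          have : j - c + s + c = j + s := by omega
          rw [this]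
          exact Nat.mod_eq_of_lt (by omega)
        have m2 : (j - c + c) % N = j := by
          have : j - c + c = j := by omega
          rw [this]
          exact Nat.mod_eq_of_lt (by omega)
        show z ((j - c + s + c) % N) ≠ z ((j - c + c) % N)
        rw [m1, m2]
        exact hj3) (by
    intro n hn
    apply Nat.ceil_le.2
    rw [← hqe] at hn
    have hnR : ((l : ℝ) + 1) ≤ n * q := by exact_mod_cast hn
    rw [hNC] at hl2
    have : X * q < n * q := by linarith
    exact (lt_of_mul_lt_mul_right this (by linarith)).le)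
  rcases Nat.eq_zero_or_pos W.card with hWc | hWc
  · -- the bound is trivial
    apply htriv
    rw [hWc] at hW2
    have h1 : ⌈X⌉₊ ^ K < K * l + 1 := by
      by_contra hcon
      push Not at hcon
      have := Nat.div_pos hcon (by omega)
      omega
    have h2 : X ^ K ≤ (⌈X⌉₊ : ℝ) ^ K := pow_le_pow_left₀ hX0 (Nat.le_ceil _) _
    have h3 : ((⌈X⌉₊ ^ K : ℕ) : ℝ) ≤ ((K * l : ℕ) : ℝ) := by exact_mod_cast (by omega)
    push_cast at h3
    have h4 : (K : ℝ) * l ≤ N := by
      have h5 : (K : ℝ) ≤ C ^ (K + k) := by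
        have c1 : (K : ℝ) ≤ (4 : ℝ) ^ K := by
          have := four_pow K hK
          have h6 : K ≤ 4 ^ K := by omega
          exact_mod_cast h6
        calc (K : ℝ) ≤ 4 ^ K := c1
          _ ≤ C ^ K := pow_le_pow_left₀ (by norm_num) hC4 _
          _ ≤ C ^ (K + k) := pow_le_pow_right₀ (by linarith) (by omega)
      calc (K : ℝ) * l ≤ C ^ (K + k) * l := mul_le_mul_of_nonneg_right h5 (by linarith)
        _ = l * C ^ (K + k) := by ring
        _ ≤ N := hlN
    linarith
  · refine ⟨W, hW1, ?_⟩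
    have h1 : ⌈X⌉₊ ^ K < (K * l + 1) * (W.card + 1) := by
      calc ⌈X⌉₊ ^ K < (K * l + 1) * (⌈X⌉₊ ^ K / (K * l + 1) + 1) :=
            Nat.lt_mul_div_succ _ (by omega)
        _ ≤ _ := Nat.mul_le_mul_left _ (by omega)
    have h2 : X ^ K ≤ (⌈X⌉₊ : ℝ) ^ K := pow_le_pow_left₀ hX0 (Nat.le_ceil _) _
    have h3 : ((⌈X⌉₊ ^ K : ℕ) : ℝ) ≤ (((K * l + 1) * (W.card + 1) : ℕ) : ℝ) := by
      exact_mod_cast h1.le
    push_cast at h3
    have hWR : (1 : ℝ) ≤ W.card := by exact_mod_cast hWc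
    have hKR : (1 : ℝ) ≤ K := by exact_mod_cast hK
    have h4 : 4 * ((K : ℝ) * l) ≤ N := by
      have h5 : 4 * (K : ℝ) ≤ C ^ (K + k) := by
        have c1 : 4 * (K : ℝ) ≤ (4 : ℝ) ^ K := by exact_mod_cast four_pow K hK
        calc 4 * (K : ℝ) ≤ 4 ^ K := c1
          _ ≤ C ^ K := pow_le_pow_left₀ (by norm_num) hC4 _
          _ ≤ C ^ (K + k) := pow_le_pow_right₀ (by linarith) (by omega)
      calc 4 * ((K : ℝ) * l) = (4 * K) * l := by ring
        _ ≤ C ^ (K + k) * l := mul_le_mul_of_nonneg_right h5 (by linarith)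
        _ = l * C ^ (K + k) := by ring
        _ ≤ N := hlN
    have h6 : (1 : ℝ) ≤ (K : ℝ) * l := by nlinarith
    calc X ^ K ≤ ((K : ℝ) * l + 1) * (W.card + 1) := h2.trans h3
      _ ≤ (2 * ((K : ℝ) * l)) * (2 * W.card) := by
          apply mul_le_mul <;> first | positivity | linarith
      _ = (4 * ((K : ℝ) * l)) * W.card := by ring
      _ ≤ N * W.card := mul_le_mul_of_nonneg_right h4 (by linarith)

end Pool.Agent.X3.NfaWords
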