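import Mathlib
import Pool.Agent.X3.NfaCut

/-!
# Sets with a bounded representation function and small automata
-/

set_option autoImplicit false

namespace Pool.Agent.X3.NfaSidon

open Finset Pool.Agent.X3.NfaWords

/-- the number of ordered pairs of elements of `A` with sum `n` -/
noncomputable def rep (A : Set ℕ) (n : ℕ) : ℕ :=
  {p : ℕ × ℕ | p.1 ∈ A ∧ p.2 ∈ A ∧ p.1 + p.2 = n}.ncard

lemma rep_finite (A : Set ℕ) (n : ℕ) :
    {p : ℕ × ℕ | p.1 ∈ A ∧ p.2 ∈ A ∧ p.1 + p.2 = n}.Finite := by
  apply (Set.finite_Iic (n, n)).subset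
  rintro ⟨a, b⟩ ⟨-, -, h⟩
  simp only at h
  exact ⟨by show a ≤ n; omega, by show b ≤ n; omega⟩

/-- a finite set of pairs with the same sum -/
lemma card_le_rep {A : Set ℕ} {n : ℕ} (S : Finset (ℕ × ℕ))
    (h : ∀ p ∈ S, p.1 ∈ A ∧ p.2 ∈ A ∧ p.1 + p.2 = n) : S.card ≤ rep A n := by
  unfold rep
  rw [← Set.ncard_coe_finset]
  exact Set.ncard_le_ncard (fun p hp => h p hp) (rep_finite A n)

/-- no arithmetic progression with `R + 1` terms -/
lemma no_ap {A : Set ℕ} {R N e s : ℕ} (hR : ∀ n < 2 * N, rep A n ≤ R) (hs : 1 ≤ s)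
    (he : R * s ≤ e) (heN : e < N) (h : ∀ i ≤ R, e - i * s ∈ A) : False := by
  classical
  have h1 := hR (2 * e - R * s) (by omega)
  have h2 := card_le_rep (A := A) (n := 2 * e - R * s)
    ((range (R + 1)).image fun i => (e - i * s, e - (R - i) * s)) (by
      intro p hp
      obtain ⟨i, hi, rfl⟩ := mem_image.1 hp
      rw [mem_range] at hi
      refine ⟨h i (by omega), h (R - i) (by omega), ?_⟩
      have h3 : (R - i) * s + i * s = R * s := by
        rw [← Nat.add_mul]
        congr 1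
        omega
      simp only
      omega)
  rw [card_image_of_injOn, card_range] at h2
  · omega
  · intro i hi j hj hij
    simp only [Prod.mk.injEq] at hij
    have hi' := mem_range.1 (mem_coe.1 hi)
    have hj' := mem_range.1 (mem_coe.1 hj)
    have h3 : i * s ≤ R * s := Nat.mul_le_mul_right s (by omega)
    have h4 : j * s ≤ R * s := Nat.mul_le_mul_right s (by omega)
    have h5 : i * s = j * s := by omega
    exact Nat.eq_of_mul_eq_mul_right (by omega) h5

/-- a short interval contains few elements -/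
lemma short {A : Set ℕ} {R N b L : ℕ} (hR : ∀ n < 2 * N, rep A n ≤ R) (S : Finset ℕ)
    (hS : ∀ a ∈ S, a ∈ A ∧ b ≤ a ∧ a < b + L ∧ a < N) : S.card ^ 2 ≤ R * (2 * L) := by
  classical
  have h := card_le_mul_card_image_of_maps_to (s := S ×ˢ S) (f := fun p : ℕ × ℕ => p.1 + p.2)
    (t := Ico (2 * b) (2 * b + 2 * L)) (by
      intro p hp
      rw [mem_product] at hp
      have h1 := hS _ hp.1
      have h2 := hS _ hp.2
      rw [mem_Ico]
      omega) R (by
      intro n hn
      rcases Nat.lt_or_ge n (2 * N) with hnN | hnN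
      · refine le_trans (card_le_rep _ ?_) (hR n hnN)
        intro p hp
        rw [mem_filter, mem_product] at hp
        exact ⟨(hS _ hp.1.1).1, (hS _ hp.1.2).1, hp.2⟩
      · rw [filter_false_of_mem, card_empty]
        · exact Nat.zero_le _
        · intro p hp he
          rw [mem_product] at hp
          have h1 := hS _ hp.1
          have h2 := hS _ hp.2
          omega)
  rw [card_product, Nat.card_Ico] at h
  have e : 2 * b + 2 * L - 2 * b = 2 * L := by omega
  rw [e] at h
  rw [sq]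
  exact h

open Classical in
/-- the elements of `A` below `b` -/
noncomputable def below (A : Set ℕ) (b : ℕ) : Finset ℕ := (range b).filter fun a => a ∈ A

lemma mem_below {A : Set ℕ} {b a : ℕ} : a ∈ below A b ↔ a < b ∧ a ∈ A := by
  classical
  simp [below]

open Classical in
/-- the sequence of the regions -/
noncomputable def reg (A : Set ℕ) (N L : ℕ) : ℕ → ℕ
  | 0 => 0
  | i + 1 => if h : ∃ e, e ∈ A ∧ reg A N L i + L ≤ e ∧ e < N then Nat.find h + 1 else N + 1

lemma reg_zero (A : Set ℕ) (N L : ℕ) : reg A N L 0 = 0 := by rw [reg]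

lemma reg_succ (A : Set ℕ) (N L i : ℕ) (h : ∃ e, e ∈ A ∧ reg A N L i + L ≤ e ∧ e < N) :
    ∃ e, e ∈ A ∧ reg A N L i + L ≤ e ∧ e < N ∧ reg A N L (i + 1) = e + 1 ∧
      ∀ a ∈ A, reg A N L i + L ≤ a → a < e → False := by
  classical
  refine ⟨Nat.find h, (Nat.find_spec h).1, (Nat.find_spec h).2.1, (Nat.find_spec h).2.2, ?_, ?_⟩
  · rw [reg, dif_pos h]
  · intro a ha h1 h2
    exact Nat.find_min h h2 ⟨ha, h1, lt_trans h2 (Nat.find_spec h).2.2⟩

/-- the greedy choice of the regions -/
lemma greedy {A : Set ℕ} {R N L T : ℕ} (hR : ∀ n < 2 * N, rep A n ≤ R)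
    (hT : ∀ m, m ^ 2 ≤ R * (2 * L) → m + 1 ≤ T) :
    ∀ m : ℕ, m * T < (below A N).card → reg A N L m ≤ N ∧ (below A (reg A N L m)).card ≤ m * T ∧
      ∀ i < m, ∃ e, e ∈ A ∧ reg A N L i + L ≤ e ∧ e < N ∧ reg A N L (i + 1) = e + 1 := by
  classical
  intro m
  induction m with
  | zero =>
    intro _
    refine ⟨by rw [reg_zero]; exact Nat.zero_le _, ?_, fun i hi => absurd hi (Nat.not_lt_zero _)⟩
    rw [reg_zero]
    simp [below]
  | succ m ih =>
    intro hm
    have hm' : m * T < (below A N).card := lt_of_le_of_lt (Nat.mul_le_mul_right T (Nat.le_succ m)) hm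
    obtain ⟨h1, h2, h3⟩ := ih hm'
    obtain ⟨b, hb⟩ : ∃ b, b = reg A N L m := ⟨_, rfl⟩
    -- the elements of the interval [b, b + L)
    have h4 : (((below A N).filter fun a => b ≤ a ∧ a < b + L)).card + 1 ≤ T := by
      apply hT
      apply short hR (b := b)
      intro a ha
      rw [mem_filter, mem_below] at ha
      exact ⟨ha.1.2, ha.2.1, ha.2.2, ha.1.1⟩
    have hex : ∃ e, e ∈ A ∧ reg A N L m + L ≤ e ∧ e < N := by
      by_contra hcon
      push Not at hcon
      have h5 : below A N ⊆ below A b ∪ (below A N).filter fun a => b ≤ a ∧ a < b + L := by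
        intro a ha
        rw [mem_union, mem_filter, mem_below]
        have ha' := mem_below.1 ha
        rcases Nat.lt_or_ge a b with h | h
        · exact Or.inl ⟨h, ha'.2⟩
        · refine Or.inr ⟨ha, h, ?_⟩
          by_contra h6
          have := hcon a ha'.2 (by rw [← hb]; omega)
          omega
      have h6 := card_le_card h5
      have h7 := card_union_le (below A b) ((below A N).filter fun a => b ≤ a ∧ a < b + L)
      rw [hb] at h6 h7 h4
      have h8 : (m + 1) * T = m * T + T := by ring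
      omega
    obtain ⟨e, he1, he2, he3, he4, he5⟩ := reg_succ A N L m hex
    refine ⟨by rw [he4]; omega, ?_, ?_⟩
    · rw [he4]
      have h5 : below A (e + 1) ⊆ below A b ∪ (((below A N).filter fun a => b ≤ a ∧ a < b + L) ∪
          {e}) := by
        intro a ha
        have ha' := mem_below.1 ha
        rw [mem_union, mem_union, mem_filter, mem_below, mem_below, mem_singleton]
        rcases Nat.lt_or_ge a b with h | h
        · exact Or.inl ⟨h, ha'.2⟩
        · right
          by_cases hae : a = e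
          · exact Or.inr hae
          · left
            refine ⟨⟨by omega, ha'.2⟩, h, ?_⟩
            by_contra h6
            exact he5 a ha'.2 (by rw [← hb]; omega) (by omega)
      have h6 := card_le_card h5
      have h7 := card_union_le (below A b) (((below A N).filter fun a => b ≤ a ∧ a < b + L) ∪ {e})
      have h9 := card_union_le ((below A N).filter fun a => b ≤ a ∧ a < b + L) {e}
      rw [card_singleton] at h9
      rw [hb] at h6 h7 h4 h9
      have h8 : (m + 1) * T = m * T + T := by ring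
      omega
    · intro i hi
      rcases Nat.lt_or_ge i m with h | h
      · exact h3 i h
      · have : i = m := by omega
        subst this
        exact ⟨e, he1, he2, he3, he4⟩

/-- the numbers -/
lemma num (h ℓ q : ℕ) (hq : q ≤ 2 ^ ℓ) :
    2 ^ h < 5 ^ (h + ℓ + 2) / ((h + ℓ + 2) * (4 * q) + 1) := by
  have key : ∀ K : ℕ, 2 ≤ K → (4 * K + 1) * 2 ^ (K - 1) ≤ 5 ^ K := by
    intro K hK
    induction K, hK using Nat.le_induction with
    | base => norm_num
    | succ K hK ih =>
      obtain ⟨j, rfl⟩ : ∃ j, K = j + 1 := ⟨K - 1, by omega⟩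
      have e1 : j + 1 + 1 - 1 = (j + 1 - 1) + 1 := by omega
      rw [e1, pow_succ, pow_succ 5]
      generalize 2 ^ (j + 1 - 1) = X at *
      nlinarith [Nat.zero_le (j * X), Nat.zero_le X]
  have h1 := key (h + ℓ + 2) (by omega)
  have e : h + ℓ + 2 - 1 = (h + 1) + ℓ := by omega
  rw [e, pow_add 2] at h1
  rw [Nat.lt_iff_add_one_le, Nat.le_div_iff_mul_le (by positivity)]
  have h2 : 2 ^ h + 1 ≤ 2 ^ (h + 1) := by
    rw [pow_succ]
    have := Nat.one_le_two_pow (n := h)
    omega
  have h3 : (h + ℓ + 2) * (4 * q) + 1 ≤ (4 * (h + ℓ + 2) + 1) * 2 ^ ℓ := by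
    have h4 : (h + ℓ + 2) * (4 * q) ≤ (h + ℓ + 2) * (4 * 2 ^ ℓ) :=
      Nat.mul_le_mul_left _ (Nat.mul_le_mul_left _ hq)
    have := Nat.one_le_two_pow (n := ℓ)
    nlinarith
  calc (2 ^ h + 1) * ((h + ℓ + 2) * (4 * q) + 1)
      ≤ 2 ^ (h + 1) * ((4 * (h + ℓ + 2) + 1) * 2 ^ ℓ) := Nat.mul_le_mul h2 h3
    _ = (4 * (h + ℓ + 2) + 1) * (2 ^ (h + 1) * 2 ^ ℓ) := by ring
    _ ≤ _ := h1

/-- **The main bound.** -/
theorem bound {α σ : Type} [Fintype σ] (M : NFA α σ) (A : Set ℕ) (R N h k : ℕ)
    (hR : ∀ n < 2 * N, rep A n ≤ R) (x z : ℕ → α) (hz : ∀ i j, z i = z j → (i ∈ A ↔ j ∈ A))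
    (hacc : seg x 0 N ∈ M.accepts) (E : Finset ℕ) (hE : E.card ≤ k)
    (hxz : ∀ i, i < N → i ∉ E → x i = z i)
    (hW : ∀ W : Finset (List α), (∀ w ∈ W, w.length = N ∧ w ∈ M.accepts) → W.card ≤ 2 ^ h) :
    (below A N).card ^ 2 ≤
      8 * (R + 1) ^ 2 * Fintype.card σ * (h + k + Nat.clog 2 (Fintype.card σ) + 2) ^ 2 := by
  classical
  obtain ⟨q, hqe⟩ : ∃ q, q = Fintype.card σ := ⟨_, rfl⟩
  rw [← hqe]
  have hq : 1 ≤ q := by
    have hacc2 := hacc
    rw [NFA.accepts_iff_exists_path] at hacc2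
    obtain ⟨s, -⟩ := hacc2
    rw [hqe]
    exact Fintype.card_pos_iff.2 ⟨s⟩
  obtain ⟨l, hl⟩ : ∃ l, l = 4 * q := ⟨_, rfl⟩
  obtain ⟨L, hL⟩ : ∃ L, L = (R + 1) * l := ⟨_, rfl⟩
  obtain ⟨T, hTe⟩ : ∃ T, T = Nat.sqrt (R * (2 * L)) + 1 := ⟨_, rfl⟩
  obtain ⟨K, hK⟩ : ∃ K, K = h + Nat.clog 2 q + 2 := ⟨_, rfl⟩
  have hT : ∀ m, m ^ 2 ≤ R * (2 * L) → m + 1 ≤ T := by
    intro m hm
    rw [hTe]
    have := Nat.le_sqrt.2 (by rw [← sq]; exact hm : m * m ≤ R * (2 * L))
    omega
  have hcard : (below A N).card ≤ (K + k) * T := by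
    by_contra hcon
    push Not at hcon
    obtain ⟨g1, -, g3⟩ := greedy hR hT (K + k) hcon
    have hLl : l ≤ L := by
      rw [hL]
      nlinarith
    obtain ⟨W, hW1, hW2⟩ := regions_bad (x := x) (z := z) hacc K k l 5 (reg A N L) g1 E ∅
      (by rw [card_empty]; omega) hxz (by
        intro i hi
        obtain ⟨e, -, he2, -, he4⟩ := g3 i hi
        rw [he4]
        omega) (by
        intro i hi _
        obtain ⟨e, he1, he2, he3, he4⟩ := g3 i hi
        intro u s hu1 hu2 hs1 hs2
        by_contra hno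
        push Not at hno
        have hRs : R * s ≤ R * l := Nat.mul_le_mul_left R hs2
        have hL2 : L = R * l + l := by rw [hL]; ring
        have hap : ∀ i ≤ R, e - i * s ∈ A := by
          intro i hi
          induction i with
          | zero => simpa using he1
          | succ i ih =>
            have h1 := ih (by omega)
            have h2 : (i + 1) * s ≤ R * s := Nat.mul_le_mul_right s hi
            have h3 : (i + 1) * s = i * s + s := by ring
            have h4 := hno (e - (i + 1) * s) (by omega) (by rw [he4]; omega)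
            have h5 : e - (i + 1) * s + s = e - i * s := by omega
            rw [h5] at h4
            exact (hz _ _ h4).1 h1
        exact no_ap hR hs1 (by omega) he3 hap) (by
        intro n hn
        rw [← hqe, hl] at hn
        by_contra h5
        have : n * q ≤ 4 * q := Nat.mul_le_mul_right q (by omega)
        omega)
    have h6 := hW W hW1
    have h7 := num h (Nat.clog 2 q) q (Nat.le_pow_clog (by norm_num) q)
    rw [← hK, ← hl] at h7
    omega
  have hT2 : T ^ 2 ≤ 8 * (R + 1) ^ 2 * q := by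
    obtain ⟨s, hs⟩ : ∃ s, s = Nat.sqrt (R * (2 * L)) := ⟨_, rfl⟩
    have h1 : s ^ 2 ≤ R * (2 * L) := by
      rw [hs, sq]
      exact Nat.sqrt_le _
    have h2 : R * (2 * L) = 8 * R * (R + 1) * q := by rw [hL, hl]; ring
    rw [h2] at h1
    have h3 : s < 3 * (R + 1) * q := by
      by_contra hcon
      push Not at hcon
      have h4 : (3 * (R + 1) * q) ^ 2 ≤ s ^ 2 := Nat.pow_le_pow_left hcon 2
      have h5 : 8 * R * (R + 1) * q ≤ 8 * R * (R + 1) * (q * q) := by
        apply Nat.mul_le_mul_left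
        nlinarith
      have h6 : 0 < (R + 1) * (q * q) := by positivity
      nlinarith
    rw [hTe, ← hs]
    have h4 : 1 ≤ (R + 1) * q := by
      have : 0 < (R + 1) * q := by positivity
      omega
    nlinarith
  calc (below A N).card ^ 2 ≤ ((K + k) * T) ^ 2 := Nat.pow_le_pow_left hcard 2
    _ = (K + k) ^ 2 * T ^ 2 := by ring
    _ ≤ (K + k) ^ 2 * (8 * (R + 1) ^ 2 * q) := Nat.mul_le_mul_left _ hT2
    _ = 8 * (R + 1) ^ 2 * q * (h + k + Nat.clog 2 q + 2) ^ 2 := by
        rw [hK]
        ring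

end Pool.Agent.X3.NfaSidon
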