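import Mathlib
import Pool.Agent.X3.NfaSidon

/-!
# Sets without long arithmetic progressions and small automata
-/

set_option autoImplicit false

namespace Pool.Agent.X3.NfaAP

open Finset Pool.Agent.X3.NfaWords Pool.Agent.X3.NfaSidon

/-- the greedy choice of the regions, general form -/
lemma greedy' {A : Set ℕ} {N L T : ℕ}
    (hT : ∀ b : ℕ, ((below A N).filter fun a => b ≤ a ∧ a < b + L).card + 1 ≤ T) :
    ∀ m : ℕ, m * T < (below A N).card → reg A N L m ≤ N ∧ (below A (reg A N L m)).card ≤ m * T ∧
      ∀ i < m, ∃ e, e ∈ A ∧ reg A N L i + L ≤ e ∧ e < N ∧ reg A N L (i + 1) = e + 1 := by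
  classical
  intro m
  induction m with
  | zero =>
    intro _
    refine ⟨by rw [reg_zero]; exact Nat.zero_le _, ?_, fun i hi => absurd hi (Nat.not_lt_zero _)⟩
    rw [reg_zero]
    simp [below]
  | succ m ih =>
    intro hm
    have hm' : m * T < (below A N).card := lt_of_le_of_lt (Nat.mul_le_mul_right T (Nat.le_succ m)) hm
    obtain ⟨h1, h2, h3⟩ := ih hm'
    obtain ⟨b, hb⟩ : ∃ b, b = reg A N L m := ⟨_, rfl⟩
    have h4 := hT b
    have hex : ∃ e, e ∈ A ∧ reg A N L m + L ≤ e ∧ e < N := by
      by_contra hcon
      push Not at hcon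
      have h5 : below A N ⊆ below A b ∪ (below A N).filter fun a => b ≤ a ∧ a < b + L := by
        intro a ha
        rw [mem_union, mem_filter, mem_below]
        have ha' := mem_below.1 ha
        rcases Nat.lt_or_ge a b with h | h
        · exact Or.inl ⟨h, ha'.2⟩
        · refine Or.inr ⟨ha, h, ?_⟩
          by_contra h6
          have := hcon a ha'.2 (by rw [← hb]; omega)
          omega
      have h6 := card_le_card h5
      have h7 := card_union_le (below A b) ((below A N).filter fun a => b ≤ a ∧ a < b + L)
      rw [hb] at h6 h7 h4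
      have h8 : (m + 1) * T = m * T + T := by ring
      omega
    obtain ⟨e, he1, he2, he3, he4, he5⟩ := reg_succ A N L m hex
    refine ⟨by rw [he4]; omega, ?_, ?_⟩
    · rw [he4]
      have h5 : below A (e + 1) ⊆ below A b ∪ (((below A N).filter fun a => b ≤ a ∧ a < b + L) ∪
          {e}) := by
        intro a ha
        have ha' := mem_below.1 ha
        rw [mem_union, mem_union, mem_filter, mem_below, mem_below, mem_singleton]
        rcases Nat.lt_or_ge a b with h | h
        · exact Or.inl ⟨h, ha'.2⟩
        · right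
          by_cases hae : a = e
          · exact Or.inr hae
          · left
            refine ⟨⟨by omega, ha'.2⟩, h, ?_⟩
            by_contra h6
            exact he5 a ha'.2 (by rw [← hb]; omega) (by omega)
      have h6 := card_le_card h5
      have h7 := card_union_le (below A b) (((below A N).filter fun a => b ≤ a ∧ a < b + L) ∪ {e})
      have h9 := card_union_le ((below A N).filter fun a => b ≤ a ∧ a < b + L) {e}
      rw [card_singleton] at h9
      rw [hb] at h6 h7 h4 h9
      have h8 : (m + 1) * T = m * T + T := by ring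
      omega
    · intro i hi
      rcases Nat.lt_or_ge i m with h | h
      · exact h3 i h
      · have : i = m := by omega
        subst this
        exact ⟨e, he1, he2, he3, he4⟩

/-- **The main bound.** `A` has no arithmetic progression with `R + 1` terms and a difference at most
`4 q` below `N`, and at most `T - 1` elements in every interval of length `4 (R + 1) q`. -/
theorem bound {α σ : Type} [Fintype σ] (M : NFA α σ) (A : Set ℕ) (R N h k T : ℕ)
    (hAP : ∀ e s : ℕ, 1 ≤ s → s ≤ 4 * Fintype.card σ → R * s ≤ e → e < N →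
      (∀ i ≤ R, e - i * s ∈ A) → False)
    (hT : ∀ b : ℕ, ((below A N).filter fun a =>
      b ≤ a ∧ a < b + (R + 1) * (4 * Fintype.card σ)).card + 1 ≤ T)
    (x z : ℕ → α) (hz : ∀ i j, z i = z j → (i ∈ A ↔ j ∈ A))
    (hacc : seg x 0 N ∈ M.accepts) (E : Finset ℕ) (hE : E.card ≤ k)
    (hxz : ∀ i, i < N → i ∉ E → x i = z i)
    (hW : ∀ W : Finset (List α), (∀ w ∈ W, w.length = N ∧ w ∈ M.accepts) → W.card ≤ 2 ^ h) :
    (below A N).card ≤ (h + k + Nat.clog 2 (Fintype.card σ) + 2) * T := by
  classical
  obtain ⟨q, hqe⟩ : ∃ q, q = Fintype.card σ := ⟨_, rfl⟩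
  rw [← hqe] at hT hAP ⊢
  have hq : 1 ≤ q := by
    have hacc2 := hacc
    rw [NFA.accepts_iff_exists_path] at hacc2
    obtain ⟨s, -⟩ := hacc2
    rw [hqe]
    exact Fintype.card_pos_iff.2 ⟨s⟩
  obtain ⟨l, hl⟩ : ∃ l, l = 4 * q := ⟨_, rfl⟩
  obtain ⟨L, hL⟩ : ∃ L, L = (R + 1) * l := ⟨_, rfl⟩
  rw [← hl] at hT hAP
  rw [← hL] at hT
  obtain ⟨K, hK⟩ : ∃ K, K = h + Nat.clog 2 q + 2 := ⟨_, rfl⟩
  have hcard : (below A N).card ≤ (K + k) * T := by
    by_contra hcon
    push Not at hcon
    obtain ⟨g1, -, g3⟩ := greedy' hT (K + k) hcon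
    have hLl : l ≤ L := by
      rw [hL]
      nlinarith
    obtain ⟨W, hW1, hW2⟩ := regions_bad (x := x) (z := z) hacc K k l 5 (reg A N L) g1 E ∅
      (by rw [card_empty]; omega) hxz (by
        intro i hi
        obtain ⟨e, -, he2, -, he4⟩ := g3 i hi
        rw [he4]
        omega) (by
        intro i hi _
        obtain ⟨e, he1, he2, he3, he4⟩ := g3 i hi
        intro u s hu1 hu2 hs1 hs2
        by_contra hno
        push Not at hno
        have hRs : R * s ≤ R * l := Nat.mul_le_mul_left R hs2
        have hL2 : L = R * l + l := by rw [hL]; ring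
        have hap : ∀ i ≤ R, e - i * s ∈ A := by
          intro i hi
          induction i with
          | zero => simpa using he1
          | succ i ih =>
            have h1 := ih (by omega)
            have h2 : (i + 1) * s ≤ R * s := Nat.mul_le_mul_right s hi
            have h3 : (i + 1) * s = i * s + s := by ring
            have h4 := hno (e - (i + 1) * s) (by omega) (by rw [he4]; omega)
            have h5 : e - (i + 1) * s + s = e - i * s := by omega
            rw [h5] at h4
            exact (hz _ _ h4).1 h1
        exact hAP e s hs1 hs2 (by omega) he3 hap) (by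
        intro n hn
        rw [← hqe, hl] at hn
        by_contra h5
        have : n * q ≤ 4 * q := Nat.mul_le_mul_right q (by omega)
        omega)
    have h6 := hW W hW1
    have h7 := num h (Nat.clog 2 q) q (Nat.le_pow_clog (by norm_num) q)
    rw [← hK, ← hl] at h7
    omega
  refine hcard.trans (le_of_eq ?_)
  rw [hK]
  ring

end Pool.Agent.X3.NfaAP
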