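import Mathlib
import Pool.Agent.X3.NfaWords

/-!
# The nondeterministic automatic complexity of a word
-/

set_option autoImplicit false

namespace Pool.Agent.X3.NfaComp

open Pool.Agent.X3.NfaWords

variable {α : Type}

/-- The nondeterministic automatic complexity (unique acceptance) of a word: the least number of
states of a nondeterministic finite automaton that accepts `w` and no other word of the same
length. -/
noncomputable def comp (w : List α) : ℕ :=
  sInf {q : ℕ | ∃ M : NFA α (Fin q), ∀ v : List α, v.length = w.length → (v ∈ M.accepts ↔ v = w)}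

/-- The automaton that reads `w`. -/
def auto (w : List α) : NFA α (Fin (w.length + 1)) where
  step s a := {t | w[s.val]? = some a ∧ t.val = s.val + 1}
  start := {0}
  accept := Set.univ

theorem auto_P (w : List α) : ∀ (v : List α) (s t : Fin (w.length + 1)), P (auto w) s v t →
    ∀ i < v.length, w[s.val + i]? = v[i]? := by
  intro v
  induction v with
  | nil =>
    intro s t _ i hi
    exact absurd hi (Nat.not_lt_zero _)
  | cons a v ih =>
    intro s t h i hi
    cases h with
    | cons h1 h2 =>
      rename_i s'
      simp only [auto, Set.mem_ofPred_eq] at h1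
      rcases Nat.eq_zero_or_pos i with h0 | h0
      · subst h0
        simpa using h1.1
      · obtain ⟨j, rfl⟩ : ∃ j, i = j + 1 := ⟨i - 1, by omega⟩
        have h3 := ih s' t h2 j (by simpa using hi)
        rw [h1.2] at h3
        rw [List.getElem?_cons_succ, ← h3]
        congr 1
        ring

theorem auto_acc (w : List α) (v : List α) (hv : v.length = w.length) :
    v ∈ (auto w).accepts ↔ v = w := by
  constructor
  · intro h
    rw [NFA.accepts_iff_exists_path] at h
    obtain ⟨s, hs, t, -, ⟨p⟩⟩ := h
    have hs0 : s = 0 := hs
    subst hs0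
    have h1 := auto_P w v 0 t (P_of_path p)
    apply List.ext_getElem?
    intro i
    rcases Nat.lt_or_ge i v.length with hi | hi
    · have := h1 i hi
      rw [← this]
      congr 1
      simp
    · rw [List.getElem?_eq_none hi, List.getElem?_eq_none (by omega)]
  · intro h
    subst h
    rw [NFA.accepts_iff_exists_path]
    have key : ∀ (u : List α) (s : Fin (v.length + 1)), s.val + u.length = v.length →
        (∀ i < u.length, v[s.val + i]? = u[i]?) → ∃ t, P (auto v) s u t := by
      intro u
      induction u with
      | nil =>
        intro s _ _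
        exact ⟨s, P.nil s⟩
      | cons a u ih =>
        intro s hs hu
        rw [List.length_cons] at hs
        obtain ⟨s', hs'⟩ : ∃ s' : Fin (v.length + 1), s'.val = s.val + 1 :=
          ⟨⟨s.val + 1, by omega⟩, rfl⟩
        obtain ⟨t, ht⟩ := ih s' (by omega) (by
          intro i hi
          have := hu (i + 1) (by simpa using hi)
          rw [List.getElem?_cons_succ] at this
          rw [← this, hs']
          congr 1
          ring)
        refine ⟨t, P.cons ?_ ht⟩
        simp only [auto, Set.mem_ofPred_eq]
        refine ⟨?_, hs'⟩
        have := hu 0 (by simp)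
        simpa using this
    obtain ⟨t, ht⟩ := key v 0 (by simp) (by intro i _; congr 1; simp)
    exact ⟨0, rfl, t, Set.mem_univ _, path_of_P ht⟩

theorem mem_comp (w : List α) : w.length + 1 ∈ {q : ℕ | ∃ M : NFA α (Fin q),
    ∀ v : List α, v.length = w.length → (v ∈ M.accepts ↔ v = w)} :=
  ⟨auto w, fun v hv => auto_acc w v hv⟩

theorem comp_le (w : List α) : comp w ≤ w.length + 1 := Nat.sInf_le (mem_comp w)

theorem comp_spec (w : List α) : ∃ M : NFA α (Fin (comp w)),
    ∀ v : List α, v.length = w.length → (v ∈ M.accepts ↔ v = w) :=
  Nat.sInf_mem (s := {q : ℕ | ∃ M : NFA α (Fin q),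
    ∀ v : List α, v.length = w.length → (v ∈ M.accepts ↔ v = w)}) ⟨_, mem_comp w⟩

theorem comp_pos (w : List α) : 1 ≤ comp w := by
  obtain ⟨M, hM⟩ := comp_spec w
  have h1 : w ∈ M.accepts := (hM w rfl).2 rfl
  rw [NFA.accepts_iff_exists_path] at h1
  obtain ⟨s, -⟩ := h1
  have := s.2
  omega

end Pool.Agent.X3.NfaComp
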