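import Mathlib
import Pool.Agent.X3.NfaComp

/-!
# The automatic complexity of a finite set
-/

set_option autoImplicit false

namespace Pool.Agent.X3.NfaSet

open Pool.Agent.X3.NfaWords Pool.Agent.X3.NfaComp

open Classical in
/-- The first `N` values of the characteristic function of `A`. -/
noncomputable def wordS (A : Set ℕ) (N : ℕ) : List Bool :=
  (List.range N).map fun i => decide (i ∈ A)

theorem wordS_eq (A : Set ℕ) (N : ℕ) :
    wordS A N = seg (fun i => @decide (i ∈ A) (Classical.propDecidable _)) 0 N := by
  unfold wordS seg
  rw [List.range_eq_range', Nat.sub_zero]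

theorem wordS_length (A : Set ℕ) (N : ℕ) : (wordS A N).length = N := by simp [wordS]

open Classical in
/-- The automaton that reads the first `q` values and then zeros. -/
noncomputable def autoS (A : Set ℕ) (q : ℕ) : NFA Bool (Fin (q + 1)) where
  step s a := {t | (s.val < q ∧ a = decide (s.val ∈ A) ∧ t.val = s.val + 1) ∨
    (s.val = q ∧ a = false ∧ t.val = q)}
  start := {0}
  accept := Set.univ

theorem autoS_acc {A : Set ℕ} {q N : ℕ} (hA : ∀ a ∈ A, a < q) (w : List Bool)
    (hlen : w.length = N) : w ∈ (autoS A q).accepts ↔ w = wordS A N := by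
  classical
  have hrun : ∀ (f : ℕ → Fin (q + 1)) (x : ℕ → Bool), (f 0).val = 0 →
      (∀ i, i < N → f (i + 1) ∈ (autoS A q).step (f i) (x i)) →
      ∀ i, i ≤ N → (f i).val = min i q ∧ ∀ j < i, x j = decide (j ∈ A) := by
    intro f x h0 hf i
    induction i with
    | zero =>
      intro _
      exact ⟨by simpa using h0, fun j hj => absurd hj (Nat.not_lt_zero _)⟩
    | succ i ih =>
      intro hi
      obtain ⟨h1, h2⟩ := ih (by omega)
      have h3 := hf i (by omega)
      simp only [autoS, Set.mem_ofPred_eq] at h3
      rcases h3 with ⟨h4, h5, h6⟩ | ⟨h4, h5, h6⟩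
      · have h7 : i < q := by omega
        have h8 : (f i).val = i := by omega
        refine ⟨by omega, fun j hj => ?_⟩
        rcases Nat.lt_succ_iff_lt_or_eq.1 hj with h | h
        · exact h2 j h
        · rw [h, h5, h8]
      · have h7 : q ≤ i := by omega
        refine ⟨by omega, fun j hj => ?_⟩
        rcases Nat.lt_succ_iff_lt_or_eq.1 hj with h | h
        · exact h2 j h
        · rw [h, h5]
          symm
          rw [decide_eq_false_iff_not]
          intro hmem
          have := hA i hmem
          omega
  constructor
  · intro hw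
    rw [NFA.accepts_iff_exists_path] at hw
    obtain ⟨s, hs, t, -, ⟨p⟩⟩ := hw
    have hws : w = seg (fun i => w.getD i false) 0 N := by
      apply List.ext_getElem?
      intro i
      rcases Nat.lt_or_ge i N with hi | hi
      · rw [seg_get _ _ _ _ (by omega), Nat.zero_add]
        rw [List.getD_eq_getElem?_getD, List.getElem?_eq_getElem (by omega)]
        rfl
      · rw [List.getElem?_eq_none (by omega), List.getElem?_eq_none]
        rw [seg_length]
        omega
    have hp := P_of_path p
    rw [hws] at hp
    obtain ⟨f, hf0, -, hf⟩ := run_of_P N 0 s t (by simpa using hp)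
    have h0 : (f 0).val = 0 := by
      rw [hf0]
      have : s ∈ (autoS A q).start := hs
      simp only [autoS, Set.mem_singleton_iff] at this
      rw [this]
      rfl
    obtain ⟨-, h2⟩ := hrun f _ h0 (fun i hi => hf i (Nat.zero_le _) (by omega)) N le_rfl
    rw [hws]
    unfold wordS seg
    rw [Nat.sub_zero, ← List.range_eq_range']
    apply List.map_congr_left
    intro i hi
    rw [List.mem_range] at hi
    exact h2 i hi
  · intro hw
    subst hw
    rw [NFA.accepts_iff_exists_path]
    obtain ⟨f, hf⟩ : ∃ f : ℕ → Fin (q + 1), f = fun i => ⟨min i q, by omega⟩ := ⟨_, rfl⟩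
    have hrun2 : Run (autoS A q)
        (fun i => @decide (i ∈ A) (Classical.propDecidable _)) f N := by
      intro i _
      simp only [autoS, Set.mem_ofPred_eq, hf]
      rcases Nat.lt_or_ge i q with h | h
      · left
        have e1 : min i q = i := by omega
        refine ⟨by omega, ?_, by omega⟩
        simp only [e1]
      · right
        refine ⟨by omega, ?_, by omega⟩
        rw [decide_eq_false_iff_not]
        intro hmem
        have := hA i hmem
        omega
    have hP := P_of_run hrun2 (Nat.zero_le N) le_rfl
    rw [← wordS_eq] at hP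
    refine ⟨f 0, ?_, f N, Set.mem_univ _, path_of_P hP⟩
    simp only [autoS, Set.mem_singleton_iff, hf]
    rfl

theorem comp_set_le {A : Set ℕ} {q : ℕ} (hA : ∀ a ∈ A, a < q) (N : ℕ) :
    comp (wordS A N) ≤ q + 1 := by
  apply Nat.sInf_le
  refine ⟨autoS A q, fun v hv => ?_⟩
  rw [wordS_length] at hv
  exact autoS_acc hA v hv

end Pool.Agent.X3.NfaSet
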