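import Mathlib
import Pool.Agent.X3.NfaCut
import Pool.Agent.X3.NfaNum2
import Pool.Agent.X3.NfaComp

/-!
# Words without long periodic stretches: complexity, general form
-/

set_option autoImplicit false

namespace Pool.Agent.X3.NfaGen

open Finset Pool.Agent.X3.NfaWords Pool.Agent.X3.NfaComp

lemma seg_zero' {α : Type} (x : ℕ → α) (N : ℕ) : seg x 0 N = (List.range N).map x := by
  simp [seg, List.range_eq_range']

/-- the number of the words of length `N` that are accepted -/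
noncomputable def nac {α σ : Type} (M : NFA α σ) (N : ℕ) : ℕ :=
  {w : List α | w ∈ M.accepts ∧ w.length = N}.ncard

/-- **Complexity.** -/
theorem gen_states {ρ : ℝ} (hρ : 1 < ρ) : ∃ C : ℝ, 0 < C ∧ ∀ (α : Type) (z : ℕ → α) (N : ℕ),
    NoPerTo z ρ 1 N →
    (N : ℝ) * Real.exp (-(C * Real.sqrt (Real.log N))) ≤ comp ((List.range N).map z) := by
  obtain ⟨C, hC, h⟩ := many_cut hρ
  have hlC : 0 < Real.log C := Real.log_pos (by linarith)
  refine ⟨1 + 2 * Real.log C, by positivity, ?_⟩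
  intro α z N hz
  obtain ⟨M, hM⟩ := comp_spec ((List.range N).map z)
  have hlen : ((List.range N).map z).length = N := by simp
  rw [hlen] at hM
  have hacc : (List.range N).map z ∈ M.accepts := (hM _ hlen).2 rfl
  obtain ⟨q, hq⟩ : ∃ q, q = comp ((List.range N).map z) := ⟨_, rfl⟩
  have hq1 : 1 ≤ q := by rw [hq]; exact comp_pos _
  have h1 := num_states2 (C := C) (h := 1) hC le_rfl (N := N) (q := q) hq1 (fun K hK hKN => by
    obtain ⟨W, hW1, hW2⟩ := h α (Fin (comp ((List.range N).map z))) z 1 N le_rfl hz z M 0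
      (Nat.zero_le _) (by rw [seg_zero']; exact hacc) ∅ (by
        intro i hi _
        rw [Nat.add_zero, Nat.mod_eq_of_lt hi]) K hK (by simpa using hKN)
    have hW : W.card ≤ 1 := by
      rw [Finset.card_le_one]
      intro a ha b hb
      have h3 := hW1 a ha
      have h4 := hW1 b hb
      rw [(hM a h3.1).1 h3.2, (hM b h4.1).1 h4.2]
    have hWR : (W.card : ℝ) ≤ 1 := by exact_mod_cast hW
    rw [card_empty, Nat.add_zero, Fintype.card_fin, ← hq] at hW2
    refine hW2.trans ?_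
    have : (0 : ℝ) ≤ N := Nat.cast_nonneg _
    nlinarith)
  rw [div_one, hq] at h1
  exact h1

/-- **Many words.** -/
theorem gen_words {ρ : ℝ} (hρ : 1 < ρ) (δ : ℝ) (hδ : 0 < δ) (hδ1 : δ ≤ 1) :
    ∃ c : ℝ, 0 < c ∧ ∃ N₁ : ℕ, ∀ (α : Type) [Finite α] (z : ℕ → α) (N : ℕ), N₁ ≤ N →
    NoPerTo z ρ 1 N → ∀ (q : ℕ) (M : NFA α (Fin q)), (q : ℝ) ≤ (N : ℝ) ^ (1 - δ) →
    ∀ (w : ℕ → α) (E : Finset ℕ), (∀ i, i < N → i ∉ E → w i = z i) →
      (E.card : ℝ) ≤ c * Real.log N → (List.range N).map w ∈ M.accepts →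
      Real.exp (c * Real.log N ^ 2) ≤ nac M N := by
  obtain ⟨C, hC, h⟩ := many_cut hρ
  obtain ⟨c₀, hc₀, N₁, hnum⟩ := num_words2 hC hδ hδ1
  refine ⟨c₀, hc₀, max N₁ 1, ?_⟩
  intro α _ z N hN hz q M hq w E hE hEc hacc
  have hN1 : 1 ≤ N := le_trans (le_max_right _ _) hN
  have hNR : (1 : ℝ) ≤ N := by exact_mod_cast hN1
  have hq1 : 1 ≤ q := by
    have hacc2 := hacc
    rw [NFA.accepts_iff_exists_path] at hacc2
    obtain ⟨s, -⟩ := hacc2
    have := s.2
    omega
  have hfin : {v : List α | v ∈ M.accepts ∧ v.length = N}.Finite :=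
    (List.finite_length_eq α N).subset fun v hv => hv.2
  have hnac : ∀ W : Finset (List α), (∀ v ∈ W, v.length = N ∧ v ∈ M.accepts) →
      W.card ≤ nac M N := by
    intro W hW
    unfold nac
    rw [← Set.ncard_coe_finset]
    exact Set.ncard_le_ncard (fun v hv => ⟨(hW v hv).2, (hW v hv).1⟩) hfin
  have hpos : (0 : ℝ) < nac M N := by
    have := hnac {(List.range N).map w} (fun v hv => by
      rw [mem_singleton] at hv
      subst hv
      exact ⟨by simp, hacc⟩)
    rw [card_singleton] at this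
    exact_mod_cast this
  refine hnum N q E.card (le_trans (le_max_left _ _) hN) hq1 hq hEc (nac M N) 1 hpos le_rfl
    (Real.one_le_rpow hNR (by norm_num)) (fun K hK hKN => ?_)
  obtain ⟨W, hW1, hW2⟩ := h α (Fin q) z 1 N le_rfl hz w M 0
    (Nat.zero_le _) (by rw [seg_zero']; exact hacc) E (by
      intro i hi hiE
      rw [Nat.add_zero, Nat.mod_eq_of_lt hi]
      exact hE i hi hiE) K hK (by simpa using hKN)
  rw [Fintype.card_fin] at hW2
  refine hW2.trans ?_
  have h6 : (W.card : ℝ) ≤ nac M N := by exact_mod_cast hnac W hW1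
  exact mul_le_mul_of_nonneg_left h6 (Nat.cast_nonneg _)

end Pool.Agent.X3.NfaGen
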