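import Pool.Agent.X3.Tau4

set_option autoImplicit false

/-! Ramanujan's function modulo `11 ^ 4`: blocks. -/

namespace Pool.Agent.X3.Tau

open Pool.Agent.H397R2.PP

theorem pent_range (k : ℤ) (h : pentagonal k < 2200) : k ∈ Finset.Icc (-38 : ℤ) 38 := by
  have h1 := two_mul_natCast_pentagonal k
  rw [Finset.mem_Icc]
  constructor
  · by_contra hc
    have : k ≤ -39 := by omega
    nlinarith
  · by_contra hc
    have : 39 ≤ k := by omega
    nlinarith

theorem ET_coeff (i : ℕ) (hi : i < 2200) :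
    ((ET.coeff i : ℕ) : ZMod 14641) = PowerSeries.coeff i (PowerSeries.pentagonalSeries (ZMod 14641)) := by
  unfold ET
  rw [Polynomial.finsetSum_coeff]
  by_cases h : i ∈ Set.range pentagonal
  · obtain ⟨k, rfl⟩ := h
    rw [PowerSeries.coeff_pentagonalSeries_pentagonal]
    have hk := pent_range k hi
    rw [Finset.sum_eq_single k]
    · rw [Polynomial.coeff_monomial, if_pos rfl]
      unfold cf
      rcases Int.even_or_odd k with hk | hk
      · rw [if_pos (Int.even_iff.1 hk), Int.negOnePow_even k hk]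
        simp
      · rw [if_neg (by rw [Int.odd_iff.1 hk]; norm_num), Int.negOnePow_odd k hk]
        simp
        decide
    · intro j _ hj
      rw [Polynomial.coeff_monomial, if_neg]
      intro h
      exact hj (pentagonal_injective h)
    · intro h
      exact absurd hk h
  · rw [PowerSeries.coeff_pentagonalSeries_eq_zero _ h, Finset.sum_eq_zero]
    · simp
    · intro k _
      rw [Polynomial.coeff_monomial, if_neg]
      intro hk
      exact h ⟨k, hk⟩

theorem tau_coeff (v : ℕ) (hv : v < 2200) :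
    ((tau (v + 1) : ℤ) : ZMod 14641) = (((ET ^ 24).coeff v : ℕ) : ZMod 14641) := by
  have h0 : PowerSeries.pentagonalSeries (ZMod 14641) =
      PowerSeries.map (Int.castRingHom (ZMod 14641)) (PowerSeries.pentagonalSeries ℤ) :=
    (B0.pent_map _).symm
  have h1 : ((tau (v + 1) : ℤ) : ZMod 14641) =
      PowerSeries.coeff v ((PowerSeries.pentagonalSeries (ZMod 14641)) ^ 24) := by
    rw [tau_eq, Dz, PowerSeries.coeff_succ_X_mul, h0, ← map_pow, PowerSeries.coeff_map]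
    rfl
  have h2 : (((ET ^ 24).coeff v : ℕ) : ZMod 14641) =
      PowerSeries.coeff v (((ET.map (Nat.castRingHom (ZMod 14641)) : Polynomial (ZMod 14641)) :
        PowerSeries (ZMod 14641)) ^ 24) := by
    rw [← Polynomial.coe_pow, Polynomial.coeff_coe, ← Polynomial.map_pow, Polynomial.coeff_map]
    rfl
  rw [h1, h2]
  have h3 : (PowerSeries.X : PowerSeries (ZMod 14641)) ^ 2200 ∣
      PowerSeries.pentagonalSeries (ZMod 14641) -
      ((ET.map (Nat.castRingHom (ZMod 14641)) : Polynomial (ZMod 14641)) :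
        PowerSeries (ZMod 14641)) := by
    rw [PowerSeries.X_pow_dvd_iff]
    intro m hm
    rw [map_sub, Polynomial.coeff_coe, Polynomial.coeff_map, ← ET_coeff m hm]
    exact sub_self _
  have h4 := PowerSeries.X_pow_dvd_iff.1 (h3.trans (sub_dvd_pow_sub_pow _ _ 24)) v hv
  rw [map_sub] at h4
  exact sub_eq_zero.1 h4

theorem tau_z (v : ℕ) (h1 : 1 ≤ v) (h2 : v < 2200) (h3 : ¬ 11 ∣ v) :
    ((tau v : ℤ) : ZMod 14641) * (((v : ℕ) : ZMod 14641)⁻¹) ^ 4 = ((zl.getD (v - 1) 0 : ℕ) : ZMod 14641) := by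
  obtain ⟨u, rfl⟩ : ∃ u, v = u + 1 := ⟨v - 1, by omega⟩
  rw [Nat.add_sub_cancel]
  have h4 := chk_spec (2 ^ 480) (by positivity) zl (ET ^ 24)
    ((val (2 ^ 480)) ^ 24 % (2 ^ 480) ^ 2199) 1 coeff_lt (by
      rw [zl_length, Polynomial.eval_pow]
      have := ET_eval (2 ^ 480)
      rw [this]
      exact Nat.mod_modEq _ _) chk_true u (by rw [zl_length]; omega) (by rw [add_comm]; exact h3)
  have h5 : ((((1 + u) ^ 4 * zl.getD u 0 : ℕ)) : ZMod 14641) = (((ET ^ 24).coeff u : ℕ) : ZMod 14641) := by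
    rw [ZMod.natCast_eq_natCast_iff]
    exact h4
  rw [tau_coeff u (by omega), ← h5]
  have h6 : ((u + 1 : ℕ) : ZMod 14641) * ((u + 1 : ℕ) : ZMod 14641)⁻¹ = 1 := by
    apply ZMod.coe_mul_inv_eq_one
    have : (14641 : ℕ) = 11 ^ 4 := by norm_num
    rw [this]
    apply Nat.Coprime.pow_right
    exact ((Nat.Prime.coprime_iff_not_dvd (by norm_num)).2 h3).symm
  have h7 : (((u + 1 : ℕ) : ZMod 14641) * ((u + 1 : ℕ) : ZMod 14641)⁻¹) ^ 4 = 1 := by
    rw [h6, one_pow]
  rw [add_comm 1 u, Nat.cast_mul, Nat.cast_pow]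
  calc ((u + 1 : ℕ) : ZMod 14641) ^ 4 * ((zl.getD u 0 : ℕ) : ZMod 14641) *
        (((u + 1 : ℕ) : ZMod 14641)⁻¹) ^ 4
      = ((zl.getD u 0 : ℕ) : ZMod 14641) *
        (((u + 1 : ℕ) : ZMod 14641) * ((u + 1 : ℕ) : ZMod 14641)⁻¹) ^ 4 := by ring
    _ = _ := by rw [h7, mul_one]

theorem digit (B : ℕ) (hB : 0 < B) : ∀ (i : ℕ) (P : Polynomial ℕ), (∀ j, P.coeff j < B) →
    P.eval B / B ^ i % B = P.coeff i := by
  intro i
  induction i with
  | zero =>
    intro P hP
    rw [pow_zero, Nat.div_one, eval_divX, Nat.add_mul_mod_self_left, Nat.mod_eq_of_lt (hP 0)]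
  | succ i ih =>
    intro P hP
    have h1 := ih P.divX (fun j => by rw [Polynomial.coeff_divX]; exact hP _)
    rw [Polynomial.coeff_divX] at h1
    rw [← h1, pow_succ, mul_comm (B ^ i) B, ← Nat.div_div_eq_div_mul]
    congr 2
    rw [eval_divX P B, Nat.add_mul_div_left _ _ hB, Nat.div_eq_of_lt (hP 0), zero_add]

set_option maxRecDepth 100000 in
theorem digit_ten : ((val (2 ^ 480)) ^ 24 / (2 ^ 480) ^ 10 % 2 ^ 480) % 11 = 1 := by
  decide +kernel

theorem ord_aux (B : ℕ) (hB : 0 < B) (hc : ∀ i, (ET ^ 24).coeff i < B)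
    (hd : ((val B) ^ 24 / B ^ 10 % B) % 11 = 1) : ¬ ((11 : ℕ) : ℤ) ∣ tau 11 := by
  intro h
  have h1 := tau_coeff 10 (by norm_num)
  have h2 := digit B hB 10 (ET ^ 24) hc
  rw [Polynomial.eval_pow] at h2
  rw [ET_eval B] at h2
  rw [h2] at hd
  have h5 : (((tau 11 - ((ET ^ 24).coeff 10 : ℕ) : ℤ)) : ZMod 14641) = 0 := by
    rw [Int.cast_sub, Int.cast_natCast, sub_eq_zero]
    exact h1
  rw [ZMod.intCast_zmod_eq_zero_iff_dvd] at h5
  have h6 : ((11 : ℕ) : ℤ) ∣ tau 11 - ((ET ^ 24).coeff 10 : ℕ) :=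
    Dvd.dvd.trans (by norm_num) h5
  have h7 : ((11 : ℕ) : ℤ) ∣ (((ET ^ 24).coeff 10 : ℕ) : ℤ) := by
    have := dvd_sub h h6
    rwa [sub_sub_cancel] at this
  rw [Int.natCast_dvd_natCast] at h7
  omega

/-- `11` is an ordinary prime: `τ(11) = 1` modulo `11`. -/
theorem ord_eleven : ¬ ((11 : ℕ) : ℤ) ∣ tau 11 :=
  ord_aux (2 ^ 480) (by positivity) coeff_lt digit_ten

/-- **Blocks.** -/
theorem block (N M : ℕ) (hN : 1 ≤ N) (hNM : N ≤ M)
    (hS : ∑ m ∈ Finset.Icc N M, (tau m : ℚ) / (m : ℚ) ^ 4 = 0) : 200 * M < 201 * N := by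
  classical
  by_contra hcon
  push Not at hcon
  -- the largest 11-adic valuation
  obtain ⟨m₀, hm₀, hmax⟩ := Finset.exists_max_image (Finset.Icc N M) (fun m => padicValNat 11 m)
    ⟨N, Finset.mem_Icc.2 ⟨le_rfl, hNM⟩⟩
  have : Fact (Nat.Prime 11) := ⟨by norm_num⟩
  set K := padicValNat 11 m₀ with hKdef
  have hpos : ∀ m ∈ Finset.Icc N M, 1 ≤ m := fun m hm => by rw [Finset.mem_Icc] at hm; omega
  have hK : ∀ m ∈ Finset.Icc N M, ¬ 11 ^ (K + 1) ∣ m := by
    intro m hm hd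
    have h1 := (padicValNat_dvd_iff_le (p := 11) (by have := hpos m hm; omega)).1 hd
    have h2 := hmax m hm
    omega
  have hKd : 11 ^ K ∣ m₀ := pow_padicValNat_dvd
  have hP : 0 < 11 ^ K := by positivity
  have hd := descent 11 (by norm_num) ord_eleven 4 (by norm_num) (Finset.Icc N M) hpos K hK
    (fun _ => 1) (by rw [← hS]; apply Finset.sum_congr rfl; intro m _; push_cast; ring)
  obtain ⟨v₀, hv₀⟩ := hKd
  rw [Finset.mem_Icc] at hm₀
  set a := (N + 11 ^ K - 1) / 11 ^ K with ha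
  set b := M / 11 ^ K with hb
  have hmemab : ∀ v, (a ≤ v ∧ v ≤ b) ↔ (N ≤ 11 ^ K * v ∧ 11 ^ K * v ≤ M) := by
    intro v
    rw [hb, Nat.le_div_iff_mul_le hP, ha]
    constructor
    · rintro ⟨h1, h2⟩
      refine ⟨?_, by rw [mul_comm]; exact h2⟩
      have h3 := Nat.lt_mul_div_succ (N + 11 ^ K - 1) hP
      have h4 : 11 ^ K * ((N + 11 ^ K - 1) / 11 ^ K + 1) ≤ 11 ^ K * (v + 1) :=
        Nat.mul_le_mul_left _ (by omega)
      rw [mul_add (11 ^ K) v 1, mul_one] at h4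
      omega
    · rintro ⟨h1, h2⟩
      refine ⟨?_, by rw [mul_comm]; exact h2⟩
      rw [Nat.div_le_iff_le_mul_add_pred hP]
      omega
  have hv0ab := (hmemab v₀).2 ⟨by rw [← hv₀]; exact hm₀.1, by rw [← hv₀]; exact hm₀.2⟩
  have hno : ∀ v, a ≤ v → v ≤ b → ¬ 11 ∣ v := by
    rintro v h1 h2 ⟨c, hc⟩
    have h3 := (hmemab v).1 ⟨h1, h2⟩
    apply hK (11 ^ K * v) (Finset.mem_Icc.2 h3)
    rw [hc, pow_succ]
    exact ⟨c, by ring⟩
  -- the group
  set j := b / 11 with hj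
  have hbj : 11 * j ≤ b ∧ b < 11 * j + 11 := by omega
  have haj : 11 * j < a := by
    by_contra hc
    exact hno (11 * j) (by omega) hbj.1 (Dvd.intro _ rfl)
  have hbne : b ≤ 11 * j + 10 := by omega
  have hj200 : j < 200 := by
    have h1 : 11 ^ K * (11 * j) < N := by
      by_contra hc
      have h2 : 11 ^ K * (11 * j) ≤ M := by
        have := (hmemab v₀).1 hv0ab
        have h3 : 11 ^ K * (11 * j) ≤ 11 ^ K * b := Nat.mul_le_mul_left _ hbj.1
        have h4 : 11 ^ K * b ≤ M := by rw [hb]; exact Nat.mul_div_le M _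
        omega
      have h5 := (hmemab (11 * j)).2 ⟨by omega, h2⟩
      omega
    have h2 : M < 11 ^ K * (11 * (j + 1)) := by
      have h3 := Nat.lt_mul_div_succ M hP
      have h4 : 11 ^ K * (M / 11 ^ K + 1) ≤ 11 ^ K * (11 * (j + 1)) :=
        Nat.mul_le_mul_left _ (by rw [← hb]; omega)
      omega
    by_contra hc
    have h3 : 201 * (11 ^ K * (11 * j)) + 201 ≤ 201 * N := by omega
    have h4 : 200 * M < 200 * (11 ^ K * (11 * (j + 1))) := by omega
    have h5 : 200 * (11 ^ K * (11 * (j + 1))) ≤ 201 * (11 ^ K * (11 * j)) := by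
      have : 200 * (11 ^ K * (11 * (j + 1))) = 11 ^ K * 11 * (200 * j + 200) := by ring
      rw [this]
      have : 201 * (11 ^ K * (11 * j)) = 11 ^ K * 11 * (201 * j) := by ring
      rw [this]
      exact Nat.mul_le_mul_left _ (by omega)
    omega
  -- the sum
  have hset : ((Finset.Icc N M).filter fun m => 11 ^ K ∣ m) =
      (Finset.Ico (a - (11 * j + 1)) (b - 11 * j)).image (fun u => 11 ^ K * (11 * j + u + 1)) := by
    ext m
    rw [Finset.mem_filter, Finset.mem_image, Finset.mem_Icc]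
    constructor
    · rintro ⟨⟨h1, h2⟩, v, hv⟩
      have h3 := (hmemab v).2 ⟨by rw [← hv]; exact h1, by rw [← hv]; exact h2⟩
      refine ⟨v - (11 * j + 1), ?_, ?_⟩
      · rw [Finset.mem_Ico]; omega
      · rw [hv]
        congr 1
        omega
    · rintro ⟨u, hu, rfl⟩
      rw [Finset.mem_Ico] at hu
      have h3 := (hmemab (11 * j + u + 1)).1 ⟨by omega, by omega⟩
      exact ⟨h3, Dvd.intro _ rfl⟩
  have hinj : Set.InjOn (fun u => 11 ^ K * (11 * j + u + 1))
      (Finset.Ico (a - (11 * j + 1)) (b - 11 * j) : Finset ℕ) := by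
    intro x _ y _ hxy
    have := Nat.eq_of_mul_eq_mul_left hP hxy
    omega
  have hd2 : ∑ m ∈ Finset.Icc N M with 11 ^ K ∣ m, (((fun _ => 1 : ℕ → ℤ) m * tau (m / 11 ^ K) : ℤ) : ZMod (11 ^ 4)) *
      (((m / 11 ^ K : ℕ) : ZMod (11 ^ 4))⁻¹) ^ 4 = 0 := hd
  rw [hset, Finset.sum_image hinj] at hd2
  apply sums_ne j (a - (11 * j + 1)) (b - 11 * j) hj200 (by omega) (by omega)
  rw [Nat.cast_sum]
  have h1441 : (11 ^ 4 : ℕ) = 14641 := by norm_num
  rw [h1441] at hd2
  rw [← hd2]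
  apply Finset.sum_congr rfl
  intro u hu
  rw [Finset.mem_Ico] at hu
  rw [Nat.mul_div_cancel_left _ hP, one_mul]
  have h1 := tau_z (11 * j + u + 1) (by omega) (by omega) (hno _ (by omega) (by omega))
  rw [h1]
  rfl

end Pool.Agent.X3.Tau
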