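import Mathlib
import Pool.Agent.X3.NfaDigits
import Pool.Agent.H346R2.Pi.Bases

/-!
# Automata and the digits of irrational algebraic numbers
-/

set_option autoImplicit false

namespace Pool.Agent.X3.NfaAlg

open Pool.Agent.X3.NfaWords Polynomial

/-- no long periodic block in any base -/
theorem blocks_of_measure (y μ : ℝ) (hμ : 1 ≤ μ) (q0 : ℕ)
    (hq0 : ∀ q : ℕ, q0 ≤ q → ∀ p : ℤ, (q : ℝ) ^ (-μ) ≤ |y - p / q|) :
    ∃ N0 : ℕ, ∀ b : ℕ, 2 ≤ b → ∀ N : ℕ, N0 ≤ N → ∀ s : ℕ, 1 ≤ s →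
    ∃ i : ℕ, N < i ∧ (i : ℝ) ≤ N + (μ + 1 - 1) * (N + s) ∧
      ⌊y * (b : ℝ) ^ (i + s)⌋ % (b : ℤ) ≠ ⌊y * (b : ℝ) ^ i⌋ % (b : ℤ) := by
  refine ⟨max q0 1, fun b hb N hN s hs => ?_⟩
  have hN1 : 1 ≤ N := le_trans (le_max_right _ _) hN
  have hNq : q0 ≤ N := le_trans (le_max_left _ _) hN
  have hNR : (1 : ℝ) ≤ N := by exact_mod_cast hN1
  have hsR : (1 : ℝ) ≤ s := by exact_mod_cast hs
  obtain ⟨l, hl⟩ : ∃ l, l = ⌈(μ - 1) * ((N : ℝ) + s)⌉₊ := ⟨_, rfl⟩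
  have hl1 : (μ - 1) * ((N : ℝ) + s) ≤ l := by rw [hl]; exact Nat.le_ceil _
  have hl2 : (l : ℝ) < (μ - 1) * ((N : ℝ) + s) + 1 := by
    rw [hl]; exact Nat.ceil_lt_add_one (mul_nonneg (by linarith) (by positivity))
  obtain ⟨q, hq⟩ : ∃ q : ℕ, q = b ^ N * (b ^ s - 1) := ⟨_, rfl⟩
  have hbs : 1 ≤ b ^ s := Nat.one_le_pow _ _ (by omega)
  have hbs1 : 1 ≤ b ^ s - 1 := by
    have : b ^ 1 ≤ b ^ s := Nat.pow_le_pow_right (by omega) hs
    rw [pow_one] at this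
    omega
  have hqN : N ≤ q := by
    have h1 : N < b ^ N := Nat.lt_pow_self (by omega)
    have h2 : b ^ N * 1 ≤ b ^ N * (b ^ s - 1) := Nat.mul_le_mul_left _ hbs1
    rw [hq]; omega
  have hqpos : (0 : ℝ) < q := by
    have : 0 < q := by omega
    exact_mod_cast this
  obtain ⟨i, hi1, hi2, hi3⟩ := Pool.Agent.H346R2.Pi.no_run y b hb N s l hs (μ - 1) (by linarith) hl1
    (fun p => by
      have h1 := hq0 q (by omega) p
      rw [← hq]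
      have h4 : |y - p / q| = |q * y - p| / q := by
        rw [← abs_of_pos hqpos, ← abs_div, abs_of_pos hqpos]
        congr 1
        field_simp
      rw [h4, le_div_iff₀ hqpos] at h1
      refine le_trans (le_of_eq ?_) h1
      conv_rhs => rw [← Real.rpow_one (q : ℝ), ← Real.rpow_mul hqpos.le, ← Real.rpow_add hqpos]
      rw [Real.rpow_def_of_pos hqpos]
      congr 1; ring)
  refine ⟨i, hi1, ?_, hi3⟩
  have : (i : ℝ) ≤ N + l := by exact_mod_cast hi2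
  nlinarith

/-- algebraic irrational numbers -/
theorem measure_alg (y : ℝ) (hy : Irrational y) (ha : IsAlgebraic ℤ y) :
    ∃ μ : ℝ, 1 ≤ μ ∧ ∃ q0 : ℕ, ∀ q : ℕ, q0 ≤ q → ∀ p : ℤ, (q : ℝ) ^ (-μ) ≤ |y - p / q| := by
  obtain ⟨f, hf0, hf⟩ := ha
  obtain ⟨a, ha, hL⟩ := Liouville.exists_pos_real_of_irrational_root hy hf0 (by
    rw [eval_map_algebraMap]
    exact hf)
  obtain ⟨q1, hq1⟩ := exists_nat_ge a
  refine ⟨f.natDegree + 1, by linarith [Nat.cast_nonneg (α := ℝ) f.natDegree], max 1 q1,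
    fun q hq p => ?_⟩
  have hq1' : 1 ≤ q := le_trans (le_max_left _ _) hq
  have hqa : a ≤ q := hq1.trans (by exact_mod_cast le_trans (le_max_right _ _) hq)
  have hqR : (0 : ℝ) < q := by exact_mod_cast hq1'
  have h1 := hL p (q - 1)
  have e1 : (((q - 1 : ℕ) : ℝ) + 1) = q := by
    rw [Nat.cast_sub hq1']
    push_cast
    ring
  rw [e1] at h1
  rw [Real.rpow_neg hqR.le, Real.rpow_add hqR, Real.rpow_natCast, Real.rpow_one, inv_le_iff_one_le_mul₀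
    (by positivity)]
  refine h1.trans ?_
  have h2 : 0 ≤ |y - p / q| := abs_nonneg _
  have h3 : (0 : ℝ) ≤ (q : ℝ) ^ f.natDegree := by positivity
  nlinarith [mul_le_mul_of_nonneg_left hqa (mul_nonneg h3 h2)]

theorem noPer_alg (y : ℝ) (hy0 : 0 ≤ y) (hy : Irrational y) (ha : IsAlgebraic ℤ y) :
    ∃ ρ : ℝ, 1 < ρ ∧ ∃ N₀ : ℕ, ∀ (b : ℕ) [NeZero b], 2 ≤ b → NoPer (Real.digits y b) ρ N₀ := by
  obtain ⟨μ, hμ, q0, hq0⟩ := measure_alg y hy ha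
  obtain ⟨N₀, h⟩ := blocks_of_measure y μ hμ q0 hq0
  exact ⟨μ + 1, by linarith, N₀, fun b _ hb => noPer_digits hy0 fun N hN s hs => h b hb N hN s hs⟩

end Pool.Agent.X3.NfaAlg
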