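import Mathlib

/-!
# Spaces of sequences which are invariant under the shift and under decimations
-/

set_option autoImplicit false

namespace Pool.Agent.X3.LinMult

open Module Polynomial

variable {K : Type} [Field K]

/-- the shift -/
def S : Module.End K (ℕ → K) where
  toFun u n := u (n + 1)
  map_add' _ _ := rfl
  map_smul' _ _ := rfl

/-- decimation; the term with the index `n` is the value at `n + 1` -/
def D (s : ℕ) : Module.End K (ℕ → K) where
  toFun u n := u (s * (n + 1) - 1)
  map_add' _ _ := rfl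
  map_smul' _ _ := rfl

lemma S_apply (u : ℕ → K) (n : ℕ) : (S : Module.End K (ℕ → K)) u n = u (n + 1) := rfl

lemma D_apply (s : ℕ) (u : ℕ → K) (n : ℕ) : D s u n = u (s * (n + 1) - 1) := rfl

lemma S_pow (j : ℕ) (u : ℕ → K) (n : ℕ) : ((S : Module.End K (ℕ → K)) ^ j) u n = u (n + j) := by
  induction j generalizing n with
  | zero => simp
  | succ j ih =>
    rw [pow_succ', Module.End.mul_apply, S_apply, ih]
    congr 1
    omega

lemma S_D {s : ℕ} (hs : 1 ≤ s) (u : ℕ → K) : S (D s u) = D s ((S ^ s) u) := by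
  funext n
  rw [S_apply, D_apply, D_apply, S_pow]
  congr 1
  have : s * (n + 1 + 1) = s * (n + 1) + s := by ring
  have h2 : 1 ≤ s * (n + 1) := Nat.mul_pos hs (Nat.succ_pos n)
  omega

lemma S_pow_D {s : ℕ} (hs : 1 ≤ s) (j : ℕ) (u : ℕ → K) : (S ^ j) (D s u) = D s ((S ^ (s * j)) u) := by
  induction j with
  | zero => simp
  | succ j ih =>
    have h1 : (S ^ s) ((S ^ (s * j)) u) = (S ^ (s * (j + 1))) u := by
      rw [← Module.End.mul_apply, ← pow_add]
      congr 2
      ring
    rw [pow_succ', Module.End.mul_apply, ih, S_D hs, h1]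

lemma coe_pow {W : Submodule K (ℕ → K)} {T : Module.End K (ℕ → K)} (hT : ∀ u ∈ W, T u ∈ W) (i : ℕ)
    (w : W) : (((T.restrict hT) ^ i) w : ℕ → K) = (T ^ i) (w : ℕ → K) := by
  induction i with
  | zero => simp
  | succ i ih =>
    rw [pow_succ', pow_succ', Module.End.mul_apply, Module.End.mul_apply, ← ih]
    rfl

/-- a sequence in a small shift invariant space with vanishing first terms vanishes -/
lemma zero_of_initial {U : Submodule K (ℕ → K)} (hU : ∀ u ∈ U, S u ∈ U) [FiniteDimensional K U]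
    {m : ℕ} (hm : finrank K U ≤ m) {u : ℕ → K} (hu : u ∈ U) (h : ∀ n, n < m → u n = 0) : u = 0 := by
  obtain ⟨d, hd⟩ : ∃ d, d = finrank K U := ⟨_, rfl⟩
  rw [← hd] at hm
  have hdeg : (LinearMap.charpoly (S.restrict hU)).natDegree = d := by
    rw [LinearMap.charpoly_natDegree, hd]
  have hmon := LinearMap.charpoly_monic (S.restrict hU)
  have h0 := LinearMap.aeval_self_charpoly (S.restrict hU)
  rw [Polynomial.aeval_eq_sum_range, hdeg] at h0
  have h1 : ∀ n, ∑ i ∈ Finset.range (d + 1),
      (LinearMap.charpoly (S.restrict hU)).coeff i * u (n + i) = 0 := by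
    intro n
    have h2 := congrArg (fun f : Module.End K U => ((f ⟨u, hu⟩ : U) : ℕ → K) n) h0
    simp only [LinearMap.sum_apply, LinearMap.smul_apply, AddSubmonoidClass.coe_finsetSum,
      Submodule.coe_smul, Finset.sum_apply, Pi.smul_apply, smul_eq_mul, LinearMap.zero_apply,
      ZeroMemClass.coe_zero, Pi.zero_apply] at h2
    rw [← h2]
    refine Finset.sum_congr rfl fun i _ => ?_
    rw [coe_pow, S_pow]
  have hlead : (LinearMap.charpoly (S.restrict hU)).coeff d = 1 := by
    rw [← hdeg]; exact hmon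
  funext n
  induction n using Nat.strong_induction_on with
  | _ n ih =>
    rcases Nat.lt_or_ge n m with hn | hn
    · exact h n hn
    · have h3 := h1 (n - d)
      rw [Finset.sum_range_succ, hlead, one_mul, Finset.sum_eq_zero, zero_add] at h3
      · have e : n - d + d = n := by omega
        rw [e] at h3
        exact h3
      · intro i hi
        rw [Finset.mem_range] at hi
        have := ih (n - d + i) (by omega)
        rw [this]
        simp

/-- **The shift is unipotent.** -/
theorem unipotent [IsAlgClosed K] {W : Submodule K (ℕ → K)} [FiniteDimensional K W]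
    (hS : ∀ u ∈ W, S u ∈ W) {y : ℕ} (hy : finrank K W + 1 ≤ y) (hy2 : 2 ≤ y)
    (hD : ∀ s, 1 ≤ s → s ≤ y → W ≤ W.map (D s)) :
    ∀ u ∈ W, ((S - 1 : Module.End K (ℕ → K)) ^ finrank K W) u = 0 := by
  classical
  have hDW : ∀ s, 1 ≤ s → s ≤ y → W.map (D s) = W := fun s h1 h2 =>
    (Submodule.eq_of_le_of_finrank_le (hD s h1 h2) (Submodule.finrank_map_le _ _)).symm
  have hDmem : ∀ s, 1 ≤ s → s ≤ y → ∀ u ∈ W, D s u ∈ W := by
    intro s h1 h2 u hu
    rw [← hDW s h1 h2]
    exact Submodule.mem_map_of_mem hu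
  have hDsurj : ∀ s, 1 ≤ s → s ≤ y → ∀ u ∈ W, ∃ v ∈ W, D s v = u := by
    intro s h1 h2 u hu
    rw [← hDW s h1 h2] at hu
    exact Submodule.mem_map.1 hu
  have hDinj : ∀ s, 1 ≤ s → s ≤ y → ∀ u ∈ W, D s u = 0 → u = 0 := by
    intro s h1 h2 u hu h0
    have hs : Function.Surjective ((D s).restrict (hDmem s h1 h2)) := by
      intro w
      obtain ⟨v, hv, hvw⟩ := hDsurj s h1 h2 w w.2
      exact ⟨⟨v, hv⟩, Subtype.ext hvw⟩
    have hi := LinearMap.injective_iff_surjective.2 hs
    have h3 : ((D s).restrict (hDmem s h1 h2)) ⟨u, hu⟩ = ((D s).restrict (hDmem s h1 h2)) 0 := by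
      rw [map_zero]
      exact Subtype.ext h0
    exact congrArg Subtype.val (hi h3)
  -- eigenvalues
  obtain ⟨Ev, hEv⟩ : ∃ Ev : K → Prop, Ev = fun α => ∃ w ∈ W, w ≠ 0 ∧ S w = α • w := ⟨_, rfl⟩
  obtain ⟨SW, hSW⟩ : ∃ SW : Module.End K W, SW = S.restrict hS := ⟨_, rfl⟩
  have hSWc : ∀ (i : ℕ) (w : W), ((SW ^ i) w : ℕ → K) = (S ^ i) (w : ℕ → K) := by
    intro i w
    rw [hSW]
    exact coe_pow hS i w
  have hSWa : ∀ (w : W), (SW w : ℕ → K) = S (w : ℕ → K) := by
    intro w
    rw [hSW]
    rfl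
  have hEv1 : ∀ α, Ev α ↔ SW.HasEigenvalue α := by
    intro α
    rw [hEv]
    constructor
    · rintro ⟨w, hw, hw0, he⟩
      refine Module.End.hasEigenvalue_of_hasEigenvector (x := ⟨w, hw⟩) ?_
      rw [Module.End.hasEigenvector_iff, Module.End.mem_eigenspace_iff]
      exact ⟨Subtype.ext (by rw [hSWa]; exact he), fun h => hw0 (congrArg Subtype.val h)⟩
    · intro h
      obtain ⟨w, hw⟩ := h.exists_hasEigenvector
      rw [Module.End.hasEigenvector_iff, Module.End.mem_eigenspace_iff] at hw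
      exact ⟨w, w.2, fun h => hw.2 (Subtype.ext h), by rw [← hSWa, hw.1]; rfl⟩
  have hpow : ∀ (α : K) (w : ℕ → K), S w = α • w → ∀ i, (S ^ i) w = α ^ i • w := by
    intro α w hw i
    induction i with
    | zero => simp
    | succ i ih => rw [pow_succ', Module.End.mul_apply, ih, map_smul, hw, smul_smul, ← pow_succ]
  have hEvpow : ∀ α, Ev α → ∀ s, 1 ≤ s → s ≤ y → Ev (α ^ s) := by
    intro α hα s h1 h2
    rw [hEv] at hα ⊢
    obtain ⟨w, hw, hw0, he⟩ := hα
    refine ⟨D s w, hDmem s h1 h2 w hw, fun h => hw0 (hDinj s h1 h2 w hw h), ?_⟩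
    rw [S_D h1, hpow α w he, map_smul]
  have hEvroot : ∀ β, Ev β → ∀ s, 1 ≤ s → s ≤ y → ∃ α, Ev α ∧ α ^ s = β := by
    intro β hβ s h1 h2
    have hβ' := hβ
    rw [hEv] at hβ'
    obtain ⟨w, hw, hw0, he⟩ := hβ'
    obtain ⟨v, hv, hvw⟩ := hDsurj s h1 h2 w hw
    have h3 : (S ^ s) v = β • v := by
      have h4 : D s ((S ^ s) v - β • v) = 0 := by
        rw [map_sub, ← S_D h1, hvw, map_smul, hvw, he, sub_self]
      have hSs : (S ^ s) v ∈ W := by
        have := ((SW ^ s) ⟨v, hv⟩).2
        rwa [hSWc] at this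
      have h5 := hDinj s h1 h2 _ (W.sub_mem hSs (W.smul_mem β hv)) h4
      exact sub_eq_zero.1 h5
    have h6 : (SW ^ s).HasEigenvalue β := by
      refine Module.End.hasEigenvalue_of_hasEigenvector (x := ⟨v, hv⟩) ?_
      rw [Module.End.hasEigenvector_iff, Module.End.mem_eigenspace_iff]
      refine ⟨Subtype.ext ?_, fun h => ?_⟩
      · rw [hSWc]
        exact h3
      · have : v = 0 := congrArg Subtype.val h
        apply hw0
        rw [← hvw, this, map_zero]
    rw [Module.End.hasEigenvalue_iff_mem_spectrum,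
      spectrum.map_pow_of_pos _ (show 0 < s by omega)] at h6
    obtain ⟨α, hα, hαβ⟩ := h6
    refine ⟨α, ?_, hαβ⟩
    rw [hEv1, Module.End.hasEigenvalue_iff_mem_spectrum]
    exact hα
  obtain ⟨d, hd⟩ : ∃ d, d = finrank K W := ⟨_, rfl⟩
  rw [← hd] at hy ⊢
  obtain ⟨P, hP⟩ : ∃ P, P = LinearMap.charpoly SW := ⟨_, rfl⟩
  have hPmon : P.Monic := by rw [hP]; exact LinearMap.charpoly_monic _
  have hPdeg : P.natDegree = d := by rw [hP, LinearMap.charpoly_natDegree, hd]
  obtain ⟨R, hR⟩ : ∃ R : Finset K, R = P.roots.toFinset := ⟨_, rfl⟩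
  have hRmem : ∀ α, α ∈ R ↔ Ev α := by
    intro α
    rw [hR, Multiset.mem_toFinset, Polynomial.mem_roots hPmon.ne_zero, hEv1, hP,
      Module.End.hasEigenvalue_iff_isRoot_charpoly]
  have hRcard : R.card ≤ d := by
    rw [hR]
    calc P.roots.toFinset.card ≤ Multiset.card P.roots := Multiset.toFinset_card_le _
      _ ≤ P.natDegree := Polynomial.card_roots' _
      _ = d := hPdeg
  have hne0 : ∀ α, Ev α → α ≠ 0 := by
    intro α hα h0
    rw [hEv] at hα
    obtain ⟨w, hw, hw0, he⟩ := hα
    apply hw0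
    apply hDinj 2 (by norm_num) hy2 w hw
    funext n
    rw [D_apply]
    have h1 := congrFun he (2 * (n + 1) - 2)
    rw [S_apply, h0] at h1
    have e : 2 * (n + 1) - 2 + 1 = 2 * (n + 1) - 1 := by omega
    rw [e] at h1
    rw [h1]
    simp
  have hone : ∀ α, Ev α → α = 1 := by
    intro α hα
    have hα0 := hne0 α hα
    obtain ⟨i, hi, j, hj, hij, he⟩ := Finset.exists_ne_map_eq_of_card_lt_of_maps_to
      (s := Finset.Icc 1 (d + 1)) (t := R) (f := fun i => α ^ i) (by
        rw [Nat.card_Icc]; omega) (by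
        intro i hi
        simp only [Finset.coe_Icc, Set.mem_Icc] at hi
        exact (hRmem _).2 (hEvpow α hα i hi.1 (by omega)))
    rw [Finset.mem_Icc] at hi hj
    obtain ⟨m, hm1, hm2, hm3⟩ : ∃ m, 1 ≤ m ∧ m ≤ d ∧ α ^ m = 1 := by
      rcases lt_or_gt_of_ne hij with h | h
      · refine ⟨j - i, by omega, by omega, ?_⟩
        have h1 : α ^ i * α ^ (j - i) = α ^ i * 1 := by
          rw [← pow_add, mul_one]
          have : i + (j - i) = j := by omega
          rw [this]
          exact he.symm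
        exact mul_left_cancel₀ (pow_ne_zero _ hα0) h1
      · refine ⟨i - j, by omega, by omega, ?_⟩
        have h1 : α ^ j * α ^ (i - j) = α ^ j * 1 := by
          rw [← pow_add, mul_one]
          have : j + (i - j) = i := by omega
          rw [this]
          exact he
        exact mul_left_cancel₀ (pow_ne_zero _ hα0) h1
    have h1R : (1 : K) ∈ R := by
      rw [← hm3]
      exact (hRmem _).2 (hEvpow α hα m hm1 (by omega))
    have hinj : Set.InjOn (fun β : K => β ^ m) R := by
      refine Finset.injOn_of_surjOn_of_card_le (t := R) (fun β : K => β ^ m) ?_ ?_ le_rfl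
      · intro β hβ
        exact (hRmem _).2 (hEvpow β ((hRmem β).1 hβ) m hm1 (by omega))
      · intro β hβ
        obtain ⟨γ, hγ, hγβ⟩ := hEvroot β ((hRmem β).1 hβ) m hm1 (by omega)
        exact ⟨γ, (hRmem γ).2 hγ, hγβ⟩
    exact hinj ((hRmem α).2 hα) h1R (by simp [hm3])
  have hroots : P.roots = Multiset.replicate (Multiset.card P.roots) 1 := by
    rw [Multiset.eq_replicate]
    refine ⟨rfl, fun β hβ => ?_⟩
    apply hone
    rw [← hRmem, hR, Multiset.mem_toFinset]
    exact hβ
  have hsp := (IsAlgClosed.splits P).eq_prod_roots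
  rw [hPmon.leadingCoeff, map_one, one_mul, hroots, Multiset.map_replicate,
    Multiset.prod_replicate] at hsp
  have hcard : Multiset.card P.roots = d := by
    have := congrArg Polynomial.natDegree hsp
    rw [hPdeg, Polynomial.natDegree_pow, Polynomial.natDegree_X_sub_C, mul_one] at this
    exact this.symm
  rw [hcard] at hsp
  have haev := LinearMap.aeval_self_charpoly SW
  rw [← hP, hsp, map_pow, map_sub, aeval_X, map_one, map_one] at haev
  intro u hu
  have h1 : ∀ i, (((SW - 1) ^ i) ⟨u, hu⟩ : ℕ → K) =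
      ((S - 1 : Module.End K (ℕ → K)) ^ i) u := by
    intro i
    induction i with
    | zero => simp
    | succ i ih =>
      rw [pow_succ', pow_succ', Module.End.mul_apply, Module.End.mul_apply, ← ih,
        LinearMap.sub_apply, LinearMap.sub_apply, Submodule.coe_sub, hSWa]
      rfl
  rw [← h1, haev]
  rfl

end Pool.Agent.X3.LinMult
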