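import Mathlib
import Pool.Agent.X3.LinSpec

/-!
# Linear recurrences and completely multiplicative functions
-/

set_option autoImplicit false

namespace Pool.Agent.X3.LinMult

open Module Polynomial

variable {K : Type} [Field K]

/-- the difference operator -/
def dl : Module.End K (ℕ → K) := S - 1

lemma dl_apply (u : ℕ → K) (n : ℕ) : dl u n = u (n + 1) - u n := rfl

lemma dl_succ (i : ℕ) (u : ℕ → K) : (dl ^ (i + 1)) u = (dl ^ i) (dl u) := by
  rw [pow_succ, Module.End.mul_apply]

lemma dl_succ' (i : ℕ) (u : ℕ → K) : (dl ^ (i + 1)) u = dl ((dl ^ i) u) := by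
  rw [pow_succ', Module.End.mul_apply]

lemma dl_zero_of_le {u : ℕ → K} {i j : ℕ} (h : (dl ^ i) u = 0) (hij : i ≤ j) : (dl ^ j) u = 0 := by
  obtain ⟨k, rfl⟩ := Nat.exists_eq_add_of_le hij
  rw [add_comm, pow_add, Module.End.mul_apply, h, map_zero]

lemma const_of_dl {u : ℕ → K} (h : dl u = 0) (n : ℕ) : u n = u 0 := by
  induction n with
  | zero => rfl
  | succ n ih =>
    have := congrFun h n
    rw [dl_apply] at this
    rw [← ih]
    exact sub_eq_zero.1 this

lemma dl_initial (m : ℕ) : ∀ u : ℕ → K, (dl ^ m) u = 0 → (∀ n, n < m → u n = 0) → u = 0 := by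
  induction m with
  | zero => intro u h _; simpa using h
  | succ m ih =>
    intro u h h0
    rw [dl_succ] at h
    have h1 := ih (dl u) h (fun n hn => by
      rw [dl_apply, h0 (n + 1) (by omega), h0 n (by omega), sub_zero])
    funext n
    rw [const_of_dl h1 n, h0 0 (by omega)]
    rfl

lemma dl_one {i : ℕ} (hi : 1 ≤ i) : (dl ^ i) (1 : ℕ → K) = 0 := by
  apply dl_zero_of_le (i := 1) _ hi
  rw [pow_one]
  funext n
  rw [dl_apply]
  simp

lemma S_dl_comm (i : ℕ) (u : ℕ → K) : (dl ^ i) (S u) = S ((dl ^ i) u) := by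
  have h : Commute (S : Module.End K (ℕ → K)) dl := by
    unfold dl
    exact (Commute.refl S).sub_right (Commute.one_right S)
  have h2 := (h.pow_right i).eq
  have := congrArg (fun f : Module.End K (ℕ → K) => f u) h2
  exact this.symm

lemma S_of_dl {u : ℕ → K} (h : dl u = 0) : S u = u := by
  funext n
  rw [S_apply, const_of_dl h, const_of_dl h n]

/-- the Leibniz rule for the top differences -/
lemma leibniz (n : ℕ) : ∀ (m l : ℕ), m + l = n → ∀ u v : ℕ → K, (dl ^ (m + 1)) u = 0 →
    (dl ^ (l + 1)) v = 0 →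
    (dl ^ n) (u * v) = ((n.choose m : ℕ) : K) • ((dl ^ m) u * (dl ^ l) v) := by
  induction n with
  | zero =>
    intro m l hml u v _ _
    have h1 : m = 0 := by omega
    have h2 : l = 0 := by omega
    subst h1 h2
    simp
  | succ n ih =>
    intro m l hml u v hu hv
    have hd : dl (u * v) = dl u * v + S u * dl v := by
      funext k
      simp only [dl_apply, Pi.mul_apply, Pi.add_apply, S_apply]
      ring
    rw [dl_succ, hd, map_add]
    have t1 : (dl ^ n) (dl u * v) =
        (if m = 0 then 0 else ((n.choose (m - 1) : ℕ) : K)) • ((dl ^ m) u * (dl ^ l) v) := by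
      rcases Nat.eq_zero_or_pos m with h | h
      · subst h
        have : dl u = 0 := by simpa using hu
        rw [this, zero_mul, map_zero]
        simp
      · have e : m - 1 + 1 = m := by omega
        have := ih (m - 1) l (by omega) (dl u) v (by
          rw [e]
          rw [dl_succ] at hu
          exact hu) hv
        rw [this, if_neg (by omega)]
        congr 2
        rw [← dl_succ, e]
    have t2 : (dl ^ n) (S u * dl v) = ((n.choose m : ℕ) : K) • ((dl ^ m) u * (dl ^ l) v) := by
      rcases Nat.eq_zero_or_pos l with h | h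
      · subst h
        have h1 : dl v = 0 := by simpa using hv
        rw [h1, mul_zero, map_zero]
        have : n.choose m = 0 := Nat.choose_eq_zero_of_lt (by omega)
        rw [this]
        simp
      · have e : l - 1 + 1 = l := by omega
        have := ih m (l - 1) (by omega) (S u) (dl v) (by
          rw [S_dl_comm, hu, map_zero]) (by
          rw [e]
          rw [dl_succ] at hv
          exact hv)
        rw [this, S_dl_comm, S_of_dl (by rw [← dl_succ']; exact hu), ← dl_succ, e]
    rw [t1, t2, ← add_smul]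
    congr 1
    rcases Nat.eq_zero_or_pos m with h | h
    · subst h
      simp
    · rw [if_neg (by omega)]
      obtain ⟨m', rfl⟩ : ∃ m', m = m' + 1 := ⟨m - 1, by omega⟩
      rw [Nat.choose_succ_succ]
      simp

/-- decimation and top differences -/
lemma dl_D {s : ℕ} (hs : 1 ≤ s) {j : ℕ} {u : ℕ → K} (hu : (dl ^ (j + 1)) u = 0) :
    (dl ^ j) (D s u) = ((s : K) ^ j) • (dl ^ j) u := by
  have h1 : ∀ w : ℕ → K, dl (D s w) = D s (((S : Module.End K (ℕ → K)) ^ s - 1) w) := by
    intro w
    have : dl (D s w) = S (D s w) - D s w := rfl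
    rw [this, S_D hs, LinearMap.sub_apply, map_sub]
    rfl
  have h2 : ∀ (i : ℕ) (w : ℕ → K),
      (dl ^ i) (D s w) = D s ((((S : Module.End K (ℕ → K)) ^ s - 1) ^ i) w) := by
    intro i
    induction i with
    | zero => intro w; simp
    | succ i ih =>
      intro w
      rw [dl_succ, h1, ih, pow_succ, Module.End.mul_apply]
  obtain ⟨Q, hQ⟩ : ∃ Q : Module.End K (ℕ → K), Q = ∑ i ∈ Finset.range s, S ^ i := ⟨_, rfl⟩
  have h3 : (S : Module.End K (ℕ → K)) ^ s - 1 = Q * dl := by
    rw [hQ]
    exact (geom_sum_mul (S : Module.End K (ℕ → K)) s).symm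
  have hcomm : Commute Q dl := by
    rw [hQ]
    apply Commute.sum_left
    intro i _
    unfold dl
    exact (Commute.pow_left (Commute.refl S) i).sub_right (Commute.one_right _)
  rw [h2, h3, hcomm.mul_pow, Module.End.mul_apply]
  obtain ⟨v, hv⟩ : ∃ v, v = (dl ^ j) u := ⟨_, rfl⟩
  rw [← hv]
  have hv0 : dl v = 0 := by rw [hv, ← dl_succ']; exact hu
  have hSv : ∀ i, ((S : Module.End K (ℕ → K)) ^ i) v = v := by
    intro i
    funext n
    rw [S_pow, const_of_dl hv0, const_of_dl hv0 n]
  have hQv : Q v = (s : K) • v := by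
    rw [hQ, LinearMap.sum_apply, Finset.sum_congr rfl (fun i _ => hSv i), Finset.sum_const,
      Finset.card_range, Nat.cast_smul_eq_nsmul]
  have hQj : ∀ i, (Q ^ i) v = ((s : K) ^ i) • v := by
    intro i
    induction i with
    | zero => simp
    | succ i ih => rw [pow_succ', Module.End.mul_apply, ih, map_smul, hQv, smul_smul, ← pow_succ]
  rw [hQj, map_smul]
  congr 1
  funext n
  rw [D_apply, const_of_dl hv0, const_of_dl hv0 n]

/-- the first terms of a sequence are the first terms of a solution -/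
lemma mkSol_eq {E : LinearRecurrence K} {x : ℕ → K} {N : ℕ}
    (hx : ∀ n, n + E.order < N → x (n + E.order) = ∑ i, E.coeffs i * x (n + i)) :
    ∀ n, n < N → E.mkSol (fun i => x i) n = x n := by
  intro n
  induction n using Nat.strong_induction_on with
  | _ n ih =>
    intro hn
    rcases Nat.lt_or_ge n E.order with h | h
    · exact E.mkSol_eq_init (fun i => x i) ⟨n, h⟩
    · have e : n - E.order + E.order = n := by omega
      have h1 := E.is_sol_mkSol (fun i => x i) (n - E.order)
      rw [e] at h1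
      have h2 := hx (n - E.order) (by omega)
      rw [e] at h2
      rw [h1, h2]
      refine Finset.sum_congr rfl fun i _ => ?_
      have := i.2
      rw [ih (n - E.order + i) (by omega) (by omega)]

lemma S_mem_sol (E : LinearRecurrence K) {u : ℕ → K} (hu : u ∈ E.solSpace) : S u ∈ E.solSpace := by
  intro n
  have := hu (n + 1)
  simp only [S_apply]
  have e : n + E.order + 1 = n + 1 + E.order := by ring
  rw [e, this]
  refine Finset.sum_congr rfl fun i _ => ?_
  congr 2
  ring

lemma S_pow_mem {U : Submodule K (ℕ → K)} (hU : ∀ u ∈ U, S u ∈ U) {u : ℕ → K} (hu : u ∈ U) (i : ℕ) :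
    (S ^ i) u ∈ U := by
  induction i with
  | zero => simpa using hu
  | succ i ih =>
    rw [pow_succ', Module.End.mul_apply]
    exact hU _ ih

lemma finrank_sol (E : LinearRecurrence K) : finrank K E.solSpace = E.order := by
  rw [LinearEquiv.finrank_eq E.toInit]
  simp

instance (E : LinearRecurrence K) : FiniteDimensional K E.solSpace :=
  Module.Finite.equiv E.toInit.symm

/-- the span of the shifts -/
def sp (μ : ℕ → K) : Submodule K (ℕ → K) := Submodule.span K (Set.range fun j : ℕ => (S ^ j) μ)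

lemma sp_inv (μ : ℕ → K) : ∀ u ∈ sp μ, S u ∈ sp μ := by
  intro u hu
  unfold sp at hu ⊢
  induction hu using Submodule.span_induction with
  | mem x hx =>
    obtain ⟨j, rfl⟩ := hx
    apply Submodule.subset_span
    exact ⟨j + 1, by simp only [pow_succ', Module.End.mul_apply]⟩
  | zero => rw [map_zero]; exact Submodule.zero_mem _
  | add x y _ _ hx hy => rw [map_add]; exact Submodule.add_mem _ hx hy
  | smul a x _ hx => rw [map_smul]; exact Submodule.smul_mem _ _ hx

lemma self_mem_sp (μ : ℕ → K) : μ ∈ sp μ := by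
  unfold sp
  apply Submodule.subset_span
  exact ⟨0, by simp⟩

lemma sp_le {μ : ℕ → K} {U : Submodule K (ℕ → K)} (hU : ∀ u ∈ U, S u ∈ U) (h : μ ∈ U) :
    sp μ ≤ U := by
  unfold sp
  rw [Submodule.span_le]
  rintro _ ⟨j, rfl⟩
  exact S_pow_mem hU h j

lemma inv_sup {U V : Submodule K (ℕ → K)} (hU : ∀ u ∈ U, S u ∈ U) (hV : ∀ u ∈ V, S u ∈ V) :
    ∀ u ∈ U ⊔ V, S u ∈ U ⊔ V := by
  intro u hu
  obtain ⟨a, ha, b, hb, rfl⟩ := Submodule.mem_sup.1 hu
  rw [map_add]
  exact Submodule.add_mem_sup (hU a ha) (hV b hb)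

lemma inv_map {U : Submodule K (ℕ → K)} (hU : ∀ u ∈ U, S u ∈ U) {s : ℕ} (hs : 1 ≤ s) :
    ∀ u ∈ U.map (D s), S u ∈ U.map (D s) := by
  intro u hu
  obtain ⟨v, hv, rfl⟩ := Submodule.mem_map.1 hu
  rw [S_D hs]
  exact Submodule.mem_map_of_mem (S_pow_mem hU hv s)

/-- the constant sequences -/
def cst : Submodule K (ℕ → K) := Submodule.span K {1}

lemma cst_inv : ∀ u ∈ (cst : Submodule K (ℕ → K)), S u ∈ (cst : Submodule K (ℕ → K)) := by
  intro u hu
  unfold cst at hu ⊢
  rw [Submodule.mem_span_singleton] at hu ⊢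
  obtain ⟨a, rfl⟩ := hu
  exact ⟨a, rfl⟩

instance : FiniteDimensional K (cst : Submodule K (ℕ → K)) := by
  unfold cst; infer_instance

lemma finrank_cst : finrank K (cst : Submodule K (ℕ → K)) ≤ 1 := by
  unfold cst
  exact (finrank_span_le_card _).trans (by simp)

lemma D_one (s : ℕ) : D s (1 : ℕ → K) = 1 := rfl

/-- **Sequences with two values.** -/
theorem two_values [IsAlgClosed K] {a b : K} (hab : a ≠ b) {lam : ℕ → ℤˣ}
    (hlam : ∀ m n, 1 ≤ m → 1 ≤ n → lam (m * n) = lam m * lam n)
    (hprime : ∀ p, p.Prime → lam p = -1) {N : ℕ} (E : LinearRecurrence K)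
    (hN : (2 * E.order + 1) * (2 * E.order + 2) ≤ N) {x : ℕ → K}
    (hxl : ∀ n, x n = if lam (n + 1) = 1 then a else b)
    (hx : ∀ n, n + E.order < N → x (n + E.order) = ∑ i, E.coeffs i * x (n + i)) : False := by
  classical
  obtain ⟨L, hL⟩ : ∃ L, L = E.order := ⟨_, rfl⟩
  rw [← hL] at hN
  obtain ⟨μ, hμ⟩ : ∃ μ, μ = E.mkSol (fun i => x i) := ⟨_, rfl⟩
  have hμx : ∀ n, n < N → μ n = x n := by
    rw [hμ]; exact mkSol_eq hx
  have hμV : μ ∈ E.solSpace := by rw [hμ]; exact E.is_sol_mkSol _
  have hVinv : ∀ u ∈ E.solSpace, S u ∈ E.solSpace := fun u hu => S_mem_sol E hu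
  obtain ⟨W, hW⟩ : ∃ W, W = sp μ ⊔ cst := ⟨_, rfl⟩
  have hWinv : ∀ u ∈ W, S u ∈ W := by rw [hW]; exact inv_sup (sp_inv μ) cst_inv
  have hWV : W ≤ E.solSpace ⊔ cst := by
    rw [hW]; exact sup_le_sup_right (sp_le hVinv hμV) _
  have hVc : finrank K (E.solSpace ⊔ cst : Submodule K (ℕ → K)) ≤ L + 1 := by
    have h1 := Submodule.finrank_add_le_finrank_add_finrank E.solSpace (cst : Submodule K (ℕ → K))
    rw [finrank_sol, ← hL] at h1
    have h2 := finrank_cst (K := K)
    omega
  have hWfin : FiniteDimensional K W := Submodule.finiteDimensional_of_le hWV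
  have hWrank : finrank K W ≤ L + 1 := (Submodule.finrank_mono hWV).trans hVc
  have h1W : (1 : ℕ → K) ∈ W := by
    rw [hW]
    exact Submodule.mem_sup_right (Submodule.mem_span_singleton_self _)
  have hμW : μ ∈ W := by rw [hW]; exact Submodule.mem_sup_left (self_mem_sp μ)
  -- the action of the decimations
  have hDμ : ∀ s, 1 ≤ s → s ≤ 2 * L + 2 → ∀ ε : ℤˣ, lam s = ε →
      D s μ = if ε = 1 then μ else (a + b) • (1 : ℕ → K) - μ := by
    intro s h1 h2 ε hε
    have hsN : s * (2 * L + 1) ≤ N := by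
      calc s * (2 * L + 1) ≤ (2 * L + 2) * (2 * L + 1) := Nat.mul_le_mul_right _ h2
        _ = (2 * L + 1) * (2 * L + 2) := by ring
        _ ≤ N := hN
    have hUinv := inv_sup (inv_map hVinv h1) (inv_sup hVinv cst_inv)
    have hUrank : finrank K (E.solSpace.map (D s) ⊔ (E.solSpace ⊔ cst) :
        Submodule K (ℕ → K)) ≤ 2 * L + 1 := by
      have a1 := Submodule.finrank_add_le_finrank_add_finrank (E.solSpace.map (D s))
        (E.solSpace ⊔ cst : Submodule K (ℕ → K))
      have a2 := Submodule.finrank_map_le (D s) E.solSpace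
      rw [finrank_sol, ← hL] at a2
      omega
    rw [← sub_eq_zero]
    refine zero_of_initial hUinv hUrank ?_ ?_
    · apply Submodule.sub_mem
      · exact Submodule.mem_sup_left (Submodule.mem_map_of_mem hμV)
      · apply Submodule.mem_sup_right
        split_ifs
        · exact Submodule.mem_sup_left hμV
        · exact Submodule.sub_mem _ (Submodule.smul_mem _ _
            (Submodule.mem_sup_right (Submodule.mem_span_singleton_self _)))
            (Submodule.mem_sup_left hμV)
    · intro n hn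
      have h3 : s * (n + 1) ≤ s * (2 * L + 1) := Nat.mul_le_mul_left _ (by omega)
      have h4 : 1 ≤ s * (n + 1) := Nat.mul_pos h1 (Nat.succ_pos n)
      have h5 : n + 1 ≤ s * (n + 1) := Nat.le_mul_of_pos_left _ h1
      have e1 : s * (n + 1) - 1 + 1 = s * (n + 1) := by omega
      have h6 : μ (s * (n + 1) - 1) = if ε * lam (n + 1) = 1 then a else b := by
        rw [hμx _ (by omega), hxl, e1, hlam s (n + 1) h1 (by omega), hε]
      have h7 : μ n = if lam (n + 1) = 1 then a else b := by
        rw [hμx _ (by omega), hxl]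
      rw [Pi.sub_apply, D_apply, h6]
      rcases Int.units_eq_one_or ε with he | he <;> rcases Int.units_eq_one_or (lam (n + 1)) with hl | hl
      · rw [he, if_pos rfl, h7, hl]; simp
      · rw [he, if_pos rfl, h7, hl]; simp
      · rw [he, hl, if_neg (show ¬ (-1 * 1 : ℤˣ) = 1 by decide),
          if_neg (show ¬ (-1 : ℤˣ) = 1 by decide), Pi.sub_apply, h7, hl, if_pos rfl]
        simp
      · rw [he, hl, if_pos (show (-1 * -1 : ℤˣ) = 1 by decide),
          if_neg (show ¬ (-1 : ℤˣ) = 1 by decide), Pi.sub_apply, h7, hl,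
          if_neg (show ¬ (-1 : ℤˣ) = 1 by decide)]
        simp
  have hDW : ∀ s, 1 ≤ s → s ≤ 2 * L + 2 → W ≤ W.map (D s) := by
    intro s h1 h2
    have hone : (1 : ℕ → K) ∈ W.map (D s) := by
      rw [← D_one s]
      exact Submodule.mem_map_of_mem h1W
    have hinv := inv_map hWinv h1
    have hμm : μ ∈ W.map (D s) := by
      have h3 := hDμ s h1 h2 (lam s) rfl
      have h4 : D s μ ∈ W.map (D s) := Submodule.mem_map_of_mem hμW
      rw [h3] at h4
      split_ifs at h4 with h5
      · exact h4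
      · have h6 := Submodule.sub_mem _ (Submodule.smul_mem _ (a + b) hone) h4
        simpa using h6
    conv_lhs => rw [hW]
    refine sup_le (sp_le hinv hμm) ?_
    unfold cst
    rw [Submodule.span_le, Set.singleton_subset_iff]
    exact hone
  have hun := unipotent hWinv (y := 2 * L + 2) (by omega) (by omega) hDW μ hμW
  have hun2 : (dl ^ (L + 1)) μ = 0 := dl_zero_of_le (i := finrank K W) hun hWrank
  -- the degree
  have hN2 : 2 ≤ N := by nlinarith
  have hNL : 2 * L + 1 ≤ N := by nlinarith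
  have hμ0 : μ 0 = a := by
    have h1 : lam 1 = 1 := by
      have := hlam 1 1 le_rfl le_rfl
      rw [mul_one] at this
      exact mul_eq_left.1 this.symm
    rw [hμx 0 (by omega), hxl, Nat.zero_add, h1, if_pos rfl]
  have hμ1 : μ 1 = b := by
    rw [hμx 1 (by omega), hxl, hprime 2 Nat.prime_two, if_neg (by decide)]
  have hd1 : dl μ ≠ 0 := by
    intro h
    have := congrFun h 0
    rw [dl_apply, Nat.zero_add, hμ0, hμ1] at this
    exact hab (sub_eq_zero.1 this).symm
  have hex : ∃ i, (dl ^ i) μ = 0 := ⟨_, hun2⟩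
  obtain ⟨i0, hi0⟩ : ∃ i0, i0 = Nat.find hex := ⟨_, rfl⟩
  have hi0z : (dl ^ i0) μ = 0 := by rw [hi0]; exact Nat.find_spec hex
  have hi0L : i0 ≤ L + 1 := by rw [hi0]; exact Nat.find_min' hex hun2
  have hi02 : 2 ≤ i0 := by
    by_contra hcon
    exact hd1 (by simpa using dl_zero_of_le (j := 1) hi0z (by omega))
  obtain ⟨j, rfl⟩ : ∃ j, i0 = j + 1 := ⟨i0 - 1, by omega⟩
  have hj1 : 1 ≤ j := by omega
  have hjne : (dl ^ j) μ ≠ 0 := by
    intro h
    have := Nat.find_min hex (m := j) (by omega)
    exact this h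
  have hcc : dl ((dl ^ j) μ) = 0 := by rw [← dl_succ']; exact hi0z
  have hc0 : ((dl ^ j) μ) 0 ≠ 0 := by
    intro h
    apply hjne
    funext n
    rw [const_of_dl hcc n, h]
    rfl
  by_cases hchoose : (((2 * j).choose j : ℕ) : K) = 0
  · -- positive characteristic at most `2 j`
    obtain ⟨p, hp⟩ := CharP.exists K
    have hpd : p ∣ (2 * j).choose j := (CharP.cast_eq_zero_iff K p _).1 hchoose
    have hpos : 0 < (2 * j).choose j := Nat.choose_pos (by omega)
    have hpp : p.Prime := by
      rcases CharP.char_is_prime_or_zero K p with h | h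
      · exact h
      · rw [h] at hpd
        have := Nat.eq_zero_of_zero_dvd hpd
        omega
    have hple : p ≤ 2 * j := by
      have h1 : (2 * j).choose j ∣ (2 * j).factorial := by
        rw [← Nat.choose_mul_factorial_mul_factorial (show j ≤ 2 * j by omega), mul_assoc]
        exact Dvd.intro _ rfl
      exact hpp.dvd_factorial.1 (hpd.trans h1)
    have h2 := hDμ p hpp.one_lt.le (by omega) (-1) (hprime p hpp)
    rw [if_neg (by decide)] at h2
    have h3 := dl_D hpp.one_lt.le hi0z
    rw [h2, map_sub, map_smul, dl_one hj1, smul_zero, zero_sub, CharP.cast_eq_zero,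
      zero_pow (by omega), zero_smul] at h3
    exact hjne (neg_eq_zero.1 h3)
  · -- the product
    have hsq : (dl ^ (2 * j)) (μ * μ) = (((2 * j).choose j : ℕ) : K) • ((dl ^ j) μ * (dl ^ j) μ) :=
      leibniz (2 * j) j j (by ring) μ μ hi0z hi0z
    have hsq1 : (dl ^ (2 * j + 1)) (μ * μ) = 0 := by
      rw [dl_succ', hsq, map_smul]
      have : dl ((dl ^ j) μ * (dl ^ j) μ) = 0 := by
        have hc : dl ((dl ^ j) μ) = 0 := by rw [← dl_succ']; exact hi0z
        funext n
        rw [dl_apply, Pi.mul_apply, Pi.mul_apply, const_of_dl hc (n + 1), const_of_dl hc n, sub_self]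
        rfl
      rw [this, smul_zero]
    obtain ⟨e, he⟩ : ∃ e : ℕ → K, e = μ * μ - (a + b) • μ + (a * b) • (1 : ℕ → K) := ⟨_, rfl⟩
    have he0 : e = 0 := by
      apply dl_initial (2 * j + 1)
      · rw [he, map_add, map_sub, map_smul, map_smul, hsq1,
          dl_zero_of_le (j := 2 * j + 1) hi0z (by omega), dl_one (by omega)]
        simp
      · intro n hn
        have h1 : μ n = if lam (n + 1) = 1 then a else b := by
          rw [hμx n (by omega), hxl]
        rw [he]
        simp only [Pi.add_apply, Pi.sub_apply, Pi.mul_apply, Pi.smul_apply, Pi.one_apply, smul_eq_mul]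
        rw [h1]
        split_ifs <;> ring
    have h2 : (dl ^ (2 * j)) e = 0 := by rw [he0, map_zero]
    rw [he, map_add, map_sub, map_smul, map_smul, hsq, dl_zero_of_le (j := 2 * j) hi0z (by omega),
      dl_one (by omega)] at h2
    simp only [smul_zero, sub_zero, add_zero] at h2
    have h3 := congrFun h2 0
    rw [Pi.smul_apply, Pi.mul_apply, Pi.zero_apply, smul_eq_mul] at h3
    rcases mul_eq_zero.1 h3 with h4 | h4
    · exact hchoose h4
    · exact hc0 (mul_self_eq_zero.1 h4)

/-- **Completely multiplicative functions without zeros.** -/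
theorem classify [IsAlgClosed K] {f : ℕ → K}
    (hf : ∀ m n, 1 ≤ m → 1 ≤ n → f (m * n) = f m * f n) {N : ℕ} (hf0 : ∀ n, 1 ≤ n → n ≤ N → f n ≠ 0)
    (E : LinearRecurrence K) (hN : 2 * E.order * (E.order + 1) ≤ N)
    (hN1 : 1 ≤ N)
    (hx : ∀ n, 1 ≤ n → n + E.order ≤ N → f (n + E.order) = ∑ i, E.coeffs i * f (n + i)) :
    ∃ j, j < E.order ∧ ∀ n, 1 ≤ n → n ≤ N → f n = (n : K) ^ j := by
  classical
  obtain ⟨L, hL⟩ : ∃ L, L = E.order := ⟨_, rfl⟩
  rw [← hL] at hN ⊢
  have hf1 : f 1 = 1 := by
    have := hf 1 1 le_rfl le_rfl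
    rw [mul_one] at this
    exact (mul_eq_left₀ (hf0 1 le_rfl hN1)).1 this.symm
  obtain ⟨x, hxd⟩ : ∃ x : ℕ → K, x = fun n => f (n + 1) := ⟨_, rfl⟩
  have hxr : ∀ n, n + E.order < N → x (n + E.order) = ∑ i, E.coeffs i * x (n + i) := by
    intro n hn
    rw [hxd]
    have h1 := hx (n + 1) (by omega) (by omega)
    have e : n + E.order + 1 = n + 1 + E.order := by ring
    simp only [e]
    rw [h1]
    refine Finset.sum_congr rfl fun i _ => ?_
    congr 2
    ring
  obtain ⟨μ, hμ⟩ : ∃ μ, μ = E.mkSol (fun i => x i) := ⟨_, rfl⟩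
  have hμx : ∀ n, n < N → μ n = f (n + 1) := by
    intro n hn
    rw [hμ, mkSol_eq hxr n hn, hxd]
  have hμV : μ ∈ E.solSpace := by rw [hμ]; exact E.is_sol_mkSol _
  have hVinv : ∀ u ∈ E.solSpace, S u ∈ E.solSpace := fun u hu => S_mem_sol E hu
  have hL1 : 1 ≤ L := by
    by_contra hcon
    have h0 : E.order = 0 := by omega
    have h1 := hx 1 le_rfl (by omega)
    have h2 : ∑ i : Fin E.order, E.coeffs i * f (1 + i) = 0 := by
      apply Finset.sum_eq_zero
      intro i _
      have := i.2
      omega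
    rw [h2, h0, Nat.add_zero, hf1] at h1
    exact one_ne_zero h1
  obtain ⟨W, hW⟩ : ∃ W, W = sp μ := ⟨_, rfl⟩
  have hWinv : ∀ u ∈ W, S u ∈ W := by rw [hW]; exact sp_inv μ
  have hWV : W ≤ E.solSpace := by
    rw [hW]; exact sp_le hVinv hμV
  have hWfin : FiniteDimensional K W := Submodule.finiteDimensional_of_le hWV
  have hWrank : finrank K W ≤ L := by
    have := Submodule.finrank_mono hWV
    rwa [finrank_sol, ← hL] at this
  have hμW : μ ∈ W := by rw [hW]; exact self_mem_sp μ
  have hsN : ∀ s, s ≤ L + 1 → s * (2 * L) ≤ N := by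
    intro s hs
    calc s * (2 * L) ≤ (L + 1) * (2 * L) := Nat.mul_le_mul_right _ hs
      _ = 2 * L * (L + 1) := by ring
      _ ≤ N := hN
  have hDμ : ∀ s, 1 ≤ s → s ≤ L + 1 → D s μ = f s • μ := by
    intro s h1 h2
    have hUinv := inv_sup (inv_map hVinv h1) hVinv
    have hUrank : finrank K (E.solSpace.map (D s) ⊔ E.solSpace : Submodule K (ℕ → K)) ≤ 2 * L := by
      have a1 := Submodule.finrank_add_le_finrank_add_finrank (E.solSpace.map (D s)) E.solSpace
      have a2 := Submodule.finrank_map_le (D s) E.solSpace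
      rw [finrank_sol, ← hL] at a1 a2
      omega
    rw [← sub_eq_zero]
    refine zero_of_initial hUinv hUrank ?_ ?_
    · apply Submodule.sub_mem
      · exact Submodule.mem_sup_left (Submodule.mem_map_of_mem hμV)
      · exact Submodule.mem_sup_right (Submodule.smul_mem _ _ hμV)
    · intro n hn
      have h3 : s * (n + 1) ≤ s * (2 * L) := Nat.mul_le_mul_left _ (by omega)
      have h3' := hsN s h2
      have h4 : 1 ≤ s * (n + 1) := Nat.mul_pos h1 (Nat.succ_pos n)
      have h5 : n + 1 ≤ s * (n + 1) := Nat.le_mul_of_pos_left _ h1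
      have e1 : s * (n + 1) - 1 + 1 = s * (n + 1) := by omega
      rw [Pi.sub_apply, D_apply, Pi.smul_apply, smul_eq_mul, hμx _ (by omega), e1,
        hf s (n + 1) h1 (by omega), hμx n (by omega), sub_self]
  have hsle : ∀ s, s ≤ L + 1 → s ≤ N := by
    intro s hs
    have h1 := hsN s hs
    have h2 : s * 1 ≤ s * (2 * L) := Nat.mul_le_mul_left _ (by omega)
    omega
  have hDW : ∀ s, 1 ≤ s → s ≤ L + 1 → W ≤ W.map (D s) := by
    intro s h1 h2
    have hinv := inv_map hWinv h1
    have hμm : μ ∈ W.map (D s) := by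
      have h4 : D s μ ∈ W.map (D s) := Submodule.mem_map_of_mem hμW
      rw [hDμ s h1 h2] at h4
      have h5 := Submodule.smul_mem _ (f s)⁻¹ h4
      rwa [smul_smul, inv_mul_cancel₀ (hf0 s h1 (hsle s h2)), one_smul] at h5
    conv_lhs => rw [hW]
    exact sp_le hinv hμm
  have hun := unipotent hWinv (y := L + 1) (by omega) (by omega) hDW μ hμW
  have hun2 : (dl ^ L) μ = 0 := dl_zero_of_le (i := finrank K W) hun hWrank
  have hμ0 : μ 0 = 1 := by rw [hμx 0 (by omega)]; exact hf1
  have hex : ∃ i, (dl ^ i) μ = 0 := ⟨_, hun2⟩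
  obtain ⟨i0, hi0⟩ : ∃ i0, i0 = Nat.find hex := ⟨_, rfl⟩
  have hi0z : (dl ^ i0) μ = 0 := by rw [hi0]; exact Nat.find_spec hex
  have hi0L : i0 ≤ L := by rw [hi0]; exact Nat.find_min' hex hun2
  have hi01 : 1 ≤ i0 := by
    by_contra hcon
    have h0 : i0 = 0 := by omega
    rw [h0] at hi0z
    have := congrFun hi0z 0
    simp only [pow_zero, Module.End.one_apply, Pi.zero_apply] at this
    rw [hμ0] at this
    exact one_ne_zero this
  obtain ⟨j, rfl⟩ : ∃ j, i0 = j + 1 := ⟨i0 - 1, by omega⟩
  have hjne : (dl ^ j) μ ≠ 0 := by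
    intro h
    have := Nat.find_min hex (m := j) (by omega)
    exact this h
  have hcc : dl ((dl ^ j) μ) = 0 := by rw [← dl_succ']; exact hi0z
  have hc0 : ((dl ^ j) μ) 0 ≠ 0 := by
    intro h
    apply hjne
    funext n
    rw [const_of_dl hcc n, h]
    rfl
  have hfs : ∀ s, 1 ≤ s → s ≤ L + 1 → f s = (s : K) ^ j := by
    intro s h1 h2
    have h3 := dl_D h1 hi0z
    rw [hDμ s h1 h2, map_smul] at h3
    have h4 := congrFun h3 0
    simp only [Pi.smul_apply, smul_eq_mul] at h4
    exact mul_right_cancel₀ hc0 h4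
  -- the power function
  obtain ⟨g, hg⟩ : ∃ g : ℕ → K, g = fun n => ((n + 1 : ℕ) : K) ^ j := ⟨_, rfl⟩
  have hgd : ∀ i : ℕ, (dl ^ (i + 1)) (fun n : ℕ => ((n + 1 : ℕ) : K) ^ i) = 0 := by
    intro i
    induction i using Nat.strong_induction_on with
    | _ i ih =>
      rw [dl_succ]
      have h1 : dl (fun n : ℕ => ((n + 1 : ℕ) : K) ^ i) =
          ∑ k ∈ Finset.range i, ((i.choose k : ℕ) : K) • (fun n : ℕ => ((n + 1 : ℕ) : K) ^ k) := by
        funext n
        rw [dl_apply, Finset.sum_apply]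
        simp only [Pi.smul_apply, smul_eq_mul]
        have h2 : ((n + 1 + 1 : ℕ) : K) ^ i =
            ∑ k ∈ Finset.range (i + 1), ((n + 1 : ℕ) : K) ^ k * ((i.choose k : ℕ) : K) := by
          rw [Nat.cast_succ (n + 1), add_pow]
          refine Finset.sum_congr rfl fun k _ => ?_
          rw [one_pow, mul_one]
        rw [h2, Finset.sum_range_succ, Nat.choose_self, Nat.cast_one, mul_one, add_sub_cancel_right]
        exact Finset.sum_congr rfl fun k _ => mul_comm _ _
      rw [h1, map_sum]
      apply Finset.sum_eq_zero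
      intro k hk
      rw [Finset.mem_range] at hk
      rw [map_smul, dl_zero_of_le (ih k hk) (by omega), smul_zero]
  have hμg : μ - g = 0 := by
    apply dl_initial (j + 1)
    · rw [map_sub, hi0z, hg, hgd j, sub_zero]
    · intro n hn
      rw [Pi.sub_apply, hg, hμx n (by have := hsle (L + 1) le_rfl; omega),
        hfs (n + 1) (by omega) (by omega), sub_self]
  refine ⟨j, by omega, fun n hn1 hn2 => ?_⟩
  have h1 := congrFun hμg (n - 1)
  rw [Pi.sub_apply, Pi.zero_apply, sub_eq_zero, hμx _ (by omega), hg] at h1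
  have e : n - 1 + 1 = n := by omega
  simp only [e] at h1
  exact h1

end Pool.Agent.X3.LinMult
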