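import Mathlib
import Pool.Agent.X3.LinMult

/-!
# Linear recurrences and sequences which vanish on residue classes of many coprime moduli

A sequence which satisfies a linear recurrence of order `L`, is not eventually zero, and vanishes (from
some point on) on one residue class for each of `k` pairwise coprime moduli, satisfies `2 ^ k ≤ L`.
-/

set_option autoImplicit false

namespace Pool.Agent.X3.LinMult

open Module

variable {K : Type} [Field K]

/-- a solution which is eventually zero vanishes from the index `order` on -/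
lemma eventually_zero {E : LinearRecurrence K} {μ : ℕ → K} (hμ : μ ∈ E.solSpace) {t : ℕ}
    (ht : ∀ n, t ≤ n → μ n = 0) : ∀ n, E.order ≤ n → μ n = 0 := by
  have hinv : ∀ u ∈ E.solSpace, S u ∈ E.solSpace := fun u hu => S_mem_sol E hu
  obtain ⟨T, hT⟩ : ∃ T : Module.End K E.solSpace, T = S.restrict hinv := ⟨_, rfl⟩
  have hc : ∀ (i : ℕ) (w : E.solSpace), ((T ^ i) w : ℕ → K) = (S ^ i) (w : ℕ → K) := by
    intro i w
    rw [hT]
    exact coe_pow hinv i w
  have h1 : (⟨μ, hμ⟩ : E.solSpace) ∈ LinearMap.ker (T ^ t) := by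
    rw [LinearMap.mem_ker]
    apply Subtype.ext
    rw [hc]
    funext n
    rw [S_pow]
    exact ht _ (by omega)
  have h2 := Module.End.ker_pow_le_ker_pow_finrank T t h1
  rw [LinearMap.mem_ker, finrank_sol] at h2
  have h3 : (S ^ E.order) μ = 0 := by
    have := congrArg (Subtype.val) h2
    rw [hc] at this
    exact this
  intro n hn
  have h4 := congrFun h3 (n - E.order)
  rw [S_pow] at h4
  have e : n - E.order + E.order = n := by omega
  rw [e] at h4
  exact h4

/-- the restriction to a residue class -/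
def cls (a m : ℕ) : (ℕ → K) →ₗ[K] (ℕ → K) where
  toFun u t := u (a + m * t)
  map_add' _ _ := rfl
  map_smul' _ _ := rfl

lemma cls_apply (a m : ℕ) (u : ℕ → K) (t : ℕ) : cls a m u t = u (a + m * t) := rfl

/-- `order` zeros on a residue class -/
lemma zero_class {E : LinearRecurrence K} {μ : ℕ → K} (hμ : μ ∈ E.solSpace) {a m : ℕ}
    (h : ∀ t, t < E.order → μ (a + m * t) = 0) : ∀ t, μ (a + m * t) = 0 := by
  have hinv : ∀ u ∈ E.solSpace.map (cls a m), S u ∈ E.solSpace.map (cls a m) := by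
    intro u hu
    obtain ⟨v, hv, rfl⟩ := Submodule.mem_map.1 hu
    have e : S (cls a m v) = cls a m ((S ^ m) v) := by
      funext t
      rw [S_apply, cls_apply, cls_apply, S_pow]
      congr 1
      ring
    rw [e]
    exact Submodule.mem_map_of_mem (S_pow_mem (fun u hu => S_mem_sol E hu) hv m)
  have hrank : finrank K (E.solSpace.map (cls a m)) ≤ E.order := by
    have := Submodule.finrank_map_le (cls a m) E.solSpace
    rwa [finrank_sol] at this
  have h1 := zero_of_initial hinv hrank (u := cls a m μ) (Submodule.mem_map_of_mem hμ)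
    (fun n hn => by rw [cls_apply]; exact h n hn)
  intro t
  have := congrFun h1 t
  rw [cls_apply] at this
  exact this

/-- **Zeros on residue classes of coprime moduli.** -/
theorem zeros {E : LinearRecurrence K} {μ : ℕ → K} (hμ : μ ∈ E.solSpace) (P : Finset ℕ)
    (hP : ∀ m ∈ P, 1 ≤ m) (hcop : (P : Set ℕ).Pairwise Nat.Coprime) (a : ℕ → ℕ) (b : ℕ)
    (hz : ∀ m ∈ P, ∀ n, b ≤ n → n ≡ a m [MOD m] → μ n = 0)
    (hne : ∃ n, E.order ≤ n ∧ μ n ≠ 0) : 2 ^ P.card ≤ E.order := by
  classical
  obtain ⟨M, hM⟩ : ∃ M, M = ∏ m ∈ P, m := ⟨_, rfl⟩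
  -- a nonzero value far away
  obtain ⟨n₀, hn₀, hn₀'⟩ : ∃ n₀, b + M ≤ n₀ ∧ μ n₀ ≠ 0 := by
    by_contra hcon
    push Not at hcon
    obtain ⟨n, hn1, hn2⟩ := hne
    exact hn2 (eventually_zero hμ hcon n hn1)
  -- the residues; `n₀ + m * a m - a m` stands for `n₀ - a m`
  obtain ⟨ρ, hρ⟩ : ∃ ρ : Finset ℕ → ℕ → ℕ, ρ = fun A m => if m ∈ A then 0 else n₀ + m * a m - a m :=
    ⟨_, rfl⟩
  have hsub : ∀ m ∈ P, a m ≤ n₀ + m * a m := by
    intro m hm
    have := Nat.le_mul_of_pos_left (a m) (hP m hm)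
    omega
  have hne0 : ∀ i ∈ P, (fun m : ℕ => m) i ≠ 0 := fun i hi => by
    have := hP i hi
    simp only
    omega
  have hr : ∀ A : Finset ℕ, ∃ r, r < M ∧ ∀ m ∈ P, r ≡ ρ A m [MOD m] := by
    intro A
    refine ⟨Nat.chineseRemainderOfFinset (ρ A) (fun m => m) P hne0 hcop, ?_, ?_⟩
    · rw [hM]
      exact Nat.chineseRemainderOfFinset_lt_prod (ρ A) (fun m => m) hne0 hcop
    · exact (Nat.chineseRemainderOfFinset (ρ A) (fun m => m) P hne0 hcop).2
  choose r hr1 hr2 using hr
  -- zeros of the matrix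
  have hzero : ∀ A B : Finset ℕ, (∃ m ∈ P, m ∈ A ∧ m ∉ B) → μ (r A + (n₀ - r B)) = 0 := by
    intro A B ⟨m, hm, hmA, hmB⟩
    have h1 := hr2 A m hm
    have h2 := hr2 B m hm
    rw [hρ] at h1 h2
    simp only [hmA, hmB, if_true, if_false] at h1 h2
    refine hz m hm _ ?_ ?_
    · have := hr1 B
      omega
    · have h3 : r B ≤ n₀ := by have := hr1 B; omega
      have h4 : (n₀ - r B) + r B ≡ a m + r B [MOD m] := by
        rw [Nat.sub_add_cancel h3]
        have h5 : a m + r B ≡ a m + (n₀ + m * a m - a m) [MOD m] := Nat.ModEq.add_left _ h2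
        have h6 : a m + (n₀ + m * a m - a m) = n₀ + m * a m := by
          have := hsub m hm
          omega
        rw [h6] at h5
        have h7 : n₀ + m * a m ≡ n₀ [MOD m] := by
          unfold Nat.ModEq
          rw [Nat.add_mul_mod_self_left]
        exact (h5.trans h7).symm
      have h8 : n₀ - r B ≡ a m [MOD m] := Nat.ModEq.add_right_cancel' _ h4
      have h9 : r A + (n₀ - r B) ≡ 0 + a m [MOD m] := Nat.ModEq.add h1 h8
      rwa [zero_add] at h9
  -- linear independence of the shifts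
  obtain ⟨v, hv⟩ : ∃ v : P.powerset → E.solSpace, v = fun A =>
      ⟨(S ^ r A) μ, S_pow_mem (fun u hu => S_mem_sol E hu) hμ _⟩ := ⟨_, rfl⟩
  have hlin : LinearIndependent K v := by
    rw [Fintype.linearIndependent_iff]
    intro g hg
    by_contra hcon
    push Not at hcon
    obtain ⟨A₁, hA₁⟩ := hcon
    obtain ⟨A₀, hA₀, hmin⟩ := Finset.exists_min_image (Finset.univ.filter fun A => g A ≠ 0)
      (fun A : P.powerset => (A : Finset ℕ).card) ⟨A₁, by simpa using hA₁⟩
    rw [Finset.mem_filter] at hA₀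
    have h1 : ∑ A : P.powerset, g A * μ (r A + (n₀ - r A₀)) = 0 := by
      have h2 := congrArg (fun w : E.solSpace => (w : ℕ → K) (n₀ - r A₀)) hg
      simp only [AddSubmonoidClass.coe_finsetSum, Submodule.coe_smul, Finset.sum_apply,
        Pi.smul_apply, smul_eq_mul, ZeroMemClass.coe_zero, Pi.zero_apply] at h2
      rw [← h2]
      refine Finset.sum_congr rfl fun A _ => ?_
      rw [hv]
      simp only
      rw [S_pow, add_comm]
    rw [Finset.sum_eq_single A₀] at h1
    · have h3 : r A₀ + (n₀ - r A₀) = n₀ := by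
        have := hr1 A₀
        omega
      rw [h3] at h1
      rcases mul_eq_zero.1 h1 with h | h
      · exact hA₀.2 h
      · exact hn₀' h
    · intro A _ hAne
      by_cases hgA : g A = 0
      · rw [hgA, zero_mul]
      · have hcard := hmin A (by simpa using hgA)
        have hex : ∃ m ∈ P, m ∈ (A : Finset ℕ) ∧ m ∉ (A₀ : Finset ℕ) := by
          by_contra hc
          push Not at hc
          have hsubset : (A : Finset ℕ) ⊆ A₀ := fun m hm =>
            hc m (Finset.mem_powerset.1 A.2 hm) hm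
          exact hAne (Subtype.ext (Finset.eq_of_subset_of_card_le hsubset hcard))
        rw [hzero A A₀ hex, mul_zero]
    · intro h
      exact absurd (Finset.mem_univ _) h
  have h1 := hlin.fintype_card_le_finrank
  rw [finrank_sol, Fintype.card_coe, Finset.card_powerset] at h1
  exact h1

/-- the version for finite words -/
theorem window {x : ℕ → K} {N : ℕ} {E : LinearRecurrence K}
    (hx : ∀ n, n + E.order < N → x (n + E.order) = ∑ i, E.coeffs i * x (n + i)) (P : Finset ℕ)
    (hP : ∀ m ∈ P, 1 ≤ m) (hcop : (P : Set ℕ).Pairwise Nat.Coprime) (a : ℕ → ℕ)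
    (ha : ∀ m ∈ P, ∀ t, t < E.order → a m + m * t < N ∧ x (a m + m * t) = 0)
    (hne : ∃ n, E.order ≤ n ∧ n < N ∧ x n ≠ 0) : 2 ^ P.card ≤ E.order := by
  classical
  obtain ⟨μ, hμ⟩ : ∃ μ, μ = E.mkSol (fun i => x i) := ⟨_, rfl⟩
  have hμx : ∀ n, n < N → μ n = x n := by rw [hμ]; exact mkSol_eq hx
  have hμV : μ ∈ E.solSpace := by rw [hμ]; exact E.is_sol_mkSol _
  obtain ⟨n, hn1, hn2, hn3⟩ := hne
  refine zeros hμV P hP hcop a (∑ m ∈ P, a m) ?_ ⟨n, hn1, by rwa [hμx n hn2]⟩
  intro m hm n hn hmod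
  have h1 : a m ≤ n := le_trans (Finset.single_le_sum (fun _ _ => Nat.zero_le _) hm) hn
  have h2 : m ∣ n - a m := (Nat.modEq_iff_dvd' h1).1 hmod.symm
  obtain ⟨t, ht⟩ := h2
  have h3 : n = a m + m * t := by omega
  rw [h3]
  exact zero_class hμV (fun t ht => by
    obtain ⟨h4, h5⟩ := ha m hm t ht
    rw [hμx _ h4, h5]) t

end Pool.Agent.X3.LinMult
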