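import Mathlib
import Pool.Agent.X3.LinZero

/-!
# Near-linear linear complexity from zeros on residue classes: numerics, twin primes
-/

set_option autoImplicit false

namespace Pool.Agent.X3.LinMult

lemma log_le_sqrt' {y : ℝ} (hy : 0 < y) : Real.log y ≤ Real.sqrt y := by
  have h1 : Real.log y = 2 * Real.log (Real.sqrt y) := by
    rw [Real.log_sqrt hy.le]; ring
  have h2 : Real.log (Real.sqrt y / 2) ≤ Real.sqrt y / 2 - 1 :=
    Real.log_le_sub_one_of_pos (by positivity)
  rw [Real.log_div (by positivity) (by norm_num)] at h2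
  have h3 := Real.log_two_lt_d9
  linarith

/-- few primes: a bound for `y` -/
lemma y_le {y : ℕ} {ℓ : ℝ} (hℓ : 2 ≤ ℓ) (h : (Nat.primeCounting y : ℝ) * Real.log 2 ≤ ℓ) :
    (y : ℝ) ≤ 8 * ℓ * Real.log (4 * ℓ) := by
  have hlog8 : 2 ≤ Real.log (4 * ℓ) := by
    have h1 : Real.log 8 ≤ Real.log (4 * ℓ) := Real.log_le_log (by norm_num) (by linarith)
    have h2 : Real.log 8 = 3 * Real.log 2 := by
      rw [show (8 : ℝ) = 2 ^ 3 by norm_num, Real.log_pow]; norm_num
    have := Real.log_two_gt_d9
    linarith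
  rcases Nat.lt_or_ge y 8 with hy | hy
  · have : (y : ℝ) ≤ 8 := by exact_mod_cast hy.le
    nlinarith
  · have hyR : (8 : ℝ) ≤ y := by exact_mod_cast hy
    have hly : 0 < Real.log y := Real.log_pos (by linarith)
    have h1 := Chebyshev.pi_ge y
    rw [div_le_iff₀ hly] at h1
    have h2 : Real.log (y + 1) ≤ 0.28 * y := by
      -- `log (y + 1) ≤ log 9 + (y + 1) / 9 - 1`
      have h3 : Real.log ((y + 1) / 9) ≤ ((y : ℝ) + 1) / 9 - 1 :=
        Real.log_le_sub_one_of_pos (by positivity)
      rw [Real.log_div (by positivity) (by norm_num)] at h3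
      have h4 : Real.log 9 ≤ 2.22 := by
        have h5 : (9 : ℝ) ^ 5 ≤ 2 ^ 16 := by norm_num
        have h6 := Real.log_le_log (by positivity) h5
        rw [Real.log_pow, Real.log_pow] at h6
        push_cast at h6
        have := Real.log_two_lt_d9
        linarith
      linarith
    have l2 := Real.log_two_gt_d9
    have l2' := Real.log_two_lt_d9
    -- `0.4 y ≤ π log y`
    have h5 : 0.4 * (y : ℝ) ≤ Nat.primeCounting y * Real.log y := by nlinarith
    have h6 : 0.4 * (y : ℝ) * Real.log 2 ≤ ℓ * Real.log y := by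
      have := mul_le_mul_of_nonneg_right h5 (show 0 ≤ Real.log 2 by linarith)
      have h7 := mul_le_mul_of_nonneg_right h hly.le
      linarith
    have h8 : (y : ℝ) ≤ 4 * ℓ * Real.log y := by nlinarith
    have hs0 : 0 < Real.sqrt y := Real.sqrt_pos.2 (by linarith)
    have hss : Real.sqrt y * Real.sqrt y = y := Real.mul_self_sqrt (by linarith)
    have h9 := log_le_sqrt' (show (0 : ℝ) < y by linarith)
    have h10 : Real.sqrt y ≤ 4 * ℓ := by
      have h11 : Real.sqrt y * Real.sqrt y ≤ 4 * ℓ * Real.sqrt y := by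
        rw [hss]
        exact h8.trans (mul_le_mul_of_nonneg_left h9 (by linarith))
      exact le_of_mul_le_mul_right h11 hs0
    have h12 : Real.log y ≤ 2 * Real.log (4 * ℓ) := by
      have h13 := Real.log_le_log hs0 h10
      rw [Real.log_sqrt (by linarith)] at h13
      linarith
    calc (y : ℝ) ≤ 4 * ℓ * Real.log y := h8
      _ ≤ 4 * ℓ * (2 * Real.log (4 * ℓ)) := mul_le_mul_of_nonneg_left h12 (by linarith)
      _ = _ := by ring

/-- the numerical consequence -/
lemma num_lin {N L : ℕ} (hN : 16 ≤ N) (hL : 1 ≤ L) (hLN : L ≤ N)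
    (h : 2 ^ Nat.primeCounting (N / (L + 1)) ≤ 4 * L) :
    (N : ℝ) / (100 * Real.log N * Real.log (Real.log N)) ≤ L := by
  have hNR : (16 : ℝ) ≤ N := by exact_mod_cast hN
  have hN0 : (0 : ℝ) < N := by linarith
  have l2 := Real.log_two_gt_d9
  have l2' := Real.log_two_lt_d9
  have hlogN : 2.7 ≤ Real.log N := by
    have h1 : Real.log 16 ≤ Real.log N := Real.log_le_log (by norm_num) hNR
    have h2 : Real.log 16 = 4 * Real.log 2 := by
      rw [show (16 : ℝ) = 2 ^ 4 by norm_num, Real.log_pow]; norm_num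
    linarith
  have hlogN2 : 2.77 ≤ Real.log N := by
    have h1 : Real.log 16 ≤ Real.log N := Real.log_le_log (by norm_num) hNR
    have h2 : Real.log 16 = 4 * Real.log 2 := by
      rw [show (16 : ℝ) = 2 ^ 4 by norm_num, Real.log_pow]; norm_num
    linarith
  have hll : 1 ≤ Real.log (Real.log N) := by
    have h1 : Real.log (Real.exp 1) ≤ Real.log (Real.log N) := by
      apply Real.log_le_log (Real.exp_pos _)
      have := Real.exp_one_lt_d9
      linarith
    rwa [Real.log_exp] at h1
  obtain ⟨ℓ, hℓ⟩ : ∃ ℓ, ℓ = Real.log (4 * N) := ⟨_, rfl⟩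
  have hℓ1 : ℓ = 2 * Real.log 2 + Real.log N := by
    rw [hℓ, Real.log_mul (by norm_num) (by linarith)]
    rw [show (4 : ℝ) = 2 ^ 2 by norm_num, Real.log_pow]
    norm_num
  have hℓ2 : ℓ ≤ 1.51 * Real.log N := by linarith
  have hy : (Nat.primeCounting (N / (L + 1)) : ℝ) * Real.log 2 ≤ ℓ := by
    have h1 : ((2 : ℝ)) ^ Nat.primeCounting (N / (L + 1)) ≤ 4 * N := by
      have h2 : 2 ^ Nat.primeCounting (N / (L + 1)) ≤ 4 * N := by omega
      exact_mod_cast h2
    have h3 := Real.log_le_log (by positivity) h1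
    rw [Real.log_pow] at h3
    rwa [hℓ]
  have h1 := y_le (by linarith) hy
  have h2 : Real.log (4 * ℓ) ≤ 2.85 * Real.log (Real.log N) := by
    have h3 : Real.log (4 * ℓ) ≤ Real.log (6.04 * Real.log N) :=
      Real.log_le_log (by linarith) (by linarith)
    have e3 : Real.log (6.04 * Real.log N) = Real.log 6.04 + Real.log (Real.log N) :=
      Real.log_mul (by norm_num) (ne_of_gt (by linarith))
    rw [e3] at h3
    have h4 : Real.log 6.04 ≤ 1.81 := by
      have h5 : (6.04 : ℝ) ^ 5 ≤ 2 ^ 13 := by norm_num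
      have h6 := Real.log_le_log (by positivity) h5
      rw [Real.log_pow, Real.log_pow] at h6
      push_cast at h6
      linarith
    linarith
  have hll0 : 0 ≤ Real.log (Real.log N) := by linarith
  have h5 : ((N / (L + 1) : ℕ) : ℝ) + 1 ≤ 35 * (Real.log N * Real.log (Real.log N)) := by
    have h6 : 8 * ℓ * Real.log (4 * ℓ) ≤ 8 * (1.51 * Real.log N) * (2.85 * Real.log (Real.log N)) := by
      apply mul_le_mul _ h2 (Real.log_nonneg (by linarith)) (by positivity)
      linarith
    have h7 : 1 ≤ 0.5 * (Real.log N * Real.log (Real.log N)) := by nlinarith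
    nlinarith
  have h6 : (N : ℝ) < (L + 1) * ((N / (L + 1) : ℕ) + 1) := by
    have : N < (L + 1) * (N / (L + 1) + 1) := Nat.lt_mul_div_succ N (by omega)
    exact_mod_cast this
  have hLR : (1 : ℝ) ≤ L := by exact_mod_cast hL
  have hprod : 0 < Real.log N * Real.log (Real.log N) := by positivity
  rw [div_le_iff₀ (by positivity)]
  have h8 : ((L : ℝ) + 1) * ((N / (L + 1) : ℕ) + 1) ≤
      (2 * L) * (35 * (Real.log N * Real.log (Real.log N))) := by
    apply mul_le_mul (by linarith) h5 (by positivity) (by positivity)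
  nlinarith

/-- the word `x 1, …, x N` satisfies a linear recurrence of order `L` with coefficients in `F` -/
def Recurrent {F : Type} [Field F] (x : ℕ → F) (N L : ℕ) : Prop :=
  ∃ c : Fin L → F, ∀ n, 1 ≤ n → n + L ≤ N → x (n + L) = ∑ i : Fin L, c i * x (n + i)

/-- zeros on residue classes, for words with indices from `1` on -/
theorem window_one {F : Type} [Field F] {x : ℕ → F} {N L : ℕ} (h : Recurrent x N L) (P : Finset ℕ)
    (hP : ∀ m ∈ P, 1 ≤ m) (hcop : (P : Set ℕ).Pairwise Nat.Coprime) (a : ℕ → ℕ)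
    (ha : ∀ m ∈ P, 1 ≤ a m ∧ ∀ t, t < L → a m + m * t ≤ N ∧ x (a m + m * t) = 0)
    (hne : ∃ n, L < n ∧ n ≤ N ∧ x n ≠ 0) : 2 ^ P.card ≤ L := by
  obtain ⟨c, hc⟩ := h
  obtain ⟨n, hn1, hn2, hn3⟩ := hne
  refine window (x := fun n => x (n + 1)) (N := N) (E := ⟨L, c⟩) ?_ P hP hcop (fun m => a m - 1) ?_ ?_
  · intro k hk
    have h1 := hc (k + 1) (by omega) (by simp only at hk; omega)
    have e : k + 1 + L = k + L + 1 := by ring
    rw [e] at h1
    rw [h1]
    refine Finset.sum_congr rfl fun i _ => ?_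
    congr 2
    ring
  · intro m hm t ht
    obtain ⟨h1, h2⟩ := ha m hm
    obtain ⟨h3, h4⟩ := h2 t ht
    have e : a m - 1 + m * t + 1 = a m + m * t := by omega
    refine ⟨by omega, ?_⟩
    rw [e]
    exact h4
  · refine ⟨n - 1, by simp only; omega, by omega, ?_⟩
    have e : n - 1 + 1 = n := by omega
    rw [e]
    exact hn3

end Pool.Agent.X3.LinMult
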