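import Mathlib
import Pool.Agent.X3.NfaAP
import Pool.Agent.X3.LinNum2
import Pool.Agent.TH915.UC.PAP

/-!
# Squarefree numbers and small automata
-/

set_option autoImplicit false

namespace Pool.Agent.X3.NfaSqfree

open Finset Filter Pool.Agent.X3.NfaWords Pool.Agent.X3.NfaSidon

theorem counting : ∀ᶠ y : ℕ in atTop, (y : ℝ) / (2 * Real.log y) ≤ Nat.primeCounting y := by
  have h1 := Pool.Agent.TH915.UC.primes_ap_lower 1 0 (by omega) (by norm_num)
  have h2 := tendsto_natCast_atTop_atTop (R := ℝ) |>.eventually h1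
  filter_upwards [h2] with y hy
  rw [Nat.floor_natCast] at hy
  have e : ((Finset.Icc 1 y).filter fun p => p.Prime ∧ p ≡ 0 [MOD 1]).card = Nat.primeCounting y := by
    rw [Nat.primeCounting, Nat.primeCounting', Nat.count_eq_card_filter_range]
    congr 1
    ext p
    simp only [Finset.mem_filter, Finset.mem_Icc, Finset.mem_range]
    constructor
    · rintro ⟨h3, h4, -⟩
      exact ⟨by omega, h4⟩
    · rintro ⟨h3, h4⟩
      exact ⟨⟨h4.pos, by omega⟩, h4, Nat.modEq_one⟩
  rw [e] at hy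
  simpa using hy

/-- a small prime which does not divide `s` -/
theorem exists_prime_not_dvd {s P : ℕ} (hs : 1 ≤ s) (hP : s < 2 ^ Nat.primeCounting P) :
    ∃ p, p.Prime ∧ p ≤ P ∧ ¬ p ∣ s := by
  by_contra hcon
  push Not at hcon
  have h1 : ∏ p ∈ (range (P + 1)).filter Nat.Prime, p ∣ s := by
    apply Finset.prod_primes_dvd
    · intro p hp
      exact (mem_filter.1 hp).2.prime
    · intro p hp
      rw [mem_filter, mem_range] at hp
      exact hcon p hp.2 (by omega)
  have h2 : 2 ^ Nat.primeCounting P ≤ ∏ p ∈ (range (P + 1)).filter Nat.Prime, p := by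
    have h3 : Nat.primeCounting P = ((range (P + 1)).filter Nat.Prime).card := by
      rw [Nat.primeCounting, Nat.primeCounting', Nat.count_eq_card_filter_range]
    rw [h3]
    apply Finset.pow_card_le_prod
    intro p hp
    exact (mem_filter.1 hp).2.two_le
  have h3 := Nat.le_of_dvd hs h1
  omega

/-- an arithmetic progression of numbers one of which is divisible by `p ^ 2` -/
theorem ap_square {p s e : ℕ} (hp : p.Prime) (hps : ¬ p ∣ s) (he : (p ^ 2 - 1) * s ≤ e) :
    ∃ i, i ≤ p ^ 2 - 1 ∧ p * p ∣ e + 1 - i * s := by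
  have hp2 : 0 < p ^ 2 := by have := hp.pos; positivity
  have : NeZero (p ^ 2) := ⟨hp2.ne'⟩
  have hcop : Nat.Coprime s (p ^ 2) := by
    apply Nat.Coprime.pow_right
    exact ((Nat.Prime.coprime_iff_not_dvd hp).2 hps).symm
  obtain ⟨i, hi⟩ : ∃ i, i = (((e + 1 : ℕ) : ZMod (p ^ 2)) * ((s : ZMod (p ^ 2))⁻¹)).val := ⟨_, rfl⟩
  have hi1 : i < p ^ 2 := by rw [hi]; exact ZMod.val_lt _
  refine ⟨i, by omega, ?_⟩
  have h1 : i * s ≤ e := le_trans (Nat.mul_le_mul_right s (by omega)) he
  have h2 : ((e + 1 - i * s : ℕ) : ZMod (p ^ 2)) = 0 := by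
    rw [Nat.cast_sub (by omega)]
    push_cast
    have h3 : (i : ZMod (p ^ 2)) = ((e + 1 : ℕ) : ZMod (p ^ 2)) * ((s : ZMod (p ^ 2))⁻¹) := by
      rw [hi, ZMod.natCast_zmod_val]
    rw [h3, mul_assoc, mul_comm ((s : ZMod (p ^ 2))⁻¹) _, ZMod.coe_mul_inv_eq_one s hcop]
    push_cast
    ring
  rw [← sq]
  exact (ZMod.natCast_eq_zero_iff _ _).1 h2

lemma inv_sq_sum : ∀ n : ℕ, 2 ≤ n → ∑ d ∈ Icc 2 n, (1 : ℝ) / (d : ℝ) ^ 2 ≤ 3 / 4 - 1 / n := by
  intro n hn
  induction n, hn using Nat.le_induction with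
  | base => norm_num
  | succ n hn ih =>
    rw [Finset.sum_Icc_succ_top (by omega)]
    have hnR : (2 : ℝ) ≤ n := by exact_mod_cast hn
    have h1 : (1 : ℝ) / ((n + 1 : ℕ) : ℝ) ^ 2 ≤ 1 / n - 1 / ((n + 1 : ℕ) : ℝ) := by
      push_cast
      rw [div_sub_div _ _ (by linarith) (by linarith), div_le_div_iff₀ (by positivity) (by positivity)]
      nlinarith
    linarith

/-- at least a quarter of the numbers are squarefree -/
theorem squarefree_count (N : ℕ) :
    (N : ℝ) / 4 ≤ (below {i | Squarefree (i + 1)} N).card := by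
  classical
  obtain ⟨S, hS⟩ : ∃ S, S = (range N).filter fun i => ¬ Squarefree (i + 1) := ⟨_, rfl⟩
  have h1 : (below {i | Squarefree (i + 1)} N).card + S.card = N := by
    have h2 : below {i | Squarefree (i + 1)} N = (range N).filter fun i => Squarefree (i + 1) := by
      ext i
      rw [mem_below, mem_filter, mem_range, Set.mem_ofPred_eq]
    rw [h2, hS, card_filter_add_card_filter_not, card_range]
  have h2 : (S.card : ℝ) ≤ 3 / 4 * N := by
    have h3 : S ⊆ (Icc 2 N).biUnion fun d => (range N).filter fun i => d * d ∣ i + 1 := by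
      intro i hi
      rw [hS, mem_filter, mem_range] at hi
      obtain ⟨hi1, hi2⟩ := hi
      rw [Nat.squarefree_iff_prime_squarefree] at hi2
      push Not at hi2
      obtain ⟨p, hp, hpd⟩ := hi2
      rw [mem_biUnion]
      refine ⟨p, mem_Icc.2 ⟨hp.two_le, ?_⟩, mem_filter.2 ⟨mem_range.2 hi1, hpd⟩⟩
      have h4 := Nat.le_of_dvd (by omega) hpd
      have h5 : p * 1 ≤ p * p := Nat.mul_le_mul_left _ hp.pos
      omega
    have h4 := card_le_card h3
    have h5 := h4.trans card_biUnion_le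
    have h6 : ∀ d ∈ Icc 2 N, (((range N).filter fun i => d * d ∣ i + 1).card : ℝ) ≤
        N * (1 / (d : ℝ) ^ 2) := by
      intro d hd
      rw [mem_Icc] at hd
      have hdR : (0 : ℝ) < d := by
        have : 0 < d := by omega
        exact_mod_cast this
      have h7 : ((range N).filter fun i => d * d ∣ i + 1).card = N / (d * d) := by
        rw [← Nat.card_multiples N (d * d)]
      rw [h7]
      have h8 : ((N / (d * d) : ℕ) : ℝ) ≤ (N : ℝ) / ((d * d : ℕ) : ℝ) := Nat.cast_div_le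
      refine h8.trans (le_of_eq ?_)
      push_cast
      field_simp
    have h7 : (S.card : ℝ) ≤ ∑ d ∈ Icc 2 N, (N : ℝ) * (1 / (d : ℝ) ^ 2) := by
      calc (S.card : ℝ) ≤ ((∑ d ∈ Icc 2 N, ((range N).filter fun i => d * d ∣ i + 1).card : ℕ) : ℝ) := by
            exact_mod_cast h5
        _ = ∑ d ∈ Icc 2 N, (((range N).filter fun i => d * d ∣ i + 1).card : ℝ) := by push_cast; rfl
        _ ≤ _ := sum_le_sum h6
    refine h7.trans ?_
    rw [← mul_sum, mul_comm]
    refine mul_le_mul_of_nonneg_right ?_ (Nat.cast_nonneg _)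
    rcases Nat.lt_or_ge N 2 with h | h
    · rw [Icc_eq_empty (by omega), sum_empty]
      norm_num
    · have := inv_sq_sum N h
      have h8 : (0 : ℝ) ≤ 1 / N := by positivity
      linarith
  have h3 : ((below {i | Squarefree (i + 1)} N).card : ℝ) + S.card = N := by exact_mod_cast h1
  linarith

/-- **The main bound.** -/
theorem main : ∃ c : ℝ, 0 < c ∧ c ≤ 1 ∧ ∀ (α σ : Type) [Fintype σ] (M : NFA α σ) (N : ℕ) (x z : ℕ → α),
    16 ≤ N → (∀ i j, z i = z j → (Squarefree (i + 1) ↔ Squarefree (j + 1))) →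
    seg x 0 N ∈ M.accepts → ∀ (h k : ℕ) (E : Finset ℕ), E.card ≤ k →
    (∀ i, i < N → i ∉ E → x i = z i) →
    (∀ W : Finset (List α), (∀ w ∈ W, w.length = N ∧ w ∈ M.accepts) → W.card ≤ 2 ^ h) →
    c * N / (Fintype.card σ * (Real.log N * Real.log (Real.log N)) ^ 2) ≤ h + k + Real.log N := by
  classical
  obtain ⟨C, hC, hcnt⟩ := Pool.Agent.X3.LinMult.cnt_bound (D := 2) (by norm_num)
    (cnt := Nat.primeCounting) counting
  refine ⟨1 / (2304 * C ^ 2), by positivity, ?_, ?_⟩
  · rw [div_le_one (by positivity)]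
    nlinarith
  intro α σ _ M N x z hN hz hacc h k E hE hxz hW
  obtain ⟨q, hq⟩ : ∃ q, q = Fintype.card σ := ⟨_, rfl⟩
  rw [← hq]
  have hNR : (16 : ℝ) ≤ N := by exact_mod_cast hN
  have l2 := Real.log_two_gt_d9
  have l2' := Real.log_two_lt_d9
  have hlogN : 2.77 ≤ Real.log N := by
    have h1 : Real.log 16 ≤ Real.log N := Real.log_le_log (by norm_num) hNR
    have h2 : Real.log 16 = 4 * Real.log 2 := by
      rw [show (16 : ℝ) = 2 ^ 4 by norm_num, Real.log_pow]; norm_num
    linarith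
  have hll : 1 ≤ Real.log (Real.log N) := by
    have h1 : Real.log (Real.exp 1) ≤ Real.log (Real.log N) := by
      apply Real.log_le_log (Real.exp_pos _)
      have := Real.exp_one_lt_d9
      linarith
    rwa [Real.log_exp] at h1
  obtain ⟨Λ, hΛ⟩ : ∃ Λ, Λ = Real.log N * Real.log (Real.log N) := ⟨_, rfl⟩
  have hΛ2 : 2 ≤ Λ := by rw [hΛ]; nlinarith
  rw [← hΛ]
  have hq1 : 1 ≤ q := by
    have hacc2 := hacc
    rw [NFA.accepts_iff_exists_path] at hacc2
    obtain ⟨s, -⟩ := hacc2
    rw [hq]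
    exact Fintype.card_pos_iff.2 ⟨s⟩
  have hq1R : (1 : ℝ) ≤ q := by exact_mod_cast hq1
  have hhk : (0 : ℝ) ≤ (h : ℝ) + k := by positivity
  rcases Nat.lt_or_ge N q with hqN | hqN
  · have hqNR : (N : ℝ) ≤ q := by exact_mod_cast hqN.le
    have h1 : 1 / (2304 * C ^ 2) * N / (q * Λ ^ 2) ≤ 1 := by
      rw [div_le_one (by positivity)]
      have h2 : 1 / (2304 * C ^ 2) ≤ 1 := by
        rw [div_le_one (by positivity)]
        nlinarith
      have h3 : (1 : ℝ) ≤ Λ ^ 2 := by nlinarith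
      calc 1 / (2304 * C ^ 2) * N ≤ 1 * N := mul_le_mul_of_nonneg_right h2 (by positivity)
        _ = N * 1 := by ring
        _ ≤ q * Λ ^ 2 := mul_le_mul hqNR h3 (by norm_num) (by positivity)
    linarith
  -- the bound for the primes
  have hex : ∃ P, N ^ 2 < 2 ^ Nat.primeCounting P := by
    have h1 := Nat.tendsto_primeCounting.eventually (eventually_ge_atTop (N ^ 2))
    obtain ⟨P, hP⟩ := h1.exists
    exact ⟨P, lt_of_le_of_lt hP Nat.lt_two_pow_self⟩
  obtain ⟨P, hP⟩ : ∃ P, P = Nat.find hex := ⟨_, rfl⟩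
  have hP1 : N ^ 2 < 2 ^ Nat.primeCounting P := by rw [hP]; exact Nat.find_spec hex
  have hP0 : 1 ≤ P := by
    by_contra hcon
    have : P = 0 := by omega
    rw [this] at hP1
    simp at hP1
    omega
  have hP2 : 2 ^ Nat.primeCounting (P - 1) ≤ N ^ 2 := by
    have := Nat.find_min hex (m := P - 1) (by omega)
    omega
  have hPR : (P : ℝ) ≤ 4 * C * Λ := by
    have h1 := hcnt (N ^ 2) (P - 1) (by nlinarith) hP2
    have h2 : (((P - 1 : ℕ) : ℝ)) + 1 = P := by
      rw [Nat.cast_sub hP0]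
      push_cast
      ring
    rw [h2] at h1
    refine h1.trans ?_
    have h3 : Real.log ((N ^ 2 : ℕ) : ℝ) = 2 * Real.log N := by
      push_cast
      rw [Real.log_pow]
      push_cast
      ring
    rw [h3, Real.log_mul (by norm_num) (by positivity)]
    have h4 : Real.log 2 + Real.log (Real.log N) ≤ 2 * Real.log (Real.log N) := by linarith
    have h5 : 2 * Real.log N * (Real.log 2 + Real.log (Real.log N)) ≤
        2 * Real.log N * (2 * Real.log (Real.log N)) :=
      mul_le_mul_of_nonneg_left h4 (by positivity)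
    calc C * (2 * Real.log N * (Real.log 2 + Real.log (Real.log N))) ≤
        C * (2 * Real.log N * (2 * Real.log (Real.log N))) :=
          mul_le_mul_of_nonneg_left h5 (by positivity)
      _ = 4 * C * Λ := by rw [hΛ]; ring
  have hb := Pool.Agent.X3.NfaAP.bound M {i | Squarefree (i + 1)} (P ^ 2) N h k
    ((P ^ 2 + 1) * (4 * q) + 1) (by
      intro e s hs1 hs2 hRs heN hap
      rw [← hq] at hs2
      obtain ⟨p, hp, hpP, hps⟩ := exists_prime_not_dvd (s := s) (P := P) hs1 (by
        refine lt_of_le_of_lt ?_ hP1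
        have : s ≤ 4 * N := hs2.trans (Nat.mul_le_mul_left _ hqN)
        nlinarith)
      have hpP2 : p ^ 2 ≤ P ^ 2 := Nat.pow_le_pow_left hpP 2
      obtain ⟨i, hi1, hi2⟩ := ap_square (s := s) (e := e) hp hps
        (le_trans (Nat.mul_le_mul_right s (by omega)) hRs)
      have h1 := hap i (by omega)
      rw [Set.mem_ofPred_eq] at h1
      have h2 : i * s ≤ e := le_trans (Nat.mul_le_mul_right s (by omega)) hRs
      have h3 : e - i * s + 1 = e + 1 - i * s := by omega
      rw [h3] at h1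
      have h4 := h1 p hi2
      rw [Nat.isUnit_iff] at h4
      exact hp.one_lt.ne' h4) (by
      intro b
      rw [← hq]
      have h1 : ((below {i | Squarefree (i + 1)} N).filter fun a =>
          b ≤ a ∧ a < b + (P ^ 2 + 1) * (4 * q)) ⊆ Finset.Ico b (b + (P ^ 2 + 1) * (4 * q)) := by
        intro a ha
        exact mem_Ico.2 (mem_filter.1 ha).2
      have h2 := card_le_card h1
      rw [Nat.card_Ico] at h2
      omega) x z (fun i j hij => hz i j hij) hacc E hE hxz hW
  rw [← hq] at hb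
  have hsq := squarefree_count N
  have hbR : ((below {i | Squarefree (i + 1)} N).card : ℝ) ≤
      ((h : ℝ) + k + Nat.clog 2 q + 2) * (((P : ℝ) ^ 2 + 1) * (4 * q) + 1) := by exact_mod_cast hb
  have hclog : (Nat.clog 2 q : ℝ) + 2 ≤ 4 * Real.log N := by
    obtain ⟨m, hm⟩ : ∃ m, m = Nat.clog 2 q := ⟨_, rfl⟩
    rw [← hm]
    rcases Nat.lt_or_ge q 2 with hq2 | hq2
    · have : m = 0 := by
        rw [hm, Nat.clog_of_right_le_one (by omega)]
      rw [this]
      push_cast
      linarith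
    have h3 : 2 ^ (m - 1) < q := by
      rw [hm]
      exact Nat.pow_pred_clog_lt_self (by norm_num) (by omega)
    have h4 : ((m - 1 : ℕ) : ℝ) * Real.log 2 ≤ Real.log N := by
      rw [← Real.log_pow]
      apply Real.log_le_log (by positivity)
      have : 2 ^ (m - 1) ≤ N := by omega
      exact_mod_cast this
    have h5 : (m : ℝ) ≤ ((m - 1 : ℕ) : ℝ) + 1 := by
      have : m ≤ (m - 1) + 1 := by omega
      exact_mod_cast this
    have h6 : (0 : ℝ) ≤ ((m - 1 : ℕ) : ℝ) := Nat.cast_nonneg _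
    nlinarith
  have hP1R : (1 : ℝ) ≤ P := by exact_mod_cast hP0
  have h7 : ((P : ℝ) ^ 2 + 1) * (4 * q) + 1 ≤ 9 * q * (4 * C * Λ) ^ 2 := by
    have a1 : (P : ℝ) ^ 2 ≤ (4 * C * Λ) ^ 2 := by
      apply pow_le_pow_left₀ (by positivity) hPR
    have a2 : (1 : ℝ) ≤ (P : ℝ) ^ 2 := by nlinarith
    nlinarith
  have h8 : (h : ℝ) + k + Nat.clog 2 q + 2 ≤ 4 * (h + k + Real.log N) := by linarith
  have h9 : (N : ℝ) / 4 ≤ 4 * (h + k + Real.log N) * (9 * q * (4 * C * Λ) ^ 2) := by
    refine hsq.trans (hbR.trans ?_)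
    apply mul_le_mul h8 h7 (by positivity)
    have : 0 ≤ Real.log N := by linarith
    positivity
  rw [div_le_iff₀ (by positivity), div_mul_eq_mul_div, one_mul, div_le_iff₀ (by positivity)]
  nlinarith

end Pool.Agent.X3.NfaSqfree
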