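import Mathlib

/-!
# Residues modulo many primes, chosen by an averaging argument
-/

set_option autoImplicit false

namespace Pool.Agent.X3.OmegaAvg

open Finset

/-- the method of conditional expectations -/
theorem choose_all {ι γ : Type} (I : Finset ι) (f : ℕ → γ → ι → ℝ) (A : ℕ → ι → ℝ)
    (hf : ∀ p c i, 0 ≤ f p c i) (hA : ∀ p i, 0 ≤ A p i) [Inhabited γ] (P : Finset ℕ)
    (h : ∀ p ∈ P, ∀ w : ι → ℝ, (∀ i, 0 ≤ w i) →
      ∃ c, ∑ i ∈ I, w i * f p c i ≤ ∑ i ∈ I, w i * A p i) :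
    ∀ w : ι → ℝ, (∀ i, 0 ≤ w i) →
      ∃ c : ℕ → γ, ∑ i ∈ I, w i * ∏ p ∈ P, f p (c p) i ≤ ∑ i ∈ I, w i * ∏ p ∈ P, A p i := by
  classical
  induction P using Finset.induction_on with
  | empty =>
    intro w hw
    exact ⟨fun _ => default, by simp⟩
  | insert q P hq ih =>
    intro w hw
    have ih' := ih (fun p hp => h p (mem_insert_of_mem hp))
    obtain ⟨c0, hc0⟩ := h q (mem_insert_self q P) (fun i => w i * ∏ p ∈ P, A p i)
      (fun i => mul_nonneg (hw i) (prod_nonneg fun p _ => hA p i))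
    obtain ⟨c, hc⟩ := ih' (fun i => w i * f q c0 i) (fun i => mul_nonneg (hw i) (hf q c0 i))
    refine ⟨fun p => if p = q then c0 else c p, ?_⟩
    calc ∑ i ∈ I, w i * ∏ p ∈ insert q P, f p (if p = q then c0 else c p) i
        = ∑ i ∈ I, (w i * f q c0 i) * ∏ p ∈ P, f p (c p) i := by
          apply sum_congr rfl
          intro i _
          rw [prod_insert hq, if_pos rfl, mul_assoc]
          congr 2
          apply prod_congr rfl
          intro p hp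
          rw [if_neg (by rintro rfl; exact hq hp)]
      _ ≤ ∑ i ∈ I, (w i * f q c0 i) * ∏ p ∈ P, A p i := hc
      _ = ∑ i ∈ I, (w i * ∏ p ∈ P, A p i) * f q c0 i := by
          apply sum_congr rfl
          intro i _
          ring
      _ ≤ ∑ i ∈ I, (w i * ∏ p ∈ P, A p i) * A q i := hc0
      _ = _ := by
          apply sum_congr rfl
          intro i _
          rw [prod_insert hq]
          ring

/-- `(a, j, k, σ)` -/
abbrev Tp := ℕ × ℕ × ℕ × Bool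

def sg (σ : Bool) : ℤ := if σ then 1 else -1

/-- `n j ± a ^ h k` -/
def val (n : ℤ) (τ : Tp) (h : ℕ) : ℤ := n * τ.2.1 + sg τ.2.2.2 * (τ.1 : ℤ) ^ h * τ.2.2.1

def Tup (κ : ℕ) : Finset Tp := Icc 2 κ ×ˢ Icc 1 κ ×ˢ Icc 1 κ ×ˢ Finset.univ

lemma mem_Tup {κ : ℕ} {τ : Tp} : τ ∈ Tup κ ↔ (2 ≤ τ.1 ∧ τ.1 ≤ κ) ∧ (1 ≤ τ.2.1 ∧ τ.2.1 ≤ κ) ∧
    (1 ≤ τ.2.2.1 ∧ τ.2.2.1 ≤ κ) := by
  simp [Tup]

lemma residue {p κ : ℕ} (hp : p.Prime) (hpκ : κ < p) {τ : Tp} (hτ : τ ∈ Tup κ) (h : ℕ) :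
    ∃ r : ℕ, (p : ℤ) ∣ val r τ h := by
  have : Fact p.Prime := ⟨hp⟩
  rw [mem_Tup] at hτ
  have hj : ((τ.2.1 : ℕ) : ZMod p) ≠ 0 := by
    rw [Ne, ZMod.natCast_eq_zero_iff]
    intro h
    have := Nat.le_of_dvd (by omega) h
    omega
  refine ⟨(-(((sg τ.2.2.2 * (τ.1 : ℤ) ^ h * τ.2.2.1 : ℤ) : ZMod p)) * ((τ.2.1 : ZMod p))⁻¹).val, ?_⟩
  rw [← ZMod.intCast_zmod_eq_zero_iff_dvd]
  unfold val
  push_cast
  rw [ZMod.natCast_zmod_val, mul_assoc _ _ ((τ.2.1 : ℕ) : ZMod p), inv_mul_cancel₀ hj]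
  ring

lemma hit {p : ℕ} {r : ℤ} {τ : Tp} {h h' : ℕ} (h1 : (p : ℤ) ∣ val r τ h)
    (h2 : ((τ.1 : ℕ) : ZMod p) ^ h' = (τ.1 : ZMod p) ^ h) : (p : ℤ) ∣ val r τ h' := by
  rw [← ZMod.intCast_zmod_eq_zero_iff_dvd] at h1 ⊢
  unfold val at h1 ⊢
  push_cast at h1 ⊢
  rw [h2]
  exact h1

lemma hit_mod {p : ℕ} {r r' : ℤ} {τ : Tp} {h : ℕ} (h1 : (p : ℤ) ∣ val r τ h)
    (h2 : r' ≡ r [ZMOD p]) : (p : ℤ) ∣ val r' τ h := by
  have h3 := h2.symm.dvd
  have : val r' τ h = val r τ h + (r' - r) * τ.2.1 := by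
    unfold val
    ring
  rw [this]
  exact dvd_add h1 (h3.mul_right _)

open Classical in
/-- the factor of a prime -/
noncomputable def ff (p : ℕ) (r : ℕ) (i : Tp × ℕ) : ℝ :=
  if (p : ℤ) ∣ val r i.1 i.2 then 1 / 2 else 1

/-- its mean -/
noncomputable def AA (κ : ℕ) (p : ℕ) (i : Tp × ℕ) : ℝ :=
  1 - 1 / (2 * (Tup κ).card * orderOf (i.1.1 : ZMod p))

lemma ff_le (p r : ℕ) (i : Tp × ℕ) : ff p r i ≤ 1 := by
  unfold ff
  split_ifs <;> norm_num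

lemma ff_nonneg (p r : ℕ) (i : Tp × ℕ) : 0 ≤ ff p r i := by
  unfold ff
  split_ifs <;> norm_num

lemma Tup_nonempty {κ : ℕ} (hκ : 2 ≤ κ) : (Tup κ).Nonempty :=
  ⟨(2, 1, 1, true), mem_Tup.2 ⟨⟨le_rfl, hκ⟩, ⟨le_rfl, by show 1 ≤ κ; omega⟩,
    ⟨le_rfl, by show 1 ≤ κ; omega⟩⟩⟩

lemma AA_nonneg (κ p : ℕ) (i : Tp × ℕ) : 0 ≤ AA κ p i := by
  unfold AA
  rw [sub_nonneg]
  rcases Nat.eq_zero_or_pos ((Tup κ).card * orderOf (i.1.1 : ZMod p)) with h | h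
  · have : (2 * ((Tup κ).card : ℝ) * orderOf (i.1.1 : ZMod p)) = 0 := by
      rw [mul_assoc]
      have : (((Tup κ).card * orderOf (i.1.1 : ZMod p) : ℕ) : ℝ) = 0 := by exact_mod_cast h
      push_cast at this
      rw [this, mul_zero]
    rw [this]
    norm_num
  · have h1 : (1 : ℝ) ≤ (Tup κ).card * orderOf (i.1.1 : ZMod p) := by exact_mod_cast h
    rw [div_le_one (by rw [mul_assoc]; linarith), mul_assoc]
    linarith

theorem local_avg {κ H p : ℕ} (hκ : 2 ≤ κ) (hp : p.Prime) (hpκ : κ < p) (w : Tp × ℕ → ℝ)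
    (hw : ∀ i, 0 ≤ w i) :
    ∃ r, ∑ i ∈ Tup κ ×ˢ range (H + 1), w i * ff p r i ≤
      ∑ i ∈ Tup κ ×ˢ range (H + 1), w i * AA κ p i := by
  classical
  have : Fact p.Prime := ⟨hp⟩
  by_contra hcon
  push Not at hcon
  obtain ⟨S, hS⟩ : ∃ S, S = ∑ i ∈ Tup κ ×ˢ range (H + 1), w i * AA κ p i := ⟨_, rfl⟩
  obtain ⟨o, ho⟩ : ∃ o : Tp → ℕ, o = fun τ => orderOf (τ.1 : ZMod p) := ⟨_, rfl⟩
  have ho0 : ∀ τ ∈ Tup κ, 0 < o τ := by
    intro τ hτ
    rw [mem_Tup] at hτ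
    rw [ho]
    show 0 < orderOf (τ.1 : ZMod p)
    rw [orderOf_pos_iff, isOfFinOrder_iff_pow_eq_one]
    refine ⟨p - 1, by have := hp.two_le; omega, ZMod.pow_card_sub_one_eq_one ?_⟩
    rw [Ne, ZMod.natCast_eq_zero_iff]
    intro h
    have := Nat.le_of_dvd (by omega) h
    omega
  have hres : ∀ (τ : Tp) (h : ℕ), ∃ r : ℕ, τ ∈ Tup κ → (p : ℤ) ∣ val r τ h := by
    intro τ h
    by_cases hτ : τ ∈ Tup κ
    · obtain ⟨r, hr⟩ := residue hp hpκ hτ h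
      exact ⟨r, fun _ => hr⟩
    · exact ⟨0, fun h => absurd h hτ⟩
  choose r hr using hres
  -- the mean over all choices
  have h1 : ∑ τ ∈ Tup κ, (1 / (o τ : ℝ)) * ∑ h0 ∈ range (o τ), S <
      ∑ τ ∈ Tup κ, (1 / (o τ : ℝ)) * ∑ h0 ∈ range (o τ),
        ∑ i ∈ Tup κ ×ˢ range (H + 1), w i * ff p (r τ h0) i := by
    apply sum_lt_sum_of_nonempty (Tup_nonempty hκ)
    intro τ hτ
    have h2 := ho0 τ hτ
    have h3 : (0 : ℝ) < o τ := by exact_mod_cast h2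
    apply mul_lt_mul_of_pos_left _ (by positivity)
    apply sum_lt_sum_of_nonempty (by rw [nonempty_range_iff]; omega)
    intro h0 _
    rw [hS]
    exact hcon _
  have h2 : ∑ τ ∈ Tup κ, (1 / (o τ : ℝ)) * ∑ h0 ∈ range (o τ), S = (Tup κ).card * S := by
    rw [card_eq_sum_ones, Nat.cast_sum, sum_mul]
    apply sum_congr rfl
    intro τ hτ
    have h3 : (0 : ℝ) < o τ := by exact_mod_cast ho0 τ hτ
    rw [sum_const, card_range, nsmul_eq_mul]
    field_simp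
    simp
  have h3 : ∑ τ ∈ Tup κ, (1 / (o τ : ℝ)) * ∑ h0 ∈ range (o τ),
        ∑ i ∈ Tup κ ×ˢ range (H + 1), w i * ff p (r τ h0) i =
      ∑ i ∈ Tup κ ×ˢ range (H + 1), w i * ∑ τ ∈ Tup κ, (1 / (o τ : ℝ)) *
        ∑ h0 ∈ range (o τ), ff p (r τ h0) i := by
    simp_rw [mul_sum]
    rw [sum_comm' (s := Tup κ ×ˢ range (H + 1)) (t := fun _ => Tup κ) (t' := Tup κ)
      (s' := fun _ => Tup κ ×ˢ range (H + 1)) (by intro x y; tauto)]
    apply sum_congr rfl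
    intro τ _
    rw [sum_comm]
    apply sum_congr rfl
    intro h0 _
    apply sum_congr rfl
    intro i _
    ring
  have h4 : ∀ i ∈ Tup κ ×ˢ range (H + 1), ∑ τ ∈ Tup κ, (1 / (o τ : ℝ)) *
        ∑ h0 ∈ range (o τ), ff p (r τ h0) i ≤ (Tup κ).card * AA κ p i := by
    intro i hi
    rw [mem_product] at hi
    have h5 : ∀ τ ∈ Tup κ, (1 / (o τ : ℝ)) * ∑ h0 ∈ range (o τ), ff p (r τ h0) i ≤
        if τ = i.1 then (1 : ℝ) - 1 / (2 * (o τ : ℝ)) else 1 := by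
      intro τ hτ
      have h6 : (0 : ℝ) < o τ := by exact_mod_cast ho0 τ hτ
      split_ifs with h7
      · have h8 : ∑ h0 ∈ range (o τ), ff p (r τ h0) i ≤ o τ - 1 / 2 := by
          have h9 : i.2 % o τ ∈ range (o τ) := mem_range.2 (Nat.mod_lt _ (ho0 τ hτ))
          rw [← sum_erase_add _ _ h9]
          have h10 : ff p (r τ (i.2 % o τ)) i = 1 / 2 := by
            unfold ff
            rw [if_pos]
            have h11 := hr τ (i.2 % o τ) hτ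
            rw [h7] at h11 ⊢
            apply hit h11
            rw [ho]
            exact (pow_mod_orderOf _ _).symm
          have h11 : ∑ h0 ∈ (range (o τ)).erase (i.2 % o τ), ff p (r τ h0) i ≤ o τ - 1 := by
            refine (sum_le_card_nsmul _ _ 1 fun x _ => ff_le _ _ _).trans ?_
            rw [card_erase_of_mem h9, card_range, nsmul_eq_mul, mul_one,
              Nat.cast_sub (ho0 τ hτ)]
            simp
          rw [h10]
          linarith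
        calc (1 / (o τ : ℝ)) * ∑ h0 ∈ range (o τ), ff p (r τ h0) i
            ≤ (1 / (o τ : ℝ)) * (o τ - 1 / 2) := mul_le_mul_of_nonneg_left h8 (by positivity)
          _ = 1 - 1 / (2 * o τ) := by field_simp
      · have h8 : ∑ h0 ∈ range (o τ), ff p (r τ h0) i ≤ o τ := by
          refine (sum_le_card_nsmul _ _ 1 fun x _ => ff_le _ _ _).trans ?_
          rw [card_range, nsmul_eq_mul, mul_one]
        calc (1 / (o τ : ℝ)) * ∑ h0 ∈ range (o τ), ff p (r τ h0) i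
            ≤ (1 / (o τ : ℝ)) * o τ := mul_le_mul_of_nonneg_left h8 (by positivity)
          _ = 1 := by field_simp
    refine (sum_le_sum h5).trans ?_
    have h6 : ∑ τ ∈ Tup κ, (if τ = i.1 then 1 - 1 / (2 * (o τ : ℝ)) else 1) =
        ∑ τ ∈ Tup κ, ((1 : ℝ) - if τ = i.1 then 1 / (2 * (o i.1 : ℝ)) else 0) := by
      apply sum_congr rfl
      intro τ _
      split_ifs with h
      · rw [h]
      · simp
    rw [h6, sum_sub_distrib, sum_ite_eq' (Tup κ) i.1, if_pos hi.1, sum_const, nsmul_eq_mul, mul_one]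
    have h7 : (0 : ℝ) < (Tup κ).card := by exact_mod_cast (Tup_nonempty hκ).card_pos
    have h8 : (0 : ℝ) < o i.1 := by exact_mod_cast ho0 i.1 hi.1
    apply le_of_eq
    unfold AA
    have h9 : (orderOf (i.1.1 : ZMod p) : ℝ) = o i.1 := by rw [ho]
    rw [h9]
    field_simp
  rw [h2, h3] at h1
  have h5 : ∑ i ∈ Tup κ ×ˢ range (H + 1), w i * ∑ τ ∈ Tup κ, (1 / (o τ : ℝ)) *
        ∑ h0 ∈ range (o τ), ff p (r τ h0) i ≤ (Tup κ).card * S := by
    rw [hS, mul_sum]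
    apply sum_le_sum
    intro i hi
    calc _ ≤ w i * ((Tup κ).card * AA κ p i) := mul_le_mul_of_nonneg_left (h4 i hi) (hw i)
      _ = _ := by ring
  linarith

/-- residues for all the primes of a set -/
theorem residues {κ H : ℕ} (hκ : 2 ≤ κ) (P : Finset ℕ) (hP : ∀ p ∈ P, p.Prime ∧ κ < p) :
    ∃ r : ℕ → ℕ, ∑ i ∈ Tup κ ×ˢ range (H + 1), ∏ p ∈ P, ff p (r p) i ≤
      ∑ i ∈ Tup κ ×ˢ range (H + 1), ∏ p ∈ P, AA κ p i := by
  have h := choose_all (Tup κ ×ˢ range (H + 1)) ff (AA κ) (fun p c i => ff_nonneg p c i)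
    (fun p i => AA_nonneg κ p i) P
    (fun p hp w hw => local_avg hκ (hP p hp).1 (hP p hp).2 w hw) (fun _ => 1)
    (fun _ => zero_le_one)
  simpa using h

end Pool.Agent.X3.OmegaAvg
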