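import Mathlib

/-!
# Primes modulo which `b` has a given odd order
-/

set_option autoImplicit false

namespace Pool.Agent.X3.OmegaZsig

open Polynomial

lemma eval_zmod {b t q : ℕ} (h : (q : ℤ) ∣ (cyclotomic t ℤ).eval (b : ℤ)) :
    IsRoot (cyclotomic t (ZMod q)) (b : ZMod q) := by
  rw [IsRoot.def]
  have h1 := cyclotomic.eval_apply (b : ℤ) t (Int.castRingHom (ZMod q))
  rw [show (Int.castRingHom (ZMod q)) (b : ℤ) = (b : ZMod q) by simp] at h1
  rw [h1]
  simpa using (ZMod.intCast_zmod_eq_zero_iff_dvd _ q).2 h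

/-- a prime divisor `q` of `Φ_t(b)` and of `t`: the part `s` of `t` prime to `q` divides `q - 1` -/
lemma part_dvd {b t q : ℕ} (ht : t ≠ 0) (hq : q.Prime)
    (h : (q : ℤ) ∣ (cyclotomic t ℤ).eval (b : ℤ)) :
    IsPrimitiveRoot (b : ZMod q) (t / q ^ t.factorization q) := by
  have : Fact q.Prime := ⟨hq⟩
  have h1 : ¬ q ∣ t / q ^ t.factorization q := Nat.not_dvd_ordCompl hq ht
  have : NeZero ((t / q ^ t.factorization q : ℕ) : ZMod q) := ⟨by
    rw [Ne, ZMod.natCast_eq_zero_iff]
    exact h1⟩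
  have h2 := eval_zmod h
  rw [← Nat.ordProj_mul_ordCompl_eq_self t q] at h2
  exact (isRoot_cyclotomic_prime_pow_mul_iff_of_charP).1 h2

lemma coprime_part {t q r : ℕ} (hr : r.Prime) (hq : q.Prime) (hrq : r ≠ q) (h : r ∣ t) :
    r ∣ t / q ^ t.factorization q := by
  have h1 : r ∣ q ^ t.factorization q * (t / q ^ t.factorization q) := by
    rw [Nat.ordProj_mul_ordCompl_eq_self]
    exact h
  rcases (Nat.Prime.dvd_mul hr).1 h1 with h2 | h2
  · exact absurd ((Nat.prime_dvd_prime_iff_eq hr hq).1 (hr.dvd_of_dvd_pow h2)) hrq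
  · exact h2

lemma geom_mod {c q : ℤ} {n : ℕ} (hn : (n : ℤ) = q) (hodd : Odd n) (hc : q ∣ c - 1) :
    q ^ 2 ∣ (∑ i ∈ Finset.range n, c ^ i) - q := by
  obtain ⟨u, hu⟩ := hc
  have h1 : ∀ i : ℕ, q ^ 2 ∣ c ^ i - (1 + q * u * i) := by
    intro i
    induction i with
    | zero => simp
    | succ i ih =>
      obtain ⟨v, hv⟩ := ih
      refine ⟨c * v + u ^ 2 * i, ?_⟩
      have : c = 1 + q * u := by linarith
      rw [pow_succ]
      have e1 : c ^ i = q ^ 2 * v + (1 + q * u * i) := by linarith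
      rw [e1]
      push_cast
      rw [this]
      ring
  have h2 : q ^ 2 ∣ ∑ i ∈ Finset.range n, (c ^ i - (1 + q * u * i)) :=
    Finset.dvd_sum fun i _ => h1 i
  obtain ⟨m, hm⟩ := hodd
  have h3 : ∑ i ∈ Finset.range n, (i : ℤ) = n * m := by
    have h4 := Finset.sum_range_id_mul_two n
    have h5 : (∑ i ∈ Finset.range n, i) * 2 = (n * m) * 2 := by
      rw [h4, hm]
      simp only [Nat.add_sub_cancel]
      ring
    have h6 : ∑ i ∈ Finset.range n, i = n * m := by omega
    have h7 : ((∑ i ∈ Finset.range n, i : ℕ) : ℤ) = n * m := by rw [h6]; push_cast; rfl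
    push_cast at h7
    exact h7
  have h4 : ∑ i ∈ Finset.range n, (c ^ i - (1 + q * u * i)) =
      (∑ i ∈ Finset.range n, c ^ i) - q - q ^ 2 * (u * m) := by
    rw [Finset.sum_sub_distrib, Finset.sum_add_distrib, ← Finset.mul_sum, h3]
    simp only [Finset.sum_const, Finset.card_range, nsmul_eq_mul, mul_one, hn]
    ring
  rw [h4] at h2
  have h5 : q ^ 2 ∣ q ^ 2 * (u * m) := Dvd.intro _ rfl
  have := dvd_add h2 h5
  simpa using this

/-- for `b ≥ 4` and odd `t ≥ 3` there is a prime modulo which `b` has order `t` -/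
theorem exists_order {b t : ℕ} (hb : 4 ≤ b) (ht : Odd t) (ht3 : 3 ≤ t) :
    ∃ p, p.Prime ∧ p ≤ b ^ t ∧ orderOf (b : ZMod p) = t := by
  obtain ⟨Φ, hΦ⟩ : ∃ Φ : ℤ, Φ = (cyclotomic t ℤ).eval (b : ℤ) := ⟨_, rfl⟩
  have ht0 : t ≠ 0 := by omega
  have hlow : (3 : ℝ) ^ t.totient < Φ := by
    have h1 := sub_one_pow_totient_lt_cyclotomic_eval (n := t) (q := (b : ℝ)) (by omega)
      (by
        have : (4 : ℝ) ≤ b := by exact_mod_cast hb
        linarith)
    have h2 := cyclotomic.eval_apply (b : ℤ) t (Int.castRingHom ℝ)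
    rw [show (Int.castRingHom ℝ) (b : ℤ) = (b : ℝ) by simp] at h2
    rw [h2, ← hΦ] at h1
    have h3 : (3 : ℝ) ^ t.totient ≤ ((b : ℝ) - 1) ^ t.totient := by
      apply pow_le_pow_left₀ (by norm_num)
      have : (4 : ℝ) ≤ b := by exact_mod_cast hb
      linarith
    refine lt_of_le_of_lt h3 ?_
    simpa using h1
  have hlow' : (3 : ℤ) ^ t.totient < Φ := by exact_mod_cast hlow
  have hΦd : Φ ∣ (b : ℤ) ^ t - 1 := by
    have h1 := cyclotomic.dvd_X_pow_sub_one t ℤ
    have h2 := eval_dvd (x := (b : ℤ)) h1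
    simpa [hΦ] using h2
  by_contra hcon
  push Not at hcon
  -- every prime divisor of `Φ` divides `t`
  have h1 : ∀ q : ℕ, q.Prime → (q : ℤ) ∣ Φ → q ∣ t := by
    intro q hq hqΦ
    by_contra hqt
    have : Fact q.Prime := ⟨hq⟩
    have : NeZero ((t : ℕ) : ZMod q) := ⟨by
      rw [Ne, ZMod.natCast_eq_zero_iff]
      exact hqt⟩
    rw [hΦ] at hqΦ
    have h2 := isRoot_cyclotomic_iff.1 (eval_zmod hqΦ)
    have h3 : q ≤ b ^ t := by
      have h4 : (q : ℤ) ∣ (b : ℤ) ^ t - 1 := by
        rw [← hΦ] at hqΦ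
        exact hqΦ.trans hΦd
      have h5 : (1 : ℤ) < (b : ℤ) ^ t := by
        exact_mod_cast Nat.one_lt_pow ht0 (by omega)
      have h6 := Int.le_of_dvd (by linarith) h4
      have h7 : (q : ℤ) ≤ ((b ^ t : ℕ) : ℤ) := by
        push_cast
        linarith
      exact_mod_cast h7
    exact hcon q hq h3 h2.eq_orderOf.symm
  obtain ⟨n, hn⟩ : ∃ n : ℕ, n = Φ.natAbs := ⟨_, rfl⟩
  have hΦpos : 0 < Φ := lt_trans (by positivity) hlow'
  have hnΦ : (n : ℤ) = Φ := by rw [hn]; exact Int.natAbs_of_nonneg hΦpos.le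
  have hn1 : n ≠ 1 := by
    intro h
    rw [h] at hnΦ
    have : (1 : ℤ) ≤ 3 ^ t.totient := one_le_pow₀ (by norm_num)
    rw [← hnΦ] at hlow'
    push_cast at hlow'
    omega
  obtain ⟨q, hq, hqn⟩ := Nat.exists_prime_and_dvd hn1
  have hqΦ : (q : ℤ) ∣ Φ := by rw [← hnΦ]; exact_mod_cast hqn
  have hqt := h1 q hq hqΦ
  -- it is the only one
  have h2 : ∀ r : ℕ, r.Prime → r ∣ n → r = q := by
    intro r hr hrn
    by_contra hne
    have hrΦ : (r : ℤ) ∣ Φ := by rw [← hnΦ]; exact_mod_cast hrn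
    have hrt := h1 r hr hrΦ
    have key : ∀ x y : ℕ, x.Prime → y.Prime → (y : ℤ) ∣ Φ → x ∣ t → x ≠ y → x < y := by
      intro x y hx hy hyΦ hxt hxy
      have : Fact y.Prime := ⟨hy⟩
      rw [hΦ] at hyΦ
      have h3 := part_dvd ht0 hy hyΦ
      have h4 := coprime_part hx hy hxy hxt
      have h6 : t / y ^ t.factorization y ∣ y - 1 := by
        rw [h3.eq_orderOf]
        apply ZMod.orderOf_dvd_card_sub_one
        intro h0
        have h7 := h3.pow_eq_one
        rw [h0, zero_pow] at h7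
        · exact zero_ne_one h7
        · intro h8
          have := Nat.ordCompl_pos y ht0
          omega
      have h5 := Nat.le_of_dvd (by have := hy.two_le; omega) (h4.trans h6)
      have := hy.two_le
      omega
    have ha := key r q hr hq hqΦ hrt hne
    have hb := key q r hq hr hrΦ hqt (Ne.symm hne)
    omega
  have hqodd : Odd q := by
    rcases hq.eq_two_or_odd' with h | h
    · subst h
      obtain ⟨k, hk⟩ := ht
      omega
    · exact h
  -- it divides `Φ` once
  have h3 : ¬ q ^ 2 ∣ n := by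
    intro hsq
    obtain ⟨d, hd⟩ := hqt
    have hdt : d ∈ t.properDivisors := by
      rw [Nat.mem_properDivisors]
      refine ⟨⟨q, by rw [hd, mul_comm]⟩, ?_⟩
      rw [hd]
      have := hq.two_le
      have : 0 < d := Nat.pos_of_ne_zero (by rintro rfl; omega)
      nlinarith
    have h4 := eval_dvd (x := (b : ℤ)) (X_pow_sub_one_mul_cyclotomic_dvd_X_pow_sub_one_of_dvd ℤ hdt)
    simp only [eval_mul, eval_sub, eval_pow, eval_X, eval_one, ← hΦ] at h4
    have h5 : (b : ℤ) ^ t - 1 = ((b : ℤ) ^ d - 1) * ∑ i ∈ Finset.range q, ((b : ℤ) ^ d) ^ i := by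
      rw [mul_comm, geom_sum_mul, ← pow_mul, hd, mul_comm d q]
    rw [h5] at h4
    have hd0 : 0 < d := Nat.pos_of_ne_zero (by rintro rfl; omega)
    have h6 : (b : ℤ) ^ d - 1 ≠ 0 := by
      have : (1 : ℤ) < (b : ℤ) ^ d := by
        exact_mod_cast Nat.one_lt_pow (by omega) (by omega)
      omega
    have h7 := (mul_dvd_mul_iff_left h6).1 h4
    have hc : (q : ℤ) ∣ (b : ℤ) ^ d - 1 := by
      have : Fact q.Prime := ⟨hq⟩
      have hqΦ' := hqΦ
      rw [hΦ] at hqΦ'
      have h8 := (part_dvd ht0 hq hqΦ').pow_eq_one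
      have h9 : t / q ^ t.factorization q ∣ d := by
        have h10 : t.factorization q = (t.factorization q - 1) + 1 := by
          have : 0 < t.factorization q := (Nat.Prime.dvd_iff_one_le_factorization hq ht0).1 ⟨d, hd⟩
          omega
        have h11 := Nat.ordProj_mul_ordCompl_eq_self t q
        obtain ⟨X, hX⟩ : ∃ X, X = t / q ^ t.factorization q := ⟨_, rfl⟩
        rw [← hX] at h11 ⊢
        have e : q ^ t.factorization q = q ^ (t.factorization q - 1) * q := by
          rw [← pow_succ, ← h10]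
        refine ⟨q ^ (t.factorization q - 1), ?_⟩
        have h12 : q * (q ^ (t.factorization q - 1) * X) = q * d := by
          rw [← hd]
          calc q * (q ^ (t.factorization q - 1) * X)
              = (q ^ (t.factorization q - 1) * q) * X := by ring
            _ = q ^ t.factorization q * X := by rw [← e]
            _ = t := h11
        have h13 := Nat.eq_of_mul_eq_mul_left hq.pos h12
        rw [← h13, mul_comm]
      obtain ⟨e, he⟩ := h9
      have h14 : (b : ZMod q) ^ d = 1 := by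
        rw [he, pow_mul, h8, one_pow]
      have := (ZMod.intCast_zmod_eq_zero_iff_dvd ((b : ℤ) ^ d - 1) q).1 (by
        push_cast
        rw [h14, sub_self])
      exact this
    have h8 := geom_mod (c := (b : ℤ) ^ d) (q := (q : ℤ)) (n := q) rfl hqodd hc
    have h9 : (q : ℤ) ^ 2 ∣ ∑ i ∈ Finset.range q, ((b : ℤ) ^ d) ^ i := by
      refine dvd_trans ?_ h7
      rw [← hnΦ]
      exact_mod_cast hsq
    have h10 : (q : ℤ) ^ 2 ∣ (q : ℤ) := by
      have := dvd_sub h9 h8
      simpa using this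
    have h11 := Int.le_of_dvd (by have := hq.pos; exact_mod_cast this) h10
    have h12 : (2 : ℤ) ≤ q := by exact_mod_cast hq.two_le
    nlinarith
  -- so `Φ = q`
  have h4 : n = q := by
    obtain ⟨m, hm⟩ := hqn
    by_cases hm1 : m = 1
    · rw [hm, hm1, mul_one]
    · exfalso
      obtain ⟨r, hr, hrm⟩ := Nat.exists_prime_and_dvd hm1
      have h5 := h2 r hr (by rw [hm]; exact hrm.mul_left _)
      subst h5
      apply h3
      rw [hm, sq]
      exact Nat.mul_dvd_mul_left _ hrm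
  have h5 : q - 1 ≤ t.totient := by
    have h6 := Nat.totient_dvd_of_dvd hqt
    rw [Nat.totient_prime hq] at h6
    exact Nat.le_of_dvd (Nat.totient_pos.2 (by omega)) h6
  have h6 : (3 : ℤ) ^ (q - 1) ≤ 3 ^ t.totient := pow_le_pow_right₀ (by norm_num) h5
  have h7 : q ≤ 3 ^ (q - 1) := by
    obtain ⟨z, rfl⟩ : ∃ z, q = z + 1 := ⟨q - 1, by have := hq.pos; omega⟩
    rw [Nat.add_sub_cancel]
    clear * -
    induction z with
    | zero => norm_num
    | succ z ih =>
      rw [pow_succ]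
      omega
  have h8 : (q : ℤ) ≤ 3 ^ (q - 1) := by exact_mod_cast h7
  rw [← hnΦ, h4] at hlow'
  linarith

end Pool.Agent.X3.OmegaZsig
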