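import Mathlib
import Pool.Agent.X3.OmegaZsig
import Pool.Agent.X3.OmegaAvg

/-!
# A residue class all of whose elements `n` have many prime factors of all `n j ± a ^ h k`
-/

set_option autoImplicit false

namespace Pool.Agent.X3.OmegaCore

open Finset Pool.Agent.X3.OmegaAvg

lemma harmonic {κ T : ℕ} (h : κ ≤ T) :
    Real.log (((T : ℝ) + 1) / (κ + 1)) ≤ ∑ u ∈ Ioc κ T, (1 : ℝ) / u := by
  induction T, h using Nat.le_induction with
  | base => simp [div_self (show (κ : ℝ) + 1 ≠ 0 by positivity)]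
  | succ T hT ih =>
    rw [← Finset.insert_Ioc_right_eq_Ioc_add_one hT, sum_insert (by simp)]
    have h1 : ((T + 1 : ℕ) : ℝ) + 1 = ((T : ℝ) + 1) * (1 + 1 / (T + 1)) := by
      push_cast
      field_simp
    rw [h1, mul_div_right_comm, Real.log_mul (by positivity) (by positivity)]
    have h2 : Real.log (1 + 1 / ((T : ℝ) + 1)) ≤ 1 / (T + 1) := by
      have := Real.log_le_sub_one_of_pos (show (0 : ℝ) < 1 + 1 / (T + 1) by positivity)
      linarith
    push_cast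
    linarith

/-- the primes of the first kind -/
theorem primes {κ T : ℕ} (hκ : 2 ≤ κ) : ∃ P : Finset ℕ, (∀ p ∈ P, p.Prime ∧ κ < p ∧
    p ≤ κ ^ (4 * T + 2)) ∧ P.card ≤ κ * T ∧ ∀ a, 2 ≤ a → a ≤ κ → ∃ g : ℕ → ℕ,
      (∀ u ∈ Ioc κ T, g u ∈ P ∧ 0 < orderOf (a : ZMod (g u)) ∧
        orderOf (a : ZMod (g u)) ≤ 2 * (2 * u + 1)) ∧
      Set.InjOn g (Ioc κ T) := by
  classical
  have h : ∀ a u : ℕ, ∃ p : ℕ, 2 ≤ a → 1 ≤ u → p.Prime ∧ p ≤ (a ^ 2) ^ (2 * u + 1) ∧
      orderOf ((a ^ 2 : ℕ) : ZMod p) = 2 * u + 1 := by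
    intro a u
    by_cases h : 2 ≤ a ∧ 1 ≤ u
    · obtain ⟨p, hp⟩ := Pool.Agent.X3.OmegaZsig.exists_order (b := a ^ 2) (t := 2 * u + 1)
        (by nlinarith [h.1]) ⟨u, rfl⟩ (by omega)
      exact ⟨p, fun _ _ => hp⟩
    · exact ⟨0, fun h1 h2 => absurd ⟨h1, h2⟩ h⟩
  choose pr hpr using h
  refine ⟨(Icc 2 κ ×ˢ Ioc κ T).image fun z => pr z.1 z.2, ?_, ?_, ?_⟩
  · intro p hp
    rw [mem_image] at hp
    obtain ⟨z, hz, rfl⟩ := hp
    rw [mem_product, mem_Icc, mem_Ioc] at hz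
    obtain ⟨h1, h2, h3⟩ := hpr z.1 z.2 hz.1.1 (by omega)
    have : Fact (pr z.1 z.2).Prime := ⟨h1⟩
    refine ⟨h1, ?_, ?_⟩
    · have h4 : orderOf ((z.1 ^ 2 : ℕ) : ZMod (pr z.1 z.2)) ∣ pr z.1 z.2 - 1 := by
        apply ZMod.orderOf_dvd_card_sub_one
        intro h0
        rw [h0, orderOf_zero] at h3
        omega
      have h5 := Nat.le_of_dvd (by have := h1.two_le; omega) h4
      omega
    · refine h2.trans ?_
      rw [← pow_mul]
      calc z.1 ^ (2 * (2 * z.2 + 1)) ≤ κ ^ (2 * (2 * z.2 + 1)) := Nat.pow_le_pow_left hz.1.2 _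
        _ ≤ κ ^ (4 * T + 2) := Nat.pow_le_pow_right (by omega) (by omega)
  · refine card_image_le.trans ?_
    rw [card_product, Nat.card_Icc, Nat.card_Ioc]
    exact Nat.mul_le_mul (by omega) (by omega)
  · intro a ha1 ha2
    refine ⟨pr a, fun u hu => ?_, ?_⟩
    · have hu' := mem_Ioc.1 hu
      obtain ⟨h1, h2, h3⟩ := hpr a u ha1 (by omega)
      have h4 : ((a : ℕ) : ZMod (pr a u)) ^ (2 * (2 * u + 1)) = 1 := by
        have h5 := pow_orderOf_eq_one ((a ^ 2 : ℕ) : ZMod (pr a u))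
        rw [h3] at h5
        push_cast at h5
        rw [pow_mul]
        exact h5
      have h5 : orderOf (a : ZMod (pr a u)) ∣ 2 * (2 * u + 1) := orderOf_dvd_of_pow_eq_one h4
      refine ⟨mem_image.2 ⟨(a, u), mem_product.2 ⟨mem_Icc.2 ⟨ha1, ha2⟩, hu⟩, rfl⟩, ?_,
        Nat.le_of_dvd (by omega) h5⟩
      exact Nat.pos_of_dvd_of_pos h5 (by omega)
    · intro u hu v hv huv
      have hu' := mem_Ioc.1 (mem_coe.1 hu)
      have hv' := mem_Ioc.1 (mem_coe.1 hv)
      have h1 := (hpr a u ha1 (by omega)).2.2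
      have h2 := (hpr a v ha1 (by omega)).2.2
      have huv' : pr a u = pr a v := huv
      rw [huv'] at h1
      omega

lemma AA_le_one {κ p : ℕ} (i : Tp × ℕ) : AA κ p i ≤ 1 := by
  unfold AA
  have : (0 : ℝ) ≤ 1 / (2 * (Tup κ).card * orderOf (i.1.1 : ZMod p)) := by positivity
  linarith

/-- the product of the means -/
theorem prod_AA {κ T : ℕ} (hκ : 2 ≤ κ) (hT : κ ≤ T) {P : Finset ℕ} {i : Tp × ℕ} {g : ℕ → ℕ}
    (hg : ∀ u ∈ Ioc κ T, g u ∈ P ∧ 0 < orderOf (i.1.1 : ZMod (g u)) ∧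
        orderOf (i.1.1 : ZMod (g u)) ≤ 2 * (2 * u + 1))
    (hinj : Set.InjOn g (Ioc κ T)) :
    ∏ p ∈ P, AA κ p i ≤ (((κ : ℝ) + 1) / (T + 1)) ^ (1 / (12 * (Tup κ).card : ℝ)) := by
  classical
  have hN : (0 : ℝ) < (Tup κ).card := by exact_mod_cast (Tup_nonempty hκ).card_pos
  have h1 : (Ioc κ T).image g ⊆ P := by
    intro p hp
    obtain ⟨u, hu, rfl⟩ := mem_image.1 hp
    exact (hg u hu).1
  rw [← prod_sdiff h1]
  have h2 : ∏ p ∈ P \ (Ioc κ T).image g, AA κ p i ≤ 1 :=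
    prod_le_one (fun p _ => AA_nonneg κ p i) (fun p _ => AA_le_one i)
  have h3 : ∏ p ∈ (Ioc κ T).image g, AA κ p i ≤
      (((κ : ℝ) + 1) / (T + 1)) ^ (1 / (12 * (Tup κ).card : ℝ)) := by
    rw [prod_image hinj]
    have h4 : ∀ u ∈ Ioc κ T, AA κ (g u) i ≤ Real.exp (-(1 / (12 * (Tup κ).card : ℝ) * (1 / u))) := by
      intro u hu
      obtain ⟨-, h5, h6⟩ := hg u hu
      have hu0 : (0 : ℝ) < u := by
        have := mem_Ioc.1 hu
        exact_mod_cast (by omega : 0 < u)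
      have h7 : (0 : ℝ) < orderOf (i.1.1 : ZMod (g u)) := by exact_mod_cast h5
      have h8 : (orderOf (i.1.1 : ZMod (g u)) : ℝ) ≤ 6 * u := by
        have h9 : orderOf (i.1.1 : ZMod (g u)) ≤ 6 * u := by
          have := mem_Ioc.1 hu
          omega
        exact_mod_cast h9
      unfold AA
      have h9 := Real.one_sub_le_exp_neg (1 / (2 * (Tup κ).card * orderOf (i.1.1 : ZMod (g u)) : ℝ))
      refine h9.trans (Real.exp_le_exp.2 (neg_le_neg ?_))
      rw [← one_div_mul_one_div_rev, ← one_div_mul_one_div_rev] at *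
      rw [one_div_mul_one_div_rev]
      rw [one_div_mul_one_div_rev]
      rw [one_div_mul_one_div]
      apply one_div_le_one_div_of_le (by positivity)
      nlinarith
    refine (prod_le_prod (fun u _ => AA_nonneg κ _ i) h4).trans ?_
    rw [← Real.exp_sum, sum_neg_distrib, ← mul_sum]
    have h5 := harmonic hT
    have h6 : (0 : ℝ) < ((κ : ℝ) + 1) / (T + 1) := by positivity
    rw [Real.rpow_def_of_pos h6]
    apply Real.exp_le_exp.2
    have h7 : Real.log (((κ : ℝ) + 1) / (T + 1)) = -Real.log (((T : ℝ) + 1) / (κ + 1)) := by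
      rw [← Real.log_inv, inv_div]
    rw [h7]
    have h8 : (0 : ℝ) < 1 / (12 * (Tup κ).card : ℝ) := by positivity
    nlinarith
  calc _ ≤ 1 * (((κ : ℝ) + 1) / (T + 1)) ^ (1 / (12 * (Tup κ).card : ℝ)) :=
        mul_le_mul h2 h3 (prod_nonneg fun p _ => AA_nonneg κ p i) zero_le_one
    _ = _ := one_mul _

theorem core {κ T H L Y m : ℕ} (hκ : 2 ≤ κ) (hT : κ ≤ T) (hY1 : 1 ≤ Y)
    (hm : (2 : ℝ) ^ L * (((Tup κ).card * (H + 1) : ℝ) *
      (((κ : ℝ) + 1) / (T + 1)) ^ (1 / (12 * (Tup κ).card : ℝ))) * L ≤ m)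
    (hY : κ * T + κ + m + 1 ≤ Nat.primeCounting Y) :
    ∃ (S : Finset ℕ) (ρ : ℕ → ℕ), (∀ p ∈ S, p.Prime) ∧
      ∏ p ∈ S, p ≤ (κ ^ (4 * T + 2)) ^ (κ * T) * Y ^ m ∧
      ∀ n : ℤ, (∀ p ∈ S, n ≡ ρ p [ZMOD p]) → ∀ i ∈ Tup κ ×ˢ range (H + 1),
        L ≤ (S.filter fun p : ℕ => (p : ℤ) ∣ val n i.1 i.2).card := by
  classical
  obtain ⟨P, hP1, hP2, hP3⟩ := primes (κ := κ) (T := T) hκ
  obtain ⟨r, hr⟩ := residues (H := H) hκ P fun p hp => ⟨(hP1 p hp).1, (hP1 p hp).2.1⟩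
  obtain ⟨E, hE⟩ : ∃ E, E = (((κ : ℝ) + 1) / (T + 1)) ^ (1 / (12 * (Tup κ).card : ℝ)) := ⟨_, rfl⟩
  obtain ⟨I, hI⟩ : ∃ I, I = Tup κ ×ˢ range (H + 1) := ⟨_, rfl⟩
  rw [← hI] at hr ⊢
  have h1 : ∑ i ∈ I, ∏ p ∈ P, AA κ p i ≤ ((Tup κ).card * (H + 1) : ℝ) * E := by
    have h2 : ∀ i ∈ I, ∏ p ∈ P, AA κ p i ≤ E := by
      intro i hi
      rw [hI, mem_product] at hi
      obtain ⟨g, hg1, hg2⟩ := hP3 i.1.1 (mem_Tup.1 hi.1).1.1 (mem_Tup.1 hi.1).1.2
      rw [hE]
      exact prod_AA hκ hT hg1 hg2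
    refine (sum_le_card_nsmul _ _ _ h2).trans (le_of_eq ?_)
    rw [hI, card_product, card_range, nsmul_eq_mul]
    push_cast
    ring
  obtain ⟨hits, hhits⟩ : ∃ hits : Tp × ℕ → ℕ, hits = fun i =>
      (P.filter fun p : ℕ => (p : ℤ) ∣ val (r p) i.1 i.2).card := ⟨_, rfl⟩
  have h2 : ∀ i, ∏ p ∈ P, ff p (r p) i = (1 / 2 : ℝ) ^ hits i := by
    intro i
    rw [hhits]
    simp only [ff]
    rw [prod_ite, prod_const, prod_const_one, mul_one]
  obtain ⟨B, hB⟩ : ∃ B, B = I.filter fun i => hits i < L := ⟨_, rfl⟩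
  have h3 : (B.card : ℝ) ≤ 2 ^ L * (((Tup κ).card * (H + 1) : ℝ) * E) := by
    have h4 : (B.card : ℝ) * (1 / 2) ^ L ≤ ∑ i ∈ I, ∏ p ∈ P, ff p (r p) i := by
      calc (B.card : ℝ) * (1 / 2) ^ L = ∑ i ∈ B, (1 / 2 : ℝ) ^ L := by
            rw [sum_const, nsmul_eq_mul]
        _ ≤ ∑ i ∈ B, ∏ p ∈ P, ff p (r p) i := by
            apply sum_le_sum
            intro i hi
            rw [h2]
            rw [hB, mem_filter] at hi
            exact pow_le_pow_of_le_one (by norm_num) (by norm_num) hi.2.le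
        _ ≤ ∑ i ∈ I, ∏ p ∈ P, ff p (r p) i := by
            apply sum_le_sum_of_subset_of_nonneg
            · rw [hB]; exact filter_subset _ _
            · intro i _ _
              exact prod_nonneg fun p _ => ff_nonneg _ _ _
    have h5 := (h4.trans hr).trans h1
    have h6 : (B.card : ℝ) = 2 ^ L * ((B.card : ℝ) * (1 / 2) ^ L) := by
      rw [one_div, inv_pow]
      field_simp
    rw [h6]
    exact mul_le_mul_of_nonneg_left h5 (by positivity)
  have h4 : B.card * L ≤ m := by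
    have h5 : (B.card : ℝ) * L ≤ m := by
      refine le_trans ?_ hm
      rw [hE] at h3
      exact mul_le_mul_of_nonneg_right h3 (Nat.cast_nonneg _)
    exact_mod_cast h5
  -- the primes of the second kind
  obtain ⟨R, hR⟩ : ∃ R, R = (((range (Y + 1)).filter Nat.Prime).filter fun p => κ < p) \ P :=
    ⟨_, rfl⟩
  have h5 : m ≤ R.card := by
    have h6 : (range (Y + 1)).filter Nat.Prime ⊆ R ∪ range (κ + 1) ∪ P := by
      intro p hp
      rw [mem_union, mem_union, hR, mem_sdiff, mem_filter, mem_range]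
      by_cases h7 : p ∈ P
      · exact Or.inr h7
      · by_cases h8 : κ < p
        · exact Or.inl (Or.inl ⟨⟨hp, h8⟩, h7⟩)
        · exact Or.inl (Or.inr (by omega))
    have h7 := card_le_card h6
    have h8 : ((range (Y + 1)).filter Nat.Prime).card = Nat.primeCounting Y := by
      rw [Nat.primeCounting, Nat.primeCounting', Nat.count_eq_card_filter_range]
    have h9 := card_union_le (R ∪ range (κ + 1)) P
    have h10 := card_union_le R (range (κ + 1))
    rw [card_range] at h10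
    omega
  have h6 : Fintype.card ↥(B ×ˢ range L) ≤ Fintype.card ↥R := by
    rw [Fintype.card_coe, Fintype.card_coe, card_product, card_range]
    omega
  obtain ⟨g⟩ := Function.Embedding.nonempty_of_card_le h6
  have hRm0 : ∀ q : ℕ, q ∈ R → q.Prime ∧ κ < q ∧ q ≤ Y ∧ q ∉ P := by
    intro q hq
    rw [hR, mem_sdiff, mem_filter, mem_filter, mem_range] at hq
    exact ⟨hq.1.1.2, hq.1.2, by omega, hq.2⟩
  have hRm : ∀ q : ↥R, (q : ℕ).Prime ∧ κ < (q : ℕ) ∧ (q : ℕ) ≤ Y ∧ (q : ℕ) ∉ P :=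
    fun q => hRm0 q q.2
  have hBI0 : B ⊆ I := by
    rw [hB]
    exact filter_subset _ _
  have hBI : ∀ z : ↥(B ×ˢ range L), (z : (Tp × ℕ) × ℕ).1 ∈ I := by
    intro z
    exact hBI0 (mem_product.1 z.2).1
  have h7 : ∀ q : ℕ, ∃ ρ : ℕ, ∀ z : ↥(B ×ˢ range L), (g z : ℕ) = q →
      (q : ℤ) ∣ val ρ (z : (Tp × ℕ) × ℕ).1.1 (z : (Tp × ℕ) × ℕ).1.2 := by
    intro q
    by_cases hq : ∃ z : ↥(B ×ˢ range L), (g z : ℕ) = q
    · obtain ⟨z, hz⟩ := hq
      have h8 := hBI z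
      rw [hI, mem_product] at h8
      obtain ⟨h9, h10, -⟩ := hRm (g z)
      obtain ⟨ρ, hρ⟩ := residue h9 h10 h8.1 (z : (Tp × ℕ) × ℕ).1.2
      rw [hz] at hρ
      refine ⟨ρ, fun z' hz' => ?_⟩
      have h11 : z' = z := g.injective (Subtype.ext (hz'.trans hz.symm))
      rw [h11]
      exact hρ
    · exact ⟨0, fun z hz => absurd ⟨z, hz⟩ hq⟩
  choose r2 hr2 using h7
  obtain ⟨Q, hQ⟩ : ∃ Q : Finset ℕ, Q = Finset.univ.image fun z : ↥(B ×ˢ range L) => (g z : ℕ) :=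
    ⟨_, rfl⟩
  have hQm : ∀ q ∈ Q, q.Prime ∧ κ < q ∧ q ≤ Y ∧ q ∉ P := by
    intro q hq
    rw [hQ, mem_image] at hq
    obtain ⟨z, -, rfl⟩ := hq
    exact hRm (g z)
  have hQc : Q.card ≤ m := by
    rw [hQ]
    refine card_image_le.trans ?_
    rw [card_univ, Fintype.card_coe, card_product, card_range]
    exact h4
  have hdis : Disjoint P Q := by
    rw [disjoint_right]
    intro q hq
    exact (hQm q hq).2.2.2
  refine ⟨P ∪ Q, fun p => if p ∈ P then r p else r2 p, ?_, ?_, ?_⟩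
  · intro p hp
    rcases mem_union.1 hp with h | h
    · exact (hP1 p h).1
    · exact (hQm p h).1
  · rw [prod_union hdis]
    apply Nat.mul_le_mul
    · refine (prod_le_pow_card _ _ _ fun p hp => (hP1 p hp).2.2).trans ?_
      exact Nat.pow_le_pow_right (Nat.pow_pos (by omega)) hP2
    · refine (prod_le_pow_card _ _ _ fun p hp => (hQm p hp).2.2.1).trans ?_
      exact Nat.pow_le_pow_right (by omega) hQc
  · intro n hn i hi
    by_cases hiB : i ∈ B
    · have h8 : ∀ l, l < L → (i, l) ∈ B ×ˢ range L := fun l hl =>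
        mem_product.2 ⟨hiB, mem_range.2 hl⟩
      have h9 : (range L).card ≤ ((P ∪ Q).filter fun p : ℕ => (p : ℤ) ∣ val n i.1 i.2).card := by
        apply card_le_card_of_injOn (fun l => if h : l < L then (g ⟨(i, l), h8 l h⟩ : ℕ) else 0)
        · intro l hl
          have hl' := mem_range.1 (mem_coe.1 hl)
          have h10 : (g ⟨(i, l), h8 l hl'⟩ : ℕ) ∈ Q := by
            rw [hQ]
            exact mem_image_of_mem _ (mem_univ _)
          simp only [dif_pos hl', coe_filter, mem_union, Set.mem_ofPred_eq]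
          refine ⟨Or.inr h10, ?_⟩
          have h11 := hr2 (g ⟨(i, l), h8 l hl'⟩ : ℕ) ⟨(i, l), h8 l hl'⟩ rfl
          have h12 := hn (g ⟨(i, l), h8 l hl'⟩ : ℕ) (mem_union_right _ h10)
          simp only [if_neg (hQm _ h10).2.2.2] at h12
          exact hit_mod h11 h12
        · intro l hl l' hl' hll
          have hl1 := mem_range.1 (mem_coe.1 hl)
          have hl2 := mem_range.1 (mem_coe.1 hl')
          simp only [dif_pos hl1, dif_pos hl2] at hll
          have h10 := g.injective (Subtype.ext hll)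
          have h11 := congrArg (fun z : ↥(B ×ˢ range L) => (z : (Tp × ℕ) × ℕ).2) h10
          exact h11
      rwa [card_range] at h9
    · have h8 : L ≤ hits i := by
        by_contra hcon
        apply hiB
        rw [hB, mem_filter]
        exact ⟨hi, by omega⟩
      refine h8.trans ?_
      rw [hhits]
      apply card_le_card
      intro p hp
      rw [mem_filter] at hp ⊢
      refine ⟨mem_union_left _ hp.1, ?_⟩
      have h9 := hn p (mem_union_left _ hp.1)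
      simp only [if_pos hp.1] at h9
      exact hit_mod hp.2 h9

end Pool.Agent.X3.OmegaCore
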