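import Mathlib
import Pool.Agent.X3.OmegaCore
import Pool.Agent.X3.NfaSqfree

/-!
# Counting the good integers
-/

set_option autoImplicit false

namespace Pool.Agent.X3.OmegaFin

open Finset Filter Topology Pool.Agent.X3.OmegaAvg Pool.Agent.X3.OmegaCore

/-- the number of distinct prime factors of `|m|`, `0` for `m = 0` -/
def om (m : ℤ) : ℕ := m.natAbs.primeFactors.card

lemma le_om {S : Finset ℕ} (hS : ∀ p ∈ S, p.Prime) {m : ℤ} (hm : m ≠ 0) :
    (S.filter fun p : ℕ => (p : ℤ) ∣ m).card ≤ om m := by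
  unfold om
  apply card_le_card
  intro p hp
  rw [mem_filter] at hp
  rw [Nat.mem_primeFactors]
  exact ⟨hS p hp.1, Int.natCast_dvd.1 hp.2, Int.natAbs_ne_zero.2 hm⟩

/-- integers in a residue class and an interval -/
lemma progression {x K : ℝ} {M : ℕ} (hM : 0 < M) (N₀ : ℤ) (hx : 0 < x) (hK : 0 < K) :
    ∃ F : Finset ℤ, F.card = ⌊x / (K * M)⌋₊ ∧ ∀ n ∈ F, x ≤ n ∧ (n : ℝ) ≤ (1 + K⁻¹) * x ∧
      n ≡ N₀ [ZMOD M] := by
  classical
  have hM' : (0 : ℝ) < M := by exact_mod_cast hM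
  obtain ⟨c, hc⟩ : ∃ c : ℤ, c = N₀ + M * ⌈(x - N₀) / M⌉ := ⟨_, rfl⟩
  have h1 : x ≤ c := by
    rw [hc]
    push_cast
    have := Int.le_ceil ((x - N₀) / M)
    have h2 : (x - N₀) / M * M ≤ ⌈(x - N₀) / M⌉ * M := mul_le_mul_of_nonneg_right this hM'.le
    rw [div_mul_cancel₀ _ hM'.ne'] at h2
    linarith
  have h2 : (c : ℝ) < x + M := by
    rw [hc]
    push_cast
    have := Int.ceil_lt_add_one ((x - N₀) / M)
    have h2 : (⌈(x - N₀) / M⌉ : ℝ) * M < ((x - N₀) / M + 1) * M :=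
      mul_lt_mul_of_pos_right this hM'
    rw [add_mul, div_mul_cancel₀ _ hM'.ne'] at h2
    linarith
  refine ⟨(range ⌊x / (K * M)⌋₊).image fun l : ℕ => c + M * l, ?_, ?_⟩
  · rw [card_image_of_injective, card_range]
    intro l l' hll
    have h3 : (M : ℤ) * l = M * l' := by
      have : c + (M : ℤ) * l = c + M * l' := hll
      linarith
    have h4 : (M : ℤ) ≠ 0 := by exact_mod_cast hM.ne'
    exact_mod_cast mul_left_cancel₀ h4 h3
  · intro n hn
    obtain ⟨l, hl, rfl⟩ := mem_image.1 hn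
    have hl' := mem_range.1 hl
    have h3 : ((l : ℝ) + 1) ≤ x / (K * M) := by
      have h4 : l + 1 ≤ ⌊x / (K * M)⌋₊ := hl'
      have h5 := Nat.floor_le (show 0 ≤ x / (K * M) by positivity)
      have h6 : ((l + 1 : ℕ) : ℝ) ≤ (⌊x / (K * M)⌋₊ : ℝ) := by exact_mod_cast h4
      push_cast at h6
      linarith
    have h4 : ((l : ℝ) + 1) * M ≤ K⁻¹ * x := by
      have h5 := mul_le_mul_of_nonneg_right h3 hM'.le
      have h6 : x / (K * M) * M = K⁻¹ * x := by field_simp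
      rwa [h6] at h5
    refine ⟨?_, ?_, ?_⟩
    · push_cast
      have : (0 : ℝ) ≤ M * l := by positivity
      linarith
    · push_cast
      nlinarith
    · rw [hc]
      apply Int.ModEq.symm
      rw [Int.modEq_iff_dvd]
      exact ⟨⌈(x - N₀) / M⌉ + l, by ring⟩

/-- `n` is good, with `L` in place of `(log log x) ^ (1 - ε)` -/
def GoodN (κ H L : ℕ) (n : ℤ) : Prop := ∀ i ∈ Tup κ ×ˢ range (H + 1), L ≤ om (val n i.1 i.2)

theorem count {κ T H L Y m : ℕ} (hκ : 2 ≤ κ) (hT : κ ≤ T) (hY1 : 1 ≤ Y)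
    (hm : (2 : ℝ) ^ L * (((Tup κ).card * (H + 1) : ℝ) *
      (((κ : ℝ) + 1) / (T + 1)) ^ (1 / (12 * (Tup κ).card : ℝ))) * L ≤ m)
    (hY : κ * T + κ + m + 1 ≤ Nat.primeCounting Y) {x K Q : ℝ} (hx : 0 < x) (hK : 0 < K)
    (hQ : (((κ ^ (4 * T + 2)) ^ (κ * T) * Y ^ m : ℕ) : ℝ) ≤ Q) :
    ∃ G : Finset ℤ, (∀ n ∈ G, x ≤ n ∧ (n : ℝ) ≤ (1 + K⁻¹) * x ∧ GoodN κ H L n) ∧
      x / (K * Q) - 1 - (Tup κ).card * (H + 1) ≤ G.card := by
  classical
  obtain ⟨S, ρ, hS1, hS2, hS3⟩ := core hκ hT hY1 hm hY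
  obtain ⟨M, hM⟩ : ∃ M, M = ∏ p ∈ S, p := ⟨_, rfl⟩
  have hM0 : 0 < M := by
    rw [hM]
    exact prod_pos fun p hp => (hS1 p hp).pos
  obtain ⟨N₀, hN₀⟩ := Nat.chineseRemainderOfFinset ρ (fun p => p) S
    (fun p hp => (hS1 p hp).ne_zero) (by
      intro p hp q hq hpq
      exact (Nat.coprime_primes (hS1 p hp) (hS1 q hq)).2 hpq)
  obtain ⟨F, hF1, hF2⟩ := progression (x := x) (K := K) hM0 (N₀ : ℤ) hx hK
  obtain ⟨I, hI⟩ : ∃ I, I = Tup κ ×ˢ range (H + 1) := ⟨_, rfl⟩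
  obtain ⟨Z, hZ⟩ : ∃ Z, Z = F.filter fun n => ∃ i ∈ I, val n i.1 i.2 = 0 := ⟨_, rfl⟩
  have hZc : Z.card ≤ I.card := by
    have h1 : ∀ n : ℤ, ∃ i : Tp × ℕ, n ∈ Z → i ∈ I ∧ val n i.1 i.2 = 0 := by
      intro n
      by_cases hn : n ∈ Z
      · have hn' := hn
        rw [hZ, mem_filter] at hn'
        obtain ⟨-, i, hi1, hi2⟩ := hn'
        exact ⟨i, fun _ => ⟨hi1, hi2⟩⟩
      · exact ⟨((0, 0, 0, true), 0), fun h => absurd h hn⟩
    choose f hf using h1
    apply card_le_card_of_injOn f (fun n hn => (hf n hn).1)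
    intro n hn n' hn' h
    have h2 := (hf n hn).2
    have h3 := (hf n' hn').2
    have h4 := (hf n hn).1
    rw [h] at h2 h4
    rw [hI, mem_product, mem_Tup] at h4
    have h5 : (n - n') * (((f n').1.2.1 : ℕ) : ℤ) = 0 := by
      unfold OmegaAvg.val at h2 h3
      linear_combination h2 - h3
    rcases mul_eq_zero.1 h5 with h6 | h6
    · linarith
    · have : (f n').1.2.1 = 0 := by exact_mod_cast h6
      omega
  refine ⟨F \ Z, ?_, ?_⟩
  · intro n hn
    rw [Finset.mem_sdiff] at hn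
    obtain ⟨h1, h2, h3⟩ := hF2 n hn.1
    refine ⟨h1, h2, ?_⟩
    intro i hi
    have h4 : val n i.1 i.2 ≠ 0 := by
      intro h5
      apply hn.2
      rw [hZ, mem_filter]
      exact ⟨hn.1, i, by rw [hI]; exact hi, h5⟩
    refine le_trans ?_ (le_om hS1 h4)
    apply hS3 n _ i hi
    intro p hp
    have h5 : (p : ℤ) ∣ M := by
      rw [hM]
      exact_mod_cast dvd_prod_of_mem _ hp
    have h6 := h3.of_dvd h5
    refine h6.trans ?_
    exact (Int.natCast_modEq_iff).2 (hN₀ p hp)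
  · have h1 : F.card ≤ (F \ Z).card + Z.card := by
      have := card_sdiff_add_card F Z
      have h2 : F.card ≤ (F ∪ Z).card := card_le_card subset_union_left
      omega
    have h2 : (F.card : ℝ) ≤ (F \ Z).card + (Tup κ).card * (H + 1) := by
      have h3 : F.card ≤ (F \ Z).card + I.card := by omega
      have h4 : (F.card : ℝ) ≤ ((F \ Z).card : ℝ) + I.card := by exact_mod_cast h3
      have h5 : (I.card : ℝ) = (Tup κ).card * (H + 1) := by
        rw [hI, card_product, card_range]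
        push_cast
        ring
      linarith
    have h3 : x / (K * M) < (F.card : ℝ) + 1 := by
      rw [hF1]
      exact Nat.lt_floor_add_one _
    have h4 : x / (K * Q) ≤ x / (K * M) := by
      have hM' : (0 : ℝ) < M := by exact_mod_cast hM0
      apply div_le_div_of_nonneg_left hx.le (by positivity)
      apply mul_le_mul_of_nonneg_left _ hK.le
      refine le_trans ?_ hQ
      rw [hM]
      exact_mod_cast hS2
    linarith

lemma small {s c : ℝ} (hs : s < 1) (hc : 0 < c) : ∀ᶠ y : ℝ in atTop, y ^ s ≤ c * y := by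
  have h1 : Tendsto (fun y : ℝ => y ^ (-(1 - s))) atTop (𝓝 0) :=
    tendsto_rpow_neg_atTop (by linarith)
  filter_upwards [h1.eventually (gt_mem_nhds hc), eventually_gt_atTop 0] with y hy hy0
  have h2 : y ^ s = y ^ (-(1 - s)) * y := by
    nth_rewrite 3 [← Real.rpow_one y]
    rw [← Real.rpow_add hy0]
    congr 1
    ring
  rw [h2]
  exact mul_le_mul_of_nonneg_right hy.le hy0.le

lemma small2 {e c : ℝ} (he : 0 < e) (hc : 0 < c) :
    ∀ᶠ y : ℝ in atTop, 2 * (Real.log y) ^ (1 - e) + 2 ≤ c * Real.log y := by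
  have h1 : ∀ᶠ z : ℝ in atTop, 2 * z ^ (1 - e) + 2 ≤ c * z := by
    filter_upwards [small (s := 1 - e) (c := c / 4) (by linarith) (by positivity),
      eventually_ge_atTop (4 / c)] with z h2 h3
    have h4 : 4 ≤ c * z := by
      have := mul_le_mul_of_nonneg_left h3 hc.le
      rwa [mul_div_cancel₀ _ hc.ne'] at this
    linarith
  exact Real.tendsto_log_atTop.eventually h1

end Pool.Agent.X3.OmegaFin
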