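import Mathlib
import Pool.Agent.X3.OmegaFin

/-!
# The asymptotic inequalities for many prime factors of `n j ± a ^ h k`
-/

set_option autoImplicit false

namespace Pool.Agent.X3.OmegaAsym

open Finset Filter Topology Pool.Agent.X3.OmegaAvg Pool.Agent.X3.OmegaFin

/-- the asymptotic inequalities, in terms of `y = log x` -/
lemma asym (K ε : ℝ) (hK : 2 ≤ K) (hε : 0 < ε) (hε1 : ε < 1) (N : ℕ) (hN : 0 < N) (κ : ℕ) (hκ : κ = ⌊K⌋₊) :
    ∀ᶠ y : ℝ in atTop, ∃ T L m Y : ℕ, κ ≤ T ∧ 1 ≤ Y ∧ Real.log y ^ (1 - ε) ≤ L ∧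
      (2 : ℝ) ^ L * (((N : ℝ) * (⌊K * y⌋₊ + 1)) *
        (((κ : ℝ) + 1) / (T + 1)) ^ (1 / (12 * (N : ℝ)))) * L ≤ m ∧
      κ * T + κ + m + 1 ≤ Nat.primeCounting Y ∧
      (((κ ^ (4 * T + 2)) ^ (κ * T) * Y ^ m : ℕ) : ℝ) ≤ Real.exp (ε / 2 * y) ∧
      Real.exp ((1 - ε) * y) ≤ Real.exp y / (K * Real.exp (ε / 2 * y)) - 1 -
        N * (⌊K * y⌋₊ + 1) := by
  have hκK : (κ : ℝ) ≤ K := by rw [hκ]; exact Nat.floor_le (by linarith)
  have hκ2 : 2 ≤ κ := by rw [hκ]; exact Nat.le_floor (by exact_mod_cast hK)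
  have hN' : (1 : ℝ) ≤ N := by exact_mod_cast hN
  obtain ⟨η, hη⟩ : ∃ η : ℝ, η = 1 / (144 * N) := ⟨_, rfl⟩
  have hη0 : 0 < η := by rw [hη]; positivity
  have hη1 : η ≤ 1 / 144 := by
    rw [hη]
    apply one_div_le_one_div_of_le (by norm_num)
    linarith
  -- `m ≤ y ^ (1 - η)`
  obtain ⟨C, hC⟩ : ∃ C : ℝ, C = 2 * K * N * (κ + 1) := ⟨_, rfl⟩
  have hC0 : 0 < C := by rw [hC]; positivity
  have t1 : ∀ᶠ y : ℝ in atTop, C + 2 ≤ y ^ η := (tendsto_rpow_atTop hη0).eventually_ge_atTop _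
  have t2 : ∀ᶠ y : ℝ in atTop, (κ : ℝ) + 1 ≤ y ^ (1 / 3 : ℝ) :=
    (tendsto_rpow_atTop (by norm_num)).eventually_ge_atTop _
  have t3 := small2 hε (show 0 < 2 * η by positivity)
  have t4 := small (s := 1 - η) (c := ε / 16) (by linarith) (by positivity)
  have t5 := small (s := 1 / 3) (c := 1 / (8 * K)) (by norm_num) (by positivity)
  have t6 := small (s := 2 / 3) (c := ε / (64 * K ^ 3)) (by norm_num) (by positivity)
  have t7 := small (s := 1 - η) (c := 1 / 8) (by linarith) (by norm_num)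
  have t8 : ∀ᶠ y : ℝ in atTop, Real.log y ≤ y ^ (η / 2) := by
    have := (isLittleO_log_rpow_atTop (show 0 < η / 2 by positivity)).bound (show (0 : ℝ) < 1 by norm_num)
    filter_upwards [this, eventually_ge_atTop 1] with y hy hy1
    rw [one_mul, Real.norm_of_nonneg (Real.log_nonneg hy1),
      Real.norm_of_nonneg (Real.rpow_nonneg (by linarith) _)] at hy
    exact hy
  have t9 := small (s := 1 - η / 2) (c := ε / 16) (by linarith) (by positivity)
  have t10 : ∀ᶠ y : ℝ in atTop, Real.log y ≤ 1 / 8 * y := by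
    filter_upwards [t8, small (s := η / 2) (c := 1 / 8) (by linarith) (by norm_num)] with y h1 h2
    exact h1.trans h2
  have t11 : Tendsto (fun y : ℝ => ⌊y ^ 2⌋₊) atTop atTop :=
    tendsto_nat_floor_atTop.comp (tendsto_pow_atTop (by norm_num))
  have t12 := t11.eventually Pool.Agent.X3.NfaSqfree.counting
  have t13 : ∀ᶠ y : ℝ in atTop, 2 * K + 2 * K * N * (K * y + 1) ≤ Real.exp (ε / 2 * y) := by
    have h1 : Tendsto (fun y : ℝ => Real.exp (ε / 2 * y) / (y ^ 1)) atTop atTop := by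
      have h2 := (tendsto_exp_mul_div_rpow_atTop 1 (ε / 2) (by positivity))
      refine h2.congr fun y => ?_
      simp
    filter_upwards [h1.eventually_ge_atTop (2 * K + 2 * K * N * (K + 1)), eventually_ge_atTop 1]
      with y hy hy1
    rw [pow_one, le_div_iff₀ (by linarith)] at hy
    refine le_trans ?_ hy
    have h3 : 0 ≤ 2 * K := by linarith
    have h4 : 0 ≤ 2 * K * N := by positivity
    nlinarith
  filter_upwards [t1, t2, t3, t4, t5, t6, t7, t8, t9, t10, t12, t13, eventually_ge_atTop (16 * K + 64)]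
    with y u1 u2 u3 u4 u5 u6 u7 u8 u9 u10 u12 u13 u14
  have hy0 : 0 < y := by linarith
  have hy1 : 1 ≤ y := by linarith
  have hlog : 0 ≤ Real.log y := Real.log_nonneg hy1
  obtain ⟨T, hT⟩ : ∃ T, T = ⌊y ^ (1 / 3 : ℝ)⌋₊ := ⟨_, rfl⟩
  obtain ⟨L, hL⟩ : ∃ L, L = ⌈Real.log y ^ (1 - ε)⌉₊ := ⟨_, rfl⟩
  obtain ⟨Z, hZ⟩ : ∃ Z : ℝ, Z = (2 : ℝ) ^ L * (((N : ℝ) * (⌊K * y⌋₊ + 1)) *
        (((κ : ℝ) + 1) / (T + 1)) ^ (1 / (12 * (N : ℝ)))) * L := ⟨_, rfl⟩
  have hyT : (T : ℝ) ≤ y ^ (1 / 3 : ℝ) := by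
    rw [hT]
    exact Nat.floor_le (by positivity)
  have hyT2 : y ^ (1 / 3 : ℝ) ≤ T + 1 := by
    rw [hT]
    exact (Nat.lt_floor_add_one _).le
  have hκT : κ ≤ T := by
    rw [hT]
    apply Nat.le_floor
    linarith
  -- the bound of `Z`
  have hLr : (L : ℝ) ≤ Real.log y ^ (1 - ε) + 1 := by
    rw [hL]
    exact (Nat.ceil_lt_add_one (Real.rpow_nonneg hlog _)).le
  have z1 : (2 : ℝ) ^ L * L ≤ y ^ (2 * η) := by
    have h1 : (L : ℝ) ≤ 2 ^ L := by exact_mod_cast (Nat.lt_two_pow_self (n := L)).le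
    have h2 : (2 : ℝ) ^ L ≤ Real.exp L := by
      have : (2 : ℝ) ≤ Real.exp 1 := by
        have := Real.add_one_le_exp (1 : ℝ)
        linarith
      calc (2 : ℝ) ^ L ≤ (Real.exp 1) ^ L := pow_le_pow_left₀ (by norm_num) this _
        _ = Real.exp L := by rw [← Real.exp_nat_mul, mul_one]
    calc (2 : ℝ) ^ L * L ≤ Real.exp L * Real.exp L :=
          mul_le_mul h2 (h1.trans h2) (Nat.cast_nonneg _) (Real.exp_pos _).le
      _ = Real.exp (2 * L) := by rw [← Real.exp_add]; ring_nf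
      _ ≤ Real.exp (2 * η * Real.log y) := Real.exp_le_exp.2 (by linarith)
      _ = y ^ (2 * η) := by rw [Real.rpow_def_of_pos hy0]; ring_nf
  have z2 : (((κ : ℝ) + 1) / (T + 1)) ^ (1 / (12 * (N : ℝ))) ≤ (κ + 1) * y ^ (-(4 * η)) := by
    have h1 : ((κ : ℝ) + 1) / (T + 1) ≤ (κ + 1) * y ^ (-(1 / 3) : ℝ) := by
      rw [Real.rpow_neg hy0.le, ← div_eq_mul_inv]
      exact div_le_div_of_nonneg_left (by positivity) (by positivity) hyT2
    have h2 : (1 : ℝ) / (12 * N) = 12 * η := by rw [hη]; field_simp; norm_num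
    rw [h2]
    calc (((κ : ℝ) + 1) / (T + 1)) ^ (12 * η) ≤ ((κ + 1) * y ^ (-(1 / 3) : ℝ)) ^ (12 * η) :=
          Real.rpow_le_rpow (by positivity) h1 (by positivity)
      _ = ((κ : ℝ) + 1) ^ (12 * η) * y ^ (-(4 * η)) := by
          rw [Real.mul_rpow (by positivity) (by positivity), ← Real.rpow_mul hy0.le]
          congr 2
          ring
      _ ≤ (κ + 1) * y ^ (-(4 * η)) := by
          apply mul_le_mul_of_nonneg_right _ (by positivity)
          calc ((κ : ℝ) + 1) ^ (12 * η) ≤ ((κ : ℝ) + 1) ^ (1 : ℝ) :=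
                Real.rpow_le_rpow_of_exponent_le (by have : (0 : ℝ) ≤ κ := Nat.cast_nonneg _; linarith) (by linarith)
            _ = _ := Real.rpow_one _
  have hH : (⌊K * y⌋₊ : ℝ) + 1 ≤ 2 * K * y := by
    have h1 := Nat.floor_le (show 0 ≤ K * y by positivity)
    nlinarith
  have z3 : Z ≤ C * y ^ (1 - 2 * η) := by
    rw [hZ]
    calc (2 : ℝ) ^ L * (((N : ℝ) * (⌊K * y⌋₊ + 1)) *
        (((κ : ℝ) + 1) / (T + 1)) ^ (1 / (12 * (N : ℝ)))) * L
        = ((2 : ℝ) ^ L * L) * (((N : ℝ) * (⌊K * y⌋₊ + 1)) *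
        (((κ : ℝ) + 1) / (T + 1)) ^ (1 / (12 * (N : ℝ)))) := by ring
      _ ≤ y ^ (2 * η) * (((N : ℝ) * (2 * K * y)) * ((κ + 1) * y ^ (-(4 * η)))) := by
          apply mul_le_mul z1 _ (by positivity) (by positivity)
          apply mul_le_mul _ z2 (by positivity) (by positivity)
          exact mul_le_mul_of_nonneg_left hH (by positivity)
      _ = C * (y ^ (2 * η) * y ^ (1 : ℝ) * y ^ (-(4 * η))) := by
          rw [Real.rpow_one, hC]
          ring
      _ = C * y ^ (1 - 2 * η) := by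
          rw [← Real.rpow_add hy0, ← Real.rpow_add hy0]
          congr 2
          ring
  have z4 : Z + 1 ≤ y ^ (1 - η) := by
    have h1 : (1 : ℝ) ≤ y ^ (1 - 2 * η) := Real.one_le_rpow hy1 (by linarith)
    have h2 : y ^ (1 - η) = y ^ (1 - 2 * η) * y ^ η := by
      rw [← Real.rpow_add hy0]
      congr 1
      ring
    rw [h2]
    calc Z + 1 ≤ y ^ (1 - 2 * η) * (C + 2) := by linarith
      _ ≤ y ^ (1 - 2 * η) * y ^ η := mul_le_mul_of_nonneg_left u1 (by positivity)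
  have hZ0 : 0 ≤ Z := by rw [hZ]; positivity
  have hm : ((⌈Z⌉₊ : ℕ) : ℝ) ≤ y ^ (1 - η) := by
    have := (Nat.ceil_lt_add_one hZ0).le
    linarith
  have hκ0 : (0 : ℝ) ≤ κ := Nat.cast_nonneg _
  have hT0 : (0 : ℝ) ≤ T := Nat.cast_nonneg _
  refine ⟨T, L, ⌈Z⌉₊, ⌊y ^ 2⌋₊, hκT, ?_, ?_, ?_, ?_, ?_, ?_⟩
  · apply Nat.le_floor
    push_cast
    nlinarith
  · rw [hL]
    exact Nat.le_ceil _
  · rw [← hZ]
    exact Nat.le_ceil _
  · have h1 : ((κ * T + κ + ⌈Z⌉₊ + 1 : ℕ) : ℝ) ≤ (Nat.primeCounting ⌊y ^ 2⌋₊ : ℝ) := by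
      refine le_trans ?_ u12
      have h2 : y ^ 2 / 2 ≤ (⌊y ^ 2⌋₊ : ℝ) := by
        have := (Nat.lt_floor_add_one (y ^ 2)).le
        nlinarith
      have h3 : (⌊y ^ 2⌋₊ : ℝ) ≤ y ^ 2 := Nat.floor_le (by positivity)
      have h4 : Real.log (⌊y ^ 2⌋₊ : ℝ) ≤ 2 * Real.log y := by
        have h5 : Real.log (y ^ 2) = 2 * Real.log y := by rw [Real.log_pow]; push_cast; ring
        rw [← h5]
        apply Real.log_le_log _ h3
        have : (0 : ℝ) < y ^ 2 / 2 := by positivity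
        linarith
      have h4' : 0 < Real.log (⌊y ^ 2⌋₊ : ℝ) := by
        apply Real.log_pos
        nlinarith
      have h5 : y ≤ (⌊y ^ 2⌋₊ : ℝ) / (2 * Real.log (⌊y ^ 2⌋₊ : ℝ)) := by
        rw [le_div_iff₀ (by positivity)]
        nlinarith
      refine le_trans ?_ h5
      push_cast
      have h6 : (κ : ℝ) * T ≤ y / 8 := by
        calc (κ : ℝ) * T ≤ K * (1 / (8 * K) * y) :=
              mul_le_mul hκK (hyT.trans u5) hT0 (by linarith)
          _ = y / 8 := by field_simp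
      linarith
    exact_mod_cast h1
  · push_cast
    have hκ1 : (1 : ℝ) ≤ κ := by exact_mod_cast (by omega : 1 ≤ κ)
    have hfl : (1 : ℝ) ≤ (⌊y ^ 2⌋₊ : ℝ) := by
      have h1 : 1 ≤ ⌊y ^ 2⌋₊ := by
        apply Nat.le_floor
        push_cast
        nlinarith
      exact_mod_cast h1
    have hlK : Real.log κ ≤ K := by
      have := Real.log_le_sub_one_of_pos (show (0 : ℝ) < κ by linarith)
      linarith
    have e1 : ((κ : ℝ) ^ (4 * T + 2)) ^ (κ * T) = Real.exp (((4 * T + 2) * (κ * T) : ℝ) * Real.log κ) := by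
      have e0 := Real.exp_nat_mul (Real.log κ) ((4 * T + 2) * (κ * T))
      rw [Real.exp_log (show (0 : ℝ) < κ by linarith)] at e0
      rw [← pow_mul, ← e0]
      push_cast
      ring_nf
    have e2 : ((⌊y ^ 2⌋₊ : ℝ)) ^ ⌈Z⌉₊ = Real.exp ((⌈Z⌉₊ : ℝ) * Real.log (⌊y ^ 2⌋₊ : ℝ)) := by
      rw [Real.exp_nat_mul, Real.exp_log (by linarith)]
    rw [e1, e2, ← Real.exp_add]
    apply Real.exp_le_exp.2
    have h1 : ((4 * T + 2) * (κ * T) : ℝ) * Real.log κ ≤ ε / 4 * y := by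
      have hT1 : (1 : ℝ) ≤ T := by
        have : 1 ≤ T := by omega
        exact_mod_cast this
      have h2 : ((4 * T + 2) * (κ * T) : ℝ) ≤ 6 * K * (T * T) := by nlinarith
      have h3 : (T : ℝ) * T ≤ y ^ (2 / 3 : ℝ) := by
        calc (T : ℝ) * T ≤ y ^ (1 / 3 : ℝ) * y ^ (1 / 3 : ℝ) :=
              mul_le_mul hyT hyT hT0 (by positivity)
          _ = y ^ (2 / 3 : ℝ) := by rw [← Real.rpow_add hy0]; norm_num
      have h4 : (0 : ℝ) ≤ Real.log κ := Real.log_nonneg hκ1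
      calc ((4 * T + 2) * (κ * T) : ℝ) * Real.log κ ≤ (6 * K * (T * T)) * K :=
            mul_le_mul h2 hlK h4 (by positivity)
        _ ≤ (6 * K * y ^ (2 / 3 : ℝ)) * K := by
            apply mul_le_mul_of_nonneg_right _ (by linarith)
            exact mul_le_mul_of_nonneg_left h3 (by linarith)
        _ ≤ (6 * K * (ε / (64 * K ^ 3) * y)) * K := by
            apply mul_le_mul_of_nonneg_right _ (by linarith)
            exact mul_le_mul_of_nonneg_left u6 (by linarith)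
        _ = 6 / (64 * K) * (ε * y) := by field_simp
        _ ≤ 1 / 4 * (ε * y) := by
            apply mul_le_mul_of_nonneg_right _ (by positivity)
            rw [div_le_iff₀ (by positivity)]
            linarith
        _ = ε / 4 * y := by ring
    have h2 : (⌈Z⌉₊ : ℝ) * Real.log (⌊y ^ 2⌋₊ : ℝ) ≤ ε / 4 * y := by
      have h3 : (⌊y ^ 2⌋₊ : ℝ) ≤ y ^ 2 := Nat.floor_le (by positivity)
      have h4 : Real.log (⌊y ^ 2⌋₊ : ℝ) ≤ 2 * Real.log y := by
        have h5 : Real.log (y ^ 2) = 2 * Real.log y := by rw [Real.log_pow]; push_cast; ring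
        rw [← h5]
        exact Real.log_le_log (by linarith) h3
      have h5 : (0 : ℝ) ≤ Real.log (⌊y ^ 2⌋₊ : ℝ) := Real.log_nonneg hfl
      calc (⌈Z⌉₊ : ℝ) * Real.log (⌊y ^ 2⌋₊ : ℝ) ≤ y ^ (1 - η) * (2 * y ^ (η / 2)) :=
            mul_le_mul hm (h4.trans (by linarith)) h5 (by positivity)
        _ = 2 * y ^ (1 - η / 2) := by
            rw [mul_left_comm, ← Real.rpow_add hy0]
            congr 2
            ring
        _ ≤ 2 * (ε / 16 * y) := by linarith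
        _ ≤ ε / 4 * y := by nlinarith
    calc _ ≤ ε / 4 * y + ε / 4 * y := add_le_add h1 h2
      _ = ε / 2 * y := by ring
  · have e1 : Real.exp y / (K * Real.exp (ε / 2 * y)) =
        Real.exp ((1 - ε) * y) * (Real.exp (ε / 2 * y) / K) := by
      have h1 : Real.exp y = Real.exp ((1 - ε) * y) * Real.exp (ε / 2 * y) * Real.exp (ε / 2 * y) := by
        rw [← Real.exp_add, ← Real.exp_add]
        congr 1
        ring
      rw [h1]
      field_simp
    rw [e1]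
    have h1 : (1 : ℝ) ≤ Real.exp ((1 - ε) * y) := Real.one_le_exp (by nlinarith)
    have h2 : 2 + 2 * (N * (K * y + 1)) ≤ Real.exp (ε / 2 * y) / K := by
      rw [le_div_iff₀ (by linarith)]
      linarith
    have h3 : (⌊K * y⌋₊ : ℝ) ≤ K * y := Nat.floor_le (by positivity)
    have h4 : (N : ℝ) * (⌊K * y⌋₊ + 1) ≤ N * (K * y + 1) :=
      mul_le_mul_of_nonneg_left (by linarith) (by linarith)
    have h5 : 0 ≤ (N : ℝ) * (K * y + 1) := by positivity
    calc Real.exp ((1 - ε) * y)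
        ≤ Real.exp ((1 - ε) * y) * (2 + 2 * (N * (K * y + 1))) - 1 - N * (⌊K * y⌋₊ + 1) := by
          nlinarith
      _ ≤ _ := by
          have := mul_le_mul_of_nonneg_left h2 (show 0 ≤ Real.exp ((1 - ε) * y) by linarith)
          linarith


end Pool.Agent.X3.OmegaAsym
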