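import Mathlib
import Pool.Agent.X3.LinTwin

/-!
# Near-linear linear complexity: numerics for a general counting function
-/

set_option autoImplicit false

namespace Pool.Agent.X3.LinMult

open Filter

/-- the numerical consequence for a counting function of the order `y / log y` -/
lemma num_gen {D : ℝ} (hD : 1 ≤ D) {cnt : ℕ → ℕ}
    (hcnt : ∀ᶠ y : ℕ in atTop, (y : ℝ) / (D * Real.log y) ≤ cnt y) :
    ∃ c : ℝ, 0 < c ∧ ∀ N L : ℕ, 16 ≤ N → 1 ≤ L → L ≤ N → 2 ^ cnt (N / (L + 1)) ≤ L →
      c * (N : ℝ) / (Real.log N * Real.log (Real.log N)) ≤ L := by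
  obtain ⟨y1, hy1⟩ := eventually_atTop.1 hcnt
  obtain ⟨T1, hT1⟩ : ∃ T1 : ℝ, T1 = 3 * D * (1 + Real.log (1.5 * D)) + 1 := ⟨_, rfl⟩
  have hlD : 0 ≤ Real.log (1.5 * D) := Real.log_nonneg (by linarith)
  have hT10 : 1 ≤ T1 := by rw [hT1]; nlinarith
  have hy10 : (0 : ℝ) ≤ y1 := Nat.cast_nonneg _
  refine ⟨1 / (2 * (T1 + y1 + 3)), by positivity, ?_⟩
  intro N L hN hL hLN h
  have hNR : (16 : ℝ) ≤ N := by exact_mod_cast hN
  have hN0 : (0 : ℝ) < N := by linarith
  have l2 := Real.log_two_gt_d9
  have l2' := Real.log_two_lt_d9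
  have hlogN : 2.77 ≤ Real.log N := by
    have h1 : Real.log 16 ≤ Real.log N := Real.log_le_log (by norm_num) hNR
    have h2 : Real.log 16 = 4 * Real.log 2 := by
      rw [show (16 : ℝ) = 2 ^ 4 by norm_num, Real.log_pow]; norm_num
    linarith
  have hll : 1 ≤ Real.log (Real.log N) := by
    have h1 : Real.log (Real.exp 1) ≤ Real.log (Real.log N) := by
      apply Real.log_le_log (Real.exp_pos _)
      have := Real.exp_one_lt_d9
      linarith
    rwa [Real.log_exp] at h1
  have hprod1 : 1 ≤ Real.log N * Real.log (Real.log N) := by nlinarith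
  obtain ⟨y, hy⟩ : ∃ y, y = N / (L + 1) := ⟨_, rfl⟩
  rw [← hy] at h
  have h6 : (N : ℝ) < (L + 1) * (y + 1) := by
    have : N < (L + 1) * (N / (L + 1) + 1) := Nat.lt_mul_div_succ N (by omega)
    rw [← hy] at this
    exact_mod_cast this
  have hLR : (1 : ℝ) ≤ L := by exact_mod_cast hL
  have key : (y : ℝ) + 1 ≤ (T1 + y1 + 3) * (Real.log N * Real.log (Real.log N)) →
      1 / (2 * (T1 + y1 + 3)) * (N : ℝ) / (Real.log N * Real.log (Real.log N)) ≤ L := by
    intro h7
    rw [div_le_iff₀ (by linarith), one_div, inv_mul_le_iff₀ (by positivity)]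
    have h8 : ((L : ℝ) + 1) * (y + 1) ≤
        (2 * L) * ((T1 + y1 + 3) * (Real.log N * Real.log (Real.log N))) := by
      apply mul_le_mul (by linarith) h7 (by positivity) (by positivity)
    linarith
  apply key
  rcases Nat.lt_or_ge y (y1 + 2) with h7 | h7
  · have h8 : (y : ℝ) + 1 ≤ y1 + 2 := by
      have : y + 1 ≤ y1 + 2 := h7
      exact_mod_cast this
    have h9 : (T1 + y1 + 3) * 1 ≤ (T1 + y1 + 3) * (Real.log N * Real.log (Real.log N)) :=
      mul_le_mul_of_nonneg_left hprod1 (by positivity)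
    linarith
  · have hy2 : (2 : ℝ) ≤ y := by
      have : 2 ≤ y := by omega
      exact_mod_cast this
    have hly : 0 < Real.log y := Real.log_pos (by linarith)
    have h8 := hy1 y (by omega)
    have h9 : (cnt y : ℝ) * Real.log 2 ≤ Real.log N := by
      have h10 : ((2 : ℝ)) ^ cnt y ≤ N := by
        have : 2 ^ cnt y ≤ N := h.trans hLN
        exact_mod_cast this
      have h11 := Real.log_le_log (by positivity) h10
      rwa [Real.log_pow] at h11
    rw [div_le_iff₀ (by positivity)] at h8
    have h10 : (y : ℝ) * Real.log 2 ≤ Real.log N * (D * Real.log y) := by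
      have a1 := mul_le_mul_of_nonneg_right h8 (show 0 ≤ Real.log 2 by linarith)
      have a2 := mul_le_mul_of_nonneg_right h9 (show 0 ≤ D * Real.log y by positivity)
      linarith
    obtain ⟨T, hT⟩ : ∃ T, T = 1.5 * D * Real.log N := ⟨_, rfl⟩
    have hT0 : 0 < T := by rw [hT]; positivity
    have h11 : (y : ℝ) ≤ T * Real.log y := by
      have a3 : 0 ≤ D * Real.log N * Real.log y := by positivity
      have a4 : (y : ℝ) * 0.69 ≤ y * Real.log 2 := mul_le_mul_of_nonneg_left (by linarith) (by linarith)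
      rw [hT]
      nlinarith
    have hs0 : 0 < Real.sqrt y := Real.sqrt_pos.2 (by linarith)
    have hss : Real.sqrt y * Real.sqrt y = y := Real.mul_self_sqrt (by linarith)
    have h12 := log_le_sqrt' (show (0 : ℝ) < y by linarith)
    have h13 : Real.sqrt y ≤ T := by
      have a5 : Real.sqrt y * Real.sqrt y ≤ T * Real.sqrt y := by
        rw [hss]
        exact h11.trans (mul_le_mul_of_nonneg_left h12 hT0.le)
      exact le_of_mul_le_mul_right a5 hs0
    have h14 : Real.log y ≤ 2 * Real.log T := by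
      have a6 := Real.log_le_log hs0 h13
      rw [Real.log_sqrt (by linarith)] at a6
      linarith
    have h15 : Real.log T ≤ (1 + Real.log (1.5 * D)) * Real.log (Real.log N) := by
      have a7 : Real.log T = Real.log (1.5 * D) + Real.log (Real.log N) := by
        rw [hT, Real.log_mul (by positivity) (by positivity)]
      rw [a7]
      nlinarith
    have h16 : (y : ℝ) ≤ 3 * D * (1 + Real.log (1.5 * D)) * (Real.log N * Real.log (Real.log N)) := by
      calc (y : ℝ) ≤ T * Real.log y := h11
        _ ≤ T * (2 * ((1 + Real.log (1.5 * D)) * Real.log (Real.log N))) :=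
          mul_le_mul_of_nonneg_left (by linarith) hT0.le
        _ = _ := by rw [hT]; ring
    have h17 : (T1 + y1 + 3) * (Real.log N * Real.log (Real.log N)) =
        3 * D * (1 + Real.log (1.5 * D)) * (Real.log N * Real.log (Real.log N)) +
        (y1 + 4) * (Real.log N * Real.log (Real.log N)) := by
      rw [hT1]; ring
    have h18 : (1 : ℝ) ≤ (y1 + 4) * (Real.log N * Real.log (Real.log N)) := by nlinarith
    linarith

end Pool.Agent.X3.LinMult
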