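import Mathlib
import Pool.Agent.X3.NfaAP
import Pool.Agent.X3.LinNum
import Pool.Agent.X3.LinNum2
import Pool.Agent.X3.NfaGen
import Pool.Agent.TH915.UC.PAP

/-!
# Sets with at most one multiple of each prime of a class: linear recurrences and small automata
-/

set_option autoImplicit false

namespace Pool.Agent.X3.Sieve

open Finset Filter Pool.Agent.X3.NfaWords Pool.Agent.X3.NfaSidon

/-- the number of primes `p ≤ y` with `p ≡ a mod m` -/
def cnt (m a y : ℕ) : ℕ := ((Icc 1 y).filter fun p => p.Prime ∧ p ≡ a [MOD m]).card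

theorem cnt_le (m a : ℕ) (hm : 0 < m) (ha : a.Coprime m) :
    ∀ᶠ y : ℕ in atTop, (y : ℝ) / (((2 * m.totient : ℕ) : ℝ) * Real.log y) ≤ cnt m a y := by
  have h1 := Pool.Agent.TH915.UC.primes_ap_lower m a hm ha
  have h2 := tendsto_natCast_atTop_atTop (R := ℝ) |>.eventually h1
  filter_upwards [h2] with y hy
  rw [Nat.floor_natCast] at hy
  push_cast
  exact hy

theorem D_one (m : ℕ) (hm : 0 < m) : (1 : ℝ) ≤ ((2 * m.totient : ℕ) : ℝ) := by
  have : 1 ≤ m.totient := Nat.totient_pos.2 hm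
  have : 1 ≤ 2 * m.totient := by omega
  exact_mod_cast this

theorem cnt_mono (m a : ℕ) : Monotone (cnt m a) := by
  intro x y hxy
  unfold cnt
  apply card_le_card
  intro p hp
  rw [mem_filter, mem_Icc] at hp ⊢
  exact ⟨⟨hp.1.1, by omega⟩, hp.2⟩

/-- the window bound for a function which vanishes at the proper multiples of the primes
`p ≡ a mod m` -/
theorem window {F : Type} [Field F] (m a : ℕ) {x : ℕ → F} {N L : ℕ}
    (hx : ∀ p, p.Prime → p ≡ a [MOD m] → ∀ t, 2 ≤ t → p * t ≤ N → x (p * t) = 0)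
    (h : Pool.Agent.X3.LinMult.Recurrent x N L)
    (hne : ∃ n, L < n ∧ n ≤ N ∧ x n ≠ 0) : 2 ^ cnt m a (N / (L + 1)) ≤ L := by
  classical
  obtain ⟨y, hy⟩ : ∃ y, y = N / (L + 1) := ⟨_, rfl⟩
  rw [← hy]
  have hPm : ∀ p ∈ (Icc 1 y).filter (fun p => p.Prime ∧ p ≡ a [MOD m]),
      p.Prime ∧ p ≡ a [MOD m] ∧ p * (L + 1) ≤ N := by
    intro p hp
    rw [mem_filter, mem_Icc] at hp
    refine ⟨hp.2.1, hp.2.2, ?_⟩
    calc p * (L + 1) ≤ y * (L + 1) := Nat.mul_le_mul_right _ hp.1.2
      _ ≤ N := by rw [hy]; exact Nat.div_mul_le_self _ _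
  refine Pool.Agent.X3.LinMult.window_one h _ (fun p hp => (hPm p hp).1.one_lt.le) ?_
    (fun p => 2 * p) ?_ hne
  · intro p hp q hq hne
    exact (Nat.coprime_primes (hPm p hp).1 (hPm q hq).1).2 hne
  · intro p hp
    obtain ⟨h1, h2, h3⟩ := hPm p hp
    have h4 := h1.two_le
    refine ⟨by omega, fun t ht => ?_⟩
    have e : 2 * p + p * t = p * (t + 2) := by ring
    have h5 : p * (t + 2) ≤ N := by
      refine le_trans ?_ h3
      exact Nat.mul_le_mul_left _ (by omega)
    rw [e]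
    exact ⟨h5, hx p h1 h2 _ (by omega) h5⟩

/-- the numerical form -/
theorem linear (m a : ℕ) (hm : 0 < m) (ha : a.Coprime m) :
    ∃ c : ℝ, 0 < c ∧ ∀ (F : Type) [Field F] (x : ℕ → F) (n N L : ℕ),
      (∀ p, p.Prime → p ≡ a [MOD m] → ∀ t, 2 ≤ t → p * t ≤ n → x (p * t) = 0) →
      16 ≤ n → n ≤ N → x n ≠ 0 → Pool.Agent.X3.LinMult.Recurrent x N L →
      c * (n : ℝ) / (Real.log n * Real.log (Real.log n)) ≤ L := by
  obtain ⟨c, hc, hnum⟩ := Pool.Agent.X3.LinMult.num_gen (D_one m hm) (cnt_le m a hm ha)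
  refine ⟨min c 1, lt_min hc one_pos, ?_⟩
  intro F _ x n N L hx hn hnN hxn ⟨c', hc'⟩
  have hNR : (16 : ℝ) ≤ n := by exact_mod_cast hn
  have hlog : 1 ≤ Real.log n * Real.log (Real.log n) := by
    have l2 := Real.log_two_gt_d9
    have hlogN : 2.77 ≤ Real.log n := by
      have h1 : Real.log 16 ≤ Real.log n := Real.log_le_log (by norm_num) hNR
      have h2 : Real.log 16 = 4 * Real.log 2 := by
        rw [show (16 : ℝ) = 2 ^ 4 by norm_num, Real.log_pow]; norm_num
      linarith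
    have hll : 1 ≤ Real.log (Real.log n) := by
      have h1 : Real.log (Real.exp 1) ≤ Real.log (Real.log n) := by
        apply Real.log_le_log (Real.exp_pos _)
        have := Real.exp_one_lt_d9
        linarith
      rwa [Real.log_exp] at h1
    nlinarith
  rcases Nat.lt_or_ge L n with hL | hL
  · have h1 := window m a (N := n) hx ⟨c', fun k hk1 hk2 => hc' k hk1 (by omega)⟩ ⟨n, hL, le_rfl, hxn⟩
    have hL1 : 1 ≤ L := le_trans Nat.one_le_two_pow h1
    refine le_trans ?_ (hnum n L hn hL1 hL.le h1)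
    have hn0 : (0 : ℝ) ≤ n := by linarith
    gcongr
    exact min_le_left _ _
  · have hLR : (n : ℝ) ≤ L := by exact_mod_cast hL
    refine le_trans ?_ hLR
    rw [div_le_iff₀ (by linarith)]
    have h2 : min c 1 ≤ 1 := min_le_right _ _
    nlinarith

/-- a small prime of the class which does not divide `s` -/
theorem exists_prime_not_dvd (m a : ℕ) {s P : ℕ} (hs : 1 ≤ s) (hP : s < 2 ^ cnt m a P) :
    ∃ p, p.Prime ∧ p ≡ a [MOD m] ∧ p ≤ P ∧ ¬ p ∣ s := by
  by_contra hcon
  push Not at hcon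
  have h1 : ∏ p ∈ (Icc 1 P).filter (fun p => p.Prime ∧ p ≡ a [MOD m]), p ∣ s := by
    apply Finset.prod_primes_dvd
    · intro p hp
      exact (mem_filter.1 hp).2.1.prime
    · intro p hp
      rw [mem_filter, mem_Icc] at hp
      exact hcon p hp.2.1 hp.2.2 hp.1.2
  have h2 : 2 ^ cnt m a P ≤ ∏ p ∈ (Icc 1 P).filter (fun p => p.Prime ∧ p ≡ a [MOD m]), p := by
    unfold cnt
    apply Finset.pow_card_le_prod
    intro p hp
    exact (mem_filter.1 hp).2.1.two_le
  have h3 := Nat.le_of_dvd hs h1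
  omega

/-- two terms divisible by `p` of a progression of `2 p` terms -/
theorem ap_two {p s e : ℕ} (hp : p.Prime) (hps : ¬ p ∣ s) (he : (2 * p - 1) * s ≤ e) :
    ∃ i j, i < j ∧ j ≤ 2 * p - 1 ∧ p ∣ e + 1 - i * s ∧ p ∣ e + 1 - j * s := by
  have : NeZero p := ⟨hp.ne_zero⟩
  have hp2 := hp.two_le
  have hcop : Nat.Coprime s p := ((Nat.Prime.coprime_iff_not_dvd hp).2 hps).symm
  obtain ⟨i, hi⟩ : ∃ i, i = (((e + 1 : ℕ) : ZMod p) * ((s : ZMod p)⁻¹)).val := ⟨_, rfl⟩
  have hi1 : i < p := by rw [hi]; exact ZMod.val_lt _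
  have hdiv : ∀ j, j ≤ 2 * p - 1 → ((j : ZMod p) = (i : ZMod p)) → p ∣ e + 1 - j * s := by
    intro j hj hji
    have h1 : j * s ≤ e := le_trans (Nat.mul_le_mul_right s hj) he
    have h2 : ((e + 1 - j * s : ℕ) : ZMod p) = 0 := by
      rw [Nat.cast_sub (by omega)]
      push_cast
      have h3 : (i : ZMod p) = ((e + 1 : ℕ) : ZMod p) * ((s : ZMod p)⁻¹) := by
        rw [hi, ZMod.natCast_zmod_val]
      rw [hji, h3, mul_assoc, mul_comm ((s : ZMod p)⁻¹) _, ZMod.coe_mul_inv_eq_one s hcop]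
      push_cast
      ring
    exact (ZMod.natCast_eq_zero_iff _ _).1 h2
  exact ⟨i, i + p, by omega, by omega, hdiv i (by omega) rfl, hdiv (i + p) (by omega) (by simp)⟩

/-- **The bound for automata.** -/
theorem automata (m a : ℕ) (hm : 0 < m) (ha : a.Coprime m) :
    ∃ C : ℝ, 1 ≤ C ∧ ∀ (A : Set ℕ),
    (∀ p, p.Prime → p ≡ a [MOD m] → ∀ i j, i ∈ A → j ∈ A → p ∣ i + 1 → p ∣ j + 1 → i = j) →
    ∀ (α σ : Type) [Fintype σ] (M : NFA α σ) (N : ℕ) (x z : ℕ → α),
    16 ≤ N → (∀ i j, z i = z j → (i ∈ A ↔ j ∈ A)) →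
    seg x 0 N ∈ M.accepts → ∀ (h k : ℕ) (E : Finset ℕ), E.card ≤ k →
    (∀ i, i < N → i ∉ E → x i = z i) →
    (∀ W : Finset (List α), (∀ w ∈ W, w.length = N ∧ w ∈ M.accepts) → W.card ≤ 2 ^ h) →
    ((below A N).card : ℝ) ≤
      C * Fintype.card σ * (Real.log N * Real.log (Real.log N)) * (h + k + Real.log N) := by
  classical
  obtain ⟨C, hC, hcnt⟩ := Pool.Agent.X3.LinMult.cnt_bound (D_one m hm) (cnt_le m a hm ha)
  refine ⟨160 * C, by linarith, ?_⟩
  intro A hA α σ _ M N x z hN hz hacc h k E hE hxz hW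
  obtain ⟨q, hq⟩ : ∃ q, q = Fintype.card σ := ⟨_, rfl⟩
  rw [← hq]
  have hNR : (16 : ℝ) ≤ N := by exact_mod_cast hN
  have l2 := Real.log_two_gt_d9
  have l2' := Real.log_two_lt_d9
  have hlogN : 2.77 ≤ Real.log N := by
    have h1 : Real.log 16 ≤ Real.log N := Real.log_le_log (by norm_num) hNR
    have h2 : Real.log 16 = 4 * Real.log 2 := by
      rw [show (16 : ℝ) = 2 ^ 4 by norm_num, Real.log_pow]; norm_num
    linarith
  have hll : 1 ≤ Real.log (Real.log N) := by
    have h1 : Real.log (Real.exp 1) ≤ Real.log (Real.log N) := by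
      apply Real.log_le_log (Real.exp_pos _)
      have := Real.exp_one_lt_d9
      linarith
    rwa [Real.log_exp] at h1
  obtain ⟨Λ, hΛ⟩ : ∃ Λ, Λ = Real.log N * Real.log (Real.log N) := ⟨_, rfl⟩
  have hΛ2 : 2 ≤ Λ := by rw [hΛ]; nlinarith
  rw [← hΛ]
  have hq1 : 1 ≤ q := by
    have hacc2 := hacc
    rw [NFA.accepts_iff_exists_path] at hacc2
    obtain ⟨s, -⟩ := hacc2
    rw [hq]
    exact Fintype.card_pos_iff.2 ⟨s⟩
  have hq1R : (1 : ℝ) ≤ q := by exact_mod_cast hq1
  have hhk : (0 : ℝ) ≤ (h : ℝ) + k := by positivity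
  rcases Nat.lt_or_ge N q with hqN | hqN
  · have hqNR : (N : ℝ) ≤ q := by exact_mod_cast hqN.le
    have h1 : (below A N).card ≤ N := by
      have h2 : below A N ⊆ range N := by
        intro i hi
        exact mem_range.2 (mem_below.1 hi).1
      have := card_le_card h2
      rwa [card_range] at this
    have h1R : ((below A N).card : ℝ) ≤ N := by exact_mod_cast h1
    refine h1R.trans (hqNR.trans ?_)
    have h3 : 1 ≤ 160 * C * Λ := by nlinarith
    have h4 : 1 ≤ (h : ℝ) + k + Real.log N := by linarith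
    calc (q : ℝ) = q * 1 * 1 := by ring
      _ ≤ q * (160 * C * Λ) * (h + k + Real.log N) := by
          apply mul_le_mul (mul_le_mul_of_nonneg_left h3 (by linarith)) h4 (by norm_num)
          positivity
      _ = 160 * C * q * Λ * (h + k + Real.log N) := by ring
  -- the bound for the primes
  have hex : ∃ P, N ^ 2 < 2 ^ cnt m a P := by
    have h1 := cnt_le m a hm ha
    by_contra hcon
    push Not at hcon
    have h2 : ∀ y : ℕ, (y : ℝ) + 1 ≤ C * (Real.log ((N ^ 2 : ℕ) : ℝ) *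
        Real.log (Real.log ((N ^ 2 : ℕ) : ℝ))) := by
      intro y
      exact hcnt (N ^ 2) y (by nlinarith) (hcon y)
    obtain ⟨y, hy⟩ := exists_nat_gt (C * (Real.log ((N ^ 2 : ℕ) : ℝ) *
        Real.log (Real.log ((N ^ 2 : ℕ) : ℝ))))
    have := h2 y
    linarith
  obtain ⟨P, hP⟩ : ∃ P, P = Nat.find hex := ⟨_, rfl⟩
  have hP1 : N ^ 2 < 2 ^ cnt m a P := by rw [hP]; exact Nat.find_spec hex
  have hP0 : 1 ≤ P := by
    by_contra hcon
    have : P = 0 := by omega
    rw [this] at hP1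
    have e : cnt m a 0 = 0 := by unfold cnt; simp
    rw [e] at hP1
    nlinarith
  have hP2 : 2 ^ cnt m a (P - 1) ≤ N ^ 2 := by
    have := Nat.find_min hex (m := P - 1) (by omega)
    omega
  have hPR : (P : ℝ) ≤ 4 * C * Λ := by
    have h1 := hcnt (N ^ 2) (P - 1) (by nlinarith) hP2
    have h2 : (((P - 1 : ℕ) : ℝ)) + 1 = P := by
      rw [Nat.cast_sub hP0]
      push_cast
      ring
    rw [h2] at h1
    refine h1.trans ?_
    have h3 : Real.log ((N ^ 2 : ℕ) : ℝ) = 2 * Real.log N := by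
      push_cast
      rw [Real.log_pow]
      push_cast
      ring
    rw [h3, Real.log_mul (by norm_num) (by positivity)]
    have h4 : Real.log 2 + Real.log (Real.log N) ≤ 2 * Real.log (Real.log N) := by linarith
    have h5 : 2 * Real.log N * (Real.log 2 + Real.log (Real.log N)) ≤
        2 * Real.log N * (2 * Real.log (Real.log N)) :=
      mul_le_mul_of_nonneg_left h4 (by positivity)
    calc C * (2 * Real.log N * (Real.log 2 + Real.log (Real.log N))) ≤
        C * (2 * Real.log N * (2 * Real.log (Real.log N))) :=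
          mul_le_mul_of_nonneg_left h5 (by positivity)
      _ = 4 * C * Λ := by rw [hΛ]; ring
  have hb := Pool.Agent.X3.NfaAP.bound M A (2 * P - 1) N h k
    ((2 * P - 1 + 1) * (4 * q) + 1) (by
      intro e s hs1 hs2 hRs heN hap
      rw [← hq] at hs2
      obtain ⟨p, hp, hpa, hpP, hps⟩ := exists_prime_not_dvd m a (s := s) (P := P) hs1 (by
        refine lt_of_le_of_lt ?_ hP1
        have : s ≤ 4 * N := hs2.trans (Nat.mul_le_mul_left _ hqN)
        nlinarith)
      obtain ⟨i, j, hij, hj, h1, h2⟩ := ap_two (s := s) (e := e) hp hps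
        (le_trans (Nat.mul_le_mul_right s (by omega)) hRs)
      have h3 : ∀ i, i ≤ 2 * P - 1 → i * s ≤ e := fun i hi =>
        le_trans (Nat.mul_le_mul_right s hi) hRs
      have h4 := hA p hp hpa (e - i * s) (e - j * s) (hap i (by omega)) (hap j (by omega)) (by
        have : e - i * s + 1 = e + 1 - i * s := by have := h3 i (by omega); omega
        rw [this]; exact h1) (by
        have : e - j * s + 1 = e + 1 - j * s := by have := h3 j (by omega); omega
        rw [this]; exact h2)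
      have h5 := h3 j (by omega)
      have h6 : i * s < j * s := Nat.mul_lt_mul_of_pos_right hij (by omega)
      omega) (by
      intro b
      rw [← hq]
      have h1 : ((below A N).filter fun a =>
          b ≤ a ∧ a < b + (2 * P - 1 + 1) * (4 * q)) ⊆
          Finset.Ico b (b + (2 * P - 1 + 1) * (4 * q)) := by
        intro a ha
        exact mem_Ico.2 (mem_filter.1 ha).2
      have h2 := card_le_card h1
      rw [Nat.card_Ico] at h2
      omega) x z (fun i j hij => hz i j hij) hacc E hE hxz hW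
  rw [← hq] at hb
  have hP1' : 2 * P - 1 + 1 = 2 * P := by omega
  rw [hP1'] at hb
  have hbR : ((below A N).card : ℝ) ≤
      ((h : ℝ) + k + Nat.clog 2 q + 2) * ((2 * (P : ℝ)) * (4 * q) + 1) := by exact_mod_cast hb
  have hclog : (Nat.clog 2 q : ℝ) + 2 ≤ 4 * Real.log N := by
    obtain ⟨m, hm⟩ : ∃ m, m = Nat.clog 2 q := ⟨_, rfl⟩
    rw [← hm]
    rcases Nat.lt_or_ge q 2 with hq2 | hq2
    · have : m = 0 := by
        rw [hm, Nat.clog_of_right_le_one (by omega)]
      rw [this]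
      push_cast
      linarith
    have h3 : 2 ^ (m - 1) < q := by
      rw [hm]
      exact Nat.pow_pred_clog_lt_self (by norm_num) (by omega)
    have h4 : ((m - 1 : ℕ) : ℝ) * Real.log 2 ≤ Real.log N := by
      rw [← Real.log_pow]
      apply Real.log_le_log (by positivity)
      have : 2 ^ (m - 1) ≤ N := by omega
      exact_mod_cast this
    have h5 : (m : ℝ) ≤ ((m - 1 : ℕ) : ℝ) + 1 := by
      have : m ≤ (m - 1) + 1 := by omega
      exact_mod_cast this
    have h6 : (0 : ℝ) ≤ ((m - 1 : ℕ) : ℝ) := Nat.cast_nonneg _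
    nlinarith
  have hP1R : (1 : ℝ) ≤ P := by exact_mod_cast hP0
  have h7 : (2 * (P : ℝ)) * (4 * q) + 1 ≤ 40 * C * q * Λ := by
    have a1 : (1 : ℝ) ≤ P * q := by nlinarith
    have a2 : (P : ℝ) * q ≤ (4 * C * Λ) * q := mul_le_mul_of_nonneg_right hPR (by linarith)
    nlinarith
  have h8 : (h : ℝ) + k + Nat.clog 2 q + 2 ≤ 4 * (h + k + Real.log N) := by linarith
  calc ((below A N).card : ℝ) ≤ _ := hbR
    _ ≤ 4 * (h + k + Real.log N) * (40 * C * q * Λ) := by
        apply mul_le_mul h8 h7 (by positivity)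
        have : 0 ≤ Real.log N := by linarith
        positivity
    _ = 160 * C * q * Λ * (h + k + Real.log N) := by ring

end Pool.Agent.X3.Sieve
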