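import Mathlib
import Pool.Agent.X3.NfaRegions

/-!
# Exchange of loops in many regions, with errors
-/

set_option autoImplicit false

namespace Pool.Agent.X3.NfaWords

open Finset

variable {α σ : Type}

/-- **Many words, some of the regions contain errors.** -/
theorem regions_err [Fintype σ] {M : NFA α σ} {x z : ℕ → α} {N : ℕ} (hacc : seg x 0 N ∈ M.accepts)
    (K k l r : ℕ) (B : ℕ → ℕ) (hBN : B (K + k) ≤ N) (E : Finset ℕ) (hE : E.card ≤ k)
    (hxz : ∀ i, i < N → i ∉ E → x i = z i)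
    (hsep : ∀ i, i < K + k → B i + l ≤ B (i + 1) ∧ B i < B (i + 1) ∧ Sep z l (B i) (B (i + 1)))
    (hr : ∀ n : ℕ, l + 1 ≤ n * Fintype.card σ → r ≤ n) :
    ∃ W : Finset (List α), (∀ w ∈ W, w.length = N ∧ w ∈ M.accepts) ∧
      r ^ K / (K * l + 1) ≤ W.card := by
  classical
  rw [NFA.accepts_iff_exists_path] at hacc
  obtain ⟨s, hs, t, ht, ⟨p⟩⟩ := hacc
  obtain ⟨f, hf0, hfN, hf⟩ := run_of_P N 0 s t (by simpa using P_of_path p)
  rw [Nat.zero_add] at hfN
  have hrun : Run M x f N := fun i hi => hf i (Nat.zero_le _) (by omega)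
  have hacc' : ∀ w, P M s w t → w ∈ M.accepts := by
    intro w hw
    rw [NFA.accepts_iff_exists_path]
    exact ⟨s, hs, t, ht, path_of_P hw⟩
  have hBmono : ∀ i j, i ≤ j → j ≤ K + k → B i ≤ B j := by
    intro i j hij
    induction j with
    | zero =>
      intro _
      have : i = 0 := by omega
      rw [this]
    | succ j ih =>
      intro hj
      rcases Nat.lt_or_ge i (j + 1) with h | h
      · have := ih (by omega) (by omega)
        have h2 := (hsep j (by omega)).1
        omega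
      · have : i = j + 1 := by omega
        rw [this]
  -- the good regions
  obtain ⟨G, hG⟩ : ∃ G : Finset ℕ, G = (range (K + k)).filter fun i =>
      ∀ e ∈ E, ¬ (B i ≤ e ∧ e < B (i + 1)) := ⟨_, rfl⟩
  have hGcard : K ≤ G.card := by
    have h1 : ((range (K + k)).filter fun i =>
        ¬ ∀ e ∈ E, ¬ (B i ≤ e ∧ e < B (i + 1))).card ≤ E.card := by
      have hch : ∀ i ∈ (range (K + k)).filter (fun i =>
          ¬ ∀ e ∈ E, ¬ (B i ≤ e ∧ e < B (i + 1))),
          ∃ e ∈ E, B i ≤ e ∧ e < B (i + 1) := by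
        intro i hi
        have := (mem_filter.1 hi).2
        push Not at this
        exact this
      choose! g hg1 hg2 using hch
      refine card_le_card_of_injOn g (fun i hi => hg1 i hi) ?_
      intro i hi j hj he
      have a1 := hg2 i hi
      have a2 := hg2 j hj
      have b1 := mem_range.1 (mem_filter.1 hi).1
      have b2 := mem_range.1 (mem_filter.1 hj).1
      rw [he] at a1
      rcases lt_trichotomy i j with h | h | h
      · have := hBmono (i + 1) j (by omega) (by omega)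
        omega
      · exact h
      · have := hBmono (j + 1) i (by omega) (by omega)
        omega
    have h2 := card_filter_add_card_filter_not (s := range (K + k)) (fun i =>
      ∀ e ∈ E, ¬ (B i ≤ e ∧ e < B (i + 1)))
    rw [card_range] at h2
    rw [hG]
    omega
  obtain ⟨g, hg⟩ : ∃ g : Fin K ↪o ℕ, g = G.orderEmbOfCardLe hGcard := ⟨_, rfl⟩
  have hgm : ∀ i, g i ∈ G := by
    intro i
    rw [hg]
    exact orderEmbOfCardLe_mem _ _ _
  have hgK : ∀ i, g i < K + k := by
    intro i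
    have := hgm i
    rw [hG, mem_filter, mem_range] at this
    exact this.1
  obtain ⟨a, ha⟩ : ∃ a : ℕ → ℕ, a = fun m => if h : m < K then B (g ⟨m, h⟩) else N :=
    ⟨_, rfl⟩
  have ha1 : ∀ m (h : m < K), a m = B (g ⟨m, h⟩) := by
    intro m h
    rw [ha]
    simp [h]
  have haK : a K = N := by
    rw [ha]
    simp
  have hnext : ∀ m (h : m < K), B (g ⟨m, h⟩ + 1) ≤ a (m + 1) := by
    intro m h
    rcases Nat.lt_or_ge (m + 1) K with h2 | h2
    · rw [ha1 _ h2]
      have h4 : g ⟨m, h⟩ < g ⟨m + 1, h2⟩ := g.strictMono (by simp)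
      exact hBmono _ _ (by omega) (hgK _).le
    · have : m + 1 = K := by omega
      rw [this, haK]
      refine le_trans (hBmono _ _ ?_ le_rfl) hBN
      have := hgK ⟨m, h⟩
      omega
  have hsep' : ∀ i, i < K → a i + l ≤ a (i + 1) ∧ Sep x l (a i) (a (i + 1)) := by
    intro i hi
    have h1 := hnext i hi
    obtain ⟨h2, h3, h4⟩ := hsep (g ⟨i, hi⟩) (hgK _)
    rw [ha1 i hi]
    refine ⟨by omega, ?_⟩
    intro u s' hu1 hu2 hs1 hs2
    have hGi := hgm ⟨i, hi⟩
    rw [hG, mem_filter] at hGi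
    obtain ⟨j, hj1, hj2, hj3⟩ := h4 u s' hu1 hu2 hs1 hs2
    have hBl : B (g ⟨i, hi⟩ + 1) ≤ N :=
      le_trans (hBmono _ _ (by have := hgK ⟨i, hi⟩; omega) le_rfl) hBN
    have hxz' : ∀ n, B (g ⟨i, hi⟩) ≤ n → n < B (g ⟨i, hi⟩ + 1) → x n = z n := by
      intro n hn1 hn2
      refine hxz n (by omega) fun hmem => ?_
      exact hGi.2 n hmem ⟨hn1, hn2⟩
    refine ⟨j, hj1, by omega, ?_⟩
    rw [hxz' (j + s') (by omega) hj2, hxz' j (by omega) (by omega)]
    exact hj3
  obtain ⟨W, hW1, hW2⟩ := regions hrun K l r a haK.le hsep' hr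
  refine ⟨W, fun w hw => ⟨(hW1 w hw).1, hacc' _ ?_⟩, hW2⟩
  have := (hW1 w hw).2
  rwa [hf0, hfN] at this

end Pool.Agent.X3.NfaWords
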