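import Mathlib
import Pool.Agent.X3.NfaErr
import Pool.Agent.X3.NfaDigits

/-!
# Automata and the values of completely multiplicative functions
-/

set_option autoImplicit false

namespace Pool.Agent.X3.NfaMult

open Finset Pool.Agent.X3.NfaWords

variable {G : Type} [CommGroup G]

lemma f_one {f : ℕ → G} (hf : ∀ m n, 1 ≤ m → 1 ≤ n → f (m * n) = f m * f n) : f 1 = 1 := by
  have := hf 1 1 le_rfl le_rfl
  rw [mul_one] at this
  exact mul_eq_left.1 this.symm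

lemma f_pow {f : ℕ → G} (hf : ∀ m n, 1 ≤ m → 1 ≤ n → f (m * n) = f m * f n) {j : ℕ} (hj : 1 ≤ j)
    (n : ℕ) : f (j ^ n) = f j ^ n := by
  induction n with
  | zero => simpa using f_one hf
  | succ n ih => rw [pow_succ, hf _ _ (Nat.one_le_pow _ _ hj) hj, ih, pow_succ]

lemma succ_pow_le' {j : ℕ} (hj : 1 ≤ j) (e : ℕ) :
    (j + 1) ^ (e + 1) + j ^ e ≤ j ^ (e + 1) + 2 ^ (e + 1) * j ^ e := by
  induction e with
  | zero => simp
  | succ e ih =>
    have h2 : j ^ e ≤ j ^ (e + 1) := Nat.pow_le_pow_right hj (by omega)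
    have h3 : (2 ^ (e + 1) - 1) * j ^ e ≤ (2 ^ (e + 1) - 1) * j ^ (e + 1) :=
      Nat.mul_le_mul_left _ h2
    have h4 : 1 ≤ 2 ^ (e + 1) := Nat.one_le_two_pow
    obtain ⟨t, ht⟩ : ∃ t, 2 ^ (e + 1) = t + 1 := ⟨2 ^ (e + 1) - 1, by omega⟩
    have ih2 := Nat.mul_le_mul_right (j + 1) ih
    have e1 : (j + 1) ^ (e + 1 + 1) = (j + 1) ^ (e + 1) * (j + 1) := pow_succ _ _
    have e2 : 2 ^ (e + 1 + 1) = 2 * (t + 1) := by rw [pow_succ, ht]; ring
    have e3 : j ^ (e + 1 + 1) = j ^ (e + 1) * j := pow_succ _ _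
    have e4 : j ^ (e + 1) = j ^ e * j := pow_succ _ _
    rw [e1, e2]
    rw [ht] at ih2 h3
    simp only [Nat.add_sub_cancel] at h3
    nlinarith

lemma succ_pow_le {j d : ℕ} (hj : 1 ≤ j) (hd : 1 ≤ d) :
    (j + 1) ^ d ≤ j ^ d + 2 ^ d * j ^ (d - 1) := by
  obtain ⟨e, rfl⟩ : ∃ e, d = e + 1 := ⟨d - 1, by omega⟩
  have := succ_pow_le' hj e
  simp only [Nat.add_sub_cancel]
  omega

/-- numbers of the form `p j^d` in intervals -/
lemma exists_pow {p d B : ℕ} (hp : 1 ≤ p) (hd : 1 ≤ d) (hB : p ≤ B) :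
    ∃ j : ℕ, 1 ≤ j ∧ p * j ^ d ≤ B ∧
      (B : ℝ) < p * (j : ℝ) ^ d + p * 2 ^ d * (B : ℝ) ^ (1 - 1 / (d : ℝ)) := by
  have hd0 : d ≠ 0 := by omega
  obtain ⟨j, hj1, hj2⟩ : ∃ j : ℕ, p * j ^ d ≤ B ∧ B < p * (j + 1) ^ d := by
    have hex : ∃ n : ℕ, B < p * (n + 1) ^ d := by
      refine ⟨B, ?_⟩
      calc B < 1 * (B + 1) := by omega
        _ ≤ p * (B + 1) ^ d := Nat.mul_le_mul hp (Nat.le_self_pow hd0 _)
    classical
    refine ⟨Nat.find hex, ?_, Nat.find_spec hex⟩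
    rcases Nat.eq_zero_or_pos (Nat.find hex) with h | h
    · rw [h, zero_pow hd0]; omega
    · have := Nat.find_min hex (m := Nat.find hex - 1) (by omega)
      push Not at this
      rwa [Nat.sub_add_cancel h] at this
  have hj : 1 ≤ j := by
    by_contra hcon
    have : j = 0 := by omega
    subst this
    simp at hj2
    omega
  refine ⟨j, hj, hj1, ?_⟩
  have h1 : B < p * (j ^ d + 2 ^ d * j ^ (d - 1)) :=
    lt_of_lt_of_le hj2 (Nat.mul_le_mul_left _ (succ_pow_le hj hd))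
  have h1R : (B : ℝ) < p * ((j : ℝ) ^ d + 2 ^ d * (j : ℝ) ^ (d - 1)) := by exact_mod_cast h1
  have h2 : j ^ d ≤ B := le_trans (Nat.le_mul_of_pos_left _ hp) hj1
  have h2R : ((j : ℝ)) ^ d ≤ B := by exact_mod_cast h2
  have hdR : (0 : ℝ) < d := by exact_mod_cast (show 0 < d by omega)
  have h3 : (j : ℝ) ^ (d - 1) ≤ (B : ℝ) ^ (1 - 1 / (d : ℝ)) := by
    have e1 : (j : ℝ) ^ (d - 1) = (((j : ℝ)) ^ d) ^ (1 - 1 / (d : ℝ)) := by
      rw [← Real.rpow_natCast, ← Real.rpow_natCast, ← Real.rpow_mul (Nat.cast_nonneg j)]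
      congr 1
      rw [Nat.cast_sub hd]
      field_simp
      simp
    rw [e1]
    refine Real.rpow_le_rpow (by positivity) h2R ?_
    rw [sub_nonneg, div_le_one hdR]
    exact_mod_cast hd
  have hpR : (0 : ℝ) < p := by exact_mod_cast (show 0 < p by omega)
  have h4 : (p : ℝ) * 2 ^ d * (j : ℝ) ^ (d - 1) ≤ p * 2 ^ d * (B : ℝ) ^ (1 - 1 / (d : ℝ)) :=
    mul_le_mul_of_nonneg_left h3 (by positivity)
  linarith

/-- periodic stretches are short -/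
theorem stretch {f : ℕ → G} (hf : ∀ m n, 1 ≤ m → 1 ≤ n → f (m * n) = f m * f n) {d : ℕ}
    (hd : 1 ≤ d) (hG : ∀ g : G, g ^ d = 1) {p : ℕ} (hp : 1 ≤ p) (hfp : f p ≠ 1) {s u v : ℕ}
    (hs : 1 ≤ s) (h : ∀ n, u ≤ n → n + s ≤ v → f (n + s) = f n) :
    (v : ℝ) ≤ u + (2 + p) * s +
      p * 2 ^ d * ((v : ℝ) ^ (1 - 1 / (d : ℝ)) * (s : ℝ) ^ (1 / (d : ℝ))) := by
  have hsR : (1 : ℝ) ≤ s := by exact_mod_cast hs
  have hpR : (1 : ℝ) ≤ p := by exact_mod_cast hp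
  have hdR : (0 : ℝ) < d := by exact_mod_cast (show 0 < d by omega)
  have hlast : 0 ≤ p * 2 ^ d * ((v : ℝ) ^ (1 - 1 / (d : ℝ)) * (s : ℝ) ^ (1 / (d : ℝ))) := by
    positivity
  have huR : (0 : ℝ) ≤ u := Nat.cast_nonneg _
  obtain ⟨A, hA⟩ : ∃ A, A = u / s + 1 := ⟨_, rfl⟩
  obtain ⟨B, hB⟩ : ∃ B, B = v / s := ⟨_, rfl⟩
  have hApos : 1 ≤ A := by rw [hA]; exact Nat.succ_pos _
  have hA1 : u < s * A := by rw [hA]; exact Nat.lt_mul_div_succ u hs
  have hA2 : s * A ≤ u + s := by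
    rw [hA, mul_add, mul_one]
    have := Nat.mul_div_le u s
    omega
  have hB1 : s * B ≤ v := by rw [hB]; exact Nat.mul_div_le v s
  have hB2 : v < s * B + s := by
    rw [hB]
    have := Nat.lt_mul_div_succ v hs
    rw [mul_add, mul_one] at this
    exact this
  rcases Nat.lt_or_ge B A with hBA | hBA
  · -- the interval is short
    have h1 : s * (B + 1) ≤ s * A := Nat.mul_le_mul_left _ hBA
    have h2 : v ≤ u + s := by rw [mul_add, mul_one] at h1; omega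
    have h2R : (v : ℝ) ≤ u + s := by exact_mod_cast h2
    nlinarith
  rcases Nat.lt_or_ge B p with hBp | hBp
  · have h1 : s * (B + 1) ≤ s * p := Nat.mul_le_mul_left _ hBp
    have h2 : v ≤ s * p := by rw [mul_add, mul_one] at h1; omega
    have h2R : (v : ℝ) ≤ s * p := by exact_mod_cast h2
    nlinarith
  have hconst : ∀ k, A ≤ k → k ≤ B → f k = f A := by
    intro k hk
    induction k, hk using Nat.le_induction with
    | base => intro _; rfl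
    | succ k hk ih =>
      intro hkB
      rw [← ih (by omega)]
      have h1 : u ≤ s * k := le_trans hA1.le (Nat.mul_le_mul_left _ hk)
      have h2 : s * k + s ≤ v := by
        have : s * (k + 1) ≤ s * B := Nat.mul_le_mul_left _ hkB
        rw [mul_add, mul_one] at this
        omega
      have h3 := h (s * k) h1 h2
      have e : s * k + s = s * (k + 1) := by ring
      rw [e, hf s (k + 1) hs (by omega), hf s k hs (by omega)] at h3
      exact mul_left_cancel h3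
  obtain ⟨j, hj1, hj2, hj3⟩ := exists_pow hp hd hBp
  obtain ⟨i, hi1, hi2, hi3⟩ := exists_pow (p := 1) le_rfl hd (hp.trans hBp)
  rw [one_mul] at hi2
  have hfj : f (p * j ^ d) = f p := by
    rw [hf _ _ hp (Nat.one_le_pow _ _ hj1), f_pow hf hj1, hG, mul_one]
  have hfi : f (i ^ d) = 1 := by rw [f_pow hf hi1, hG]
  have hkey : (B : ℝ) < A + p * 2 ^ d * (B : ℝ) ^ (1 - 1 / (d : ℝ)) := by
    rcases Nat.lt_or_ge (p * j ^ d) A with h1 | h1
    · have h1R : (p : ℝ) * (j : ℝ) ^ d < A := by exact_mod_cast h1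
      linarith
    · rcases Nat.lt_or_ge (i ^ d) A with h2 | h2
      · have h2R : ((i : ℝ)) ^ d < A := by exact_mod_cast h2
        have h4 : (1 : ℝ) * (2 ^ d * (B : ℝ) ^ (1 - 1 / (d : ℝ))) ≤
            p * (2 ^ d * (B : ℝ) ^ (1 - 1 / (d : ℝ))) :=
          mul_le_mul_of_nonneg_right hpR (by positivity)
        simp only [Nat.cast_one, one_mul] at hi3 h4
        linarith
      · exfalso
        apply hfp
        rw [← hfj, ← hfi, hconst _ h1 hj2, hconst _ h2 hi2]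
  have hs0 : (0 : ℝ) < s := by linarith
  have hBv : (B : ℝ) ≤ v / s := by
    rw [le_div_iff₀ hs0, mul_comm]; exact_mod_cast hB1
  have hexp : 0 ≤ 1 - 1 / (d : ℝ) := by
    rw [sub_nonneg, div_le_one hdR]
    exact_mod_cast hd
  have h5 : (B : ℝ) ^ (1 - 1 / (d : ℝ)) ≤ (v / s : ℝ) ^ (1 - 1 / (d : ℝ)) :=
    Real.rpow_le_rpow (Nat.cast_nonneg _) hBv hexp
  have h6 : (s : ℝ) * (v / s : ℝ) ^ (1 - 1 / (d : ℝ)) =
      (v : ℝ) ^ (1 - 1 / (d : ℝ)) * (s : ℝ) ^ (1 / (d : ℝ)) := by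
    rw [Real.div_rpow (Nat.cast_nonneg _) hs0.le]
    have : (s : ℝ) = (s : ℝ) ^ (1 - 1 / (d : ℝ)) * (s : ℝ) ^ (1 / (d : ℝ)) := by
      rw [← Real.rpow_add hs0]
      simp
    have hne : (s : ℝ) ^ (1 - 1 / (d : ℝ)) ≠ 0 := (Real.rpow_pos_of_pos hs0 _).ne'
    rw [mul_div_assoc', div_eq_iff hne]
    conv_lhs => rw [this]
    ring
  have hB2R : (v : ℝ) < s * B + s := by exact_mod_cast hB2
  have hA2R : (s : ℝ) * A ≤ u + s := by exact_mod_cast hA2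
  have h7 : (s : ℝ) * B ≤ s * A + p * 2 ^ d * (s * (B : ℝ) ^ (1 - 1 / (d : ℝ))) := by
    have := mul_le_mul_of_nonneg_left hkey.le hs0.le
    linarith
  have h8 : (s : ℝ) * (B : ℝ) ^ (1 - 1 / (d : ℝ)) ≤
      (v : ℝ) ^ (1 - 1 / (d : ℝ)) * (s : ℝ) ^ (1 / (d : ℝ)) := by
    rw [← h6]
    exact mul_le_mul_of_nonneg_left h5 hs0.le
  have h9 : p * 2 ^ d * (s * (B : ℝ) ^ (1 - 1 / (d : ℝ))) ≤
      p * 2 ^ d * ((v : ℝ) ^ (1 - 1 / (d : ℝ)) * (s : ℝ) ^ (1 / (d : ℝ))) :=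
    mul_le_mul_of_nonneg_left h8 (by positivity)
  nlinarith

/-- the regions -/
lemma sep {f : ℕ → G} (hf : ∀ m n, 1 ≤ m → 1 ≤ n → f (m * n) = f m * f n) {d : ℕ}
    (hd : 1 ≤ d) (hG : ∀ g : G, g ^ d = 1) {p : ℕ} (hp : 1 ≤ p) (hfp : f p ≠ 1) {N l a H : ℕ}
    (hl : 1 ≤ l) (hlN : l ≤ N) (haN : a + H ≤ N)
    (hH : (p + 5 + p * 2 ^ d : ℝ) * ((N : ℝ) ^ (1 - 1 / (d : ℝ)) * (l : ℝ) ^ (1 / (d : ℝ))) ≤ H) :
    a + l ≤ a + H ∧ a < a + H ∧ Sep (fun i => f (i + 1)) l a (a + H) := by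
  have hlR : (1 : ℝ) ≤ l := by exact_mod_cast hl
  have hpR : (1 : ℝ) ≤ p := by exact_mod_cast hp
  have hl0 : (0 : ℝ) < l := by linarith
  have hdR : (0 : ℝ) < d := by exact_mod_cast (show 0 < d by omega)
  have hexp : 0 ≤ 1 - 1 / (d : ℝ) := by
    rw [sub_nonneg, div_le_one hdR]
    exact_mod_cast hd
  have hexp2 : 0 ≤ 1 / (d : ℝ) := by positivity
  have hlN' : (l : ℝ) ≤ (N : ℝ) ^ (1 - 1 / (d : ℝ)) * (l : ℝ) ^ (1 / (d : ℝ)) := by
    have h1 : (l : ℝ) = (l : ℝ) ^ (1 - 1 / (d : ℝ)) * (l : ℝ) ^ (1 / (d : ℝ)) := by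
      rw [← Real.rpow_add hl0]
      simp
    have h2 : (l : ℝ) ^ (1 - 1 / (d : ℝ)) ≤ (N : ℝ) ^ (1 - 1 / (d : ℝ)) :=
      Real.rpow_le_rpow hl0.le (by exact_mod_cast hlN) hexp
    calc (l : ℝ) = (l : ℝ) ^ (1 - 1 / (d : ℝ)) * (l : ℝ) ^ (1 / (d : ℝ)) := h1
      _ ≤ _ := mul_le_mul_of_nonneg_right h2 (by positivity)
  obtain ⟨Z, hZ⟩ : ∃ Z, Z = (N : ℝ) ^ (1 - 1 / (d : ℝ)) * (l : ℝ) ^ (1 / (d : ℝ)) := ⟨_, rfl⟩
  rw [← hZ] at hH hlN'
  have hpZ : (p : ℝ) * l ≤ p * Z := mul_le_mul_of_nonneg_left hlN' (by linarith)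
  have hHl : (p + 5 : ℝ) * l + p * 2 ^ d * Z ≤ H := by nlinarith
  have hZ0 : 0 ≤ p * 2 ^ d * Z := by
    have : 0 ≤ Z := by linarith
    positivity
  have hHl2 : (l : ℝ) ≤ H := by nlinarith
  have hH1 : l ≤ H := by exact_mod_cast hHl2
  refine ⟨by omega, by omega, ?_⟩
  intro u s hu1 hu2 hs1 hs2
  by_contra hcon
  push Not at hcon
  have h1 := stretch hf hd hG hp hfp hs1 (u := u + 1) (v := a + H) (by
    intro n hn1 hn2
    have h2 := hcon (n - 1) (by omega) (by omega)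
    have e1 : n - 1 + s + 1 = n + s := by omega
    have e2 : n - 1 + 1 = n := by omega
    rwa [e1, e2] at h2)
  have hs2R : (s : ℝ) ≤ l := by exact_mod_cast hs2
  have hu2R : (u : ℝ) ≤ a + l := by exact_mod_cast hu2
  have h3 : ((a + H : ℕ) : ℝ) ^ (1 - 1 / (d : ℝ)) * (s : ℝ) ^ (1 / (d : ℝ)) ≤ Z := by
    rw [hZ]
    apply mul_le_mul _ _ (by positivity) (by positivity)
    · exact Real.rpow_le_rpow (Nat.cast_nonneg _) (by exact_mod_cast haN) hexp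
    · exact Real.rpow_le_rpow (Nat.cast_nonneg _) hs2R hexp2
  have h4 : p * 2 ^ d * (((a + H : ℕ) : ℝ) ^ (1 - 1 / (d : ℝ)) * (s : ℝ) ^ (1 / (d : ℝ))) ≤
      p * 2 ^ d * Z := mul_le_mul_of_nonneg_left h3 (by positivity)
  have h5 : (2 + p : ℝ) * s ≤ (2 + p) * l := mul_le_mul_of_nonneg_left hs2R (by linarith)
  push_cast at h1 h4
  nlinarith

/-- **Main theorem.** -/
theorem words (d p : ℕ) (hd : 1 ≤ d) (hp : 1 ≤ p) :
    ∃ c : ℝ, 0 < c ∧ ∀ (G : Type) [CommGroup G], (∀ g : G, g ^ d = 1) → ∀ f : ℕ → G,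
      (∀ m n, 1 ≤ m → 1 ≤ n → f (m * n) = f m * f n) → f p ≠ 1 →
      ∀ (σ : Type) [Fintype σ] (M : NFA G σ) (N : ℕ), 2 ≤ N → ∀ (x : ℕ → G) (k : ℕ),
        (List.range N).map x ∈ M.accepts →
        (∃ E : Finset ℕ, E.card ≤ k ∧ ∀ i, i < N → i ∉ E → x i = f (i + 1)) →
        (k : ℝ) + Real.log N ≤ c * ((N : ℝ) / Fintype.card σ) ^ (1 / (d : ℝ)) →
        ∃ W : Finset (List G), (∀ w ∈ W, w.length = N ∧ w ∈ M.accepts) ∧
          Real.exp (c * ((N : ℝ) / Fintype.card σ) ^ (1 / (d : ℝ))) ≤ W.card := by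
  have hdR : (0 : ℝ) < d := by exact_mod_cast (show 0 < d by omega)
  have hdR1 : (1 : ℝ) ≤ d := by exact_mod_cast hd
  obtain ⟨γ, hγ⟩ : ∃ γ : ℝ, γ = 1 / (d : ℝ) := ⟨_, rfl⟩
  have hγ0 : 0 < γ := by rw [hγ]; positivity
  have hγ1 : γ ≤ 1 := by rw [hγ, div_le_one hdR]; exact hdR1
  obtain ⟨C₁, hC₁⟩ : ∃ C₁ : ℝ, C₁ = p + 5 + p * 2 ^ d := ⟨_, rfl⟩
  have hC₁1 : 1 ≤ C₁ := by
    rw [hC₁]
    have : (0 : ℝ) ≤ p + p * 2 ^ d := by positivity
    linarith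
  obtain ⟨C₂, hC₂⟩ : ∃ C₂ : ℝ, C₂ = 8 * C₁ := ⟨_, rfl⟩
  have hC₂0 : 8 ≤ C₂ := by linarith
  refine ⟨1 / (12 * C₂), by positivity, ?_⟩
  obtain ⟨c, hc⟩ : ∃ c : ℝ, c = 1 / (12 * C₂) := ⟨_, rfl⟩
  have hc0 : 0 < c := by rw [hc]; positivity
  have hcC : 12 * c * C₂ = 1 := by rw [hc]; field_simp
  rw [← hc, ← hγ]
  intro G _ hG f hf hfp σ _ M N hN x k hacc ⟨E, hE, hxE⟩ hk
  have hq : 1 ≤ Fintype.card σ := by
    rw [NFA.accepts_iff_exists_path] at hacc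
    obtain ⟨s, -⟩ := hacc
    exact Fintype.card_pos_iff.2 ⟨s⟩
  obtain ⟨q, hqe⟩ : ∃ q, q = Fintype.card σ := ⟨_, rfl⟩
  rw [← hqe] at hq hk ⊢
  have hqR : (1 : ℝ) ≤ q := by exact_mod_cast hq
  have hq0 : (0 : ℝ) < q := by linarith
  have hNR : (2 : ℝ) ≤ N := by exact_mod_cast hN
  have hN0 : (0 : ℝ) < N := by linarith
  obtain ⟨t, ht⟩ : ∃ t : ℝ, t = ((N : ℝ) / q) ^ γ := ⟨_, rfl⟩
  rw [← ht] at hk ⊢
  have ht0 : 0 < t := by rw [ht]; positivity
  have hlog2 : (0.69 : ℝ) ≤ Real.log N := by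
    have h1 : Real.log 2 ≤ Real.log N := Real.log_le_log (by norm_num) hNR
    have h2 := Real.log_two_gt_d9
    linarith
  have hkR : (0 : ℝ) ≤ k := Nat.cast_nonneg _
  have hct : 0.69 ≤ c * t := by linarith
  have htC : 8 * C₂ ≤ t := by
    have h1 : (0.69 : ℝ) * (12 * C₂) ≤ c * t * (12 * C₂) :=
      mul_le_mul_of_nonneg_right hct (by positivity)
    have h2 : c * t * (12 * C₂) = t * (12 * c * C₂) := by ring
    rw [h2, hcC] at h1
    linarith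
  have ht4 : 4 ≤ t := by linarith
  -- `4 q ≤ N`
  have hNq : t ≤ (N : ℝ) / q := by
    have h1 : 1 ≤ (N : ℝ) / q := by
      by_contra hcon
      push Not at hcon
      have : t ≤ 1 := by rw [ht]; exact Real.rpow_le_one (by positivity) hcon.le hγ0.le
      linarith
    rw [ht]
    calc ((N : ℝ) / q) ^ γ ≤ ((N : ℝ) / q) ^ (1 : ℝ) := Real.rpow_le_rpow_of_exponent_le h1 hγ1
      _ = _ := Real.rpow_one _
  have h4qN : 4 * q ≤ N := by
    have h1 : 4 * (q : ℝ) ≤ N := by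
      have h2 := ht4.trans hNq
      rwa [le_div_iff₀ hq0] at h2
    exact_mod_cast h1
  obtain ⟨l, hl⟩ : ∃ l : ℕ, l = 4 * q := ⟨_, rfl⟩
  have hl1 : 1 ≤ l := by omega
  have hlN : l ≤ N := by omega
  obtain ⟨Z, hZ⟩ : ∃ Z : ℝ, Z = (N : ℝ) ^ (1 - γ) * (l : ℝ) ^ γ := ⟨_, rfl⟩
  have hZ1 : 1 ≤ Z := by
    rw [hZ]
    have h1 : (1 : ℝ) ≤ (N : ℝ) ^ (1 - γ) := Real.one_le_rpow (by linarith) (by linarith)
    have h2 : (1 : ℝ) ≤ (l : ℝ) ^ γ := Real.one_le_rpow (by exact_mod_cast hl1) hγ0.le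
    nlinarith
  obtain ⟨H, hH⟩ : ∃ H : ℕ, H = ⌈C₁ * Z⌉₊ := ⟨_, rfl⟩
  have hH1 : C₁ * Z ≤ H := by rw [hH]; exact Nat.le_ceil _
  have hH2 : (H : ℝ) ≤ 2 * (C₁ * Z) := by
    have h1 : (H : ℝ) < C₁ * Z + 1 := by rw [hH]; exact Nat.ceil_lt_add_one (by positivity)
    have h2 : 1 ≤ C₁ * Z := by nlinarith
    linarith
  have hHR : (1 : ℝ) ≤ H := by nlinarith
  have hHpos : 1 ≤ H := by exact_mod_cast hHR
  have hHt : (H : ℝ) * t ≤ C₂ * N := by
    have h1 : (l : ℝ) ^ γ ≤ 4 * (q : ℝ) ^ γ := by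
      rw [hl]
      push_cast
      rw [Real.mul_rpow (by norm_num) hq0.le]
      refine mul_le_mul_of_nonneg_right ?_ (by positivity)
      calc (4 : ℝ) ^ γ ≤ (4 : ℝ) ^ (1 : ℝ) := Real.rpow_le_rpow_of_exponent_le (by norm_num) hγ1
        _ = 4 := Real.rpow_one _
    have h2 : Z ≤ (N : ℝ) ^ (1 - γ) * (4 * (q : ℝ) ^ γ) := by
      rw [hZ]
      exact mul_le_mul_of_nonneg_left h1 (by positivity)
    have h3 : (N : ℝ) ^ (1 - γ) * (q : ℝ) ^ γ * t = N := by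
      rw [ht, Real.div_rpow hN0.le hq0.le]
      have hne : (q : ℝ) ^ γ ≠ 0 := (Real.rpow_pos_of_pos hq0 _).ne'
      have h4 : (N : ℝ) ^ (1 - γ) * (N : ℝ) ^ γ = N := by
        rw [← Real.rpow_add hN0]
        simp
      calc (N : ℝ) ^ (1 - γ) * (q : ℝ) ^ γ * ((N : ℝ) ^ γ / (q : ℝ) ^ γ)
          = (N : ℝ) ^ (1 - γ) * (N : ℝ) ^ γ * ((q : ℝ) ^ γ / (q : ℝ) ^ γ) := by ring
        _ = N := by rw [h4, div_self hne, mul_one]
    calc (H : ℝ) * t ≤ 2 * (C₁ * ((N : ℝ) ^ (1 - γ) * (4 * (q : ℝ) ^ γ))) * t := by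
          refine mul_le_mul_of_nonneg_right (hH2.trans ?_) ht0.le
          exact mul_le_mul_of_nonneg_left (mul_le_mul_of_nonneg_left h2 (by linarith)) (by norm_num)
      _ = C₂ * ((N : ℝ) ^ (1 - γ) * (q : ℝ) ^ γ * t) := by rw [hC₂]; ring
      _ = _ := by rw [h3]
  -- the number of regions
  obtain ⟨J, hJ⟩ : ∃ J : ℕ, J = N / H := ⟨_, rfl⟩
  have hJH : J * H ≤ N := by rw [hJ]; exact Nat.div_mul_le_self _ _
  have hJ2 : t / C₂ < J + 1 := by
    have h1 : N < H * (J + 1) := by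
      rw [hJ]
      exact Nat.lt_mul_div_succ N hHpos
    have h1R : (N : ℝ) < H * (J + 1) := by exact_mod_cast h1
    rw [div_lt_iff₀ (by linarith)]
    have h2 : (H : ℝ) * t < H * ((J + 1) * C₂) := by
      calc (H : ℝ) * t ≤ C₂ * N := hHt
        _ < C₂ * (H * (J + 1)) := mul_lt_mul_of_pos_left h1R (by linarith)
        _ = _ := by ring
    exact lt_of_mul_lt_mul_left h2 (by linarith)
  have htC2 : t / C₂ = 12 * (c * t) := by
    rw [div_eq_iff (by linarith)]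
    calc t = t * (12 * c * C₂) := by rw [hcC, mul_one]
      _ = _ := by ring
  rw [htC2] at hJ2
  have hkJ : k ≤ J := by
    have : (k : ℝ) ≤ J := by linarith
    exact_mod_cast this
  obtain ⟨K, hK⟩ : ∃ K : ℕ, K = J - k := ⟨_, rfl⟩
  have hKk : K + k = J := by omega
  have hK6 : 6 * (c * t) ≤ K := by
    have h1 : (K : ℝ) + k = J := by exact_mod_cast hKk
    have h2 : (k : ℝ) ≤ c * t := by linarith
    linarith
  obtain ⟨W, hW1, hW2⟩ := regions_err (M := M) (x := x) (z := fun i => f (i + 1)) (N := N)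
    (by simpa [seg, List.range_eq_range'] using hacc) K k l 5 (fun i => i * H)
    (by rw [hKk]; exact hJH) E hE hxE (by
      intro i hi
      have h1 : (i + 1) * H ≤ N := by
        have : (i + 1) * H ≤ J * H := Nat.mul_le_mul_right _ (by omega)
        omega
      have e : (i + 1) * H = i * H + H := by ring
      simp only [e]
      rw [e] at h1
      refine sep hf hd hG hp hfp hl1 hlN h1 ?_
      rw [← hγ, ← hZ, ← hC₁]
      exact hH1) (by
      intro n hn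
      rw [← hqe, hl] at hn
      by_contra hcon
      push Not at hcon
      have : n * q ≤ 4 * q := Nat.mul_le_mul_right _ (by omega)
      omega)
  refine ⟨W, hW1, ?_⟩
  -- numerics
  have hHl : l ≤ H := by
    have h1 : (l : ℝ) ≤ C₁ * Z := by
      have h2 : (l : ℝ) ≤ Z := by
        rw [hZ]
        have hl0 : (0 : ℝ) < l := by exact_mod_cast hl1
        have h3 : (l : ℝ) = (l : ℝ) ^ (1 - γ) * (l : ℝ) ^ γ := by
          rw [← Real.rpow_add hl0]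
          simp
        have h4 : (l : ℝ) ^ (1 - γ) ≤ (N : ℝ) ^ (1 - γ) :=
          Real.rpow_le_rpow hl0.le (by exact_mod_cast hlN) (by linarith)
        calc (l : ℝ) = (l : ℝ) ^ (1 - γ) * (l : ℝ) ^ γ := h3
          _ ≤ _ := mul_le_mul_of_nonneg_right h4 (by positivity)
      nlinarith
    exact_mod_cast h1.trans hH1
  have hKl : K * l + 1 ≤ 2 * N := by
    have h1 : K * l ≤ J * H := Nat.mul_le_mul (by omega) hHl
    omega
  have h5 : Real.exp (6 * (c * t)) ≤ (5 : ℝ) ^ K := by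
    have h1 : Real.exp (6 * (c * t)) ≤ Real.exp K := Real.exp_le_exp.2 hK6
    have h2 : Real.exp K = Real.exp 1 ^ K := by
      rw [← Real.exp_nat_mul, mul_one]
    rw [h2] at h1
    refine h1.trans (pow_le_pow_left₀ (Real.exp_pos _).le ?_ _)
    have := Real.exp_one_lt_d9
    linarith
  have h6 : (5 : ℝ) ^ K < (2 * N) * (W.card + 1) := by
    have h1 : 5 ^ K < (K * l + 1) * (W.card + 1) := by
      calc 5 ^ K < (K * l + 1) * (5 ^ K / (K * l + 1) + 1) :=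
            Nat.lt_mul_div_succ _ (by omega)
        _ ≤ _ := Nat.mul_le_mul_left _ (by omega)
    have h2 : 5 ^ K < (2 * N) * (W.card + 1) :=
      lt_of_lt_of_le h1 (Nat.mul_le_mul_right _ hKl)
    exact_mod_cast h2
  have h7 : (2 * N : ℝ) ≤ Real.exp (3 * (c * t)) := by
    have h1 : Real.log (2 * N) ≤ 3 * (c * t) := by
      rw [Real.log_mul (by norm_num) (by positivity)]
      have := Real.log_two_lt_d9
      linarith
    calc (2 * N : ℝ) = Real.exp (Real.log (2 * N)) := (Real.exp_log (by positivity)).symm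
      _ ≤ _ := Real.exp_le_exp.2 h1
  have h8 : Real.exp (3 * (c * t)) < W.card + 1 := by
    have h1 : Real.exp (3 * (c * t)) * Real.exp (3 * (c * t)) <
        Real.exp (3 * (c * t)) * (W.card + 1) := by
      calc Real.exp (3 * (c * t)) * Real.exp (3 * (c * t)) = Real.exp (6 * (c * t)) := by
            rw [← Real.exp_add]; ring_nf
        _ ≤ 5 ^ K := h5
        _ < (2 * N) * (W.card + 1) := h6
        _ ≤ _ := mul_le_mul_of_nonneg_right h7 (by positivity)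
    exact lt_of_mul_lt_mul_left h1 (Real.exp_pos _).le
  have h9 : Real.exp (c * t) + 1 ≤ Real.exp (3 * (c * t)) := by
    have h1 : 1 + c * t ≤ Real.exp (c * t) := by linarith [Real.add_one_le_exp (c * t)]
    have h2 : Real.exp (3 * (c * t)) = Real.exp (c * t) ^ 3 := by
      rw [← Real.exp_nat_mul]; norm_num
    rw [h2]
    have h3 : 1.69 ≤ Real.exp (c * t) := by linarith
    nlinarith [mul_nonneg (show (0 : ℝ) ≤ Real.exp (c * t) - 1.69 by linarith)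
      (show (0 : ℝ) ≤ Real.exp (c * t) by linarith), sq_nonneg (Real.exp (c * t))]
  linarith

end Pool.Agent.X3.NfaMult
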