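import Mathlib

/-!
# Sequences with a relation between the terms `n` and `p n`, and linear relations modulo `p`

Let `x : ℕ → ℤ/p` satisfy `x (p n) = x n + s`, `s ≠ 0`, for `1 ≤ n ≤ D`. Then no nontrivial linear
form in `x (m + 1), …, x (m + D)` is constant for `0 ≤ m ≤ (p - 1) D`.
-/

set_option autoImplicit false

namespace Pool.Agent.X3.LinFrob

open Polynomial Finset

variable {p : ℕ} [hp : Fact p.Prime]

/-- the linear functional on the polynomials which maps `X ^ n` to `x n` -/
noncomputable def ell (x : ℕ → ZMod p) : (ZMod p)[X] →ₗ[ZMod p] ZMod p :=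
  Polynomial.lsum fun n => (x n) • (LinearMap.id : ZMod p →ₗ[ZMod p] ZMod p)

theorem ell_monomial (x : ℕ → ZMod p) (n : ℕ) (a : ZMod p) :
    ell x (monomial n a) = x n * a := by
  unfold ell
  rw [Polynomial.lsum_apply, Polynomial.sum_monomial_index]
  · simp
  · simp

theorem ell_range (x : ℕ → ZMod p) (h : (ZMod p)[X]) (D : ℕ) (hD : h.natDegree ≤ D) :
    ell x h = ∑ n ∈ range (D + 1), h.coeff n * x n := by
  conv_lhs => rw [h.as_sum_range' (D + 1) (by omega)]
  rw [map_sum]
  refine sum_congr rfl fun n _ => ?_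
  rw [ell_monomial, mul_comm]

theorem ell_X_pow_mul (x : ℕ → ZMod p) (f : (ZMod p)[X]) (D : ℕ) (hD : f.natDegree ≤ D) (m : ℕ) :
    ell x (X ^ m * f) = ∑ n ∈ range (D + 1), f.coeff n * x (m + n) := by
  conv_lhs => rw [f.as_sum_range' (D + 1) (by omega)]
  rw [mul_sum, map_sum]
  refine sum_congr rfl fun n _ => ?_
  rw [X_pow_mul_monomial, ell_monomial, mul_comm, add_comm]

theorem ell_mul (x : ℕ → ZMod p) (f k : (ZMod p)[X]) (D B : ℕ) (hD : f.natDegree ≤ D)
    (hB : k.natDegree ≤ B) (e : ZMod p)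
    (hg : ∀ m, m ≤ B → ∑ n ∈ range (D + 1), f.coeff n * x (m + n) = e) :
    ell x (k * f) = e * k.eval 1 := by
  conv_lhs => rw [k.as_sum_range' (B + 1) (by omega)]
  rw [sum_mul, map_sum]
  have h1 : k.eval 1 = ∑ n ∈ range (B + 1), k.coeff n := by
    rw [Polynomial.eval_eq_sum_range' (show k.natDegree < B + 1 by omega)]
    simp
  rw [h1, mul_sum]
  refine sum_congr rfl fun n hn => ?_
  have h2 : monomial n (k.coeff n) * f = (k.coeff n) • (X ^ n * f) := by
    rw [← C_mul_X_pow_eq_monomial, mul_assoc, ← smul_eq_C_mul]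
  rw [h2, map_smul, ell_X_pow_mul x f D hD, hg n (by rw [mem_range] at hn; omega), smul_eq_mul,
    mul_comm]

theorem ell_pow (x : ℕ → ZMod p) (D : ℕ) (s : ZMod p) (hx : ∀ n, 1 ≤ n → n ≤ D → x (p * n) = x n + s)
    (h : (ZMod p)[X]) (hD : h.natDegree ≤ D) (h0 : h.coeff 0 = 0) :
    ell x (h ^ p) = ell x h + s * h.eval 1 := by
  rw [← ZMod.expand_card]
  have h1 : expand (ZMod p) p h = ∑ n ∈ range (D + 1), monomial (n * p) (h.coeff n) := by
    conv_lhs => rw [h.as_sum_range' (D + 1) (by omega)]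
    rw [map_sum]
    refine sum_congr rfl fun n _ => ?_
    rw [expand_monomial]
  rw [h1, map_sum, ell_range x h D hD, Polynomial.eval_eq_sum_range' (show h.natDegree < D + 1 by omega),
    mul_sum, ← sum_add_distrib]
  refine sum_congr rfl fun n hn => ?_
  rw [ell_monomial]
  rcases Nat.eq_zero_or_pos n with rfl | hn0
  · rw [h0]
    simp
  · rw [mul_comm n p, hx n hn0 (by rw [mem_range] at hn; omega)]
    rw [one_pow]
    ring

/-- the main lemma -/
theorem core (x : ℕ → ZMod p) (D : ℕ) (s : ZMod p) (hs : s ≠ 0)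
    (hx : ∀ n, 1 ≤ n → n ≤ D → x (p * n) = x n + s) (f : (ZMod p)[X]) (hf : f ≠ 0)
    (hfD : f.natDegree = D) (hf0 : f.coeff 0 = 0) (e : ZMod p)
    (hg : ∀ m, m ≤ (p - 1) * D → ∑ n ∈ range (D + 1), f.coeff n * x (m + n) = e) : False := by
  have hp2 := hp.out.two_le
  -- the case `m = 0`
  have h1 : ell x f = e := by
    rw [ell_range x f D hfD.le, ← hg 0 (Nat.zero_le _)]
    simp
  have h2 : ell x (f ^ p) = e + s * f.eval 1 := by
    rw [ell_pow x D s hx f hfD.le hf0, h1]
  have h3 : ell x (f ^ p) = e * (f.eval 1) ^ (p - 1) := by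
    have e1 : f ^ p = f ^ (p - 1) * f := by
      rw [← pow_succ, Nat.sub_add_cancel (by omega)]
    rw [e1, ell_mul x f (f ^ (p - 1)) D ((p - 1) * D) hfD.le
      ((natDegree_pow_le).trans (by rw [hfD])) e hg, eval_pow]
  have hf1 : f.eval 1 = 0 := by
    by_contra hne
    rw [h3, ZMod.pow_card_sub_one_eq_one hne, mul_one] at h2
    have : s * f.eval 1 = 0 := by
      have := h2.symm
      rwa [add_eq_left] at this
    rcases mul_eq_zero.1 this with h | h
    · exact hs h
    · exact hne h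
  have he : e = 0 := by
    rw [h3, hf1, zero_pow (by omega)] at h2
    simpa using h2.symm
  subst he
  -- the idempotent
  obtain ⟨u, hu1, hu2⟩ := exists_eq_pow_rootMultiplicity_mul_and_not_dvd f hf 1
  obtain ⟨r, hr⟩ : ∃ r, r = rootMultiplicity 1 f := ⟨_, rfl⟩
  rw [← hr] at hu1
  have hcop : IsCoprime ((X - C (1 : ZMod p)) ^ r) u :=
    ((irreducible_X_sub_C 1).coprime_iff_not_dvd.2 hu2).pow_left
  obtain ⟨a, b, hab⟩ := hcop
  have hu0 : u.coeff 0 = 0 := by
    have h4 := hf0
    rw [hu1, coeff_zero_eq_eval_zero, eval_mul, eval_pow] at h4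
    rcases mul_eq_zero.1 h4 with h5 | h5
    · exfalso
      by_cases hr0 : r = 0
      · rw [hr0, pow_zero] at h5
        exact one_ne_zero h5
      · rw [pow_eq_zero_iff hr0] at h5
        simp at h5
    · rw [coeff_zero_eq_eval_zero]
      exact h5
  have hD1 : f.natDegree ≠ 0 := by
    intro h
    apply hf
    rw [eq_C_of_natDegree_eq_zero h, hf0, C_0]
  have hr1 : 1 ≤ r := by
    rw [hr]
    exact (rootMultiplicity_pos hf).2 hf1
  obtain ⟨w, hw⟩ : ∃ w, w = b * u := ⟨_, rfl⟩
  obtain ⟨h, hh⟩ : ∃ h, h = w % f := ⟨_, rfl⟩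
  have hmod : f * (w / f) + h = w := by
    rw [hh]
    exact EuclideanDomain.div_add_mod w f
  have hdeg : h.natDegree < D := by
    rw [hh, ← hfD]
    exact natDegree_mod_lt w hD1
  have hw1 : w.eval 1 = 1 := by
    have h4 := congrArg (eval 1) hab
    rw [eval_add, eval_mul, eval_pow, ← hw] at h4
    simp only [eval_sub, eval_X, eval_C, sub_self, eval_one] at h4
    rw [zero_pow (by omega), mul_zero, zero_add] at h4
    exact h4
  have hh1 : h.eval 1 = 1 := by
    have h4 := congrArg (eval 1) hmod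
    rw [eval_add, eval_mul, hf1, zero_mul, zero_add, hw1] at h4
    exact h4
  have hh0 : h.coeff 0 = 0 := by
    have h4 := congrArg (eval 0) hmod
    rw [coeff_zero_eq_eval_zero] at hf0 hu0 ⊢
    rw [eval_add, eval_mul, hf0, zero_mul, zero_add, hw, eval_mul, hu0, mul_zero] at h4
    exact h4
  have hdvd2 : f ∣ h ^ 2 - h := by
    have h4 : h = w - f * (w / f) := eq_sub_of_add_eq' hmod
    have h5 : w ^ 2 - w = f * (-(a * b)) := by
      have h6 : w - 1 = - (a * (X - C 1) ^ r) := by
        rw [hw, ← hab]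
        ring
      have h7 : w ^ 2 - w = w * (w - 1) := by ring
      rw [h7, h6, hw]
      conv_rhs => rw [hu1]
      ring
    have h8 : h ^ 2 - h = (w ^ 2 - w) + f * ((w / f) * (f * (w / f)) - 2 * w * (w / f) + (w / f)) := by
      rw [h4]
      ring
    rw [h8, h5]
    exact dvd_add (dvd_mul_right _ _) (dvd_mul_right _ _)
  have hdvd : ∀ k : ℕ, f ∣ h ^ (k + 1) - h := by
    intro k
    induction k with
    | zero => simp
    | succ k ih =>
      have h4 : h ^ (k + 1 + 1) - h = h * (h ^ (k + 1) - h) + (h ^ 2 - h) := by ring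
      rw [h4]
      exact dvd_add (dvd_mul_of_dvd_right ih _) hdvd2
  obtain ⟨k, hk⟩ := hdvd (p - 1)
  rw [Nat.sub_add_cancel (by omega)] at hk
  have hkdeg : k.natDegree ≤ (p - 1) * D := by
    by_cases hk0 : k = 0
    · rw [hk0, natDegree_zero]
      exact Nat.zero_le _
    have h4 : (f * k).natDegree = D + k.natDegree := by
      rw [natDegree_mul hf hk0, hfD]
    rw [← hk] at h4
    have h5 : (h ^ p - h).natDegree ≤ p * D := by
      refine (natDegree_sub_le _ _).trans (max_le ?_ ?_)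
      · exact natDegree_pow_le.trans (Nat.mul_le_mul_left _ hdeg.le)
      · exact hdeg.le.trans (Nat.le_mul_of_pos_left _ (by omega))
    have h6 : p * D = (p - 1) * D + D := by
      obtain ⟨t, rfl⟩ : ∃ t, p = t + 1 := ⟨p - 1, by omega⟩
      rw [Nat.add_sub_cancel]
      ring
    omega
  have h7 : ell x (h ^ p) = ell x h + s * h.eval 1 :=
    ell_pow x D s hx h hdeg.le hh0
  have h8 : ell x (h ^ p - h) = 0 := by
    rw [hk, mul_comm, ell_mul x f k D ((p - 1) * D) hfD.le hkdeg 0 hg, zero_mul]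
  rw [map_sub, h7, hh1, mul_one] at h8
  apply hs
  have : ell x h + s - ell x h = s := by ring
  rw [this] at h8
  exact h8

end Pool.Agent.X3.LinFrob
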