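import Mathlib
import Pool.Agent.TH456.TM.AlgDep
import Pool.Agent.TH456.TM.Inst
import Pool.Agent.W472.AC.Count

/-!
# Algebraic complexity of the digits of numbers algebraic over `ℚ(π)`
-/

set_option autoImplicit false

namespace Pool.Agent.X3.PiAlg

open Polynomial Finset

/-- a real number algebraic over `ℤ[x]` satisfies a relation with coefficients in `ℤ[x]` -/
lemma exists_rel (x y : ℝ) (h : IsAlgebraic (Algebra.adjoin ℤ ({x} : Set ℝ)) y) :
    ∃ B : ℤ[X][X], B ≠ 0 ∧ (B.map (aeval x : ℤ[X] →ₐ[ℤ] ℝ).toRingHom).eval y = 0 := by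
  obtain ⟨p, hp, hpy⟩ := h
  set A := Algebra.adjoin ℤ ({x} : Set ℝ) with hA
  set x' : A := ⟨x, Algebra.subset_adjoin rfl⟩ with hx'
  set φ : ℤ[X] →ₐ[ℤ] A := aeval x' with hφ
  have hφx : ∀ f : ℤ[X], ((φ f : A) : ℝ) = aeval x f := by
    intro f
    have h1 : ((φ f : A) : ℝ) = A.val (aeval x' f) := rfl
    rw [h1, ← aeval_algHom_apply]
    rfl
  have hsurj : Function.Surjective φ := by
    rintro ⟨z, hz⟩
    rw [hA, Algebra.adjoin_singleton_eq_range_aeval] at hz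
    obtain ⟨f, hf⟩ := hz
    exact ⟨f, Subtype.ext (by rw [hφx]; exact hf)⟩
  obtain ⟨B, hB⟩ := Polynomial.map_surjective (φ : ℤ[X] →+* A) hsurj p
  refine ⟨B, ?_, ?_⟩
  · rintro rfl
    rw [Polynomial.map_zero] at hB
    exact hp hB.symm
  · rw [← hB, aeval_def, eval₂_map] at hpy
    rw [eval_map, ← hpy]
    congr 1
    ext z
    · simp
    · simp only [RingHom.comp_apply]
      exact (hφx X).symm

lemma transc_complex {y : ℝ} (hy : Transcendental ℤ y) : Transcendental ℤ (y : ℂ) := by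
  rintro ⟨P, hP, h⟩
  refine hy ⟨P, hP, ?_⟩
  have h1 : aeval (y : ℂ) P = ((aeval y P : ℝ) : ℂ) := by
    have := aeval_algebraMap_apply (R := ℤ) (A := ℝ) ℂ y P
    simpa using this
  rw [h1] at h
  exact_mod_cast h

/-- transcendental numbers algebraic over `ℚ(π)` have transcendence measures -/
theorem measT_over_pi (y : ℝ) (h : IsAlgebraic (Algebra.adjoin ℤ ({Real.pi} : Set ℝ)) y)
    (hy : Transcendental ℤ y) : Pool.Agent.TH456.TM.MeasT (y : ℂ) := by
  obtain ⟨B, hB, hB0⟩ := exists_rel Real.pi y h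
  refine Pool.Agent.TH456.TM.measT_of_rel (Real.pi : ℂ) (y : ℂ) Pool.Agent.TH456.TM.measT_pi
    (transc_complex hy) B hB ?_
  unfold Pool.Agent.TH456.TM.vl
  have e1 : (B.map (Pool.Agent.TH456.TM.σx (Real.pi : ℂ))) =
      (B.map (aeval Real.pi : ℤ[X] →ₐ[ℤ] ℝ).toRingHom).map Complex.ofRealHom := by
    rw [Polynomial.map_map]
    congr 1
    ext z
    · simp [Pool.Agent.TH456.TM.σx]
    · simp [Pool.Agent.TH456.TM.σx]
  rw [e1, eval_map, show (y : ℂ) = Complex.ofRealHom y from rfl, eval₂_hom, hB0, map_zero]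

theorem alg_complexity (y : ℝ) (h : IsAlgebraic (Algebra.adjoin ℤ ({Real.pi} : Set ℝ)) y)
    (hy : Transcendental ℤ y) (r : ℕ) :
    ∃ c : ℝ, 0 < c ∧ ∃ L₀ : ℕ, ∀ L : ℕ, L₀ ≤ L → ∀ b : ℕ, 2 ≤ b →
      c * L < Pool.Agent.W472.AC.algComplexity b y r L := by
  obtain ⟨κ, c, hκ, hc, hm⟩ := measT_over_pi y h hy r
  have hM : ∀ η : ℝ, 0 < η → ∃ c : ℝ, 0 < c ∧ Pool.Agent.W472.AC.MeasP y r (κ + η) c := by
    intro η hη
    refine ⟨c, hc, fun P hP hPr H hH hPH => ?_⟩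
    have h1 := hm P hP hPr H hH hPH
    have h2 : ‖aeval (y : ℂ) P‖ = |aeval y P| := by
      have h3 : aeval (y : ℂ) P = ((aeval y P : ℝ) : ℂ) := by
        have := aeval_algebraMap_apply (R := ℤ) (A := ℝ) ℂ y P
        simpa using this
      rw [h3, Complex.norm_real, Real.norm_eq_abs]
    rw [h2] at h1
    refine h1.trans (mul_le_mul_of_nonneg_right ?_ (abs_nonneg _))
    exact Real.rpow_le_rpow_of_exponent_le hH (by linarith)
  have hκ1 : 0 < 1 / (κ + 1) := by positivity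
  obtain ⟨L₀, hL⟩ := Pool.Agent.W472.AC.alg_transfer y r κ hκ hM (1 / (κ + 1) / 2) (by positivity)
  refine ⟨1 / (κ + 1) / 2, by positivity, L₀, fun L hL0 b hb => ?_⟩
  have := hL L hL0 b hb
  have e : 1 / (κ + 1) - 1 / (κ + 1) / 2 = 1 / (κ + 1) / 2 := by ring
  rw [e] at this
  exact this

end Pool.Agent.X3.PiAlg
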