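import Mathlib
import Pool.Agent.X3.LinZero

/-!
# Linear recurrences and runs of zero classes for many coprime moduli

A sequence which satisfies a linear recurrence of order `d`, is not eventually zero, and vanishes, for
each `m` of a set of pairwise coprime moduli, on `r m` residue classes modulo `m` which form an
arithmetic progression with a difference coprime to `m`, satisfies `∏ (r m + 1) ≤ d`.
-/

set_option autoImplicit false

namespace Pool.Agent.X3.LinRuns

open Filter Module Pool.Agent.X3.LinMult

variable {K : Type} [Field K]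

lemma exists_mul_modEq {m g : ℕ} (hm : 0 < m) (hg : g.Coprime m) (a x : ℕ) :
    ∃ i, a + i * g ≡ x [MOD m] := by
  have : NeZero m := ⟨hm.ne'⟩
  refine ⟨(((x : ZMod m) - a) * (g : ZMod m)⁻¹).val, ?_⟩
  rw [← ZMod.natCast_eq_natCast_iff]
  push_cast
  rw [ZMod.natCast_zmod_val, mul_assoc, mul_comm ((g : ZMod m)⁻¹) _, ZMod.coe_mul_inv_eq_one g hg]
  ring

/-- the sequence vanishes eventually on the class `x mod m` -/
def Z (μ : ℕ → K) (m x : ℕ) : Prop := ∀ᶠ n in atTop, n ≡ x [MOD m] → μ n = 0

lemma Z_congr {μ : ℕ → K} {m x y : ℕ} (h : x ≡ y [MOD m]) (hx : Z μ m x) : Z μ m y := by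
  filter_upwards [hx] with n hn hny
  exact hn (hny.trans h.symm)

/-- a nonzero class before a run of zero classes -/
lemma exists_start {μ : ℕ → K} {m a g r : ℕ} (hm : 0 < m) (hg : g.Coprime m)
    (hne : ∃ᶠ n in atTop, μ n ≠ 0) (hz : ∀ j < r, Z μ m (a + j * g)) :
    ∃ y, ¬ Z μ m y ∧ ∀ t, 1 ≤ t → t ≤ r → Z μ m (y + t * g) := by
  classical
  -- some class is not a zero class
  obtain ⟨x, hx⟩ : ∃ x, ¬ Z μ m x := by
    by_contra hcon
    push Not at hcon
    have h1 : ∀ᶠ n in atTop, ∀ x ∈ Finset.range m, n ≡ x [MOD m] → μ n = 0 := by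
      rw [Filter.eventually_all_finset]
      intro x _
      exact hcon x
    refine hne ?_
    filter_upwards [h1] with n hn
    rw [not_not]
    exact hn (n % m) (Finset.mem_range.2 (Nat.mod_lt _ hm)) (Nat.mod_modEq n m).symm
  obtain ⟨b, hb⟩ : ∃ b, b = (m - 1) * g := ⟨_, rfl⟩
  have hbg : ∀ i, i * b + i * g ≡ 0 [MOD m] := by
    intro i
    have e : i * b + i * g = m * (i * g) := by
      rw [hb]
      obtain ⟨k, rfl⟩ : ∃ k, m = k + 1 := ⟨m - 1, by omega⟩
      rw [Nat.add_sub_cancel]
      ring
    rw [e]
    exact (Nat.modEq_zero_iff_dvd.2 (Dvd.intro _ rfl))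
  have hex : ∃ i, ¬ Z μ m (a + i * b) := by
    obtain ⟨i, hi⟩ := exists_mul_modEq hm hg x a
    -- x + i g ≡ a, so a + i b ≡ x
    refine ⟨i, fun hZ => hx (Z_congr ?_ hZ)⟩
    have h1 : a + i * b ≡ x + i * g + i * b [MOD m] := Nat.ModEq.add_right _ hi.symm
    have h2 : x + i * g + i * b ≡ x + 0 [MOD m] := by
      rw [add_assoc, add_comm (i * g)]
      exact Nat.ModEq.add_left _ (hbg i)
    exact h1.trans h2
  obtain ⟨i, hi⟩ : ∃ i, i = Nat.find hex := ⟨_, rfl⟩
  have hi1 : ¬ Z μ m (a + i * b) := by rw [hi]; exact Nat.find_spec hex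
  have hi2 : ∀ j < i, Z μ m (a + j * b) := by
    intro j hj
    have := Nat.find_min hex (m := j) (by omega)
    rwa [not_not] at this
  refine ⟨a + i * b, hi1, fun t ht1 ht2 => ?_⟩
  rcases Nat.lt_or_ge i t with h | h
  · -- t > i
    have hi0 : i ≠ 0 := by
      rintro rfl
      refine hi1 ?_
      have := hz 0 (by omega)
      simpa using this
    refine Z_congr ?_ (hz (t - i) (by omega))
    have e : a + i * b + t * g = a + (t - i) * g + (i * b + i * g) := by
      obtain ⟨k, rfl⟩ : ∃ k, t = i + k := ⟨t - i, by omega⟩
      rw [Nat.add_sub_cancel_left]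
      ring
    rw [e]
    have := Nat.ModEq.add_left (a + (t - i) * g) (hbg i)
    rw [add_zero] at this
    exact this.symm
  · refine Z_congr ?_ (hi2 (i - t) (by omega))
    have e : a + i * b + t * g = a + (i - t) * b + (t * b + t * g) := by
      obtain ⟨k, rfl⟩ : ∃ k, i = t + k := ⟨i - t, by omega⟩
      rw [Nat.add_sub_cancel_left]
      ring
    rw [e]
    have := Nat.ModEq.add_left (a + (i - t) * b) (hbg t)
    rw [add_zero] at this
    exact this.symm

/-- the restriction of a sequence to a class modulo `m` has the induced zero classes modulo a number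
coprime to `m` -/
lemma restrict {μ : ℕ → K} {m m' a' g' r' : ℕ} (hm : 0 < m) (hm' : 0 < m') (hcop : m.Coprime m')
    (hg' : g'.Coprime m') (hz : ∀ j < r', Z μ m' (a' + j * g')) (Y : ℕ) :
    ∃ a g : ℕ, g.Coprime m' ∧ ∀ j < r', Z (fun s => μ (Y + m * s)) m' (a + j * g) := by
  obtain ⟨a, ha⟩ := exists_mul_modEq hm' hcop Y a'
  obtain ⟨g, hg⟩ := exists_mul_modEq hm' hcop 0 g'
  rw [zero_add] at hg
  refine ⟨a, g, ?_, fun j hj => ?_⟩
  · have h1 : (g * m).Coprime m' := by
      unfold Nat.Coprime
      rw [Nat.ModEq.gcd_eq hg]
      exact hg'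
    exact Nat.Coprime.coprime_mul_right h1
  · have h1 := hz j hj
    unfold Z at h1 ⊢
    rw [eventually_atTop] at h1 ⊢
    obtain ⟨b, hb⟩ := h1
    refine ⟨b, fun s hs hsm => ?_⟩
    apply hb (Y + m * s)
    · have : s ≤ m * s := Nat.le_mul_of_pos_left s hm
      omega
    · have h2 : m * s ≡ m * (a + j * g) [MOD m'] := Nat.ModEq.mul_left _ hsm
      have h3 : Y + m * s ≡ Y + m * (a + j * g) [MOD m'] := Nat.ModEq.add_left _ h2
      have e : Y + m * (a + j * g) = (Y + a * m) + j * (g * m) := by ring
      rw [e] at h3
      exact h3.trans (Nat.ModEq.add ha (Nat.ModEq.mul_left _ hg))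

/-- **Runs of zero classes**: no nontrivial eventual linear relation of length `∏ (r m + 1)`. -/
theorem free (P : Finset ℕ) : ∀ (hP : ∀ m ∈ P, 0 < m) (hcop : (P : Set ℕ).Pairwise Nat.Coprime)
    (r : ℕ → ℕ) (μ : ℕ → K) (a g : ℕ → ℕ), (∀ m ∈ P, (g m).Coprime m) →
    (∀ m ∈ P, ∀ j < r m, Z μ m (a m + j * g m)) → (∃ᶠ n in atTop, μ n ≠ 0) →
    ∀ c : ℕ → K, (∀ᶠ n in atTop, ∑ i ∈ Finset.range (∏ m ∈ P, (r m + 1)), c i * μ (n + i) = 0) →
    ∀ i < ∏ m ∈ P, (r m + 1), c i = 0 := by
  classical
  induction P using Finset.induction_on with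
  | empty =>
    intro _ _ r μ a g _ _ hne c hc i hi
    rw [Finset.prod_empty] at hi
    have hi0 : i = 0 := by omega
    subst hi0
    by_contra hc0
    refine hne ?_
    filter_upwards [hc] with n hn
    rw [not_not]
    rw [Finset.prod_empty, Finset.sum_range_one, add_zero] at hn
    exact (mul_eq_zero.1 hn).resolve_left hc0
  | insert m P hmP ih =>
    intro hP hcop r μ a g hg hz hne c hc
    have hm : 0 < m := hP m (Finset.mem_insert_self m P)
    obtain ⟨D, hD⟩ : ∃ D, D = ∏ m ∈ P, (r m + 1) := ⟨_, rfl⟩
    have hDm : ∏ m ∈ insert m P, (r m + 1) = (r m + 1) * D := by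
      rw [Finset.prod_insert hmP, hD]
    rw [hDm] at hc ⊢
    by_contra hcon
    push Not at hcon
    -- the largest index of a nonzero coefficient
    obtain ⟨e, heD, hce, hmax⟩ : ∃ e, e < (r m + 1) * D ∧ c e ≠ 0 ∧
        ∀ i, e < i → i < (r m + 1) * D → c i = 0 := by
      obtain ⟨i, hi1, hi2⟩ := hcon
      obtain ⟨e, he1, he2⟩ := Finset.exists_max_image ((Finset.range ((r m + 1) * D)).filter
        fun i => c i ≠ 0) (fun i => i) ⟨i, by simp [hi1, hi2]⟩
      rw [Finset.mem_filter, Finset.mem_range] at he1
      refine ⟨e, he1.1, he1.2, fun j hj1 hj2 => ?_⟩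
      by_contra hcj
      have := he2 j (by rw [Finset.mem_filter, Finset.mem_range]; exact ⟨hj2, hcj⟩)
      omega
    obtain ⟨b, hb⟩ := eventually_atTop.1 hc
    -- the shifted sequence satisfies a linear recurrence of order `e`
    obtain ⟨ν, hν⟩ : ∃ ν : ℕ → K, ν = fun n => μ (n + b) := ⟨_, rfl⟩
    obtain ⟨E, hE⟩ : ∃ E : LinearRecurrence K, E = ⟨e, fun i => - (c i / c e)⟩ := ⟨_, rfl⟩
    have hEo : E.order = e := by rw [hE]
    have hνE : ν ∈ E.solSpace := by
      subst hE
      intro n
      show ν (n + e) = ∑ i : Fin e, (- (c i / c e)) * ν (n + i)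
      have h1 := hb (n + b) (by omega)
      have h2 : ∑ i ∈ Finset.range ((r m + 1) * D), c i * μ (n + b + i) =
          ∑ i ∈ Finset.range (e + 1), c i * μ (n + b + i) := by
        symm
        apply Finset.sum_subset
        · intro i hi
          rw [Finset.mem_range] at hi ⊢
          omega
        · intro i hi1 hi2
          rw [Finset.mem_range] at hi1 hi2
          rw [hmax i (by omega) hi1, zero_mul]
      rw [h2, Finset.sum_range_succ] at h1
      have h3 : c e * ν (n + e) = - ∑ i ∈ Finset.range e, c i * μ (n + b + i) := by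
        rw [hν]
        have e1 : n + e + b = n + b + e := by ring
        simp only [e1]
        exact eq_neg_of_add_eq_zero_right h1
      have h4 : ν (n + e) = (c e)⁻¹ * (c e * ν (n + e)) := by
        rw [← mul_assoc, inv_mul_cancel₀ hce, one_mul]
      rw [h4, h3, ← Finset.sum_neg_distrib, Finset.mul_sum, Finset.sum_range]
      refine Finset.sum_congr rfl fun i _ => ?_
      rw [hν]
      have e2 : n + (i : ℕ) + b = n + b + i := by ring
      simp only [e2]
      field_simp
    -- the same zero classes for `ν`
    have hneν : ∃ᶠ n in atTop, ν n ≠ 0 := by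
      rw [frequently_atTop] at hne ⊢
      intro t
      obtain ⟨n, hn1, hn2⟩ := hne (t + b)
      refine ⟨n - b, by omega, ?_⟩
      rw [hν]
      have e3 : n - b + b = n := by omega
      simp only [e3]
      exact hn2
    have hzν : ∀ m' ∈ insert m P, ∃ a' g' : ℕ, g'.Coprime m' ∧ ∀ j < r m', Z ν m' (a' + j * g') := by
      intro m' hm'
      have h1 := restrict (μ := μ) (m := 1) (m' := m') (a' := a m') (g' := g m') (r' := r m')
        one_pos (hP m' hm') (Nat.coprime_one_left m') (hg m' hm') (hz m' hm') b
      obtain ⟨a', g', h2, h3⟩ := h1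
      refine ⟨a', g', h2, fun j hj => ?_⟩
      have h4 := h3 j hj
      have e4 : (fun s => μ (b + 1 * s)) = ν := by
        rw [hν]
        funext s
        congr 1
        ring
      rwa [e4] at h4
    obtain ⟨am, gm, hgm, hzm⟩ := hzν m (Finset.mem_insert_self m P)
    obtain ⟨y, hy1, hy2⟩ := exists_start hm hgm hneν hzm
    -- linear independence
    obtain ⟨v, hv⟩ : ∃ v : Fin (r m + 1) × Fin D → E.solSpace, v = fun q =>
        ⟨(S ^ ((q.1 : ℕ) * gm + m * (q.2 : ℕ))) ν, S_pow_mem (fun u hu => S_mem_sol E hu) hνE _⟩ :=
      ⟨_, rfl⟩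
    have hlin : LinearIndependent K v := by
      rw [Fintype.linearIndependent_iff]
      intro h hh
      have h0 : ∀ n, ∑ q : Fin (r m + 1) × Fin D, h q *
          ν (n + ((q.1 : ℕ) * gm + m * (q.2 : ℕ))) = 0 := by
        intro n
        have h2 := congrArg (fun w : E.solSpace => (w : ℕ → K) n) hh
        simp only [AddSubmonoidClass.coe_finsetSum, Submodule.coe_smul, Finset.sum_apply,
          Pi.smul_apply, smul_eq_mul, ZeroMemClass.coe_zero, Pi.zero_apply] at h2
        rw [← h2]
        refine Finset.sum_congr rfl fun q _ => ?_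
        rw [hv]
        simp only
        rw [S_pow]
      have key : ∀ j : ℕ, ∀ hj : j < r m + 1, ∀ t : Fin D, h (⟨j, hj⟩, t) = 0 := by
        intro j
        induction j using Nat.strong_induction_on with
        | _ j ihj =>
          intro hj t
          -- the class `y - j g`
          obtain ⟨x, hx⟩ : ∃ x, x + j * gm ≡ y [MOD m] := by
            refine ⟨y + (m - 1) * (j * gm), ?_⟩
            have e5 : y + (m - 1) * (j * gm) + j * gm = y + m * (j * gm) := by
              obtain ⟨k, rfl⟩ : ∃ k, m = k + 1 := ⟨m - 1, by omega⟩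
              rw [Nat.add_sub_cancel]
              ring
            rw [e5]
            have : m * (j * gm) ≡ 0 [MOD m] := Nat.modEq_zero_iff_dvd.2 (Dvd.intro _ rfl)
            have := Nat.ModEq.add_left y this
            rwa [add_zero] at this
          obtain ⟨Y, hY⟩ : ∃ Y, Y = x + j * gm := ⟨_, rfl⟩
          obtain ⟨ρ, hρ⟩ : ∃ ρ : ℕ → K, ρ = fun s => ν (Y + m * s) := ⟨_, rfl⟩
          have hρne : ∃ᶠ s in atTop, ρ s ≠ 0 := by
            intro hcon2
            apply hy1
            rw [eventually_atTop] at hcon2
            obtain ⟨s0, hs0⟩ := hcon2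
            unfold Z
            rw [eventually_atTop]
            refine ⟨Y + m * s0, fun n hn hny => ?_⟩
            have h5 : Y ≡ n [MOD m] := by rw [hY]; exact hx.trans hny.symm
            have h6 : m ∣ n - Y := (Nat.modEq_iff_dvd' (by omega)).1 h5
            obtain ⟨s, hs⟩ := h6
            have h7 : n = Y + m * s := by
              have : Y ≤ n := le_trans (Nat.le_add_right _ _) hn
              omega
            have h8 : s0 ≤ s := by
              by_contra hlt
              have : m * s < m * s0 := Nat.mul_lt_mul_of_pos_left (by omega) hm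
              omega
            have h9 := hs0 s h8
            rw [not_not, hρ] at h9
            rw [h7]
            exact h9
          have hρz : ∀ m' ∈ P, ∃ a' g' : ℕ, g'.Coprime m' ∧ ∀ i < r m', Z ρ m' (a' + i * g') := by
            intro m' hm'
            obtain ⟨a1, g1, h5, h6⟩ := hzν m' (Finset.mem_insert_of_mem hm')
            rw [hρ]
            refine restrict hm (hP m' (Finset.mem_insert_of_mem hm')) ?_ h5 h6 Y
            refine hcop (Finset.mem_coe.2 (Finset.mem_insert_self m P))
              (Finset.mem_coe.2 (Finset.mem_insert_of_mem hm')) ?_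
            rintro rfl
            exact hmP hm'
          choose! a' g' hg' hz' using hρz
          have h10 := ih (fun m' hm' => hP m' (Finset.mem_insert_of_mem hm'))
            (hcop.mono (by
              intro z hz
              exact Finset.mem_coe.2 (Finset.mem_insert_of_mem (Finset.mem_coe.1 hz)))) r ρ a' g'
            hg' hz' hρne (fun i => if hi : i < D then h (⟨j, hj⟩, ⟨i, hi⟩) else 0) (by
              rw [← hD]
              -- all the other terms vanish
              have hev : ∀ᶠ s in atTop, ∀ q : Fin (r m + 1) × Fin D, j < (q.1 : ℕ) →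
                  ν (x + m * s + ((q.1 : ℕ) * gm + m * (q.2 : ℕ))) = 0 := by
                rw [eventually_all]
                intro q
                by_cases hq : j < (q.1 : ℕ)
                · have h11 := hy2 ((q.1 : ℕ) - j) (by omega) (by have := q.1.2; omega)
                  unfold Z at h11
                  rw [eventually_atTop] at h11 ⊢
                  obtain ⟨b', hb'⟩ := h11
                  refine ⟨b', fun s hs _ => hb' _ ?_ ?_⟩
                  · have : s ≤ m * s := Nat.le_mul_of_pos_left s hm
                    omega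
                  · have e6 : x + m * s + ((q.1 : ℕ) * gm + m * (q.2 : ℕ)) =
                        (x + j * gm) + ((q.1 : ℕ) - j) * gm + m * (s + q.2) := by
                      obtain ⟨k, hk⟩ : ∃ k, (q.1 : ℕ) = j + k := ⟨(q.1 : ℕ) - j, by omega⟩
                      rw [hk, Nat.add_sub_cancel_left]
                      ring
                    rw [e6]
                    have h12 : m * (s + (q.2 : ℕ)) ≡ 0 [MOD m] :=
                      Nat.modEq_zero_iff_dvd.2 (Dvd.intro _ rfl)
                    have h13 := Nat.ModEq.add (Nat.ModEq.add_right (((q.1 : ℕ) - j) * gm) hx) h12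
                    rwa [add_zero] at h13
                · exact Eventually.of_forall fun s hs => absurd hs hq
              filter_upwards [hev] with s hs
              have h14 := h0 (x + m * s)
              rw [Fintype.sum_prod_type] at h14
              rw [Finset.sum_eq_single (⟨j, hj⟩ : Fin (r m + 1))] at h14
              · rw [Finset.sum_range]
                rw [← h14]
                refine Finset.sum_congr rfl fun t _ => ?_
                rw [dif_pos t.2, hρ]
                have e7 : Y + m * (s + (t : ℕ)) = x + m * s + (j * gm + m * (t : ℕ)) := by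
                  rw [hY]
                  ring
                simp only [e7]
              · intro j' _ hj'
                apply Finset.sum_eq_zero
                intro t _
                rcases Nat.lt_or_ge (j' : ℕ) j with h15 | h15
                · have := ihj (j' : ℕ) h15 j'.2 t
                  have e8 : (⟨(j' : ℕ), j'.2⟩ : Fin (r m + 1)) = j' := rfl
                  rw [e8] at this
                  rw [this, zero_mul]
                · have h16 : j < (j' : ℕ) := by
                    rcases Nat.lt_or_ge j (j' : ℕ) with h17 | h17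
                    · exact h17
                    · exfalso
                      apply hj'
                      apply Fin.ext
                      simp only
                      omega
                  rw [hs (j', t) h16, mul_zero]
              · intro h17
                exact absurd (Finset.mem_univ _) h17)
          have h18 := h10 (t : ℕ) (by rw [← hD]; exact t.2)
          simp only [t.2, dif_pos] at h18
          exact h18
      intro q
      obtain ⟨q1, q2⟩ := q
      exact key (q1 : ℕ) q1.2 q2
    have h1 := hlin.fintype_card_le_finrank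
    rw [finrank_sol, Fintype.card_prod, Fintype.card_fin, Fintype.card_fin, hEo] at h1
    omega

/-- **The order.** -/
theorem order_bound {E : LinearRecurrence K} {μ : ℕ → K} (hμ : μ ∈ E.solSpace) (P : Finset ℕ)
    (hP : ∀ m ∈ P, 0 < m) (hcop : (P : Set ℕ).Pairwise Nat.Coprime) (r a g : ℕ → ℕ)
    (hg : ∀ m ∈ P, (g m).Coprime m) (hz : ∀ m ∈ P, ∀ j < r m, Z μ m (a m + j * g m))
    (hne : ∃ n, E.order ≤ n ∧ μ n ≠ 0) : ∏ m ∈ P, (r m + 1) ≤ E.order := by
  classical
  by_contra hcon
  push Not at hcon
  have hne2 : ∃ᶠ n in atTop, μ n ≠ 0 := by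
    rw [frequently_atTop]
    intro t
    by_contra hc
    push Not at hc
    obtain ⟨n, hn1, hn2⟩ := hne
    exact hn2 (eventually_zero hμ hc n hn1)
  have h1 := free P hP hcop r μ a g hg hz hne2
    (fun i => if hi : i < E.order then E.coeffs ⟨i, hi⟩ else if i = E.order then -1 else 0) (by
      refine Eventually.of_forall fun n => ?_
      have h2 : ∑ i ∈ Finset.range (∏ m ∈ P, (r m + 1)),
          (if hi : i < E.order then E.coeffs ⟨i, hi⟩ else if i = E.order then -1 else 0) * μ (n + i) =
          ∑ i ∈ Finset.range (E.order + 1),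
          (if hi : i < E.order then E.coeffs ⟨i, hi⟩ else if i = E.order then -1 else 0) *
            μ (n + i) := by
        symm
        apply Finset.sum_subset
        · intro i hi
          rw [Finset.mem_range] at hi ⊢
          omega
        · intro i _ hi2
          rw [Finset.mem_range] at hi2
          rw [dif_neg (by omega), if_neg (by omega), zero_mul]
      rw [h2, Finset.sum_range_succ, dif_neg (by omega), if_pos rfl, hμ n, Finset.sum_range]
      have h3 : ∑ i : Fin E.order, (if hi : (i : ℕ) < E.order then E.coeffs ⟨i, hi⟩ else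
          if (i : ℕ) = E.order then -1 else 0) * μ (n + i) =
          ∑ i : Fin E.order, E.coeffs i * μ (n + i) := by
        refine Finset.sum_congr rfl fun i _ => ?_
        rw [dif_pos i.2]
      rw [h3]
      ring) E.order hcon
  rw [dif_neg (lt_irrefl _), if_pos rfl] at h1
  exact absurd h1 (by simp)

end Pool.Agent.X3.LinRuns
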