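import Mathlib
import Pool.Agent.X3.LinTwin

/-!
# Linear recurrences and reciprocals of power series; the pentagonal series
-/

set_option autoImplicit false

namespace Pool.Agent.X3.LinSeries

open PowerSeries Pool.Agent.X3.LinMult

/-- the word `x 0, …, x N` satisfies a linear recurrence of order `L` with coefficients in `F` -/
def Rec0 {F : Type} [Field F] (x : ℕ → F) (N L : ℕ) : Prop :=
  ∃ c : Fin L → F, ∀ n, n + L ≤ N → x (n + L) = ∑ i : Fin L, c i * x (n + i)

/-- **Duality.** -/
theorem dual {F : Type} [Field F] {P G : F⟦X⟧} (h : P * G = 1) {N L : ℕ}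
    (hrec : Rec0 (fun n => coeff n P) N L) : 1 ≤ L ∧ Recurrent (fun n => coeff n G) N L := by
  classical
  obtain ⟨c, hc⟩ := hrec
  have h0 : coeff 0 P * coeff 0 G = 1 := by
    have := congrArg (constantCoeff (R := F)) h
    rw [map_mul, map_one] at this
    simpa using this
  have hP0 : coeff 0 P ≠ 0 := fun h1 => by rw [h1, zero_mul] at h0; exact zero_ne_one h0
  have hL : 1 ≤ L := by
    by_contra hcon
    have : L = 0 := by omega
    subst this
    have := hc 0 (Nat.zero_le _)
    simp only [Finset.univ_eq_empty, Finset.sum_empty, Nat.add_zero] at this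
    exact hP0 this
  refine ⟨hL, ?_⟩
  obtain ⟨B, hB⟩ : ∃ B : F⟦X⟧, B = 1 - ∑ i : Fin L, C (c i) * X ^ (L - i) := ⟨_, rfl⟩
  -- the coefficients of `B`
  have hBc : ∀ m, L < m → coeff m B = 0 := by
    intro m hm
    rw [hB, map_sub, coeff_one, if_neg (by omega), map_sum, Finset.sum_eq_zero, sub_zero]
    intro i _
    rw [coeff_C_mul, coeff_X_pow, if_neg (by omega), mul_zero]
  -- the coefficients of `B P`
  have hBP : ∀ n, n + L ≤ N → coeff (n + L) (B * P) = 0 := by
    intro n hn
    have hcn := hc n hn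
    simp only at hcn
    rw [hB, sub_mul, one_mul, map_sub, Finset.sum_mul, map_sum, sub_eq_zero, hcn]
    refine Finset.sum_congr rfl fun i _ => ?_
    rw [mul_assoc, coeff_C_mul]
    congr 1
    have e : n + L = (n + i) + (L - i) := by have := i.2; omega
    rw [e, mul_comm, coeff_mul_X_pow]
  have hBP0 : coeff 0 (B * P) = coeff 0 P := by
    rw [hB, sub_mul, one_mul, map_sub, Finset.sum_mul, map_sum, Finset.sum_eq_zero, sub_zero]
    intro i _
    have e : L - (i : ℕ) = (L - i - 1) + 1 := by have := i.2; omega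
    rw [mul_assoc, coeff_C_mul, mul_comm (X ^ _) P, coeff_mul_X_pow', if_neg, mul_zero]
    have := i.2
    omega
  obtain ⟨a, ha⟩ : ∃ a : ℕ → F, a = fun n => coeff n (B * P) := ⟨_, rfl⟩
  have ha0 : a 0 ≠ 0 := by rw [ha]; simp only; rw [hBP0]; exact hP0
  have haz : ∀ n, L ≤ n → n ≤ N → a n = 0 := by
    intro n h1 h2
    obtain ⟨k, rfl⟩ : ∃ k, n = k + L := ⟨n - L, by omega⟩
    rw [ha]
    exact hBP k h2
  refine ⟨fun i => -(a (L - i) / a 0), ?_⟩
  intro n hn1 hn2
  -- the coefficient `n + L` of `B P G = B`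
  have h1 : ∑ k ∈ Finset.range (n + L).succ, a k * coeff (n + L - k) G = 0 := by
    rw [← Finset.Nat.sum_antidiagonal_eq_sum_range_succ (fun i j => a i * coeff j G), ha]
    have h2 : coeff (n + L) (B * P * G) = 0 := by
      rw [mul_assoc, h, mul_one]
      exact hBc _ (by omega)
    rw [coeff_mul] at h2
    exact h2
  have h2 : ∑ k ∈ Finset.range (L + 1), a k * coeff (n + L - k) G = 0 := by
    rw [← h1]
    apply Finset.sum_subset
    · intro k hk
      rw [Finset.mem_range] at hk ⊢
      omega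
    · intro k hk hk2
      rw [Finset.mem_range] at hk hk2
      rw [haz k (by omega) (by omega), zero_mul]
  rw [Finset.sum_range_succ', Nat.sub_zero] at h2
  simp only
  have h3 : ∑ i : Fin L, -(a (L - i) / a 0) * coeff (n + i) G =
      ∑ i ∈ Finset.range L, -(a (L - i) / a 0) * coeff (n + i) G :=
    Fin.sum_univ_eq_sum_range (fun i => -(a (L - i) / a 0) * coeff (n + i) G) L
  rw [h3, ← Finset.sum_range_reflect]
  have h4 : ∑ j ∈ Finset.range L, -(a (L - (L - 1 - j)) / a 0) * coeff (n + (L - 1 - j)) G =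
      -(∑ k ∈ Finset.range L, a (k + 1) * coeff (n + L - (k + 1)) G) / a 0 := by
    rw [← Finset.sum_neg_distrib, Finset.sum_div]
    refine Finset.sum_congr rfl fun j hj => ?_
    rw [Finset.mem_range] at hj
    have e1 : L - (L - 1 - j) = j + 1 := by omega
    have e2 : n + (L - 1 - j) = n + L - (j + 1) := by omega
    rw [e1, e2]
    ring
  rw [h4, eq_div_iff ha0]
  linear_combination h2

/-- `24 n + 1` is a square for a pentagonal number `n` -/
lemma pent_sq (k : ℤ) : 24 * (pentagonal k : ℤ) + 1 = (6 * k - 1) ^ 2 := by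
  have := two_mul_natCast_pentagonal k
  linear_combination 12 * this

/-- zeros of the pentagonal series on a residue class -/
lemma zero_class_pent {F : Type} [Field F] {p : ℕ} (hp : p.Prime) (hp5 : 5 ≤ p) :
    ∃ u, u < p ∧ ∀ t, coeff (u + p + p * t) (pentagonalSeries F) = 0 := by
  have : Fact p.Prime := ⟨hp⟩
  obtain ⟨ν, hν⟩ := FiniteField.exists_nonsquare (F := ZMod p) (by
    rw [ZMod.ringChar_zmod_n]
    omega)
  have h24 : (24 : ZMod p) ≠ 0 := by
    have h1 : ¬ p ∣ 24 := by
      intro hd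
      have h2 : p ∣ 2 * 2 * 2 * 3 := by simpa using hd
      rcases (hp.dvd_mul).1 h2 with h | h
      · rcases (hp.dvd_mul).1 h with h | h
        · rcases (hp.dvd_mul).1 h with h | h
          · have := Nat.le_of_dvd (by norm_num) h; omega
          · have := Nat.le_of_dvd (by norm_num) h; omega
        · have := Nat.le_of_dvd (by norm_num) h; omega
      · have := Nat.le_of_dvd (by norm_num) h; omega
    intro h2
    apply h1
    have h3 : ((24 : ℕ) : ZMod p) = 0 := by exact_mod_cast h2
    exact (ZMod.natCast_eq_zero_iff 24 p).1 h3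
  refine ⟨((ν - 1) / 24).val, ZMod.val_lt _, fun t => ?_⟩
  apply coeff_pentagonalSeries_eq_zero
  rintro ⟨k, hk⟩
  apply hν
  have h1 := pent_sq k
  rw [hk] at h1
  have h2 : ((24 * ((((ν - 1) / 24).val + p + p * t : ℕ) : ℤ) + 1 : ℤ) : ZMod p) =
      (((6 * k - 1) ^ 2 : ℤ) : ZMod p) := by rw [h1]
  push_cast at h2
  rw [ZMod.natCast_zmod_val, CharP.cast_eq_zero, zero_mul, add_zero, add_zero,
    mul_div_cancel₀ _ h24, sub_add_cancel] at h2
  rw [h2]
  exact ⟨6 * (k : ZMod p) - 1, by ring⟩

/-- **The pentagonal series.** -/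
theorem pent_main {F : Type} [Field F] {N L : ℕ}
    (h : Recurrent (fun n => coeff n (pentagonalSeries F)) N L)
    (hne : ∃ n, L < n ∧ n ≤ N ∧ coeff n (pentagonalSeries F) ≠ 0) :
    2 ^ Nat.primeCounting (N / (L + 1)) ≤ 4 * L := by
  classical
  obtain ⟨y, hy⟩ : ∃ y, y = N / (L + 1) := ⟨_, rfl⟩
  rw [← hy]
  obtain ⟨P, hP⟩ : ∃ P : Finset ℕ, P = (Finset.range (y + 1)).filter fun p => p.Prime ∧ 5 ≤ p :=
    ⟨_, rfl⟩
  have hPm : ∀ p ∈ P, p.Prime ∧ 5 ≤ p ∧ p * (L + 1) ≤ N := by
    intro p hp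
    rw [hP, Finset.mem_filter, Finset.mem_range] at hp
    refine ⟨hp.2.1, hp.2.2, ?_⟩
    calc p * (L + 1) ≤ y * (L + 1) := Nat.mul_le_mul_right _ (by omega)
      _ ≤ N := by rw [hy]; exact Nat.div_mul_le_self _ _
  have hu : ∀ p ∈ P, ∃ u, u < p ∧ ∀ t, coeff (u + p + p * t) (pentagonalSeries F) = 0 :=
    fun p hp => zero_class_pent (hPm p hp).1 (hPm p hp).2.1
  choose! u hu1 hu2 using hu
  have hcop : (P : Set ℕ).Pairwise Nat.Coprime := by
    intro p hp q hq hne
    exact (Nat.coprime_primes (hPm p hp).1 (hPm q hq).1).2 hne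
  have h1 := window_one h P (fun p hp => (hPm p hp).1.one_lt.le) hcop (fun p => u p + p) (by
    intro p hp
    obtain ⟨hp1, hp2, hp3⟩ := hPm p hp
    refine ⟨by omega, fun t ht => ⟨?_, hu2 p hp t⟩⟩
    have h2 := hu1 p hp
    have h5 : p * t + p ≤ p * L := by
      have : p * (t + 1) ≤ p * L := Nat.mul_le_mul_left _ ht
      rwa [mul_add, mul_one] at this
    rw [mul_add, mul_one] at hp3
    omega) hne
  have h2 : Nat.primeCounting y ≤ P.card + 2 := by
    rw [Nat.primeCounting, Nat.primeCounting', Nat.count_eq_card_filter_range]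
    calc ((Finset.range (y + 1)).filter Nat.Prime).card ≤ (P ∪ {2, 3}).card := by
          apply Finset.card_le_card
          intro p hp
          rw [Finset.mem_filter] at hp
          rw [Finset.mem_union, hP, Finset.mem_filter]
          rcases Nat.lt_or_ge p 5 with h5 | h5
          · right
            have := hp.2.two_le
            interval_cases p
            · simp
            · simp
            · exact absurd hp.2 (by norm_num)
          · left
            exact ⟨hp.1, hp.2, h5⟩
      _ ≤ P.card + ({2, 3} : Finset ℕ).card := Finset.card_union_le _ _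
      _ ≤ P.card + 2 := by
          have : ({2, 3} : Finset ℕ).card ≤ 2 := by decide
          omega
  calc 2 ^ Nat.primeCounting y ≤ 2 ^ (P.card + 2) := Nat.pow_le_pow_right (by norm_num) h2
    _ = 2 ^ P.card * 4 := by rw [pow_add]; norm_num
    _ ≤ L * 4 := Nat.mul_le_mul_right _ h1
    _ = 4 * L := mul_comm _ _

/-- a pentagonal number in `(N / 2, N]` -/
lemma exists_pent {N : ℕ} (hN : 16 ≤ N) : ∃ k : ℤ, N < 2 * pentagonal k ∧ pentagonal k ≤ N := by
  have hex : ∃ j : ℕ, N < pentagonal (j : ℤ) := by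
    refine ⟨N + 1, ?_⟩
    have h1 := two_mul_natCast_pentagonal ((N + 1 : ℕ) : ℤ)
    push_cast at h1 ⊢
    have : (N : ℤ) < pentagonal ((N : ℤ) + 1) := by nlinarith
    exact_mod_cast this
  obtain ⟨j, hj⟩ : ∃ j, j = Nat.find hex := ⟨_, rfl⟩
  have hj1 : N < pentagonal (j : ℤ) := by rw [hj]; exact Nat.find_spec hex
  have hj4 : 4 ≤ j := by
    by_contra hcon
    have hj3 : j ≤ 3 := by omega
    have h1 := two_mul_natCast_pentagonal (j : ℤ)
    have h2 : (N : ℤ) < pentagonal (j : ℤ) := by exact_mod_cast hj1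
    have h3 : (j : ℤ) ≤ 3 := by exact_mod_cast hj3
    have h4 : (0 : ℤ) ≤ j := by positivity
    have h5 : (16 : ℤ) ≤ N := by exact_mod_cast hN
    nlinarith
  have hj2 : pentagonal ((j - 1 : ℕ) : ℤ) ≤ N := by
    have := Nat.find_min hex (m := j - 1) (by omega)
    omega
  refine ⟨((j - 1 : ℕ) : ℤ), ?_, hj2⟩
  have h1 := two_mul_natCast_pentagonal (j : ℤ)
  have h2 := two_mul_natCast_pentagonal ((j - 1 : ℕ) : ℤ)
  have e : ((j - 1 : ℕ) : ℤ) = (j : ℤ) - 1 := by omega
  rw [e] at h2 ⊢
  have h3 : (N : ℤ) < pentagonal (j : ℤ) := by exact_mod_cast hj1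
  have h4 : (4 : ℤ) ≤ j := by exact_mod_cast hj4
  have : (N : ℤ) < 2 * pentagonal ((j : ℤ) - 1) := by nlinarith
  exact_mod_cast this

/-- **The reciprocal of the pentagonal series.** -/
theorem recip_main {F : Type} [Field F] {P : F⟦X⟧} (h : P * pentagonalSeries F = 1) {N L : ℕ}
    (hN : 16 ≤ N) (hrec : Rec0 (fun n => coeff n P) N L) :
    (2 * L ≤ N → 2 ^ Nat.primeCounting (N / (L + 1)) ≤ 4 * L) ∧
    (N : ℝ) / (100 * Real.log N * Real.log (Real.log N)) ≤ L := by
  obtain ⟨hL, h1⟩ := dual h hrec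
  have key : 2 * L ≤ N → 2 ^ Nat.primeCounting (N / (L + 1)) ≤ 4 * L := by
    intro h2
    apply pent_main h1
    obtain ⟨k, hk1, hk2⟩ := exists_pent hN
    refine ⟨pentagonal k, by omega, hk2, ?_⟩
    rw [coeff_pentagonalSeries_pentagonal]
    rcases Int.even_or_odd k with he | ho
    · rw [Int.negOnePow_even k he]; simp
    · rw [Int.negOnePow_odd k ho]; simp
  refine ⟨key, ?_⟩
  rcases Nat.lt_or_ge N (2 * L) with h2 | h2
  · have hNR : (16 : ℝ) ≤ N := by exact_mod_cast hN
    have hLR : (N : ℝ) ≤ 2 * L := by exact_mod_cast h2.le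
    have hlog : 2.77 ≤ Real.log N := by
      have h1 : Real.log 16 ≤ Real.log N := Real.log_le_log (by norm_num) hNR
      have h2 : Real.log 16 = 4 * Real.log 2 := by
        rw [show (16 : ℝ) = 2 ^ 4 by norm_num, Real.log_pow]; norm_num
      have := Real.log_two_gt_d9
      linarith
    have hll : 1 ≤ Real.log (Real.log N) := by
      have h1 : Real.log (Real.exp 1) ≤ Real.log (Real.log N) := by
        apply Real.log_le_log (Real.exp_pos _)
        have := Real.exp_one_lt_d9
        linarith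
      rwa [Real.log_exp] at h1
    rw [div_le_iff₀ (by positivity)]
    have h3 : 2 ≤ 100 * Real.log N * Real.log (Real.log N) := by nlinarith
    have hL0 : (0 : ℝ) ≤ L := Nat.cast_nonneg _
    nlinarith
  · exact num_lin hN hL (by omega) (key h2)

end Pool.Agent.X3.LinSeries
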