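import Mathlib
import Pool.Agent.X3.LinSeries
import Pool.Agent.X3.LinNum

/-!
# The product of two pentagonal series modulo 2
-/

set_option autoImplicit false

namespace Pool.Agent.X3.LinSeries

open PowerSeries Pool.Agent.X3.LinMult

/-- `x ^ 2 + 2 ^ b y ^ 2` and the primes `p ≡ 7` modulo `8` -/
lemma both_dvd {p : ℕ} (hp : p.Prime) (hp7 : p % 8 = 7) (b : ℕ) {x y : ℤ}
    (h : (p : ℤ) ∣ x ^ 2 + 2 ^ b * y ^ 2) : (p : ℤ) ∣ x ∧ (p : ℤ) ∣ y := by
  have : Fact p.Prime := ⟨hp⟩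
  have h0 : ((x : ZMod p)) ^ 2 + 2 ^ b * (y : ZMod p) ^ 2 = 0 := by
    have h1 := (ZMod.intCast_zmod_eq_zero_iff_dvd (x ^ 2 + 2 ^ b * y ^ 2) p).2 h
    push_cast at h1
    exact h1
  have h2 : IsSquare (2 : ZMod p) := (ZMod.exists_sq_eq_two_iff (by omega)).2 (Or.inr hp7)
  have h2b : IsSquare ((2 : ZMod p) ^ b) := h2.pow b
  obtain ⟨r, hr⟩ := h2b
  have hm1 : ¬ IsSquare (-1 : ZMod p) := by
    rw [ZMod.exists_sq_eq_neg_one_iff]
    omega
  have h20 : (2 : ZMod p) ≠ 0 := by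
    intro h3
    have h4 : ((2 : ℕ) : ZMod p) = 0 := by exact_mod_cast h3
    have := Nat.le_of_dvd (by norm_num) ((ZMod.natCast_eq_zero_iff 2 p).1 h4)
    omega
  have hr0 : r ≠ 0 := by
    intro h3
    rw [h3, mul_zero] at hr
    exact pow_ne_zero b h20 hr
  have hy : (y : ZMod p) = 0 := by
    by_contra hy
    apply hm1
    refine ⟨(x : ZMod p) / (r * y), ?_⟩
    rw [hr] at h0
    have h3 : (x : ZMod p) ^ 2 = -(r * r * (y : ZMod p) ^ 2) := by linear_combination h0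
    field_simp
    rw [h3]
    ring
  have hx : (x : ZMod p) = 0 := by
    rw [hy] at h0
    have : (x : ZMod p) ^ 2 = 0 := by linear_combination h0
    exact pow_eq_zero_iff (two_ne_zero) |>.1 this
  exact ⟨(ZMod.intCast_zmod_eq_zero_iff_dvd x p).1 hx, (ZMod.intCast_zmod_eq_zero_iff_dvd y p).1 hy⟩

/-- the product `f(X) f(X ^ (2 ^ b))` for the pentagonal series `f` modulo `2` -/
noncomputable def G (b : ℕ) : (ZMod 2)⟦X⟧ :=
  pentagonalSeries (ZMod 2) * PowerSeries.expand (2 ^ b) (by positivity) (pentagonalSeries (ZMod 2))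

lemma G_zero {b n : ℕ} (h : ∀ a c : ℤ, n ≠ pentagonal a + 2 ^ b * pentagonal c) :
    coeff n (G b) = 0 := by
  unfold G
  rw [coeff_mul]
  apply Finset.sum_eq_zero
  rintro ⟨i, j⟩ hij
  rw [Finset.HasAntidiagonal.mem_antidiagonal] at hij
  simp only at hij ⊢
  by_contra hne
  have h1 : coeff i (pentagonalSeries (ZMod 2)) ≠ 0 := left_ne_zero_of_mul hne
  have h2 := right_ne_zero_of_mul hne
  rw [ne_eq, coeff_pentagonalSeries_eq_zero_iff, not_not] at h1
  obtain ⟨a, ha⟩ := h1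
  rw [coeff_expand] at h2
  split_ifs at h2 with hd
  · obtain ⟨e, he⟩ := hd
    rw [he, Nat.mul_div_cancel_left _ (by positivity), ne_eq, coeff_pentagonalSeries_eq_zero_iff,
      not_not] at h2
    obtain ⟨c, hc⟩ := h2
    apply h a c
    rw [ha, hc, ← he, hij]
  · exact h2 rfl

/-- zeros on a residue class modulo `p ^ 2` -/
lemma G_class {p : ℕ} (hp : p.Prime) (hp7 : p % 8 = 7) (b : ℕ) :
    ∃ u, u < p ^ 2 ∧ ∀ t, coeff (u + p ^ 2 + p ^ 2 * t) (G b) = 0 := by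
  have hp2 : 2 ≤ p := hp.two_le
  have h24 : Nat.Coprime 24 (p ^ 2) := by
    apply Nat.Coprime.pow_right
    rw [Nat.coprime_comm, Nat.Prime.coprime_iff_not_dvd hp]
    intro hd
    have h2 : p ∣ 2 * 2 * 2 * 3 := by simpa using hd
    rcases (hp.dvd_mul).1 h2 with h | h
    · rcases (hp.dvd_mul).1 h with h | h
      · rcases (hp.dvd_mul).1 h with h | h
        · have := Nat.le_of_dvd (by norm_num) h; omega
        · have := Nat.le_of_dvd (by norm_num) h; omega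
      · have := Nat.le_of_dvd (by norm_num) h; omega
    · have := Nat.le_of_dvd (by norm_num) h; omega
  have hpp : 0 < p ^ 2 := by positivity
  -- a solution of `24 u + 1 + 2 ^ b ≡ p` modulo `p ^ 2`
  obtain ⟨u, hu1, hu2⟩ : ∃ u : ℕ, u < p ^ 2 ∧
      ((p : ℤ) ^ 2) ∣ 24 * (u : ℤ) + 1 + 2 ^ b - p := by
    obtain ⟨v, s, hvs⟩ := Nat.isCoprime_iff_coprime.2 h24
    push_cast at hvs
    obtain ⟨w, hw⟩ : ∃ w : ℤ, w = v * ((p : ℤ) - 1 - 2 ^ b) := ⟨_, rfl⟩
    have hp2z : (0 : ℤ) < (p : ℤ) ^ 2 := by exact_mod_cast hpp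
    obtain ⟨u, hu⟩ : ∃ u : ℕ, (u : ℤ) = w % (p : ℤ) ^ 2 :=
      ⟨(w % (p : ℤ) ^ 2).toNat, Int.toNat_of_nonneg (Int.emod_nonneg _ hp2z.ne')⟩
    refine ⟨u, ?_, ?_⟩
    · have := Int.emod_lt_of_pos w hp2z
      rw [← hu] at this
      exact_mod_cast this
    · have h3 : (p : ℤ) ^ 2 ∣ (u : ℤ) - w := by
        rw [hu]
        have := Int.emod_add_mul_ediv w ((p : ℤ) ^ 2)
        exact ⟨-(w / (p : ℤ) ^ 2), by linear_combination this⟩
      obtain ⟨d, hd⟩ := h3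
      refine ⟨24 * d + (-s) * ((p : ℤ) - 1 - 2 ^ b), ?_⟩
      have h4 : (u : ℤ) = w + (p : ℤ) ^ 2 * d := by linear_combination hd
      have h5 : 24 * v = 1 + (p : ℤ) ^ 2 * (-s) := by linear_combination hvs
      rw [h4, hw]
      linear_combination ((p : ℤ) - 1 - 2 ^ b) * h5
  refine ⟨u, hu1, fun t => ?_⟩
  apply G_zero
  intro a c hac
  have h1 := pent_sq a
  have h2 := pent_sq c
  have h3 : ((u + p ^ 2 + p ^ 2 * t : ℕ) : ℤ) = (pentagonal a : ℤ) + 2 ^ b * (pentagonal c : ℤ) := by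
    exact_mod_cast hac
  push_cast at h3
  have h4 : (6 * a - 1) ^ 2 + 2 ^ b * (6 * c - 1) ^ 2 =
      24 * (u : ℤ) + 1 + 2 ^ b + (p : ℤ) ^ 2 * (24 * (1 + t)) := by
    rw [← h1, ← h2]
    linear_combination (-24) * h3
  obtain ⟨e, he⟩ := hu2
  have h5 : (6 * a - 1) ^ 2 + 2 ^ b * (6 * c - 1) ^ 2 =
      (p : ℤ) + (p : ℤ) ^ 2 * (e + 24 * (1 + t)) := by
    rw [h4]
    linear_combination he
  have h6 : (p : ℤ) ∣ (6 * a - 1) ^ 2 + 2 ^ b * (6 * c - 1) ^ 2 := by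
    rw [h5]
    exact ⟨1 + p * (e + 24 * (1 + t)), by ring⟩
  obtain ⟨⟨x', hx'⟩, ⟨y', hy'⟩⟩ := both_dvd hp hp7 b h6
  rw [hx', hy'] at h5
  have hp0 : (p : ℤ) ≠ 0 := by exact_mod_cast hp.ne_zero
  have h7 : (p : ℤ) * (x' ^ 2 + 2 ^ b * y' ^ 2 - (e + 24 * (1 + t))) = 1 := by
    apply mul_left_cancel₀ hp0
    linear_combination h5
  have h8 : (p : ℤ) ∣ 1 := ⟨_, h7.symm⟩
  have h9 := Int.le_of_dvd one_pos h8
  have : (2 : ℤ) ≤ p := by exact_mod_cast hp2
  omega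

/-- descent at the prime `7` -/
lemma descent (b : ℕ) : ∀ (i : ℕ) (x y : ℤ), x % 2 = 1 → y % 2 = 1 →
    x ^ 2 + 2 ^ b * y ^ 2 = (1 + 2 ^ b) * 49 ^ i → x ^ 2 = 49 ^ i ∧ y ^ 2 = 49 ^ i := by
  intro i
  induction i with
  | zero =>
    intro x y hx hy h
    rw [pow_zero, mul_one] at h
    rw [pow_zero]
    have hx0 : x ≠ 0 := by omega
    have hy0 : y ≠ 0 := by omega
    have h1 : 1 ≤ x ^ 2 := by
      have := sq_pos_of_ne_zero (a := x) hx0
      omega
    have h2 : 1 ≤ y ^ 2 := by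
      have := sq_pos_of_ne_zero (a := y) hy0
      omega
    have hb : (0 : ℤ) < 2 ^ b := by positivity
    constructor
    · nlinarith
    · nlinarith
  | succ i ih =>
    intro x y hx hy h
    obtain ⟨⟨x', hx'⟩, ⟨y', hy'⟩⟩ := both_dvd (p := 7) (by norm_num) (by norm_num) b (x := x) (y := y)
      ⟨(1 + 2 ^ b) * 49 ^ i * 7, by rw [h, pow_succ]; push_cast; ring⟩
    push_cast at hx' hy'
    have h1 := ih x' y' (by omega) (by omega) (by
      rw [hx', hy', pow_succ] at h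
      have h2 : (49 : ℤ) * (x' ^ 2 + 2 ^ b * y' ^ 2) = 49 * ((1 + 2 ^ b) * 49 ^ i) := by
        linear_combination h
      exact mul_left_cancel₀ (by norm_num) h2)
    rw [hx', hy', pow_succ]
    constructor
    · linear_combination 49 * h1.1
    · linear_combination 49 * h1.2

/-- the pentagonal number `(49 ^ i - 1) / 24` -/
lemma pent49 (i : ℕ) : ∃ k : ℤ, 24 * (pentagonal k : ℤ) + 1 = 49 ^ i := by
  -- `6 k - 1 = -7 ^ i`
  have h1 : (7 : ℤ) ^ i % 6 = 1 := by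
    induction i with
    | zero => norm_num
    | succ i ih => rw [pow_succ]; omega
  refine ⟨-((7 ^ i - 1) / 6), ?_⟩
  rw [pent_sq]
  have h2 : 6 * ((7 ^ i - 1) / 6 : ℤ) = 7 ^ i - 1 := by omega
  have h3 : 6 * -((7 ^ i - 1) / 6 : ℤ) - 1 = -(7 ^ i) := by linarith
  rw [h3, neg_sq, ← pow_mul, mul_comm i 2, pow_mul]
  norm_num

/-- a coefficient which is `1` -/
lemma G_one (b i : ℕ) : ∃ h : ℕ, 24 * h + 1 = 49 ^ i ∧ coeff ((1 + 2 ^ b) * h) (G b) = 1 := by
  obtain ⟨k, hk⟩ := pent49 i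
  refine ⟨pentagonal k, by exact_mod_cast hk, ?_⟩
  unfold G
  rw [coeff_mul]
  have hpar : ∀ k : ℤ, coeff (pentagonal k) (pentagonalSeries (ZMod 2)) = 1 := by
    intro k
    rw [coeff_pentagonalSeries_pentagonal]
    rcases Int.even_or_odd k with he | ho
    · rw [Int.negOnePow_even k he]; rfl
    · rw [Int.negOnePow_odd k ho]; rfl
  rw [Finset.sum_eq_single (pentagonal k, 2 ^ b * pentagonal k)]
  · simp only
    rw [hpar, one_mul, coeff_expand_mul, hpar]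
  · rintro ⟨i', j'⟩ hij hne
    rw [Finset.HasAntidiagonal.mem_antidiagonal] at hij
    simp only at hij ⊢
    by_contra hne2
    have h1 := left_ne_zero_of_mul hne2
    have h2 := right_ne_zero_of_mul hne2
    rw [ne_eq, coeff_pentagonalSeries_eq_zero_iff, not_not] at h1
    obtain ⟨a, ha⟩ := h1
    rw [coeff_expand] at h2
    split_ifs at h2 with hd
    · obtain ⟨e, he⟩ := hd
      rw [he, Nat.mul_div_cancel_left _ (by positivity), ne_eq, coeff_pentagonalSeries_eq_zero_iff,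
        not_not] at h2
      obtain ⟨c, hc⟩ := h2
      have h3 := pent_sq a
      have h4 := pent_sq c
      have h5 : (pentagonal a : ℤ) + 2 ^ b * (pentagonal c : ℤ) = (1 + 2 ^ b) * (pentagonal k : ℤ) := by
        rw [ha, hc]
        have : i' + 2 ^ b * e = (1 + 2 ^ b) * pentagonal k := by rw [← he, hij]
        exact_mod_cast this
      have h6 := descent b i (6 * a - 1) (6 * c - 1) (by omega) (by omega) (by
        rw [← h3, ← h4, ← hk]
        linear_combination 24 * h5)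
      have h7 : (pentagonal a : ℤ) = pentagonal k := by
        have h8 := h6.1
        rw [← h3, ← hk] at h8
        linarith
      apply hne
      have h9 : pentagonal a = pentagonal k := by exact_mod_cast h7
      have h10 : i' = pentagonal k := by rw [← ha, h9]
      have h11 : j' = 2 ^ b * pentagonal k := by
        have e1 : (1 + 2 ^ b) * pentagonal k = pentagonal k + 2 ^ b * pentagonal k := by ring
        rw [h10, e1] at hij
        omega
      rw [h10, h11]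
    · exact h2 rfl
  · intro h
    exfalso
    apply h
    rw [Finset.HasAntidiagonal.mem_antidiagonal]
    ring

/-- the number of the primes `p ≤ w` with `p ≡ 7` modulo `8` -/
def cnt7 (w : ℕ) : ℕ := ((Finset.Icc 1 w).filter fun p => p.Prime ∧ p ≡ 7 [MOD 8]).card

/-- **The bound.** -/
theorem G_main {b N L : ℕ} (h : Recurrent (fun n => coeff n (G b)) N L)
    (hne : ∃ n, L < n ∧ n ≤ N ∧ coeff n (G b) ≠ 0) : 2 ^ cnt7 (Nat.sqrt (N / (L + 1))) ≤ L := by
  classical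
  obtain ⟨w, hw⟩ : ∃ w, w = Nat.sqrt (N / (L + 1)) := ⟨_, rfl⟩
  rw [← hw]
  obtain ⟨P, hP⟩ : ∃ P : Finset ℕ, P = (Finset.Icc 1 w).filter fun p => p.Prime ∧ p ≡ 7 [MOD 8] :=
    ⟨_, rfl⟩
  have hPm : ∀ p ∈ P, p.Prime ∧ p % 8 = 7 ∧ p ^ 2 * (L + 1) ≤ N := by
    intro p hp
    rw [hP, Finset.mem_filter, Finset.mem_Icc] at hp
    refine ⟨hp.2.1, hp.2.2, ?_⟩
    have h1 : p ^ 2 ≤ N / (L + 1) := by
      rw [sq]
      exact le_trans (Nat.mul_le_mul hp.1.2 hp.1.2) (by rw [hw]; exact Nat.sqrt_le _)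
    calc p ^ 2 * (L + 1) ≤ N / (L + 1) * (L + 1) := Nat.mul_le_mul_right _ h1
      _ ≤ N := Nat.div_mul_le_self _ _
  have hu : ∀ p ∈ P, ∃ u, u < p ^ 2 ∧ ∀ t, coeff (u + p ^ 2 + p ^ 2 * t) (G b) = 0 :=
    fun p hp => G_class (hPm p hp).1 (hPm p hp).2.1 b
  choose! u hu1 hu2 using hu
  have hcop0 : ∀ p ∈ P, ∀ q ∈ P, p ≠ q → Nat.Coprime (p ^ 2) (q ^ 2) := by
    intro p hp q hq hne
    exact Nat.Coprime.pow _ _ ((Nat.coprime_primes (hPm p hp).1 (hPm q hq).1).2 hne)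
  have hinj : Set.InjOn (fun p : ℕ => p ^ 2) (P : Set ℕ) := by
    intro p _ q _ hpq
    exact Nat.pow_left_injective (n := 2) (by norm_num) hpq
  have hsq : ∀ m ∈ P.image (fun p => p ^ 2), ∃ p ∈ P, p ^ 2 = m := by
    intro m hm
    exact Finset.mem_image.1 hm
  choose! r hr1 hr2 using hsq
  have h1 := window_one h (P.image fun p => p ^ 2) (by
    intro m hm
    obtain ⟨p, hp, rfl⟩ := Finset.mem_image.1 hm
    have := (hPm p hp).1.one_lt
    nlinarith) (by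
    intro m hm n hn hmn
    obtain ⟨p, hp, rfl⟩ := Finset.mem_image.1 (Finset.mem_coe.1 hm)
    obtain ⟨q, hq, rfl⟩ := Finset.mem_image.1 (Finset.mem_coe.1 hn)
    exact hcop0 p hp q hq (fun e => hmn (by rw [e]))) (fun m => u (r m) + m) (by
    intro m hm
    have hrm := hr1 m hm
    have hrm2 := hr2 m hm
    obtain ⟨hp1, hp2, hp3⟩ := hPm _ hrm
    rw [hrm2] at hp3
    have h2 := hu1 _ hrm
    rw [hrm2] at h2
    have h3 := hu2 _ hrm
    rw [hrm2] at h3
    refine ⟨by omega, fun t ht => ⟨?_, h3 t⟩⟩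
    have h5 : m * t + m ≤ m * L := by
      have : m * (t + 1) ≤ m * L := Nat.mul_le_mul_left _ ht
      rwa [mul_add, mul_one] at this
    rw [mul_add, mul_one] at hp3
    omega) hne
  rw [Finset.card_image_of_injOn hinj] at h1
  unfold cnt7
  rw [← hP]
  exact h1

end Pool.Agent.X3.LinSeries
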