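import Mathlib
import Pool.Agent.X3.NfaCut
import Pool.Agent.X3.NfaNum2
import Pool.Agent.H547R3.Sub.Cyc

/-!
# Automata and the parity words of the maps `T_{q,k}`
-/

set_option autoImplicit false

namespace Pool.Agent.X3.NfaTqk

open Finset Pool.Agent.X3.NfaWords

/-- The map `(q x + k) / 2` (odd `x`), `x / 2` (even `x`). -/
def T (q k x : ℤ) : ℤ := if x % 2 = 0 then x / 2 else (q * x + k) / 2

lemma T_eq (q k : ℤ) : T q k = Pool.Agent.H547R3.Sub.Tm q k := by
  funext x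
  rfl

/-- the parities along a trajectory -/
def par (q k x : ℤ) (i : ℕ) : ZMod 2 := (((T q k)^[i] x : ℤ) : ZMod 2)

lemma par_eq_iff (q k x y : ℤ) (i j : ℕ) :
    par q k x i = par q k y j ↔ ((T q k)^[i] x) % 2 = ((T q k)^[j] y) % 2 := by
  unfold par
  rw [ZMod.intCast_eq_intCast_iff]
  exact Iff.rfl

lemma two_T_even {q k x : ℤ} (h : x % 2 = 0) : 2 * T q k x = x := by
  unfold T
  rw [if_pos h]
  omega

lemma two_T_odd {q k x : ℤ} (hq : q % 2 = 1) (hk : k % 2 = 1) (h : ¬ x % 2 = 0) :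
    2 * T q k x = q * x + k := by
  unfold T
  rw [if_neg h]
  have h1 : (q * x + k) % 2 = 0 := by
    have hx : x % 2 = 1 := by omega
    rw [Int.add_emod, Int.mul_emod, hq, hx, hk]
    norm_num
  omega

lemma dvd_of_par {q k : ℤ} (hq : q % 2 = 1) (hk : k % 2 = 1) (m : ℕ) :
    ∀ a b : ℤ, (∀ i, i < m → ((T q k)^[i] a) % 2 = ((T q k)^[i] b) % 2) →
    (2 : ℤ) ^ m ∣ a - b := by
  induction m with
  | zero => intro a b _; simp
  | succ m ih =>
    intro a b h
    have h0 := h 0 (by omega)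
    simp only [Function.iterate_zero, id] at h0
    have h1 := ih (T q k a) (T q k b) (fun i hi => by
      have := h (i + 1) (by omega)
      rwa [Function.iterate_succ_apply, Function.iterate_succ_apply] at this)
    obtain ⟨c, hc⟩ := h1
    by_cases ha : a % 2 = 0
    · have hb : b % 2 = 0 := by omega
      have e1 := two_T_even (q := q) (k := k) ha
      have e2 := two_T_even (q := q) (k := k) hb
      refine ⟨c, ?_⟩
      rw [pow_succ]
      linear_combination (-1) * e1 + e2 + 2 * hc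
    · have hb : ¬ b % 2 = 0 := by omega
      have e1 := two_T_odd hq hk ha
      have e2 := two_T_odd hq hk hb
      have h3 : q * (a - b) = 2 ^ (m + 1) * c := by
        rw [pow_succ]
        linear_combination (-1) * e1 + e2 + 2 * hc
      have h4 : (2 : ℤ) ^ (m + 1) ∣ q * (a - b) := ⟨c, h3⟩
      refine (IsCoprime.pow_left ?_).dvd_of_dvd_mul_left h4
      rw [Int.isCoprime_iff_gcd_eq_one]
      have h5 : q = 2 * (q / 2) + 1 := by omega
      have h6 : IsCoprime (2 : ℤ) q := ⟨-(q / 2), 1, by linarith⟩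
      exact Int.isCoprime_iff_gcd_eq_one.1 h6

lemma abs_k {k : ℤ} (hk : k % 2 = 1) : (1 : ℝ) ≤ |(k : ℝ)| := by
  have h1 : k ≠ 0 := by rintro rfl; simp at hk
  have h2 : 1 ≤ |k| := Int.one_le_abs h1
  exact_mod_cast h2

lemma growth {q k : ℤ} (hq : q % 2 = 1) (hq3 : 3 ≤ q) (hk : k % 2 = 1) (x : ℤ) (n : ℕ) :
    |(((T q k)^[n] x : ℤ) : ℝ)| + |(k : ℝ)| ≤ ((q : ℝ) / 2) ^ n * (|(x : ℝ)| + |(k : ℝ)|) := by
  have hq3R : (3 : ℝ) ≤ q := by exact_mod_cast hq3
  have hk0 := abs_k hk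
  induction n with
  | zero => simp
  | succ n ih =>
    rw [Function.iterate_succ_apply']
    obtain ⟨y, hy⟩ : ∃ y, y = (T q k)^[n] x := ⟨_, rfl⟩
    rw [← hy] at ih ⊢
    have hy0 := abs_nonneg (y : ℝ)
    have h : |((T q k y : ℤ) : ℝ)| + |(k : ℝ)| ≤ (q : ℝ) / 2 * (|(y : ℝ)| + |(k : ℝ)|) := by
      by_cases h : y % 2 = 0
      · have e2 : (2 : ℝ) * ((T q k y : ℤ) : ℝ) = y := by exact_mod_cast two_T_even h
        have e3 : |(y : ℝ)| = 2 * |((T q k y : ℤ) : ℝ)| := by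
          rw [← e2, abs_mul]; norm_num
        nlinarith
      · have e2 : (2 : ℝ) * ((T q k y : ℤ) : ℝ) = q * y + k := by exact_mod_cast two_T_odd hq hk h
        have e3 : 2 * |((T q k y : ℤ) : ℝ)| ≤ q * |(y : ℝ)| + |(k : ℝ)| := by
          have h1 : 2 * |((T q k y : ℤ) : ℝ)| = |(q : ℝ) * (y : ℝ) + k| := by
            rw [← e2, abs_mul]; norm_num
          rw [h1]
          refine (abs_add_le _ _).trans ?_
          rw [abs_mul, abs_of_nonneg (show (0 : ℝ) ≤ q by linarith)]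
        nlinarith
    calc |((T q k y : ℤ) : ℝ)| + |(k : ℝ)| ≤ (q : ℝ) / 2 * (|(y : ℝ)| + |(k : ℝ)|) := h
      _ ≤ (q : ℝ) / 2 * (((q : ℝ) / 2) ^ n * (|(x : ℝ)| + |(k : ℝ)|)) :=
        mul_le_mul_of_nonneg_left ih (by linarith)
      _ = _ := by ring

/-- the height -/
noncomputable def hgt (k y : ℤ) : ℝ := Real.log (|(y : ℝ)| + |(k : ℝ)| + 2)

lemma one_le_hgt {k : ℤ} (hk : k % 2 = 1) (y : ℤ) : 1 ≤ hgt k y := by
  unfold hgt
  have e1 : Real.log (Real.exp 1) ≤ Real.log (|(y : ℝ)| + |(k : ℝ)| + 2) := by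
    apply Real.log_le_log (Real.exp_pos _)
    have := Real.exp_one_lt_d9
    have := abs_nonneg (y : ℝ)
    have := abs_k hk
    linarith
  rwa [Real.log_exp] at e1

/-- no long periodic stretches in the parity word of a trajectory without repetitions -/
theorem noPer {q k x : ℤ} (hq : q % 2 = 1) (hq3 : 3 ≤ q) (hk : k % 2 = 1) {N : ℕ}
    (hx : ∀ i j, i < j → j < N → (T q k)^[i] x ≠ (T q k)^[j] x) {N₀ : ℕ}
    (hN₀ : 2 * hgt k x ≤ N₀) :
    NoPerTo (par q k x) (Real.log q / Real.log 2 + 1) N₀ N := by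
  intro u s v hu hs hv huv
  by_contra hcon
  push Not at hcon
  have hq3R : (3 : ℝ) ≤ q := by exact_mod_cast hq3
  have hlq : 0 < Real.log q := Real.log_pos (by linarith)
  have l2 : (0.6931 : ℝ) < Real.log 2 := by have := Real.log_two_gt_d9; linarith
  have hx0 : 0 ≤ |(x : ℝ)| := abs_nonneg _
  have hk0 := abs_k hk
  have husR : (0 : ℝ) ≤ (u : ℝ) + s := by positivity
  have hρ : 1 ≤ Real.log q / Real.log 2 + 1 := by
    have : 0 ≤ Real.log q / Real.log 2 := by positivity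
    linarith
  have husv : u + s < v := by
    have h1 : 1 * ((u : ℝ) + s) ≤ (Real.log q / Real.log 2 + 1) * ((u : ℝ) + s) :=
      mul_le_mul_of_nonneg_right hρ husR
    have : ((u + s : ℕ) : ℝ) < v := by push_cast; linarith
    exact_mod_cast this
  have h1 : (2 : ℤ) ^ (v - (u + s)) ∣ (T q k)^[u + s] x - (T q k)^[u] x := by
    apply dvd_of_par hq hk
    intro i hi
    rw [← Function.iterate_add_apply, ← Function.iterate_add_apply]
    have := hcon (i + u) (by omega) (by omega)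
    rw [par_eq_iff] at this
    have e : i + (u + s) = i + u + s := by ring
    rw [e]
    exact this
  have h2 : (T q k)^[u + s] x - (T q k)^[u] x ≠ 0 := by
    rw [sub_ne_zero]
    exact (hx u (u + s) (by omega) (by omega)).symm
  have h3 := Int.le_of_dvd (abs_pos.2 h2) ((dvd_abs _ _).2 h1)
  have h3R : ((2 : ℝ)) ^ (v - (u + s)) ≤
      |(((T q k)^[u + s] x : ℤ) : ℝ) - (((T q k)^[u] x : ℤ) : ℝ)| := by
    exact_mod_cast h3
  have h4 : |(((T q k)^[u + s] x : ℤ) : ℝ) - (((T q k)^[u] x : ℤ) : ℝ)| ≤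
      |(((T q k)^[u + s] x : ℤ) : ℝ)| + |(((T q k)^[u] x : ℤ) : ℝ)| := abs_sub _ _
  have h5 := growth hq hq3 hk x (u + s)
  have h6 := growth hq hq3 hk x u
  have h7 : ((q : ℝ) / 2) ^ u * (|(x : ℝ)| + |(k : ℝ)|) ≤
      ((q : ℝ) / 2) ^ (u + s) * (|(x : ℝ)| + |(k : ℝ)|) :=
    mul_le_mul_of_nonneg_right (pow_le_pow_right₀ (by linarith) (by omega)) (by linarith)
  have h8 : (2 : ℝ) ^ (v - (u + s)) ≤ 2 * (((q : ℝ) / 2) ^ (u + s) * (|(x : ℝ)| + |(k : ℝ)|)) := by
    linarith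
  have h9 := Real.log_le_log (by positivity) h8
  rw [Real.log_pow, Real.log_mul (by norm_num) (by positivity),
    Real.log_mul (by positivity) (by positivity), Real.log_pow, Nat.cast_sub husv.le,
    Real.log_div (by positivity) (by norm_num)] at h9
  push_cast at h9
  have h11 : Real.log (|(x : ℝ)| + |(k : ℝ)|) ≤ hgt k x :=
    Real.log_le_log (by positivity) (by linarith)
  have h12 := one_le_hgt hk x
  have huR : (N₀ : ℝ) ≤ u := by exact_mod_cast hu
  have hsR : (1 : ℝ) ≤ s := by exact_mod_cast hs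
  have h13 : (Real.log q / Real.log 2 + 1) * ((u : ℝ) + s) * Real.log 2 < v * Real.log 2 :=
    mul_lt_mul_of_pos_right huv (by linarith)
  have h14 : (Real.log q / Real.log 2 + 1) * ((u : ℝ) + s) * Real.log 2 =
      ((u : ℝ) + s) * Real.log q + ((u : ℝ) + s) * Real.log 2 := by
    field_simp
  rw [h14] at h13
  -- `(u + s) log 2 < log 2 + log (|x| + |k|)`
  have h15 : ((u : ℝ) + s) * Real.log 2 < Real.log 2 + hgt k x := by nlinarith
  have h16 : (2 * hgt k x + 1) * Real.log 2 ≤ ((u : ℝ) + s) * Real.log 2 :=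
    mul_le_mul_of_nonneg_right (by linarith) (by linarith)
  nlinarith

/-- number of words of length `N` accepted -/
noncomputable def nac {α σ : Type} (M : NFA α σ) (N : ℕ) : ℕ :=
  {w : List α | w ∈ M.accepts ∧ w.length = N}.ncard

lemma nac_ge {α σ : Type} [Finite α] (M : NFA α σ) (N : ℕ) (W : Finset (List α))
    (hW : ∀ w ∈ W, w.length = N ∧ w ∈ M.accepts) : W.card ≤ nac M N := by
  have hfin : {w : List α | w ∈ M.accepts ∧ w.length = N}.Finite :=
    (List.finite_length_eq α N).subset fun w hw => hw.2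
  have : ((W : Set (List α))).ncard ≤ {w : List α | w ∈ M.accepts ∧ w.length = N}.ncard :=
    Set.ncard_le_ncard (fun w hw => ⟨(hW w hw).2, (hW w hw).1⟩) hfin
  rwa [Set.ncard_coe_finset] at this

lemma nac_le_one {α σ : Type} [Finite α] (M : NFA α σ) (N : ℕ) (w0 : List α)
    (h : ∀ w ∈ M.accepts, w.length = N → w = w0) : nac M N ≤ 1 := by
  unfold nac
  rw [Set.ncard_le_one_iff ((List.finite_length_eq α N).subset fun w hw => hw.2)]
  intro u v hu hv
  rw [h u hu.1 hu.2, h v hv.1 hv.2]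

lemma one_le_nac {α σ : Type} [Finite α] (M : NFA α σ) (N : ℕ) (w : ℕ → α)
    (h : (List.range N).map w ∈ M.accepts) : 1 ≤ nac M N := by
  classical
  have := nac_ge M N {(List.range N).map w} (fun v hv => by
    rw [Finset.mem_singleton] at hv
    subst hv
    exact ⟨by simp, h⟩)
  simpa using this

lemma card_pos' {α σ : Type} [Fintype σ] {M : NFA α σ} {w : List α} (hacc : w ∈ M.accepts) :
    1 ≤ Fintype.card σ := by
  rw [NFA.accepts_iff_exists_path] at hacc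
  obtain ⟨s, -⟩ := hacc
  exact Fintype.card_pos_iff.2 ⟨s⟩

/-- the places where `w` differs from the (rotated) parity word of `y` -/
def errs (q k y : ℤ) (c N : ℕ) (w : ℕ → ZMod 2) : Finset ℕ :=
  (range N).filter fun i => w i ≠ par q k y ((i + c) % N)

/-- the parametric form -/
theorem core {q : ℤ} (hq : q % 2 = 1) (hq3 : 3 ≤ q) : ∃ C : ℝ, 4 ≤ C ∧
    ∀ k : ℤ, k % 2 = 1 → ∀ (y : ℤ) (c N : ℕ), c ≤ N →
    (∀ i j, i < j → j < N → (T q k)^[i] y ≠ (T q k)^[j] y) →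
    ∀ (σ : Type) [Fintype σ] (M : NFA (ZMod 2) σ) (w : ℕ → ZMod 2),
      (List.range N).map w ∈ M.accepts → ∀ K : ℕ, 1 ≤ K →
      C ^ (K + (errs q k y c N w).card) * hgt k y ≤ N →
      ((N : ℝ) / (C ^ (K + (errs q k y c N w).card) * (Fintype.card σ : ℝ))) ^ K ≤
        N * (nac M N : ℝ) := by
  have hq3R : (3 : ℝ) ≤ q := by exact_mod_cast hq3
  have hlq : 0 < Real.log q := Real.log_pos (by linarith)
  have l2 : (0.6931 : ℝ) < Real.log 2 := by have := Real.log_two_gt_d9; linarith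
  obtain ⟨C₀, hC₀, h⟩ := many_cut (ρ := Real.log q / Real.log 2 + 1) (by
    have : 0 < Real.log q / Real.log 2 := by positivity
    linarith)
  refine ⟨3 * C₀, by linarith, ?_⟩
  intro k hk y c N hc hy σ _ M w hacc K hK hN
  obtain ⟨E, hE⟩ : ∃ E, E = errs q k y c N w := ⟨_, rfl⟩
  rw [← hE] at hN ⊢
  have hh := one_le_hgt hk y
  obtain ⟨H, hH⟩ : ∃ H, H = hgt k y := ⟨_, rfl⟩
  rw [← hH] at hN hh
  obtain ⟨N₀, hN₀⟩ : ∃ N₀ : ℕ, N₀ = ⌈2 * H⌉₊ := ⟨_, rfl⟩
  have h1 : 2 * H ≤ N₀ := by rw [hN₀]; exact Nat.le_ceil _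
  have h2 : (N₀ : ℝ) ≤ 3 * H := by
    have : (N₀ : ℝ) < 2 * H + 1 := by rw [hN₀]; exact Nat.ceil_lt_add_one (by positivity)
    linarith
  have h3 : 1 ≤ N₀ := by
    have : (1 : ℝ) ≤ N₀ := by linarith
    exact_mod_cast this
  have hqq := card_pos' hacc
  have hqR : (1 : ℝ) ≤ Fintype.card σ := by exact_mod_cast hqq
  have h4 : C₀ ^ (K + E.card) * 3 ≤ (3 * C₀) ^ (K + E.card) := by
    rw [mul_pow, mul_comm]
    refine mul_le_mul_of_nonneg_right ?_ (by positivity)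
    calc (3 : ℝ) = 3 ^ 1 := (pow_one _).symm
      _ ≤ _ := pow_le_pow_right₀ (by norm_num) (by omega)
  have h5 : C₀ ^ (K + E.card) * N₀ ≤ N := by
    have a1 : C₀ ^ (K + E.card) * N₀ ≤ C₀ ^ (K + E.card) * (3 * H) :=
      mul_le_mul_of_nonneg_left h2 (by positivity)
    have a2 : C₀ ^ (K + E.card) * 3 * H ≤ (3 * C₀) ^ (K + E.card) * H :=
      mul_le_mul_of_nonneg_right h4 (by linarith)
    linarith
  obtain ⟨W, hW1, hW2⟩ := h (ZMod 2) σ (par q k y) N₀ N h3
    (noPer hq hq3 hk hy (by rw [← hH]; exact h1)) w M c hc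
    (by simpa [seg, List.range_eq_range'] using hacc) E (by
      intro i hi hn
      by_contra hne
      exact hn (by rw [hE]; exact mem_filter.2 ⟨mem_range.2 hi, hne⟩)) K hK h5
  have h6 : (W.card : ℝ) ≤ nac M N := by exact_mod_cast nac_ge M N W hW1
  have h7 : (N : ℝ) / ((3 * C₀) ^ (K + E.card) * (Fintype.card σ : ℝ)) ≤
      (N : ℝ) / (C₀ ^ (K + E.card) * (Fintype.card σ : ℝ)) := by
    apply div_le_div_of_nonneg_left (Nat.cast_nonneg _) (by positivity)
    apply mul_le_mul_of_nonneg_right _ (by linarith)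
    exact pow_le_pow_left₀ (by linarith) (by linarith) _
  calc _ ≤ ((N : ℝ) / (C₀ ^ (K + E.card) * (Fintype.card σ : ℝ))) ^ K :=
        pow_le_pow_left₀ (by positivity) h7 _
    _ ≤ N * W.card := hW2
    _ ≤ _ := mul_le_mul_of_nonneg_left h6 (Nat.cast_nonneg _)

/-- number of states, general form -/
theorem states {q : ℤ} (hq : q % 2 = 1) (hq3 : 3 ≤ q) : ∃ C : ℝ, 0 < C ∧
    ∀ k : ℤ, k % 2 = 1 → ∀ (y : ℤ) (c N : ℕ), c ≤ N →
    (∀ i j, i < j → j < N → (T q k)^[i] y ≠ (T q k)^[j] y) →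
    ∀ (σ : Type) [Fintype σ] (M : NFA (ZMod 2) σ) (w : ℕ → ZMod 2),
      (∀ i, i < N → w i = par q k y ((i + c) % N)) →
      (List.range N).map w ∈ M.accepts →
      (∀ v ∈ M.accepts, v.length = N → v = (List.range N).map w) →
      (N : ℝ) / hgt k y * Real.exp (-(C * Real.sqrt (Real.log N))) ≤ Fintype.card σ := by
  obtain ⟨C, hC, h⟩ := core hq hq3
  have hlC : 0 < Real.log C := Real.log_pos (by linarith)
  refine ⟨1 + 2 * Real.log C, by positivity, ?_⟩
  intro k hk y c N hc hy σ _ M w hw hacc huniq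
  have he : (errs q k y c N w).card = 0 := by
    rw [card_eq_zero]
    unfold errs
    rw [filter_eq_empty_iff]
    intro i hi
    rw [mem_range] at hi
    exact not_not.2 (hw i hi)
  refine num_states2 hC (one_le_hgt hk y) (card_pos' hacc) (fun K hK hKN => ?_)
  have h1 := h k hk y c N hc hy σ M w hacc K hK (by rw [he, Nat.add_zero]; exact hKN)
  rw [he, Nat.add_zero] at h1
  have h2 : (nac M N : ℝ) ≤ 1 := by exact_mod_cast nac_le_one M N _ huniq
  refine h1.trans ?_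
  have : (0 : ℝ) ≤ N := Nat.cast_nonneg _
  nlinarith

/-- many words, general form -/
theorem words {q : ℤ} (hq : q % 2 = 1) (hq3 : 3 ≤ q) (δ : ℝ) (hδ : 0 < δ) (hδ1 : δ ≤ 1) :
    ∃ c₀ : ℝ, 0 < c₀ ∧ ∃ N₁ : ℕ, ∀ k : ℤ, k % 2 = 1 →
    ∀ (y : ℤ) (c N : ℕ), c ≤ N → N₁ ≤ N →
    (∀ i j, i < j → j < N → (T q k)^[i] y ≠ (T q k)^[j] y) → hgt k y ≤ (N : ℝ) ^ (1 / 2 : ℝ) →
    ∀ (σ : Type) [Fintype σ] (M : NFA (ZMod 2) σ), (Fintype.card σ : ℝ) ≤ (N : ℝ) ^ (1 - δ) →
    ∀ w : ℕ → ZMod 2, ((errs q k y c N w).card : ℝ) ≤ c₀ * Real.log N →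
      (List.range N).map w ∈ M.accepts → Real.exp (c₀ * Real.log N ^ 2) ≤ nac M N := by
  obtain ⟨C, hC, h⟩ := core hq hq3
  obtain ⟨c₀, hc₀, N₁, hnum⟩ := num_words2 hC hδ hδ1
  refine ⟨c₀, hc₀, N₁, ?_⟩
  intro k hk y c N hc hN hy hyN σ _ M hqN w hke hacc
  exact hnum N (Fintype.card σ) _ hN (card_pos' hacc) hqN hke (nac M N) _
    (by exact_mod_cast one_le_nac M N w hacc) (one_le_hgt hk y) hyN
    (fun K hK hKN => h k hk y c N hc hy σ M w hacc K hK hKN)

/-- a cycle contains a small element -/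
lemma small_elt {q : ℕ} (hq : q.Prime) (hq2 : q ≠ 2) : ∃ B : ℝ, 1 ≤ B ∧ ∀ k : ℤ, k % 2 = 1 →
    ∀ (x : ℤ) (N : ℕ), 1 ≤ N → Function.minimalPeriod (T q k) x = N →
    ∃ j, j < N ∧ hgt k ((T q k)^[j] x) ≤
      2 * Real.log (|(k : ℝ)| + 2) + B * (1 + Real.log N) ^ 2 := by
  obtain ⟨B, hB, hmin⟩ := Pool.Agent.H547R3.Sub.cycle_min hq hq2
  refine ⟨B + 3, by linarith, fun k hk x N hN hx => ?_⟩
  have hper : (T q k)^[N] x = x := by
    rw [← hx]; exact Function.iterate_minimalPeriod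
  have hNR : (1 : ℝ) ≤ N := by exact_mod_cast hN
  have hL : 0 ≤ Real.log N := Real.log_nonneg hNR
  have hk1 := abs_k hk
  obtain ⟨i0, hi0, hi0min⟩ := Finset.exists_min_image (range N) (fun i => |(T q k)^[i] x|)
    ⟨0, Finset.mem_range.2 (by omega)⟩
  rw [Finset.mem_range] at hi0
  obtain ⟨y, hy⟩ : ∃ y, y = (T q k)^[i0] x := ⟨_, rfl⟩
  have hyper : (T q k)^[N] y = y := by
    rw [hy, ← Function.iterate_add_apply, add_comm, Function.iterate_add_apply, hper]
  have hymin : ∀ i, |y| ≤ |(T q k)^[i] y| := by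
    intro i
    rw [hy, ← Function.iterate_add_apply]
    have e : (T q k)^[i + i0] x = (T q k)^[(i + i0) % N] x := by
      have h9 := Function.iterate_mod_minimalPeriod_eq (f := T q k) (x := x) (n := i + i0)
      rw [hx] at h9
      exact h9.symm
    rw [e]
    exact hi0min _ (Finset.mem_range.2 (Nat.mod_lt _ (by omega)))
  refine ⟨i0, hi0, ?_⟩
  rw [← hy]
  have hlk : 1 ≤ Real.log (|(k : ℝ)| + 2) := by
    have e1 : Real.log (Real.exp 1) ≤ Real.log (|(k : ℝ)| + 2) := by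
      apply Real.log_le_log (Real.exp_pos _)
      have := Real.exp_one_lt_d9
      linarith
    rwa [Real.log_exp] at e1
  have hBp : 0 ≤ B * (1 + Real.log N) ^ 2 := by positivity
  have hE : 1 ≤ Real.exp (B * (1 + Real.log N) ^ 2) := Real.one_le_exp hBp
  have key : |(y : ℝ)| ≤ N * |(k : ℝ)| * Real.exp (B * (1 + Real.log N) ^ 2) := by
    have h3 : |(k : ℝ)| ≤ N * |(k : ℝ)| := le_mul_of_one_le_left (by linarith) hNR
    have h4 : N * |(k : ℝ)| ≤ N * |(k : ℝ)| * Real.exp (B * (1 + Real.log N) ^ 2) :=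
      le_mul_of_one_le_right (by positivity) hE
    rcases lt_or_ge |y| |k| with h | h
    · have h1 : |(y : ℝ)| ≤ |(k : ℝ)| := by exact_mod_cast h.le
      linarith
    · have hy0 : y ≠ 0 := by
        intro h0
        rw [h0, abs_zero] at h
        have : |k| = 0 := le_antisymm h (abs_nonneg _)
        have h1 : k = 0 := abs_eq_zero.1 this
        rw [h1] at hk; simp at hk
      exact hmin k hk y N hN hyper hy0 hymin h
  unfold hgt
  have h5 : |(y : ℝ)| + |(k : ℝ)| + 2 ≤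
      3 * N * (|(k : ℝ)| + 2) * Real.exp (B * (1 + Real.log N) ^ 2) := by
    obtain ⟨X, hX⟩ : ∃ X, X = Real.exp (B * (1 + Real.log N) ^ 2) := ⟨_, rfl⟩
    rw [← hX] at key hE ⊢
    have h6 : (|(k : ℝ)| + 2) ≤ N * (|(k : ℝ)| + 2) := le_mul_of_one_le_left (by linarith) hNR
    have h7 : N * (|(k : ℝ)| + 2) ≤ N * (|(k : ℝ)| + 2) * X :=
      le_mul_of_one_le_right (by positivity) hE
    have h8 : N * |(k : ℝ)| * X ≤ N * (|(k : ℝ)| + 2) * X := by
      apply mul_le_mul_of_nonneg_right _ (by linarith)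
      apply mul_le_mul_of_nonneg_left _ (by linarith)
      linarith
    linarith
  have h6 := Real.log_le_log (by positivity) h5
  rw [Real.log_mul (by positivity) (by positivity), Real.log_mul (by positivity) (by positivity),
    Real.log_mul (by norm_num) (by positivity), Real.log_exp] at h6
  have hl3 : Real.log 3 ≤ 2 := by
    have : Real.log 3 ≤ 3 - 1 := Real.log_le_sub_one_of_pos (by norm_num)
    linarith
  nlinarith

/-- the parity word of a cycle is a rotation of the parity word of its small element -/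
lemma cycle_data {q : ℕ} (hq : q.Prime) (hq2 : q ≠ 2) : ∃ B : ℝ, 1 ≤ B ∧ ∀ k : ℤ, k % 2 = 1 →
    ∀ (x : ℤ) (N : ℕ), 1 ≤ N → Function.minimalPeriod (T q k) x = N →
    ∃ (y : ℤ) (c : ℕ), c ≤ N ∧ (∀ i j, i < j → j < N → (T q k)^[i] y ≠ (T q k)^[j] y) ∧
      hgt k y ≤ 2 * Real.log (|(k : ℝ)| + 2) + B * (1 + Real.log N) ^ 2 ∧
      ∀ i, par q k x i = par q k y ((i + c) % N) := by
  obtain ⟨B, hB, h⟩ := small_elt hq hq2
  refine ⟨B, hB, fun k hk x N hN hx => ?_⟩
  obtain ⟨j, hj, hlog⟩ := h k hk x N hN hx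
  have hper : x ∈ Function.periodicPts (T q k) := by
    apply Function.minimalPeriod_pos_iff_mem_periodicPts.1
    omega
  have hy : Function.minimalPeriod (T q k) ((T q k)^[j] x) = N := by
    rw [Function.minimalPeriod_apply_iterate hper, hx]
  refine ⟨(T q k)^[j] x, N - j, by omega, ?_, hlog, ?_⟩
  · intro i l hil hl he
    have := Function.iterate_injOn_Iio_minimalPeriod (f := T q k) (x := (T q k)^[j] x)
      (show i ∈ Set.Iio _ by rw [hy]; exact lt_trans hil hl)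
      (show l ∈ Set.Iio _ by rw [hy]; exact hl) he
    omega
  · intro i
    unfold par
    congr 1
    have e1 : (T q k)^[(i + (N - j)) % N] ((T q k)^[j] x) =
        (T q k)^[i + (N - j)] ((T q k)^[j] x) := by
      have := Function.iterate_mod_minimalPeriod_eq (f := T q k) (x := (T q k)^[j] x)
        (n := i + (N - j))
      rwa [hy] at this
    rw [e1, ← Function.iterate_add_apply]
    have e2 : i + (N - j) + j = i + N := by omega
    rw [e2, Function.iterate_add_apply]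
    have : (T q k)^[N] x = x := by rw [← hx]; exact Function.iterate_minimalPeriod
    rw [this]

/-- **Cycles, number of states.** -/
theorem cycle_states {q : ℕ} (hq : q.Prime) (hq2 : q ≠ 2) : ∃ C : ℝ, 0 < C ∧
    ∀ k : ℤ, k % 2 = 1 → ∀ (x : ℤ) (N : ℕ), 1 ≤ N → Function.minimalPeriod (T q k) x = N →
    ∀ (σ : Type) [Fintype σ] (M : NFA (ZMod 2) σ),
      (List.range N).map (par q k x) ∈ M.accepts →
      (∀ v ∈ M.accepts, v.length = N → v = (List.range N).map (par q k x)) →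
      (N : ℝ) / Real.log (|(k : ℝ)| + 2) * Real.exp (-(C * Real.sqrt (Real.log N))) ≤
        Fintype.card σ := by
  have hq1 : (q : ℤ) % 2 = 1 := by
    rcases hq.eq_two_or_odd with h | h
    · exact absurd h hq2
    · omega
  have hq3 : (3 : ℤ) ≤ q := by
    have := hq.two_le
    omega
  obtain ⟨C, hC, h⟩ := states hq1 hq3
  obtain ⟨B, hB, hd⟩ := cycle_data hq hq2
  refine ⟨C + ((B + 2) * 2 + 4), by linarith, fun k hk x N hN hx σ _ M hacc huniq => ?_⟩
  obtain ⟨y, c, hc, hy, hlog, hpar⟩ := hd k hk x N hN hx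
  have h1 := h k hk y c N hc hy σ M (par q k x) (fun i _ => hpar i) hacc huniq
  have hcard : (1 : ℝ) ≤ Fintype.card σ := by exact_mod_cast card_pos' hacc
  have hh := one_le_hgt hk y
  have hk1 := abs_k hk
  have hlk : 1 ≤ Real.log (|(k : ℝ)| + 2) := by
    have e1 : Real.log (Real.exp 1) ≤ Real.log (|(k : ℝ)| + 2) := by
      apply Real.log_le_log (Real.exp_pos _)
      have := Real.exp_one_lt_d9
      linarith
    rwa [Real.log_exp] at e1
  rcases Nat.lt_or_ge N 2 with hN2 | hN2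
  · have : N = 1 := by omega
    subst this
    simp only [Nat.cast_one, Real.log_one, Real.sqrt_zero, mul_zero, neg_zero, Real.exp_zero,
      mul_one]
    rw [div_le_iff₀ (by linarith)]
    nlinarith
  · have hNR : (2 : ℝ) ≤ N := by exact_mod_cast hN2
    obtain ⟨L, hL⟩ : ∃ L, L = Real.log N := ⟨_, rfl⟩
    have hL2 : 0.69 ≤ L := by
      rw [hL]
      have h2 : Real.log 2 ≤ Real.log N := Real.log_le_log (by norm_num) hNR
      have h3 := Real.log_two_gt_d9
      linarith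
    rw [← hL] at h1 hlog ⊢
    obtain ⟨t, ht⟩ : ∃ t, t = Real.sqrt L := ⟨_, rfl⟩
    have ht2 : t * t = L := by rw [ht]; exact Real.mul_self_sqrt (by linarith)
    have ht0 : 0 ≤ t := by rw [ht]; exact Real.sqrt_nonneg _
    have ht8 : 0.8 ≤ t := by
      by_contra hcon
      push Not at hcon
      nlinarith
    rw [← ht] at h1 ⊢
    have h4 : (1 + L) ≤ Real.exp (2 * t) := by
      have h5 := Real.add_one_le_exp t
      have h6 : Real.exp (2 * t) = Real.exp t * Real.exp t := by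
        rw [← Real.exp_add]; ring_nf
      rw [h6]
      nlinarith
    have h7 : B + 2 ≤ Real.exp ((B + 2) * t * 2) := by
      have h8 := Real.add_one_le_exp ((B + 2) * t * 2)
      nlinarith
    have h9 : (1 + L) ^ 2 ≤ Real.exp (4 * t) := by
      have h6 : Real.exp (4 * t) = Real.exp (2 * t) ^ 2 := by
        rw [← Real.exp_nat_mul]; ring_nf
      rw [h6]
      exact pow_le_pow_left₀ (by linarith) h4 2
    obtain ⟨ℓ, hℓ⟩ : ∃ ℓ, ℓ = Real.log (|(k : ℝ)| + 2) := ⟨_, rfl⟩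
    rw [← hℓ] at hlk hlog ⊢
    have h10 : hgt k y ≤ ℓ * ((B + 2) * (1 + L) ^ 2) := by
      refine hlog.trans ?_
      have h11 : 1 ≤ (1 + L) ^ 2 := by nlinarith
      have h12 : (2 : ℝ) ≤ 2 * (1 + L) ^ 2 := by linarith
      have h13 : ℓ * 2 ≤ ℓ * (2 * (1 + L) ^ 2) := mul_le_mul_of_nonneg_left h12 (by linarith)
      have h14 : B * (1 + L) ^ 2 ≤ ℓ * (B * (1 + L) ^ 2) :=
        le_mul_of_one_le_left (by positivity) hlk
      nlinarith
    have h11 : (B + 2) * (1 + L) ^ 2 ≤ Real.exp (((B + 2) * 2 + 4) * t) := by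
      have e1 : Real.exp (((B + 2) * 2 + 4) * t) = Real.exp ((B + 2) * t * 2) * Real.exp (4 * t) := by
        rw [← Real.exp_add]
        ring_nf
      rw [e1]
      exact mul_le_mul h7 h9 (by positivity) (by positivity)
    obtain ⟨D, hD⟩ : ∃ D, D = (B + 2) * 2 + 4 := ⟨_, rfl⟩
    rw [← hD] at h11 ⊢
    have h12 : hgt k y ≤ ℓ * Real.exp (D * t) :=
      h10.trans (mul_le_mul_of_nonneg_left h11 (by linarith))
    have h13 : (N : ℝ) / ℓ * Real.exp (-((C + D) * t)) =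
        (N : ℝ) / (ℓ * Real.exp (D * t)) * Real.exp (-(C * t)) := by
      have e1 : Real.exp (-((C + D) * t)) = Real.exp (-(C * t)) / Real.exp (D * t) := by
        rw [← Real.exp_sub]
        ring_nf
      rw [e1]
      have : Real.exp (D * t) ≠ 0 := (Real.exp_pos _).ne'
      field_simp
    rw [h13]
    refine le_trans ?_ h1
    apply mul_le_mul_of_nonneg_right _ (Real.exp_pos _).le
    exact div_le_div_of_nonneg_left (by linarith) (by linarith) h12

/-- **Cycles, many words.** -/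
theorem cycle_words {q : ℕ} (hq : q.Prime) (hq2 : q ≠ 2) (δ : ℝ) (hδ : 0 < δ) (hδ1 : δ ≤ 1) :
    ∃ c : ℝ, 0 < c ∧ ∃ N₁ : ℕ, ∀ k : ℤ, k % 2 = 1 → ∀ (x : ℤ) (N : ℕ), N₁ ≤ N →
    Real.log (|(k : ℝ)| + 2) ≤ (N : ℝ) ^ (1 / 3 : ℝ) →
    Function.minimalPeriod (T q k) x = N →
    ∀ (σ : Type) [Fintype σ] (M : NFA (ZMod 2) σ), (Fintype.card σ : ℝ) ≤ (N : ℝ) ^ (1 - δ) →
    ∀ w : ℕ → ZMod 2, (((range N).filter fun i => w i ≠ par q k x i).card : ℝ) ≤ c * Real.log N →
      (List.range N).map w ∈ M.accepts → Real.exp (c * Real.log N ^ 2) ≤ nac M N := by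
  have hq1 : (q : ℤ) % 2 = 1 := by
    rcases hq.eq_two_or_odd with h | h
    · exact absurd h hq2
    · omega
  have hq3 : (3 : ℤ) ≤ q := by
    have := hq.two_le
    omega
  obtain ⟨c₀, hc₀, N₁, h⟩ := words hq1 hq3 δ hδ hδ1
  obtain ⟨B, hB, hd⟩ := cycle_data hq hq2
  -- `2 N ^ (1/3) + B (1 + log N) ^ 2 ≤ N ^ (1/2)` for large `N`
  have hev : ∀ᶠ x : ℝ in Filter.atTop,
      2 * x ^ (1 / 3 : ℝ) + B * (1 + Real.log x) ^ 2 ≤ x ^ (1 / 2 : ℝ) := by
    have h1 : (fun x : ℝ => 1 + Real.log x) =o[Filter.atTop] fun x : ℝ => x ^ (1 / 6 : ℝ) := by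
      refine Asymptotics.IsLittleO.add ?_ (isLittleO_log_rpow_atTop (by norm_num))
      refine Asymptotics.isLittleO_const_left.2 (Or.inr ?_)
      exact Filter.Tendsto.comp tendsto_norm_atTop_atTop (tendsto_rpow_atTop (by norm_num))
    have h2 := h1.bound (show (0 : ℝ) < 1 by norm_num)
    have h3 : ∀ᶠ x : ℝ in Filter.atTop, 2 + B ≤ x ^ (1 / 6 : ℝ) :=
      (tendsto_rpow_atTop (by norm_num)).eventually_ge_atTop _
    filter_upwards [h2, h3, Filter.eventually_ge_atTop (1 : ℝ)] with x hx hx3 hx1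
    have hx0 : 0 < x := by linarith
    have hl : 0 ≤ Real.log x := Real.log_nonneg hx1
    rw [Real.norm_of_nonneg (by linarith), Real.norm_of_nonneg (by positivity), one_mul] at hx
    have h4 : (1 + Real.log x) ^ 2 ≤ x ^ (1 / 3 : ℝ) := by
      have h5 : (1 + Real.log x) ^ 2 ≤ (x ^ (1 / 6 : ℝ)) ^ 2 :=
        pow_le_pow_left₀ (by linarith) hx 2
      refine h5.trans (le_of_eq ?_)
      rw [← Real.rpow_natCast, ← Real.rpow_mul hx0.le]
      norm_num
    have h6 : x ^ (1 / 2 : ℝ) = x ^ (1 / 3 : ℝ) * x ^ (1 / 6 : ℝ) := by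
      rw [← Real.rpow_add hx0]
      norm_num
    rw [h6]
    have h7 : 0 < x ^ (1 / 3 : ℝ) := by positivity
    have h8 : B * (1 + Real.log x) ^ 2 ≤ B * x ^ (1 / 3 : ℝ) :=
      mul_le_mul_of_nonneg_left h4 (by linarith)
    nlinarith
  obtain ⟨X, hX⟩ := Filter.eventually_atTop.1 hev
  refine ⟨c₀, hc₀, max (max N₁ 1) ⌈X⌉₊, fun k hk x N hN hkN hx σ _ M hqN w hke hacc => ?_⟩
  have hN1 : 1 ≤ N := le_trans (le_max_right _ _) (le_trans (le_max_left _ _) hN)
  have hNN : N₁ ≤ N := le_trans (le_max_left _ _) (le_trans (le_max_left _ _) hN)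
  have hNX : X ≤ N := Nat.ceil_le.1 (le_trans (le_max_right _ _) hN)
  obtain ⟨y, c', hc', hy, hlog, hpar⟩ := hd k hk x N hN1 hx
  refine h k hk y c' N hc' hNN hy ?_ σ M hqN w ?_ hacc
  · refine hlog.trans (le_trans ?_ (hX N hNX))
    linarith
  · refine le_trans (le_of_eq ?_) hke
    congr 2
    unfold errs
    apply Finset.filter_congr
    intro i hi
    rw [← hpar i]

/-- **Trajectories without repetition, number of states.** -/
theorem orbit_states {q : ℤ} (hq : q % 2 = 1) (hq3 : 3 ≤ q) : ∃ C : ℝ, 0 < C ∧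
    ∀ k : ℤ, k % 2 = 1 → ∀ (x : ℤ) (N : ℕ),
    (∀ i j, i < j → j < N → (T q k)^[i] x ≠ (T q k)^[j] x) →
    ∀ (σ : Type) [Fintype σ] (M : NFA (ZMod 2) σ),
      (List.range N).map (par q k x) ∈ M.accepts →
      (∀ v ∈ M.accepts, v.length = N → v = (List.range N).map (par q k x)) →
      (N : ℝ) / Real.log (|(x : ℝ)| + |(k : ℝ)| + 2) *
        Real.exp (-(C * Real.sqrt (Real.log N))) ≤ Fintype.card σ := by
  obtain ⟨C, hC, h⟩ := states hq hq3
  refine ⟨C, hC, fun k hk x N hx σ _ M hacc huniq => ?_⟩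
  refine h k hk x 0 N (Nat.zero_le _) hx σ M (par q k x) (fun i hi => ?_) hacc huniq
  rw [Nat.add_zero, Nat.mod_eq_of_lt hi]

/-- **Trajectories without repetition, many words.** -/
theorem orbit_words {q : ℤ} (hq : q % 2 = 1) (hq3 : 3 ≤ q) (δ : ℝ) (hδ : 0 < δ) (hδ1 : δ ≤ 1) :
    ∃ c : ℝ, 0 < c ∧ ∃ N₁ : ℕ, ∀ k : ℤ, k % 2 = 1 → ∀ (x : ℤ) (N : ℕ), N₁ ≤ N →
    (∀ i j, i < j → j < N → (T q k)^[i] x ≠ (T q k)^[j] x) →
    Real.log (|(x : ℝ)| + |(k : ℝ)| + 2) ≤ (N : ℝ) ^ (1 / 2 : ℝ) →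
    ∀ (σ : Type) [Fintype σ] (M : NFA (ZMod 2) σ), (Fintype.card σ : ℝ) ≤ (N : ℝ) ^ (1 - δ) →
    ∀ w : ℕ → ZMod 2, (((range N).filter fun i => w i ≠ par q k x i).card : ℝ) ≤ c * Real.log N →
      (List.range N).map w ∈ M.accepts → Real.exp (c * Real.log N ^ 2) ≤ nac M N := by
  obtain ⟨c₀, hc₀, N₁, h⟩ := words hq hq3 δ hδ hδ1
  refine ⟨c₀, hc₀, N₁, fun k hk x N hN hx hxN σ _ M hqN w hke hacc => ?_⟩
  refine h k hk x 0 N (Nat.zero_le _) hN hx hxN σ M hqN w ?_ hacc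
  refine le_trans (le_of_eq ?_) hke
  congr 2
  unfold errs
  apply Finset.filter_congr
  intro i hi
  rw [Nat.add_zero, Nat.mod_eq_of_lt (mem_range.1 hi)]

end Pool.Agent.X3.NfaTqk
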