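import Mathlib

/-!
Counting sets of given size which separate given pairs and contain given points.
-/

set_option autoImplicit false

namespace Pool.Agent.X3.CC

open Finset

variable {C : Type} [Fintype C] [DecidableEq C]

/-- `S` separates any two related points and contains the points of `U0` -/
def Good (R0 : C → C → Prop) (Uns : C → Prop) (S : Finset C) : Prop :=
  (∀ x, Uns x → x ∈ S) ∧ ∀ x y, x ≠ y → R0 x y → ¬ (x ∈ S ↔ y ∈ S)

omit [Fintype C] in
theorem half (R0 : C → C → Prop) (hsymm : ∀ x y, R0 x y → R0 y x)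
    (htrans : ∀ x y z, R0 x y → R0 y z → R0 x z) (Uns : C → Prop) (S : Finset C)
    (hS : Good R0 Uns S) (U : Finset C) (hU : ∀ x, x ∈ U ↔ ∃ y, y ≠ x ∧ R0 x y) :
    (U ∩ S).card = (U \ S).card := by
  classical
  have hf : ∀ x : C, ∃ y : C, x ∈ U → y ≠ x ∧ R0 x y := by
    intro x
    by_cases hx : x ∈ U
    · obtain ⟨y, hy⟩ := (hU x).1 hx
      exact ⟨y, fun _ => hy⟩
    · exact ⟨x, fun h => absurd h hx⟩
  choose f hf using hf
  have hfU : ∀ x ∈ U, f x ∈ U := fun x hx =>
    (hU _).2 ⟨x, (hf x hx).1.symm, hsymm _ _ (hf x hx).2⟩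
  have hsep : ∀ x ∈ U, ¬ (x ∈ S ↔ f x ∈ S) := fun x hx =>
    hS.2 x (f x) (hf x hx).1.symm (hf x hx).2
  apply le_antisymm
  · refine Finset.card_le_card_of_injOn f (fun x hx => ?_) (fun x hx y hy hxy => ?_)
    · have h1 := Finset.mem_inter.1 (Finset.mem_coe.1 hx)
      have h2 := hsep x h1.1
      exact Finset.mem_coe.2 (Finset.mem_sdiff.2 ⟨hfU x h1.1, fun h => h2 ⟨fun _ => h, fun _ => h1.2⟩⟩)
    · have h1 := Finset.mem_inter.1 (Finset.mem_coe.1 hx)
      have h2 := Finset.mem_inter.1 (Finset.mem_coe.1 hy)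
      by_contra hne
      have h3 : R0 x y := htrans x (f x) y (hf x h1.1).2 (by rw [hxy]; exact hsymm _ _ (hf y h2.1).2)
      exact hS.2 x y hne h3 ⟨fun _ => h2.2, fun _ => h1.2⟩
  · refine Finset.card_le_card_of_injOn f (fun x hx => ?_) (fun x hx y hy hxy => ?_)
    · have h1 := Finset.mem_sdiff.1 (Finset.mem_coe.1 hx)
      have h2 := hsep x h1.1
      refine Finset.mem_coe.2 (Finset.mem_inter.2 ⟨hfU x h1.1, ?_⟩)
      by_contra h
      exact h2 ⟨fun h' => absurd h' h1.2, fun h' => absurd h' h⟩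
    · have h1 := Finset.mem_sdiff.1 (Finset.mem_coe.1 hx)
      have h2 := Finset.mem_sdiff.1 (Finset.mem_coe.1 hy)
      by_contra hne
      have h3 : R0 x y := htrans x (f x) y (hf x h1.1).2 (by rw [hxy]; exact hsymm _ _ (hf y h2.1).2)
      exact hS.2 x y hne h3 ⟨fun h => absurd h h1.2, fun h => absurd h h2.2⟩

theorem count (R0 : C → C → Prop) (hsymm : ∀ x y, R0 x y → R0 y x)
    (htrans : ∀ x y z, R0 x y → R0 y z → R0 x z) (Uns : C → Prop)
    (hUns : ∀ x y, Uns x → R0 x y → Uns y) [DecidablePred (Good R0 Uns)] (k : ℕ)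
    (hk : 2 * (k + 1) ≤ Fintype.card C) :
    ((univ.powersetCard k).filter (Good R0 Uns)).card * (Fintype.card C).choose (k + 1) ≤
      ((univ.powersetCard (k + 1)).filter (Good R0 Uns)).card * (Fintype.card C).choose k := by
  classical
  set n := Fintype.card C with hn
  set U : Finset C := univ.filter fun x => ∃ y, y ≠ x ∧ R0 x y with hUdef
  have hU : ∀ x, x ∈ U ↔ ∃ y, y ≠ x ∧ R0 x y := fun x => by simp [hUdef]
  set Z : Finset C := univ.filter fun x => Uns x with hZdef
  have hZ : ∀ x, x ∈ Z ↔ Uns x := fun x => by simp [hZdef]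
  set Gk := (univ.powersetCard k).filter (Good R0 Uns) with hGk
  set Gk1 := (univ.powersetCard (k + 1)).filter (Good R0 Uns) with hGk1
  rcases Gk.eq_empty_or_nonempty with he | ⟨S0, hS0⟩
  · rw [he, Finset.card_empty, zero_mul]
    exact Nat.zero_le _
  have hmk : ∀ S, S ∈ Gk ↔ S.card = k ∧ Good R0 Uns S := fun S => by
    simp [hGk, Finset.mem_powersetCard]
  have hmk1 : ∀ S, S ∈ Gk1 ↔ S.card = k + 1 ∧ Good R0 Uns S := fun S => by
    simp [hGk1, Finset.mem_powersetCard]
  have hS0g : Good R0 Uns S0 := ((hmk S0).1 hS0).2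
  have hUZ : Disjoint U Z := by
    rw [Finset.disjoint_left]
    intro x hx hz
    obtain ⟨y, hy1, hy2⟩ := (hU x).1 hx
    have h1 := (hZ x).1 hz
    exact hS0g.2 x y hy1.symm hy2 ⟨fun _ => hS0g.1 y (hUns x y h1 hy2), fun _ => hS0g.1 x h1⟩
  set a := (U ∩ S0).card with ha
  have hUc : ∀ S, Good R0 Uns S → (U ∩ S).card = a ∧ (U \ S).card = a := by
    intro S hS
    have h1 := half R0 hsymm htrans Uns S hS U hU
    have h2 := half R0 hsymm htrans Uns S0 hS0g U hU
    have h3 := Finset.card_inter_add_card_sdiff U S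
    have h4 := Finset.card_inter_add_card_sdiff U S0
    omega
  set fo : Finset C → Finset C := fun S => (univ \ S) \ U with hfo
  set fn : Finset C → Finset C := fun S => (S \ U) \ Z with hfn
  have hfoc : ∀ S, Good R0 Uns S → (fo S).card + a + S.card = n := by
    intro S hS
    have h1 : (univ \ S) ∩ U = U \ S := by
      ext x
      simp only [Finset.mem_inter, Finset.mem_sdiff, Finset.mem_univ, true_and]
      tauto
    have h2 := Finset.card_inter_add_card_sdiff (univ \ S) U
    rw [h1, (hUc S hS).2] at h2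
    have h3 := Finset.card_inter_add_card_sdiff (univ : Finset C) S
    rw [Finset.univ_inter, Finset.card_univ] at h3
    simp only [hfo]
    omega
  have hfnc : ∀ S, Good R0 Uns S → (fn S).card + a + Z.card = S.card := by
    intro S hS
    have h1 : (S \ U) ∩ Z = Z := by
      ext x
      simp only [Finset.mem_inter, Finset.mem_sdiff]
      constructor
      · exact fun h => h.2
      · intro h
        exact ⟨⟨hS.1 x ((hZ x).1 h), fun hu => (Finset.disjoint_left.1 hUZ) hu h⟩, h⟩
    have h2 := Finset.card_inter_add_card_sdiff (S \ U) Z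
    rw [h1] at h2
    have h3 := Finset.card_inter_add_card_sdiff S U
    rw [Finset.inter_comm, (hUc S hS).1] at h3
    simp only [hfn]
    omega
  have hadd : ∀ S x, Good R0 Uns S → x ∉ U → Good R0 Uns (insert x S) := by
    intro S x hS hx
    refine ⟨fun y hy => Finset.mem_insert_of_mem (hS.1 y hy), fun y z hyz hR hiff => ?_⟩
    have hyx : y ≠ x := fun h => hx ((hU x).2 ⟨z, by rw [← h]; exact hyz.symm, by rw [← h]; exact hR⟩)
    have hzx : z ≠ x := fun h => hx ((hU x).2 ⟨y, by rw [← h]; exact hyz, by rw [← h]; exact hsymm _ _ hR⟩)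
    apply hS.2 y z hyz hR
    simpa [hyx, hzx] using hiff
  have hrem : ∀ S x, Good R0 Uns S → x ∉ U → x ∉ Z → Good R0 Uns (S.erase x) := by
    intro S x hS hx hxz
    refine ⟨fun y hy => Finset.mem_erase.2 ⟨fun h => hxz ((hZ x).2 (h ▸ hy)), hS.1 y hy⟩,
      fun y z hyz hR hiff => ?_⟩
    have hyx : y ≠ x := fun h => hx ((hU x).2 ⟨z, by rw [← h]; exact hyz.symm, by rw [← h]; exact hR⟩)
    have hzx : z ≠ x := fun h => hx ((hU x).2 ⟨y, by rw [← h]; exact hyz, by rw [← h]; exact hsymm _ _ hR⟩)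
    apply hS.2 y z hyz hR
    simpa [hyx, hzx] using hiff
  have key : ∑ S ∈ Gk, (fo S).card = ∑ S ∈ Gk1, (fn S).card := by
    rw [← Finset.card_sigma, ← Finset.card_sigma]
    refine Finset.card_nbij' (fun p => ⟨insert p.2 p.1, p.2⟩) (fun p => ⟨p.1.erase p.2, p.2⟩)
      ?_ ?_ ?_ ?_
    · rintro ⟨S, x⟩ hp
      simp only [Finset.mem_coe, Finset.mem_sigma, hmk, hmk1, hfo, hfn, Finset.mem_sdiff,
        Finset.mem_univ, true_and] at hp ⊢
      obtain ⟨⟨h1, h2⟩, h3, h4⟩ := hp
      refine ⟨⟨by rw [Finset.card_insert_of_notMem h3, h1], hadd S x h2 h4⟩,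
        ⟨Finset.mem_insert_self _ _, h4⟩, fun hz => h3 (h2.1 x ((hZ x).1 hz))⟩
    · rintro ⟨S, x⟩ hp
      simp only [Finset.mem_coe, Finset.mem_sigma, hmk, hmk1, hfo, hfn, Finset.mem_sdiff,
        Finset.mem_univ, true_and] at hp ⊢
      obtain ⟨⟨h1, h2⟩, ⟨h3, h4⟩, h5⟩ := hp
      refine ⟨⟨by rw [Finset.card_erase_of_mem h3, h1]; rfl, hrem S x h2 h4 h5⟩,
        Finset.notMem_erase _ _, h4⟩
    · rintro ⟨S, x⟩ hp
      simp only [Finset.mem_coe, Finset.mem_sigma, hmk, hfo, Finset.mem_sdiff,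
        Finset.mem_univ, true_and] at hp
      simp only [Finset.erase_insert hp.2.1]
    · rintro ⟨S, x⟩ hp
      simp only [Finset.mem_coe, Finset.mem_sigma, hmk1, hfn, Finset.mem_sdiff] at hp
      simp only [Finset.insert_erase hp.2.1.1]
  have hE1 : Gk.card * (n - k - a) = Gk1.card * (k + 1 - a - Z.card) := by
    have s1 : ∑ S ∈ Gk, (fo S).card = Gk.card * (n - k - a) :=
      Finset.sum_const_nat fun S hS => by
        have h1 := (hmk S).1 hS
        have h2 := hfoc S h1.2
        omega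
    have s2 : ∑ S ∈ Gk1, (fn S).card = Gk1.card * (k + 1 - a - Z.card) :=
      Finset.sum_const_nat fun S hS => by
        have h1 := (hmk1 S).1 hS
        have h2 := hfnc S h1.2
        omega
    rw [← s1, ← s2]
    exact key
  have hak : a ≤ k := by
    rw [← ((hmk S0).1 hS0).1]
    exact Finset.card_le_card Finset.inter_subset_right
  have hch := Nat.choose_succ_right_eq n k
  obtain ⟨α, hα⟩ : ∃ α, n = k + a + α := ⟨n - k - a, by omega⟩
  obtain ⟨b, hb⟩ : ∃ b, k + 1 = a + b := ⟨k + 1 - a, by omega⟩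
  have hbα : b ≤ α := by omega
  have hα0 : 0 < α := by omega
  have e1 : n - k - a = α := by omega
  have e2 : n - k = a + α := by omega
  set c := k + 1 - a - Z.card with hc
  have hcb : c ≤ b := by omega
  rw [e1] at hE1
  rw [e2] at hch
  have hfin : c * (a + α) ≤ (k + 1) * α := by
    rw [hb]
    nlinarith [Nat.mul_le_mul_left a hbα, Nat.mul_le_mul_right (a + α) hcb]
  have hpos : 0 < (k + 1) * α := Nat.mul_pos (Nat.succ_pos k) hα0
  refine Nat.le_of_mul_le_mul_right ?_ hpos
  calc Gk.card * n.choose (k + 1) * ((k + 1) * α)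
      = (Gk.card * α) * (n.choose (k + 1) * (k + 1)) := by ring
    _ = (Gk1.card * c) * (n.choose k * (a + α)) := by rw [hE1, hch]
    _ = Gk1.card * n.choose k * (c * (a + α)) := by ring
    _ ≤ Gk1.card * n.choose k * ((k + 1) * α) := Nat.mul_le_mul_left _ hfin

end Pool.Agent.X3.CC
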