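import Mathlib

/-!
The model of MP_c9564b_pr.
-/

set_option autoImplicit false

namespace Pool.Agent.X3.CC

open MeasureTheory Finset
open scoped ENNReal

variable {C L : Type} [Fintype C] [DecidableEq C] [DecidableEq L]

/-- after the samples `s 0, …, s (t-1)` the matching `σ` is recovered: every coupon lies in one of
the samples and `σ` is the only consistent bijection -/
def Recovered (σ : C ≃ L) (s : ℕ → Finset C) (t : ℕ) : Prop :=
  (∀ c, ∃ i < t, c ∈ s i) ∧
    ∀ τ : C ≃ L, (∀ i < t, (s i).image τ = (s i).image σ) → τ = σ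

/-- the recovery time -/
noncomputable def recTime (σ : C ≃ L) (s : ℕ → Finset C) : ℝ≥0∞ :=
  ⨅ (t : ℕ) (_ : Recovered σ s t), (t : ℝ≥0∞)

/-- the probability of the sample `S`, if the size has the law `κ` and, given the size, the sample
is uniform -/
noncomputable def wt (κ : ℕ → ℝ≥0∞) (S : Finset C) : ℝ≥0∞ :=
  κ S.card / ((Fintype.card C).choose S.card : ℕ)

/-- `S 0, S 1, …` are independent samples with size law `κ` -/
structure IsSampling {Ω : Type} [MeasurableSpace Ω] (P : Measure Ω) (κ : ℕ → ℝ≥0∞)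
    (S : ℕ → Ω → Finset C) : Prop where
  meas : ∀ t s, MeasurableSet {ω | S t ω = s}
  law : ∀ (t : ℕ) (s : ℕ → Finset C),
    P {ω | ∀ i < t, S i ω = s i} = ∏ i ∈ range t, wt κ (s i)

/-- the size is always `k` -/
noncomputable def sizeOne (k : ℕ) : ℕ → ℝ≥0∞ := fun j => if j = k then 1 else 0

/-- the size is `k₁` with probability `p` and `k₂` with probability `1 - p` -/
noncomputable def sizeTwo (k₁ k₂ : ℕ) (p : ℝ) : ℕ → ℝ≥0∞ := fun j =>
  if j = k₁ then ENNReal.ofReal p else if j = k₂ then ENNReal.ofReal (1 - p) else 0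

end Pool.Agent.X3.CC
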