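import Pool.Agent.X3.CCFin

/-!
Existence of the samples.
-/

set_option autoImplicit false
set_option linter.unusedSectionVars false

namespace Pool.Agent.X3.CC

open MeasureTheory Finset
open scoped ENNReal

variable {C : Type} [Fintype C] [DecidableEq C]

theorem exists_sampling (κ : ℕ → ℝ≥0∞) (hκ : ∑ S : Finset C, wt κ S = 1) :
    ∃ (Ω : Type) (_ : MeasurableSpace Ω) (P : Measure Ω) (S : ℕ → Ω → Finset C),
      IsProbabilityMeasure P ∧ IsSampling P κ S := by
  let _ : MeasurableSpace (Finset C) := ⊤
  have hms : ∀ A : Set (Finset C), MeasurableSet A := fun A => trivial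
  set μ : Measure (Finset C) := ∑ S : Finset C, wt κ S • Measure.dirac S with hμ
  have hμs : ∀ s : Finset C, μ {s} = wt κ s := by
    intro s
    rw [hμ, Measure.finsetSum_apply, Finset.sum_eq_single s]
    · simp [Measure.dirac_apply' s (hms _)]
    · intro b _ hb
      simp [Measure.dirac_apply' b (hms _), hb]
    · intro h
      exact absurd (Finset.mem_univ s) h
  have hμ1 : IsProbabilityMeasure μ := by
    refine ⟨?_⟩
    rw [hμ, Measure.finsetSum_apply, ← hκ]
    refine Finset.sum_congr rfl fun S _ => ?_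
    simp
  have hmeas : ∀ (t : ℕ) (s : Finset C), MeasurableSet {ω : ℕ → Finset C | ω t = s} := by
    intro t s
    have h : Measurable fun ω : ℕ → Finset C => ω t := measurable_pi_apply t
    exact h (hms {s})
  refine ⟨ℕ → Finset C, inferInstance, Measure.infinitePi fun _ => μ, fun t ω => ω t,
    inferInstance, hmeas, fun t s => ?_⟩
  have h1 : {ω : ℕ → Finset C | ∀ i < t, ω i = s i} = Set.pi (range t) fun i => {s i} := by
    ext ω
    simp [Set.mem_pi]
  rw [h1, Measure.infinitePi_pi _ fun i _ => hms _]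
  exact Finset.prod_congr rfl fun i _ => hμs (s i)

theorem wt_one (k : ℕ) (hk : k ≤ Fintype.card C) : ∑ S : Finset C, wt (sizeOne k) S = 1 := by
  have h1 := sum_one (C := C) (fun _ => False) k
  simp only [if_false, mul_one] at h1
  rw [h1]
  unfold bb
  have hc : 0 < (Fintype.card C).choose k := Nat.choose_pos hk
  simp only [not_false_eq_true, Finset.filter_true, Finset.card_powersetCard, Finset.card_univ]
  exact ENNReal.div_self (by exact_mod_cast hc.ne') (ENNReal.natCast_ne_top _)

theorem wt_two (k₁ k₂ : ℕ) (hk : k₁ < k₂) (hn : k₂ ≤ Fintype.card C) (p : ℝ) (hp0 : 0 ≤ p)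
    (hp1 : p ≤ 1) : ∑ S : Finset C, wt (sizeTwo k₁ k₂ p) S = 1 := by
  have h1 := sum_two (C := C) (fun _ => False) k₁ k₂ hk.ne p
  have h2 := sum_one (C := C) (fun _ => False) k₁
  have h3 := sum_one (C := C) (fun _ => False) k₂
  simp only [if_false, mul_one] at h1 h2 h3
  rw [h1, ← h2, ← h3, wt_one k₁ (by omega), wt_one k₂ hn, mul_one, mul_one,
    ← ENNReal.ofReal_add hp0 (by linarith), add_sub_cancel, ENNReal.ofReal_one]

end Pool.Agent.X3.CC
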