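import Pool.Agent.X3.CCProb

/-!
Monotonicity of the recovery time in the law of the sample size.
-/

set_option autoImplicit false
set_option linter.unusedSectionVars false

namespace Pool.Agent.X3.CC

open MeasureTheory Finset
open scoped ENNReal

variable {C L : Type} [Fintype C] [DecidableEq C] [DecidableEq L]

/-- all coupons seen and separated -/
def RecL (l : List (Finset C)) : Prop :=
  (∀ c, ∃ S ∈ l, c ∈ S) ∧ ∀ x y, (∀ S ∈ l, (x ∈ S ↔ y ∈ S)) → x = y

theorem recovered_iff (σ : C ≃ L) (s : ℕ → Finset C) (t : ℕ) :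
    Recovered σ s t ↔ RecL (List.ofFn fun i : Fin t => s i) := by
  have hm : ∀ Q : Finset C → Prop, (∀ S ∈ List.ofFn (fun i : Fin t => s i), Q S) ↔ ∀ i < t, Q (s i) := by
    intro Q
    simp only [List.mem_ofFn, forall_exists_index, forall_apply_eq_imp_iff]
    exact ⟨fun h i hi => h ⟨i, hi⟩, fun h i => h i i.2⟩
  have he : ∀ c, (∃ S ∈ List.ofFn (fun i : Fin t => s i), c ∈ S) ↔ ∃ i < t, c ∈ s i := by
    intro c
    have := hm fun S => c ∉ S
    rw [← not_iff_not]
    push Not
    exact this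
  unfold Recovered RecL
  simp only [he, hm]
  refine and_congr_right fun _ => ⟨fun h x y hxy => ?_, fun h τ hτ => ?_⟩
  · by_contra hne
    have h1 := h ((Equiv.swap x y).trans σ) fun i hi => by
      have h2 : (s i).image (Equiv.swap x y) = s i := by
        ext c
        simp only [Finset.mem_image]
        constructor
        · rintro ⟨d, hd, rfl⟩
          rcases eq_or_ne d x with rfl | hdx
          · rw [Equiv.swap_apply_left]
            exact (hxy i hi).1 hd
          · rcases eq_or_ne d y with rfl | hdy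
            · rw [Equiv.swap_apply_right]
              exact (hxy i hi).2 hd
            · rwa [Equiv.swap_apply_of_ne_of_ne hdx hdy]
        · intro hc
          refine ⟨Equiv.swap x y c, ?_, Equiv.swap_apply_self x y c⟩
          rcases eq_or_ne c x with rfl | hdx
          · rw [Equiv.swap_apply_left]
            exact (hxy i hi).1 hc
          · rcases eq_or_ne c y with rfl | hdy
            · rw [Equiv.swap_apply_right]
              exact (hxy i hi).2 hc
            · rwa [Equiv.swap_apply_of_ne_of_ne hdx hdy]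
      rw [Equiv.coe_trans, ← Finset.image_image, h2]
    have h2 := congrFun (congrArg DFunLike.coe h1) x
    rw [Equiv.trans_apply, Equiv.swap_apply_left] at h2
    exact hne (σ.injective h2).symm
  · ext c
    have h1 : σ.symm (τ c) = c := by
      apply h
      intro i hi
      have h2 := hτ i hi
      constructor
      · intro h3
        have h4 : τ c ∈ (s i).image σ := Finset.mem_image.2 ⟨_, h3, Equiv.apply_symm_apply σ _⟩
        rw [← h2] at h4
        obtain ⟨d, hd, hdc⟩ := Finset.mem_image.1 h4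
        rwa [← τ.injective hdc]
      · intro h3
        have h4 : τ c ∈ (s i).image τ := Finset.mem_image_of_mem _ h3
        rw [h2] at h4
        obtain ⟨d, hd, hdc⟩ := Finset.mem_image.1 h4
        rwa [← hdc, Equiv.symm_apply_apply]
    rw [← h1, Equiv.apply_symm_apply, h1]

theorem recL_iff (l1 l2 : List (Finset C)) (S : Finset C) :
    RecL (l1 ++ S :: l2) ↔ Good (fun x y => ∀ T ∈ l1 ++ l2, (x ∈ T ↔ y ∈ T))
      (fun x => ∀ T ∈ l1 ++ l2, x ∉ T) S := by
  have hm : ∀ Q : Finset C → Prop, (∀ T ∈ l1 ++ S :: l2, Q T) ↔ Q S ∧ ∀ T ∈ l1 ++ l2, Q T := by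
    intro Q
    simp only [List.mem_append, List.mem_cons]
    constructor
    · exact fun h => ⟨h S (Or.inr (Or.inl rfl)), fun T hT => h T (hT.imp_right Or.inr)⟩
    · rintro ⟨h1, h2⟩ T (hT | rfl | hT)
      · exact h2 T (Or.inl hT)
      · exact h1
      · exact h2 T (Or.inr hT)
  have he : ∀ c, (∃ T ∈ l1 ++ S :: l2, c ∈ T) ↔ ((∀ T ∈ l1 ++ l2, c ∉ T) → c ∈ S) := by
    intro c
    have := hm fun T => c ∉ T
    rw [← not_iff_not]
    push Not
    rw [this]
    tauto
  unfold RecL Good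
  simp only [he, hm]
  refine and_congr_right fun _ => ⟨fun h x y hne hR hiff => hne (h x y ⟨hiff, hR⟩), fun h x y hxy => ?_⟩
  by_contra hne
  exact h x y hne hxy.2 hxy.1

/-- the probability that a uniform `k`-set is not good -/
noncomputable def bb (G : Finset C → Prop) [DecidablePred G] (k : ℕ) : ℝ≥0∞ :=
  (((univ.powersetCard k).filter fun S => ¬ G S).card : ℕ) / ((Fintype.card C).choose k : ℕ)

theorem sum_one (G : Finset C → Prop) [DecidablePred G] (k : ℕ) :
    ∑ S : Finset C, wt (sizeOne k) S * (if G S then 0 else 1) = bb G k := by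
  have h1 : ∀ S : Finset C, wt (sizeOne k) S * (if G S then (0 : ℝ≥0∞) else 1) =
      if S ∈ (univ.powersetCard k).filter (fun S => ¬ G S) then
        (((Fintype.card C).choose k : ℕ) : ℝ≥0∞)⁻¹ else 0 := by
    intro S
    simp only [Finset.mem_filter, Finset.mem_powersetCard, Finset.subset_univ, true_and]
    unfold wt sizeOne
    by_cases h : S.card = k
    · by_cases hG : G S
      · simp [hG]
      · simp [h, hG]
    · simp [h]
  simp only [h1]
  rw [Finset.sum_ite_mem, Finset.univ_inter, Finset.sum_const, nsmul_eq_mul]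
  rfl

theorem bb_succ (R0 : C → C → Prop) (hsymm : ∀ x y, R0 x y → R0 y x)
    (htrans : ∀ x y z, R0 x y → R0 y z → R0 x z) (Uns : C → Prop)
    (hUns : ∀ x y, Uns x → R0 x y → Uns y) [DecidablePred (Good R0 Uns)] (k : ℕ)
    (hk : 2 * (k + 1) ≤ Fintype.card C) : bb (Good R0 Uns) (k + 1) ≤ bb (Good R0 Uns) k := by
  have h1 := count R0 hsymm htrans Uns hUns k hk
  have h2 : ∀ j, ((univ.powersetCard j).filter (Good R0 Uns)).card +
      ((univ.powersetCard j).filter fun S => ¬ Good R0 Uns S).card = (Fintype.card C).choose j := by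
    intro j
    rw [Finset.card_filter_add_card_filter_not, Finset.card_powersetCard, Finset.card_univ]
  have h3 := h2 k
  have h4 := h2 (k + 1)
  set g := ((univ.powersetCard k).filter (Good R0 Uns)).card
  set g1 := ((univ.powersetCard (k + 1)).filter (Good R0 Uns)).card
  set d := ((univ.powersetCard k).filter fun S => ¬ Good R0 Uns S).card with hd
  set d1 := ((univ.powersetCard (k + 1)).filter fun S => ¬ Good R0 Uns S).card with hd1
  have h5 : d1 * (Fintype.card C).choose k ≤ d * (Fintype.card C).choose (k + 1) := by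
    rw [← h3, ← h4] at h1 ⊢
    nlinarith
  have c0 : 0 < (Fintype.card C).choose k := Nat.choose_pos (by omega)
  have c1 : 0 < (Fintype.card C).choose (k + 1) := Nat.choose_pos (by omega)
  unfold bb
  rw [← hd, ← hd1]
  have h6 : (d : ℝ≥0∞) / ((Fintype.card C).choose k : ℕ) * ((Fintype.card C).choose (k + 1) : ℕ) =
      (d * ((Fintype.card C).choose (k + 1) : ℕ)) / ((Fintype.card C).choose k : ℕ) := by
    rw [div_eq_mul_inv, div_eq_mul_inv]
    ring
  rw [ENNReal.div_le_iff (by exact_mod_cast c1.ne') (ENNReal.natCast_ne_top _), h6,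
    ENNReal.le_div_iff_mul_le (Or.inl (by exact_mod_cast c0.ne')) (Or.inl (ENNReal.natCast_ne_top _))]
  exact_mod_cast h5

theorem bb_anti (R0 : C → C → Prop) (hsymm : ∀ x y, R0 x y → R0 y x)
    (htrans : ∀ x y z, R0 x y → R0 y z → R0 x z) (Uns : C → Prop)
    (hUns : ∀ x y, Uns x → R0 x y → Uns y) [DecidablePred (Good R0 Uns)] (k₁ k₂ : ℕ)
    (hk : k₁ ≤ k₂) (hn : 2 * k₂ ≤ Fintype.card C) :
    bb (Good R0 Uns) k₂ ≤ bb (Good R0 Uns) k₁ := by
  induction k₂, hk using Nat.le_induction with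
  | base => exact le_rfl
  | succ k _ ih =>
    exact (bb_succ R0 hsymm htrans Uns hUns k hn).trans (ih (by omega))

theorem sum_two (G : Finset C → Prop) [DecidablePred G] (k₁ k₂ : ℕ) (hne : k₁ ≠ k₂) (p : ℝ) :
    ∑ S : Finset C, wt (sizeTwo k₁ k₂ p) S * (if G S then 0 else 1) =
      ENNReal.ofReal p * bb G k₁ + ENNReal.ofReal (1 - p) * bb G k₂ := by
  rw [← sum_one, ← sum_one, Finset.mul_sum, Finset.mul_sum, ← Finset.sum_add_distrib]
  refine Finset.sum_congr rfl fun S _ => ?_
  rw [← mul_assoc, ← mul_assoc, ← add_mul]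
  congr 1
  unfold wt sizeTwo sizeOne
  by_cases h1 : S.card = k₁
  · have h2 : S.card ≠ k₂ := by omega
    simp [h1, hne, div_eq_mul_inv]
  · by_cases h2 : S.card = k₂
    · simp [h2, hne.symm, div_eq_mul_inv]
    · simp [h1, h2]

theorem mono_recovered (σ : C ≃ L) (s : ℕ → Finset C) (t t' : ℕ) (h : t ≤ t')
    (ht : Recovered σ s t) : Recovered σ s t' := by
  refine ⟨fun c => ?_, fun τ hτ => ht.2 τ fun i hi => hτ i (lt_of_lt_of_le hi h)⟩
  obtain ⟨i, hi, hc⟩ := ht.1 c
  exact ⟨i, lt_of_lt_of_le hi h, hc⟩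

open Classical in
theorem recTime_eq (σ : C ≃ L) (s : ℕ → Finset C) :
    recTime σ s = ∑' t : ℕ, if Recovered σ s t then 0 else 1 := by
  unfold recTime
  by_cases h : ∃ t, Recovered σ s t
  · have h1 : ∀ t, Recovered σ s t ↔ Nat.find h ≤ t := fun t =>
      ⟨fun ht => Nat.find_min' h ht, fun ht => mono_recovered σ s _ t ht (Nat.find_spec h)⟩
    rw [tsum_eq_sum (s := range (Nat.find h))]
    · rw [Finset.sum_congr rfl (g := fun _ => (1 : ℝ≥0∞)) fun t ht => by
        rw [if_neg fun h2 => absurd ((h1 t).1 h2) (not_le.2 (mem_range.1 ht))]]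
      rw [Finset.sum_const, Finset.card_range, nsmul_eq_mul, mul_one]
      apply le_antisymm
      · exact iInf₂_le (Nat.find h) (Nat.find_spec h)
      · refine le_iInf₂ fun t ht => ?_
        exact_mod_cast (h1 t).1 ht
    · intro t ht
      rw [if_pos ((h1 t).2 (not_lt.1 fun h2 => ht (mem_range.2 h2)))]
  · push Not at h
    simp only [h, iInf_false, iInf_top, if_false]
    rw [ENNReal.tsum_const_eq_top_of_ne_zero one_ne_zero]

open Classical in
theorem lintegral_recTime {Ω : Type} [MeasurableSpace Ω] (P : Measure Ω) (κ : ℕ → ℝ≥0∞)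
    (S : ℕ → Ω → Finset C) (hS : IsSampling P κ S) (σ : C ≃ L) :
    ∫⁻ ω, recTime σ (fun i => S i ω) ∂P = ∑' t : ℕ, EE κ t (fun l : List (Finset C) => if RecL l then 0 else 1) := by
  have h1 : ∀ t : ℕ, ∫⁻ ω, (if Recovered σ (fun i => S i ω) t then (0 : ℝ≥0∞) else 1) ∂P =
      EE κ t (fun l : List (Finset C) => if RecL l then 0 else 1) ∧
      Measurable fun ω => if Recovered σ (fun i => S i ω) t then (0 : ℝ≥0∞) else 1 := by
    intro t
    obtain ⟨h2, h3⟩ := prob_eq P κ S hS t RecL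
    have h4 : (fun ω => if Recovered σ (fun i => S i ω) t then (0 : ℝ≥0∞) else 1) =
        Set.indicator {ω | ¬ RecL (List.ofFn fun i : Fin t => S i ω)} 1 := by
      funext ω
      rw [Set.indicator_apply]
      by_cases h5 : RecL (List.ofFn fun i : Fin t => S i ω)
      · rw [if_pos ((recovered_iff σ _ t).2 h5), if_neg (fun h6 => h6 h5)]
      · rw [if_neg (fun h6 => h5 ((recovered_iff σ _ t).1 h6)), if_pos (show ω ∈ _ from h5)]
        rfl
    rw [h4]
    refine ⟨?_, measurable_one.indicator h3⟩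
    rw [lintegral_indicator_one h3, h2]
  have h2 : (fun ω => recTime σ (fun i => S i ω)) = fun ω => ∑' t : ℕ,
      if Recovered σ (fun i => S i ω) t then (0 : ℝ≥0∞) else 1 := by
    funext ω
    exact recTime_eq σ _
  rw [h2, lintegral_tsum fun t => (h1 t).2.aemeasurable]
  exact tsum_congr fun t => (h1 t).1

theorem main (σ : C ≃ L) (k₁ k₂ : ℕ) (hk : k₁ < k₂) (hn : 2 * k₂ ≤ Fintype.card C) (p : ℝ)
    (hp0 : 0 ≤ p) (hp1 : p ≤ 1) {Ω₁ Ω Ω₂ : Type} [MeasurableSpace Ω₁] [MeasurableSpace Ω]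
    [MeasurableSpace Ω₂] (P₁ : Measure Ω₁) (P : Measure Ω) (P₂ : Measure Ω₂)
    (S₁ : ℕ → Ω₁ → Finset C) (S : ℕ → Ω → Finset C) (S₂ : ℕ → Ω₂ → Finset C)
    (h₁ : IsSampling P₁ (sizeOne k₁) S₁) (h : IsSampling P (sizeTwo k₁ k₂ p) S)
    (h₂ : IsSampling P₂ (sizeOne k₂) S₂) :
    ∫⁻ ω, recTime σ (fun i => S₂ i ω) ∂P₂ ≤ ∫⁻ ω, recTime σ (fun i => S i ω) ∂P ∧
      ∫⁻ ω, recTime σ (fun i => S i ω) ∂P ≤ ∫⁻ ω, recTime σ (fun i => S₁ i ω) ∂P₁ := by
  classical
  have hsum : ENNReal.ofReal p + ENNReal.ofReal (1 - p) = 1 := by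
    rw [← ENNReal.ofReal_add hp0 (by linarith), add_sub_cancel, ENNReal.ofReal_one]
  have hf : ∀ l1 l2 (S : Finset C), (if RecL (l1 ++ S :: l2) then (0 : ℝ≥0∞) else 1) =
      if Good (fun x y => ∀ T ∈ l1 ++ l2, (x ∈ T ↔ y ∈ T)) (fun x => ∀ T ∈ l1 ++ l2, x ∉ T) S
        then 0 else 1 := fun l1 l2 S => by simp only [recL_iff]
  have hanti : ∀ l1 l2 : List (Finset C),
      bb (Good (fun x y => ∀ T ∈ l1 ++ l2, (x ∈ T ↔ y ∈ T)) (fun x => ∀ T ∈ l1 ++ l2, x ∉ T)) k₂ ≤
      bb (Good (fun x y => ∀ T ∈ l1 ++ l2, (x ∈ T ↔ y ∈ T)) (fun x => ∀ T ∈ l1 ++ l2, x ∉ T)) k₁ :=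
    fun l1 l2 => bb_anti _ (fun x y hxy T hT => (hxy T hT).symm)
      (fun x y z h1 h2 T hT => (h1 T hT).trans (h2 T hT)) _
      (fun x y h1 h2 T hT => fun hy => h1 T hT ((h2 T hT).2 hy)) k₁ k₂ hk.le hn
  rw [lintegral_recTime P₁ _ S₁ h₁, lintegral_recTime P _ S h, lintegral_recTime P₂ _ S₂ h₂]
  refine ⟨ENNReal.tsum_le_tsum fun t => EE_compare _ _ t _ fun l1 l2 => ?_,
    ENNReal.tsum_le_tsum fun t => EE_compare _ _ t _ fun l1 l2 => ?_⟩
  · simp only [hf]
    rw [sum_one, sum_two _ _ _ hk.ne]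
    calc bb _ k₂ = ENNReal.ofReal p * bb _ k₂ + ENNReal.ofReal (1 - p) * bb _ k₂ := by
          rw [← add_mul, hsum, one_mul]
      _ ≤ _ := by gcongr; exact hanti l1 l2
  · simp only [hf]
    rw [sum_one, sum_two _ _ _ hk.ne]
    calc ENNReal.ofReal p * bb _ k₁ + ENNReal.ofReal (1 - p) * bb _ k₂
        ≤ ENNReal.ofReal p * bb _ k₁ + ENNReal.ofReal (1 - p) * bb _ k₁ := by
          gcongr; exact hanti l1 l2
      _ = _ := by rw [← add_mul, hsum, one_mul]

end Pool.Agent.X3.CC
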