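import Pool.Agent.X3.CCDef
import Pool.Agent.X3.CCCount

/-!
Comparison of the tails of the recovery times.
-/

set_option autoImplicit false

namespace Pool.Agent.X3.CC

open MeasureTheory Finset
open scoped ENNReal

variable {C L : Type} [Fintype C] [DecidableEq C] [DecidableEq L]

/-- expectation of a function of `t` independent samples -/
noncomputable def EE (κ : ℕ → ℝ≥0∞) : ℕ → (List (Finset C) → ℝ≥0∞) → ℝ≥0∞
  | 0, f => f []
  | t + 1, f => ∑ S : Finset C, wt κ S * EE κ t (fun l => f (S :: l))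

theorem EE_zero (κ : ℕ → ℝ≥0∞) (f : List (Finset C) → ℝ≥0∞) : EE κ 0 f = f [] := rfl

theorem EE_succ (κ : ℕ → ℝ≥0∞) (t : ℕ) (f : List (Finset C) → ℝ≥0∞) :
    EE κ (t + 1) f = ∑ S : Finset C, wt κ S * EE κ t (fun l => f (S :: l)) := rfl

theorem EE_sum (κ : ℕ → ℝ≥0∞) (t : ℕ) (c : Finset C → ℝ≥0∞) :
    ∀ f : Finset C → List (Finset C) → ℝ≥0∞,
      EE κ t (fun l => ∑ S : Finset C, c S * f S l) = ∑ S : Finset C, c S * EE κ t (f S) := by
  induction t with
  | zero =>
    intro f
    rfl
  | succ t ih =>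
    intro f
    simp only [EE_succ, ih, Finset.mul_sum]
    rw [Finset.sum_comm]
    refine Finset.sum_congr rfl fun S _ => Finset.sum_congr rfl fun T _ => ?_
    rw [mul_left_comm]

theorem EE_mono (κ : ℕ → ℝ≥0∞) (t : ℕ) : ∀ f g : List (Finset C) → ℝ≥0∞, (∀ l, f l ≤ g l) →
    EE κ t f ≤ EE κ t g := by
  induction t with
  | zero =>
    intro f g h
    exact h []
  | succ t ih =>
    intro f g h
    rw [EE_succ, EE_succ]
    exact Finset.sum_le_sum fun S _ => mul_le_mul_right (ih _ _ fun l => h _) _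

theorem EE_compare (κa κb : ℕ → ℝ≥0∞) (t : ℕ) : ∀ f : List (Finset C) → ℝ≥0∞,
    (∀ l1 l2, ∑ S : Finset C, wt κa S * f (l1 ++ S :: l2) ≤
      ∑ S : Finset C, wt κb S * f (l1 ++ S :: l2)) → EE κa t f ≤ EE κb t f := by
  induction t with
  | zero =>
    intro f _
    exact le_rfl
  | succ t ih =>
    intro f h
    calc EE κa (t + 1) f = ∑ S : Finset C, wt κa S * EE κa t (fun l => f (S :: l)) := rfl
      _ ≤ ∑ S : Finset C, wt κa S * EE κb t (fun l => f (S :: l)) :=
        Finset.sum_le_sum fun S _ => mul_le_mul_right (ih _ fun l1 l2 => h (S :: l1) l2) _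
      _ = EE κb t (fun l => ∑ S : Finset C, wt κa S * f (S :: l)) :=
        (EE_sum κb t (wt κa) fun S l => f (S :: l)).symm
      _ ≤ EE κb t (fun l => ∑ S : Finset C, wt κb S * f (S :: l)) :=
        EE_mono κb t _ _ fun l => h [] l
      _ = EE κb (t + 1) f := EE_sum κb t (wt κb) fun S l => f (S :: l)

theorem EE_fin (κ : ℕ → ℝ≥0∞) (t : ℕ) : ∀ f : List (Finset C) → ℝ≥0∞,
    EE κ t f = ∑ s : Fin t → Finset C, (∏ i, wt κ (s i)) * f (List.ofFn s) := by
  induction t with
  | zero =>
    intro f
    rw [EE_zero, Fintype.sum_unique]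
    simp
  | succ t ih =>
    intro f
    rw [EE_succ]
    simp only [ih, Finset.mul_sum]
    rw [← Fintype.sum_prod_type', ← (Fin.consEquiv fun _ : Fin (t + 1) => Finset C).sum_comp]
    refine Finset.sum_congr rfl fun x _ => ?_
    rw [Fin.prod_univ_succ, List.ofFn_succ]
    simp only [Fin.consEquiv_apply, Fin.cons_zero, Fin.cons_succ]
    rw [mul_assoc]

theorem prob_eq {Ω : Type} [MeasurableSpace Ω] (P : Measure Ω) (κ : ℕ → ℝ≥0∞)
    (S : ℕ → Ω → Finset C) (hS : IsSampling P κ S) (t : ℕ) (R : List (Finset C) → Prop)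
    [DecidablePred R] : P {ω | ¬ R (List.ofFn fun i : Fin t => S i ω)} =
      EE κ t (fun l => if R l then 0 else 1) ∧
      MeasurableSet {ω | ¬ R (List.ofFn fun i : Fin t => S i ω)} := by
  classical
  have h1 : {ω | ¬ R (List.ofFn fun i : Fin t => S i ω)} =
      ⋃ s ∈ (univ.filter fun s : Fin t → Finset C => ¬ R (List.ofFn s)),
        {ω | ∀ i : Fin t, S i ω = s i} := by
    ext ω
    simp only [Set.mem_setOf_eq, Set.mem_iUnion, Finset.mem_filter, Finset.mem_univ, true_and,
      exists_prop]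
    constructor
    · intro h
      exact ⟨fun i => S i ω, h, fun i => rfl⟩
    · rintro ⟨s, h2, h3⟩
      have h4 : (fun i : Fin t => S i ω) = s := funext h3
      rw [h4]
      exact h2
  have hm : ∀ s : Fin t → Finset C, MeasurableSet {ω | ∀ i : Fin t, S i ω = s i} := by
    intro s
    have : {ω | ∀ i : Fin t, S i ω = s i} = ⋂ i : Fin t, {ω | S i ω = s i} := by
      ext ω
      simp
    rw [this]
    exact MeasurableSet.iInter fun i => hS.meas i (s i)
  refine ⟨?_, ?_⟩
  · rw [h1, measure_biUnion_finset, EE_fin, Finset.sum_filter]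
    · refine Finset.sum_congr rfl fun s _ => ?_
      have h2 : P {ω | ∀ i : Fin t, S i ω = s i} = ∏ i, wt κ (s i) := by
        have h3 := hS.law t (fun i => if h : i < t then s ⟨i, h⟩ else ∅)
        have h4 : {ω | ∀ i < t, S i ω = if h : i < t then s ⟨i, h⟩ else ∅} =
            {ω | ∀ i : Fin t, S i ω = s i} := by
          ext ω
          simp only [Set.mem_setOf_eq]
          constructor
          · intro h i
            have := h i i.2
            rwa [dif_pos i.2] at this
          · intro h i hi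
            rw [dif_pos hi]
            exact h ⟨i, hi⟩
        rw [h4] at h3
        rw [h3, ← Fin.prod_univ_eq_prod_range
          (fun i => wt κ (if h : i < t then s ⟨i, h⟩ else ∅)) t]
        refine Finset.prod_congr rfl fun i _ => ?_
        rw [dif_pos i.2]
      by_cases hR : R (List.ofFn s)
      · rw [if_neg (not_not.2 hR), if_pos hR, mul_zero]
      · rw [if_pos hR, if_neg hR, mul_one, h2]
    · intro s _ s' _ hne
      rw [Function.onFun, Set.disjoint_left]
      intro ω h2 h3
      apply hne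
      funext i
      rw [← h2 i, h3 i]
    · exact fun s _ => hm s
  · rw [h1]
    exact Finset.measurableSet_biUnion _ fun s _ => hm s

end Pool.Agent.X3.CC
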