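import Mathlib

/-!
Hall-Littlewood polynomials in finitely many variables (Macdonald III (2.2)), the weight of a
partition with four letters, and the weighted sum of Hall-Littlewood functions at `t = -1`.
-/

set_option autoImplicit false

namespace Pool.Agent.X3.HL

open MvPolynomial Finset

/-- the polynomials in `x_1, …, x_N` (the variables `inl i`) and `a, b, c, d` (the variables
`inr 0, …, inr 3`) with rational coefficients -/
abbrev Rg (N : ℕ) : Type := MvPolynomial (Fin N ⊕ Fin 4) ℚ

/-- rational functions -/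
abbrev Fr (N : ℕ) : Type := FractionRing (Rg N)

/-- the variable `x_{i+1}` as a rational function -/
noncomputable def xx {N : ℕ} (i : Fin N) : Fr N := algebraMap (Rg N) (Fr N) (X (Sum.inl i))

/-- the distinct rearrangements of a sequence -/
def rearr {N : ℕ} (lam : Fin N → ℕ) : Finset (Fin N → ℕ) :=
  univ.image fun s : Equiv.Perm (Fin N) => lam ∘ s

/-- Macdonald's formula III (2.2): the sum over the distinct rearrangements `c` of `lam` of
`x^c * ∏_{c_i > c_j} (x_i - t x_j) / (x_i - x_j)` -/
noncomputable def hlFrac (t : ℚ) {N : ℕ} (lam : Fin N → ℕ) : Fr N :=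
  ∑ c ∈ rearr lam, (∏ i, xx i ^ c i) * ∏ p ∈ univ.filter (fun p : Fin N × Fin N => c p.2 < c p.1),
    (xx p.1 - algebraMap ℚ (Fr N) t * xx p.2) / (xx p.1 - xx p.2)

/-- `P` is the Hall-Littlewood polynomial `P_lam (x_1, …, x_N; t)` -/
def IsHL (t : ℚ) {N : ℕ} (lam : Fin N → ℕ) (P : Rg N) : Prop :=
  algebraMap (Rg N) (Fr N) P = hlFrac t lam

/-- the letter in row `i + 1` and column `j + 1`: rows `a b a b …` and `c d c d …` -/
def cellIdx (i j : ℕ) : Fin 4 :=
  if i % 2 = 0 then (if j % 2 = 0 then 0 else 1) else (if j % 2 = 0 then 2 else 3)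

/-- the weight `ω(lam)`, the product of the letters in the Young diagram -/
noncomputable def omega {N : ℕ} (lam : Fin N → ℕ) : Rg N :=
  ∏ i : Fin N, ∏ j ∈ range (lam i), X (Sum.inr (cellIdx i j))

/-- the partitions of `n` into at most `N` parts, as weakly decreasing sequences of length `N` -/
def parts (N n : ℕ) : Finset (Fin N → ℕ) := by
  classical
  exact (Finset.Nat.antidiagonalTuple N n).filter Antitone

/-- the series `∑ ω(lam) P_lam(x_1, …, x_N)`, where the variable `z` of the power series records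
the degree -/
noncomputable def wSer (P : (N : ℕ) → (Fin N → ℕ) → Rg N) (N : ℕ) : PowerSeries (Rg N) :=
  PowerSeries.mk fun n => ∑ lam ∈ parts N n, omega lam * P N lam

/-- the power sum `p_k (x_1, …, x_N)` -/
noncomputable def pw (N k : ℕ) : Rg N := ∑ i : Fin N, X (Sum.inl i) ^ k

/-- the letters -/
noncomputable def lett (N : ℕ) (j : Fin 4) : Rg N := X (Sum.inr j)

/-- the coefficient of `p_{2n}` in the correction sums -/
noncomputable def corrCoeff (N n : ℕ) : Rg N :=
  if n % 2 = 1 then C ((1 : ℚ) / (2 * n)) * (lett N 0 ^ n * lett N 2 ^ n)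
  else C ((1 : ℚ) / (2 * n)) * (lett N 0 ^ (n / 2) * lett N 2 ^ (n / 2) *
    (lett N 0 ^ (n / 2) * lett N 2 ^ (n / 2) - 2 * (lett N 1 ^ (n / 2) * lett N 3 ^ (n / 2))))

/-- the two correction sums: `∑_{n ≥ 1} corrCoeff n * p_{2n}` in degree `2n` -/
noncomputable def corr (N : ℕ) : PowerSeries (Rg N) :=
  PowerSeries.mk fun m => if m % 2 = 0 ∧ m ≠ 0 then corrCoeff N (m / 2) * pw N m else 0

/-- the series `L` of the problem in the variables `x_1, …, x_N` -/
noncomputable def LL (P : (N : ℕ) → (Fin N → ℕ) → Rg N) (N : ℕ) : PowerSeries (Rg N) :=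
  PowerSeries.logOf (wSer P N) + corr N

end Pool.Agent.X3.HL
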