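import Mathlib

/-!
Complex numbers with prescribed power sums.
-/

set_option autoImplicit false

namespace Pool.Agent.X3.HL

open MvPolynomial

/-- A tuple with prescribed elementary symmetric values. -/
theorem exists_roots (m : ℕ) (e : Fin (m + 1) → ℂ) (he : e 0 = 1) :
    ∃ x : Fin m → ℂ, ∀ k : Fin (m + 1), eval x (esymm (Fin m) ℂ k) = e k := by
  classical
  set P : Polynomial ℂ := ∑ j : Fin (m + 1),
    Polynomial.C ((-1) ^ (j : ℕ) * e j) * Polynomial.X ^ (m - (j : ℕ)) with hP
  have hcoeff : ∀ k : Fin (m + 1), P.coeff (m - k) = (-1) ^ (k : ℕ) * e k := by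
    intro k
    rw [hP, Polynomial.finsetSum_coeff, Finset.sum_eq_single k]
    · rw [Polynomial.coeff_C_mul, Polynomial.coeff_X_pow, if_pos rfl, mul_one]
    · intro j _ hj
      rw [Polynomial.coeff_C_mul, Polynomial.coeff_X_pow, if_neg, mul_zero]
      intro h
      apply hj
      apply Fin.ext
      have h1 := j.2
      have h2 := k.2
      omega
    · simp
  have hdeg : P.natDegree = m := by
    apply le_antisymm
    · rw [hP]
      apply Polynomial.natDegree_sum_le_of_forall_le
      intro j _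
      refine (Polynomial.natDegree_C_mul_X_pow_le _ _).trans (Nat.sub_le _ _)
    · apply Polynomial.le_natDegree_of_ne_zero
      have := hcoeff 0
      simp only [Fin.val_zero, Nat.sub_zero, pow_zero, one_mul, he] at this
      rw [this]
      exact one_ne_zero
  have hlead : P.leadingCoeff = 1 := by
    rw [Polynomial.leadingCoeff, hdeg]
    have := hcoeff 0
    simpa [he] using this
  have hsplit : Multiset.card P.roots = P.natDegree :=
    Polynomial.splits_iff_card_roots.mp (IsAlgClosed.splits P)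
  have hlen : P.roots.toList.length = m := by
    rw [Multiset.length_toList, hsplit, hdeg]
  have hlist : ∃ x : Fin m → ℂ, (Finset.univ.val.map x : Multiset ℂ) = P.roots := by
    have key : ∀ (L : List ℂ) (k : ℕ), L.length = k →
        ∃ x : Fin k → ℂ, (Finset.univ.val.map x : Multiset ℂ) = (L : Multiset ℂ) := by
      intro L k hk
      subst hk
      exact ⟨L.get, by rw [Fin.univ_val_map, List.ofFn_get]⟩
    obtain ⟨x, hx⟩ := key _ _ hlen
    exact ⟨x, by rw [hx, Multiset.coe_toList]⟩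
  obtain ⟨x, hx⟩ := hlist
  refine ⟨x, fun k => ?_⟩
  have h3 : eval x (esymm (Fin m) ℂ k) = P.roots.esymm k := by
    rw [← hx]
    have h4 := MvPolynomial.aeval_esymm_eq_multiset_esymm (Fin m) ℂ (k : ℕ) x
    rw [← h4]
    rfl
  have h5 := Polynomial.coeff_eq_esymm_roots_of_card hsplit
    (show m - (k : ℕ) ≤ P.natDegree by rw [hdeg]; exact Nat.sub_le _ _)
  have hk : (k : ℕ) ≤ m := Nat.lt_succ_iff.mp k.2
  rw [hcoeff, hlead, one_mul, hdeg, Nat.sub_sub_self hk] at h5
  rw [h3]
  exact (mul_left_cancel₀ (pow_ne_zero _ (neg_ne_zero.mpr one_ne_zero)) h5).symm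

/-- the elementary symmetric values belonging to given power sums -/
noncomputable def ee (s : ℕ → ℂ) : ℕ → ℂ
  | 0 => 1
  | (k + 1) => (1 / ((k : ℂ) + 1)) * ((-1) ^ (k + 1 + 1) *
      ∑ i : Fin (k + 1), (-1) ^ (i : ℕ) * ee s i * s (k + 1 - i))
  termination_by k => k
  decreasing_by exact i.2

theorem ee_succ (s : ℕ → ℂ) (k : ℕ) : ((k + 1 : ℕ) : ℂ) * ee s (k + 1) = (-1) ^ (k + 1 + 1) *
    ∑ i ∈ Finset.range (k + 1), (-1) ^ i * ee s i * s (k + 1 - i) := by
  rw [ee, Finset.sum_range]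
  have h : ((k : ℂ) + 1) ≠ 0 := by exact_mod_cast Nat.succ_ne_zero k
  push_cast
  rw [← mul_assoc, mul_one_div_cancel h, one_mul]

theorem sum_filter_lt (k : ℕ) (f : ℕ → ℕ → ℂ) :
    ∑ a ∈ Finset.HasAntidiagonal.antidiagonal k with a.1 < k, f a.1 a.2 = ∑ i ∈ Finset.range k, f i (k - i) := by
  rw [Finset.sum_filter, Finset.Nat.sum_antidiagonal_eq_sum_range_succ_mk, Finset.sum_range_succ,
    if_neg (lt_irrefl k), add_zero]
  refine Finset.sum_congr rfl fun i hi => ?_
  rw [Finset.mem_range] at hi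
  rw [if_pos hi]

theorem exists_psum (m : ℕ) (s : ℕ → ℂ) :
    ∃ x : Fin m → ℂ, ∀ l, 1 ≤ l → l ≤ m → ∑ i, x i ^ l = s l := by
  obtain ⟨x, hx⟩ := exists_roots m (fun k => ee s k) (by simp [ee])
  refine ⟨x, fun l => ?_⟩
  induction l using Nat.strong_induction_on with
  | _ l ih =>
    intro h1 h2
    obtain ⟨k, rfl⟩ : ∃ k, l = k + 1 := ⟨l - 1, by omega⟩
    have h3 := congrArg (eval x) (mul_esymm_eq_sum (Fin m) ℂ (k + 1))
    rw [map_mul, map_natCast, map_mul, map_pow, map_neg, map_one, map_sum] at h3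
    have h4 : ∑ a ∈ Finset.HasAntidiagonal.antidiagonal (k + 1) with a.1 < k + 1,
        eval x ((-1) ^ a.1 * esymm (Fin m) ℂ a.1 * psum (Fin m) ℂ a.2) =
        ∑ i ∈ Finset.range (k + 1), (-1) ^ i * ee s i * (∑ j, x j ^ (k + 1 - i)) := by
      rw [← sum_filter_lt (k + 1) (fun a b => (-1) ^ a * ee s a * (∑ j, x j ^ b))]
      refine Finset.sum_congr rfl fun a ha => ?_
      rw [Finset.mem_filter] at ha
      rw [map_mul, map_mul, map_pow, map_neg, map_one]
      have h5 := hx ⟨a.1, by omega⟩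
      simp only at h5
      rw [h5]
      congr 1
      simp [psum]
    rw [h4] at h3
    have h5 := hx ⟨k + 1, by omega⟩
    simp only at h5
    rw [h5, ee_succ] at h3
    have h6 : ((-1 : ℂ)) ^ (k + 1 + 1) ≠ 0 := pow_ne_zero _ (neg_ne_zero.2 one_ne_zero)
    have h7 := mul_left_cancel₀ h6 h3
    rw [Finset.sum_range_succ', Finset.sum_range_succ' _ k] at h7
    have h8 : ∑ i ∈ Finset.range k, (-1) ^ (i + 1) * ee s (i + 1) * s (k + 1 - (i + 1)) =
        ∑ i ∈ Finset.range k, (-1) ^ (i + 1) * ee s (i + 1) * (∑ j, x j ^ (k + 1 - (i + 1))) := by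
      refine Finset.sum_congr rfl fun i hi => ?_
      rw [Finset.mem_range] at hi
      rw [ih (k + 1 - (i + 1)) (by omega) (by omega) (by omega)]
    rw [h8] at h7
    have h9 := add_left_cancel h7
    have h10 : ee s 0 = 1 := by rw [ee]
    rw [h10, pow_zero, one_mul, one_mul, one_mul, Nat.sub_zero] at h9
    exact h9.symm

end Pool.Agent.X3.HL
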