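import Pool.Agent.X3.HLLL
import Pool.Agent.X3.HLNewton

/-!
A stable family of symmetric polynomials of bounded degree which does not change when a pair
`u, -u` is added to the variables is a polynomial in the odd power sums.
-/

set_option autoImplicit false

namespace Pool.Agent.X3.HL

open MvPolynomial Finset

theorem dvd_sub_zeroHom (N : ℕ) (D : Rg (N + 1)) :
    (X (Sum.inl 0) : Rg (N + 1)) ∣ D - shiftHom N (zeroHom N D) := by
  induction D using MvPolynomial.induction_on with
  | C c =>
    have h1 : zeroHom N (C c) = C c := (zeroHom N).commutes c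
    have h2 : shiftHom N (C c) = C c := (shiftHom N).commutes c
    rw [h1, h2, sub_self]
    exact dvd_zero _
  | add p q hp hq =>
    rw [map_add, map_add]
    have : p + q - (shiftHom N (zeroHom N p) + shiftHom N (zeroHom N q)) =
        (p - shiftHom N (zeroHom N p)) + (q - shiftHom N (zeroHom N q)) := by ring
    rw [this]
    exact dvd_add hp hq
  | mul_X p l hp =>
    rw [map_mul, map_mul]
    rcases l with i | j
    · refine Fin.cases ?_ (fun i => ?_) i
      · have h1 := zeroHom_xv N 0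
        rw [Fin.cons_zero] at h1
        have h2 : zeroHom N (X (Sum.inl 0)) = 0 := h1
        rw [h2, map_zero, mul_zero, sub_zero]
        exact dvd_mul_left _ _
      · have h1 := zeroHom_xv N i.succ
        rw [Fin.cons_succ] at h1
        have h2 : zeroHom N (X (Sum.inl i.succ)) = xv i := h1
        rw [h2, shiftHom_xv]
        have : p * X (Sum.inl i.succ) - shiftHom N (zeroHom N p) * xv i.succ =
            (p - shiftHom N (zeroHom N p)) * X (Sum.inl i.succ) := by
          unfold xv
          ring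
        rw [this]
        exact hp.mul_right _
    · rw [zeroHom_inr, shiftHom_inr]
      have : p * X (Sum.inr j) - shiftHom N (zeroHom N p) * X (Sum.inr j) =
          (p - shiftHom N (zeroHom N p)) * X (Sum.inr j) := by ring
      rw [this]
      exact hp.mul_right _

theorem eq_zero_of_sym {N : ℕ} (D : Rg (N + 1)) (hs : ∀ s, W467.Sym.rho s D = D)
    (h0 : zeroHom N D = 0) (hd : D.totalDegree < N + 1) : D = 0 := by
  classical
  have h1 : (X (Sum.inl 0) : Rg (N + 1)) ∣ D := by
    have := dvd_sub_zeroHom N D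
    rwa [h0, map_zero, sub_zero] at this
  have h2 : ∀ i : Fin (N + 1), (X (Sum.inl i) : Rg (N + 1)) ∣ D := by
    intro i
    obtain ⟨q, hq⟩ := h1
    have h3 := hs (Equiv.swap 0 i)
    rw [hq, map_mul, W467.Sym.rho_inl, Equiv.swap_apply_left] at h3
    rw [hq, ← h3]
    exact dvd_mul_right _ _
  by_contra hne
  obtain ⟨u, hu⟩ := Finset.nonempty_iff_ne_empty.2 (fun h => hne (support_eq_empty.1 h))
  have h3 : ∀ i : Fin (N + 1), 1 ≤ u (Sum.inl i) := by
    intro i
    obtain ⟨q, hq⟩ := h2 i
    rw [mem_support_iff, hq, coeff_X_mul'] at hu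
    split_ifs at hu with h4
    · rw [Finsupp.mem_support_iff] at h4
      omega
    · exact absurd rfl hu
  have h4 := le_totalDegree hu
  rw [Finsupp.sum_fintype _ _ (fun _ => rfl), Fintype.sum_sum_type] at h4
  have h5 : ∑ _i : Fin (N + 1), 1 ≤ ∑ i : Fin (N + 1), u (Sum.inl i) :=
    Finset.sum_le_sum fun i _ => h3 i
  rw [Finset.sum_const, Finset.card_univ, Fintype.card_fin, smul_eq_mul, mul_one] at h5
  omega

/-- evaluation at the power sums in `N` variables -/
noncomputable def ev (M N : ℕ) : MvPolynomial (Fin M ⊕ Fin 4) ℚ →ₐ[ℚ] Rg N :=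
  aeval (Sum.elim (fun k : Fin M => pw N (k + 1)) (fun j => X (Sum.inr j)))

theorem ev_psi (M : ℕ) (p : MvPolynomial (Fin M ⊕ Fin 4) ℚ) :
    W467.Sym.psi ℚ M (Fin 4) 1 p = ev M M p := by
  have : W467.Sym.psi ℚ M (Fin 4) 1 = ev M M := by
    apply MvPolynomial.algHom_ext
    rintro (k | j)
    · rw [W467.Sym.psi_X, ev, aeval_X]
      simp only [W467.Sym.gen, Sum.elim_inl, one_mul]
      rfl
    · rw [W467.Sym.psi_X, ev, aeval_X]
      rfl
  rw [this]

theorem ev_hom (M N : ℕ) {p : MvPolynomial (Fin M ⊕ Fin 4) ℚ} {n : ℕ}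
    (hp : IsWeightedHomogeneous (W467.Sym.wt M (Fin 4) 1) p n) : (ev M N p).IsHomogeneous n := by
  classical
  rw [p.as_sum, map_sum]
  refine IsHomogeneous.sum _ _ _ fun u hu => ?_
  have h1 : Finsupp.weight (W467.Sym.wt M (Fin 4) 1) u = n := hp (mem_support_iff.1 hu)
  rw [ev, aeval_monomial, algebraMap_eq]
  have h2 : (u.prod fun i k => (Sum.elim (fun k : Fin M => pw N (k + 1))
      (fun j => X (Sum.inr j)) : Fin M ⊕ Fin 4 → Rg N) i ^ k).IsHomogeneous n := by
    rw [← h1, Finsupp.weight_apply, Finsupp.sum]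
    unfold Finsupp.prod
    refine IsHomogeneous.prod _ _ _ fun i _ => ?_
    have h3 : ((Sum.elim (fun k : Fin M => pw N (k + 1))
      (fun j => X (Sum.inr j)) : Fin M ⊕ Fin 4 → Rg N) i).IsHomogeneous
        (W467.Sym.wt M (Fin 4) 1 i) := by
      rcases i with k | j
      · simp only [Sum.elim_inl, W467.Sym.wt, one_mul]
        unfold pw
        refine IsHomogeneous.sum _ _ _ fun i _ => ?_
        exact isHomogeneous_X_pow _ _
      · simp only [Sum.elim_inr, W467.Sym.wt]
        exact isHomogeneous_X _ _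
    have := h3.pow (u i)
    rwa [smul_eq_mul, mul_comm]
  have h3 := (isHomogeneous_C (Fin N ⊕ Fin 4) (coeff u p)).mul h2
  rwa [zero_add] at h3

theorem zeroHom_ev (M N : ℕ) (p : MvPolynomial (Fin M ⊕ Fin 4) ℚ) :
    zeroHom N (ev M (N + 1) p) = ev M N p := by
  have : (zeroHom N).comp (ev M (N + 1)) = ev M N := by
    apply MvPolynomial.algHom_ext
    rintro (k | j)
    · rw [AlgHom.comp_apply, ev, ev, aeval_X, aeval_X, Sum.elim_inl, Sum.elim_inl,
        zeroHom_pw N _ (Nat.succ_ne_zero _)]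
    · rw [AlgHom.comp_apply, ev, ev, aeval_X, aeval_X, Sum.elim_inr, Sum.elim_inr, zeroHom_inr]
  rw [← this]
  rfl

theorem rho_ev (M : ℕ) {N : ℕ} (s : Equiv.Perm (Fin N)) (p : MvPolynomial (Fin M ⊕ Fin 4) ℚ) :
    W467.Sym.rho s (ev M N p) = ev M N p := by
  have : (W467.Sym.rho s).comp (ev M N) = ev M N := by
    apply MvPolynomial.algHom_ext
    rintro (k | j)
    · rw [AlgHom.comp_apply, ev, aeval_X, Sum.elim_inl]
      unfold pw
      rw [map_sum]
      simp only [map_pow]
      refine Fintype.sum_equiv s _ _ fun i => ?_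
      rw [W467.Sym.rho_inl]
    · rw [AlgHom.comp_apply, ev, aeval_X, Sum.elim_inr, W467.Sym.rho_inr]
  exact congrArg (fun f => f p) this

section fam

variable (F : (N : ℕ) → Rg N) (D : ℕ) (hs : ∀ N (s : Equiv.Perm (Fin N)), W467.Sym.rho s (F N) = F N)
  (hd : ∀ N, (F N).totalDegree ≤ D) (hz : ∀ N, zeroHom N (F (N + 1)) = F N)
  (hp : ∀ N, pairHom N (F (N + 1 + 1)) = shiftHom N (F N))

include hs hd hz in
theorem exists_G : ∃ G : MvPolynomial (Fin D ⊕ Fin 4) ℚ, ∀ N, ev D N G = F N := by
  obtain ⟨p, hp⟩ := W467.Sym.sym_mem_range (F D) (hs D)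
  set G := ∑ d ∈ range ((F D).totalDegree + 1),
    weightedHomogeneousComponent (W467.Sym.wt D (Fin 4) 1) d p with hG
  have h0 : ev D D G = F D := by
    rw [← ev_psi, hG, map_sum]
    simp only [← W467.Sym.homogeneousComponent_psi, hp]
    exact sum_homogeneousComponent (F D)
  have hdeg : ∀ N, (ev D N G).totalDegree ≤ D := by
    intro N
    rw [hG, map_sum]
    refine totalDegree_finsetSum_le fun d hd' => ?_
    rw [mem_range] at hd'
    have h1 := (ev_hom D N (weightedHomogeneousComponent_isWeightedHomogeneous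
      (w := W467.Sym.wt D (Fin 4) 1) d p)).totalDegree_le
    have h2 := hd D
    omega
  have down : ∀ N, ev D (N + 1) G = F (N + 1) → ev D N G = F N := by
    intro N h
    rw [← zeroHom_ev, h, hz]
  have up : ∀ N, D ≤ N → ev D N G = F N → ev D (N + 1) G = F (N + 1) := by
    intro N hN h
    have h1 : ev D (N + 1) G - F (N + 1) = 0 := by
      refine eq_zero_of_sym _ ?_ ?_ ?_
      · intro s
        rw [map_sub, rho_ev, hs]
      · rw [map_sub, zeroHom_ev, hz, h, sub_self]
      · have h2 := totalDegree_sub (ev D (N + 1) G) (F (N + 1))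
        have h3 := hdeg (N + 1)
        have h4 := hd (N + 1)
        have h5 : max (ev D (N + 1) G).totalDegree (F (N + 1)).totalDegree ≤ D := max_le h3 h4
        omega
    exact sub_eq_zero.1 h1
  have hup : ∀ k, ev D (D + k) G = F (D + k) := by
    intro k
    induction k with
    | zero => exact h0
    | succ k ih => exact up _ (Nat.le_add_right _ _) ih
  have hdown : ∀ k N, N + k = D → ev D N G = F N := by
    intro k
    induction k with
    | zero =>
      intro N hN
      rw [add_zero] at hN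
      subst hN
      exact h0
    | succ k ih =>
      intro N hN
      exact down N (ih (N + 1) (by omega))
  refine ⟨G, fun N => ?_⟩
  rcases le_total D N with h | h
  · obtain ⟨k, rfl⟩ := Nat.exists_eq_add_of_le h
    exact hup k
  · exact hdown (D - N) N (by omega)

include hp in
theorem pair_eval {N : ℕ} (x : Fin N → ℂ) (al : Fin 4 → ℂ) (u : ℂ) :
    aeval (Sum.elim x al) (F N) = aeval (Sum.elim (Fin.cons u (Fin.cons (-u) x : Fin (N + 1) → ℂ) :
      Fin (N + 1 + 1) → ℂ) al) (F (N + 1 + 1)) := by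
  set e' : Rg (N + 1) →ₐ[ℚ] ℂ := aeval (Sum.elim (Fin.cons u x : Fin (N + 1) → ℂ) al) with he'
  have h1 : ∀ f, e' (shiftHom N f) = aeval (Sum.elim x al) f := by
    intro f
    have : e'.comp (shiftHom N) = aeval (Sum.elim x al) := by
      apply MvPolynomial.algHom_ext
      rintro (i | j)
      · have h3 : shiftHom N (X (Sum.inl i)) = X (Sum.inl i.succ) := shiftHom_xv N i
        rw [AlgHom.comp_apply, h3, he', aeval_X, aeval_X, Sum.elim_inl, Sum.elim_inl, Fin.cons_succ]
      · rw [AlgHom.comp_apply, shiftHom_inr, he', aeval_X, aeval_X, Sum.elim_inr, Sum.elim_inr]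
    exact congrArg (fun g => g f) this
  have h2 : ∀ f, e' (pairHom N f) = aeval (Sum.elim (Fin.cons u (Fin.cons (-u) x : Fin (N + 1) → ℂ) :
      Fin (N + 1 + 1) → ℂ) al) f := by
    intro f
    have : e'.comp (pairHom N) = aeval (Sum.elim (Fin.cons u (Fin.cons (-u) x : Fin (N + 1) → ℂ) :
      Fin (N + 1 + 1) → ℂ) al) := by
      apply MvPolynomial.algHom_ext
      rintro (i | j)
      · have h3 : pairHom N (X (Sum.inl i)) = _ := pairHom_xv N i
        rw [AlgHom.comp_apply, h3, he', aeval_X, Sum.elim_inl]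
        refine Fin.cases ?_ (fun i => ?_) i
        · rw [Fin.cons_zero, Fin.cons_zero, xv, aeval_X, Sum.elim_inl, Fin.cons_zero]
        · rw [Fin.cons_succ, Fin.cons_succ]
          refine Fin.cases ?_ (fun i => ?_) i
          · rw [Fin.cons_zero, Fin.cons_zero, map_neg, xv, aeval_X, Sum.elim_inl, Fin.cons_zero]
          · rw [Fin.cons_succ, Fin.cons_succ, xv, aeval_X, Sum.elim_inl, Fin.cons_succ]
      · rw [AlgHom.comp_apply, pairHom_inr, he', aeval_X, aeval_X, Sum.elim_inr, Sum.elim_inr]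
    exact congrArg (fun g => g f) this
  rw [← h1, ← h2, hp]

include hp in
theorem pairs_eval (al : Fin 4 → ℂ) (us : List ℂ) : ∀ {N : ℕ} (x : Fin N → ℂ),
    ∃ (N' : ℕ) (x' : Fin N' → ℂ), aeval (Sum.elim x al) (F N) = aeval (Sum.elim x' al) (F N') ∧
      ∀ k, ∑ i, x' i ^ k = ∑ i, x i ^ k + (us.map fun u => u ^ k + (-u) ^ k).sum := by
  induction us with
  | nil => exact fun {N} x => ⟨N, x, rfl, fun k => by simp⟩
  | cons u us ih =>
    intro N x
    obtain ⟨N', x', h1, h2⟩ := ih (Fin.cons u (Fin.cons (-u) x : Fin (N + 1) → ℂ) :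
      Fin (N + 1 + 1) → ℂ)
    refine ⟨N', x', ?_, fun k => ?_⟩
    · rw [← h1]
      exact pair_eval F hp x al u
    · rw [h2 k, Fin.sum_univ_succ, Fin.sum_univ_succ, List.map_cons, List.sum_cons]
      simp only [Fin.cons_zero, Fin.cons_succ]
      ring

/-- the substitution which kills the even power sums -/
noncomputable def sub (D : ℕ) : MvPolynomial (Fin D ⊕ Fin 4) ℚ →ₐ[ℚ] MvPolynomial (ℕ ⊕ Fin 4) ℚ :=
  aeval (Sum.elim (fun k : Fin D => if (k : ℕ) % 2 = 0 then X (Sum.inl ((k : ℕ) / 2)) else 0)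
    (fun j => X (Sum.inr j)))

/-- evaluation at the odd power sums in `N` variables -/
noncomputable def evOdd (N : ℕ) : MvPolynomial (ℕ ⊕ Fin 4) ℚ →ₐ[ℚ] Rg N :=
  aeval (Sum.elim (fun j : ℕ => pw N (2 * j + 1)) (fun j => X (Sum.inr j)))

include hs hd hz hp in
theorem main_alg : ∃ H : MvPolynomial (ℕ ⊕ Fin 4) ℚ, ∀ N, F N = evOdd N H := by
  obtain ⟨G, hG⟩ := exists_G F D hs hd hz
  refine ⟨sub D G, fun N => ?_⟩
  apply MvPolynomial.funext
  intro y
  have key : (aeval ((algebraMap ℚ ℂ) ∘ y) (F N) : ℂ) =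
      aeval ((algebraMap ℚ ℂ) ∘ y) (evOdd N (sub D G)) := by
    set x : Fin N → ℂ := fun i => algebraMap ℚ ℂ (y (Sum.inl i)) with hx
    set al : Fin 4 → ℂ := fun j => algebraMap ℚ ℂ (y (Sum.inr j)) with hal
    have hy : (algebraMap ℚ ℂ) ∘ y = Sum.elim x al := by
      funext k
      rcases k with i | j <;> rfl
    rw [hy]
    obtain ⟨v, hv⟩ := exists_psum D (fun l => -(∑ i, x i ^ (2 * l)) / 2)
    have hu : ∀ i, ∃ u : ℂ, u ^ 2 = v i := fun i => IsAlgClosed.exists_pow_nat_eq (v i) (by norm_num)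
    choose u hu using hu
    obtain ⟨N', x', h1, h2⟩ := pairs_eval F hp al (List.ofFn u) x
    rw [h1, ← hG N']
    have h3 : ∀ k : Fin D, ∑ i, x' i ^ ((k : ℕ) + 1) =
        if (k : ℕ) % 2 = 0 then ∑ i, x i ^ ((k : ℕ) + 1) else 0 := by
      intro k
      rw [h2, List.map_ofFn, List.sum_ofFn]
      simp only [Function.comp_apply]
      split_ifs with hk
      · have h4 : Odd ((k : ℕ) + 1) := by
          rw [Nat.odd_iff]
          omega
        simp [h4.neg_pow]
      · obtain ⟨l, hl⟩ : ∃ l, (k : ℕ) + 1 = 2 * l := ⟨((k : ℕ) + 1) / 2, by omega⟩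
        have h5 := hv l (by omega) (by have := k.2; omega)
        rw [hl]
        have h6 : ∀ i, u i ^ (2 * l) + (-u i) ^ (2 * l) = 2 * v i ^ l := by
          intro i
          rw [pow_mul, pow_mul, neg_sq, hu]
          ring
        simp only [h6]
        rw [← Finset.mul_sum, h5]
        ring
    have h7 : ∀ g, (aeval (Sum.elim x' al) (ev D N' g) : ℂ) =
        aeval (Sum.elim x al) (evOdd N (sub D g)) := by
      intro g
      have : (aeval (Sum.elim x' al) : Rg N' →ₐ[ℚ] ℂ).comp (ev D N') =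
          ((aeval (Sum.elim x al) : Rg N →ₐ[ℚ] ℂ).comp (evOdd N)).comp (sub D) := by
        apply MvPolynomial.algHom_ext
        rintro (k | j)
        · rw [AlgHom.comp_apply, AlgHom.comp_apply, AlgHom.comp_apply, ev, sub, aeval_X, aeval_X,
            Sum.elim_inl, Sum.elim_inl]
          have h8 : (aeval (Sum.elim x' al) (pw N' ((k : ℕ) + 1)) : ℂ) = ∑ i, x' i ^ ((k : ℕ) + 1) := by
            unfold pw
            simp
          rw [h8, h3]
          split_ifs with hk
          · rw [evOdd, aeval_X, Sum.elim_inl, show 2 * ((k : ℕ) / 2) + 1 = (k : ℕ) + 1 by omega]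
            unfold pw
            simp
          · rw [map_zero, map_zero]
        · rw [AlgHom.comp_apply, AlgHom.comp_apply, AlgHom.comp_apply, ev, sub, aeval_X, aeval_X,
            Sum.elim_inr, Sum.elim_inr, evOdd, aeval_X, Sum.elim_inr, aeval_X, Sum.elim_inr,
            aeval_X, Sum.elim_inr]
      exact congrArg (fun f => f g) this
    exact h7 G
  rw [aeval_algebraMap_apply, aeval_algebraMap_apply] at key
  have h9 := (algebraMap ℚ ℂ).injective key
  exact h9

end fam

/-- Q1 of the problem -/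
theorem main {P : (N : ℕ) → (Fin N → ℕ) → Rg N} (hP : AllHL P) (m : ℕ) :
    ∃ H : MvPolynomial (ℕ ⊕ Fin 4) ℚ, ∀ N, PowerSeries.coeff m (LL P N) =
      aeval (Sum.elim (fun j : ℕ => pw N (2 * j + 1)) (fun j => X (Sum.inr j))) H := by
  refine main_alg (fun N => PowerSeries.coeff m (LL P N)) (2 * m) (fun N s => LL_sym hP s m)
    (fun N => LL_deg hP N m) (fun N => ?_) (fun N => ?_)
  · have := congrArg (PowerSeries.coeff m) (LL_zero hP N)
    rw [PowerSeries.coeff_map] at this
    exact this
  · have := congrArg (PowerSeries.coeff m) (LL_pair hP N)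
    rw [PowerSeries.coeff_map, PowerSeries.coeff_map] at this
    exact this

end Pool.Agent.X3.HL
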