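import Mathlib

/-!
The formal logarithm.
-/

set_option autoImplicit false

namespace Pool.Agent.X3.HL

open PowerSeries

section

variable {A : Type*} [CommRing A] [Algebra ℚ A]

theorem deriv_logOf {f : A⟦X⟧} (hf : constantCoeff f = 1) :
    d⁄dX A (logOf f) * f = d⁄dX A f := by
  have hs : HasSubst (f - 1) := by
    apply HasSubst.of_constantCoeff_zero'
    rw [map_sub, hf, map_one, sub_self]
  rw [logOf_eq, derivative_subst hs, deriv_log, map_sub, derivative_one, sub_zero]
  have h1 : (PowerSeries.mk fun n => algebraMap ℚ A ((-1 : ℚ) ^ n)) * (1 + X) = 1 := by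
    ext n
    rw [mul_add, mul_one, map_add, coeff_mk]
    rcases n with _ | n
    · simp
    · rw [coeff_succ_mul_X, coeff_mk, coeff_one, if_neg (Nat.succ_ne_zero n), ← map_add, pow_succ]
      simp
  have h2 := congrArg (fun g : A⟦X⟧ => g.subst (f - 1)) h1
  rw [subst_mul hs, subst_add hs, subst_X hs] at h2
  have h3 : (1 : A⟦X⟧).subst (f - 1) = (1 : A⟦X⟧) := by
    rw [← coe_substAlgHom (R := A) hs, map_one]
  rw [h3, add_sub_cancel] at h2
  linear_combination (d⁄dX A f) * h2

omit [Algebra ℚ A] in
theorem deriv_map {B : Type*} [CommRing B] (θ : A →+* B) (f : A⟦X⟧) :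
    d⁄dX B (PowerSeries.map θ f) = PowerSeries.map θ (d⁄dX A f) := by
  ext n
  rw [coeff_derivative, coeff_map, coeff_map, coeff_derivative, map_mul, map_add, map_natCast,
    map_one]

variable [IsDomain A] [CharZero A]

theorem log_unique {f L : A⟦X⟧} (hf : constantCoeff f = 1) (hL : constantCoeff L = 0)
    (h : d⁄dX A L * f = d⁄dX A f) : L = logOf f := by
  have h1 := deriv_logOf hf
  have hf0 : f ≠ 0 := by
    rintro rfl
    rw [map_zero] at hf
    exact zero_ne_one hf
  have h2 : d⁄dX A L = d⁄dX A (logOf f) := mul_right_cancel₀ hf0 (h.trans h1.symm)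
  have : IsAddTorsionFree A := inferInstance
  refine derivative.ext h2 ?_
  rw [hL, constantCoeff_logOf hf]

theorem logOf_mul {f g : A⟦X⟧} (hf : constantCoeff f = 1) (hg : constantCoeff g = 1) :
    logOf (f * g) = logOf f + logOf g := by
  symm
  refine log_unique (by rw [map_mul, hf, hg, mul_one])
    (by rw [map_add, constantCoeff_logOf hf, constantCoeff_logOf hg, add_zero]) ?_
  have h1 := deriv_logOf hf
  have h2 := deriv_logOf hg
  rw [map_add, Derivation.leibniz, smul_eq_mul, smul_eq_mul]
  linear_combination g * h1 + f * h2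

theorem map_logOf {B : Type*} [CommRing B] [Algebra ℚ B] (θ : B →+* A) {f : B⟦X⟧}
    (hf : constantCoeff f = 1) :
    PowerSeries.map θ (logOf f) = logOf (PowerSeries.map θ f) := by
  refine log_unique ?_ ?_ ?_
  · rw [← coeff_zero_eq_constantCoeff_apply, coeff_map, coeff_zero_eq_constantCoeff_apply, hf, map_one]
  · rw [← coeff_zero_eq_constantCoeff_apply, coeff_map, coeff_zero_eq_constantCoeff_apply,
      constantCoeff_logOf hf, map_zero]
  · rw [deriv_map, ← map_mul, deriv_logOf hf, deriv_map]

theorem logOf_one_sub (g : A) {k : ℕ} (hk : 0 < k) :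
    logOf (1 - C g * X ^ k) = PowerSeries.mk fun m => if k ∣ m ∧ m ≠ 0 then
      -(algebraMap ℚ A (1 / ((m / k : ℕ) : ℚ)) * g ^ (m / k)) else 0 := by
  symm
  refine log_unique ?_ ?_ ?_
  · rw [map_sub, map_one, map_mul, map_pow, constantCoeff_X, zero_pow hk.ne', mul_zero, sub_zero]
  · rw [← coeff_zero_eq_constantCoeff_apply, coeff_mk, if_neg (fun h => h.2 rfl)]
  · have h1 : d⁄dX A (PowerSeries.mk fun m => if k ∣ m ∧ m ≠ 0 then
        -(algebraMap ℚ A (1 / ((m / k : ℕ) : ℚ)) * g ^ (m / k)) else 0) =
        PowerSeries.mk fun m => if k ∣ m + 1 then -(k * g ^ ((m + 1) / k)) else 0 := by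
      ext m
      rw [coeff_derivative, coeff_mk, coeff_mk]
      by_cases h : k ∣ m + 1
      · rw [if_pos ⟨h, Nat.succ_ne_zero m⟩, if_pos h]
        obtain ⟨q, hq⟩ := h
        have hq0 : 0 < q := by
          rcases Nat.eq_zero_or_pos q with h0 | h0
          · rw [h0] at hq
            omega
          · exact h0
        have h2 : (m + 1) / k = q := by rw [hq, Nat.mul_div_cancel_left _ hk]
        rw [h2]
        have h3 : ((m : A) + 1) = k * q := by exact_mod_cast congrArg (Nat.cast : ℕ → A) hq
        rw [h3]
        have h4 : algebraMap ℚ A (1 / (q : ℚ)) * q = 1 := by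
          have : (q : A) = algebraMap ℚ A (q : ℚ) := by rw [map_natCast]
          rw [this, ← map_mul, one_div, inv_mul_cancel₀ (Nat.cast_ne_zero.2 hq0.ne'), map_one]
        linear_combination (-(g ^ q) * k) * h4
      · rw [if_neg (fun h' => h h'.1), if_neg h, zero_mul]
    rw [h1]
    ext m
    rw [mul_sub, mul_one, map_sub, coeff_mk, mul_comm (C g), ← mul_assoc, coeff_mul_C,
      coeff_mul_X_pow', coeff_derivative, map_sub, coeff_one, if_neg (Nat.succ_ne_zero m),
      coeff_mul_C, coeff_X_pow]
    by_cases h : k ∣ m + 1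
    · rw [if_pos h]
      obtain ⟨q, hq⟩ := h
      have h2 : (m + 1) / k = q := by rw [hq, Nat.mul_div_cancel_left _ hk]
      rw [h2]
      by_cases hkm : k ≤ m
      · rw [if_pos hkm, coeff_mk]
        have hq2 : q ≠ 1 := by
          rintro rfl
          omega
        have hq1 : 1 ≤ q := by
          rcases Nat.eq_zero_or_pos q with h0 | h0
          · rw [h0] at hq
            omega
          · exact h0
        obtain ⟨q', rfl⟩ : ∃ q', q = q' + 1 := ⟨q - 1, by omega⟩
        have h5 : m - k + 1 = k * q' := by
          rw [mul_add, mul_one] at hq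
          omega
        rw [h5, if_pos (dvd_mul_right k q'), Nat.mul_div_cancel_left _ hk, if_neg (by omega)]
        ring
      · rw [if_neg hkm]
        have hq1 : q = 1 := by
          rcases Nat.lt_trichotomy q 1 with h0 | h0 | h0
          · have : q = 0 := by omega
            rw [this] at hq
            omega
          · exact h0
          · have : k * 2 ≤ k * q := Nat.mul_le_mul_left k h0
            omega
        subst hq1
        rw [mul_one] at hq
        rw [if_pos hq]
        have h3 : ((m : A) + 1) = k := by exact_mod_cast congrArg (Nat.cast : ℕ → A) hq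
        rw [h3]
        ring
    · rw [if_neg h, if_neg (show ¬ m + 1 = k from fun h' => h (h' ▸ dvd_refl _))]
      by_cases hkm : k ≤ m
      · rw [if_pos hkm, coeff_mk, if_neg ?_]
        · ring
        · intro h'
          apply h
          have : m + 1 = (m - k + 1) + k := by omega
          rw [this]
          exact dvd_add h' (dvd_refl _)
      · rw [if_neg hkm]
        ring

end

end Pool.Agent.X3.HL
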