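import Pool.Agent.X3.HLW
import Pool.Agent.X3.HLLog

/-!
The transformation properties of the series `L`.
-/

set_option autoImplicit false

namespace Pool.Agent.X3.HL

open MvPolynomial Finset

variable {P : (N : ℕ) → (Fin N → ℕ) → Rg N}

theorem kap_add_two {E : Type*} [CommRing E] (al : Fin 4 → E) (r : ℕ) :
    kap al (r + 2) = kap al r * ((al 0 * al 2) * (al 1 * al 3)) := by
  unfold kap
  rw [prod_range_succ, prod_range_succ, mul_assoc]
  congr 1
  unfold cellIdx
  rcases Nat.mod_two_eq_zero_or_one r with h1 | h1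
  · simp [h1, show (r + 1) % 2 = 1 by omega]
  · simp [h1, show (r + 1) % 2 = 0 by omega]
    ring

theorem kap_zero {E : Type*} [CommRing E] (al : Fin 4 → E) : kap al 0 = 1 := by
  simp [kap]

theorem kap_one {E : Type*} [CommRing E] (al : Fin 4 → E) : kap al 1 = al 0 * al 2 := by
  simp [kap, cellIdx]

/-- first constant -/
noncomputable def g1 (N : ℕ) : Rg (N + 1) := lett (N + 1) 0 * lett (N + 1) 2 * xv 0 ^ 2

/-- second constant -/
noncomputable def g2 (N : ℕ) : Rg (N + 1) :=
  (lett (N + 1) 0 * lett (N + 1) 2) * (lett (N + 1) 1 * lett (N + 1) 3) * xv 0 ^ 4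

theorem phi_mul (N : ℕ) : phi N * (1 - PowerSeries.C (g2 N) * PowerSeries.X ^ 4) =
    1 - PowerSeries.C (g1 N) * PowerSeries.X ^ 2 := by
  ext1 n
  rw [mul_sub, mul_one, mul_comm (PowerSeries.C (g2 N)), mul_comm (PowerSeries.C (g1 N)),
    ← mul_assoc, map_sub, map_sub, PowerSeries.coeff_mul_C, PowerSeries.coeff_mul_C,
    PowerSeries.coeff_mul_X_pow', PowerSeries.coeff_one, PowerSeries.coeff_X_pow]
  unfold phi
  rw [PowerSeries.coeff_mk, PowerSeries.coeff_mk]
  rcases lt_or_ge n 4 with h | h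
  · interval_cases n
    · simp [kap_zero]
    · simp
    · simp [kap_one, g1, lett]
    · simp
  · obtain ⟨m, rfl⟩ : ∃ m, n = m + 4 := ⟨n - 4, by omega⟩
    rw [if_pos h, if_neg (show ¬ m + 4 = 0 by omega), if_neg (show ¬ m + 4 = 2 by omega),
      Nat.add_sub_cancel]
    rcases Nat.mod_two_eq_zero_or_one m with h1 | h1
    · rw [if_pos h1, if_pos (show (m + 4) % 2 = 0 by omega),
        show (m + 4) / 2 = m / 2 + 2 by omega, kap_add_two, g2]
      unfold lett
      ring
    · rw [if_neg (show ¬ (m + 4) % 2 = 0 by omega), if_neg (show ¬ m % 2 = 0 by omega)]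
      ring

theorem const_phi (N : ℕ) : PowerSeries.constantCoeff (phi N) = 1 := by
  rw [← PowerSeries.coeff_zero_eq_constantCoeff_apply]
  unfold phi
  rw [PowerSeries.coeff_mk]
  simp [kap_zero]

theorem logOf_phi (N : ℕ) : PowerSeries.logOf (phi N) =
    PowerSeries.mk fun m => if m % 2 = 0 ∧ m ≠ 0 then
      -(corrCoeff (N + 1) (m / 2) * (2 * xv 0 ^ m)) else 0 := by
  have c1 : PowerSeries.constantCoeff (1 - PowerSeries.C (g2 N) * PowerSeries.X ^ 4) = 1 := by
    simp
  have h1 := logOf_mul (const_phi N) c1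
  rw [phi_mul, logOf_one_sub _ (by norm_num), logOf_one_sub _ (by norm_num)] at h1
  have h2 := (eq_sub_of_add_eq h1.symm)
  rw [h2]
  ext1 m
  rw [map_sub, PowerSeries.coeff_mk, PowerSeries.coeff_mk, PowerSeries.coeff_mk]
  by_cases hm : m % 2 = 0 ∧ m ≠ 0
  · rw [if_pos hm, if_pos ⟨Nat.dvd_of_mod_eq_zero hm.1, hm.2⟩]
    obtain ⟨n, rfl⟩ : ∃ n, m = 2 * n := ⟨m / 2, by omega⟩
    have hn : n ≠ 0 := by
      rintro rfl
      exact hm.2 rfl
    rw [Nat.mul_div_cancel_left _ (by norm_num)]
    unfold corrCoeff g1 g2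
    rcases Nat.mod_two_eq_zero_or_one n with h3 | h3
    · obtain ⟨k, rfl⟩ : ∃ k, n = 2 * k := ⟨n / 2, by omega⟩
      have hk : (k : ℚ) ≠ 0 := Nat.cast_ne_zero.2 (by omega)
      rw [if_neg (show ¬ 2 * k % 2 = 1 by omega), if_pos (show 4 ∣ 2 * (2 * k) ∧ 2 * (2 * k) ≠ 0 from
        ⟨⟨k, by ring⟩, by omega⟩), Nat.mul_div_cancel_left k (by norm_num),
        show 2 * (2 * k) / 4 = k by omega]
      have e1 : algebraMap ℚ (Rg (N + 1)) (1 / ((2 * k : ℕ) : ℚ)) =
          2 * C ((1 : ℚ) / (2 * ((2 * k : ℕ) : ℚ))) := by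
        have : (2 : Rg (N + 1)) = C 2 := by rw [map_ofNat]
        rw [this, ← C_mul, algebraMap_eq]
        congr 1
        push_cast
        field_simp
      have e2 : algebraMap ℚ (Rg (N + 1)) (1 / (k : ℚ)) =
          4 * C ((1 : ℚ) / (2 * ((2 * k : ℕ) : ℚ))) := by
        have : (4 : Rg (N + 1)) = C 4 := by rw [map_ofNat]
        rw [this, ← C_mul, algebraMap_eq]
        congr 1
        push_cast
        field_simp
        norm_num
      rw [e1, e2]
      have e3 : ∀ A B D F U K : Rg (N + 1),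
          -(2 * K * (A * B * U ^ 2) ^ (2 * k)) - -(4 * K * (A * B * (D * F) * U ^ 4) ^ k) =
          -(K * (A ^ k * B ^ k * (A ^ k * B ^ k - 2 * (D ^ k * F ^ k))) * (2 * U ^ (2 * (2 * k)))) := by
        intro A B D F U K
        have e4 : (A * B * U ^ 2) ^ (2 * k) = (A ^ k * B ^ k) ^ 2 * (U ^ k) ^ 4 := by
          rw [mul_pow, mul_pow]
          ring
        have e5 : (A * B * (D * F) * U ^ 4) ^ k = (A ^ k * B ^ k) * (D ^ k * F ^ k) * (U ^ k) ^ 4 := by
          rw [mul_pow, mul_pow, mul_pow, mul_pow]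
          ring
        have e6 : U ^ (2 * (2 * k)) = (U ^ k) ^ 4 := by ring
        rw [e4, e5, e6]
        ring
      exact e3 _ _ _ _ _ _
    · rw [if_pos h3, if_neg (show ¬ (4 ∣ 2 * n ∧ 2 * n ≠ 0) by omega)]
      have hk : (n : ℚ) ≠ 0 := Nat.cast_ne_zero.2 hn
      have e1 : algebraMap ℚ (Rg (N + 1)) (1 / (n : ℚ)) = 2 * C ((1 : ℚ) / (2 * (n : ℚ))) := by
        have : (2 : Rg (N + 1)) = C 2 := by rw [map_ofNat]
        rw [this, ← C_mul, algebraMap_eq]
        congr 1
        field_simp
      rw [e1, mul_pow, mul_pow]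
      ring
  · rw [if_neg hm, if_neg (fun h => hm ⟨Nat.mod_eq_zero_of_dvd h.1, h.2⟩),
      if_neg (fun h => hm ⟨by obtain ⟨q, hq⟩ := h.1; omega, h.2⟩), sub_zero]

theorem map_corrCoeff {N M : ℕ} (f : Rg N →ₐ[ℚ] Rg M)
    (hf : ∀ j, f (X (Sum.inr j)) = X (Sum.inr j)) (n : ℕ) :
    f (corrCoeff N n) = corrCoeff M n := by
  have hC : ∀ q : ℚ, f (C q) = C q := fun q => f.commutes q
  unfold corrCoeff lett
  split_ifs
  · simp only [map_mul, map_pow, hf, hC]
  · simp only [map_mul, map_pow, map_sub, hf, hC, map_ofNat]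

theorem pairHom_pw (N m : ℕ) (hm : m % 2 = 0) :
    pairHom N (pw (N + 1 + 1) m) = 2 * xv 0 ^ m + shiftHom N (pw N m) := by
  have h1 : ∀ M, pw M m = ∑ i : Fin M, xv i ^ m := fun _ => rfl
  rw [h1, h1, map_sum, map_sum, Fin.sum_univ_succ, Fin.sum_univ_succ]
  simp only [map_pow, pairHom_xv, shiftHom_xv, Fin.cons_zero, Fin.cons_succ]
  rw [Even.neg_pow (Nat.even_iff.2 hm)]
  ring

theorem zeroHom_pw (N m : ℕ) (hm : m ≠ 0) : zeroHom N (pw (N + 1) m) = pw N m := by
  have h1 : ∀ M, pw M m = ∑ i : Fin M, xv i ^ m := fun _ => rfl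
  rw [h1, h1, map_sum, Fin.sum_univ_succ]
  simp only [map_pow, zeroHom_xv, Fin.cons_zero, Fin.cons_succ]
  rw [zero_pow hm, zero_add]

theorem corr_pair (N : ℕ) :
    PowerSeries.map (pairHom N : Rg (N + 1 + 1) →+* Rg (N + 1)) (corr (N + 1 + 1)) =
      PowerSeries.map (shiftHom N : Rg N →+* Rg (N + 1)) (corr N) - PowerSeries.logOf (phi N) := by
  rw [logOf_phi]
  ext1 m
  unfold corr
  rw [map_sub, PowerSeries.coeff_map, PowerSeries.coeff_map, PowerSeries.coeff_mk,
    PowerSeries.coeff_mk, PowerSeries.coeff_mk]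
  simp only [RingHom.coe_coe]
  by_cases hm : m % 2 = 0 ∧ m ≠ 0
  · rw [if_pos hm, if_pos hm, if_pos hm, map_mul, map_mul, map_corrCoeff _ (pairHom_inr N),
      map_corrCoeff _ (shiftHom_inr N), pairHom_pw N m hm.1]
    ring
  · rw [if_neg hm, if_neg hm, if_neg hm, map_zero, map_zero, sub_zero]

theorem LL_pair (hP : AllHL P) (N : ℕ) :
    PowerSeries.map (pairHom N : Rg (N + 1 + 1) →+* Rg (N + 1)) (LL P (N + 1 + 1)) =
      PowerSeries.map (shiftHom N : Rg N →+* Rg (N + 1)) (LL P N) := by
  have c1 : PowerSeries.constantCoeff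
      (PowerSeries.map (shiftHom N : Rg N →+* Rg (N + 1)) (wSer P N)) = 1 := by
    rw [← PowerSeries.coeff_zero_eq_constantCoeff_apply, PowerSeries.coeff_map,
      PowerSeries.coeff_zero_eq_constantCoeff_apply, const_wSer hP, map_one]
  unfold LL
  rw [map_add, map_add, map_logOf _ (const_wSer hP _), wSer_pair hP, logOf_mul (const_phi N) c1,
    corr_pair, map_logOf _ (const_wSer hP _)]
  ring

theorem LL_zero (hP : AllHL P) (N : ℕ) :
    PowerSeries.map (zeroHom N : Rg (N + 1) →+* Rg N) (LL P (N + 1)) = LL P N := by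
  unfold LL
  rw [map_add, map_logOf _ (const_wSer hP _), wSer_zero hP]
  congr 1
  ext1 m
  unfold corr
  rw [PowerSeries.coeff_map, PowerSeries.coeff_mk, PowerSeries.coeff_mk]
  simp only [RingHom.coe_coe]
  by_cases hm : m % 2 = 0 ∧ m ≠ 0
  · rw [if_pos hm, if_pos hm, map_mul, map_corrCoeff _ (zeroHom_inr N), zeroHom_pw N m hm.2]
  · rw [if_neg hm, if_neg hm, map_zero]

theorem LL_sym (hP : AllHL P) {N : ℕ} (s : Equiv.Perm (Fin N)) (m : ℕ) :
    W467.Sym.rho s (PowerSeries.coeff m (LL P N)) = PowerSeries.coeff m (LL P N) := by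
  have h1 : PowerSeries.map (W467.Sym.rho (K := ℚ) (τ := Fin 4) s : Rg N →+* Rg N) (wSer P N) =
      wSer P N := by
    ext1 n
    rw [PowerSeries.coeff_map]
    exact rho_coeff_wSer hP s n
  have h2 : PowerSeries.map (W467.Sym.rho (K := ℚ) (τ := Fin 4) s : Rg N →+* Rg N) (LL P N) =
      LL P N := by
    unfold LL
    rw [map_add, map_logOf _ (const_wSer hP _), h1]
    congr 1
    ext1 m
    unfold corr
    rw [PowerSeries.coeff_map, PowerSeries.coeff_mk]
    simp only [RingHom.coe_coe]
    by_cases hm : m % 2 = 0 ∧ m ≠ 0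
    · rw [if_pos hm, map_mul, map_corrCoeff _ (fun j => W467.Sym.rho_inr s j)]
      congr 1
      have h3 : pw N m = ∑ i : Fin N, xv i ^ m := rfl
      rw [h3, map_sum]
      simp only [map_pow]
      refine Fintype.sum_equiv s _ _ fun i => ?_
      rw [xv, W467.Sym.rho_inl]
      rfl
    · rw [if_neg hm, map_zero]
  have h3 := congrArg (PowerSeries.coeff m) h2
  rw [PowerSeries.coeff_map] at h3
  exact h3

theorem corr_deg (N m : ℕ) : (PowerSeries.coeff m (corr N)).totalDegree ≤ 2 * m := by
  unfold corr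
  rw [PowerSeries.coeff_mk]
  split_ifs with hm
  · refine (totalDegree_mul _ _).trans ?_
    have h1 : (pw N m).totalDegree ≤ m := by
      unfold pw
      refine totalDegree_finsetSum_le fun i _ => ?_
      rw [totalDegree_X_pow]
    have hl : ∀ (j : Fin 4) (k : ℕ), (lett N j ^ k).totalDegree ≤ k := by
      intro j k
      unfold lett
      rw [totalDegree_X_pow]
    have h2 : ∀ n, (corrCoeff N n).totalDegree ≤ 2 * n := by
      intro n
      unfold corrCoeff
      split_ifs with h3
      · refine (totalDegree_mul _ _).trans ?_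
        rw [totalDegree_C, zero_add]
        refine (totalDegree_mul _ _).trans ?_
        have := hl 0 n
        have := hl 2 n
        omega
      · refine (totalDegree_mul _ _).trans ?_
        rw [totalDegree_C, zero_add]
        refine (totalDegree_mul _ _).trans ?_
        have a1 := hl 0 (n / 2)
        have a2 := hl 2 (n / 2)
        have a3 := hl 1 (n / 2)
        have a4 := hl 3 (n / 2)
        have b1 := totalDegree_mul (lett N 0 ^ (n / 2)) (lett N 2 ^ (n / 2))
        have b2 := totalDegree_mul (lett N 1 ^ (n / 2)) (lett N 3 ^ (n / 2))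
        have b3 : (2 * (lett N 1 ^ (n / 2) * lett N 3 ^ (n / 2))).totalDegree ≤
            (lett N 1 ^ (n / 2) * lett N 3 ^ (n / 2)).totalDegree := by
          have : (2 : Rg N) = C 2 := by rw [map_ofNat]
          rw [this]
          refine (totalDegree_mul _ _).trans ?_
          rw [totalDegree_C, zero_add]
        have b4 := totalDegree_sub (lett N 0 ^ (n / 2) * lett N 2 ^ (n / 2))
          (2 * (lett N 1 ^ (n / 2) * lett N 3 ^ (n / 2)))
        rw [le_max_iff] at b4
        rcases b4 with b4 | b4 <;> omega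
    have := h2 (m / 2)
    omega
  · rw [totalDegree_zero]
    exact Nat.zero_le _

theorem log_deg (hP : AllHL P) (N m : ℕ) :
    (PowerSeries.coeff m (PowerSeries.logOf (wSer P N))).totalDegree ≤ 2 * m := by
  induction m using Nat.strong_induction_on with
  | _ m ih =>
    rcases m with _ | m
    · rw [PowerSeries.coeff_zero_eq_constantCoeff_apply,
        PowerSeries.constantCoeff_logOf (const_wSer hP N), totalDegree_zero]
    · have h1 := congrArg (PowerSeries.coeff m) (deriv_logOf (const_wSer hP N))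
      rw [PowerSeries.coeff_mul, Finset.Nat.sum_antidiagonal_eq_sum_range_succ_mk,
        Finset.sum_range_succ, PowerSeries.coeff_derivative, PowerSeries.coeff_derivative] at h1
      simp only [Nat.sub_self, PowerSeries.coeff_zero_eq_constantCoeff_apply, const_wSer hP N,
        mul_one] at h1
      have h2 : PowerSeries.coeff (m + 1) (PowerSeries.logOf (wSer P N)) =
          C ((1 : ℚ) / (m + 1)) * (C ((m : ℚ) + 1) * PowerSeries.coeff (m + 1) (wSer P N) -
          ∑ k ∈ range m, PowerSeries.coeff k (PowerSeries.derivative (Rg N)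
            (PowerSeries.logOf (wSer P N))) * PowerSeries.coeff (m - k) (wSer P N)) := by
        have h3 : ((m : Rg N) + 1) = C ((m : ℚ) + 1) := by
          rw [map_add, map_natCast, map_one]
        rw [h3] at h1
        have h4 : (C ((1 : ℚ) / (m + 1)) * C ((m : ℚ) + 1) : Rg N) = 1 := by
          rw [← C_mul, one_div, inv_mul_cancel₀ (by positivity), C_1]
        linear_combination (C ((1 : ℚ) / (m + 1))) * h1 -
          (PowerSeries.coeff (m + 1) (PowerSeries.logOf (wSer P N))) * h4
      rw [h2]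
      refine (totalDegree_mul _ _).trans ?_
      rw [totalDegree_C, zero_add]
      refine (totalDegree_sub _ _).trans (max_le ?_ ?_)
      · refine (totalDegree_mul _ _).trans ?_
        rw [totalDegree_C, zero_add]
        exact deg_coeff_wSer hP (m + 1)
      · refine totalDegree_finsetSum_le fun k hk => ?_
        rw [mem_range] at hk
        refine (totalDegree_mul _ _).trans ?_
        rw [PowerSeries.coeff_derivative]
        have h5 := totalDegree_mul (PowerSeries.coeff (k + 1) (PowerSeries.logOf (wSer P N)))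
          ((k : Rg N) + 1)
        have h6 : ((k : Rg N) + 1).totalDegree = 0 := by
          have : ((k : Rg N) + 1) = C ((k : ℚ) + 1) := by
            rw [map_add, map_natCast, map_one]
          rw [this, totalDegree_C]
        have h7 := ih (k + 1) (by omega)
        have h8 := deg_coeff_wSer hP (N := N) (m - k)
        omega

theorem LL_deg (hP : AllHL P) (N m : ℕ) :
    (PowerSeries.coeff m (LL P N)).totalDegree ≤ 2 * m := by
  unfold LL
  rw [map_add]
  exact (totalDegree_add _ _).trans (max_le (log_deg hP N m) (corr_deg N m))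

end Pool.Agent.X3.HL
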