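import Pool.Agent.X3.HLDef

/-!
Evaluation of the Hall-Littlewood sums at points of a field: behaviour under adding a pair
`u, -u` and under adding a zero.
-/

set_option autoImplicit false

namespace Pool.Agent.X3.HL

open Finset

section num

variable {E : Type*} [Field E]

/-- the factors -/
noncomputable def fac (t : E) {N : ℕ} (c : Fin N → ℕ) (y : Fin N → E) (i j : Fin N) : E :=
  if c j < c i then (y i - t * y j) / (y i - y j) else 1

/-- the term of a rearrangement -/
noncomputable def T (t : E) {N : ℕ} (c : Fin N → ℕ) (y : Fin N → E) : E :=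
  (∏ i, y i ^ c i) * ∏ i, ∏ j, fac t c y i j

theorem T_pair {N : ℕ} (c : Fin N → ℕ) (r s : ℕ) (u : E) (y : Fin N → E)
    (hu : ∀ i, y i ≠ u ∧ y i ≠ -u) :
    T (-1) (Fin.cons r (Fin.cons s c : Fin (N + 1) → ℕ) : Fin (N + 1 + 1) → ℕ)
      (Fin.cons u (Fin.cons (-u) y : Fin (N + 1) → E) : Fin (N + 1 + 1) → E) =
      if r = s then (-1) ^ r * u ^ (2 * r) * T (-1) c y else 0 := by
  unfold T
  by_cases hrs : r = s
  · subst hrs
    rw [if_pos rfl]
    have h1 : ∀ j : Fin N, (fac (-1 : E) (Fin.cons r (Fin.cons r c : Fin (N + 1) → ℕ) :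
        Fin (N + 1 + 1) → ℕ) (Fin.cons u (Fin.cons (-u) y : Fin (N + 1) → E)) 0 j.succ.succ) *
        (fac (-1 : E) (Fin.cons r (Fin.cons r c : Fin (N + 1) → ℕ) :
        Fin (N + 1 + 1) → ℕ) (Fin.cons u (Fin.cons (-u) y : Fin (N + 1) → E)) (Fin.succ 0) j.succ.succ) = 1 := by
      intro j
      unfold fac
      simp only [Fin.cons_zero, Fin.cons_succ]
      obtain ⟨h1, h2⟩ := hu j
      have h3 : u - y j ≠ 0 := sub_ne_zero.2 h1.symm
      have h4 : -u - y j ≠ 0 := sub_ne_zero.2 h2.symm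
      split_ifs
      · field_simp
        ring
      · ring
    have h2 : ∀ i : Fin N, (fac (-1 : E) (Fin.cons r (Fin.cons r c : Fin (N + 1) → ℕ) :
        Fin (N + 1 + 1) → ℕ) (Fin.cons u (Fin.cons (-u) y : Fin (N + 1) → E)) i.succ.succ 0) *
        (fac (-1 : E) (Fin.cons r (Fin.cons r c : Fin (N + 1) → ℕ) :
        Fin (N + 1 + 1) → ℕ) (Fin.cons u (Fin.cons (-u) y : Fin (N + 1) → E)) i.succ.succ (Fin.succ 0)) = 1 := by
      intro i
      unfold fac
      simp only [Fin.cons_zero, Fin.cons_succ]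
      obtain ⟨h1, h2⟩ := hu i
      have h3 : y i - u ≠ 0 := sub_ne_zero.2 h1
      have h4 : y i - -u ≠ 0 := sub_ne_zero.2 h2
      split_ifs
      · field_simp
      · ring
    have h3 : ∀ i j : Fin N, fac (-1 : E) (Fin.cons r (Fin.cons r c : Fin (N + 1) → ℕ) :
        Fin (N + 1 + 1) → ℕ) (Fin.cons u (Fin.cons (-u) y : Fin (N + 1) → E)) i.succ.succ j.succ.succ
        = fac (-1) c y i j := by
      intro i j
      simp [fac, Fin.cons_succ]
    rw [Fin.prod_univ_succ, Fin.prod_univ_succ]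
    rw [Fin.prod_univ_succ (f := fun i : Fin (N + 1 + 1) => ∏ j, fac _ _ _ i j),
      Fin.prod_univ_succ (f := fun i : Fin (N + 1) => ∏ j, fac _ _ _ i.succ j)]
    rw [Fin.prod_univ_succ (f := fun j => fac _ _ _ 0 j),
      Fin.prod_univ_succ (f := fun j : Fin (N + 1) => fac _ _ _ 0 j.succ),
      Fin.prod_univ_succ (f := fun j => fac _ _ _ (Fin.succ 0) j),
      Fin.prod_univ_succ (f := fun j : Fin (N + 1) => fac _ _ _ (Fin.succ 0) j.succ)]
    have h4 : ∀ i : Fin N, ∏ j : Fin (N + 1 + 1), fac (-1 : E) (Fin.cons r (Fin.cons r c : Fin (N + 1) → ℕ) :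
        Fin (N + 1 + 1) → ℕ) (Fin.cons u (Fin.cons (-u) y : Fin (N + 1) → E)) i.succ.succ j =
        ∏ j, fac (-1) c y i j := by
      intro i
      rw [Fin.prod_univ_succ, Fin.prod_univ_succ, ← mul_assoc, h2 i, one_mul]
      exact Finset.prod_congr rfl fun j _ => h3 i j
    simp only [h4]
    have h5 : ∀ (p : Fin (N+1+1)) (q : Fin (N+1+1)), (Fin.cons r (Fin.cons r c : Fin (N + 1) → ℕ) :
        Fin (N + 1 + 1) → ℕ) p = r → (Fin.cons r (Fin.cons r c : Fin (N + 1) → ℕ) :
        Fin (N + 1 + 1) → ℕ) q = r → fac (-1 : E) (Fin.cons r (Fin.cons r c : Fin (N + 1) → ℕ) :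
        Fin (N + 1 + 1) → ℕ) (Fin.cons u (Fin.cons (-u) y : Fin (N + 1) → E)) p q = 1 := by
      intro p q hp hq
      unfold fac
      rw [hp, hq, if_neg (lt_irrefl _)]
    rw [h5 0 0 (by simp) (by simp), h5 0 (Fin.succ 0) (by simp) (by simp),
      h5 (Fin.succ 0) 0 (by simp) (by simp), h5 (Fin.succ 0) (Fin.succ 0) (by simp) (by simp)]
    have h6 := Finset.prod_congr (rfl : (univ : Finset (Fin N)) = univ) (fun j _ => h1 j)
    rw [Finset.prod_mul_distrib, Finset.prod_const_one] at h6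
    simp only [Fin.cons_zero, Fin.cons_succ, one_mul]
    have h7 : ∀ A B C D F : E, A * B = 1 → u ^ r * ((-u) ^ r * F) * (A * (B * D)) =
        (-1) ^ r * u ^ (2 * r) * (F * D) := by
      intro A B C D F hAB
      have h8 : (-u) ^ r = (-1) ^ r * u ^ r := by rw [← mul_pow]; ring
      rw [h8, two_mul, pow_add]
      linear_combination (u ^ r * ((-1) ^ r * u ^ r * F)) * D * hAB
    exact h7 _ _ 0 _ _ h6
  · rw [if_neg hrs]
    refine mul_eq_zero_of_right _ ?_
    rcases lt_or_gt_of_ne hrs with h | h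
    · refine Finset.prod_eq_zero (Finset.mem_univ (Fin.succ 0)) ?_
      refine Finset.prod_eq_zero (Finset.mem_univ 0) ?_
      simp [fac, Fin.cons_zero, h]
    · refine Finset.prod_eq_zero (Finset.mem_univ 0) ?_
      refine Finset.prod_eq_zero (Finset.mem_univ (Fin.succ 0)) ?_
      simp [fac, Fin.cons_zero, h]

theorem T_zero {N : ℕ} (c : Fin N → ℕ) (r : ℕ) (y : Fin N → E) (hu : ∀ i, y i ≠ 0) :
    T (-1) (Fin.cons r c : Fin (N + 1) → ℕ) (Fin.cons 0 y : Fin (N + 1) → E) =
      if r = 0 then T (-1) c y else 0 := by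
  unfold T
  by_cases hr : r = 0
  · subst hr
    rw [if_pos rfl]
    have h1 : ∀ i : Fin N, ∏ j : Fin (N + 1), fac (-1 : E) (Fin.cons 0 c : Fin (N + 1) → ℕ)
        (Fin.cons 0 y : Fin (N + 1) → E) i.succ j = ∏ j, fac (-1) c y i j := by
      intro i
      rw [Fin.prod_univ_succ]
      have h2 : fac (-1 : E) (Fin.cons 0 c : Fin (N + 1) → ℕ)
        (Fin.cons 0 y : Fin (N + 1) → E) i.succ 0 = 1 := by
        unfold fac
        simp only [Fin.cons_zero, Fin.cons_succ]
        have := hu i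
        split_ifs
        · rw [mul_zero, sub_zero, div_self this]
        · rfl
      rw [h2, one_mul]
      exact Finset.prod_congr rfl fun j _ => by simp [fac, Fin.cons_succ]
    rw [Fin.prod_univ_succ, Fin.prod_univ_succ (f := fun i : Fin (N + 1) => ∏ j, fac _ _ _ i j)]
    simp only [h1]
    have h2 : ∏ j : Fin (N + 1), fac (-1 : E) (Fin.cons 0 c : Fin (N + 1) → ℕ)
        (Fin.cons 0 y : Fin (N + 1) → E) 0 j = 1 := by
      refine Finset.prod_eq_one fun j _ => ?_
      unfold fac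
      rw [Fin.cons_zero, if_neg (Nat.not_lt_zero _)]
    rw [h2]
    simp [Fin.cons_zero, Fin.cons_succ]
  · rw [if_neg hr]
    refine mul_eq_zero_of_left ?_ _
    refine Finset.prod_eq_zero (Finset.mem_univ 0) ?_
    simp [Fin.cons_zero, hr]

end num

section weights

variable {E : Type*} [CommRing E]

/-- the number of entries exceeding `j` -/
def cnt {N : ℕ} (j : ℕ) (c : Fin N → ℕ) : ℕ := ∑ i, if j < c i then 1 else 0

theorem cnt_cons {N : ℕ} (j r : ℕ) (c : Fin N → ℕ) :
    cnt j (Fin.cons r c : Fin (N + 1) → ℕ) = (if j < r then 1 else 0) + cnt j c := by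
  unfold cnt
  rw [Fin.sum_univ_succ]
  simp [Fin.cons_zero, Fin.cons_succ]

/-- the weight of a column -/
def colw (al : Fin 4 → E) (j m : ℕ) : E := ∏ i ∈ range m, al (cellIdx i j)

theorem colw_add_two (al : Fin 4 → E) (j m : ℕ) :
    colw al j (1 + (1 + m)) = colw al j m * (al (cellIdx 0 j) * al (cellIdx 1 j)) := by
  have h0 : 1 + (1 + m) = m + 1 + 1 := by ring
  rw [h0]
  unfold colw
  rw [prod_range_succ, prod_range_succ, mul_assoc]
  congr 1
  have h : ∀ i, cellIdx i j = cellIdx (i % 2) j := by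
    intro i
    simp [cellIdx]
  rw [h m, h (m + 1)]
  rcases Nat.mod_two_eq_zero_or_one m with h1 | h1
  · rw [h1, show (m + 1) % 2 = 1 by omega]
  · rw [h1, show (m + 1) % 2 = 0 by omega, mul_comm]

/-- the permutation invariant form of the weight -/
def omB (al : Fin 4 → E) (B : ℕ) {N : ℕ} (c : Fin N → ℕ) : E :=
  ∏ j ∈ range B, colw al j (cnt j c)

theorem omB_mono (al : Fin 4 → E) {B B' : ℕ} (h : B ≤ B') {N : ℕ} (c : Fin N → ℕ)
    (hc : ∀ i, c i ≤ B) : omB al B' c = omB al B c := by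
  unfold omB
  symm
  refine Finset.prod_subset (range_mono h) fun j _ hj => ?_
  have h1 : cnt j c = 0 := by
    unfold cnt
    refine Finset.sum_eq_zero fun i _ => if_neg ?_
    have := hc i
    rw [mem_range, not_lt] at hj
    omega
  rw [h1]
  simp [colw]

/-- the weight of a pair of equal rows -/
def kap (al : Fin 4 → E) (r : ℕ) : E := ∏ j ∈ range r, (al (cellIdx 0 j) * al (cellIdx 1 j))

theorem omB_pair (al : Fin 4 → E) {B r : ℕ} (h : r ≤ B) {N : ℕ} (c : Fin N → ℕ) :
    omB al B (Fin.cons r (Fin.cons r c : Fin (N + 1) → ℕ) : Fin (N + 1 + 1) → ℕ) =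
      kap al r * omB al B c := by
  unfold omB kap
  rw [← Finset.prod_range_mul_prod_Ico _ h, ← Finset.prod_range_mul_prod_Ico (fun j => colw al j (cnt j c)) h,
    ← mul_assoc, ← Finset.prod_mul_distrib]
  congr 1
  · refine Finset.prod_congr rfl fun j hj => ?_
    rw [mem_range] at hj
    rw [cnt_cons, cnt_cons, if_pos hj, colw_add_two, mul_comm]
  · refine Finset.prod_congr rfl fun j hj => ?_
    rw [mem_Ico] at hj
    rw [cnt_cons, cnt_cons, if_neg (by omega), zero_add, zero_add]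

theorem omB_zero (al : Fin 4 → E) {B : ℕ} {N : ℕ} (c : Fin N → ℕ) :
    omB al B (Fin.cons 0 c : Fin (N + 1) → ℕ) = omB al B c := by
  unfold omB
  refine Finset.prod_congr rfl fun j _ => ?_
  rw [cnt_cons, if_neg (Nat.not_lt_zero _), zero_add]

end weights

theorem sum_tuple {M : Type*} [AddCommMonoid M] (N n : ℕ) (F : (Fin (N + 1) → ℕ) → M) :
    ∑ c ∈ Finset.Nat.antidiagonalTuple (N + 1) n, F c =
      ∑ r ∈ range (n + 1), ∑ c ∈ Finset.Nat.antidiagonalTuple N (n - r), F (Fin.cons r c) := by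
  rw [Finset.sum_sigma']
  refine Finset.sum_nbij' (fun c => (⟨c 0, Fin.tail c⟩ : (_ : ℕ) × (Fin N → ℕ)))
    (fun p => Fin.cons p.1 p.2) ?_ ?_ ?_ ?_ ?_
  · intro c hc
    rw [Finset.Nat.mem_antidiagonalTuple, Fin.sum_univ_succ] at hc
    rw [Finset.mem_sigma, mem_range, Finset.Nat.mem_antidiagonalTuple]
    change c 0 < n + 1 ∧ ∑ i : Fin N, c i.succ = n - c 0
    omega
  · rintro ⟨r, c⟩ hc
    rw [Finset.mem_sigma, mem_range, Finset.Nat.mem_antidiagonalTuple] at hc
    rw [Finset.Nat.mem_antidiagonalTuple, Fin.sum_univ_succ]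
    simp only [Fin.cons_zero, Fin.cons_succ]
    simp only at hc
    omega
  · intro c _
    exact Fin.cons_self_tail c
  · rintro ⟨r, c⟩ _
    simp
  · intro c _
    simp [Fin.cons_self_tail]

theorem sum_diag {M : Type*} [AddCommMonoid M] (n : ℕ) (g : ℕ → ℕ → M) :
    ∑ r ∈ range (n + 1), ∑ s ∈ range (n - r + 1), (if r = s then g r (n - r - s) else 0) =
      ∑ i ∈ range (n + 1), if i % 2 = 0 then g (i / 2) (n - i) else 0 := by
  have h1 : ∀ r ∈ range (n + 1), ∑ s ∈ range (n - r + 1), (if r = s then g r (n - r - s) else 0) =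
      if 2 * r ≤ n then g r (n - 2 * r) else 0 := by
    intro r hr
    rw [mem_range] at hr
    rw [Finset.sum_ite_eq]
    by_cases h : 2 * r ≤ n
    · rw [if_pos (by rw [mem_range]; omega), if_pos h]
      congr 1
      omega
    · rw [if_neg (by rw [mem_range]; omega), if_neg h]
  rw [Finset.sum_congr rfl h1, ← Finset.sum_filter, ← Finset.sum_filter]
  refine Finset.sum_nbij' (fun r => 2 * r) (fun i => i / 2) ?_ ?_ ?_ ?_ ?_
  · intro r hr
    simp only [mem_filter, mem_range] at hr ⊢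
    omega
  · intro i hi
    simp only [mem_filter, mem_range] at hi ⊢
    omega
  · intro r _
    omega
  · intro i hi
    simp only [mem_filter, mem_range] at hi ⊢
    omega
  · intro r _
    simp

section field

variable {E : Type*} [Field E]

/-- the sum of the terms of degree `n` -/
noncomputable def SS (al : Fin 4 → E) (N n : ℕ) (y : Fin N → E) : E :=
  ∑ c ∈ Finset.Nat.antidiagonalTuple N n, omB al n c * T (-1) c y

theorem SS_pair (al : Fin 4 → E) (N n : ℕ) (u : E) (y : Fin N → E)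
    (hu : ∀ i, y i ≠ u ∧ y i ≠ -u) :
    SS al (N + 1 + 1) n (Fin.cons u (Fin.cons (-u) y : Fin (N + 1) → E)) =
      ∑ i ∈ range (n + 1), (if i % 2 = 0 then (-1) ^ (i / 2) * kap al (i / 2) * u ^ i else 0) *
        SS al N (n - i) y := by
  unfold SS
  rw [sum_tuple]
  set g : ℕ → ℕ → E := fun r m => (-1) ^ r * kap al r * u ^ (2 * r) *
    ∑ c ∈ Finset.Nat.antidiagonalTuple N m, omB al m c * T (-1) c y with hg
  have h1 : ∀ r ∈ range (n + 1), ∑ c ∈ Finset.Nat.antidiagonalTuple (N + 1) (n - r),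
      omB al n (Fin.cons r c : Fin (N + 1 + 1) → ℕ) * T (-1) (Fin.cons r c : Fin (N + 1 + 1) → ℕ)
        (Fin.cons u (Fin.cons (-u) y : Fin (N + 1) → E)) =
      ∑ s ∈ range (n - r + 1), if r = s then g r (n - r - s) else 0 := by
    intro r hr
    rw [sum_tuple]
    refine Finset.sum_congr rfl fun s hs => ?_
    rw [mem_range] at hr hs
    by_cases h : r = s
    · subst h
      rw [if_pos rfl, hg]
      simp only
      rw [Finset.mul_sum]
      refine Finset.sum_congr rfl fun c hc => ?_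
      rw [T_pair c r r u y hu, if_pos rfl, omB_pair al (by omega)]
      have h2 : omB al n c = omB al (n - r - r) c := by
        refine omB_mono al (by omega) c fun i => ?_
        rw [Finset.Nat.mem_antidiagonalTuple] at hc
        rw [← hc]
        exact Finset.single_le_sum (f := c) (fun _ _ => Nat.zero_le _) (Finset.mem_univ i)
      rw [h2]
      ring
    · rw [if_neg h]
      refine Finset.sum_eq_zero fun c _ => ?_
      rw [T_pair c r s u y hu, if_neg h, mul_zero]
  rw [Finset.sum_congr rfl h1, sum_diag n g]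
  refine Finset.sum_congr rfl fun i _ => ?_
  by_cases h : i % 2 = 0
  · rw [if_pos h, if_pos h]
    have : 2 * (i / 2) = i := by omega
    simp only [hg, this]
  · rw [if_neg h, if_neg h, zero_mul]

theorem SS_zero (al : Fin 4 → E) (N n : ℕ) (y : Fin N → E) (hu : ∀ i, y i ≠ 0) :
    SS al (N + 1) n (Fin.cons 0 y : Fin (N + 1) → E) = SS al N n y := by
  unfold SS
  rw [sum_tuple, Finset.sum_eq_single_of_mem 0 (by simp)]
  · rw [Nat.sub_zero]
    refine Finset.sum_congr rfl fun c _ => ?_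
    rw [T_zero c 0 y hu, if_pos rfl, omB_zero]
  · intro r _ hr
    refine Finset.sum_eq_zero fun c _ => ?_
    rw [T_zero c r y hu, if_neg hr, mul_zero]

end field

end Pool.Agent.X3.HL
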