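import Pool.Agent.X3.HLNum
import Pool.Agent.W467.Sym.Inv

/-!
Existence, uniqueness, symmetry and degree of the Hall-Littlewood polynomials, and their values
under ring homomorphisms to fields.
-/

set_option autoImplicit false

namespace Pool.Agent.X3.HL

open MvPolynomial Finset

section ring

variable {E : Type*} [CommRing E]

theorem prod_pairs {N : ℕ} (f : Fin N → Fin N → E) (hf : ∀ i, f i i = 1) :
    ∏ i, ∏ j, f i j = ∏ i, ∏ j ∈ Ioi i, (f i j * f j i) := by
  have h1 : ∀ i j, f i j = (if i < j then f i j else 1) * (if j < i then f i j else 1) := by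
    intro i j
    rcases lt_trichotomy i j with h | h | h
    · rw [if_pos h, if_neg h.asymm, mul_one]
    · subst h
      rw [if_neg (lt_irrefl _), hf, one_mul]
    · rw [if_pos h, if_neg h.asymm, one_mul]
  have h2 : ∏ i, ∏ j, f i j = (∏ i, ∏ j, if i < j then f i j else 1) *
      ∏ i, ∏ j, if i < j then f j i else 1 := by
    rw [Finset.prod_comm (f := fun i j => if i < j then f j i else 1), ← Finset.prod_mul_distrib]
    refine Finset.prod_congr rfl fun i _ => ?_
    rw [← Finset.prod_mul_distrib]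
    exact Finset.prod_congr rfl fun j _ => h1 i j
  rw [h2, ← Finset.prod_mul_distrib]
  refine Finset.prod_congr rfl fun i _ => ?_
  rw [← Finset.prod_mul_distrib]
  have h3 : (Ioi i) = univ.filter (fun j => i < j) := by
    ext j
    simp
  rw [h3, Finset.prod_filter]
  refine Finset.prod_congr rfl fun j _ => ?_
  split_ifs
  · rfl
  · rw [one_mul]

/-- the numerator factors -/
def gg (t : E) {N : ℕ} (c : Fin N → ℕ) (y : Fin N → E) (i j : Fin N) : E :=
  if c j < c i then t * y j - y i else if c i < c j then y j - t * y i else y j - y i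

/-- the numerator of a term -/
def NN (t : E) {N : ℕ} (c : Fin N → ℕ) (y : Fin N → E) : E :=
  (∏ i, y i ^ c i) * ∏ i, ∏ j ∈ Ioi i, gg t c y i j

/-- the product of the differences -/
def VV {N : ℕ} (y : Fin N → E) : E := ∏ i, ∏ j ∈ Ioi i, (y j - y i)

/-- the symmetric numerator factors -/
def hh (t : E) {N : ℕ} (c : Fin N → ℕ) (y : Fin N → E) (i j : Fin N) : E :=
  if i = j then 1 else if c j < c i then y i - t * y j else y i - y j

/-- the symmetric numerator of a term -/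
def QQ (t : E) {N : ℕ} (c : Fin N → ℕ) (y : Fin N → E) : E :=
  (∏ i, y i ^ c i) * ∏ i, ∏ j, hh t c y i j

theorem QQ_eq (t : E) {N : ℕ} (c : Fin N → ℕ) (y : Fin N → E) :
    QQ t c y = (∏ i : Fin N, ∏ _j ∈ Ioi i, (-1 : E)) * (NN t c y * VV y) := by
  unfold QQ NN VV
  rw [prod_pairs _ (fun i => by simp [hh])]
  have h1 : ∏ i, ∏ j ∈ Ioi i, (hh t c y i j * hh t c y j i) =
      (∏ i : Fin N, ∏ _j ∈ Ioi i, (-1 : E)) * ((∏ i, ∏ j ∈ Ioi i, gg t c y i j) *
        ∏ i, ∏ j ∈ Ioi i, (y j - y i)) := by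
    rw [← Finset.prod_mul_distrib, ← Finset.prod_mul_distrib]
    refine Finset.prod_congr rfl fun i _ => ?_
    rw [← Finset.prod_mul_distrib, ← Finset.prod_mul_distrib]
    refine Finset.prod_congr rfl fun j hj => ?_
    rw [mem_Ioi] at hj
    unfold hh gg
    rw [if_neg hj.ne, if_neg hj.ne']
    rcases lt_trichotomy (c i) (c j) with h | h | h
    · simp only [if_neg h.asymm, if_pos h]
      ring
    · simp only [if_neg (show ¬ c j < c i by omega), if_neg (show ¬ c i < c j by omega)]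
      ring
    · simp only [if_pos h, if_neg h.asymm]
      ring
  rw [h1]
  ring

theorem QQ_perm (t : E) {N : ℕ} (c : Fin N → ℕ) (y : Fin N → E) (s : Equiv.Perm (Fin N)) :
    QQ t c (y ∘ s) = QQ t (c ∘ ⇑s⁻¹) y := by
  unfold QQ
  congr 1
  · refine Fintype.prod_equiv s _ _ fun i => ?_
    simp
  · refine Fintype.prod_equiv s _ _ fun i => ?_
    refine Fintype.prod_equiv s _ _ fun j => ?_
    simp [hh]

theorem map_NN {E' : Type*} [CommRing E'] (f : E →+* E') (t : E) {N : ℕ} (c : Fin N → ℕ)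
    (y : Fin N → E) : f (NN t c y) = NN (f t) c (f ∘ y) := by
  unfold NN gg
  simp only [map_mul, map_prod, map_pow, Function.comp_apply, apply_ite f, map_sub]

theorem map_QQ {E' : Type*} [CommRing E'] (f : E →+* E') (t : E) {N : ℕ} (c : Fin N → ℕ)
    (y : Fin N → E) : f (QQ t c y) = QQ (f t) c (f ∘ y) := by
  unfold QQ hh
  simp only [map_mul, map_prod, map_pow, Function.comp_apply, apply_ite f, map_sub, map_one]

theorem map_VV {E' : Type*} [CommRing E'] (f : E →+* E') {N : ℕ}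
    (y : Fin N → E) : f (VV y) = VV (f ∘ y) := by
  unfold VV
  simp only [map_prod, Function.comp_apply, map_sub]

end ring

section field

variable {E : Type*} [Field E]

theorem VV_ne {N : ℕ} (y : Fin N → E) (hy : Function.Injective y) : VV y ≠ 0 := by
  unfold VV
  rw [Finset.prod_ne_zero_iff]
  intro i _
  rw [Finset.prod_ne_zero_iff]
  intro j hj
  rw [mem_Ioi] at hj
  exact sub_ne_zero.2 fun h => hj.ne' (hy h)

theorem T_mul_VV (t : E) {N : ℕ} (c : Fin N → ℕ) (y : Fin N → E) (hy : Function.Injective y) :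
    T t c y * VV y = NN t c y := by
  unfold T VV NN
  rw [prod_pairs _ (fun i => by simp [fac]), mul_assoc]
  congr 1
  rw [← Finset.prod_mul_distrib]
  refine Finset.prod_congr rfl fun i _ => ?_
  rw [← Finset.prod_mul_distrib]
  refine Finset.prod_congr rfl fun j hj => ?_
  rw [mem_Ioi] at hj
  have h1 : y i - y j ≠ 0 := sub_ne_zero.2 fun h => hj.ne (hy h)
  have h2 : y j - y i ≠ 0 := sub_ne_zero.2 fun h => hj.ne' (hy h)
  unfold fac gg
  rcases lt_trichotomy (c i) (c j) with h | h | h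
  · rw [if_neg h.asymm, if_pos h, if_neg h.asymm, if_pos h, one_mul, div_mul_cancel₀ _ h2]
  · rw [if_neg (by omega), if_neg (by omega), if_neg (by omega), if_neg (by omega)]
    ring
  · rw [if_pos h, if_neg h.asymm, if_pos h, mul_one]
    field_simp
    ring

theorem T_filter (t : E) {N : ℕ} (c : Fin N → ℕ) (y : Fin N → E) :
    (∏ i, y i ^ c i) * ∏ p ∈ univ.filter (fun p : Fin N × Fin N => c p.2 < c p.1),
      (y p.1 - t * y p.2) / (y p.1 - y p.2) = T t c y := by
  unfold T fac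
  rw [Finset.prod_filter, Fintype.prod_prod_type]

end field

/-- the variables -/
noncomputable def xv {N : ℕ} (i : Fin N) : Rg N := X (Sum.inl i)

theorem vdm_eq_VV (N : ℕ) : W467.Sym.vdm ℚ N (Fin 4) = VV (xv (N := N)) := by
  unfold W467.Sym.vdm VV xv
  rw [Matrix.det_vandermonde]

theorem mem_rearr {N : ℕ} (lam c : Fin N → ℕ) :
    c ∈ rearr lam ↔ ∃ s : Equiv.Perm (Fin N), lam ∘ s = c := by
  simp [rearr]

/-- the numerator of the Hall-Littlewood polynomial -/
noncomputable def Num (t : ℚ) {N : ℕ} (lam : Fin N → ℕ) : Rg N :=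
  ∑ c ∈ rearr lam, NN (C t) c xv

theorem xx_inj {N : ℕ} : Function.Injective (xx (N := N)) := by
  intro i j h
  unfold xx at h
  have h1 := IsFractionRing.injective (Rg N) (Fr N) h
  exact Sum.inl_injective (X_injective h1)

theorem hlFrac_eq (t : ℚ) {N : ℕ} (lam : Fin N → ℕ) :
    hlFrac t lam = ∑ c ∈ rearr lam, T (algebraMap ℚ (Fr N) t) c xx := by
  unfold hlFrac
  exact Finset.sum_congr rfl fun c _ => T_filter _ _ _

theorem algebraMap_C (t : ℚ) (N : ℕ) : algebraMap (Rg N) (Fr N) (C t) = algebraMap ℚ (Fr N) t := by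
  rw [IsScalarTower.algebraMap_apply ℚ (Rg N) (Fr N)]
  rfl

theorem isHL_iff (t : ℚ) {N : ℕ} (lam : Fin N → ℕ) (P : Rg N) :
    IsHL t lam P ↔ P * VV xv = Num t lam := by
  unfold IsHL
  have h1 : algebraMap (Rg N) (Fr N) (Num t lam) = hlFrac t lam * VV xx := by
    unfold Num
    rw [hlFrac_eq, Finset.sum_mul, map_sum]
    refine Finset.sum_congr rfl fun c _ => ?_
    rw [T_mul_VV _ _ _ xx_inj, map_NN, algebraMap_C]
    rfl
  have h2 : algebraMap (Rg N) (Fr N) (VV xv) = VV xx := by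
    rw [map_VV]
    rfl
  constructor
  · intro h
    apply IsFractionRing.injective (Rg N) (Fr N)
    rw [map_mul, h, h1, h2]
  · intro h
    have h3 := congrArg (algebraMap (Rg N) (Fr N)) h
    rw [map_mul, h1, h2] at h3
    exact mul_right_cancel₀ (VV_ne _ xx_inj) h3

theorem VV_xv_ne (N : ℕ) : VV (xv (N := N)) ≠ 0 := by
  rw [← vdm_eq_VV]
  exact W467.Sym.vdm_ne_zero

theorem rho_Num (t : ℚ) {N : ℕ} (lam : Fin N → ℕ) (s : Equiv.Perm (Fin N)) :
    W467.Sym.rho s (Num t lam) = (Equiv.Perm.sign s : ℤ) • Num t lam := by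
  set ε : Rg N := ∏ i : Fin N, ∏ _j ∈ Ioi i, (-1 : Rg N) with hε
  have hε0 : ε ≠ 0 := by
    rw [hε, Finset.prod_ne_zero_iff]
    intro i _
    rw [Finset.prod_ne_zero_iff]
    intro j _
    exact neg_ne_zero.2 one_ne_zero
  have h1 : ∑ c ∈ rearr lam, QQ (C t) c xv = ε * (Num t lam * VV xv) := by
    unfold Num
    rw [Finset.sum_mul, Finset.mul_sum]
    exact Finset.sum_congr rfl fun c _ => QQ_eq _ _ _
  have h2 : W467.Sym.rho s (∑ c ∈ rearr lam, QQ (C t) c (xv (N := N))) =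
      ∑ c ∈ rearr lam, QQ (C t) c xv := by
    rw [map_sum]
    have h3 : ∀ c, W467.Sym.rho s (QQ (C t) c (xv (N := N))) = QQ (C t) (c ∘ ⇑s⁻¹) xv := by
      intro c
      have h4 := map_QQ (W467.Sym.rho (K := ℚ) (τ := Fin 4) s : Rg N →+* Rg N) (C t) c xv
      have h5 : ((W467.Sym.rho (K := ℚ) (τ := Fin 4) s : Rg N →+* Rg N) : Rg N → Rg N) ∘ xv =
          xv ∘ s := by
        funext i
        exact W467.Sym.rho_inl s i
      have h6 : (W467.Sym.rho (K := ℚ) (τ := Fin 4) s : Rg N →+* Rg N) (C t) = C t := by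
        simp [W467.Sym.rho]
      rw [h5, h6, QQ_perm] at h4
      exact h4
    rw [Finset.sum_congr rfl fun c _ => h3 c]
    refine Finset.sum_nbij' (fun c => c ∘ ⇑s⁻¹) (fun c => c ∘ s) ?_ ?_ ?_ ?_ ?_
    · intro c hc
      rw [mem_rearr] at hc ⊢
      obtain ⟨r, rfl⟩ := hc
      exact ⟨r * s⁻¹, by funext i; simp⟩
    · intro c hc
      rw [mem_rearr] at hc ⊢
      obtain ⟨r, rfl⟩ := hc
      exact ⟨r * s, by funext i; simp⟩
    · intro c _
      funext i
      simp
    · intro c _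
      funext i
      simp
    · intro c _
      rfl
  rw [h1, map_mul, map_mul, ← vdm_eq_VV, W467.Sym.rho_vdm] at h2
  have h3 : W467.Sym.rho s ε = ε := by
    rw [hε]
    simp only [map_prod, map_neg, map_one]
  rw [h3] at h2
  have h4 := mul_left_cancel₀ hε0 h2
  rcases Int.units_eq_one_or (Equiv.Perm.sign s) with h5 | h5
  · rw [h5] at h4 ⊢
    simp only [Units.val_one, one_smul] at h4 ⊢
    exact mul_right_cancel₀ W467.Sym.vdm_ne_zero h4
  · rw [h5] at h4 ⊢
    simp only [Units.val_neg, Units.val_one, neg_smul, one_smul] at h4 ⊢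
    rw [mul_neg, ← neg_mul] at h4
    exact neg_eq_iff_eq_neg.1 (mul_right_cancel₀ W467.Sym.vdm_ne_zero h4)

theorem exists_isHL (t : ℚ) {N : ℕ} (lam : Fin N → ℕ) : ∃! P : Rg N, IsHL t lam P := by
  obtain ⟨P, hP⟩ := W467.Sym.vdm_dvd (Num t lam) (rho_Num t lam)
  refine ⟨P, ?_, ?_⟩
  · simp only
    rw [isHL_iff, hP, vdm_eq_VV, mul_comm]
  · intro Q hQ
    rw [isHL_iff, hP, vdm_eq_VV, mul_comm] at hQ
    exact mul_left_cancel₀ (VV_xv_ne N) hQ

theorem isHL_sym {t : ℚ} {N : ℕ} {lam : Fin N → ℕ} {P : Rg N} (h : IsHL t lam P) :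
    W467.Sym.IsSym P := by
  rw [isHL_iff] at h
  refine W467.Sym.isSym_of_mul_vdm (P := Num t lam) ?_ (rho_Num t lam)
  rw [← h, vdm_eq_VV, mul_comm]

theorem isHL_eval {t : ℚ} {N : ℕ} {lam : Fin N → ℕ} {P : Rg N} (h : IsHL t lam P)
    {E : Type*} [Field E] (θ : Rg N →+* E) (hθ : Function.Injective (θ ∘ xv)) :
    θ P = ∑ c ∈ rearr lam, T (θ (C t)) c (θ ∘ xv) := by
  rw [isHL_iff] at h
  have h1 := congrArg θ h
  unfold Num at h1
  rw [map_mul, map_VV, map_sum] at h1
  have h2 : ∑ c ∈ rearr lam, θ (NN (C t) c xv) =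
      (∑ c ∈ rearr lam, T (θ (C t)) c (θ ∘ xv)) * VV (θ ∘ xv) := by
    rw [Finset.sum_mul]
    refine Finset.sum_congr rfl fun c _ => ?_
    rw [T_mul_VV _ _ _ hθ, map_NN]
  rw [h2] at h1
  exact mul_right_cancel₀ (VV_ne _ hθ) h1

theorem VV_hom (N : ℕ) : (VV (xv (N := N))).IsHomogeneous (∑ i : Fin N, ∑ _j ∈ Ioi i, 1) := by
  unfold VV
  refine IsHomogeneous.prod _ _ _ fun i _ => ?_
  refine IsHomogeneous.prod _ _ _ fun j _ => ?_
  exact (isHomogeneous_X _ _).sub (isHomogeneous_X _ _)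

theorem NN_hom (t : ℚ) {N : ℕ} (c : Fin N → ℕ) : (NN (C t) c (xv (N := N))).IsHomogeneous
    ((∑ i, c i) + ∑ i : Fin N, ∑ _j ∈ Ioi i, 1) := by
  unfold NN
  refine IsHomogeneous.mul ?_ ?_
  · refine IsHomogeneous.prod _ _ _ fun i _ => ?_
    exact isHomogeneous_X_pow _ _
  · refine IsHomogeneous.prod _ _ _ fun i _ => ?_
    refine IsHomogeneous.prod _ _ _ fun j _ => ?_
    have h0 : ∀ k : Fin N, (C t * xv k : Rg N).IsHomogeneous 1 := by
      intro k
      have := (isHomogeneous_C (Fin N ⊕ Fin 4) t).mul (isHomogeneous_X ℚ (Sum.inl k : Fin N ⊕ Fin 4))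
      rwa [zero_add] at this
    unfold gg
    split_ifs
    · exact (h0 _).sub (isHomogeneous_X _ _)
    · exact (isHomogeneous_X _ _).sub (h0 _)
    · exact (isHomogeneous_X _ _).sub (isHomogeneous_X _ _)

theorem Num_hom (t : ℚ) {N : ℕ} (lam : Fin N → ℕ) : (Num t lam).IsHomogeneous
    ((∑ i, lam i) + ∑ i : Fin N, ∑ _j ∈ Ioi i, 1) := by
  unfold Num
  refine IsHomogeneous.sum _ _ _ fun c hc => ?_
  rw [mem_rearr] at hc
  obtain ⟨s, rfl⟩ := hc
  have h1 := NN_hom t (lam ∘ s)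
  have h2 : ∑ i, (lam ∘ s) i = ∑ i, lam i := Fintype.sum_equiv s _ _ fun i => rfl
  rwa [h2] at h1

theorem isHL_deg {t : ℚ} {N : ℕ} {lam : Fin N → ℕ} {P : Rg N} (h : IsHL t lam P) :
    P.totalDegree ≤ ∑ i, lam i := by
  rw [isHL_iff] at h
  by_cases hP : P = 0
  · rw [hP, totalDegree_zero]
    exact Nat.zero_le _
  have h1 := totalDegree_mul_of_isDomain hP (VV_xv_ne N)
  have h2 := (VV_hom N).totalDegree (VV_xv_ne N)
  have h3 := (Num_hom t lam).totalDegree_le
  rw [h] at h1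
  omega

theorem omega_deg {N : ℕ} (lam : Fin N → ℕ) : (omega lam).totalDegree ≤ ∑ i, lam i := by
  have h1 : (omega lam).IsHomogeneous (∑ i : Fin N, ∑ _j ∈ range (lam i), 1) := by
    unfold omega
    refine IsHomogeneous.prod _ _ _ fun i _ => ?_
    refine IsHomogeneous.prod _ _ _ fun j _ => ?_
    exact isHomogeneous_X _ _
  have h2 := h1.totalDegree_le
  simpa using h2

end Pool.Agent.X3.HL
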