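import Pool.Agent.X3.HLPoly

/-!
The coefficients of the weighted sum of Hall-Littlewood polynomials at `t = -1`.
-/

set_option autoImplicit false

namespace Pool.Agent.X3.HL

open MvPolynomial Finset

theorem cnt_perm {N : ℕ} (j : ℕ) (c : Fin N → ℕ) (s : Equiv.Perm (Fin N)) :
    cnt j (c ∘ s) = cnt j c := by
  unfold cnt
  exact Fintype.sum_equiv s _ _ fun i => rfl

theorem omB_perm {E : Type*} [CommRing E] (al : Fin 4 → E) (B : ℕ) {N : ℕ} (c : Fin N → ℕ)
    (s : Equiv.Perm (Fin N)) : omB al B (c ∘ s) = omB al B c := by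
  unfold omB
  simp only [cnt_perm]

theorem lt_cnt {N : ℕ} (j : ℕ) (c : Fin N → ℕ) (hc : Antitone c) (i : Fin N) :
    j < c i ↔ (i : ℕ) < cnt j c := by
  have h0 : cnt j c = (univ.filter (fun i : Fin N => j < c i)).card := by
    unfold cnt
    rw [Finset.card_filter]
  rw [h0]
  constructor
  · intro h
    have h1 : Finset.Iic i ⊆ univ.filter (fun i : Fin N => j < c i) := by
      intro k hk
      rw [Finset.mem_Iic] at hk
      rw [mem_filter]
      exact ⟨mem_univ _, lt_of_lt_of_le h (hc hk)⟩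
    have h2 := Finset.card_le_card h1
    rw [Fin.card_Iic] at h2
    omega
  · intro h
    by_contra h1
    have h2 : univ.filter (fun i : Fin N => j < c i) ⊆ Finset.Iio i := by
      intro k hk
      rw [mem_filter] at hk
      rw [Finset.mem_Iio]
      by_contra h3
      rw [not_lt] at h3
      have := hc h3
      omega
    have h3 := Finset.card_le_card h2
    rw [Fin.card_Iio] at h3
    omega

theorem cnt_le {N : ℕ} (j : ℕ) (c : Fin N → ℕ) : cnt j c ≤ N := by
  have h0 : cnt j c = (univ.filter (fun i : Fin N => j < c i)).card := by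
    unfold cnt
    rw [Finset.card_filter]
  rw [h0]
  have := Finset.card_le_univ (univ.filter (fun i : Fin N => j < c i))
  rwa [Fintype.card_fin] at this

theorem map_omega {E : Type*} [CommRing E] {N : ℕ} (θ : Rg N →+* E) (lam : Fin N → ℕ)
    (hl : Antitone lam) (B : ℕ) (hB : ∀ i, lam i ≤ B) :
    θ (omega lam) = omB (fun j => θ (X (Sum.inr j))) B lam := by
  unfold omega omB colw
  rw [map_prod]
  have h1 : ∀ i : Fin N, θ (∏ j ∈ range (lam i), X (Sum.inr (cellIdx i j))) =
      ∏ j ∈ range B, if j < lam i then θ (X (Sum.inr (cellIdx i j))) else 1 := by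
    intro i
    rw [map_prod, ← Finset.prod_filter]
    refine Finset.prod_congr ?_ fun _ _ => rfl
    ext j
    rw [mem_filter, mem_range, mem_range]
    have := hB i
    omega
  rw [Finset.prod_congr rfl fun i _ => h1 i, Finset.prod_comm]
  refine Finset.prod_congr rfl fun j _ => ?_
  have h2 : ∀ i : Fin N, (if j < lam i then θ (X (Sum.inr (cellIdx i j))) else 1) =
      if (i : ℕ) < cnt j lam then θ (X (Sum.inr (cellIdx i j))) else 1 := by
    intro i
    simp only [lt_cnt j lam hl i]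
  rw [Finset.prod_congr rfl fun i _ => h2 i,
    Fin.prod_univ_eq_prod_range (fun i => if i < cnt j lam then θ (X (Sum.inr (cellIdx i j))) else 1) N,
    ← Finset.prod_filter]
  refine Finset.prod_congr ?_ fun _ _ => rfl
  ext i
  rw [mem_filter, mem_range, mem_range]
  have := cnt_le j lam
  omega

theorem mem_parts {N n : ℕ} (c : Fin N → ℕ) :
    c ∈ parts N n ↔ ∑ i, c i = n ∧ Antitone c := by
  unfold parts
  rw [mem_filter, Finset.Nat.mem_antidiagonalTuple]

theorem biUnion_parts (N n : ℕ) :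
    (parts N n).biUnion rearr = Finset.Nat.antidiagonalTuple N n := by
  ext c
  rw [Finset.mem_biUnion, Finset.Nat.mem_antidiagonalTuple]
  constructor
  · rintro ⟨lam, h1, h2⟩
    rw [mem_parts] at h1
    rw [mem_rearr] at h2
    obtain ⟨s, rfl⟩ := h2
    rw [← h1.1]
    exact Fintype.sum_equiv s _ _ fun i => rfl
  · intro h
    set σ := Tuple.sort (fun i => OrderDual.toDual (c i)) with hσ
    have h1 : Antitone (c ∘ σ) := by
      have := Tuple.monotone_sort (fun i => OrderDual.toDual (c i))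
      intro i j hij
      exact this hij
    refine ⟨c ∘ σ, ?_, ?_⟩
    · rw [mem_parts]
      refine ⟨?_, h1⟩
      rw [← h]
      exact Fintype.sum_equiv σ _ _ fun i => rfl
    · rw [mem_rearr]
      exact ⟨σ⁻¹, by funext i; simp⟩

theorem disj_parts (N n : ℕ) : (↑(parts N n) : Set (Fin N → ℕ)).PairwiseDisjoint rearr := by
  intro lam hl lam' hl' hne
  rw [Finset.mem_coe, mem_parts] at hl hl'
  rw [Function.onFun, Finset.disjoint_left]
  intro c h1 h2
  rw [mem_rearr] at h1 h2
  obtain ⟨s, hs⟩ := h1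
  obtain ⟨s', hs'⟩ := h2
  apply hne
  have h3 : c ∘ ⇑s⁻¹ = lam := by rw [← hs]; funext i; simp
  have h4 : c ∘ ⇑s'⁻¹ = lam' := by rw [← hs']; funext i; simp
  have h5 : Monotone ((fun i => OrderDual.toDual (c i)) ∘ ⇑s⁻¹) := by
    intro i j hij
    have := hl.2 hij
    rw [← h3] at this
    exact this
  have h6 : Monotone ((fun i => OrderDual.toDual (c i)) ∘ ⇑s'⁻¹) := by
    intro i j hij
    have := hl'.2 hij
    rw [← h4] at this
    exact this
  have h7 := Tuple.unique_monotone h5 h6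
  rw [← h3, ← h4]
  funext i
  exact congrFun h7 i

/-- all `P N lam` are Hall-Littlewood polynomials at `t = -1` -/
def AllHL (P : (N : ℕ) → (Fin N → ℕ) → Rg N) : Prop :=
  ∀ N (lam : Fin N → ℕ), IsHL (-1) lam (P N lam)

variable {P : (N : ℕ) → (Fin N → ℕ) → Rg N}

theorem map_coeff_wSer (hP : AllHL P) {N : ℕ} {E : Type*} [Field E] (θ : Rg N →+* E)
    (hθ : Function.Injective (θ ∘ xv)) (n : ℕ) :
    θ (PowerSeries.coeff n (wSer P N)) = SS (fun j => θ (X (Sum.inr j))) N n (θ ∘ xv) := by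
  unfold wSer SS
  rw [PowerSeries.coeff_mk, map_sum, ← biUnion_parts, Finset.sum_biUnion (disj_parts N n)]
  refine Finset.sum_congr rfl fun lam hl => ?_
  rw [mem_parts] at hl
  have hB : ∀ i, lam i ≤ n := fun i => by
    rw [← hl.1]
    exact Finset.single_le_sum (f := lam) (fun _ _ => Nat.zero_le _) (Finset.mem_univ i)
  rw [map_mul, isHL_eval (hP N lam) θ hθ, map_omega θ lam hl.2 n hB, Finset.mul_sum]
  refine Finset.sum_congr rfl fun c hc => ?_
  rw [mem_rearr] at hc
  obtain ⟨s, rfl⟩ := hc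
  rw [omB_perm]
  have : θ (C (-1)) = -1 := by rw [map_neg, map_one, map_neg, map_one]
  rw [this]

theorem xx_eq {N : ℕ} : (algebraMap (Rg N) (Fr N)) ∘ xv = xx := rfl

theorem const_wSer (hP : AllHL P) (N : ℕ) : PowerSeries.constantCoeff (wSer P N) = 1 := by
  apply IsFractionRing.injective (Rg N) (Fr N)
  rw [← PowerSeries.coeff_zero_eq_constantCoeff_apply, map_coeff_wSer hP (algebraMap (Rg N) (Fr N))
    (by rw [xx_eq]; exact xx_inj)]
  unfold SS
  rw [Finset.Nat.antidiagonalTuple_zero_right, Finset.sum_singleton]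
  simp [omB, T, fac]

theorem rho_omega {N : ℕ} (lam : Fin N → ℕ) (s : Equiv.Perm (Fin N)) :
    W467.Sym.rho s (omega lam) = omega lam := by
  unfold omega
  simp only [map_prod, W467.Sym.rho_inr]

theorem rho_coeff_wSer (hP : AllHL P) {N : ℕ} (s : Equiv.Perm (Fin N)) (n : ℕ) :
    W467.Sym.rho s (PowerSeries.coeff n (wSer P N)) = PowerSeries.coeff n (wSer P N) := by
  unfold wSer
  rw [PowerSeries.coeff_mk, map_sum]
  refine Finset.sum_congr rfl fun lam _ => ?_
  rw [map_mul, rho_omega, isHL_sym (hP N lam) s]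

theorem deg_coeff_wSer (hP : AllHL P) {N : ℕ} (n : ℕ) :
    (PowerSeries.coeff n (wSer P N)).totalDegree ≤ 2 * n := by
  unfold wSer
  rw [PowerSeries.coeff_mk]
  refine totalDegree_finsetSum_le fun lam hl => ?_
  rw [mem_parts] at hl
  have h1 := totalDegree_mul (omega lam) (P N lam)
  have h2 := omega_deg lam
  have h3 := isHL_deg (hP N lam)
  omega

/-- the homomorphism `(x_1, x_2, x_3, …) ↦ (u, -u, x_1, …)`, with `u` the first variable -/
noncomputable def pairHom (N : ℕ) : Rg (N + 1 + 1) →ₐ[ℚ] Rg (N + 1) :=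
  aeval (Sum.elim (Fin.cons (xv 0) (Fin.cons (-xv 0) (fun i : Fin N => xv i.succ) :
    Fin (N + 1) → Rg (N + 1)) : Fin (N + 1 + 1) → Rg (N + 1)) (fun j => X (Sum.inr j)))

/-- the homomorphism `x_i ↦ x_{i+1}` -/
noncomputable def shiftHom (N : ℕ) : Rg N →ₐ[ℚ] Rg (N + 1) :=
  aeval (Sum.elim (fun i : Fin N => xv i.succ) (fun j => X (Sum.inr j)))

/-- the homomorphism `x_1 ↦ 0`, `x_{i+1} ↦ x_i` -/
noncomputable def zeroHom (N : ℕ) : Rg (N + 1) →ₐ[ℚ] Rg N :=
  aeval (Sum.elim (Fin.cons 0 xv : Fin (N + 1) → Rg N) (fun j => X (Sum.inr j)))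

theorem pairHom_xv (N : ℕ) (i : Fin (N + 1 + 1)) : pairHom N (xv i) =
    (Fin.cons (xv 0) (Fin.cons (-xv 0) (fun i : Fin N => xv i.succ) :
    Fin (N + 1) → Rg (N + 1)) : Fin (N + 1 + 1) → Rg (N + 1)) i := by
  unfold pairHom xv
  rw [aeval_X, Sum.elim_inl]

theorem pairHom_inr (N : ℕ) (j : Fin 4) : pairHom N (X (Sum.inr j)) = X (Sum.inr j) := by
  unfold pairHom
  rw [aeval_X, Sum.elim_inr]

theorem shiftHom_xv (N : ℕ) (i : Fin N) : shiftHom N (xv i) = xv i.succ := by
  unfold shiftHom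
  rw [xv, aeval_X, Sum.elim_inl]

theorem shiftHom_inr (N : ℕ) (j : Fin 4) : shiftHom N (X (Sum.inr j)) = X (Sum.inr j) := by
  unfold shiftHom
  rw [aeval_X, Sum.elim_inr]

theorem zeroHom_xv (N : ℕ) (i : Fin (N + 1)) : zeroHom N (xv i) =
    (Fin.cons 0 xv : Fin (N + 1) → Rg N) i := by
  unfold zeroHom
  rw [xv, aeval_X, Sum.elim_inl]

theorem zeroHom_inr (N : ℕ) (j : Fin 4) : zeroHom N (X (Sum.inr j)) = X (Sum.inr j) := by
  unfold zeroHom
  rw [aeval_X, Sum.elim_inr]

theorem xx_ne_neg {N : ℕ} (i j : Fin N) : xx i ≠ -xx j := by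
  intro h
  unfold xx at h
  rw [← map_neg] at h
  have h1 := IsFractionRing.injective (Rg N) (Fr N) h
  have h2 := congrArg (eval fun _ => (1 : ℚ)) h1
  rw [map_neg, eval_X, eval_X] at h2
  norm_num at h2

theorem xx_ne_zero {N : ℕ} (i : Fin N) : xx i ≠ 0 := by
  intro h
  exact xx_ne_neg i i (by rw [h, neg_zero])

/-- the factor of a pair -/
noncomputable def phi (N : ℕ) : PowerSeries (Rg (N + 1)) :=
  PowerSeries.mk fun i => if i % 2 = 0 then
    (-1) ^ (i / 2) * kap (fun j => (X (Sum.inr j) : Rg (N + 1))) (i / 2) * xv 0 ^ i else 0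

theorem map_kap {E E' : Type*} [CommRing E] [CommRing E'] (f : E →+* E') (al : Fin 4 → E) (r : ℕ) :
    f (kap al r) = kap (fun j => f (al j)) r := by
  unfold kap
  simp only [map_prod, map_mul]

theorem wSer_pair (hP : AllHL P) (N : ℕ) :
    PowerSeries.map (pairHom N : Rg (N + 1 + 1) →+* Rg (N + 1)) (wSer P (N + 1 + 1)) =
      phi N * PowerSeries.map (shiftHom N : Rg N →+* Rg (N + 1)) (wSer P N) := by
  ext1 n
  apply IsFractionRing.injective (Rg (N + 1)) (Fr (N + 1))
  rw [PowerSeries.coeff_map, PowerSeries.coeff_mul, Finset.Nat.sum_antidiagonal_eq_sum_range_succ_mk,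
    map_sum]
  have e1 : ((algebraMap (Rg (N + 1)) (Fr (N + 1))).comp
      (pairHom N : Rg (N + 1 + 1) →+* Rg (N + 1))) ∘ xv =
      (Fin.cons (xx 0) (Fin.cons (-xx 0) (fun i : Fin N => xx i.succ) : Fin (N + 1) → Fr (N + 1)) :
        Fin (N + 1 + 1) → Fr (N + 1)) := by
    funext i
    simp only [Function.comp_apply, RingHom.comp_apply, RingHom.coe_coe, pairHom_xv]
    refine Fin.cases ?_ (fun i => ?_) i
    · rfl
    · rw [Fin.cons_succ, Fin.cons_succ]
      refine Fin.cases ?_ (fun i => ?_) i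
      · rw [Fin.cons_zero, Fin.cons_zero, map_neg]
        rfl
      · rfl
  have e2 : ((algebraMap (Rg (N + 1)) (Fr (N + 1))).comp
      (shiftHom N : Rg N →+* Rg (N + 1))) ∘ xv = (fun i : Fin N => xx i.succ) := by
    funext i
    simp only [Function.comp_apply, RingHom.comp_apply, RingHom.coe_coe, shiftHom_xv]
    rfl
  have i2 : Function.Injective (fun i : Fin N => (xx i.succ : Fr (N + 1))) := by
    intro i j h
    exact Fin.succ_injective _ (xx_inj h)
  have i1 : Function.Injective (Fin.cons (xx 0) (Fin.cons (-xx 0) (fun i : Fin N => xx i.succ) :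
      Fin (N + 1) → Fr (N + 1)) : Fin (N + 1 + 1) → Fr (N + 1)) := by
    rw [Fin.cons_injective_iff, Fin.cons_injective_iff]
    refine ⟨?_, ?_, i2⟩
    · rintro ⟨i, hi⟩
      revert hi
      refine Fin.cases ?_ (fun i => ?_) i
      · rw [Fin.cons_zero]
        exact fun h => xx_ne_neg 0 0 h.symm
      · rw [Fin.cons_succ]
        intro h
        exact Fin.succ_ne_zero i (xx_inj h)
    · rintro ⟨i, hi⟩
      exact xx_ne_neg _ _ hi
  have h1 := map_coeff_wSer hP ((algebraMap (Rg (N + 1)) (Fr (N + 1))).comp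
      (pairHom N : Rg (N + 1 + 1) →+* Rg (N + 1))) (by rw [e1]; exact i1) n
  rw [e1, SS_pair _ _ _ _ _ (fun i => ⟨fun h => Fin.succ_ne_zero i (xx_inj h), xx_ne_neg _ _⟩)] at h1
  rw [RingHom.comp_apply] at h1
  rw [h1]
  refine Finset.sum_congr rfl fun i hi => ?_
  have h2 := map_coeff_wSer hP ((algebraMap (Rg (N + 1)) (Fr (N + 1))).comp
      (shiftHom N : Rg N →+* Rg (N + 1))) (by rw [e2]; exact i2) (n - i)
  rw [e2, RingHom.comp_apply] at h2
  rw [map_mul, PowerSeries.coeff_map, h2]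
  have h3 : (fun j => ((algebraMap (Rg (N + 1)) (Fr (N + 1))).comp
      (pairHom N : Rg (N + 1 + 1) →+* Rg (N + 1))) (X (Sum.inr j))) =
      (fun j => algebraMap (Rg (N + 1)) (Fr (N + 1)) (X (Sum.inr j))) := by
    funext j
    simp only [RingHom.comp_apply, RingHom.coe_coe, pairHom_inr]
  have h4 : (fun j => ((algebraMap (Rg (N + 1)) (Fr (N + 1))).comp
      (shiftHom N : Rg N →+* Rg (N + 1))) (X (Sum.inr j))) =
      (fun j => algebraMap (Rg (N + 1)) (Fr (N + 1)) (X (Sum.inr j))) := by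
    funext j
    simp only [RingHom.comp_apply, RingHom.coe_coe, shiftHom_inr]
  rw [h3, h4]
  congr 1
  unfold phi
  rw [PowerSeries.coeff_mk]
  split_ifs
  · rw [map_mul, map_mul, map_pow, map_pow, map_neg, map_one, map_kap]
    rfl
  · rw [map_zero]

theorem wSer_zero (hP : AllHL P) (N : ℕ) :
    PowerSeries.map (zeroHom N : Rg (N + 1) →+* Rg N) (wSer P (N + 1)) = wSer P N := by
  ext1 n
  apply IsFractionRing.injective (Rg N) (Fr N)
  rw [PowerSeries.coeff_map]
  have e1 : ((algebraMap (Rg N) (Fr N)).comp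
      (zeroHom N : Rg (N + 1) →+* Rg N)) ∘ xv =
      (Fin.cons 0 xx : Fin (N + 1) → Fr N) := by
    funext i
    simp only [Function.comp_apply, RingHom.comp_apply, RingHom.coe_coe, zeroHom_xv]
    refine Fin.cases ?_ (fun i => ?_) i
    · rw [Fin.cons_zero, Fin.cons_zero, map_zero]
    · rfl
  have i1 : Function.Injective (Fin.cons 0 xx : Fin (N + 1) → Fr N) := by
    rw [Fin.cons_injective_iff]
    refine ⟨?_, xx_inj⟩
    rintro ⟨i, hi⟩
    exact xx_ne_zero i hi
  have h1 := map_coeff_wSer hP ((algebraMap (Rg N) (Fr N)).comp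
      (zeroHom N : Rg (N + 1) →+* Rg N)) (by rw [e1]; exact i1) n
  rw [e1, SS_zero _ _ _ _ (fun i => xx_ne_zero i), RingHom.comp_apply] at h1
  have h2 := map_coeff_wSer hP (algebraMap (Rg N) (Fr N)) (by rw [xx_eq]; exact xx_inj) n
  rw [xx_eq] at h2
  have h3 : (fun j => ((algebraMap (Rg N) (Fr N)).comp
      (zeroHom N : Rg (N + 1) →+* Rg N)) (X (Sum.inr j))) =
      (fun j => algebraMap (Rg N) (Fr N) (X (Sum.inr j))) := by
    funext j
    simp only [RingHom.comp_apply, RingHom.coe_coe, zeroHom_inr]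
  rw [h3] at h1
  exact h1.trans h2.symm

end Pool.Agent.X3.HL
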