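import Mathlib
import Pool.Agent.X3.NfaCut
import Pool.Agent.X3.NfaNum2
import Pool.Agent.X3.NfaDigits
import Pool.Agent.Y780.Cz.One

/-!
# Automata and the parity words of the 3x+1 map
-/

set_option autoImplicit false

namespace Pool.Agent.X3.NfaCollatz

open Finset Pool.Agent.X3.NfaWords

/-- The 3x+1 map on the integers. -/
def T (x : ℤ) : ℤ := if x % 2 = 0 then x / 2 else (3 * x + 1) / 2

lemma T_eq : T = Pool.Agent.Y780.Cz.T 3 1 := by
  funext x
  simp [T, Pool.Agent.Y780.Cz.T]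

/-- the parities along a trajectory -/
def par (x : ℤ) (i : ℕ) : ZMod 2 := ((T^[i] x : ℤ) : ZMod 2)

lemma par_eq_iff (x y : ℤ) (i j : ℕ) : par x i = par y j ↔ (T^[i] x) % 2 = (T^[j] y) % 2 := by
  unfold par
  rw [ZMod.intCast_eq_intCast_iff]
  exact Iff.rfl

lemma dvd_of_par (m : ℕ) : ∀ a b : ℤ, (∀ i, i < m → (T^[i] a) % 2 = (T^[i] b) % 2) →
    (2 : ℤ) ^ m ∣ a - b := by
  induction m with
  | zero => intro a b _; simp
  | succ m ih =>
    intro a b h
    have h0 := h 0 (by omega)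
    simp only [Function.iterate_zero, id] at h0
    have h1 := ih (T a) (T b) (fun i hi => by
      have := h (i + 1) (by omega)
      rwa [Function.iterate_succ_apply, Function.iterate_succ_apply] at this)
    obtain ⟨c, hc⟩ := h1
    by_cases ha : a % 2 = 0
    · have hb : b % 2 = 0 := by omega
      have e1 : T a = a / 2 := by simp [T, ha]
      have e2 : T b = b / 2 := by simp [T, hb]
      rw [e1, e2] at hc
      refine ⟨c, ?_⟩
      rw [pow_succ]
      have : a - b = 2 * (a / 2 - b / 2) := by omega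
      rw [this, hc]
      ring
    · have hb : ¬ b % 2 = 0 := by omega
      have e1 : T a = (3 * a + 1) / 2 := by simp [T, ha]
      have e2 : T b = (3 * b + 1) / 2 := by simp [T, hb]
      rw [e1, e2] at hc
      have h3 : 3 * (a - b) = 2 ^ (m + 1) * c := by
        rw [pow_succ]
        have : 3 * (a - b) = 2 * ((3 * a + 1) / 2 - (3 * b + 1) / 2) := by omega
        rw [this, hc]
        ring
      have h4 : (2 : ℤ) ^ (m + 1) ∣ 3 * (a - b) := ⟨c, h3⟩
      refine (IsCoprime.pow_left ?_).dvd_of_dvd_mul_left h4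
      exact (Int.isCoprime_iff_gcd_eq_one.2 (by norm_num))

lemma growth (x : ℤ) (n : ℕ) : |((T^[n] x : ℤ) : ℝ)| + 1 ≤ (3 / 2) ^ n * (|(x : ℝ)| + 1) := by
  induction n with
  | zero => simp
  | succ n ih =>
    rw [Function.iterate_succ_apply']
    obtain ⟨y, hy⟩ : ∃ y, y = T^[n] x := ⟨_, rfl⟩
    rw [← hy] at ih ⊢
    have h : |((T y : ℤ) : ℝ)| + 1 ≤ 3 / 2 * (|(y : ℝ)| + 1) := by
      by_cases h : y % 2 = 0
      · have e1 : T y = y / 2 := by simp [T, h]
        have e2 : (2 : ℝ) * ((T y : ℤ) : ℝ) = y := by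
          rw [e1]
          have : 2 * (y / 2) = y := by omega
          exact_mod_cast this
        have e3 : |(y : ℝ)| = 2 * |((T y : ℤ) : ℝ)| := by
          rw [← e2, abs_mul]; norm_num
        have := abs_nonneg ((T y : ℤ) : ℝ)
        linarith
      · have e1 : T y = (3 * y + 1) / 2 := by simp [T, h]
        have e2 : (2 : ℝ) * ((T y : ℤ) : ℝ) = 3 * y + 1 := by
          rw [e1]
          have : 2 * ((3 * y + 1) / 2) = 3 * y + 1 := by omega
          exact_mod_cast this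
        have e3 : 2 * |((T y : ℤ) : ℝ)| ≤ 3 * |(y : ℝ)| + 1 := by
          have h1 : 2 * |((T y : ℤ) : ℝ)| = |3 * (y : ℝ) + 1| := by
            rw [← e2, abs_mul]; norm_num
          rw [h1]
          refine (abs_add_le _ _).trans ?_
          rw [abs_mul, abs_one]
          norm_num
        linarith
    calc |((T y : ℤ) : ℝ)| + 1 ≤ 3 / 2 * (|(y : ℝ)| + 1) := h
      _ ≤ 3 / 2 * ((3 / 2) ^ n * (|(x : ℝ)| + 1)) := mul_le_mul_of_nonneg_left ih (by norm_num)
      _ = _ := by ring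

lemma log32 : Real.log (3 / 2) ≤ 0.585 * Real.log 2 := by
  rw [Real.log_div (by norm_num) (by norm_num)]
  have := Pool.Agent.Y780.Cz.log3_lt
  linarith

/-- no long periodic stretches in the parity word of a trajectory without repetitions -/
theorem noPer {x : ℤ} {N : ℕ} (hx : ∀ i j, i < j → j < N → T^[i] x ≠ T^[j] x) {N₀ : ℕ}
    (hN₀ : 200 * Real.log (|(x : ℝ)| + 3) ≤ N₀) : NoPerTo (par x) 1.6 N₀ N := by
  intro u s v hu hs hv huv
  by_contra hcon
  push Not at hcon
  have hx0 : 0 ≤ |(x : ℝ)| := abs_nonneg _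
  have husR : (0 : ℝ) ≤ (u : ℝ) + s := by positivity
  have husv : u + s < v := by
    have : ((u + s : ℕ) : ℝ) < v := by push_cast; linarith
    exact_mod_cast this
  have h1 : (2 : ℤ) ^ (v - (u + s)) ∣ T^[u + s] x - T^[u] x := by
    apply dvd_of_par
    intro i hi
    rw [← Function.iterate_add_apply, ← Function.iterate_add_apply]
    have := hcon (i + u) (by omega) (by omega)
    rw [par_eq_iff] at this
    have e : i + (u + s) = i + u + s := by ring
    rw [e]
    exact this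
  have h2 : T^[u + s] x - T^[u] x ≠ 0 := by
    rw [sub_ne_zero]
    exact (hx u (u + s) (by omega) (by omega)).symm
  have h3 := Int.le_of_dvd (abs_pos.2 h2) ((dvd_abs _ _).2 h1)
  have h3R : ((2 : ℝ)) ^ (v - (u + s)) ≤ |((T^[u + s] x : ℤ) : ℝ) - ((T^[u] x : ℤ) : ℝ)| := by
    exact_mod_cast h3
  have h4 : |((T^[u + s] x : ℤ) : ℝ) - ((T^[u] x : ℤ) : ℝ)| ≤
      |((T^[u + s] x : ℤ) : ℝ)| + |((T^[u] x : ℤ) : ℝ)| := abs_sub _ _
  have h5 := growth x (u + s)
  have h6 := growth x u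
  have h7 : (3 / 2 : ℝ) ^ u * (|(x : ℝ)| + 1) ≤ (3 / 2) ^ (u + s) * (|(x : ℝ)| + 1) :=
    mul_le_mul_of_nonneg_right (pow_le_pow_right₀ (by norm_num) (by omega)) (by linarith)
  have h8 : (2 : ℝ) ^ (v - (u + s)) ≤ 2 * ((3 / 2) ^ (u + s) * (|(x : ℝ)| + 1)) := by linarith
  have h9 := Real.log_le_log (by positivity) h8
  rw [Real.log_pow, Real.log_mul (by norm_num) (by positivity),
    Real.log_mul (by positivity) (by positivity), Real.log_pow, Nat.cast_sub husv.le] at h9
  push_cast at h9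
  have l2 : (0.6931 : ℝ) < Real.log 2 := by have := Real.log_two_gt_d9; linarith
  have l2' : Real.log 2 < (0.6932 : ℝ) := by have := Real.log_two_lt_d9; linarith
  have l32 := log32
  have h10 : ((u : ℝ) + s) * Real.log (3 / 2) ≤ ((u : ℝ) + s) * (0.585 * Real.log 2) :=
    mul_le_mul_of_nonneg_left l32 husR
  have h11 : Real.log (|(x : ℝ)| + 1) ≤ Real.log (|(x : ℝ)| + 3) :=
    Real.log_le_log (by positivity) (by linarith)
  have h12 : 1 ≤ Real.log (|(x : ℝ)| + 3) := by
    have e1 : Real.log (Real.exp 1) ≤ Real.log (|(x : ℝ)| + 3) := by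
      apply Real.log_le_log (Real.exp_pos _)
      have := Real.exp_one_lt_d9
      linarith
    rwa [Real.log_exp] at e1
  have huR : (N₀ : ℝ) ≤ u := by exact_mod_cast hu
  have hsR : (0 : ℝ) ≤ s := Nat.cast_nonneg _
  have h13 : 1.6 * ((u : ℝ) + s) * Real.log 2 < v * Real.log 2 :=
    mul_lt_mul_of_pos_right huv (by linarith)
  -- `0.015 (u + s) log 2 < log 2 + log (|x| + 1)`
  have h14 : 0.015 * ((u : ℝ) + s) * Real.log 2 < Real.log 2 + Real.log (|(x : ℝ)| + 3) := by
    nlinarith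
  have h15 : 0.015 * (200 * Real.log (|(x : ℝ)| + 3)) * 0.6931 ≤ 0.015 * ((u : ℝ) + s) * Real.log 2 := by
    apply mul_le_mul _ l2.le (by norm_num) (by positivity)
    apply mul_le_mul_of_nonneg_left _ (by norm_num)
    linarith
  nlinarith

/-- number of words of length `N` accepted -/
noncomputable def nac {α σ : Type} (M : NFA α σ) (N : ℕ) : ℕ :=
  {w : List α | w ∈ M.accepts ∧ w.length = N}.ncard

lemma nac_ge {α σ : Type} [Finite α] (M : NFA α σ) (N : ℕ) (W : Finset (List α))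
    (hW : ∀ w ∈ W, w.length = N ∧ w ∈ M.accepts) : W.card ≤ nac M N := by
  have hfin : {w : List α | w ∈ M.accepts ∧ w.length = N}.Finite :=
    (List.finite_length_eq α N).subset fun w hw => hw.2
  have : ((W : Set (List α))).ncard ≤ {w : List α | w ∈ M.accepts ∧ w.length = N}.ncard :=
    Set.ncard_le_ncard (fun w hw => ⟨(hW w hw).2, (hW w hw).1⟩) hfin
  rwa [Set.ncard_coe_finset] at this

lemma nac_le_one {α σ : Type} [Finite α] (M : NFA α σ) (N : ℕ) (w0 : List α)
    (h : ∀ w ∈ M.accepts, w.length = N → w = w0) : nac M N ≤ 1 := by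
  unfold nac
  rw [Set.ncard_le_one_iff ((List.finite_length_eq α N).subset fun w hw => hw.2)]
  intro u v hu hv
  rw [h u hu.1 hu.2, h v hv.1 hv.2]

lemma one_le_nac {α σ : Type} [Finite α] (M : NFA α σ) (N : ℕ) (w : ℕ → α)
    (h : (List.range N).map w ∈ M.accepts) : 1 ≤ nac M N := by
  classical
  have := nac_ge M N {(List.range N).map w} (fun v hv => by
    rw [Finset.mem_singleton] at hv
    subst hv
    exact ⟨by simp, h⟩)
  simpa using this

lemma card_pos' {α σ : Type} [Fintype σ] {M : NFA α σ} {w : List α} (hacc : w ∈ M.accepts) :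
    1 ≤ Fintype.card σ := by
  rw [NFA.accepts_iff_exists_path] at hacc
  obtain ⟨s, -⟩ := hacc
  exact Fintype.card_pos_iff.2 ⟨s⟩

/-- the places where `w` differs from the (rotated) parity word of `y` -/
def errs (y : ℤ) (c N : ℕ) (w : ℕ → ZMod 2) : Finset ℕ :=
  (range N).filter fun i => w i ≠ par y ((i + c) % N)

lemma one_le_h (y : ℤ) : 1 ≤ Real.log (|(y : ℝ)| + 3) := by
  have e1 : Real.log (Real.exp 1) ≤ Real.log (|(y : ℝ)| + 3) := by
    apply Real.log_le_log (Real.exp_pos _)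
    have := Real.exp_one_lt_d9
    have := abs_nonneg (y : ℝ)
    linarith
  rwa [Real.log_exp] at e1

/-- the parametric form -/
theorem core : ∃ C : ℝ, 4 ≤ C ∧ ∀ (y : ℤ) (c N : ℕ), c ≤ N →
    (∀ i j, i < j → j < N → T^[i] y ≠ T^[j] y) →
    ∀ (σ : Type) [Fintype σ] (M : NFA (ZMod 2) σ) (w : ℕ → ZMod 2),
      (List.range N).map w ∈ M.accepts → ∀ K : ℕ, 1 ≤ K →
      C ^ (K + (errs y c N w).card) * Real.log (|(y : ℝ)| + 3) ≤ N →
      ((N : ℝ) / (C ^ (K + (errs y c N w).card) * (Fintype.card σ : ℝ))) ^ K ≤ N * (nac M N : ℝ) := by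
  obtain ⟨C₀, hC₀, h⟩ := many_cut (ρ := 1.6) (by norm_num)
  refine ⟨201 * C₀, by linarith, ?_⟩
  intro y c N hc hy σ _ M w hacc K hK hN
  obtain ⟨E, hE⟩ : ∃ E, E = errs y c N w := ⟨_, rfl⟩
  rw [← hE] at hN ⊢
  have hh := one_le_h y
  obtain ⟨H, hH⟩ : ∃ H, H = Real.log (|(y : ℝ)| + 3) := ⟨_, rfl⟩
  rw [← hH] at hN hh
  obtain ⟨N₀, hN₀⟩ : ∃ N₀ : ℕ, N₀ = ⌈200 * H⌉₊ := ⟨_, rfl⟩
  have h1 : 200 * H ≤ N₀ := by rw [hN₀]; exact Nat.le_ceil _
  have h2 : (N₀ : ℝ) ≤ 201 * H := by
    have : (N₀ : ℝ) < 200 * H + 1 := by rw [hN₀]; exact Nat.ceil_lt_add_one (by positivity)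
    linarith
  have h3 : 1 ≤ N₀ := by
    have : (1 : ℝ) ≤ N₀ := by linarith
    exact_mod_cast this
  have hq := card_pos' hacc
  have hqR : (1 : ℝ) ≤ Fintype.card σ := by exact_mod_cast hq
  have h4 : C₀ ^ (K + E.card) * 201 ≤ (201 * C₀) ^ (K + E.card) := by
    rw [mul_pow, mul_comm]
    refine mul_le_mul_of_nonneg_right ?_ (by positivity)
    calc (201 : ℝ) = 201 ^ 1 := (pow_one _).symm
      _ ≤ _ := pow_le_pow_right₀ (by norm_num) (by omega)
  have h5 : C₀ ^ (K + E.card) * N₀ ≤ N := by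
    have a1 : C₀ ^ (K + E.card) * N₀ ≤ C₀ ^ (K + E.card) * (201 * H) :=
      mul_le_mul_of_nonneg_left h2 (by positivity)
    have a2 : C₀ ^ (K + E.card) * 201 * H ≤ (201 * C₀) ^ (K + E.card) * H :=
      mul_le_mul_of_nonneg_right h4 (by linarith)
    linarith
  obtain ⟨W, hW1, hW2⟩ := h (ZMod 2) σ (par y) N₀ N h3 (noPer hy (by rw [← hH]; exact h1)) w M c hc
    (by simpa [seg, List.range_eq_range'] using hacc) E (by
      intro i hi hn
      by_contra hne
      exact hn (by rw [hE]; exact mem_filter.2 ⟨mem_range.2 hi, hne⟩)) K hK h5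
  have h6 : (W.card : ℝ) ≤ nac M N := by exact_mod_cast nac_ge M N W hW1
  have h7 : (N : ℝ) / ((201 * C₀) ^ (K + E.card) * (Fintype.card σ : ℝ)) ≤
      (N : ℝ) / (C₀ ^ (K + E.card) * (Fintype.card σ : ℝ)) := by
    apply div_le_div_of_nonneg_left (Nat.cast_nonneg _) (by positivity)
    apply mul_le_mul_of_nonneg_right _ (by linarith)
    exact pow_le_pow_left₀ (by linarith) (by linarith) _
  calc _ ≤ ((N : ℝ) / (C₀ ^ (K + E.card) * (Fintype.card σ : ℝ))) ^ K :=
        pow_le_pow_left₀ (by positivity) h7 _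
    _ ≤ N * W.card := hW2
    _ ≤ _ := mul_le_mul_of_nonneg_left h6 (Nat.cast_nonneg _)

/-- number of states, general form -/
theorem states : ∃ C : ℝ, 0 < C ∧ ∀ (y : ℤ) (c N : ℕ), c ≤ N →
    (∀ i j, i < j → j < N → T^[i] y ≠ T^[j] y) →
    ∀ (σ : Type) [Fintype σ] (M : NFA (ZMod 2) σ) (w : ℕ → ZMod 2),
      (∀ i, i < N → w i = par y ((i + c) % N)) →
      (List.range N).map w ∈ M.accepts →
      (∀ v ∈ M.accepts, v.length = N → v = (List.range N).map w) →
      (N : ℝ) / Real.log (|(y : ℝ)| + 3) * Real.exp (-(C * Real.sqrt (Real.log N))) ≤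
        Fintype.card σ := by
  obtain ⟨C, hC, h⟩ := core
  have hlC : 0 < Real.log C := Real.log_pos (by linarith)
  refine ⟨1 + 2 * Real.log C, by positivity, ?_⟩
  intro y c N hc hy σ _ M w hw hacc huniq
  have he : (errs y c N w).card = 0 := by
    rw [card_eq_zero]
    unfold errs
    rw [filter_eq_empty_iff]
    intro i hi
    rw [mem_range] at hi
    exact not_not.2 (hw i hi)
  refine num_states2 hC (one_le_h y) (card_pos' hacc) (fun K hK hKN => ?_)
  have h1 := h y c N hc hy σ M w hacc K hK (by rw [he, Nat.add_zero]; exact hKN)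
  rw [he, Nat.add_zero] at h1
  have h2 : (nac M N : ℝ) ≤ 1 := by exact_mod_cast nac_le_one M N _ huniq
  refine h1.trans ?_
  have : (0 : ℝ) ≤ N := Nat.cast_nonneg _
  nlinarith

/-- many words, general form -/
theorem words (δ : ℝ) (hδ : 0 < δ) (hδ1 : δ ≤ 1) : ∃ c₀ : ℝ, 0 < c₀ ∧ ∃ N₁ : ℕ,
    ∀ (y : ℤ) (c N : ℕ), c ≤ N → N₁ ≤ N → (∀ i j, i < j → j < N → T^[i] y ≠ T^[j] y) →
    Real.log (|(y : ℝ)| + 3) ≤ (N : ℝ) ^ (1 / 2 : ℝ) →
    ∀ (σ : Type) [Fintype σ] (M : NFA (ZMod 2) σ), (Fintype.card σ : ℝ) ≤ (N : ℝ) ^ (1 - δ) →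
    ∀ w : ℕ → ZMod 2, ((errs y c N w).card : ℝ) ≤ c₀ * Real.log N →
      (List.range N).map w ∈ M.accepts → Real.exp (c₀ * Real.log N ^ 2) ≤ nac M N := by
  obtain ⟨C, hC, h⟩ := core
  obtain ⟨c₀, hc₀, N₁, hnum⟩ := num_words2 hC hδ hδ1
  refine ⟨c₀, hc₀, N₁, ?_⟩
  intro y c N hc hN hy hyN σ _ M hq w hk hacc
  exact hnum N (Fintype.card σ) _ hN (card_pos' hacc) hq hk (nac M N) _
    (by exact_mod_cast one_le_nac M N w hacc) (one_le_h y) hyN
    (fun K hK hKN => h y c N hc hy σ M w hacc K hK hKN)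

/-- a cycle contains a small element -/
lemma small_elt {x : ℤ} {N : ℕ} (hN : 1 ≤ N) (hx : Function.minimalPeriod T x = N) :
    ∃ j, j < N ∧ Real.log (|((T^[j] x : ℤ) : ℝ)| + 3) ≤ 240 * (1 + Real.log N) := by
  have hper : T^[N] x = x := by
    rw [← hx]; exact Function.iterate_minimalPeriod
  have hNR : (1 : ℝ) ≤ N := by exact_mod_cast hN
  have hL : 0 ≤ Real.log N := Real.log_nonneg hNR
  obtain ⟨κ, hκ⟩ : ∃ κ : ℝ, κ = 204800 / 117649 := ⟨_, rfl⟩
  have hκ1 : 1 < κ := by rw [hκ]; norm_num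
  have hlκ : 0.54 ≤ Real.log κ := by
    have h1 : (2 : ℝ) ^ 11 ≤ κ ^ 14 := by rw [hκ]; norm_num
    have h2 := Real.log_le_log (by positivity) h1
    rw [Real.log_pow, Real.log_pow] at h2
    push_cast at h2
    have := Real.log_two_gt_d9
    linarith
  have hl49 : Real.log 49 ≤ 3.91 := by
    have h1 : (49 : ℝ) ^ 25 ≤ 2 ^ 141 := by norm_num
    have h2 := Real.log_le_log (by positivity) h1
    rw [Real.log_pow, Real.log_pow] at h2
    push_cast at h2
    have := Real.log_two_lt_d9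
    linarith
  have hl49' : 0 ≤ Real.log 49 := Real.log_nonneg (by norm_num)
  obtain ⟨r, hr⟩ : ∃ r : ℕ, r = ⌈(Real.log 49 + Real.log N) / Real.log κ⌉₊ := ⟨_, rfl⟩
  have hlκ0 : 0 < Real.log κ := by linarith
  have hr1 : (Real.log 49 + Real.log N) / Real.log κ ≤ r := by rw [hr]; exact Nat.le_ceil _
  have hr2 : (r : ℝ) < (Real.log 49 + Real.log N) / Real.log κ + 1 := by
    rw [hr]; exact Nat.ceil_lt_add_one (by positivity)
  have hr3 : (Real.log 49 + Real.log N) / Real.log κ ≤ 1.86 * (3.91 + Real.log N) := by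
    rw [div_le_iff₀ hlκ0]
    have h1 : 1.86 * (3.91 + Real.log N) * 0.54 ≤ 1.86 * (3.91 + Real.log N) * Real.log κ :=
      mul_le_mul_of_nonneg_left hlκ (by positivity)
    linarith
  have hr4 : 49 * (N : ℝ) ≤ κ ^ r := by
    rw [← Real.log_le_log_iff (by positivity) (by positivity), Real.log_pow,
      Real.log_mul (by norm_num) (by positivity)]
    rwa [div_le_iff₀ hlκ0] at hr1
  obtain ⟨i, hi⟩ := Pool.Agent.Y780.Cz.poly_small x N r hN (by rw [← T_eq]; exact hper)
    (by rw [← hκ]; exact hr4)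
  rw [← T_eq] at hi
  refine ⟨i % N, Nat.mod_lt _ hN, ?_⟩
  have e : T^[i % N] x = T^[i] x := by
    rw [← hx]; exact Function.iterate_mod_minimalPeriod_eq
  rw [e]
  have h1 : |((T^[i] x : ℤ) : ℝ)| + 3 ≤ 2 ^ (15 + 40 * r) := by
    have e2 : (2 : ℝ) ^ (15 + 40 * r) = 4 * 2 ^ (13 + 40 * r) := by
      rw [show 15 + 40 * r = (13 + 40 * r) + 2 by ring, pow_add]; norm_num; ring
    have e3 : (1 : ℝ) ≤ 2 ^ (13 + 40 * r) := one_le_pow₀ (by norm_num)
    rw [e2]
    linarith
  have h2 := Real.log_le_log (by positivity) h1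
  rw [Real.log_pow] at h2
  push_cast at h2
  have l2 := Real.log_two_lt_d9
  have l2' := Real.log_two_gt_d9
  have hr0 : (0 : ℝ) ≤ r := Nat.cast_nonneg _
  have h3 : (15 + 40 * (r : ℝ)) * Real.log 2 ≤ (15 + 40 * (1.86 * (3.91 + Real.log N) + 1)) * 0.6932 := by
    apply mul_le_mul _ (by linarith) (by linarith) (by positivity)
    linarith
  refine h2.trans (h3.trans ?_)
  linarith

/-- the parity word of a cycle is a rotation of the parity word of its small element -/
lemma cycle_data {x : ℤ} {N : ℕ} (hN : 1 ≤ N) (hx : Function.minimalPeriod T x = N) :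
    ∃ (y : ℤ) (c : ℕ), c ≤ N ∧ (∀ i j, i < j → j < N → T^[i] y ≠ T^[j] y) ∧
      Real.log (|(y : ℝ)| + 3) ≤ 240 * (1 + Real.log N) ∧ ∀ i, par x i = par y ((i + c) % N) := by
  obtain ⟨j, hj, hlog⟩ := small_elt hN hx
  have hper : x ∈ Function.periodicPts T := by
    apply Function.minimalPeriod_pos_iff_mem_periodicPts.1
    omega
  have hy : Function.minimalPeriod T (T^[j] x) = N := by
    rw [Function.minimalPeriod_apply_iterate hper, hx]
  refine ⟨T^[j] x, N - j, by omega, ?_, hlog, ?_⟩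
  · intro i k hik hk he
    have := Function.iterate_injOn_Iio_minimalPeriod (f := T) (x := T^[j] x)
      (show i ∈ Set.Iio _ by rw [hy]; exact lt_trans hik hk)
      (show k ∈ Set.Iio _ by rw [hy]; exact hk) he
    omega
  · intro i
    unfold par
    congr 1
    have e1 : T^[(i + (N - j)) % N] (T^[j] x) = T^[i + (N - j)] (T^[j] x) := by
      conv_lhs => rw [← hy]
      rw [hy]
      have := Function.iterate_mod_minimalPeriod_eq (f := T) (x := T^[j] x) (n := i + (N - j))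
      rwa [hy] at this
    rw [e1, ← Function.iterate_add_apply]
    have e2 : i + (N - j) + j = i + N := by omega
    rw [e2, Function.iterate_add_apply]
    have : T^[N] x = x := by rw [← hx]; exact Function.iterate_minimalPeriod
    rw [this]

end Pool.Agent.X3.NfaCollatz
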