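import Pool.Agent.X3.RWDef

/-!
Complex analysis: derivatives of the products of generating functions.
-/

set_option autoImplicit false

namespace Pool.Agent.X3.RW

open Finset Filter Topology

/-- the functional of a row -/
noncomputable def Lf (ρ : ℂ × ℕ) (f : ℂ → ℂ) : ℂ := iteratedDeriv ρ.2 f ρ.1

/-- the punctured open unit disc -/
def UU : Set ℂ := {s | s ≠ 0 ∧ ‖s‖ < 1}

theorem isOpen_UU : IsOpen UU := by
  have h1 : IsOpen {s : ℂ | s ≠ 0} := isOpen_ne
  have h2 : IsOpen {s : ℂ | ‖s‖ < 1} := isOpen_lt continuous_norm continuous_const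
  exact h1.inter h2

/-- admissible row indices -/
def Adm (ρ : ℂ × ℕ) : Prop := ρ.1 ≠ 0 ∧ ‖ρ.1‖ ≤ 1 ∧ (‖ρ.1‖ = 1 → ρ.2 = 0)

theorem Adm.mem {ρ : ℂ × ℕ} (h : Adm ρ) : ρ.2 = 0 ∨ ρ.1 ∈ UU := by
  rcases lt_or_eq_of_le h.2.1 with h1 | h1
  · exact Or.inr ⟨h.1, h1⟩
  · exact Or.inl (h.2.2 h1)

/-- functions for which the functional is additive -/
def Good (ρ : ℂ × ℕ) (f : ℂ → ℂ) : Prop := ρ.2 = 0 ∨ AnalyticAt ℂ f ρ.1

theorem good_of_diff {ρ : ℂ × ℕ} (h : Adm ρ) {f : ℂ → ℂ} (hf : DifferentiableOn ℂ f UU) :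
    Good ρ f := by
  rcases h.mem with h1 | h1
  · exact Or.inl h1
  · exact Or.inr (hf.analyticAt (isOpen_UU.mem_nhds h1))

theorem Lf_add {ρ : ℂ × ℕ} {f g : ℂ → ℂ} (hf : Good ρ f) (hg : Good ρ g) :
    Lf ρ (fun s => f s + g s) = Lf ρ f + Lf ρ g := by
  unfold Lf
  rcases hf with h | hf
  · rw [h, iteratedDeriv_zero, iteratedDeriv_zero, iteratedDeriv_zero]
  · rcases hg with h | hg
    · rw [h, iteratedDeriv_zero, iteratedDeriv_zero, iteratedDeriv_zero]
    · exact iteratedDeriv_fun_add hf.contDiffAt hg.contDiffAt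

theorem Lf_const_mul (ρ : ℂ × ℕ) (c : ℂ) (f : ℂ → ℂ) : Lf ρ (fun s => c * f s) = c * Lf ρ f := by
  unfold Lf
  exact iteratedDeriv_const_mul_field c f

theorem good_const_mul {ρ : ℂ × ℕ} {f : ℂ → ℂ} (c : ℂ) (hf : Good ρ f) :
    Good ρ (fun s => c * f s) := by
  rcases hf with h | hf
  · exact Or.inl h
  · exact Or.inr (analyticAt_const.mul hf)

theorem good_sum {ρ : ℂ × ℕ} {ι : Type*} (S : Finset ι) (f : ι → ℂ → ℂ) (hf : ∀ i ∈ S, Good ρ (f i)) :
    Good ρ (fun s => ∑ i ∈ S, f i s) := by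
  by_cases h0 : ρ.2 = 0
  · exact Or.inl h0
  · exact Or.inr (Finset.analyticAt_fun_sum S fun i hi => (hf i hi).resolve_left h0)

theorem Lf_sum {ρ : ℂ × ℕ} {ι : Type*} (S : Finset ι) (f : ι → ℂ → ℂ) (hf : ∀ i ∈ S, Good ρ (f i)) :
    Lf ρ (fun s => ∑ i ∈ S, f i s) = ∑ i ∈ S, Lf ρ (f i) := by
  classical
  induction S using Finset.induction_on with
  | empty =>
    simp only [Finset.sum_empty]
    have := Lf_const_mul ρ 0 (fun _ => 0)
    simpa using this
  | insert a S ha ih =>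
    simp only [Finset.sum_insert ha]
    rw [Lf_add (hf a (Finset.mem_insert_self a S))
      (good_sum S f fun i hi => hf i (Finset.mem_insert_of_mem hi)),
      ih fun i hi => hf i (Finset.mem_insert_of_mem hi)]

theorem Lf_congr {ρ : ℂ × ℕ} (h0 : ρ.1 ≠ 0) {f g : ℂ → ℂ} (h : ∀ s, s ≠ 0 → f s = g s) :
    Lf ρ f = Lf ρ g := by
  unfold Lf
  apply Filter.EventuallyEq.iteratedDeriv_eq
  filter_upwards [isOpen_ne.mem_nhds h0] with s hs using h s hs

theorem good_congr {ρ : ℂ × ℕ} (h0 : ρ.1 ≠ 0) {f g : ℂ → ℂ} (h : ∀ s, s ≠ 0 → f s = g s)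
    (hf : Good ρ f) : Good ρ g := by
  rcases hf with h1 | hf
  · exact Or.inl h1
  · refine Or.inr (hf.congr ?_)
    filter_upwards [isOpen_ne.mem_nhds h0] with s hs using h s hs

theorem tlu_iterate {F : ℕ → ℂ → ℂ} {f : ℂ → ℂ} (h : TendstoLocallyUniformlyOn F f atTop UU)
    (hF : ∀ n, DifferentiableOn ℂ (F n) UU) (t : ℕ) :
    TendstoLocallyUniformlyOn (fun n => iteratedDeriv t (F n)) (iteratedDeriv t f) atTop UU ∧
      ∀ n, DifferentiableOn ℂ (iteratedDeriv t (F n)) UU := by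
  induction t with
  | zero =>
    simp only [iteratedDeriv_zero]
    exact ⟨h, hF⟩
  | succ t ih =>
    have h1 : ∀ g : ℂ → ℂ, iteratedDeriv (t + 1) g = deriv (iteratedDeriv t g) :=
      fun g => iteratedDeriv_succ
    simp only [h1]
    exact ⟨ih.1.deriv (Eventually.of_forall ih.2) isOpen_UU, fun n => (ih.2 n).deriv isOpen_UU⟩

theorem diff_zpow (k : ℤ) : DifferentiableOn ℂ (fun s : ℂ => s ^ k) UU := by
  intro s hs
  exact (differentiableAt_zpow.2 (Or.inl hs.1)).differentiableWithinAt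

/-- exchange of the functional and a generating function -/
theorem exchange {q : ℕ → ℝ} (hq0 : ∀ n, 0 ≤ q n) (hq : Summable q) (m : ℤ) (B : ℂ → ℂ)
    (hB : DifferentiableOn ℂ B UU) :
    TendstoLocallyUniformlyOn (fun n s => ∑ x ∈ range n, (q x : ℂ) * (s ^ (m + x) * B s))
      (fun s => (∑' x : ℕ, (q x : ℂ) * s ^ (m + x)) * B s) atTop UU := by
  rw [tendstoLocallyUniformlyOn_iff_forall_isCompact isOpen_UU]
  intro K hK hKc
  obtain ⟨C, hC⟩ := hKc.exists_bound_of_continuousOn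
    (((diff_zpow m).mul hB).continuousOn.mono hK)
  have h1 := tendstoUniformlyOn_tsum_nat (f := fun (x : ℕ) (s : ℂ) => (q x : ℂ) * (s ^ (m + x) * B s))
    (u := fun x => q x * C) (hq.mul_right C) (s := K) ?_
  · refine h1.congr_right fun s hs => ?_
    simp only
    rw [← tsum_mul_right]
    refine tsum_congr fun x => ?_
    ring
  · intro x s hs
    have h2 := hC s hs
    have h3 := hK hs
    simp only [Pi.mul_apply] at h2
    rw [norm_mul, Complex.norm_real, Real.norm_of_nonneg (hq0 x)]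
    refine mul_le_mul_of_nonneg_left ?_ (hq0 x)
    rw [zpow_add₀ h3.1, zpow_natCast, mul_right_comm, norm_mul, norm_pow]
    have h4 : ‖s‖ ^ x ≤ 1 := pow_le_one₀ (norm_nonneg _) h3.2.le
    calc ‖s ^ m * B s‖ * ‖s‖ ^ x ≤ ‖s ^ m * B s‖ * 1 :=
          mul_le_mul_of_nonneg_left h4 (norm_nonneg _)
      _ ≤ C := by rw [mul_one]; exact h2

theorem Lf_tendsto {ρ : ℂ × ℕ} (hρ : Adm ρ) {q : ℕ → ℝ} (hq0 : ∀ n, 0 ≤ q n) (hq : Summable q)
    (m : ℤ) (B : ℂ → ℂ) (hB : DifferentiableOn ℂ B UU) :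
    Tendsto (fun n => ∑ x ∈ range n, (q x : ℂ) * Lf ρ (fun s => s ^ (m + x) * B s)) atTop
      (𝓝 (Lf ρ (fun s => (∑' x : ℕ, (q x : ℂ) * s ^ (m + x)) * B s))) := by
  have hd : ∀ x : ℕ, DifferentiableOn ℂ (fun s : ℂ => s ^ (m + x) * B s) UU :=
    fun x => (diff_zpow _).mul hB
  have h1 : ∀ n, ∑ x ∈ range n, (q x : ℂ) * Lf ρ (fun s => s ^ (m + x) * B s) =
      Lf ρ (fun s => ∑ x ∈ range n, (q x : ℂ) * (s ^ (m + x) * B s)) := by
    intro n
    rw [Lf_sum]
    · exact Finset.sum_congr rfl fun x _ => (Lf_const_mul _ _ _).symm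
    · exact fun x _ => good_const_mul _ (good_of_diff hρ (hd x))
  simp only [h1]
  by_cases hU : ρ.1 ∈ UU
  · have h2 := (tlu_iterate (exchange hq0 hq m B hB) (fun n =>
      DifferentiableOn.fun_sum fun x _ => (hd x).const_mul _) ρ.2).1
    exact h2.tendsto_at hU
  · have h0 : ρ.2 = 0 := hρ.mem.resolve_right hU
    have hn : ‖ρ.1‖ ≤ 1 := hρ.2.1
    unfold Lf
    simp only [h0, iteratedDeriv_zero]
    have h3 : Summable fun x : ℕ => (q x : ℂ) * ρ.1 ^ (m + x) := by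
      refine Summable.of_norm_bounded (hq.mul_right (‖ρ.1 ^ m‖)) fun x => ?_
      rw [norm_mul, Complex.norm_real, Real.norm_of_nonneg (hq0 x), zpow_add₀ hρ.1, zpow_natCast,
        norm_mul, norm_pow]
      refine mul_le_mul_of_nonneg_left ?_ (hq0 x)
      calc ‖ρ.1 ^ m‖ * ‖ρ.1‖ ^ x ≤ ‖ρ.1 ^ m‖ * 1 :=
            mul_le_mul_of_nonneg_left (pow_le_one₀ (norm_nonneg _) hn) (norm_nonneg _)
        _ = ‖ρ.1 ^ m‖ := mul_one _
    have h4 := (h3.hasSum.mul_right (B ρ.1)).tendsto_sum_nat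
    refine h4.congr fun n => ?_
    refine Finset.sum_congr rfl fun x _ => ?_
    ring

/-- boundedness of the functional on powers -/
theorem Lf_bdd {ρ : ℂ × ℕ} (hρ : Adm ρ) (B : ℂ → ℂ) (hB : DifferentiableOn ℂ B UU) :
    ∃ C : ℝ, ∀ k : ℕ, ‖Lf ρ (fun s => s ^ (k : ℤ) * B s)‖ ≤ C := by
  by_cases hU : ρ.1 ∈ UU
  · obtain ⟨r, hr, hr2⟩ := Metric.nhds_basis_closedBall.mem_iff.1 (isOpen_UU.mem_nhds hU)
    obtain ⟨C, hC⟩ := (isCompact_closedBall ρ.1 r).exists_bound_of_continuousOn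
      (hB.continuousOn.mono hr2)
    refine ⟨ρ.2.factorial * C / r ^ ρ.2, fun k => ?_⟩
    unfold Lf
    refine Complex.norm_iteratedDeriv_le_of_forall_mem_sphere_norm_le ρ.2 hr ?_ ?_
    · have h1 : DifferentiableOn ℂ (fun s => s ^ (k : ℤ) * B s) (Metric.closedBall ρ.1 r) :=
        ((diff_zpow _).mul hB).mono hr2
      exact h1.diffContOnCl_ball subset_rfl
    · intro z hz
      have h1 := Metric.sphere_subset_closedBall hz
      have h2 := hr2 h1
      rw [zpow_natCast, norm_mul, norm_pow]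
      calc ‖z‖ ^ k * ‖B z‖ ≤ 1 * ‖B z‖ :=
            mul_le_mul_of_nonneg_right (pow_le_one₀ (norm_nonneg _) h2.2.le) (norm_nonneg _)
        _ ≤ C := by rw [one_mul]; exact hC z h1
  · have h0 : ρ.2 = 0 := hρ.mem.resolve_right hU
    refine ⟨‖B ρ.1‖, fun k => ?_⟩
    unfold Lf
    simp only [h0, iteratedDeriv_zero]
    rw [zpow_natCast, norm_mul, norm_pow]
    calc ‖ρ.1‖ ^ k * ‖B ρ.1‖ ≤ 1 * ‖B ρ.1‖ :=
          mul_le_mul_of_nonneg_right (pow_le_one₀ (norm_nonneg _) hρ.2.1) (norm_nonneg _)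
      _ = ‖B ρ.1‖ := one_mul _

/-- a product with a function that vanishes to high order -/
theorem iteratedDeriv_mul_zero (t : ℕ) : ∀ (f g : ℂ → ℂ) (a : ℂ), AnalyticAt ℂ f a →
    AnalyticAt ℂ g a → (∀ τ ≤ t, iteratedDeriv τ f a = 0) →
    iteratedDeriv t (fun s => g s * f s) a = 0 := by
  induction t with
  | zero =>
    intro f g a _ _ h
    have := h 0 le_rfl
    rw [iteratedDeriv_zero] at this ⊢
    rw [this, mul_zero]
  | succ t ih =>
    intro f g a hf hg h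
    rw [iteratedDeriv_succ']
    have h1 : deriv (fun s => g s * f s) =ᶠ[𝓝 a] fun s => deriv g s * f s + g s * deriv f s := by
      filter_upwards [hf.eventually_analyticAt, hg.eventually_analyticAt] with s hs1 hs2
      exact deriv_fun_mul hs2.differentiableAt hs1.differentiableAt
    have c1 : AnalyticAt ℂ (fun s => deriv g s * f s) a := hg.deriv.mul hf
    have c2 : AnalyticAt ℂ (fun s => g s * deriv f s) a := hg.mul hf.deriv
    rw [h1.iteratedDeriv_eq, iteratedDeriv_fun_add c1.contDiffAt c2.contDiffAt, ih f (deriv g) a hf hg.deriv (fun τ hτ => h τ (by omega)),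
      ih (deriv f) g a hf.deriv hg (fun τ hτ => by
        rw [← iteratedDeriv_succ']
        exact h (τ + 1) (by omega)), add_zero]

end Pool.Agent.X3.RW
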