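import Mathlib

/-!
The data and the matrix of MP_432bca_pr.  The index `j : Fin N` stands for `X_j`, and `j = 0` for
`X_N` (periodic extension).
-/

set_option autoImplicit false

namespace Pool.Agent.X3.RW

open Finset

/-- the laws `p j` of the independent integer valued random variables `X_j`, bounded below, with
minimum `m j ≤ 0` of the support, and with `E S_N < 0` -/
structure Walk (N : ℕ) where
  /-- `p j k = P (X_j = k)` -/
  p : Fin N → ℤ → ℝ
  /-- the least point of the support of `X_j` -/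
  m : Fin N → ℤ
  nonneg : ∀ j k, 0 ≤ p j k
  sum_one : ∀ j, HasSum (p j) 1
  below : ∀ j k, k < m j → p j k = 0
  atm : ∀ j, 0 < p j (m j)
  m_nonpos : ∀ j, m j ≤ 0
  D_neg : ∑ j, m j < 0
  mean_summable : ∀ j, Summable fun k : ℤ => (k : ℝ) * p j k
  drift : ∑ j, ∑' k : ℤ, (k : ℝ) * p j k < 0

namespace Walk

variable {N : ℕ} (w : Walk N)

/-- the generating function `G_{X_j}` -/
noncomputable def G (j : Fin N) (s : ℂ) : ℂ := ∑' k : ℤ, (w.p j k : ℂ) * s ^ k

/-- the distribution function `F_{X_j} (k) = P (X_j ≤ k)` -/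
noncomputable def F (j : Fin N) (k : ℤ) : ℝ := ∑' i : ℤ, if i ≤ k then w.p j i else 0

/-- the generating function of `S_N` -/
noncomputable def GS (s : ℂ) : ℂ := ∏ j, w.G j s

/-- the weights `w_j (s)`: `s^{m_j}` times the generating function of `X_0 + ⋯ + X_{j-1}` -/
noncomputable def W (j : Fin N) (s : ℂ) : ℂ :=
  s ^ w.m j * ∏ l ∈ univ.filter (fun l : Fin N => (l : ℕ) < j), w.G l s

/-- the functions `φ_{j,c}` -/
noncomputable def phi (j : Fin N) (c : ℕ) (s : ℂ) : ℂ :=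
  w.W j s * ∑ r ∈ range ((-w.m j).toNat - c), s ^ ((r : ℤ) + c) * (w.F j (w.m j + r) : ℂ)

/-- the numbers `ν_{j,c}` -/
noncomputable def nu (j : Fin N) (c : ℕ) : ℂ :=
  ∑ r ∈ range ((-w.m j).toNat - c), (w.F j (w.m j + r) : ℂ)

/-- the column indices `(j, c)`, `0 ≤ c ≤ -m_j - 1` -/
abbrev Col : Type := Σ j : Fin N, Fin (-w.m j).toNat

/-- `(α, t)` is the index of a row: `α` is a zero of `G_{S_N} - 1` in the closed unit disc, not `0`
or `1`, and `t` is smaller than its multiplicity (zeros on the unit circle are simple) -/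
def IsZero (ρ : ℂ × ℕ) : Prop :=
  ρ.1 ≠ 0 ∧ ρ.1 ≠ 1 ∧ ‖ρ.1‖ ≤ 1 ∧
    (∀ τ ≤ ρ.2, iteratedDeriv τ (fun s => w.GS s - 1) ρ.1 = 0) ∧ (‖ρ.1‖ = 1 → ρ.2 = 0)

/-- the indices of the rows that belong to zeros -/
abbrev Zero : Type := {ρ : ℂ × ℕ // w.IsZero ρ}

/-- the rows of the matrix; `none` is the last row -/
noncomputable def row : Option w.Zero → w.Col → ℂ
  | some ρ => fun c => iteratedDeriv ρ.1.2 (w.phi c.1 c.2) ρ.1.1
  | none => fun c => w.nu c.1 c.2

end Walk

end Pool.Agent.X3.RW
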