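import Pool.Agent.X3.RWSys

/-!
Existence of harmonic systems with given boundary values.
-/

set_option autoImplicit false

namespace Pool.Agent.X3.RW

open Finset Filter Topology

variable {N : ℕ} (w : Walk N)

/-- boundary indicator -/
def bdry (j0 : ℕ) (k0 : ℤ) (i : ℕ) (k : ℤ) : ℝ := if i = j0 ∧ k = k0 then 1 else 0

/-- residue of the time -/
def fi (t : ℕ) : Fin N := ⟨t % N, Nat.mod_lt _ (N_pos w)⟩

theorem fi_add (t : ℕ) : fi w (t + N) = fi w t := Fin.ext (Nat.add_mod_right t N)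

theorem fi_mul (n : ℕ) (i : Fin N) : fi w (n * N + i) = i := by
  apply Fin.ext
  change (n * N + (i : ℕ)) % N = i
  rw [Nat.mul_add_mod_self_right, Nat.mod_eq_of_lt i.2]

/-- iteration -/
noncomputable def uu (j0 : ℕ) (k0 : ℤ) : ℕ → ℤ → ℝ
  | 0, k => if k < 0 then bdry j0 k0 0 k else 0
  | (t + 1), k => if k < 0 then bdry j0 k0 ((t + 1) % N) k else
      ∑' x : ℕ, qq w (fi w t) x * uu j0 k0 t (w.m (fi w t) + x + k)

theorem uu_zero (j0 : ℕ) (k0 : ℤ) (k : ℤ) :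
    uu w j0 k0 0 k = if k < 0 then bdry j0 k0 0 k else 0 := rfl

theorem uu_succ (j0 : ℕ) (k0 : ℤ) (t : ℕ) (k : ℤ) :
    uu w j0 k0 (t + 1) k = if k < 0 then bdry j0 k0 ((t + 1) % N) k else
      ∑' x : ℕ, qq w (fi w t) x * uu w j0 k0 t (w.m (fi w t) + x + k) := rfl

theorem bdry_bd (j0 : ℕ) (k0 : ℤ) (i : ℕ) (k : ℤ) :
    0 ≤ bdry j0 k0 i k ∧ bdry j0 k0 i k ≤ 1 := by
  unfold bdry
  split_ifs <;> norm_num

theorem summable_aux (j : Fin N) (f : ℕ → ℝ) (hf : ∀ x, 0 ≤ f x ∧ f x ≤ 1) :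
    Summable fun x => qq w j x * f x :=
  Summable.of_nonneg_of_le (fun x => mul_nonneg (qq_nonneg w j x) (hf x).1)
    (fun x => mul_le_of_le_one_right (qq_nonneg w j x) (hf x).2) (qq_sum w j).summable

theorem uu_bd (j0 : ℕ) (k0 : ℤ) (t : ℕ) : ∀ k, 0 ≤ uu w j0 k0 t k ∧ uu w j0 k0 t k ≤ 1 := by
  induction t with
  | zero =>
    intro k
    rw [uu_zero]
    split_ifs
    · exact bdry_bd _ _ _ _
    · norm_num
  | succ t ih =>
    intro k
    rw [uu_succ]
    split_ifs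
    · exact bdry_bd _ _ _ _
    · refine ⟨tsum_nonneg fun x => mul_nonneg (qq_nonneg w _ x) (ih _).1, ?_⟩
      calc ∑' x : ℕ, qq w (fi w t) x * uu w j0 k0 t (w.m (fi w t) + x + k)
          ≤ ∑' x : ℕ, qq w (fi w t) x :=
            Summable.tsum_le_tsum
              (fun x => mul_le_of_le_one_right (qq_nonneg w _ x) (ih _).2)
              (summable_aux w _ _ fun x => ih _) (qq_sum w _).summable
        _ = 1 := (qq_sum w _).tsum_eq

theorem uu_neg (j0 : ℕ) (k0 : ℤ) (t : ℕ) (k : ℤ) (hk : k < 0) :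
    uu w j0 k0 t k = bdry j0 k0 (t % N) k := by
  cases t with
  | zero => rw [uu_zero, if_pos hk, Nat.zero_mod]
  | succ t => rw [uu_succ, if_pos hk]

theorem uu_mono (j0 : ℕ) (k0 : ℤ) (t : ℕ) : ∀ k, uu w j0 k0 t k ≤ uu w j0 k0 (t + N) k := by
  induction t with
  | zero =>
    intro k
    by_cases hk : k < 0
    · rw [uu_neg w _ _ _ _ hk, uu_neg w _ _ _ _ hk, Nat.add_mod_right]
    · rw [uu_zero, if_neg hk]
      exact (uu_bd w j0 k0 _ k).1
  | succ t ih =>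
    intro k
    by_cases hk : k < 0
    · rw [uu_neg w _ _ _ _ hk, uu_neg w _ _ _ _ hk, Nat.add_mod_right]
    · rw [show t + 1 + N = (t + N) + 1 by ring, uu_succ, uu_succ, if_neg hk, if_neg hk, fi_add]
      exact Summable.tsum_le_tsum (fun x => mul_le_mul_of_nonneg_left (ih _) (qq_nonneg w _ x))
        (summable_aux w _ _ fun x => uu_bd w _ _ _ _) (summable_aux w _ _ fun x => uu_bd w _ _ _ _)

/-- the limit -/
noncomputable def HH (j0 : ℕ) (k0 : ℤ) (i : ℕ) (k : ℤ) : ℝ := ⨆ n : ℕ, uu w j0 k0 (n * N + i) k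

theorem HH_tendsto (j0 : ℕ) (k0 : ℤ) (i : ℕ) (k : ℤ) :
    Tendsto (fun n : ℕ => uu w j0 k0 (n * N + i) k) atTop (𝓝 (HH w j0 k0 i k)) := by
  refine tendsto_atTop_ciSup (monotone_nat_of_le_succ fun n => ?_) ⟨1, ?_⟩
  · have := uu_mono w j0 k0 (n * N + i) k
    rwa [show (n + 1) * N + i = n * N + i + N by ring]
  · rintro _ ⟨n, rfl⟩
    exact (uu_bd w j0 k0 _ k).2

theorem HH_bd (j0 : ℕ) (k0 : ℤ) (i : ℕ) (k : ℤ) : 0 ≤ HH w j0 k0 i k ∧ HH w j0 k0 i k ≤ 1 :=
  ⟨ge_of_tendsto' (HH_tendsto w j0 k0 i k) fun _ => (uu_bd w j0 k0 _ k).1,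
    le_of_tendsto' (HH_tendsto w j0 k0 i k) fun _ => (uu_bd w j0 k0 _ k).2⟩

theorem HH_neg (j0 : ℕ) (k0 : ℤ) (i : ℕ) (k : ℤ) (hk : k < 0) :
    HH w j0 k0 i k = bdry j0 k0 (i % N) k := by
  refine tendsto_nhds_unique (HH_tendsto w j0 k0 i k) ?_
  have h1 : ∀ n : ℕ, uu w j0 k0 (n * N + i) k = bdry j0 k0 (i % N) k := by
    intro n
    rw [uu_neg w _ _ _ _ hk, Nat.mul_add_mod_self_right]
  simp only [h1]
  exact tendsto_const_nhds

theorem HH_N (j0 : ℕ) (k0 : ℤ) (k : ℤ) : HH w j0 k0 N k = HH w j0 k0 0 k := by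
  refine tendsto_nhds_unique (HH_tendsto w j0 k0 N k) ?_
  have h1 := (HH_tendsto w j0 k0 0 k).comp (tendsto_add_atTop_nat 1)
  refine h1.congr fun n => ?_
  change uu w j0 k0 ((n + 1) * N + 0) k = _
  rw [show (n + 1) * N + 0 = n * N + N by ring]

theorem HH_har (j0 : ℕ) (k0 : ℤ) (i : Fin N) (k : ℕ) :
    HasSum (fun x : ℕ => qq w i x * HH w j0 k0 i (w.m i + x + k)) (HH w j0 k0 (i + 1) k) := by
  have hs : Summable (fun x : ℕ => qq w i x * HH w j0 k0 i (w.m i + x + k)) :=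
    summable_aux w _ _ fun x => HH_bd w _ _ _ _
  have h1 : Tendsto (fun n : ℕ => ∑' x : ℕ, qq w i x * uu w j0 k0 (n * N + i) (w.m i + x + k)) atTop
      (𝓝 (∑' x : ℕ, qq w i x * HH w j0 k0 i (w.m i + x + k))) := by
    refine tendsto_tsum_of_dominated_convergence (qq_sum w i).summable (fun x => ?_)
      (Eventually.of_forall fun n x => ?_)
    · exact (HH_tendsto w j0 k0 i _).const_mul _
    · rw [norm_mul, Real.norm_of_nonneg (qq_nonneg w i x),
        Real.norm_of_nonneg (uu_bd w j0 k0 _ _).1]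
      exact mul_le_of_le_one_right (qq_nonneg w i x) (uu_bd w j0 k0 _ _).2
  have h2 := HH_tendsto w j0 k0 (i + 1) k
  have h3 : ∀ n : ℕ, uu w j0 k0 (n * N + (i + 1)) k =
      ∑' x : ℕ, qq w i x * uu w j0 k0 (n * N + i) (w.m i + x + k) := by
    intro n
    rw [← add_assoc, uu_succ, if_neg (by omega), fi_mul]
  simp only [h3] at h2
  rw [tendsto_nhds_unique h2 h1]
  exact hs.hasSum

/-- the system with boundary values the indicator of one point -/
noncomputable def hsys (j0 : Fin N) (k0 : ℤ) (i : ℕ) (k : ℤ) : ℂ :=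
  if i ≤ N then (HH w j0 k0 i k : ℂ) else 0

theorem hsys_neg (j0 : Fin N) (k0 : ℤ) (i : Fin N) (k : ℤ) (hk : k < 0) :
    hsys w j0 k0 i k = if i = j0 ∧ k = k0 then 1 else 0 := by
  unfold hsys
  rw [if_pos i.2.le, HH_neg w _ _ _ _ hk, Nat.mod_eq_of_lt i.2]
  unfold bdry
  simp only [Fin.ext_iff]
  split_ifs <;> simp

theorem hsys_mem (j0 : Fin N) (k0 : ℤ) (hk0 : w.m j0 ≤ k0) : hsys w j0 k0 ∈ Sys w := by
  refine ⟨fun i k hik => ?_, fun k => ?_, ⟨1, fun i hi k => ?_⟩, fun i k => ?_⟩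
  · unfold hsys
    split_ifs with hi
    · rcases hik with h | h
      · omega
      · have hk : k < 0 := lt_of_lt_of_le h (mm_nonpos w i)
        rw [HH_neg w _ _ _ _ hk]
        unfold bdry
        rw [if_neg, Complex.ofReal_zero]
        rintro ⟨h1, h2⟩
        have h3 : mm w i = w.m j0 := by
          rw [← mm_fin w j0, ← h1]
          rcases lt_or_eq_of_le hi with h4 | h4
          · rw [Nat.mod_eq_of_lt h4]
          · rw [h4, Nat.mod_self, mm_N]
        omega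
    · rfl
  · unfold hsys
    rw [if_pos le_rfl, if_pos (Nat.zero_le _), HH_N]
  · unfold hsys
    rw [if_pos hi, Complex.norm_real, Real.norm_of_nonneg (HH_bd w _ _ _ _).1]
    exact (HH_bd w _ _ _ _).2
  · have e1 : (i : ℕ) ≤ N := i.2.le
    have e2 : (i : ℕ) + 1 ≤ N := i.2
    unfold hsys
    simp only [if_pos e1, if_pos e2]
    have h1 := (Complex.hasSum_ofReal.2 (HH_har w j0 k0 i k)).tendsto_sum_nat
    refine h1.congr fun n => Finset.sum_congr rfl fun x _ => ?_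
    push_cast
    ring

/-- the restriction to the boundary -/
def RR : Sys w →ₗ[ℂ] (w.Col → ℂ) where
  toFun h := fun c => h.1 c.1 (w.m c.1 + (c.2 : ℕ))
  map_add' := fun _ _ => rfl
  map_smul' := fun _ _ => rfl

theorem RR_injective : Function.Injective (RR w) := by
  rw [injective_iff_map_eq_zero]
  intro h hh
  apply Subtype.ext
  refine sys_zero w h.1 h.2 fun i k h1 h2 => ?_
  have h3 := congrFun hh (⟨i, ⟨(k - w.m i).toNat, by omega⟩⟩ : w.Col)
  change h.1 i (w.m i + (((k - w.m i).toNat : ℕ) : ℤ)) = 0 at h3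
  rwa [show w.m i + (((k - w.m i).toNat : ℕ) : ℤ) = k by omega] at h3

theorem RR_surjective : Function.Surjective (RR w) := by
  classical
  intro y
  refine ⟨∑ c : w.Col, y c • (⟨hsys w c.1 (w.m c.1 + (c.2 : ℕ)), hsys_mem w _ _ (by omega)⟩ : Sys w), ?_⟩
  rw [map_sum]
  funext d
  rw [Finset.sum_apply, Finset.sum_eq_single d]
  · rw [map_smul, Pi.smul_apply]
    change y d • hsys w d.1 (w.m d.1 + ((d.2 : ℕ) : ℤ)) d.1 (w.m d.1 + ((d.2 : ℕ) : ℤ)) = y d
    rw [hsys_neg w _ _ _ _ (by omega), if_pos ⟨rfl, rfl⟩, smul_eq_mul, mul_one]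
  · intro c _ hc
    rw [map_smul, Pi.smul_apply]
    change y c • hsys w c.1 (w.m c.1 + ((c.2 : ℕ) : ℤ)) d.1 (w.m d.1 + ((d.2 : ℕ) : ℤ)) = 0
    rw [hsys_neg w _ _ _ _ (by omega), if_neg, smul_zero]
    rintro ⟨h1, h2⟩
    apply hc
    obtain ⟨c1, c2⟩ := c
    obtain ⟨d1, d2⟩ := d
    simp only at h1 h2
    subst h1
    congr 1
    apply Fin.ext
    omega
  · intro h
    exact absurd (Finset.mem_univ d) h

/-- systems are determined by their boundary values, which are free -/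
noncomputable def RRe : Sys w ≃ₗ[ℂ] (w.Col → ℂ) :=
  LinearEquiv.ofBijective (RR w) ⟨RR_injective w, RR_surjective w⟩

end Pool.Agent.X3.RW
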