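import Pool.Agent.X3.RWHarm

/-!
Independence of the rows.
-/

set_option autoImplicit false

namespace Pool.Agent.X3.RW

open Finset Filter Topology Polynomial

theorem iteratedDeriv_eval (t : ℕ) : ∀ (P : ℂ[X]) (s : ℂ),
    iteratedDeriv t (fun s => P.eval s) s = (derivative^[t] P).eval s := by
  induction t with
  | zero =>
    intro P s
    rw [iteratedDeriv_zero, Function.iterate_zero, id]
  | succ t ih =>
    intro P s
    rw [iteratedDeriv_succ']
    have h1 : deriv (fun s => P.eval s) = fun s => (derivative P).eval s := by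
      funext x
      exact P.deriv
    rw [h1, ih, Function.iterate_succ_apply]

variable {N : ℕ} (w : Walk N)

include w in
theorem N_pos : 0 < N := by
  rcases Nat.eq_zero_or_pos N with h | h
  · subst h
    have := w.D_neg
    simp at this
  · exact h

theorem rel_pow (S : Finset (ℂ × ℕ)) (g : ℂ × ℕ → ℂ) (hS : ∀ ρ ∈ S, Row w ρ)
    (hrel : ∀ (j : Fin N) (c : ℕ), c < (-w.m j).toNat → ∑ ρ ∈ S, g ρ * Lf ρ (w.phi j c) = 0)
    (k : ℕ) : ∑ ρ ∈ S, g ρ * Lf ρ (fun s => s ^ k) = 0 := by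
  have h1 := hf_zero w S g hS (fun i k h1 h2 => hf_neg w S g hS hrel i k h1 h2) 0 (N_pos w) k
  unfold hf at h1
  rw [← h1]
  refine Finset.sum_congr rfl fun ρ hρ => ?_
  rw [Lf_congr (hS ρ hρ).1.1 fun s _ => (?_ : BB w 0 k s = s ^ k)]
  rw [BB_zero, zpow_natCast]

theorem rel_poly (S : Finset (ℂ × ℕ)) (g : ℂ × ℕ → ℂ)
    (h : ∀ k : ℕ, ∑ ρ ∈ S, g ρ * Lf ρ (fun s => s ^ k) = 0) (P : ℂ[X]) :
    ∑ ρ ∈ S, g ρ * (derivative^[ρ.2] P).eval ρ.1 = 0 := by
  induction P using Polynomial.induction_on' with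
  | add p q hp hq =>
    simp only [iterate_map_add, Polynomial.eval_add, mul_add,
      Finset.sum_add_distrib, hp, hq, add_zero]
  | monomial n a =>
    have h1 : ∀ ρ : ℂ × ℕ, (derivative^[ρ.2] (monomial n a)).eval ρ.1 =
        a * Lf ρ (fun s => s ^ n) := by
      intro ρ
      rw [← iteratedDeriv_eval, ← Lf_const_mul]
      unfold Lf
      congr 1
      funext s
      rw [Polynomial.eval_monomial]
    simp only [h1]
    have h2 : ∀ ρ ∈ S, g ρ * (a * Lf ρ (fun s => s ^ n)) = a * (g ρ * Lf ρ (fun s => s ^ n)) :=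
      fun ρ _ => by ring
    rw [Finset.sum_congr rfl h2, ← Finset.mul_sum, h n, mul_zero]

theorem rel_zero (S : Finset (ℂ × ℕ)) (g : ℂ × ℕ → ℂ)
    (h : ∀ P : ℂ[X], ∑ ρ ∈ S, g ρ * (derivative^[ρ.2] P).eval ρ.1 = 0) :
    ∀ ρ ∈ S, g ρ = 0 := by
  classical
  by_contra hcon
  push Not at hcon
  obtain ⟨ρ1, hρ1, hg1⟩ := hcon
  set A := S.filter (fun ρ => g ρ ≠ 0 ∧ ρ.1 = ρ1.1) with hA
  have hAne : A.Nonempty := ⟨ρ1, by simp [hA, hρ1, hg1]⟩
  obtain ⟨ρ0, hρ0, hmax⟩ := A.exists_max_image (fun ρ => ρ.2) hAne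
  rw [hA, mem_filter] at hρ0
  obtain ⟨hρ0S, hg0, hα0⟩ := hρ0
  set T := S.sup (fun ρ => ρ.2) with hT
  have hTle : ∀ ρ ∈ S, ρ.2 ≤ T := fun ρ hρ => Finset.le_sup (f := fun ρ : ℂ × ℕ => ρ.2) hρ
  set B := (S.image Prod.fst).erase ρ0.1 with hB
  set Q : ℂ[X] := ∏ β ∈ B, (X - C β) ^ (T + 1) with hQ
  have hQ0 : Q.eval ρ0.1 ≠ 0 := by
    rw [hQ, Polynomial.eval_prod]
    refine Finset.prod_ne_zero_iff.2 fun β hβ => ?_
    rw [Polynomial.eval_pow, Polynomial.eval_sub, Polynomial.eval_X, Polynomial.eval_C]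
    exact pow_ne_zero _ (sub_ne_zero.2 (Finset.ne_of_mem_erase hβ).symm)
  set P : ℂ[X] := (X - C ρ0.1) ^ ρ0.2 * Q with hP
  have hQne : Q ≠ 0 := fun h0 => hQ0 (by rw [h0, Polynomial.eval_zero])
  have hPne : P ≠ 0 := mul_ne_zero (pow_ne_zero _ (X_sub_C_ne_zero _)) hQne
  have hother : ∀ ρ ∈ S, ρ ≠ ρ0 → g ρ * (derivative^[ρ.2] P).eval ρ.1 = 0 := by
    intro ρ hρ hne
    by_cases hg : g ρ = 0
    · rw [hg, zero_mul]
    · have hroot : (derivative^[ρ.2] P).IsRoot ρ.1 := by
        by_cases hα : ρ.1 = ρ0.1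
        · have hmem : ρ ∈ A := by
            rw [hA, mem_filter]
            exact ⟨hρ, hg, hα.trans hα0⟩
          have hle := hmax ρ hmem
          have hlt : ρ.2 < ρ0.2 := by
            rcases lt_or_eq_of_le hle with h1 | h1
            · exact h1
            · exact absurd (Prod.ext hα h1) hne
          have h2 : ρ0.2 ≤ rootMultiplicity ρ0.1 P :=
            (le_rootMultiplicity_iff hPne).2 (Dvd.intro _ rfl)
          rw [hα]
          exact (lt_rootMultiplicity_iff_isRoot_iterate_derivative hPne).1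
            (lt_of_lt_of_le hlt h2) ρ.2 le_rfl
        · have hmem : ρ.1 ∈ B := by
            rw [hB, Finset.mem_erase]
            exact ⟨hα, Finset.mem_image_of_mem _ hρ⟩
          have h1 : (X - C ρ.1) ^ (T + 1) ∣ P :=
            (Finset.dvd_prod_of_mem (fun β => (X - C β) ^ (T + 1)) hmem).trans
              (Dvd.intro_left _ rfl)
          have h2 : T + 1 ≤ rootMultiplicity ρ.1 P := (le_rootMultiplicity_iff hPne).2 h1
          exact (lt_rootMultiplicity_iff_isRoot_iterate_derivative hPne).1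
            (lt_of_le_of_lt (hTle ρ hρ) (Nat.lt_of_succ_le h2)) ρ.2 le_rfl
      rw [Polynomial.IsRoot.def] at hroot
      rw [hroot, mul_zero]
  have hsum := h P
  rw [Finset.sum_eq_single ρ0 hother (fun hnot => absurd hρ0S hnot)] at hsum
  have hroot : (derivative^[ρ0.2] P).eval ρ0.1 = 0 := (mul_eq_zero.1 hsum).resolve_left hg0
  have h2 : ρ0.2 ≤ rootMultiplicity ρ0.1 P :=
    (le_rootMultiplicity_iff hPne).2 (Dvd.intro _ rfl)
  have h3 : ρ0.2 < rootMultiplicity ρ0.1 P := by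
    refine (lt_rootMultiplicity_iff_isRoot_iterate_derivative hPne).2 fun m hm => ?_
    rcases lt_or_eq_of_le hm with h4 | h4
    · exact (lt_rootMultiplicity_iff_isRoot_iterate_derivative hPne).1
        (lt_of_lt_of_le h4 h2) m le_rfl
    · rw [h4]
      exact hroot
  have h4 : (X - C ρ0.1) ^ (ρ0.2 + 1) ∣ P := (le_rootMultiplicity_iff hPne).1 h3
  rw [hP, pow_succ] at h4
  have h5 : (X - C ρ0.1) ∣ Q :=
    (mul_dvd_mul_iff_left (pow_ne_zero _ (X_sub_C_ne_zero _))).1 h4
  exact hQ0 (Polynomial.dvd_iff_isRoot.1 h5)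

theorem G_one (j : Fin N) : w.G j 1 = 1 := by
  unfold Walk.G
  simp only [one_zpow, mul_one]
  exact (Complex.hasSum_ofReal.2 (w.sum_one j)).tsum_eq

/-- the map from the row indices of the matrix to pairs -/
def emb : Option w.Zero → ℂ × ℕ
  | some ρ => ρ.1
  | none => (1, 0)

theorem emb_injective : Function.Injective (emb w) := by
  intro a b h
  rcases a with _ | a <;> rcases b with _ | b
  · rfl
  · exact absurd (congrArg Prod.fst h).symm b.2.2.1
  · exact absurd (congrArg Prod.fst h) a.2.2.1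
  · exact congrArg some (Subtype.ext h)

theorem emb_row (a : Option w.Zero) : Row w (emb w a) := by
  rcases a with _ | a
  · refine ⟨⟨one_ne_zero, ?_, fun _ => rfl⟩, ?_⟩
    · simp [emb]
    · intro τ hτ
      have h1 : τ = 0 := Nat.le_zero.1 hτ
      rw [h1, iteratedDeriv_zero]
      simp only [emb, Walk.GS, G_one, Finset.prod_const_one, sub_self]
  · exact ⟨⟨a.2.1, a.2.2.2.1, a.2.2.2.2.2⟩, a.2.2.2.2.1⟩

theorem row_eq (a : Option w.Zero) (c : w.Col) : w.row a c = Lf (emb w a) (w.phi c.1 c.2) := by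
  rcases a with _ | a
  · unfold Lf emb Walk.row Walk.nu Walk.phi Walk.W
    simp only [iteratedDeriv_zero, one_zpow, one_mul, G_one, Finset.prod_const_one]
  · rfl

theorem rows_independent : LinearIndependent ℂ w.row := by
  rw [linearIndependent_iff']
  intro s g hsum a ha
  set g' : ℂ × ℕ → ℂ := Function.extend (emb w) g 0 with hg'
  have hg'a : ∀ b, g' (emb w b) = g b := fun b => (emb_injective w).extend_apply g 0 b
  set S : Finset (ℂ × ℕ) := s.map ⟨emb w, emb_injective w⟩ with hS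
  have hSrow : ∀ ρ ∈ S, Row w ρ := by
    intro ρ hρ
    rw [hS, Finset.mem_map] at hρ
    obtain ⟨b, _, rfl⟩ := hρ
    exact emb_row w b
  have hrel : ∀ (j : Fin N) (c : ℕ), c < (-w.m j).toNat →
      ∑ ρ ∈ S, g' ρ * Lf ρ (w.phi j c) = 0 := by
    intro j c hc
    rw [hS, Finset.sum_map]
    have h1 := congrFun hsum (⟨j, ⟨c, hc⟩⟩ : w.Col)
    rw [Finset.sum_apply] at h1
    simp only [Pi.smul_apply, smul_eq_mul, Pi.zero_apply] at h1
    rw [← h1]
    refine Finset.sum_congr rfl fun b _ => ?_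
    rw [Function.Embedding.coeFn_mk, hg'a, row_eq]
  have h2 := rel_zero S g' (rel_poly S g' (rel_pow w S g' hSrow hrel)) (emb w a)
    (Finset.mem_map_of_mem ⟨emb w, emb_injective w⟩ ha)
  rw [← hg'a, h2]

theorem det_ne_zero (e : w.Col ≃ Option w.Zero) :
    (Matrix.of fun i c => w.row (e i) c).det ≠ 0 := by
  have h1 : LinearIndependent ℂ (Matrix.of fun i c => w.row (e i) c).row :=
    (rows_independent w).comp e e.injective
  have h2 := Matrix.linearIndependent_rows_iff_isUnit.1 h1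
  exact (Matrix.isUnit_iff_isUnit_det _).1 h2 |>.ne_zero

end Pool.Agent.X3.RW
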