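import Pool.Agent.X3.RWSpan

/-!
Generalised eigenvectors of the shift on the space of bounded harmonic systems.
-/

set_option autoImplicit false

namespace Pool.Agent.X3.RW

open Finset Filter Topology

variable {N : ℕ} (w : Walk N)

theorem first_step (h : Sys w) (i : Fin N) (h0 : ∀ k, w.m i < k → h.1 i k = 0) :
    (qq w i 0 : ℂ) * h.1 i (w.m i) = h.1 (i + 1) 0 := by
  have h1 := h.2.2.2.2 i 0
  have h2 : Tendsto (fun n => ∑ x ∈ range n, (qq w i x : ℂ) * h.1 i (w.m i + x + (0 : ℕ))) atTop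
      (𝓝 ((qq w i 0 : ℂ) * h.1 i (w.m i))) := by
    refine tendsto_const_nhds.congr' ?_
    filter_upwards [eventually_ge_atTop 1] with n hn
    rw [Finset.sum_eq_single 0]
    · simp
    · intro x _ hx
      rw [h0 _ (by omega), mul_zero]
    · intro hx
      exact absurd (mem_range.2 hn) hx
  exact tendsto_nhds_unique h2 h1

theorem exists_neg : ∃ j : Fin N, w.m j < 0 := by
  by_contra hcon
  push Not at hcon
  exact absurd w.D_neg (not_lt.2 (Finset.sum_nonneg fun j _ => hcon j))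

theorem zero_case (h : Sys w) (h0 : ∀ i ≤ N, ∀ k, mm w i < k → h.1 i k = 0) :
    ∀ i ≤ N, ∀ k, h.1 i k = 0 := by
  have hq : ∀ i : Fin N, (qq w i 0 : ℂ) ≠ 0 := by
    intro i
    have := w.atm i
    unfold qq
    rw [Nat.cast_zero, add_zero]
    exact Complex.ofReal_ne_zero.2 this.ne'
  have hstep : ∀ i : Fin N, (qq w i 0 : ℂ) * h.1 i (w.m i) = h.1 (i + 1) 0 := fun i =>
    first_step w h i fun k hk => h0 i i.2.le k (by rw [mm_fin]; exact hk)
  have hback : ∀ i : ℕ, i + 1 ≤ N → h.1 (i + 1) 0 = 0 → h.1 i 0 = 0 := by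
    intro i hi hz
    have h1 := hstep ⟨i, hi⟩
    simp only at h1
    rw [hz] at h1
    have h2 := (mul_eq_zero.1 h1).resolve_left (hq _)
    have h3 := mm_fin w ⟨i, hi⟩
    simp only at h3
    rcases lt_or_eq_of_le (mm_nonpos w i) with h4 | h4
    · exact h0 i (by omega) 0 h4
    · rwa [← h3, h4] at h2
  have hdown : ∀ j ≤ N, h.1 j 0 = 0 → ∀ n i, i + n = j → h.1 i 0 = 0 := by
    intro j hj hz n
    induction n with
    | zero =>
      intro i hi
      rw [show i = j by omega]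
      exact hz
    | succ n ih =>
      intro i hi
      exact hback i (by omega) (ih (i + 1) (by omega))
  obtain ⟨j, hj⟩ := exists_neg w
  have hj0 : h.1 j 0 = 0 := h0 j j.2.le 0 (by rw [mm_fin]; exact hj)
  have h00 : h.1 0 0 = 0 := hdown j j.2.le hj0 j 0 (by omega)
  have hN0 : h.1 N 0 = 0 := by rw [h.2.2.1, h00]
  have hall : ∀ i ≤ N, h.1 i 0 = 0 := fun i hi => hdown N le_rfl hN0 (N - i) i (by omega)
  have hfin : ∀ i < N, ∀ k, h.1 i k = 0 := by
    intro i hi k
    rcases lt_trichotomy k (mm w i) with hk | hk | hk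
    · exact h.2.1 i k (Or.inr hk)
    · have h1 := hstep ⟨i, hi⟩
      simp only at h1
      rw [hall (i + 1) hi] at h1
      have h2 := (mul_eq_zero.1 h1).resolve_left (hq _)
      have h3 := mm_fin w ⟨i, hi⟩
      simp only at h3
      rw [hk, h3]
      exact h2
    · exact h0 i hi.le k hk
  intro i hi k
  rcases lt_or_eq_of_le hi with h1 | h1
  · exact hfin i h1 k
  · rw [h1, h.2.2.1]
    exact hfin 0 (N_pos w) k

theorem pure_case (μ : ℂ) (h : Sys w)
    (hrec : ∀ i ≤ N, ∀ k, mm w i ≤ k → h.1 i (k + 1) = μ * h.1 i k) :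
    ∃ d0 : ℂ, (d0 ≠ 0 → Row w (μ, 0)) ∧
      ∀ i ≤ N, ∀ k, mm w i ≤ k → h.1 i k = d0 * Lf (μ, 0) (BB w i k) := by
  by_cases hμ : μ = 0
  · refine ⟨0, fun h0 => absurd rfl h0, fun i hi k _ => ?_⟩
    rw [zero_mul]
    refine zero_case w h (fun i hi k hk => ?_) i hi k
    have := hrec i hi (k - 1) (by omega)
    rwa [sub_add_cancel, hμ, zero_mul] at this
  have hpow : ∀ i ≤ N, ∀ k, mm w i ≤ k → h.1 i k = μ ^ k * h.1 i 0 := fun i hi k hk =>
    rec_pow hμ (mm_nonpos w i) (hrec i hi) k hk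
  by_cases hn : ‖μ‖ ≤ 1
  · have hadm : Adm (μ, 0) := ⟨hμ, hn, fun _ => rfl⟩
    have hc : ∀ i ≤ N, h.1 i 0 = h.1 0 0 * BB w i 0 μ := by
      intro i
      induction i with
      | zero =>
        intro _
        rw [BB_zero, zpow_zero, mul_one]
      | succ i ih =>
        intro hi
        have hi' : i < N := hi
        have h1 := h.2.2.2.2 ⟨i, hi'⟩ 0
        have h2 := (Lf_BB_tendsto w hadm ⟨i, hi'⟩ ((0 : ℕ) : ℤ)).const_mul (h.1 0 0)
        have h3 : ∀ f : ℂ → ℂ, Lf (μ, 0) f = f μ := fun f => by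
          unfold Lf
          rw [iteratedDeriv_zero]
        simp only [h3] at h2
        refine tendsto_nhds_unique h1 (h2.congr fun n => ?_)
        rw [Finset.mul_sum]
        refine Finset.sum_congr rfl fun x _ => ?_
        have h4 := mm_fin w ⟨i, hi'⟩
        simp only at h4
        rw [hpow i hi'.le _ (by rw [h4]; omega), ih hi'.le, BB_pow w i (w.m ⟨i, hi'⟩ + x + (0 : ℕ)) μ]
        ring
    refine ⟨h.1 0 0, fun hne => ⟨hadm, fun τ hτ => ?_⟩, fun i hi k hk => ?_⟩
    · have h1 := hc N le_rfl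
      rw [h.2.2.1 0, BB_N, zpow_zero, one_mul] at h1
      have h2 : w.GS μ = 1 := by
        have h3 : h.1 0 0 * (w.GS μ - 1) = 0 := by linear_combination -h1
        exact sub_eq_zero.1 ((mul_eq_zero.1 h3).resolve_left hne)
      rw [Nat.le_zero.1 hτ, iteratedDeriv_zero]
      simp only
      rw [h2, sub_self]
    · rw [hpow i hi k hk, hc i hi]
      unfold Lf
      rw [iteratedDeriv_zero]
      simp only
      rw [BB_pow w i k μ]
      ring
  · refine ⟨0, fun h0 => absurd rfl h0, fun i hi k hk => ?_⟩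
    rw [zero_mul, hpow i hi k hk]
    obtain ⟨C, hC⟩ := h.2.2.2.1
    have h0 : h.1 i 0 = 0 := by
      by_contra hne
      have hpos : 0 < ‖h.1 i 0‖ := norm_pos_iff.2 hne
      obtain ⟨n, hn2⟩ := pow_unbounded_of_one_lt (C / ‖h.1 i 0‖) (not_le.1 hn)
      have h1 := hC i hi n
      rw [hpow i hi n ((mm_nonpos w i).trans (Int.natCast_nonneg n)), zpow_natCast, norm_mul,
        norm_pow] at h1
      rw [div_lt_iff₀ hpos] at hn2
      exact absurd h1 (not_le.2 hn2)
    rw [h0, mul_zero]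

end Pool.Agent.X3.RW
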