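import Mathlib

/-!
A bounded function which is subharmonic for a walk with negative drift, killed below zero, vanishes.
-/

set_option autoImplicit false

namespace Pool.Agent.X3.RW

open Finset

theorem lyap {N : ℕ} (a : ℕ → ℤ → ℝ) (q : Fin N → ℕ → ℝ) (m : Fin N → ℤ) (μ : Fin N → ℝ)
    (bdd : ∃ C : ℝ, ∀ i < N, ∀ k : ℕ, a i k ≤ C)
    (hneg : ∀ i : Fin N, ∀ k : ℤ, m i ≤ k → k < 0 → a i k = 0)
    (hsub : ∀ i : Fin N, ∀ k : ℕ, ∀ (f : ℕ → ℝ) (T : ℝ), (∀ x : ℕ, a i (m i + x + k) ≤ f x) →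
      HasSum (fun x => q i x * f x) T → a (i + 1) k ≤ T)
    (cyc : ∀ k : ℕ, a N k = a 0 k)
    (hq : ∀ i, HasSum (q i) 1) (hμ : ∀ i, HasSum (fun x => q i x * ((m i : ℝ) + x)) (μ i))
    (drift : ∑ i, μ i < 0) (i₀ : ℕ) (hi₀ : i₀ < N) (k₀ : ℕ) : a i₀ k₀ ≤ 0 := by
  by_contra hcon
  rw [not_le] at hcon
  obtain ⟨C, hC⟩ := bdd
  have hN : 0 < N := lt_of_le_of_lt (Nat.zero_le _) hi₀
  have hNR : (0 : ℝ) < N := Nat.cast_pos.2 hN
  set δ : ℝ := -(∑ i, μ i) / N with hδ
  have hδ0 : 0 < δ := div_pos (neg_pos.2 drift) hNR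
  set K : ℝ := ∑ i, |μ i| + ∑ i, |(m i : ℝ)| with hK
  set Cc : ℕ → ℝ := fun i => K + ∑ l ∈ univ.filter (fun l : Fin N => (l : ℕ) < i), μ l + i * δ with hCc
  have hc0 : Cc 0 = K := by simp [hCc]
  have hcN : Cc N = Cc 0 := by
    rw [hc0, hCc]
    have h1 : univ.filter (fun l : Fin N => (l : ℕ) < N) = univ :=
      Finset.filter_true_of_mem fun l _ => l.2
    simp only [h1, hδ]
    field_simp
    ring
  have hcs : ∀ i : Fin N, Cc (i + 1) = Cc i + μ i + δ := by
    intro i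
    have h1 : univ.filter (fun l : Fin N => (l : ℕ) < (i : ℕ) + 1) =
        insert i (univ.filter (fun l : Fin N => (l : ℕ) < i)) := by
      ext l
      simp only [mem_filter, mem_univ, true_and, mem_insert, Fin.ext_iff]
      omega
    simp only [hCc]
    rw [h1, Finset.sum_insert (by simp)]
    push_cast
    ring
  have hcge : ∀ i, ∑ i, |(m i : ℝ)| ≤ Cc i := by
    intro i
    simp only [hCc, hK]
    have h1 : -∑ l, |μ l| ≤ ∑ l ∈ univ.filter (fun l : Fin N => (l : ℕ) < i), μ l := by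
      rw [neg_le]
      calc -∑ l ∈ univ.filter (fun l : Fin N => (l : ℕ) < i), μ l
          = ∑ l ∈ univ.filter (fun l : Fin N => (l : ℕ) < i), -μ l := by
            rw [Finset.sum_neg_distrib]
        _ ≤ ∑ l ∈ univ.filter (fun l : Fin N => (l : ℕ) < i), |μ l| :=
            Finset.sum_le_sum fun l _ => neg_le_abs _
        _ ≤ ∑ l, |μ l| := Finset.sum_le_sum_of_subset_of_nonneg (Finset.filter_subset _ _)
            fun _ _ _ => abs_nonneg _
    have h2 : 0 ≤ (i : ℝ) * δ := by positivity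
    linarith
  have hcm : ∀ (i : Fin N) (n : ℕ), 0 ≤ (m i : ℝ) + Cc n := by
    intro i n
    have h1 := hcge n
    have h2 : |(m i : ℝ)| ≤ ∑ i, |(m i : ℝ)| :=
      Finset.single_le_sum (f := fun i => |(m i : ℝ)|) (fun _ _ => abs_nonneg _) (mem_univ i)
    have h3 := neg_abs_le (m i : ℝ)
    linarith
  have hcnn : ∀ n, 0 ≤ Cc n := fun n =>
    (Finset.sum_nonneg fun _ _ => abs_nonneg _).trans (hcge n)
  set ε : ℝ := a i₀ k₀ / (2 * ((k₀ : ℝ) + Cc i₀ + 1)) with hε
  have hden : 0 < 2 * ((k₀ : ℝ) + Cc i₀ + 1) := by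
    have := hcnn i₀
    positivity
  have hε0 : 0 < ε := div_pos hcon hden
  set v : Fin N × ℕ → ℝ := fun x => a x.1 x.2 - ε * ((x.2 : ℝ) + Cc x.1) with hv
  have hvb : BddAbove (Set.range v) := by
    refine ⟨C, ?_⟩
    rintro _ ⟨x, rfl⟩
    have h1 := hC x.1 x.1.2 x.2
    have h2 : 0 ≤ ε * ((x.2 : ℝ) + Cc x.1) := by
      have := hcnn x.1
      positivity
    simp only [hv]
    linarith
  set M : ℝ := ⨆ x, v x with hM
  have hMv : ∀ x, v x ≤ M := fun x => le_ciSup hvb x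
  have hM0 : 0 < M := by
    refine lt_of_lt_of_le ?_ (hMv (⟨i₀, hi₀⟩, k₀))
    simp only [hv]
    have h1 : ε * (2 * ((k₀ : ℝ) + Cc i₀ + 1)) = a i₀ k₀ := by
      rw [hε, div_mul_cancel₀ _ hden.ne']
    have := hcnn i₀
    nlinarith
  have hNe : Nonempty (Fin N × ℕ) := ⟨(⟨i₀, hi₀⟩, k₀)⟩
  obtain ⟨⟨i, k⟩, hik⟩ := exists_lt_of_lt_ciSup
    (show M - ε * δ / 2 < ⨆ x, v x by
      have : 0 < ε * δ / 2 := by positivity
      rw [← hM]
      linarith)
  -- the predecessor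
  obtain ⟨i', h1, h2⟩ : ∃ i' : Fin N, a i k = a (i' + 1) k ∧ Cc i = Cc (i' + 1) := by
    rcases Nat.eq_zero_or_pos (i : ℕ) with h0 | h0
    · refine ⟨⟨N - 1, by omega⟩, ?_, ?_⟩
      · rw [h0]
        simp only [Nat.sub_add_cancel hN]
        exact (cyc k).symm
      · rw [h0]
        simp only [Nat.sub_add_cancel hN]
        exact hcN.symm
    · have h3 := i.2
      refine ⟨⟨(i : ℕ) - 1, by omega⟩, ?_, ?_⟩
      · simp only [Nat.sub_add_cancel h0]
      · simp only [Nat.sub_add_cancel h0]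
  have h3 : a (i' + 1) k ≤ M + ε * ((k : ℝ) + Cc (i' + 1) - δ) := by
    refine hsub i' k (fun x => M + ε * ((((m i' + x + k : ℤ)) : ℝ) + Cc i')) _ ?_ ?_
    · intro x
      rcases lt_or_ge (m i' + x + k) 0 with h4 | h4
      · rw [hneg i' _ (by omega) h4]
        have h5 := hcm i' i'
        have h6 : (0 : ℝ) ≤ ((m i' + x + k : ℤ) : ℝ) + Cc i' := by
          push_cast
          have h7 : (0 : ℝ) ≤ x := Nat.cast_nonneg x
          have h8 : (0 : ℝ) ≤ k := Nat.cast_nonneg k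
          linarith
        have := mul_nonneg hε0.le h6
        linarith
      · obtain ⟨n, hn⟩ := Int.eq_ofNat_of_zero_le h4
        have h5 := hMv (i', n)
        simp only [hv] at h5
        rw [hn]
        push_cast
        linarith
    · have h4 := ((hq i').mul_right (M + ε * ((k : ℝ) + Cc i'))).add ((hμ i').mul_left ε)
      have h5 : (fun x : ℕ => q i' x * (M + ε * (((m i' + x + k : ℤ) : ℝ) + Cc i'))) =
          fun x => q i' x * (M + ε * ((k : ℝ) + Cc i')) + ε * (q i' x * ((m i' : ℝ) + x)) := by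
        funext x
        push_cast
        ring
      rw [h5]
      have h6 : M + ε * ((k : ℝ) + Cc (i' + 1) - δ) =
          1 * (M + ε * ((k : ℝ) + Cc i')) + ε * μ i' := by
        rw [hcs]
        ring
      rw [h6]
      exact h4
  simp only [hv] at hik
  rw [h1, h2] at hik
  have h4 : 0 < ε * δ := by positivity
  linarith

end Pool.Agent.X3.RW
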