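import Pool.Agent.X3.RWAn
import Pool.Agent.X3.RWLyap

/-!
The harmonic functions belonging to a relation between the rows.
-/

set_option autoImplicit false

namespace Pool.Agent.X3.RW

open Finset Filter Topology

theorem hasSum_shift {E : Type*} [AddCommMonoid E] [TopologicalSpace E] {f : ℤ → E} {m : ℤ}
    (hf : ∀ k, k < m → f k = 0) {a : E} (h : HasSum f a) : HasSum (fun n : ℕ => f (m + n)) a := by
  have hinj : Function.Injective (fun n : ℕ => m + (n : ℤ)) := fun x y hxy => by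
    simp only at hxy
    omega
  refine (hinj.hasSum_iff ?_).2 h
  intro x hx
  apply hf
  by_contra hge
  rw [not_lt] at hge
  exact hx ⟨(x - m).toNat, by simp only; omega⟩

theorem tsum_shift {f : ℤ → ℂ} {m : ℤ} (hf : ∀ k, k < m → f k = 0) :
    ∑' k, f k = ∑' n : ℕ, f (m + n) := by
  have hinj : Function.Injective (fun n : ℕ => m + (n : ℤ)) := fun x y hxy => by
    simp only at hxy
    omega
  refine (hinj.tsum_eq ?_).symm
  intro x hx
  have : ¬ x < m := fun h => hx (hf x h)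
  exact ⟨(x - m).toNat, by simp only; omega⟩

variable {N : ℕ} (w : Walk N)

/-- the shifted law -/
def qq (j : Fin N) (n : ℕ) : ℝ := w.p j (w.m j + n)

theorem qq_nonneg (j : Fin N) (n : ℕ) : 0 ≤ qq w j n := w.nonneg _ _

theorem qq_sum (j : Fin N) : HasSum (qq w j) 1 := hasSum_shift (w.below j) (w.sum_one j)

theorem qq_mean (j : Fin N) : HasSum (fun n : ℕ => qq w j n * ((w.m j : ℝ) + n))
    (∑' k : ℤ, (k : ℝ) * w.p j k) := by
  have h1 := hasSum_shift (m := w.m j) (f := fun k : ℤ => (k : ℝ) * w.p j k)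
    (fun k hk => by simp only [w.below j k hk, mul_zero]) (w.mean_summable j).hasSum
  have h2 : (fun n : ℕ => qq w j n * ((w.m j : ℝ) + n)) =
      fun n : ℕ => ((w.m j + n : ℤ) : ℝ) * w.p j (w.m j + n) := by
    funext n
    unfold qq
    push_cast
    ring
  rw [h2]
  exact h1

theorem G_eq (j : Fin N) (s : ℂ) : w.G j s = ∑' n : ℕ, (qq w j n : ℂ) * s ^ (w.m j + n) := by
  unfold Walk.G qq
  exact tsum_shift (fun k hk => by rw [w.below j k hk]; simp)

theorem G_diff (j : Fin N) : DifferentiableOn ℂ (w.G j) UU := by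
  have h1 := exchange (qq_nonneg w j) (qq_sum w j).summable (w.m j) (fun _ => 1)
    (differentiableOn_const _)
  have h2 := h1.differentiableOn (Eventually.of_forall fun n =>
    DifferentiableOn.fun_sum fun x _ => ((diff_zpow _).mul (differentiableOn_const _)).const_mul _)
    isOpen_UU
  refine h2.congr fun s _ => ?_
  rw [mul_one]
  exact G_eq w j s

/-- the function `s^k` times the generating function of `X_0 + ⋯ + X_{i-1}` -/
noncomputable def BB (i : ℕ) (k : ℤ) (s : ℂ) : ℂ :=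
  s ^ k * ∏ l ∈ univ.filter (fun l : Fin N => (l : ℕ) < i), w.G l s

theorem BB_diff (i : ℕ) (k : ℤ) : DifferentiableOn ℂ (BB w i k) UU :=
  (diff_zpow k).mul (DifferentiableOn.fun_finsetProd fun l _ => G_diff w l)

theorem BB_succ (i : Fin N) (k : ℤ) (s : ℂ) :
    BB w (i + 1) k s = (∑' n : ℕ, (qq w i n : ℂ) * s ^ (w.m i + n)) * BB w i k s := by
  unfold BB
  have h1 : univ.filter (fun l : Fin N => (l : ℕ) < (i : ℕ) + 1) =
      insert i (univ.filter (fun l : Fin N => (l : ℕ) < i)) := by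
    ext l
    simp only [mem_filter, mem_univ, true_and, mem_insert, Fin.ext_iff]
    omega
  rw [h1, Finset.prod_insert (by simp), ← G_eq]
  ring

theorem BB_N (k : ℤ) (s : ℂ) : BB w N k s = s ^ k * w.GS s := by
  unfold BB Walk.GS
  have h1 : univ.filter (fun l : Fin N => (l : ℕ) < N) = univ :=
    Finset.filter_true_of_mem fun l _ => l.2
  rw [h1]

theorem BB_zero (k : ℤ) (s : ℂ) : BB w 0 k s = s ^ k := by
  unfold BB
  simp

theorem BB_shift (i : ℕ) (k : ℤ) (m : ℤ) (x : ℕ) (s : ℂ) (hs : s ≠ 0) :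
    s ^ (m + x) * BB w i k s = BB w i (m + x + k) s := by
  unfold BB
  rw [zpow_add₀ hs (m + x) k]
  ring

/-- the indices of the rows, including the last one -/
def Row (ρ : ℂ × ℕ) : Prop :=
  Adm ρ ∧ ∀ τ ≤ ρ.2, iteratedDeriv τ (fun s => w.GS s - 1) ρ.1 = 0

theorem Lf_BB_tendsto {ρ : ℂ × ℕ} (hρ : Adm ρ) (i : Fin N) (k : ℤ) :
    Tendsto (fun n => ∑ x ∈ range n, (qq w i x : ℂ) * Lf ρ (BB w i (w.m i + x + k))) atTop
      (𝓝 (Lf ρ (BB w (i + 1) k))) := by
  have h1 := Lf_tendsto hρ (qq_nonneg w i) (qq_sum w i).summable (w.m i) (BB w i k) (BB_diff w i k)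
  have h2 : Lf ρ (fun s => (∑' x : ℕ, (qq w i x : ℂ) * s ^ (w.m i + x)) * BB w i k s) =
      Lf ρ (BB w (i + 1) k) := Lf_congr hρ.1 fun s _ => (BB_succ w i k s).symm
  rw [h2] at h1
  refine h1.congr fun n => ?_
  refine Finset.sum_congr rfl fun x _ => ?_
  rw [Lf_congr hρ.1 fun s hs => BB_shift w i k (w.m i) x s hs]

theorem Lf_BB_N {ρ : ℂ × ℕ} (hρ : Row w ρ) (k : ℤ) : Lf ρ (BB w N k) = Lf ρ (BB w 0 k) := by
  have h1 : ∀ s, BB w N k s = (s ^ k * (w.GS s - 1)) + BB w 0 k s := by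
    intro s
    rw [BB_N, BB_zero]
    ring
  rw [Lf_congr hρ.1.1 fun s _ => h1 s]
  have hGd : DifferentiableOn ℂ (fun s => w.GS s - 1) UU := by
    have : DifferentiableOn ℂ w.GS UU := DifferentiableOn.fun_finsetProd fun l _ => G_diff w l
    exact this.sub_const 1
  have hd : DifferentiableOn ℂ (fun s => s ^ k * (w.GS s - 1)) UU := (diff_zpow k).mul hGd
  rw [Lf_add (good_of_diff hρ.1 hd) (good_of_diff hρ.1 (BB_diff w 0 k))]
  have h2 : Lf ρ (fun s => s ^ k * (w.GS s - 1)) = 0 := by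
    unfold Lf
    rcases hρ.1.mem with h0 | hU
    · have h3 := hρ.2 0 (Nat.zero_le _)
      rw [iteratedDeriv_zero] at h3
      rw [h0, iteratedDeriv_zero, h3, mul_zero]
    · have hn := isOpen_UU.mem_nhds hU
      exact iteratedDeriv_mul_zero ρ.2 _ _ ρ.1 (hGd.analyticAt hn) ((diff_zpow k).analyticAt hn) hρ.2
  rw [h2, zero_add]

/-- the harmonic function of a relation -/
noncomputable def hf (S : Finset (ℂ × ℕ)) (g : ℂ × ℕ → ℂ) (i : ℕ) (k : ℤ) : ℂ :=
  ∑ ρ ∈ S, g ρ * Lf ρ (BB w i k)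

theorem hf_zero (S : Finset (ℂ × ℕ)) (g : ℂ × ℕ → ℂ) (hS : ∀ ρ ∈ S, Row w ρ)
    (hneg : ∀ i : Fin N, ∀ k : ℤ, w.m i ≤ k → k < 0 → hf w S g i k = 0) (i : ℕ) (hi : i < N)
    (k : ℕ) : hf w S g i k = 0 := by
  rw [← norm_le_zero_iff]
  refine lyap (fun i k => ‖hf w S g i k‖) (qq w) w.m (fun j => ∑' k : ℤ, (k : ℝ) * w.p j k)
    ?_ ?_ ?_ ?_ (qq_sum w) (qq_mean w) w.drift i hi k
  · have h1 : ∀ i : ℕ, ∃ C : ℝ, ∀ k : ℕ, ‖hf w S g i k‖ ≤ C := by
      intro i
      have h2 : ∀ ρ : ℂ × ℕ, ∃ C : ℝ, ρ ∈ S → ∀ k : ℕ, ‖Lf ρ (BB w i k)‖ ≤ C := by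
        intro ρ
        by_cases hρ : ρ ∈ S
        · obtain ⟨C, hC⟩ := Lf_bdd (hS ρ hρ).1
            (fun s => ∏ l ∈ univ.filter (fun l : Fin N => (l : ℕ) < i), w.G l s)
            (DifferentiableOn.fun_finsetProd fun l _ => G_diff w l)
          exact ⟨C, fun _ k => hC k⟩
        · exact ⟨0, fun h => absurd h hρ⟩
      choose C hC using h2
      refine ⟨∑ ρ ∈ S, ‖g ρ‖ * C ρ, fun k => ?_⟩
      unfold hf
      refine (norm_sum_le _ _).trans (Finset.sum_le_sum fun ρ hρ => ?_)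
      rw [norm_mul]
      exact mul_le_mul_of_nonneg_left (hC ρ hρ k) (norm_nonneg _)
    choose C hC using h1
    refine ⟨∑ i ∈ range N, |C i|, fun i hi k => ?_⟩
    refine (hC i k).trans ((le_abs_self _).trans ?_)
    exact Finset.single_le_sum (f := fun i => |C i|) (fun _ _ => abs_nonneg _) (mem_range.2 hi)
  · intro i k h1 h2
    simp only [hneg i k h1 h2, norm_zero]
  · intro i k f T hf' hT
    have h1 : Tendsto (fun n => ∑ x ∈ range n, (qq w i x : ℂ) * hf w S g i (w.m i + x + k)) atTop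
        (𝓝 (hf w S g (i + 1) k)) := by
      unfold hf
      have h2 : ∀ n, ∑ x ∈ range n, (qq w i x : ℂ) *
          ∑ ρ ∈ S, g ρ * Lf ρ (BB w i (w.m i + x + k)) =
          ∑ ρ ∈ S, g ρ * ∑ x ∈ range n, (qq w i x : ℂ) * Lf ρ (BB w i (w.m i + x + k)) := by
        intro n
        simp only [Finset.mul_sum]
        rw [Finset.sum_comm]
        refine Finset.sum_congr rfl fun ρ _ => Finset.sum_congr rfl fun x _ => ?_
        ring
      simp only [h2]
      exact tendsto_finsetSum _ fun ρ hρ => (Lf_BB_tendsto w (hS ρ hρ).1 i k).const_mul _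
    have h3 := h1.norm
    refine le_of_tendsto_of_tendsto h3 hT.tendsto_sum_nat (Eventually.of_forall fun n => ?_)
    refine (norm_sum_le _ _).trans (Finset.sum_le_sum fun x _ => ?_)
    rw [norm_mul, Complex.norm_real, Real.norm_of_nonneg (qq_nonneg w i x)]
    exact mul_le_mul_of_nonneg_left (hf' x) (qq_nonneg w i x)
  · intro k
    congr 1
    unfold hf
    exact Finset.sum_congr rfl fun ρ hρ => by rw [Lf_BB_N w (hS ρ hρ)]

/-- the entries of the rows -/
theorem Lf_phi {ρ : ℂ × ℕ} (hρ : Adm ρ) (j : Fin N) (c : ℕ) :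
    Lf ρ (w.phi j c) = ∑ r ∈ range ((-w.m j).toNat - c),
      (w.F j (w.m j + r) : ℂ) * Lf ρ (BB w j (w.m j + r + c)) := by
  have h1 : ∀ s, s ≠ 0 → w.phi j c s = ∑ r ∈ range ((-w.m j).toNat - c),
      (w.F j (w.m j + r) : ℂ) * BB w j (w.m j + r + c) s := by
    intro s hs
    unfold Walk.phi Walk.W BB
    rw [Finset.mul_sum]
    refine Finset.sum_congr rfl fun r _ => ?_
    rw [add_assoc (w.m j), zpow_add₀ hs (w.m j)]
    ring
  rw [Lf_congr hρ.1 h1, Lf_sum]
  · exact Finset.sum_congr rfl fun r _ => Lf_const_mul _ _ _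
  · exact fun r _ => good_const_mul _ (good_of_diff hρ (BB_diff w _ _))

theorem F_m (j : Fin N) : w.F j (w.m j) = w.p j (w.m j) := by
  unfold Walk.F
  rw [tsum_eq_single (w.m j)]
  · rw [if_pos le_rfl]
  · intro k hk
    split_ifs with h
    · exact w.below j k (lt_of_le_of_ne h hk)
    · rfl

theorem hf_neg (S : Finset (ℂ × ℕ)) (g : ℂ × ℕ → ℂ) (hS : ∀ ρ ∈ S, Row w ρ)
    (hrel : ∀ (j : Fin N) (c : ℕ), c < (-w.m j).toNat → ∑ ρ ∈ S, g ρ * Lf ρ (w.phi j c) = 0)
    (i : Fin N) (k : ℤ) (h1 : w.m i ≤ k) (h2 : k < 0) : hf w S g i k = 0 := by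
  have key : ∀ d : ℕ, d < (-w.m i).toNat → hf w S g i (-1 - d) = 0 := by
    intro d
    induction d using Nat.strong_induction_on with
    | _ d ih =>
      intro hd
      set c := (-w.m i).toNat - 1 - d with hc
      have h3 := hrel i c (by omega)
      have h4 : ∑ ρ ∈ S, g ρ * Lf ρ (w.phi i c) = ∑ r ∈ range ((-w.m i).toNat - c),
          (w.F i (w.m i + r) : ℂ) * hf w S g i (w.m i + r + c) := by
        unfold hf
        simp only [Finset.mul_sum]
        rw [Finset.sum_comm]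
        refine Finset.sum_congr rfl fun ρ hρ => ?_
        rw [Lf_phi w (hS ρ hρ).1, Finset.mul_sum]
        refine Finset.sum_congr rfl fun r _ => ?_
        ring
      rw [h4, show (-w.m i).toNat - c = d + 1 by omega, Finset.sum_range_succ'] at h3
      have h5 : ∑ r ∈ range d, (w.F i (w.m i + ((r + 1 : ℕ) : ℤ)) : ℂ) *
          hf w S g i (w.m i + ((r + 1 : ℕ) : ℤ) + c) = 0 := by
        refine Finset.sum_eq_zero fun r hr => ?_
        rw [mem_range] at hr
        have h6 : w.m i + ((r + 1 : ℕ) : ℤ) + c = -1 - ((d - 1 - r : ℕ) : ℤ) := by omega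
        rw [h6, ih (d - 1 - r) (by omega) (by omega), mul_zero]
      rw [h5, zero_add] at h3
      have h7 : w.m i + ((0 : ℕ) : ℤ) + c = -1 - (d : ℤ) := by omega
      rw [h7, Nat.cast_zero, add_zero, F_m] at h3
      rcases mul_eq_zero.1 h3 with h8 | h8
      · exact absurd (Complex.ofReal_eq_zero.1 h8) (w.atm i).ne'
      · exact h8
  obtain ⟨d, hd⟩ : ∃ d : ℕ, k = -1 - d := ⟨(-1 - k).toNat, by omega⟩
  rw [hd]
  exact key d (by omega)

end Pool.Agent.X3.RW
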