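import Pool.Agent.X3.RWEx

/-!
The rows span the space of bounded harmonic systems.
-/

set_option autoImplicit false

namespace Pool.Agent.X3.RW

open Finset Filter Topology

variable {N : ℕ} (w : Walk N)

/-- the system of a row -/
noncomputable def EE0 (ρ : ℂ × ℕ) (i : ℕ) (k : ℤ) : ℂ :=
  if i ≤ N ∧ mm w i ≤ k then Lf ρ (BB w i k) else 0

theorem EE0_mem {ρ : ℂ × ℕ} (hρ : Row w ρ) : EE0 w ρ ∈ Sys w := by
  refine ⟨fun i k hik => ?_, fun k => ?_, ?_, fun i k => ?_⟩
  · unfold EE0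
    rw [if_neg]
    rintro ⟨h1, h2⟩
    rcases hik with h | h <;> omega
  · unfold EE0
    simp only [mm_N, le_refl, Nat.zero_le, true_and, Lf_BB_N w hρ]
  · have h1 : ∀ i : ℕ, ∃ C : ℝ, ∀ k : ℕ, ‖Lf ρ (BB w i k)‖ ≤ C := fun i =>
      Lf_bdd hρ.1 (fun s => ∏ l ∈ univ.filter (fun l : Fin N => (l : ℕ) < i), w.G l s)
        (DifferentiableOn.fun_finsetProd fun l _ => G_diff w l)
    choose C hC using h1
    refine ⟨∑ i ∈ range (N + 1), |C i|, fun i hi k => ?_⟩
    have h2 : |C i| ≤ ∑ i ∈ range (N + 1), |C i| :=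
      Finset.single_le_sum (f := fun i => |C i|) (fun _ _ => abs_nonneg _)
        (mem_range.2 (Nat.lt_succ_of_le hi))
    unfold EE0
    split_ifs
    · exact (hC i k).trans ((le_abs_self _).trans h2)
    · rw [norm_zero]
      exact (abs_nonneg _).trans h2
  · have e1 : ∀ x : ℕ, (i : ℕ) ≤ N ∧ mm w i ≤ w.m i + x + k := fun x =>
      ⟨i.2.le, by rw [mm_fin]; omega⟩
    have e2 : (i : ℕ) + 1 ≤ N ∧ mm w (i + 1) ≤ (k : ℤ) :=
      ⟨i.2, (mm_nonpos w _).trans (Int.natCast_nonneg k)⟩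
    unfold EE0
    simp only [if_pos (e1 _), if_pos e2]
    exact Lf_BB_tendsto w hρ.1 i k

/-- the system of a row, as an element of the space -/
noncomputable def EE (a : Option w.Zero) : Sys w := ⟨EE0 w (emb w a), EE0_mem w (emb_row w a)⟩

theorem row_emb {μ : ℂ} {t : ℕ} (h : Row w (μ, t)) : ∃ a, emb w a = (μ, t) := by
  by_cases hμ : μ = 1
  · refine ⟨none, ?_⟩
    subst hμ
    have h1 : t = 0 := h.1.2.2 norm_one
    rw [h1]
    rfl
  · exact ⟨some ⟨(μ, t), h.1.1, hμ, h.1.2.1, h.2, h.1.2.2⟩, rfl⟩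

theorem mem_span {μ : ℂ} {n : ℕ} (v : Sys w) (d : ℕ → ℂ) (hd : ∀ t, d t ≠ 0 → Row w (μ, t))
    (hv : ∀ i ≤ N, ∀ k, mm w i ≤ k → v.1 i k = ∑ t ∈ range n, d t * Lf (μ, t) (BB w i k)) :
    v ∈ Submodule.span ℂ (Set.range (EE w)) := by
  classical
  set e' : ℕ → Sys w := fun t => if h : Row w (μ, t) then ⟨EE0 w (μ, t), EE0_mem w h⟩ else 0
    with he'
  have h1 : v = ∑ t ∈ range n, d t • e' t := by
    apply Subtype.ext
    funext i k
    rw [Submodule.coe_sum, Finset.sum_apply, Finset.sum_apply]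
    have h2 : ∀ t ∈ range n, ((d t • e' t : Sys w) : ℕ → ℤ → ℂ) i k =
        d t * (if i ≤ N ∧ mm w i ≤ k then Lf (μ, t) (BB w i k) else 0) := by
      intro t _
      change d t * (e' t).1 i k = _
      by_cases h0 : d t = 0
      · rw [h0, zero_mul, zero_mul]
      · have h3 : e' t = ⟨EE0 w (μ, t), EE0_mem w (hd t h0)⟩ := by
          rw [he']
          simp only [dif_pos (hd t h0)]
        rw [h3]
        rfl
    rw [Finset.sum_congr rfl h2]
    by_cases hik : i ≤ N ∧ mm w i ≤ k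
    · simp only [if_pos hik]
      exact hv i hik.1 k hik.2
    · simp only [if_neg hik, mul_zero, Finset.sum_const_zero]
      refine v.2.1 i k ?_
      by_cases hi : N < i
      · exact Or.inl hi
      · exact Or.inr (lt_of_not_ge fun hk => hik ⟨not_lt.1 hi, hk⟩)
  rw [h1]
  refine Submodule.sum_mem _ fun t _ => ?_
  by_cases h0 : Row w (μ, t)
  · obtain ⟨a, ha⟩ := row_emb w h0
    refine Submodule.smul_mem _ _ (Submodule.subset_span ⟨a, ?_⟩)
    rw [he']
    simp only [dif_pos h0]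
    apply Subtype.ext
    change EE0 w (emb w a) = EE0 w (μ, t)
    rw [ha]
  · rw [he']
    simp only [dif_neg h0, smul_zero]
    exact Submodule.zero_mem _

theorem rec_pow {f : ℤ → ℂ} {μ : ℂ} (hμ : μ ≠ 0) {M : ℤ} (hM : M ≤ 0)
    (h : ∀ k, M ≤ k → f (k + 1) = μ * f k) (k : ℤ) (hk : M ≤ k) : f k = μ ^ k * f 0 := by
  have h1 : ∀ k, M ≤ k → f k = μ ^ (k - M) * f M := by
    intro k hk
    induction k, hk using Int.leInduction with
    | base => rw [sub_self, zpow_zero, one_mul]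
    | succ k hk ih =>
      rw [h k hk, ih, show k + 1 - M = (k - M) + 1 by ring, zpow_add_one₀ hμ]
      ring
  rw [h1 k hk, h1 0 hM, ← mul_assoc, ← zpow_add₀ hμ]
  congr 2
  ring

theorem BB_succ_k (i : ℕ) (k : ℤ) (s : ℂ) (hs : s ≠ 0) : BB w i (k + 1) s = s * BB w i k s := by
  unfold BB
  rw [zpow_add_one₀ hs]
  ring

theorem BB_pow (i : ℕ) (k : ℤ) (s : ℂ) : BB w i k s = s ^ k * BB w i 0 s := by
  unfold BB
  rw [zpow_zero, one_mul]

theorem deriv_id_mul_fun {f : ℂ → ℂ} {a : ℂ} (hf : DifferentiableAt ℂ f a) :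
    deriv (fun s => s * f s) a = f a + a * deriv f a := by
  have h := (hasDerivAt_id' a).fun_mul hf.hasDerivAt
  rw [h.deriv, one_mul]

theorem iteratedDeriv_id_mul (t : ℕ) : ∀ (f : ℂ → ℂ) (a : ℂ), AnalyticAt ℂ f a →
    iteratedDeriv (t + 1) (fun s => s * f s) a =
      a * iteratedDeriv (t + 1) f a + (t + 1) * iteratedDeriv t f a := by
  induction t with
  | zero =>
    intro f a hf
    rw [zero_add, iteratedDeriv_one, iteratedDeriv_one, iteratedDeriv_zero,
      deriv_id_mul_fun hf.differentiableAt]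
    push_cast
    ring
  | succ t ih =>
    intro f a hf
    rw [iteratedDeriv_succ']
    have h1 : deriv (fun s => s * f s) =ᶠ[𝓝 a] fun s => f s + s * deriv f s := by
      filter_upwards [hf.eventually_analyticAt] with s hs
      exact deriv_id_mul_fun hs.differentiableAt
    have c2 : AnalyticAt ℂ (fun s => s * deriv f s) a := analyticAt_id.mul hf.deriv
    rw [h1.iteratedDeriv_eq, iteratedDeriv_fun_add hf.contDiffAt c2.contDiffAt, ih _ a hf.deriv,
      ← iteratedDeriv_succ', ← iteratedDeriv_succ']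
    push_cast
    ring

theorem L_shift {μ : ℂ} (hμ : μ ∈ UU) (t i : ℕ) (k : ℤ) : Lf (μ, t + 1) (BB w i (k + 1)) =
    μ * Lf (μ, t + 1) (BB w i k) + (t + 1) * Lf (μ, t) (BB w i k) := by
  rw [Lf_congr (ρ := (μ, t + 1)) hμ.1 fun s hs => BB_succ_k w i k s hs]
  exact iteratedDeriv_id_mul t _ μ ((BB_diff w i k).analyticAt (isOpen_UU.mem_nhds hμ))

theorem TV_apply (h : Sys w) (i : ℕ) (k : ℤ) :
    (TV w h).1 i k = if mm w i ≤ k then h.1 i (k + 1) else 0 := rfl

end Pool.Agent.X3.RW
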