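import Pool.Agent.X3.RWGen

/-!
The number of rows: the matrix is square.
-/

set_option autoImplicit false

namespace Pool.Agent.X3.RW

open Finset Filter Topology

variable {N : ℕ} (w : Walk N)

theorem outer_case (μ : ℂ) (n : ℕ) (hU : μ ∉ UU) (h : Sys w) (d' : ℕ → ℂ)
    (hd' : ∀ t, d' t ≠ 0 → Row w (μ, t))
    (hrec : ∀ i ≤ N, ∀ k, mm w i ≤ k →
      h.1 i (k + 1) = μ * h.1 i k + ∑ t ∈ range n, d' t * Lf (μ, t) (BB w i k)) :
    ∀ i ≤ N, ∀ k, mm w i ≤ k → ∑ t ∈ range n, d' t * Lf (μ, t) (BB w i k) = 0 := by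
  have ht0 : ∀ t, d' t ≠ 0 → t = 0 := fun t ht => (hd' t ht).1.mem.resolve_right hU
  have hd0 : n = 0 ∨ d' 0 = 0 := by
    by_contra hcon
    push Not at hcon
    obtain ⟨hn, hne⟩ := hcon
    have hR := hd' 0 hne
    have hμ : μ ≠ 0 := hR.1.1
    have hnorm : ‖μ‖ = 1 := by
      rcases lt_or_eq_of_le hR.1.2.1 with h1 | h1
      · exact absurd (show μ ∈ UU from ⟨hμ, h1⟩) hU
      · exact h1
    have hs : ∀ k : ℤ, ∑ t ∈ range n, d' t * Lf (μ, t) (BB w 0 k) = d' 0 * μ ^ k := by
      intro k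
      rw [Finset.sum_eq_single 0]
      · unfold Lf
        rw [iteratedDeriv_zero]
        simp only [BB_zero]
      · intro t _ ht
        have : d' t = 0 := by
          by_contra h0
          exact ht (ht0 t h0)
        rw [this, zero_mul]
      · intro h0
        exact absurd (mem_range.2 (Nat.pos_of_ne_zero hn)) h0
    have hk : ∀ k : ℕ, μ * h.1 0 k = μ ^ k * (μ * h.1 0 0 + k * d' 0) := by
      intro k
      induction k with
      | zero => simp
      | succ k ihk =>
        have h1 := hrec 0 (Nat.zero_le _) k ((mm_nonpos w 0).trans (Int.natCast_nonneg k))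
        rw [hs, zpow_natCast] at h1
        push_cast
        rw [h1, mul_add, ihk, pow_succ]
        ring
    obtain ⟨C, hC⟩ := h.2.2.2.1
    obtain ⟨k, hk2⟩ := exists_nat_gt ((C + ‖μ * h.1 0 0‖) / ‖d' 0‖)
    have h1 := hC 0 (Nat.zero_le _) k
    have h2 : ‖h.1 0 k‖ = ‖μ * h.1 0 0 + k * d' 0‖ := by
      have := congrArg norm (hk k)
      rwa [norm_mul, hnorm, one_mul, norm_mul, norm_pow, hnorm, one_pow, one_mul] at this
    have h3 : ‖(k : ℂ) * d' 0‖ ≤ ‖μ * h.1 0 0 + k * d' 0‖ + ‖μ * h.1 0 0‖ := by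
      have := norm_sub_le (μ * h.1 0 0 + k * d' 0) (μ * h.1 0 0)
      rwa [add_sub_cancel_left] at this
    rw [norm_mul, Complex.norm_natCast] at h3
    rw [div_lt_iff₀ (norm_pos_iff.2 hne)] at hk2
    linarith
  intro i _ k _
  refine Finset.sum_eq_zero fun t ht => ?_
  by_cases h0 : d' t = 0
  · rw [h0, zero_mul]
  · have h1 := ht0 t h0
    subst h1
    rcases hd0 with h2 | h2
    · subst h2
      exact absurd ht (by simp)
    · exact absurd h2 h0

theorem inner_case (μ : ℂ) (n : ℕ) (hU : μ ∈ UU) (h : Sys w) (d' : ℕ → ℂ)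
    (hd' : ∀ t, d' t ≠ 0 → Row w (μ, t))
    (hrec : ∀ i ≤ N, ∀ k, mm w i ≤ k →
      h.1 i (k + 1) = μ * h.1 i k + ∑ t ∈ range n, d' t * Lf (μ, t) (BB w i k)) :
    ∃ d : ℕ → ℂ, (∀ t, d t ≠ 0 → Row w (μ, t)) ∧
      ∀ i ≤ N, ∀ k, mm w i ≤ k → h.1 i k = ∑ t ∈ range (n + 1), d t * Lf (μ, t) (BB w i k) := by
  have hadm : ∀ t, Adm (μ, t) := fun t => ⟨hU.1, hU.2.le, fun h1 => absurd h1 hU.2.ne⟩
  set g : ℕ → ℤ → ℂ := fun i k => ∑ t ∈ range n, (d' t / ((t : ℂ) + 1)) * Lf (μ, t + 1) (BB w i k)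
    with hg
  set r : ℕ → ℤ → ℂ := fun i k => h.1 i k - g i k with hr
  have hrr : ∀ i ≤ N, ∀ k, mm w i ≤ k → r i (k + 1) = μ * r i k := by
    intro i hi k hk
    have h1 : g i (k + 1) = μ * g i k + ∑ t ∈ range n, d' t * Lf (μ, t) (BB w i k) := by
      simp only [hg]
      rw [Finset.mul_sum, ← Finset.sum_add_distrib]
      refine Finset.sum_congr rfl fun t _ => ?_
      rw [L_shift w hU]
      have ht : ((t : ℂ) + 1) ≠ 0 := Nat.cast_add_one_ne_zero t
      field_simp
    simp only [hr]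
    rw [hrec i hi k hk, h1]
    ring
  have hpow : ∀ i ≤ N, ∀ k, mm w i ≤ k → r i k = μ ^ k * r i 0 := fun i hi k hk =>
    rec_pow hU.1 (mm_nonpos w i) (hrr i hi) k hk
  have h3 : ∀ f : ℂ → ℂ, Lf (μ, 0) f = f μ := fun f => by
    unfold Lf
    rw [iteratedDeriv_zero]
  have hc : ∀ i ≤ N, r i 0 = r 0 0 * BB w i 0 μ := by
    intro i
    induction i with
    | zero =>
      intro _
      rw [BB_zero, zpow_zero, mul_one]
    | succ i ihi =>
      intro hi
      have hi' : i < N := hi
      have h1 := h.2.2.2.2 ⟨i, hi'⟩ 0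
      have h1g : Tendsto (fun m => ∑ x ∈ range m, (qq w ⟨i, hi'⟩ x : ℂ) *
          g i (w.m ⟨i, hi'⟩ + x + (0 : ℕ))) atTop (𝓝 (g (i + 1) (0 : ℕ))) := by
        simp only [hg]
        have h2 : ∀ m, ∑ x ∈ range m, (qq w ⟨i, hi'⟩ x : ℂ) * ∑ t ∈ range n,
            (d' t / ((t : ℂ) + 1)) * Lf (μ, t + 1) (BB w i (w.m ⟨i, hi'⟩ + x + (0 : ℕ))) =
            ∑ t ∈ range n, (d' t / ((t : ℂ) + 1)) * ∑ x ∈ range m, (qq w ⟨i, hi'⟩ x : ℂ) *
              Lf (μ, t + 1) (BB w i (w.m ⟨i, hi'⟩ + x + (0 : ℕ))) := by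
          intro m
          simp only [Finset.mul_sum]
          rw [Finset.sum_comm]
          refine Finset.sum_congr rfl fun t _ => Finset.sum_congr rfl fun x _ => ?_
          ring
        simp only [h2]
        exact tendsto_finsetSum _ fun t _ =>
          (Lf_BB_tendsto w (hadm (t + 1)) ⟨i, hi'⟩ ((0 : ℕ) : ℤ)).const_mul _
      have h2 := (Lf_BB_tendsto w (hadm 0) ⟨i, hi'⟩ ((0 : ℕ) : ℤ)).const_mul (r 0 0)
      simp only [h3] at h2
      refine tendsto_nhds_unique (h1.sub h1g) (h2.congr fun m => ?_)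
      rw [Finset.mul_sum, ← Finset.sum_sub_distrib]
      refine Finset.sum_congr rfl fun x _ => ?_
      have h4 := mm_fin w ⟨i, hi'⟩
      simp only at h4
      have h5 := hpow i hi'.le (w.m ⟨i, hi'⟩ + x + (0 : ℕ)) (by rw [h4]; omega)
      rw [ihi hi'.le] at h5
      have h6 : h.1 i (w.m ⟨i, hi'⟩ + x + (0 : ℕ)) - g i (w.m ⟨i, hi'⟩ + x + (0 : ℕ)) =
          μ ^ (w.m ⟨i, hi'⟩ + x + (0 : ℕ)) * (r 0 0 * BB w i 0 μ) := h5
      rw [BB_pow w i (w.m ⟨i, hi'⟩ + x + (0 : ℕ)) μ]
      linear_combination (-(qq w ⟨i, hi'⟩ x : ℂ)) * h6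
  set d : ℕ → ℂ := fun t => if t = 0 then r 0 0 else if t ≤ n then d' (t - 1) / t else 0 with hd
  have hdz : d 0 = r 0 0 := by simp [hd]
  have hds : ∀ t, t < n → d (t + 1) = d' t / ((t : ℂ) + 1) := by
    intro t ht
    simp only [hd]
    rw [if_neg (Nat.succ_ne_zero t), if_pos (Nat.succ_le_of_lt ht), Nat.add_sub_cancel]
    push_cast
    rfl
  have he : ∀ i ≤ N, ∀ k, mm w i ≤ k →
      h.1 i k = ∑ t ∈ range (n + 1), d t * Lf (μ, t) (BB w i k) := by
    intro i hi k hk
    rw [Finset.sum_range_succ', hdz, h3]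
    have h5 := hpow i hi k hk
    rw [hc i hi] at h5
    have h6 : h.1 i k = g i k + μ ^ k * (r 0 0 * BB w i 0 μ) := by
      rw [← h5]
      simp only [hr]
      ring
    rw [h6, BB_pow w i k μ]
    simp only [hg]
    rw [Finset.sum_congr rfl fun t ht => by rw [← hds t (mem_range.1 ht)]]
    ring
  have hGd : DifferentiableOn ℂ (fun s => w.GS s - 1) UU := by
    have : DifferentiableOn ℂ w.GS UU := DifferentiableOn.fun_finsetProd fun l _ => G_diff w l
    exact this.sub_const 1
  have heq : ∑ t ∈ range (n + 1), d t * iteratedDeriv t (fun s => w.GS s - 1) μ = 0 := by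
    have h5 : ∀ t, Lf (μ, t) (BB w N 0) =
        iteratedDeriv t (fun s => w.GS s - 1) μ + Lf (μ, t) (BB w 0 0) := by
      intro t
      have h6 : ∀ s, BB w N 0 s = (w.GS s - 1) + BB w 0 0 s := by
        intro s
        rw [BB_N, BB_zero]
        simp
      rw [Lf_congr (ρ := (μ, t)) hU.1 fun s _ => h6 s,
        Lf_add (good_of_diff (hadm t) hGd) (good_of_diff (hadm t) (BB_diff w 0 0))]
      rfl
    have h7 := he N le_rfl 0 (mm_nonpos w N)
    have h8 := he 0 (Nat.zero_le _) 0 (mm_nonpos w 0)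
    rw [h.2.2.1, h8] at h7
    simp only [h5, mul_add, Finset.sum_add_distrib] at h7
    linear_combination -h7
  have hZ : ∀ t, (∃ t', t ≤ t' ∧ d t' ≠ 0) → iteratedDeriv t (fun s => w.GS s - 1) μ = 0 := by
    intro t
    induction t using Nat.strong_induction_on with
    | _ t iht =>
      rintro ⟨t', htt, hne⟩
      by_cases hex : ∃ t'', t < t'' ∧ d t'' ≠ 0
      · obtain ⟨t2, h1, h2⟩ := hex
        have h4 : d' (t2 - 1) ≠ 0 := by
          intro h0
          apply h2
          simp only [hd]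
          rw [if_neg (by omega)]
          split_ifs
          · rw [h0, zero_div]
          · rfl
        exact (hd' _ h4).2 t (by simp only; omega)
      · push Not at hex
        have ht' : t' = t := by
          by_contra hne'
          exact hne (hex t' (by omega))
        subst ht'
        have hle : t' ∈ range (n + 1) := by
          rw [mem_range]
          by_contra hgt
          apply hne
          simp only [hd]
          rw [if_neg (by omega), if_neg (by omega)]
        rw [Finset.sum_eq_single t'] at heq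
        · exact (mul_eq_zero.1 heq).resolve_left hne
        · intro b _ hb
          rcases lt_or_gt_of_ne hb with h1 | h1
          · rw [iht b h1 ⟨t', h1.le, hne⟩, mul_zero]
          · rw [hex b h1, zero_mul]
        · intro h0
          exact absurd hle h0
  exact ⟨d, fun t ht => ⟨hadm t, fun τ hτ => hZ τ ⟨t, hτ, ht⟩⟩, he⟩

theorem gen (μ : ℂ) (n : ℕ) : ∀ h : Sys w,
    ((TV w - μ • (1 : Module.End ℂ (Sys w))) ^ n) h = 0 →
    ∃ d : ℕ → ℂ, (∀ t, d t ≠ 0 → Row w (μ, t)) ∧
      ∀ i ≤ N, ∀ k, mm w i ≤ k → h.1 i k = ∑ t ∈ range n, d t * Lf (μ, t) (BB w i k) := by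
  induction n with
  | zero =>
    intro h hh
    rw [pow_zero] at hh
    have h0 : h = 0 := hh
    refine ⟨fun _ => 0, fun t ht => absurd rfl ht, fun i _ k _ => ?_⟩
    rw [h0]
    simp
  | succ n ih =>
    intro h hh
    rw [pow_succ] at hh
    obtain ⟨d', hd', e'⟩ := ih ((TV w - μ • (1 : Module.End ℂ (Sys w))) h) hh
    have hrec : ∀ i ≤ N, ∀ k, mm w i ≤ k →
        h.1 i (k + 1) = μ * h.1 i k + ∑ t ∈ range n, d' t * Lf (μ, t) (BB w i k) := by
      intro i hi k hk
      rw [← e' i hi k hk]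
      change _ = μ * h.1 i k + ((if mm w i ≤ k then h.1 i (k + 1) else 0) - μ * h.1 i k)
      rw [if_pos hk]
      ring
    by_cases hU : μ ∈ UU
    · exact inner_case w μ n hU h d' hd' hrec
    · have hz := outer_case w μ n hU h d' hd' hrec
      obtain ⟨d0, hd0, e0⟩ := pure_case w μ h fun i hi k hk => by
        rw [hrec i hi k hk, hz i hi k hk, add_zero]
      refine ⟨fun t => if t = 0 then d0 else 0, fun t ht => ?_, fun i hi k hk => ?_⟩
      · by_cases h0 : t = 0
        · subst h0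
          exact hd0 (by simpa using ht)
        · simp [h0] at ht
      · rw [e0 i hi k hk, Finset.sum_eq_single 0]
        · simp
        · intro t _ ht
          simp [ht]
        · intro h0
          exact absurd (mem_range.2 (Nat.succ_pos n)) h0

theorem span_top : Submodule.span ℂ (Set.range (EE w)) = ⊤ := by
  have : FiniteDimensional ℂ (Sys w) := LinearEquiv.finiteDimensional (RRe w).symm
  rw [eq_top_iff, ← Module.End.iSup_maxGenEigenspace_eq_top (TV w)]
  refine iSup_le fun μ v hv => ?_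
  rw [Module.End.mem_maxGenEigenspace] at hv
  obtain ⟨n, hn⟩ := hv
  obtain ⟨d, hd, e⟩ := gen w μ n v hn
  exact mem_span w v d hd e

/-- the matrix is square: the index pairs are as many as the rows -/
theorem square : Nonempty (w.Col ≃ Option w.Zero) := by
  have : Finite (Option w.Zero) := (rows_independent w).finite
  letI := Fintype.ofFinite (Option w.Zero)
  have h1 : Fintype.card (Option w.Zero) ≤ Fintype.card w.Col := by
    have := (rows_independent w).fintype_card_le_finrank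
    rwa [Module.finrank_fintype_fun_eq_card] at this
  have h2 : Fintype.card w.Col ≤ Fintype.card (Option w.Zero) := by
    have h3 : Module.finrank ℂ (Sys w) = Fintype.card w.Col := by
      rw [(RRe w).finrank_eq, Module.finrank_fintype_fun_eq_card]
    rw [← h3, ← finrank_top, ← span_top w]
    exact finrank_range_le_card (EE w)
  exact ⟨Fintype.equivOfCardEq (le_antisymm h2 h1)⟩

end Pool.Agent.X3.RW
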