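import Pool.Agent.X3.RWFin

/-!
The space of bounded harmonic systems of the killed walk.
-/

set_option autoImplicit false

namespace Pool.Agent.X3.RW

open Finset Filter Topology

variable {N : ℕ} (w : Walk N)

/-- periodic extension of `m` -/
def mm (i : ℕ) : ℤ :=
  if h : i < N then w.m ⟨i, h⟩ else w.m ⟨0, N_pos w⟩

theorem mm_fin (i : Fin N) : mm w i = w.m i := by
  unfold mm
  rw [dif_pos i.2]

theorem mm_nonpos (i : ℕ) : mm w i ≤ 0 := by
  unfold mm
  split_ifs <;> exact w.m_nonpos _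

theorem mm_N : mm w N = mm w 0 := by
  unfold mm
  rw [dif_neg (lt_irrefl _), dif_pos (N_pos w)]

/-- bounded harmonic systems -/
def Sys : Submodule ℂ (ℕ → ℤ → ℂ) where
  carrier := {h | (∀ i k, (N < i ∨ k < mm w i) → h i k = 0) ∧ (∀ k, h N k = h 0 k) ∧
    (∃ C : ℝ, ∀ i ≤ N, ∀ k : ℕ, ‖h i k‖ ≤ C) ∧
    ∀ (i : Fin N) (k : ℕ), Tendsto (fun n => ∑ x ∈ range n, (qq w i x : ℂ) * h i (w.m i + x + k))
      atTop (𝓝 (h (i + 1) k))}
  add_mem' := by
    rintro a b ⟨a1, a2, ⟨C, a3⟩, a4⟩ ⟨b1, b2, ⟨D, b3⟩, b4⟩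
    refine ⟨fun i k hik => ?_, fun k => ?_, ⟨C + D, fun i hi k => ?_⟩, fun i k => ?_⟩
    · simp only [Pi.add_apply, a1 i k hik, b1 i k hik, add_zero]
    · simp only [Pi.add_apply, a2 k, b2 k]
    · exact (norm_add_le _ _).trans (add_le_add (a3 i hi k) (b3 i hi k))
    · have := (a4 i k).add (b4 i k)
      refine this.congr fun n => ?_
      rw [← Finset.sum_add_distrib]
      refine Finset.sum_congr rfl fun x _ => ?_
      simp only [Pi.add_apply]
      ring
  zero_mem' := by
    refine ⟨fun i k _ => rfl, fun k => rfl, ⟨0, fun i _ k => by simp⟩, fun i k => ?_⟩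
    simp
  smul_mem' := by
    rintro c a ⟨a1, a2, ⟨C, a3⟩, a4⟩
    refine ⟨fun i k hik => ?_, fun k => ?_, ⟨‖c‖ * C, fun i hi k => ?_⟩, fun i k => ?_⟩
    · simp only [Pi.smul_apply, a1 i k hik, smul_zero]
    · simp only [Pi.smul_apply, a2 k]
    · simp only [Pi.smul_apply, smul_eq_mul, norm_mul]
      exact mul_le_mul_of_nonneg_left (a3 i hi k) (norm_nonneg _)
    · have := (a4 i k).const_mul c
      refine this.congr fun n => ?_
      rw [Finset.mul_sum]
      refine Finset.sum_congr rfl fun x _ => ?_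
      simp only [Pi.smul_apply, smul_eq_mul]
      ring

/-- the shift -/
def TT : (ℕ → ℤ → ℂ) →ₗ[ℂ] (ℕ → ℤ → ℂ) where
  toFun h := fun i k => if mm w i ≤ k then h i (k + 1) else 0
  map_add' := by
    intro a b
    funext i k
    simp only [Pi.add_apply]
    split_ifs <;> simp
  map_smul' := by
    intro c a
    funext i k
    simp only [Pi.smul_apply, smul_eq_mul, RingHom.id_apply]
    split_ifs <;> simp

theorem TT_mem : ∀ h ∈ Sys w, TT w h ∈ Sys w := by
  rintro h ⟨h1, h2, ⟨C, h3⟩, h4⟩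
  refine ⟨fun i k hik => ?_, fun k => ?_, ⟨C, fun i hi k => ?_⟩, fun i k => ?_⟩
  · change (if mm w i ≤ k then h i (k + 1) else 0) = 0
    split_ifs with hk
    · rcases hik with hi | hk'
      · exact h1 i (k + 1) (Or.inl hi)
      · omega
    · rfl
  · change (if mm w N ≤ k then h N (k + 1) else 0) = (if mm w 0 ≤ k then h 0 (k + 1) else 0)
    rw [mm_N, h2]
  · change ‖(if mm w i ≤ (k : ℤ) then h i ((k : ℤ) + 1) else 0)‖ ≤ C
    rw [if_pos ((mm_nonpos w i).trans (Int.natCast_nonneg k))]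
    have := h3 i hi (k + 1)
    push_cast at this
    exact this
  · have h5 := h4 i (k + 1)
    change Tendsto (fun n => ∑ x ∈ range n, (qq w i x : ℂ) *
      (if mm w i ≤ w.m i + x + k then h i (w.m i + x + k + 1) else 0)) atTop
      (𝓝 (if mm w (i + 1) ≤ (k : ℤ) then h (i + 1) ((k : ℤ) + 1) else 0))
    rw [if_pos ((mm_nonpos w _).trans (Int.natCast_nonneg k))]
    push_cast at h5
    refine h5.congr fun n => Finset.sum_congr rfl fun x _ => ?_
    rw [if_pos (by rw [mm_fin]; omega), add_assoc (w.m i + (x : ℤ))]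

/-- the shift on the space of systems -/
noncomputable def TV : Module.End ℂ (Sys w) := (TT w).restrict (TT_mem w)

theorem sys_zero (h : ℕ → ℤ → ℂ) (hh : h ∈ Sys w)
    (hb : ∀ i : Fin N, ∀ k, w.m i ≤ k → k < 0 → h i k = 0) : h = 0 := by
  obtain ⟨h1, h2, ⟨C, h3⟩, h4⟩ := hh
  have key : ∀ i < N, ∀ k : ℕ, h i k = 0 := by
    intro i hi k
    rw [← norm_le_zero_iff]
    refine lyap (fun i k => ‖h i k‖) (qq w) w.m (fun j => ∑' k : ℤ, (k : ℝ) * w.p j k)
      ⟨C, fun i hi k => h3 i hi.le k⟩ ?_ ?_ ?_ (qq_sum w) (qq_mean w) w.drift i hi k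
    · intro i k h5 h6
      simp only [hb i k h5 h6, norm_zero]
    · intro i k f T hf' hT
      refine le_of_tendsto_of_tendsto (h4 i k).norm hT.tendsto_sum_nat
        (Eventually.of_forall fun n => ?_)
      refine (norm_sum_le _ _).trans (Finset.sum_le_sum fun x _ => ?_)
      rw [norm_mul, Complex.norm_real, Real.norm_of_nonneg (qq_nonneg w i x)]
      exact mul_le_mul_of_nonneg_left (hf' x) (qq_nonneg w i x)
    · intro k
      simp only [h2]
  have key2 : ∀ i < N, ∀ k : ℤ, h i k = 0 := by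
    intro i hi k
    by_cases hk : k < mm w i
    · exact h1 i k (Or.inr hk)
    · rcases lt_or_ge k 0 with hk0 | hk0
      · have h5 := mm_fin w ⟨i, hi⟩
        simp only at h5
        exact hb ⟨i, hi⟩ k (by omega) hk0
      · obtain ⟨n, rfl⟩ := Int.eq_ofNat_of_zero_le hk0
        exact key i hi n
  funext i k
  rcases lt_trichotomy i N with hi | hi | hi
  · exact key2 i hi k
  · rw [hi, h2]
    exact key2 0 (N_pos w) k
  · exact h1 i k (Or.inl hi)

end Pool.Agent.X3.RW
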