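import Pool.Agent.H397R2.PP.B0
import Pool.Agent.H397R2.PP.B1
import Pool.Agent.H397R2.PP.B2
import Pool.Agent.H397R2.PP.B3
import Pool.Agent.H397R2.PP.TH

set_option autoImplicit false

/-! Ramanujan's function: Hecke relations, the prime 2, parity. -/

namespace Pool.Agent.X3.Tau

open PowerSeries MatrixGroups
open Pool.Agent.H397R2.PP

/-- Ramanujan's function: the coefficient of `q^n` in `q ∏_{i ≤ n} (1 - q^i)^24`. -/
noncomputable def tau (n : ℕ) : ℤ :=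
  (Polynomial.X * ∏ i ∈ Finset.Icc 1 n, (1 - Polynomial.X ^ i) ^ 24 : Polynomial ℤ).coeff n

theorem pent_coeff (N k : ℕ) (hk : k ≤ N) :
    coeff k (pentagonalSeries ℤ) = coeff k (∏ i ∈ Finset.Icc 1 N, (1 - X ^ i) : ℤ⟦X⟧) := by
  have h := coeff_prod_one_sub_X_pow_eventually_eq ℤ k
  rw [Filter.eventually_atTop] at h
  obtain ⟨s0, hs0⟩ := h
  have h1 := hs0 (s0 ∪ Finset.range N) Finset.subset_union_left
  rw [← h1]
  have h2 : (∏ i ∈ Finset.Icc 1 N, (1 - X ^ i) : ℤ⟦X⟧) = ∏ n ∈ Finset.range N, (1 - X ^ (n + 1)) := by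
    rw [Finset.range_eq_Ico, ← Finset.Ico_add_one_right_eq_Icc, Finset.prod_Ico_add' (fun i => (1 - X ^ i : ℤ⟦X⟧)) 0 N 1]
  rw [h2]
  rw [← Finset.prod_sdiff (Finset.subset_union_right : Finset.range N ⊆ s0 ∪ Finset.range N)]
  have h3 : ∀ s : Finset ℕ, (∀ n ∈ s, N ≤ n) →
      (X : ℤ⟦X⟧) ^ (N + 1) ∣ ∏ n ∈ s, (1 - X ^ (n + 1) : ℤ⟦X⟧) - 1 := by
    intro s
    induction s using Finset.induction_on with
    | empty => intro _; simp
    | insert a s ha ih =>
      intro hs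
      rw [Finset.prod_insert ha]
      have h4 := ih (fun n hn => hs n (Finset.mem_insert_of_mem hn))
      have h5 : (X : ℤ⟦X⟧) ^ (N + 1) ∣ X ^ (a + 1) :=
        pow_dvd_pow _ (by have := hs a (Finset.mem_insert_self a s); omega)
      have h6 : (1 - X ^ (a + 1) : ℤ⟦X⟧) * ∏ n ∈ s, (1 - X ^ (n + 1) : ℤ⟦X⟧) - 1 =
          (∏ n ∈ s, (1 - X ^ (n + 1) : ℤ⟦X⟧) - 1) - X ^ (a + 1) * ∏ n ∈ s, (1 - X ^ (n + 1) : ℤ⟦X⟧) := by
        ring
      rw [h6]
      exact dvd_sub h4 (Dvd.dvd.mul_right h5 _)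
  have h7 := h3 ((s0 ∪ Finset.range N) \ Finset.range N) (by
    intro n hn
    rw [Finset.mem_sdiff, Finset.mem_range] at hn
    omega)
  obtain ⟨R, hR⟩ := h7
  have h8 : ∏ n ∈ (s0 ∪ Finset.range N) \ Finset.range N, (1 - X ^ (n + 1) : ℤ⟦X⟧) =
      1 + X ^ (N + 1) * R := by rw [← hR]; ring
  rw [h8, add_mul, one_mul, map_add, mul_assoc]
  have h9 : coeff k (X ^ (N + 1) * (R * ∏ n ∈ Finset.range N, (1 - X ^ (n + 1) : ℤ⟦X⟧))) = 0 := by
    apply X_pow_dvd_iff.1 (Dvd.intro _ rfl) k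
    omega
  rw [h9, add_zero]

theorem tau_eq (n : ℕ) : tau n = coeff n Dz := by
  have h0 : tau n = coeff n (X * (∏ i ∈ Finset.Icc 1 n, (1 - X ^ i) : ℤ⟦X⟧) ^ 24) := by
    unfold tau
    rw [← Polynomial.coeff_coe]
    congr 1
    rw [Finset.prod_pow]
    push_cast
    have hc : ((∏ i ∈ Finset.Icc 1 n, (1 - Polynomial.X ^ i) : Polynomial ℤ) : ℤ⟦X⟧) =
        ∏ i ∈ Finset.Icc 1 n, (1 - X ^ i) := by
      rw [← Polynomial.coeToPowerSeries.ringHom_apply, map_prod]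
      apply Finset.prod_congr rfl
      intro i _
      rw [map_sub, map_pow, map_one, Polynomial.coeToPowerSeries.ringHom_apply, Polynomial.coe_X]
    rw [hc]
  rw [h0, Dz]
  have h1 : (X : ℤ⟦X⟧) ^ (n + 1) ∣ pentagonalSeries ℤ - ∏ i ∈ Finset.Icc 1 n, (1 - X ^ i) := by
    rw [X_pow_dvd_iff]
    intro m hm
    rw [map_sub, pent_coeff n m (by omega), sub_self]
  have h2 : (X : ℤ⟦X⟧) ^ (n + 1) ∣ X * (pentagonalSeries ℤ) ^ 24 -
      X * (∏ i ∈ Finset.Icc 1 n, (1 - X ^ i)) ^ 24 := by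
    rw [← mul_sub]
    exact Dvd.dvd.mul_left (h1.trans (sub_dvd_pow_sub_pow _ _ 24)) _
  have h3 := X_pow_dvd_iff.1 h2 n (by omega)
  rw [map_sub] at h3
  linarith

theorem tau_zero : tau 0 = 0 := by
  rw [tau_eq, Dz, coeff_zero_X_mul]

theorem tau_one : tau 1 = 1 := by
  rw [tau_eq, Dz, show (1 : ℕ) = 0 + 1 from rfl, coeff_succ_X_mul,
    PowerSeries.coeff_zero_eq_constantCoeff_apply, B1.pent_const]

theorem pent_cc : constantCoeff (pentagonalSeries ℤ) = 1 := by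
  have h0 : (0 : ℕ) = pentagonal 0 := by decide
  rw [← PowerSeries.coeff_zero_eq_constantCoeff_apply, h0,
    PowerSeries.coeff_pentagonalSeries_pentagonal]
  simp

theorem tau_two : tau 2 = -24 := by
  rw [tau_eq, Dz, show (2 : ℕ) = 1 + 1 from rfl, coeff_succ_X_mul, coeff_one_pow, pent_cc]
  have h0 : (1 : ℕ) = pentagonal 1 := by decide
  have h1 : coeff 1 (pentagonalSeries ℤ) = -1 := by
    nth_rewrite 1 [h0]
    rw [PowerSeries.coeff_pentagonalSeries_pentagonal]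
    simp
  rw [h1]
  norm_num

theorem const_of_isMF (P : ℤ⟦X⟧) (h : IsMF 0 P) : P = C (coeff 0 P) := by
  obtain ⟨f, hf⟩ := h
  let f0 : ModularForm 𝒮ℒ 0 := ModularForm.mcast (by norm_num) f
  have hf0 : UpperHalfPlane.qExpansion 1 f0 = P.map (Int.castRingHom ℂ) := by
    rw [← hf]; rfl
  obtain ⟨c, hc⟩ := ModularFormClass.levelOne_weight_zero_const f0
  have hq : UpperHalfPlane.qExpansion 1 f0 = PowerSeries.C c := by
    have h1 : (f0 : UpperHalfPlane → ℂ) = c • (1 : ModularForm 𝒮ℒ 0) := by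
      rw [hc]; ext z; simp
    rw [h1, ModularForm.qExpansion_smul one_pos one_mem_strictPeriods_SL,
      ModularForm.qExpansion_one, PowerSeries.smul_eq_C_mul, mul_one]
  ext n
  rcases Nat.eq_zero_or_pos n with rfl | hn
  · simp
  · have h1 := congrArg (PowerSeries.coeff n) (hf0.symm.trans hq)
    rw [PowerSeries.coeff_map, PowerSeries.coeff_C, if_neg hn.ne'] at h1
    rw [PowerSeries.coeff_C, if_neg hn.ne']
    simpa using h1

/-- Mordell: `Δ` is an eigenform of all Hecke operators. -/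
theorem hecke (p : ℕ) (hp : p.Prime) (n : ℕ) :
    tau (p * n) + (if p ∣ n then (p : ℤ) ^ 11 * tau (n / p) else 0) = tau p * tau n := by
  have hD := qExpansion_discriminant
  have h1 : IsMF 1 Dz := by
    have := isMF_pow hD 1
    rwa [pow_one] at this
  have h2 := IsMF.hecke 1 le_rfl Dz h1 p hp
  obtain ⟨Q, hQ, hPQ⟩ := B1.step hD 0 _ h2
  have hz : coeff 0 Dz = 0 := by rw [Dz, coeff_zero_X_mul]
  have h3 : coeff 0 (TpZ (12 * 1) p Dz) = 0 := by
    unfold TpZ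
    rw [coeff_mk]
    simp [hz]
  rw [h3, map_zero, zero_mul, zero_add] at hPQ
  have hQc := const_of_isMF Q hQ
  rw [hQc] at hPQ
  have h4 : coeff 1 (TpZ (12 * 1) p Dz) = tau p := by
    unfold TpZ
    rw [coeff_mk, mul_one, if_neg (by
      intro h
      exact hp.one_lt.ne' (Nat.dvd_one.1 h)), add_zero, tau_eq]
  have h5 : coeff 0 Q = tau p := by
    rw [← h4, hPQ, coeff_mul_C]
    have := tau_one
    rw [tau_eq] at this
    rw [this, one_mul]
  have h6 := congrArg (coeff n) hPQ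
  rw [coeff_mul_C, h5] at h6
  unfold TpZ at h6
  rw [coeff_mk] at h6
  rw [tau_eq (p * n), tau_eq (n / p), tau_eq n]
  rw [mul_comm (tau p)]
  exact h6

/-- parity of `τ`. -/
theorem odd_tau (n : ℕ) : Odd (tau n) ↔ ∃ i : ℕ, n = (2 * i + 1) ^ 2 := by
  classical
  have h1 : ((tau n : ℤ) : ZMod 2) = coeff n Db := by
    rw [tau_eq, ← B1.Dz_map, coeff_map]
    rfl
  rw [Db_eq_theta, coeff_mk] at h1
  rw [← Int.not_even_iff_odd, ← ZMod.intCast_eq_zero_iff_even, h1]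
  by_cases h : ∃ i : ℕ, n = (2 * i + 1) ^ 2
  · rw [if_pos h]
    simpa using h
  · rw [if_neg h]
    simpa using h

/-- The prime 2: `τ(2^k u) = 8^k w_k τ(u)` with odd `w_k`. -/
theorem two_pow : ∃ w : ℕ → ℤ, w 0 = 1 ∧ (∀ k, Odd (w k)) ∧
    ∀ k u : ℕ, Odd u → tau (2 ^ k * u) = 8 ^ k * w k * tau u := by
  let g : ℕ → ℤ × ℤ := fun k => Nat.rec (1, -3) (fun _ x => (x.2, -3 * x.2 - 32 * x.1)) k
  have g0 : g 0 = (1, -3) := rfl
  have gs : ∀ k, g (k + 1) = ((g k).2, -3 * (g k).2 - 32 * (g k).1) := fun _ => rfl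
  have hodd : ∀ k, Odd (g k).1 ∧ Odd (g k).2 := by
    intro k
    induction k with
    | zero => rw [g0]; exact ⟨odd_one, ⟨-2, by norm_num⟩⟩
    | succ k ih =>
      rw [gs]
      refine ⟨ih.2, ?_⟩
      obtain ⟨a, ha⟩ := ih.2
      refine ⟨-3 * a - 16 * (g k).1 - 2, ?_⟩
      simp only
      rw [ha]; ring
  refine ⟨fun k => (g k).1, by simp [g0], fun k => (hodd k).1, ?_⟩
  have key : ∀ k u : ℕ, Odd u → tau (2 ^ k * u) = 8 ^ k * (g k).1 * tau u ∧
      tau (2 ^ (k + 1) * u) = 8 ^ (k + 1) * (g k).2 * tau u := by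
    intro k u hu
    induction k with
    | zero =>
      have h := hecke 2 Nat.prime_two u
      rw [if_neg (by
        intro h
        exact (Nat.not_even_iff_odd.2 hu) (even_iff_two_dvd.2 h)), tau_two, add_zero] at h
      refine ⟨by simp [g0], ?_⟩
      rw [g0]
      simp only [zero_add, pow_one]
      rw [h]; ring
    | succ k ih =>
      obtain ⟨h1, h2⟩ := ih
      refine ⟨by rw [h2, gs], ?_⟩
      have h := hecke 2 Nat.prime_two (2 ^ (k + 1) * u)
      have hd : 2 ^ (k + 1) * u = 2 * (2 ^ k * u) := by rw [pow_succ]; ring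
      rw [if_pos ⟨2 ^ k * u, hd⟩] at h
      have hdiv : 2 ^ (k + 1) * u / 2 = 2 ^ k * u := by
        rw [hd]; exact Nat.mul_div_cancel_left _ (by norm_num)
      rw [hdiv, tau_two, h1, h2] at h
      have he : 2 ^ (k + 1 + 1) * u = 2 * (2 ^ (k + 1) * u) := by rw [pow_succ 2 (k + 1)]; ring
      rw [he, gs]
      simp only
      have : tau (2 * (2 ^ (k + 1) * u)) = -24 * (8 ^ (k + 1) * (g k).2 * tau u) -
          ((2 : ℕ) : ℤ) ^ 11 * (8 ^ k * (g k).1 * tau u) := by linarith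
      rw [this, pow_succ (8 : ℤ) (k + 1), pow_succ (8 : ℤ) k]
      push_cast
      ring
  exact fun k u hu => (key k u hu).1

end Pool.Agent.X3.Tau
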