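import Pool.Agent.X3.Tau

set_option autoImplicit false

/-! Ramanujan's function: sums over unions of shells. -/

namespace Pool.Agent.X3.Tau

open Finset

theorem oddpart (m : ℕ) (hm : 1 ≤ m) : ∃ u, Odd u ∧ m = 2 ^ (padicValNat 2 m) * u := by
  obtain ⟨k, u, hu, hk⟩ := Nat.exists_eq_two_pow_mul_odd (n := m) (by omega)
  have hu0 : u ≠ 0 := by rintro rfl; simp at hu
  have : padicValNat 2 m = k := by
    rw [hk, padicValNat.mul (by positivity) hu0, padicValNat.prime_pow,
      padicValNat.eq_zero_of_not_dvd (by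
        intro h
        exact (Nat.not_even_iff_odd.2 hu) (even_iff_two_dvd.2 h)), add_zero]
  rw [this]
  exact ⟨u, hu, hk⟩

theorem val_le_of_not_dvd (m K : ℕ) (hm : 1 ≤ m) (h : ¬ 2 ^ (K + 1) ∣ m) :
    padicValNat 2 m ≤ K := by
  by_contra hc
  apply h
  exact (padicValNat_dvd_iff_le (by omega)).2 (by omega)

theorem key (F : Finset ℕ) (hF : ∀ m ∈ F, 1 ≤ m) (s : ℕ) (hs : 4 ≤ s) (K : ℕ)
    (hK : ∀ m ∈ F, padicValNat 2 m ≤ K) (a b : ℕ → ℤ)
    (hab : ∀ m ∈ F, a m = 8 ^ (padicValNat 2 m) * b m)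
    (hodd : Odd (∑ m ∈ F with padicValNat 2 m = K, b m)) :
    ∃ D T : ℤ, Odd D ∧ Odd T ∧
      (D : ℚ) * 2 ^ ((s - 3) * K) * ∑ m ∈ F, (a m : ℚ) / (m : ℚ) ^ s = T := by
  classical
  have hch : ∀ m : ℕ, ∃ u : ℕ, 1 ≤ m → Odd u ∧ m = 2 ^ (padicValNat 2 m) * u := by
    intro m
    by_cases hm : 1 ≤ m
    · obtain ⟨u, hu⟩ := oddpart m hm
      exact ⟨u, fun _ => hu⟩
    · exact ⟨0, fun h => absurd h hm⟩
  choose o ho using hch
  have hoZ : ∀ m ∈ F, ((o m : ℤ) : ZMod 2) = 1 := by
    intro m hm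
    have := (ho m (hF m hm)).1
    rw [Int.cast_natCast, ZMod.natCast_eq_one_iff_odd]
    exact this
  refine ⟨∏ m ∈ F, (o m : ℤ) ^ s,
    ∑ m ∈ F, b m * 2 ^ ((s - 3) * (K - padicValNat 2 m)) * ∏ j ∈ F.erase m, (o j : ℤ) ^ s, ?_, ?_, ?_⟩
  · rw [← ZMod.intCast_eq_one_iff_odd, Int.cast_prod]
    apply Finset.prod_eq_one
    intro m hm
    rw [Int.cast_pow, hoZ m hm, one_pow]
  · rw [← ZMod.intCast_eq_one_iff_odd] at hodd ⊢
    rw [← hodd, Int.cast_sum, Int.cast_sum, Finset.sum_filter]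
    apply Finset.sum_congr rfl
    intro m hm
    rw [Int.cast_mul, Int.cast_mul, Int.cast_prod]
    have h1 : ∏ j ∈ F.erase m, ((((o j : ℤ) ^ s : ℤ)) : ZMod 2) = 1 := by
      apply Finset.prod_eq_one
      intro j hj
      rw [Int.cast_pow, hoZ j (Finset.mem_of_mem_erase hj), one_pow]
    rw [h1, mul_one]
    by_cases h : padicValNat 2 m = K
    · rw [if_pos h, h, Nat.sub_self, mul_zero, pow_zero, Int.cast_one, mul_one]
    · rw [if_neg h]
      have h2 : (s - 3) * (K - padicValNat 2 m) ≠ 0 := by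
        have := hK m hm
        apply Nat.mul_ne_zero <;> omega
      rw [Int.cast_pow]
      have h3 : (((2 : ℤ)) : ZMod 2) = 0 := by decide
      rw [h3, zero_pow h2, mul_zero]
  · rw [Finset.mul_sum]
    push_cast
    apply Finset.sum_congr rfl
    intro m hm
    have hm1 := hF m hm
    obtain ⟨h1, h2⟩ := ho m hm1
    have hk := hK m hm
    rw [hab m hm, ← Finset.mul_prod_erase F (fun j => ((o j : ℚ)) ^ s) hm]
    have ho0 : (o m : ℚ) ≠ 0 := by
      have : o m ≠ 0 := by rintro h; rw [h] at h1; simp at h1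
      exact_mod_cast this
    have h4 : (m : ℚ) ^ s = 2 ^ (padicValNat 2 m * s) * (o m : ℚ) ^ s := by
      conv_lhs => rw [h2]
      push_cast
      rw [mul_pow, ← pow_mul]
    rw [h4]
    have h5 : (2 : ℚ) ^ ((s - 3) * K) * 8 ^ (padicValNat 2 m) =
        2 ^ ((s - 3) * (K - padicValNat 2 m)) * 2 ^ (padicValNat 2 m * s) := by
      have : (8 : ℚ) = 2 ^ 3 := by norm_num
      rw [this, ← pow_mul, ← pow_add, ← pow_add]
      congr 1
      obtain ⟨c, hc⟩ := Nat.exists_eq_add_of_le hk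
      obtain ⟨t, ht⟩ := Nat.exists_eq_add_of_le hs
      rw [hc, ht]
      have e1 : 4 + t - 3 = t + 1 := by omega
      have e2 : padicValNat 2 m + c - padicValNat 2 m = c := by omega
      rw [e1, e2]
      ring
    push_cast
    rw [mul_div_assoc', div_eq_iff (by positivity)]
    calc (o m : ℚ) ^ s * (∏ j ∈ F.erase m, (o j : ℚ) ^ s) * 2 ^ ((s - 3) * K) *
          (8 ^ padicValNat 2 m * (b m : ℚ))
        = (o m : ℚ) ^ s * (∏ j ∈ F.erase m, (o j : ℚ) ^ s) * (b m : ℚ) *
          (2 ^ ((s - 3) * K) * 8 ^ padicValNat 2 m) := by ring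
      _ = _ := by rw [h5]; ring

theorem val_of (S : ℚ) (D T : ℤ) (e : ℕ) (hD : Odd D) (hT : Odd T)
    (h : (D : ℚ) * 2 ^ e * S = T) : S ≠ 0 ∧ padicValRat 2 S = -(e : ℤ) := by
  have hT0 : (T : ℚ) ≠ 0 := by
    have : T ≠ 0 := by rintro rfl; simp at hT
    exact_mod_cast this
  have hS : S ≠ 0 := by
    rintro rfl
    rw [mul_zero] at h
    exact hT0 h.symm
  have hD0 : (D : ℚ) ≠ 0 := by
    have : D ≠ 0 := by rintro rfl; simp at hD
    exact_mod_cast this
  refine ⟨hS, ?_⟩
  have h1 := congrArg (padicValRat 2) h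
  have hv : ∀ z : ℤ, Odd z → padicValRat 2 (z : ℚ) = 0 := by
    intro z hz
    rw [padicValRat.of_int]
    have : padicValInt 2 z = 0 := by
      apply padicValInt.eq_zero_of_not_dvd
      intro hd
      exact (Int.not_even_iff_odd.2 hz) (even_iff_two_dvd.2 (by exact_mod_cast hd))
    rw [this]; rfl
  rw [padicValRat.mul (by positivity) hS, padicValRat.mul hD0 (by positivity), hv D hD, hv T hT] at h1
  have h2 : padicValRat 2 ((2 : ℚ) ^ e) = e := by
    rw [padicValRat.pow 2]
    have : padicValRat 2 ((2 : ℕ) : ℚ) = 1 := padicValRat.self (by norm_num)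
    push_cast at this
    rw [this, mul_one]
  rw [h2] at h1
  linarith

open Classical in
/-- Multisets of shells. -/
theorem multi (F : Finset ℕ) (hF : ∀ m ∈ F, 1 ≤ m) (n : ℕ → ℤ) (s : ℕ) (hs : 4 ≤ s) (K : ℕ)
    (hK : ∀ m ∈ F, ¬ 2 ^ (K + 1) ∣ m)
    (hodd : Odd (∑ m ∈ F with (∃ i : ℕ, m = 2 ^ K * (2 * i + 1) ^ 2), n m)) :
    ∑ m ∈ F, (n m : ℚ) * (tau m : ℚ) / (m : ℚ) ^ s ≠ 0 ∧
    padicValRat 2 (∑ m ∈ F, (n m : ℚ) * (tau m : ℚ) / (m : ℚ) ^ s) = -(((s - 3) * K : ℕ) : ℤ) := by
  classical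
  obtain ⟨w, hw0, hw, htau⟩ := two_pow
  have hch : ∀ m : ℕ, ∃ u : ℕ, 1 ≤ m → Odd u ∧ m = 2 ^ (padicValNat 2 m) * u := by
    intro m
    by_cases hm : 1 ≤ m
    · obtain ⟨u, hu⟩ := oddpart m hm
      exact ⟨u, fun _ => hu⟩
    · exact ⟨0, fun h => absurd h hm⟩
  choose o ho using hch
  have h1 := key F hF s hs K (fun m hm => val_le_of_not_dvd m K (hF m hm) (hK m hm))
    (fun m => n m * tau m) (fun m => n m * (w (padicValNat 2 m) * tau (o m))) (by
      intro m hm
      obtain ⟨h1, h2⟩ := ho m (hF m hm)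
      have : tau m = 8 ^ (padicValNat 2 m) * w (padicValNat 2 m) * tau (o m) := by
        conv_lhs => rw [h2]
        exact htau _ _ h1
      rw [this]; ring) (by
      rw [← ZMod.intCast_eq_one_iff_odd] at hodd ⊢
      rw [← hodd, Int.cast_sum, Int.cast_sum, Finset.sum_filter, Finset.sum_filter]
      apply Finset.sum_congr rfl
      intro m hm
      obtain ⟨h1, h2⟩ := ho m (hF m hm)
      have hwz : ((w (padicValNat 2 m) : ℤ) : ZMod 2) = 1 :=
        (ZMod.intCast_eq_one_iff_odd).2 (hw _)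
      by_cases h : ∃ i : ℕ, m = 2 ^ K * (2 * i + 1) ^ 2
      · obtain ⟨i, hi⟩ := h
        have hodd : Odd ((2 * i + 1) ^ 2) := Odd.pow ⟨i, rfl⟩
        have hv : padicValNat 2 m = K := by
          rw [hi, padicValNat.mul (by positivity) (by positivity), padicValNat.prime_pow,
            padicValNat.eq_zero_of_not_dvd (by
              intro h
              exact (Nat.not_even_iff_odd.2 hodd) (even_iff_two_dvd.2 h)), add_zero]
        rw [if_pos hv, if_pos ⟨i, hi⟩]
        have ho2 : o m = (2 * i + 1) ^ 2 := by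
          rw [hv, hi] at h2
          rw [hi]
          exact (Nat.eq_of_mul_eq_mul_left (by positivity) h2).symm
        have ht : ((tau (o m) : ℤ) : ZMod 2) = 1 :=
          (ZMod.intCast_eq_one_iff_odd).2 ((odd_tau _).2 ⟨i, ho2⟩)
        rw [Int.cast_mul, Int.cast_mul, hwz, ht, one_mul, mul_one]
      · rw [if_neg h]
        by_cases hv : padicValNat 2 m = K
        · rw [if_pos hv]
          have ht : ((tau (o m) : ℤ) : ZMod 2) = 0 := by
            rw [ZMod.intCast_eq_zero_iff_even, ← Int.not_odd_iff_even]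
            intro ht
            obtain ⟨i, hi⟩ := (odd_tau _).1 ht
            exact h ⟨i, by rw [← hi, ← hv]; exact h2⟩
          rw [Int.cast_mul, Int.cast_mul, ht, mul_zero, mul_zero]
        · rw [if_neg hv])
  obtain ⟨D, T, hD, hT, hS⟩ := h1
  push_cast at hS
  exact val_of _ D T _ hD hT hS

/-- `τ'(m)`: the sum over primitive vectors of the shell `S_m`. -/
noncomputable def tauPrim (m : ℕ) : ℤ :=
  ∑ d ∈ m.divisors with d ^ 2 ∣ m, ArithmeticFunction.moebius d * (d : ℤ) ^ 8 * tau (m / d ^ 2)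

theorem tauPrim_form (m : ℕ) (hm : 1 ≤ m) : ∃ b : ℤ, tauPrim m = 8 ^ (padicValNat 2 m) * b ∧
    (Odd b ↔ m = 2 ^ (padicValNat 2 m)) := by
  classical
  obtain ⟨w, hw0, hw, htau⟩ := two_pow
  obtain ⟨u, hu, hmu⟩ := oddpart m hm
  set k := padicValNat 2 m with hk
  have hu0 : 1 ≤ u := hu.pos
  have hq : ∀ d : ℕ, ∃ q : ℤ, d ^ 2 ∣ m → (d : ℤ) ^ 8 * tau (m / d ^ 2) = 8 ^ k * q ∧
      (Odd q ↔ Odd d ∧ ∃ j, u = (d * (2 * j + 1)) ^ 2) := by
    intro d
    by_cases hd : d ^ 2 ∣ m
    · have hd0 : 1 ≤ d := by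
        rcases Nat.eq_zero_or_pos d with h | h
        · rw [h, zero_pow (by norm_num), zero_dvd_iff] at hd; omega
        · exact h
      obtain ⟨e, he, hde⟩ := oddpart d hd0
      set v := padicValNat 2 d with hv
      have he0 : 1 ≤ e := he.pos
      obtain ⟨c, hc⟩ := hd
      have hc0 : 1 ≤ c := by
        rcases Nat.eq_zero_or_pos c with h | h
        · rw [h] at hc; omega
        · exact h
      obtain ⟨f, hf, hcf⟩ := oddpart c hc0
      set x := padicValNat 2 c with hx
      have hkx : k = 2 * v + x := by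
        have h1 : padicValNat 2 m = padicValNat 2 (d ^ 2 * c) := by rw [← hc]
        rw [padicValNat.mul (by positivity) (by omega), padicValNat.pow] at h1
        rw [hk, h1]
      have huf : u = e ^ 2 * f := by
        have h1 : 2 ^ k * u = 2 ^ k * (e ^ 2 * f) := by
          rw [← hmu, hc, hde, hcf, hkx]
          ring
        exact Nat.eq_of_mul_eq_mul_left (by positivity) h1
      refine ⟨4 ^ v * (e : ℤ) ^ 8 * w x * tau f, fun _ => ⟨?_, ?_⟩⟩
      · have h1 : m / d ^ 2 = 2 ^ x * f := by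
          rw [hc, Nat.mul_div_cancel_left _ (by positivity), hcf]
        rw [h1, htau x f hf, hde, hkx]
        push_cast
        have h2 : ((2 : ℤ) ^ v * e) ^ 8 = 8 ^ (2 * v) * 4 ^ v * e ^ 8 := by
          have h8 : (8 : ℤ) ^ (2 * v) * 4 ^ v = 2 ^ (v * 8) := by
            rw [show (8 : ℤ) = 2 ^ 3 by norm_num, show (4 : ℤ) = 2 ^ 2 by norm_num, ← pow_mul,
              ← pow_mul, ← pow_add]
            congr 1
            ring
          rw [mul_pow, ← pow_mul, h8]
        rw [h2, pow_add]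
        ring
      · constructor
        · intro h
          have h1 : Odd ((4 : ℤ) ^ v * (e : ℤ) ^ 8 * w x) := (Int.odd_mul.1 h).1
          have h2 : Odd (tau f) := (Int.odd_mul.1 h).2
          have h3 : Odd ((4 : ℤ) ^ v) := (Int.odd_mul.1 (Int.odd_mul.1 h1).1).1
          have hv0 : v = 0 := by
            by_contra hne
            have h4 : Even ((4 : ℤ) ^ v) := (Int.even_pow.2 ⟨⟨2, by norm_num⟩, hne⟩)
            exact (Int.not_even_iff_odd.2 h3) h4
          have hde' : d = e := by rw [hde, hv0, pow_zero, one_mul]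
          obtain ⟨j, hj⟩ := (odd_tau f).1 h2
          refine ⟨hde' ▸ he, j, ?_⟩
          rw [huf, hj, hde', mul_pow]
        · rintro ⟨h1, j, hj⟩
          have hv0 : v = 0 := by
            rw [hv]
            apply padicValNat.eq_zero_of_not_dvd
            intro h
            exact (Nat.not_even_iff_odd.2 h1) (even_iff_two_dvd.2 h)
          have hde' : d = e := by rw [hde, hv0, pow_zero, one_mul]
          have hf2 : f = (2 * j + 1) ^ 2 := by
            rw [huf, mul_pow, hde'] at hj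
            exact Nat.eq_of_mul_eq_mul_left (by positivity) hj
          rw [hv0, pow_zero, one_mul]
          have heZ : Odd ((e : ℤ) ^ 8) := Odd.pow (by exact_mod_cast he)
          exact (heZ.mul (hw x)).mul ((odd_tau f).2 ⟨j, hf2⟩)
    · exact ⟨0, fun h => absurd h hd⟩
  choose q hq using hq
  refine ⟨∑ d ∈ m.divisors with d ^ 2 ∣ m, ArithmeticFunction.moebius d * q d, ?_, ?_⟩
  · unfold tauPrim
    rw [Finset.mul_sum]
    apply Finset.sum_congr rfl
    intro d hd
    rw [Finset.mem_filter] at hd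
    rw [mul_assoc, (hq d hd.2).1]
    ring
  · have hcast : ((∑ d ∈ m.divisors with d ^ 2 ∣ m, ArithmeticFunction.moebius d * q d : ℤ) : ZMod 2)
        = ((∑ d ∈ m.divisors with (d ^ 2 ∣ m ∧ Odd d ∧ ∃ j, u = (d * (2 * j + 1)) ^ 2),
            ArithmeticFunction.moebius d : ℤ) : ZMod 2) := by
      rw [Int.cast_sum, Int.cast_sum, Finset.sum_filter, Finset.sum_filter]
      apply Finset.sum_congr rfl
      intro d _
      by_cases h1 : d ^ 2 ∣ m
      · rw [if_pos h1]
        by_cases h2 : Odd d ∧ ∃ j, u = (d * (2 * j + 1)) ^ 2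
        · rw [if_pos ⟨h1, h2⟩, Int.cast_mul,
            (ZMod.intCast_eq_one_iff_odd).2 ((hq d h1).2.2 h2), mul_one]
        · rw [if_neg (fun h => h2 h.2), Int.cast_mul]
          have : ((q d : ℤ) : ZMod 2) = 0 := by
            rw [ZMod.intCast_eq_zero_iff_even, ← Int.not_odd_iff_even]
            exact fun h => h2 ((hq d h1).2.1 h)
          rw [this, mul_zero]
      · rw [if_neg h1, if_neg (fun h => h1 h.1)]
    rw [← ZMod.intCast_eq_one_iff_odd, hcast]
    have hmk : m = 2 ^ k ↔ u = 1 := by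
      constructor
      · intro h
        have h2 : 2 ^ k * u = 2 ^ k * 1 := by rw [← hmu, mul_one]; exact h
        exact Nat.eq_of_mul_eq_mul_left (by positivity) h2
      · intro h
        rw [h, mul_one] at hmu
        exact hmu
    rw [hmk]
    by_cases hsq : ∃ a, u = a ^ 2
    · obtain ⟨a, ha⟩ := hsq
      have haodd : Odd a := by
        rw [ha] at hu
        exact (Nat.odd_pow_iff (by norm_num)).1 hu
      have ha0 : a ≠ 0 := by rintro rfl; simp at haodd
      have hset : (m.divisors.filter fun d => d ^ 2 ∣ m ∧ Odd d ∧ ∃ j, u = (d * (2 * j + 1)) ^ 2) =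
          a.divisors := by
        ext d
        rw [Finset.mem_filter, Nat.mem_divisors, Nat.mem_divisors]
        constructor
        · rintro ⟨_, _, _, j, hj⟩
          refine ⟨?_, ha0⟩
          rw [ha] at hj
          have : a = d * (2 * j + 1) := Nat.pow_left_injective (by norm_num : (2 : ℕ) ≠ 0) hj
          exact ⟨_, this⟩
        · rintro ⟨⟨c, hc⟩, _⟩
          have hdo : Odd d := by
            rw [hc] at haodd
            exact (Nat.odd_mul.1 haodd).1
          have hco : Odd c := by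
            rw [hc] at haodd
            exact (Nat.odd_mul.1 haodd).2
          obtain ⟨j, hj⟩ := hco
          have h1 : d ^ 2 ∣ m := by
            rw [hmu, ha, hc, mul_pow]
            exact Dvd.dvd.mul_left (Dvd.intro _ rfl) _
          refine ⟨⟨(Dvd.intro_left (d ^ 1) (by ring)).trans h1, by omega⟩, h1, hdo, j, ?_⟩
          rw [ha, hc, hj]
      rw [hset]
      have hmob : ∑ d ∈ a.divisors, ArithmeticFunction.moebius d = if a = 1 then 1 else 0 := by
        rw [← ArithmeticFunction.coe_mul_zeta_apply, ArithmeticFunction.moebius_mul_coe_zeta,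
          ArithmeticFunction.one_apply]
      rw [hmob]
      by_cases h1 : a = 1
      · rw [if_pos h1]
        simp [ha, h1]
      · rw [if_neg h1]
        constructor
        · intro h
          simp at h
        · intro h
          exfalso
          apply h1
          rw [ha] at h
          nlinarith [h, Nat.pos_of_ne_zero ha0]
    · have hset : (m.divisors.filter fun d => d ^ 2 ∣ m ∧ Odd d ∧ ∃ j, u = (d * (2 * j + 1)) ^ 2) =
          ∅ := by
        rw [Finset.filter_eq_empty_iff]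
        rintro d _ ⟨_, _, j, hj⟩
        exact hsq ⟨_, hj⟩
      rw [hset, Finset.sum_empty]
      constructor
      · intro h
        simp at h
      · intro h
        exact absurd ⟨1, by rw [h]; norm_num⟩ hsq

open Classical in
/-- the `n` with `n d² ∈ F` for some `d ≥ 1`: the primitive vectors of the shells `S_n` with these
`n` give every direction met by the shells `S_m`, `m ∈ F`, exactly once. -/
noncomputable def base (F : Finset ℕ) : Finset ℕ :=
  (F.biUnion Nat.divisors).filter fun n => ∃ d : ℕ, n * d ^ 2 ∈ F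

theorem mem_base (F : Finset ℕ) (hF : ∀ m ∈ F, 1 ≤ m) (n : ℕ) :
    n ∈ base F ↔ ∃ d : ℕ, n * d ^ 2 ∈ F := by
  classical
  unfold base
  rw [Finset.mem_filter, Finset.mem_biUnion]
  constructor
  · exact fun h => h.2
  · rintro ⟨d, hd⟩
    exact ⟨⟨_, hd, Nat.mem_divisors.2 ⟨Dvd.intro _ rfl, by have := hF _ hd; omega⟩⟩, d, hd⟩

/-- Sets of directions. -/
theorem dirs (F : Finset ℕ) (hF : ∀ m ∈ F, 1 ≤ m) (s : ℕ) (hs : 4 ≤ s) (K a : ℕ)
    (hK : ∀ m ∈ F, ¬ 2 ^ (K + 1) ∣ m) (hmem : 2 ^ K * a ^ 2 ∈ F) :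
    ∑ m ∈ base F, (tauPrim m : ℚ) / (m : ℚ) ^ s ≠ 0 ∧
    padicValRat 2 (∑ m ∈ base F, (tauPrim m : ℚ) / (m : ℚ) ^ s) = -(((s - 3) * K : ℕ) : ℤ) := by
  classical
  have hB : ∀ m ∈ base F, 1 ≤ m := by
    intro m hm
    obtain ⟨d, hd⟩ := (mem_base F hF m).1 hm
    have := hF _ hd
    rcases Nat.eq_zero_or_pos m with h | h
    · rw [h, zero_mul] at this; omega
    · exact h
  have hKB : ∀ m ∈ base F, padicValNat 2 m ≤ K := by
    intro m hm
    apply val_le_of_not_dvd m K (hB m hm)
    obtain ⟨d, hd⟩ := (mem_base F hF m).1 hm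
    exact fun h => hK _ hd (Dvd.dvd.mul_right h _)
  have hch : ∀ m : ℕ, ∃ b : ℤ, 1 ≤ m → tauPrim m = 8 ^ (padicValNat 2 m) * b ∧
      (Odd b ↔ m = 2 ^ (padicValNat 2 m)) := by
    intro m
    by_cases hm : 1 ≤ m
    · obtain ⟨b, hb⟩ := tauPrim_form m hm
      exact ⟨b, fun _ => hb⟩
    · exact ⟨0, fun h => absurd h hm⟩
  choose b hb using hch
  obtain ⟨D, T, hD, hT, hS⟩ := key (base F) hB s hs K hKB tauPrim b
    (fun m hm => (hb m (hB m hm)).1) (by
      have h1 : 2 ^ K ∈ (base F).filter fun m => padicValNat 2 m = K := by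
        rw [Finset.mem_filter, mem_base F hF]
        exact ⟨⟨a, hmem⟩, padicValNat.prime_pow K⟩
      rw [← Finset.add_sum_erase _ _ h1]
      have h2 : Odd (b (2 ^ K)) := by
        rw [(hb (2 ^ K) Nat.one_le_two_pow).2, padicValNat.prime_pow]
      apply h2.add_even
      apply Finset.even_sum
      intro m hm
      rw [Finset.mem_erase, Finset.mem_filter] at hm
      obtain ⟨h3, h4, h5⟩ := hm
      rw [← Int.not_odd_iff_even, (hb m (hB m h4)).2, h5]
      exact h3)
  exact val_of _ D T _ hD hT hS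

/-- an interval of integers containing a power of 2 has a unique element of largest 2-adic
valuation, the largest power of 2 in it. -/
theorem interval (N M : ℕ) (hN : 1 ≤ N) (h : ∃ j, N ≤ 2 ^ j ∧ 2 ^ j ≤ M) :
    ∃ K, 2 ^ K ∈ Finset.Icc N M ∧ (∀ m ∈ Finset.Icc N M, ¬ 2 ^ (K + 1) ∣ m) ∧
      ∀ m ∈ Finset.Icc N M, 2 ^ K ∣ m → m = 2 ^ K := by
  classical
  obtain ⟨j, hj1, hj2⟩ := h
  have hM : M ≠ 0 := by
    have := Nat.one_le_two_pow (n := j)
    omega
  refine ⟨Nat.log 2 M, ?_, ?_, ?_⟩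
  · rw [Finset.mem_Icc]
    refine ⟨hj1.trans (Nat.pow_le_pow_right (by norm_num) ?_), Nat.pow_log_le_self 2 hM⟩
    exact (Nat.le_log_iff_pow_le (by norm_num) hM).2 hj2
  · intro m hm hd
    rw [Finset.mem_Icc] at hm
    have h1 := Nat.le_of_dvd (by omega) hd
    have h2 := Nat.lt_pow_succ_log_self (b := 2) (by norm_num) M
    omega
  · intro m hm hd
    rw [Finset.mem_Icc] at hm
    obtain ⟨c, hc⟩ := hd
    have h2 := Nat.lt_pow_succ_log_self (b := 2) (by norm_num) M
    have hc1 : c < 2 := by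
      by_contra hcon
      have : 2 ^ (Nat.log 2 M).succ ≤ m := by
        rw [hc, pow_succ]
        exact Nat.mul_le_mul_left _ (by omega)
      omega
    have hc0 : c ≠ 0 := by
      rintro rfl
      omega
    have : c = 1 := by omega
    rw [hc, this, mul_one]

end Pool.Agent.X3.Tau
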