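import Pool.Agent.X3.Tau2

set_option autoImplicit false

/-! Ramanujan's function: descent at a prime for the sums over unions of shells. -/

namespace Pool.Agent.X3.Tau

open Finset

theorem ppart (p : ℕ) (hp : p.Prime) (m : ℕ) (hm : 1 ≤ m) :
    ∃ k u, ¬ p ∣ u ∧ m = p ^ k * u := by
  obtain ⟨k, u, hu, hk⟩ := Nat.exists_eq_pow_mul_and_not_dvd (n := m) (by omega) p hp.ne_one
  exact ⟨k, u, hu, hk⟩

/-- the top part of a vanishing sum of fractions -/
theorem top (p : ℕ) (hp : p.Prime) (s : ℕ) (hs : 1 ≤ s) (F : Finset ℕ) (hF : ∀ m ∈ F, 1 ≤ m)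
    (K : ℕ) (hK : ∀ m ∈ F, ¬ p ^ (K + 1) ∣ m) (a : ℕ → ℤ)
    (hS : ∑ m ∈ F, (a m : ℚ) / (m : ℚ) ^ s = 0) :
    ∑ m ∈ F with p ^ K ∣ m, (a m : ZMod (p ^ s)) * (((m / p ^ K : ℕ) : ZMod (p ^ s))⁻¹) ^ s = 0 := by
  classical
  have hch : ∀ m : ℕ, ∃ k u : ℕ, 1 ≤ m → ¬ p ∣ u ∧ m = p ^ k * u := by
    intro m
    by_cases hm : 1 ≤ m
    · obtain ⟨k, u, hu⟩ := ppart p hp m hm
      exact ⟨k, u, fun _ => hu⟩
    · exact ⟨0, 0, fun h => absurd h hm⟩
  choose e o ho using hch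
  have heK : ∀ m ∈ F, e m ≤ K := by
    intro m hm
    by_contra hc
    obtain ⟨h1, h2⟩ := ho m (hF m hm)
    apply hK m hm
    rw [h2]
    exact Dvd.dvd.mul_right (pow_dvd_pow p (by omega)) _
  have heK2 : ∀ m ∈ F, (p ^ K ∣ m ↔ e m = K) := by
    intro m hm
    obtain ⟨h1, h2⟩ := ho m (hF m hm)
    constructor
    · intro hd
      by_contra hne
      have hlt : e m < K := lt_of_le_of_ne (heK m hm) hne
      apply h1
      have h3 : p ^ (e m + 1) ∣ p ^ e m * o m := by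
        rw [← h2]
        exact (pow_dvd_pow p (by omega)).trans hd
      rw [pow_succ] at h3
      exact Nat.dvd_of_mul_dvd_mul_left (pow_pos hp.pos _) h3
    · intro h
      conv_rhs => rw [h2]
      rw [h]
      exact Dvd.intro _ rfl
  have hou : ∀ m ∈ F, ((o m : ℕ) : ZMod (p ^ s)) * ((o m : ℕ) : ZMod (p ^ s))⁻¹ = 1 := by
    intro m hm
    apply ZMod.coe_mul_inv_eq_one
    apply Nat.Coprime.pow_right
    exact ((Nat.Prime.coprime_iff_not_dvd hp).2 (ho m (hF m hm)).1).symm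
  -- the integral identity
  have hint : ∑ m ∈ F, a m * (p : ℤ) ^ (s * (K - e m)) * ∏ j ∈ F.erase m, (o j : ℤ) ^ s = 0 := by
    have h1 : ((∑ m ∈ F, a m * (p : ℤ) ^ (s * (K - e m)) * ∏ j ∈ F.erase m, (o j : ℤ) ^ s : ℤ) : ℚ)
        = (∏ j ∈ F, (o j : ℚ) ^ s) * (p : ℚ) ^ (s * K) * ∑ m ∈ F, (a m : ℚ) / (m : ℚ) ^ s := by
      rw [Finset.mul_sum]
      push_cast
      apply Finset.sum_congr rfl
      intro m hm
      obtain ⟨h1, h2⟩ := ho m (hF m hm)
      have hp0 : (p : ℚ) ≠ 0 := by exact_mod_cast hp.ne_zero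
      have ho0 : (o m : ℚ) ≠ 0 := by
        have : o m ≠ 0 := by
          intro h
          apply h1
          rw [h]
          exact dvd_zero p
        exact_mod_cast this
      have h4 : (m : ℚ) ^ s = (p : ℚ) ^ (s * e m) * (o m : ℚ) ^ s := by
        conv_lhs => rw [h2]
        push_cast
        rw [mul_pow, ← pow_mul, mul_comm (e m) s]
      rw [h4, ← Finset.mul_prod_erase F (fun j => ((o j : ℚ)) ^ s) hm]
      have h5 : (p : ℚ) ^ (s * K) = (p : ℚ) ^ (s * (K - e m)) * (p : ℚ) ^ (s * e m) := by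
        rw [← pow_add, ← Nat.mul_add, Nat.sub_add_cancel (heK m hm)]
      rw [h5, mul_div_assoc', eq_div_iff (by positivity)]
      ring
    rw [hS, mul_zero] at h1
    exact_mod_cast h1
  have hz := congrArg (fun z : ℤ => (z : ZMod (p ^ s))) hint
  simp only [Int.cast_zero] at hz
  push_cast at hz
  -- multiply by the inverses
  have hprod : ∀ m ∈ F, (∏ j ∈ F.erase m, ((o j : ℕ) : ZMod (p ^ s)) ^ s) *
      (∏ j ∈ F, (((o j : ℕ) : ZMod (p ^ s))⁻¹) ^ s) = (((o m : ℕ) : ZMod (p ^ s))⁻¹) ^ s := by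
    intro m hm
    rw [← Finset.mul_prod_erase F (fun j => (((o j : ℕ) : ZMod (p ^ s))⁻¹) ^ s) hm]
    have : (∏ j ∈ F.erase m, ((o j : ℕ) : ZMod (p ^ s)) ^ s) *
        (∏ j ∈ F.erase m, (((o j : ℕ) : ZMod (p ^ s))⁻¹) ^ s) = 1 := by
      rw [← Finset.prod_mul_distrib]
      apply Finset.prod_eq_one
      intro j hj
      rw [← mul_pow, hou j (Finset.mem_of_mem_erase hj), one_pow]
    calc _ = (((o m : ℕ) : ZMod (p ^ s))⁻¹) ^ s * ((∏ j ∈ F.erase m, ((o j : ℕ) : ZMod (p ^ s)) ^ s) *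
        (∏ j ∈ F.erase m, (((o j : ℕ) : ZMod (p ^ s))⁻¹) ^ s)) := by ring
      _ = _ := by rw [this, mul_one]
  have h6 : ∑ m ∈ F, (a m : ZMod (p ^ s)) * (p : ZMod (p ^ s)) ^ (s * (K - e m)) *
      (((o m : ℕ) : ZMod (p ^ s))⁻¹) ^ s = 0 := by
    have h7 : ∑ m ∈ F, (a m : ZMod (p ^ s)) * (p : ZMod (p ^ s)) ^ (s * (K - e m)) *
        (((o m : ℕ) : ZMod (p ^ s))⁻¹) ^ s =
        (∑ m ∈ F, (a m : ZMod (p ^ s)) * (p : ZMod (p ^ s)) ^ (s * (K - e m)) *
          ∏ j ∈ F.erase m, ((o j : ℕ) : ZMod (p ^ s)) ^ s) *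
        (∏ j ∈ F, (((o j : ℕ) : ZMod (p ^ s))⁻¹) ^ s) := by
      rw [Finset.sum_mul]
      apply Finset.sum_congr rfl
      intro m hm
      rw [← hprod m hm]
      ring
    rw [h7, hz, zero_mul]
  rw [← h6, Finset.sum_filter]
  apply Finset.sum_congr rfl
  intro m hm
  obtain ⟨h1, h2⟩ := ho m (hF m hm)
  by_cases h : p ^ K ∣ m
  · rw [if_pos h]
    have he := (heK2 m hm).1 h
    have hdiv : m / p ^ K = o m := by
      conv_lhs => rw [h2, he]
      exact Nat.mul_div_cancel_left _ (pow_pos hp.pos _)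
    rw [hdiv, he, Nat.sub_self, mul_zero, pow_zero, mul_one]
  · rw [if_neg h]
    have hlt : e m < K := lt_of_le_of_ne (heK m hm) (fun hh => h ((heK2 m hm).2 hh))
    have hpz : (p : ZMod (p ^ s)) ^ (s * (K - e m)) = 0 := by
      have h8 : ((p ^ (s * (K - e m)) : ℕ) : ZMod (p ^ s)) = 0 := by
        rw [ZMod.natCast_eq_zero_iff]
        exact pow_dvd_pow p (Nat.le_mul_of_pos_right s (by omega))
      exact_mod_cast h8
    rw [hpz, mul_zero, zero_mul]

/-- the powers of `p` -/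
theorem ord_pow (p : ℕ) (hp : p.Prime) : ∃ c : ℕ → ℤ,
    (∀ k, ((c k : ℤ) : ZMod p) = ((tau p : ℤ) : ZMod p) ^ k) ∧
    ∀ k v : ℕ, ¬ p ∣ v → tau (p ^ k * v) = c k * tau v := by
  let g : ℕ → ℤ × ℤ := fun k => Nat.rec (1, tau p) (fun _ x => (x.2, tau p * x.2 - (p : ℤ) ^ 11 * x.1)) k
  have g0 : g 0 = (1, tau p) := rfl
  have gs : ∀ k, g (k + 1) = ((g k).2, tau p * (g k).2 - (p : ℤ) ^ 11 * (g k).1) := fun _ => rfl
  have hmod : ∀ k, (((g k).1 : ℤ) : ZMod p) = ((tau p : ℤ) : ZMod p) ^ k ∧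
      (((g k).2 : ℤ) : ZMod p) = ((tau p : ℤ) : ZMod p) ^ (k + 1) := by
    intro k
    induction k with
    | zero => rw [g0]; simp
    | succ k ih =>
      rw [gs]
      refine ⟨ih.2, ?_⟩
      simp only
      push_cast
      rw [ih.2, ZMod.natCast_self]
      ring
  refine ⟨fun k => (g k).1, fun k => (hmod k).1, ?_⟩
  have key : ∀ k v : ℕ, ¬ p ∣ v → tau (p ^ k * v) = (g k).1 * tau v ∧
      tau (p ^ (k + 1) * v) = (g k).2 * tau v := by
    intro k v hv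
    induction k with
    | zero =>
      have h := hecke p hp v
      rw [if_neg hv, add_zero] at h
      rw [g0]
      simp only [pow_zero, one_mul, zero_add, pow_one]
      exact ⟨trivial, h⟩
    | succ k ih =>
      obtain ⟨h1, h2⟩ := ih
      refine ⟨by rw [h2, gs], ?_⟩
      have h := hecke p hp (p ^ (k + 1) * v)
      have hd : p ^ (k + 1) * v = p * (p ^ k * v) := by rw [pow_succ]; ring
      rw [if_pos ⟨p ^ k * v, hd⟩] at h
      have hdiv : p ^ (k + 1) * v / p = p ^ k * v := by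
        rw [hd]; exact Nat.mul_div_cancel_left _ hp.pos
      rw [hdiv, h1, h2] at h
      have he : p ^ (k + 1 + 1) * v = p * (p ^ (k + 1) * v) := by rw [pow_succ p (k + 1)]; ring
      rw [he, gs]
      simp only
      linear_combination h
  exact fun k v hv => (key k v hv).1

/-- **Descent** at an ordinary prime. -/
theorem descent (p : ℕ) (hp : p.Prime) (hord : ¬ (p : ℤ) ∣ tau p) (s : ℕ) (hs : 1 ≤ s)
    (F : Finset ℕ) (hF : ∀ m ∈ F, 1 ≤ m) (K : ℕ) (hK : ∀ m ∈ F, ¬ p ^ (K + 1) ∣ m) (n : ℕ → ℤ)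
    (hS : ∑ m ∈ F, (n m : ℚ) * (tau m : ℚ) / (m : ℚ) ^ s = 0) :
    ∑ m ∈ F with p ^ K ∣ m, ((n m * tau (m / p ^ K) : ℤ) : ZMod (p ^ s)) *
      (((m / p ^ K : ℕ) : ZMod (p ^ s))⁻¹) ^ s = 0 := by
  obtain ⟨c, hc, htau⟩ := ord_pow p hp
  have h1 := top p hp s hs F hF K hK (fun m => n m * tau m) (by
    rw [← hS]
    apply Finset.sum_congr rfl
    intro m _
    push_cast
    rfl)
  have hunit : IsUnit ((c K : ℤ) : ZMod (p ^ s)) := by
    have hcop : IsCoprime (c K) ((p ^ s : ℕ) : ℤ) := by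
      push_cast
      apply IsCoprime.pow_right
      rw [Int.isCoprime_iff_gcd_eq_one, Int.gcd_comm]
      apply (Int.isCoprime_iff_gcd_eq_one).1
      have hpi : Prime (p : ℤ) := Nat.prime_iff_prime_int.1 hp
      rw [Prime.coprime_iff_not_dvd hpi]
      intro hd
      have h2 : ((c K : ℤ) : ZMod p) = 0 := (ZMod.intCast_zmod_eq_zero_iff_dvd _ _).2 hd
      rw [hc] at h2
      have : Fact p.Prime := ⟨hp⟩
      have h4 : ((tau p : ℤ) : ZMod p) ≠ 0 := by
        intro h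
        exact hord ((ZMod.intCast_zmod_eq_zero_iff_dvd _ _).1 h)
      exact (pow_ne_zero K h4) h2
    obtain ⟨x, y, hxy⟩ := hcop
    have h5 := congrArg (fun z : ℤ => (z : ZMod (p ^ s))) hxy
    simp only [Int.cast_add, Int.cast_mul, Int.cast_natCast, Int.cast_one] at h5
    rw [ZMod.natCast_self, mul_zero, add_zero] at h5
    exact IsUnit.of_mul_eq_one _ (by rw [mul_comm]; exact h5)
  have h6 : ((c K : ℤ) : ZMod (p ^ s)) * ∑ m ∈ F with p ^ K ∣ m,
      ((n m * tau (m / p ^ K) : ℤ) : ZMod (p ^ s)) * (((m / p ^ K : ℕ) : ZMod (p ^ s))⁻¹) ^ s = 0 := by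
    rw [← h1, Finset.mul_sum]
    apply Finset.sum_congr rfl
    intro m hm
    rw [Finset.mem_filter] at hm
    obtain ⟨v, hv⟩ := hm.2
    have hdiv : m / p ^ K = v := by
      rw [hv]; exact Nat.mul_div_cancel_left _ (pow_pos hp.pos _)
    have hpv : ¬ p ∣ v := by
      rintro ⟨w, hw⟩
      apply hK m hm.1
      rw [hv, hw, pow_succ]
      exact ⟨w, by ring⟩
    have : tau m = c K * tau v := by rw [hv]; exact htau K v hpv
    rw [hdiv, this]
    push_cast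
    ring
  exact (hunit.mul_right_eq_zero).1 h6

/-- **Isolated prime powers.** -/
theorem isolated (p : ℕ) (hp : p.Prime) (s : ℕ) (hs : 1 ≤ s)
    (F : Finset ℕ) (hF : ∀ m ∈ F, 1 ≤ m) (n : ℕ → ℤ)
    (hS : ∑ m ∈ F, (n m : ℚ) * (tau m : ℚ) / (m : ℚ) ^ s = 0) (m k : ℕ) (hm : m ∈ F)
    (h1 : p ^ k ∣ m) (h2 : ¬ p ^ (k + 1) ∣ m) (huniq : ∀ j ∈ F, p ^ k ∣ j → j = m) :
    (p : ℤ) ^ s ∣ n m * tau m := by
  classical
  have h3 := top p hp s hs F hF k (by
    intro j hj hd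
    have := huniq j hj ((pow_dvd_pow p (by omega)).trans hd)
    subst this
    exact h2 hd) (fun m => n m * tau m) (by
    rw [← hS]
    apply Finset.sum_congr rfl
    intro m _
    push_cast
    rfl)
  have h4 : (F.filter fun j => p ^ k ∣ j) = {m} := by
    ext j
    rw [Finset.mem_filter, Finset.mem_singleton]
    constructor
    · rintro ⟨hj, hd⟩
      exact huniq j hj hd
    · rintro rfl
      exact ⟨hm, h1⟩
  rw [h4, Finset.sum_singleton] at h3
  obtain ⟨v, hv⟩ := h1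
  have hdiv : m / p ^ k = v := by
    rw [hv]; exact Nat.mul_div_cancel_left _ (pow_pos hp.pos _)
  have hpv : ¬ p ∣ v := by
    rintro ⟨w, hw⟩
    apply h2
    rw [hv, hw, pow_succ]
    exact ⟨w, by ring⟩
  rw [hdiv] at h3
  have hinv : ((v : ℕ) : ZMod (p ^ s)) * ((v : ℕ) : ZMod (p ^ s))⁻¹ = 1 := by
    apply ZMod.coe_mul_inv_eq_one
    apply Nat.Coprime.pow_right
    exact ((Nat.Prime.coprime_iff_not_dvd hp).2 hpv).symm
  have h5 : ((n m * tau m : ℤ) : ZMod (p ^ s)) = 0 := by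
    have h6 : ((n m * tau m : ℤ) : ZMod (p ^ s)) = ((n m * tau m : ℤ) : ZMod (p ^ s)) *
        (((v : ℕ) : ZMod (p ^ s)) * ((v : ℕ) : ZMod (p ^ s))⁻¹) ^ s := by
      rw [hinv, one_pow, mul_one]
    rw [h6, mul_pow, mul_comm (((v : ℕ) : ZMod (p ^ s)) ^ s), ← mul_assoc, h3, zero_mul]
  have h7 := (ZMod.intCast_zmod_eq_zero_iff_dvd _ _).1 h5
  push_cast at h7
  exact h7

end Pool.Agent.X3.Tau
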